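import Pool.Agent.Work.MP_216d61_lc_full.InterfaceINF

/-!
# BASE2: edge counting toolkit
-/

set_option autoImplicit false

namespace Pool.Agent.Work.MP_216d61_lc

open Relation Set

section hat

variable {r : ℕ} {V : Type} {G : SimpleGraph V} {A : Fin r → V → Prop} {F F' : Set V} {ρ : ℝ}

@[simp] theorem hat_adj_ll (a b : Fin r) : (Hat G A).Adj (Sum.inl a) (Sum.inl b) ↔ False := by
  simp [Hat, Glue]

@[simp] theorem hat_adj_lr (a : Fin r) (x : V) :
    (Hat G A).Adj (Sum.inl a) (Sum.inr x) ↔ A a x := by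
  simp [Hat, Glue]

@[simp] theorem hat_adj_rl (a : Fin r) (x : V) :
    (Hat G A).Adj (Sum.inr x) (Sum.inl a) ↔ A a x := by
  simp [Hat, Glue]

@[simp] theorem hat_adj_rr (x y : V) :
    (Hat G A).Adj (Sum.inr x) (Sum.inr y) ↔ G.Adj x y := by
  simp [Hat, Glue]

/-- The pairs counted by `inc2` form a finite set. -/
theorem inc2_fin {V : Type*} {G : SimpleGraph V} {F : Set V} (hF : F.Finite)
    (hn : (nb G F).Finite) :
    {p : V × V | G.Adj p.1 p.2 ∧ (p.1 ∈ F ∨ p.2 ∈ F)}.Finite := by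
  refine ((hF.union hn).prod (hF.union hn)).subset ?_
  rintro ⟨x, y⟩ ⟨h, h'⟩
  simp only at h h'
  by_cases hx : x ∈ F
  · refine ⟨Or.inl hx, ?_⟩
    by_cases hy : y ∈ F
    · exact Or.inl hy
    · exact Or.inr ⟨hy, x, hx, h⟩
  · have hy : y ∈ F := h'.resolve_left hx
    exact ⟨Or.inr ⟨hx, y, hy, h.symm⟩, Or.inl hy⟩

theorem nb_fin_of_lf {V : Type*} {G : SimpleGraph V} {F : Set V} (lf : ∀ x, {y | G.Adj x y}.Finite)
    (hF : F.Finite) : (nb G F).Finite := by
  refine (hF.biUnion fun x _ => lf x).subset ?_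
  rintro y ⟨_, x, hx, h⟩
  exact mem_biUnion hx h

theorem labc_fin {r : ℕ} {V : Type*} {A : Fin r → V → Prop} {F : Set V} (hF : F.Finite) :
    {p : Fin r × V | p.2 ∈ F ∧ A p.1 p.2}.Finite := by
  refine ((finite_univ (α := Fin r)).prod hF).subset ?_
  rintro ⟨a, x⟩ ⟨h, _⟩
  exact ⟨mem_univ _, h⟩

theorem nb_hat : nb (Hat G A) (Sum.inr '' F) =
    (Sum.inl '' labs A F : Set (Fin r ⊕ V)) ∪ Sum.inr '' nb G F := by
  ext z
  constructor
  · rintro ⟨h1, _, ⟨x, hx, rfl⟩, h2⟩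
    rcases z with a | y
    · rw [hat_adj_rl] at h2
      exact Or.inl ⟨a, ⟨x, hx, h2⟩, rfl⟩
    · rw [hat_adj_rr] at h2
      exact Or.inr ⟨y, ⟨fun hy => h1 ⟨y, hy, rfl⟩, x, hx, h2⟩, rfl⟩
  · rintro (⟨a, ⟨x, hx, h⟩, rfl⟩ | ⟨y, ⟨hy, x, hx, h⟩, rfl⟩)
    · refine ⟨?_, Sum.inr x, ⟨x, hx, rfl⟩, by rwa [hat_adj_rl]⟩
      rintro ⟨y, _, hy⟩
      cases hy
    · refine ⟨?_, Sum.inr x, ⟨x, hx, rfl⟩, by rwa [hat_adj_rr]⟩
      rintro ⟨z, hz, hzy⟩
      cases hzy
      exact hy hz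

/-- `inc2` of the graph with roots is the count with labels. -/
theorem inc2_hat' (hF : F.Finite) (hn : (nb G F).Finite) :
    inc2 (Hat G A) (Sum.inr '' F) = incL G A F := by
  have e : {p : (Fin r ⊕ V) × (Fin r ⊕ V) | (Hat G A).Adj p.1 p.2 ∧
      (p.1 ∈ (Sum.inr '' F : Set (Fin r ⊕ V)) ∨ p.2 ∈ (Sum.inr '' F : Set (Fin r ⊕ V)))} =
      ((fun p : V × V => ((Sum.inr p.1 : Fin r ⊕ V), (Sum.inr p.2 : Fin r ⊕ V))) ''
        {p : V × V | G.Adj p.1 p.2 ∧ (p.1 ∈ F ∨ p.2 ∈ F)}) ∪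
      (((fun p : Fin r × V => ((Sum.inl p.1 : Fin r ⊕ V), (Sum.inr p.2 : Fin r ⊕ V))) ''
        {p : Fin r × V | p.2 ∈ F ∧ A p.1 p.2}) ∪
      ((fun p : Fin r × V => ((Sum.inr p.2 : Fin r ⊕ V), (Sum.inl p.1 : Fin r ⊕ V))) ''
        {p : Fin r × V | p.2 ∈ F ∧ A p.1 p.2})) := by
    ext ⟨u, v⟩
    constructor
    · rintro ⟨h1, h2⟩
      rcases u with a | x <;> rcases v with b | y
      · exact absurd h1 (by simp)
      · right; left
        rcases h2 with ⟨z, _, hz⟩ | ⟨z, hz, hz'⟩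
        · cases hz
        · cases hz'
          exact ⟨(a, y), ⟨hz, by simpa using h1⟩, rfl⟩
      · right; right
        rcases h2 with ⟨z, hz, hz'⟩ | ⟨z, _, hz⟩
        · cases hz'
          exact ⟨(b, x), ⟨hz, by simpa using h1⟩, rfl⟩
        · cases hz
      · left
        refine ⟨(x, y), ⟨by simpa using h1, ?_⟩, rfl⟩
        rcases h2 with ⟨z, hz, hz'⟩ | ⟨z, hz, hz'⟩
        · cases hz'; exact Or.inl hz
        · cases hz'; exact Or.inr hz
    · rintro (⟨⟨x, y⟩, ⟨h1, h2⟩, h3⟩ | ⟨⟨a, x⟩, ⟨h1, h2⟩, h3⟩ | ⟨⟨a, x⟩, ⟨h1, h2⟩, h3⟩)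
      · cases h3
        refine ⟨by simpa using h1, ?_⟩
        rcases h2 with h2 | h2
        · exact Or.inl ⟨x, h2, rfl⟩
        · exact Or.inr ⟨y, h2, rfl⟩
      · cases h3
        exact ⟨by simpa using h2, Or.inr ⟨x, h1, rfl⟩⟩
      · cases h3
        exact ⟨by simpa using h2, Or.inl ⟨x, h1, rfl⟩⟩
  have i1 : Function.Injective
      (fun p : V × V => ((Sum.inr p.1 : Fin r ⊕ V), (Sum.inr p.2 : Fin r ⊕ V))) := by
    rintro ⟨x, y⟩ ⟨x', y'⟩ h
    simpa using h
  have i2 : Function.Injective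
      (fun p : Fin r × V => ((Sum.inl p.1 : Fin r ⊕ V), (Sum.inr p.2 : Fin r ⊕ V))) := by
    rintro ⟨x, y⟩ ⟨x', y'⟩ h
    simpa using h
  have i3 : Function.Injective
      (fun p : Fin r × V => ((Sum.inr p.2 : Fin r ⊕ V), (Sum.inl p.1 : Fin r ⊕ V))) := by
    rintro ⟨x, y⟩ ⟨x', y'⟩ h
    simp only [Prod.mk.injEq, Sum.inr.injEq, Sum.inl.injEq] at h
    rw [h.1, h.2]
  have f1 := inc2_fin hF hn
  have f2 := labc_fin (A := A) hF
  unfold inc2 incL
  rw [e, ncard_union_eq ?_ (f1.image _) ((f2.image _).union (f2.image _)),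
    ncard_union_eq ?_ (f2.image _) (f2.image _), ncard_image_of_injective _ i1,
    ncard_image_of_injective _ i2, ncard_image_of_injective _ i3]
  · unfold inc2 labc
    ring
  · rw [disjoint_left]
    rintro _ ⟨p, _, rfl⟩ ⟨q, _, h⟩
    simp at h
  · rw [disjoint_left]
    rintro _ ⟨p, _, rfl⟩ (⟨q, _, h⟩ | ⟨q, _, h⟩) <;> simp at h

theorem inc2_hat (hF : F.Finite) (lf : ∀ x, {y | G.Adj x y}.Finite) :
    inc2 (Hat G A) (Sum.inr '' F) = incL G A F := inc2_hat' hF (nb_fin_of_lf lf hF)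

theorem MR.of_hat (h : MR ρ (Hat G A)) : MR ρ G :=
  h.minor (minor_of_inj Sum.inr Sum.inr_injective fun x y hxy => by simpa using hxy)

theorem MR.nonneg {W : Type} {X : SimpleGraph W} (h : MR ρ X) (w : W) : 0 ≤ ρ := by
  have hm : Minor (⊥ : SimpleGraph Unit) X :=
    minor_of_inj (fun _ => w) (fun _ _ _ => rfl) fun i j hij => absurd hij (by simp)
  have := h Unit ⊥ hm
  have h0 : (0 : ℝ) ≤ e2 (⊥ : SimpleGraph Unit) := Nat.cast_nonneg _
  simp only [Nat.card_unique, Nat.cast_one, mul_one] at this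
  linarith

/-- The edge bound for a finite part of a graph in `M_ρ`. -/
theorem inc2_le_of_MR {W : Type} {X : SimpleGraph W} (h : MR ρ X) {U : Set W} (hU : U.Finite)
    (hn : (nb X U).Finite) : (inc2 X U : ℝ) ≤ 2 * ρ * (U.ncard + (nb X U).ncard) := by
  classical
  have hfin : (U ∪ nb X U).Finite := hU.union hn
  have : Fintype ↥(U ∪ nb X U) := hfin.fintype
  have hm : Minor (X.induce (U ∪ nb X U)) X :=
    minor_of_inj Subtype.val Subtype.val_injective fun _ _ hij => hij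
  have h1 := h _ _ hm
  have hcard : Nat.card ↥(U ∪ nb X U) = U.ncard + (nb X U).ncard := by
    rw [← ncard_union_eq ?_ hU hn]
    · rfl
    · rw [disjoint_left]
      intro x hx hx'
      exact hx'.1 hx
  rw [hcard] at h1
  push_cast at h1
  refine le_trans ?_ h1
  have h2 : inc2 X U ≤ e2 (X.induce (U ∪ nb X U)) := by
    unfold inc2 e2
    rw [← ncard_coe_finset]
    have hsub : {p : W × W | X.Adj p.1 p.2 ∧ (p.1 ∈ U ∨ p.2 ∈ U)} ⊆
        (fun p : ↥(U ∪ nb X U) × ↥(U ∪ nb X U) => ((p.1 : W), (p.2 : W))) ''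
          ((Finset.univ.filter fun p : ↥(U ∪ nb X U) × ↥(U ∪ nb X U) =>
            (X.induce (U ∪ nb X U)).Adj p.1 p.2 : Finset _) : Set _) := by
      rintro ⟨x, y⟩ ⟨h, h'⟩
      simp only at h h'
      have hx : x ∈ U ∪ nb X U := by
        by_cases hx : x ∈ U
        · exact Or.inl hx
        · exact Or.inr ⟨hx, y, h'.resolve_left hx, h.symm⟩
      have hy : y ∈ U ∪ nb X U := by
        by_cases hy : y ∈ U
        · exact Or.inl hy
        · exact Or.inr ⟨hy, x, h'.resolve_right hy, h⟩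
      refine ⟨(⟨x, hx⟩, ⟨y, hy⟩), ?_, rfl⟩
      simp only [Finset.coe_filter, Finset.mem_univ, true_and, mem_ofPred_eq]
      exact h
    refine (ncard_le_ncard hsub ((Finset.finite_toSet _).image _)).trans ?_
    exact ncard_image_le (Finset.finite_toSet _)
  exact_mod_cast h2

theorem labs_ncard_le : (labs A F).ncard ≤ r := by
  have := ncard_le_ncard (subset_univ (labs A F)) finite_univ
  rwa [ncard_univ, Nat.card_eq_fintype_card, Fintype.card_fin] at this

theorem gn_le (h : MR ρ (Hat G A)) (hF : F.Finite) (hn : (nb G F).Finite) :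
    gn ρ G A F ≤ 2 * ρ * ((nb G F).ncard + r) := by
  rcases F.eq_empty_or_nonempty with h0 | ⟨x0, hx0⟩
  · subst h0
    unfold gn incL inc2 labc nb
    simp only [mem_empty_iff_false, or_self, and_false, false_and, ofPred_false, ncard_empty,
      exists_const, not_false_eq_true]
    by_cases hr : r = 0
    · subst hr; simp
    · have h1 := h.nonneg (Sum.inl ⟨0, Nat.pos_of_ne_zero hr⟩)
      have h2 : (0 : ℝ) ≤ r := Nat.cast_nonneg _
      simp only [Nat.cast_zero, mul_zero, add_zero, sub_zero, zero_add]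
      positivity
  have hρ := h.nonneg (Sum.inr x0)
  have hn' : (nb (Hat G A) (Sum.inr '' F)).Finite := by
    rw [nb_hat]
    exact ((toFinite _).image _).union (hn.image _)
  have h1 := inc2_le_of_MR h (hF.image _) hn'
  rw [inc2_hat' hF hn, ncard_image_of_injective _ Sum.inr_injective, nb_hat,
    ncard_union_eq ?_ ((toFinite _).image _) (hn.image _),
    ncard_image_of_injective _ Sum.inl_injective,
    ncard_image_of_injective _ Sum.inr_injective] at h1
  · unfold gn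
    have h2 : ((labs A F).ncard : ℝ) ≤ r := by exact_mod_cast labs_ncard_le
    push_cast at h1
    nlinarith
  · rw [disjoint_left]
    rintro _ ⟨p, _, rfl⟩ ⟨q, _, h⟩
    cases h

theorem inc2_union {V : Type*} {G : SimpleGraph V} {F F' : Set V} (hF : F.Finite)
    (hF' : F'.Finite) (hn : (nb G F).Finite) (hn' : (nb G F').Finite) (hd : Disjoint F F')
    (hd' : Disjoint F (nb G F')) : inc2 G (F ∪ F') = inc2 G F + inc2 G F' := by
  unfold inc2
  rw [← ncard_union_eq ?_ (inc2_fin hF hn) (inc2_fin hF' hn')]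
  · congr 1
    ext p
    simp only [mem_union, mem_ofPred_eq]
    tauto
  · rw [disjoint_left]
    rintro ⟨x, y⟩ ⟨h1, h2⟩ ⟨_, h3⟩
    simp only at h1 h2 h3
    have key : ∀ x y, G.Adj x y → x ∈ F → y ∈ F' → False := by
      intro x y hxy hx hy
      exact disjoint_left.1 hd' hx ⟨fun hx' => disjoint_left.1 hd hx hx', y, hy, hxy.symm⟩
    rcases h2 with h2 | h2 <;> rcases h3 with h3 | h3
    · exact disjoint_left.1 hd h2 h3
    · exact key x y h1 h2 h3
    · exact key y x h1.symm h2 h3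
    · exact disjoint_left.1 hd h2 h3

theorem labc_union {r : ℕ} {V : Type*} {A : Fin r → V → Prop} {F F' : Set V} (hF : F.Finite)
    (hF' : F'.Finite) (hd : Disjoint F F') : labc A (F ∪ F') = labc A F + labc A F' := by
  unfold labc
  rw [← ncard_union_eq ?_ (labc_fin hF) (labc_fin hF')]
  · congr 1
    ext p
    simp only [mem_union, mem_ofPred_eq]
    tauto
  · rw [disjoint_left]
    rintro ⟨a, x⟩ ⟨h1, _⟩ ⟨h3, _⟩
    exact disjoint_left.1 hd h1 h3

theorem incL_union' (hF : F.Finite) (hF' : F'.Finite) (hn : (nb G F).Finite)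
    (hn' : (nb G F').Finite) (hd : Disjoint F F') (hd' : Disjoint F (nb G F')) :
    incL G A (F ∪ F') = incL G A F + incL G A F' := by
  unfold incL
  rw [inc2_union hF hF' hn hn' hd hd', labc_union hF hF' hd]
  ring

theorem incL_union (lf : ∀ x, {y | G.Adj x y}.Finite) (hF : F.Finite) (hF' : F'.Finite)
    (hd : Disjoint F F') (hd' : Disjoint F (nb G F')) :
    incL G A (F ∪ F') = incL G A F + incL G A F' :=
  incL_union' hF hF' (nb_fin_of_lf lf hF) (nb_fin_of_lf lf hF') hd hd'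

theorem gn_union (lf : ∀ x, {y | G.Adj x y}.Finite) (hF : F.Finite) (hF' : F'.Finite)
    (hd : Disjoint F F') (hd' : Disjoint F (nb G F')) :
    gn ρ G A (F ∪ F') = gn ρ G A F + gn ρ G A F' := by
  unfold gn
  rw [incL_union lf hF hF' hd hd', ncard_union_eq hd hF hF']
  push_cast
  ring

theorem inc2_empty {V : Type*} (G : SimpleGraph V) : inc2 G ∅ = 0 := by
  unfold inc2
  simp

theorem labc_empty {r : ℕ} {V : Type*} (A : Fin r → V → Prop) : labc A ∅ = 0 := by
  unfold labc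
  simp

theorem incL_empty : incL G A ∅ = 0 := by
  unfold incL
  rw [inc2_empty, labc_empty]

theorem gn_empty : gn ρ G A ∅ = 0 := by
  unfold gn
  rw [incL_empty]
  simp

/-- Removing a vertex. -/
theorem incL_erase' (hF : F.Finite) (hn : (nb G F).Finite) {x : V} (hx : x ∈ F) :
    incL G A F = incL G A (F \ {x}) +
      2 * ({y | G.Adj x y ∧ y ∉ F}.ncard + {a | A a x}.ncard) := by
  have f1 := inc2_fin hF hn
  have hsub : {p : V × V | G.Adj p.1 p.2 ∧ (p.1 ∈ F \ {x} ∨ p.2 ∈ F \ {x})} ⊆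
      {p : V × V | G.Adj p.1 p.2 ∧ (p.1 ∈ F ∨ p.2 ∈ F)} := by
    rintro p ⟨h1, h2⟩
    exact ⟨h1, h2.imp (fun h => h.1) (fun h => h.1)⟩
  have hfy : {y | G.Adj x y ∧ y ∉ F}.Finite := by
    refine hn.subset ?_
    rintro y ⟨h1, h2⟩
    exact ⟨h2, x, hx, h1⟩
  have e1 : inc2 G F = inc2 G (F \ {x}) + 2 * {y | G.Adj x y ∧ y ∉ F}.ncard := by
    unfold inc2
    have e : {p : V × V | G.Adj p.1 p.2 ∧ (p.1 ∈ F ∨ p.2 ∈ F)} =
        {p : V × V | G.Adj p.1 p.2 ∧ (p.1 ∈ F \ {x} ∨ p.2 ∈ F \ {x})} ∪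
        ((fun y => (x, y)) '' {y | G.Adj x y ∧ y ∉ F} ∪
          (fun y => (y, x)) '' {y | G.Adj x y ∧ y ∉ F}) := by
      ext ⟨u, v⟩
      constructor
      · rintro ⟨h1, h2⟩
        simp only at h1 h2
        by_cases hc : u ∈ F \ {x} ∨ v ∈ F \ {x}
        · exact Or.inl ⟨h1, hc⟩
        · right
          rw [not_or] at hc
          have cu : u ∈ F → u = x := fun hu => by
            by_contra hne; exact hc.1 ⟨hu, hne⟩
          have cv : v ∈ F → v = x := fun hv => by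
            by_contra hne; exact hc.2 ⟨hv, hne⟩
          rcases h2 with h2 | h2
          · have := cu h2
            subst this
            left
            refine ⟨v, ⟨h1, fun hv => ?_⟩, rfl⟩
            have := cv hv
            subst this
            exact h1.ne rfl
          · have := cv h2
            subst this
            right
            refine ⟨u, ⟨h1.symm, fun hu => ?_⟩, rfl⟩
            have := cu hu
            subst this
            exact h1.ne rfl
      · rintro (h | ⟨y, ⟨h1, h2⟩, h3⟩ | ⟨y, ⟨h1, h2⟩, h3⟩)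
        · exact hsub h
        · cases h3; exact ⟨h1, Or.inl hx⟩
        · cases h3; exact ⟨h1.symm, Or.inr hx⟩
    rw [e, ncard_union_eq ?_ (f1.subset hsub) ((hfy.image _).union (hfy.image _)),
      ncard_union_eq ?_ (hfy.image _) (hfy.image _),
      ncard_image_of_injective _ (Prod.mk_right_injective x),
      ncard_image_of_injective _ (Prod.mk_left_injective x)]
    · ring
    · rw [disjoint_left]
      rintro _ ⟨y, ⟨h1, h2⟩, rfl⟩ ⟨z, ⟨h3, h4⟩, h5⟩
      simp only [Prod.mk.injEq] at h5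
      exact h4 (h5.1 ▸ hx)
    · rw [disjoint_left]
      rintro ⟨u, v⟩ ⟨_, h⟩ (⟨y, ⟨h1, h2⟩, h3⟩ | ⟨y, ⟨h1, h2⟩, h3⟩)
      · simp only [Prod.mk.injEq] at h3
        obtain ⟨rfl, rfl⟩ := h3
        rcases h with h | h
        · exact h.2 rfl
        · exact h2 h.1
      · simp only [Prod.mk.injEq] at h3
        obtain ⟨rfl, rfl⟩ := h3
        rcases h with h | h
        · exact h2 h.1
        · exact h.2 rfl
  have e2 : labc A F = labc A (F \ {x}) + {a | A a x}.ncard := by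
    have hu : F = (F \ {x}) ∪ {x} := by
      rw [sdiff_union_self, union_eq_left.2 (singleton_subset_iff.2 hx)]
    have h1 := labc_union (A := A) (hF.subset sdiff_subset) (finite_singleton x)
      (disjoint_left.2 fun y hy hy' => hy.2 hy')
    rw [← hu] at h1
    rw [h1]
    congr 1
    unfold labc
    have e3 : {p : Fin r × V | p.2 ∈ ({x} : Set V) ∧ A p.1 p.2} =
        (fun a => (a, x)) '' {a | A a x} := by
      ext ⟨a, y⟩
      constructor
      · rintro ⟨h1, h2⟩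
        simp only [mem_singleton_iff] at h1
        subst h1
        exact ⟨a, h2, rfl⟩
      · rintro ⟨b, hb, h⟩
        cases h
        exact ⟨rfl, hb⟩
    rw [e3, ncard_image_of_injective _ (Prod.mk_left_injective x)]
  unfold incL
  rw [e1, e2]
  ring

theorem incL_erase (lf : ∀ x, {y | G.Adj x y}.Finite) (hF : F.Finite) {x : V} (hx : x ∈ F) :
    incL G A F = incL G A (F \ {x}) +
      2 * ({y | G.Adj x y ∧ y ∉ F}.ncard + {a | A a x}.ncard) :=
  incL_erase' hF (nb_fin_of_lf lf hF) hx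

theorem incL_le_erase (lf : ∀ x, {y | G.Adj x y}.Finite) (hF : F.Finite) {x : V} (hx : x ∈ F) :
    incL G A F ≤ incL G A (F \ {x}) +
      2 * ({y | G.Adj x y ∧ y ∉ F}.ncard + {a | A a x}.ncard) := (incL_erase lf hF hx).le

theorem incL_rat {a b : ℕ} (hρ : ρ = (a : ℝ) / ((b : ℝ) + 1)) :
    ∃ z : ℤ, gn ρ G A F = (z : ℝ) / ((b : ℝ) + 1) := by
  refine ⟨(incL G A F : ℤ) * (b + 1) - 2 * a * F.ncard, ?_⟩
  have hb : (0 : ℝ) < b + 1 := by positivity
  unfold gn
  rw [hρ]
  push_cast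
  field_simp

end hat

end Pool.Agent.Work.MP_216d61_lc
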