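import Pool.Agent.Work.MP_216d61_lc_full.InterfaceINF

/-!
# BASE 1: the connectivity toolkit
-/

set_option autoImplicit false

namespace Pool.Agent.Work.MP_216d61_lc

open Relation Set

section basic

variable {V : Type*} {G : SimpleGraph V} {S T F K H A B : Set V} {x y z : V}

/-! ### links -/

theorem Lnk.mem_left (h : Lnk G S x y) : x ∈ S := h.1

theorem Lnk.mem_right (h : Lnk G S x y) : y ∈ S := by
  rcases h.2.cases_tail with h3 | ⟨c, _, h4⟩
  · rw [h3]; exact h.1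
  · exact h4.2.2

theorem Lnk.refl (h : x ∈ S) : Lnk G S x x := ⟨h, ReflTransGen.refl⟩

theorem Lnk.symm (h : Lnk G S x y) : Lnk G S y x := ⟨h.mem_right, link_symm h.2⟩

theorem Lnk.trans (h : Lnk G S x y) (h' : Lnk G S y z) : Lnk G S x z := ⟨h.1, h.2.trans h'.2⟩

theorem Lnk.mono (h : Lnk G S x y) (hST : S ⊆ T) : Lnk G T x y := ⟨hST h.1, link_mono hST h.2⟩

theorem Lnk.step (h : Lnk G S x y) (ha : G.Adj y z) (hz : z ∈ S) : Lnk G S x z :=
  ⟨h.1, h.2.tail ⟨ha, h.mem_right, hz⟩⟩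

theorem Lnk.of_adj (ha : G.Adj x y) (hx : x ∈ S) (hy : y ∈ S) : Lnk G S x y :=
  (Lnk.refl hx).step ha hy

theorem Conn.lnk (h : Conn G S) (hx : x ∈ S) (hy : y ∈ S) : Lnk G S x y := ⟨hx, h.2 x hx y hy⟩

theorem Conn.lnk' (h : Conn G F) (hFS : F ⊆ S) (hx : x ∈ F) (hy : y ∈ F) : Lnk G S x y :=
  (h.lnk hx hy).mono hFS

/-- the component of `x` in `S` -/
def cmp (G : SimpleGraph V) (S : Set V) (x : V) : Set V := {y | Lnk G S x y}

theorem mem_cmp : y ∈ cmp G S x ↔ Lnk G S x y := Iff.rfl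

theorem self_mem_cmp (hx : x ∈ S) : x ∈ cmp G S x := Lnk.refl hx

theorem conn_cmp (hx : x ∈ S) : Conn G (cmp G S x) := by
  refine conn_of_center (x0 := x) (self_mem_cmp hx) ?_
  rintro y ⟨_, hy⟩
  refine link_symm ?_
  induction hy with
  | refl => exact ReflTransGen.refl
  | tail h1 h2 ih => exact ih.tail ⟨h2.1, ⟨hx, h1⟩, ⟨hx, h1.tail h2⟩⟩

theorem cmp_subset : cmp G S x ⊆ S := fun _ hy => Lnk.mem_right hy

theorem nb_cmp : nb G (cmp G S x) ⊆ Sᶜ := by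
  rintro y ⟨hy, z, hz, ha⟩ hyS
  exact hy (Lnk.step hz ha hyS)

theorem Conn.subset_cmp (h : Conn G F) (hFS : F ⊆ S) (hx : x ∈ F) : F ⊆ cmp G S x :=
  fun _ hy => h.lnk' hFS hx hy

theorem Lnk.cmp (h : Lnk G S x y) : Lnk G (cmp G S x) x y :=
  (conn_cmp h.1).lnk (self_mem_cmp h.1) h

theorem Lnk.restrict (h : Lnk G S x y) (hT : ∀ w, Lnk G S x w → w ∈ T) : Lnk G T x y :=
  h.cmp.mono hT

/-- first hit of `m` -/
theorem Lnk.hit (h : Lnk G S x y) (m : V) (hx : x ≠ m) :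
    Lnk G (S \ {m}) x y ∨ ∃ z, Lnk G (S \ {m}) x z ∧ G.Adj z m := by
  obtain ⟨h1, h2⟩ := h
  induction h2 with
  | refl => exact Or.inl (Lnk.refl ⟨h1, hx⟩)
  | @tail b c _ h3 ih =>
    rcases ih with ih | ih
    · by_cases hc : c = m
      · subst hc
        exact Or.inr ⟨b, ih, h3.1⟩
      · exact Or.inl (Lnk.step ih h3.1 ⟨h3.2.2, hc⟩)
    · exact Or.inr ih

/-- first hit of the set `T` -/
theorem Lnk.hitSet (h : Lnk G S x y) (hx : x ∉ T) (hy : y ∈ T) :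
    ∃ z w, Lnk G (S \ T) x z ∧ G.Adj z w ∧ w ∈ T ∧ w ∈ S := by
  obtain ⟨h1, h2⟩ := h
  have key : Lnk G (S \ T) x y ∨ ∃ z w, Lnk G (S \ T) x z ∧ G.Adj z w ∧ w ∈ T ∧ w ∈ S := by
    clear hy
    induction h2 with
    | refl => exact Or.inl (Lnk.refl ⟨h1, hx⟩)
    | @tail b c _ h3 ih =>
      rcases ih with ih | ih
      · by_cases hc : c ∈ T
        · exact Or.inr ⟨b, c, ih, h3.1, hc, h3.2.2⟩
        · exact Or.inl (Lnk.step ih h3.1 ⟨h3.2.2, hc⟩)
      · exact Or.inr ih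
  rcases key with h | h
  · exact absurd hy h.mem_right.2
  · exact h

/-! ### unions of connected sets -/

theorem Conn.union (h : Conn G S) (h' : Conn G T) (hx : x ∈ S) (hx' : x ∈ T) :
    Conn G (S ∪ T) := by
  refine conn_of_center (x0 := x) (Or.inl hx) ?_
  rintro y (hy | hy)
  · exact link_mono subset_union_left (h.2 y hy x hx)
  · exact link_mono subset_union_right (h'.2 y hy x hx')

theorem Conn.union_adj (h : Conn G S) (h' : Conn G T) (hx : x ∈ S) (hy : y ∈ T)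
    (ha : G.Adj x y) : Conn G (S ∪ T) := by
  refine conn_of_center (x0 := x) (Or.inl hx) ?_
  rintro z (hz | hz)
  · exact link_mono subset_union_left (h.2 z hz x hx)
  · exact (link_mono subset_union_right (h'.2 z hz y hy)).tail ⟨ha.symm, Or.inr hy, Or.inl hx⟩

theorem Conn.insert_adj (h : Conn G S) (hx : x ∈ S) (ha : G.Adj x y) : Conn G (insert y S) := by
  have := h.union_adj (conn_singleton y) hx (mem_singleton y) ha
  rwa [union_singleton] at this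

theorem conn_pair (ha : G.Adj x y) : Conn G {x, y} := by
  have := (conn_singleton (G := G) y).insert_adj (mem_singleton y) ha.symm
  exact this

/-- a connected set together with a family of connected sets touching it -/
theorem Conn.iUnion {ι : Sort*} {f : ι → Set V} (h : Conn G S) (hf : ∀ i, Conn G (f i))
    (hm : ∀ i, ∃ x ∈ f i, ∃ y ∈ S, x = y ∨ G.Adj x y) : Conn G (S ∪ ⋃ i, f i) := by
  obtain ⟨x0, hx0⟩ := h.1
  refine conn_of_center (x0 := x0) (Or.inl hx0) ?_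
  rintro z (hz | hz)
  · exact link_mono subset_union_left (h.2 z hz x0 hx0)
  · obtain ⟨i, hi⟩ := mem_iUnion.1 hz
    obtain ⟨a, ha, b, hb, hab⟩ := hm i
    have h1 : Conn G (S ∪ f i) := by
      rcases hab with rfl | hab
      · exact h.union (hf i) hb ha
      · exact h.union_adj (hf i) hb ha hab.symm
    exact link_mono (union_subset_union_right _ (subset_iUnion f i))
      (h1.2 z (Or.inr hi) x0 (Or.inl hx0))

theorem Conn.biUnion {ι : Type*} {I : Set ι} {f : ι → Set V} (h : Conn G S)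
    (hf : ∀ i ∈ I, Conn G (f i)) (hm : ∀ i ∈ I, ∃ x ∈ f i, ∃ y ∈ S, x = y ∨ G.Adj x y) :
    Conn G (S ∪ ⋃ i ∈ I, f i) := by
  have := h.iUnion (ι := I) (f := fun i => f i) (fun i => hf i i.2) (fun i => hm i i.2)
  rwa [iUnion_subtype] at this

/-- a chain of connected sets, consecutive ones touch -/
theorem conn_chain {f : ℕ → Set V} {a b : ℕ} (hab : a ≤ b) (hf : ∀ i, a ≤ i → i ≤ b → Conn G (f i))
    (hm : ∀ i, a ≤ i → i < b → ∃ x ∈ f i, ∃ y ∈ f (i + 1), x = y ∨ G.Adj x y) :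
    Conn G {x | ∃ i, a ≤ i ∧ i ≤ b ∧ x ∈ f i} := by
  induction b, hab using Nat.le_induction with
  | base =>
    have : {x | ∃ i, a ≤ i ∧ i ≤ a ∧ x ∈ f i} = f a := by
      ext x
      constructor
      · rintro ⟨i, h1, h2, h3⟩
        obtain rfl : i = a := le_antisymm h2 h1
        exact h3
      · intro h
        exact ⟨a, le_rfl, le_rfl, h⟩
    rw [this]
    exact hf a le_rfl le_rfl
  | succ b hab ih =>
    have h1 := ih (fun i h1 h2 => hf i h1 (by omega)) (fun i h1 h2 => hm i h1 (by omega))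
    have h2 := hf (b + 1) (by omega) le_rfl
    have : {x | ∃ i, a ≤ i ∧ i ≤ b + 1 ∧ x ∈ f i} =
        {x | ∃ i, a ≤ i ∧ i ≤ b ∧ x ∈ f i} ∪ f (b + 1) := by
      ext x
      constructor
      · rintro ⟨i, h1, h2, h3⟩
        rcases Nat.lt_or_ge b i with h | h
        · obtain rfl : i = b + 1 := by omega
          exact Or.inr h3
        · exact Or.inl ⟨i, h1, h, h3⟩
      · rintro (⟨i, h1, h2, h3⟩ | h)
        · exact ⟨i, h1, by omega, h3⟩
        · exact ⟨b + 1, by omega, le_rfl, h⟩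
    rw [this]
    obtain ⟨x, hx, y, hy, hxy⟩ := hm b hab (by omega)
    have hx' : x ∈ {x | ∃ i, a ≤ i ∧ i ≤ b ∧ x ∈ f i} := ⟨b, hab, le_rfl, hx⟩
    rcases hxy with rfl | hxy
    · exact h1.union h2 hx' hy
    · exact h1.union_adj h2 hx' hy hxy

/-- an initial or middle piece of a ray -/
theorem conn_seg {f : ℕ → V} {a b : ℕ} (hab : a ≤ b)
    (hf : ∀ n, a ≤ n → n < b → G.Adj (f n) (f (n + 1))) :
    Conn G {x | ∃ n, a ≤ n ∧ n ≤ b ∧ x = f n} := by
  have := conn_chain (G := G) (f := fun n => {f n}) hab (fun i _ _ => conn_singleton _)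
    (fun i h1 h2 => ⟨f i, rfl, f (i + 1), rfl, Or.inr (hf i h1 h2)⟩)
  simpa only [mem_singleton_iff] using this

/-- a tail of a ray -/
theorem conn_tail {f : ℕ → V} {a : ℕ} (hf : ∀ n, a ≤ n → G.Adj (f n) (f (n + 1))) :
    Conn G {x | ∃ n, a ≤ n ∧ x = f n} := by
  refine conn_of_center (x0 := f a) ⟨a, le_rfl, rfl⟩ ?_
  rintro _ ⟨n, hn, rfl⟩
  have h1 := conn_seg (G := G) (f := f) hn (fun m hm _ => hf m hm)
  refine link_mono ?_ (h1.2 (f n) ⟨n, hn, le_rfl, rfl⟩ (f a) ⟨a, le_rfl, hn, rfl⟩)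
  rintro _ ⟨m, hm, _, rfl⟩
  exact ⟨m, hm, rfl⟩

theorem finite_seg (f : ℕ → V) (a b : ℕ) : {x | ∃ n, a ≤ n ∧ n ≤ b ∧ x = f n}.Finite := by
  refine ((Set.finite_Icc a b).image f).subset ?_
  rintro _ ⟨n, h1, h2, rfl⟩
  exact ⟨n, ⟨h1, h2⟩, rfl⟩

/-- every link lies in a finite connected set -/
theorem lnk_iff : Lnk G S x y ↔ ∃ F ⊆ S, F.Finite ∧ Conn G F ∧ x ∈ F ∧ y ∈ F := by
  constructor
  · rintro ⟨h1, h2⟩
    induction h2 with
    | refl =>
      exact ⟨{x}, singleton_subset_iff.2 h1, finite_singleton x, conn_singleton x, rfl, rfl⟩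
    | @tail b c _ h3 ih =>
      obtain ⟨F, hFS, hF, hFc, hx, hb⟩ := ih
      exact ⟨insert c F, insert_subset h3.2.2 hFS, hF.insert c, hFc.insert_adj hb h3.1,
        Or.inr hx, Or.inl rfl⟩
  · rintro ⟨F, hFS, _, hFc, hx, hy⟩
    exact hFc.lnk' hFS hx hy

/-! ### leaving a set -/

theorem Conn.exists_adj (h : Conn G F) (hx : x ∈ F) (hxK : x ∈ K) (hy : y ∈ F) (hyK : y ∉ K) :
    ∃ a ∈ F ∩ K, ∃ b ∈ F \ K, G.Adj a b := by
  by_contra hcon
  push Not at hcon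
  have key : ∀ z, ReflTransGen (fun a b => G.Adj a b ∧ a ∈ F ∧ b ∈ F) x z → z ∈ K := by
    intro z hz
    induction hz with
    | refl => exact hxK
    | @tail b c _ h3 ih =>
      by_contra hc
      exact hcon b ⟨h3.2.1, ih⟩ c ⟨h3.2.2, hc⟩ h3.1
  exact hyK (key y (h.2 x hx y hy))

theorem Conn.subset_of_nb (h : Conn G F) (hm : (F ∩ K).Nonempty) (hd : Disjoint F (nb G K)) :
    F ⊆ K := by
  intro y hy
  by_contra hyK
  obtain ⟨x, hx, hxK⟩ := hm
  obtain ⟨a, ha, b, hb, hab⟩ := h.exists_adj hx hxK hy hyK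
  exact disjoint_left.1 hd hb.1 ⟨hb.2, a, ha.2, hab⟩

theorem Lnk.mem_of_nb (h : Lnk G S x y) (hx : x ∈ K) (hd : Disjoint S (nb G K)) : y ∈ K :=
  ((conn_cmp h.1).subset_of_nb ⟨x, self_mem_cmp h.1, hx⟩ (hd.mono_left cmp_subset)) h

/-! ### the neighbourhood -/

theorem mem_nb : y ∈ nb G F ↔ y ∉ F ∧ ∃ x ∈ F, G.Adj x y := Iff.rfl

theorem nb_disjoint : Disjoint F (nb G F) := by
  rw [disjoint_left]
  exact fun x hx hx' => hx'.1 hx

theorem nb_mono_diff (h : A ⊆ B) : nb G A \ B ⊆ nb G B := by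
  rintro y ⟨⟨_, x, hx, hxy⟩, hy⟩
  exact ⟨hy, x, h hx, hxy⟩

theorem nb_union : nb G (A ∪ B) = (nb G A \ B) ∪ (nb G B \ A) := by
  ext y
  constructor
  · rintro ⟨hy, x, hx | hx, hxy⟩
    · exact Or.inl ⟨⟨fun h => hy (Or.inl h), x, hx, hxy⟩, fun h => hy (Or.inr h)⟩
    · exact Or.inr ⟨⟨fun h => hy (Or.inr h), x, hx, hxy⟩, fun h => hy (Or.inl h)⟩
  · rintro (⟨⟨h1, x, hx, hxy⟩, h2⟩ | ⟨⟨h1, x, hx, hxy⟩, h2⟩)
    · exact ⟨by rintro (h | h); exacts [h1 h, h2 h], x, Or.inl hx, hxy⟩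
    · exact ⟨by rintro (h | h); exacts [h2 h, h1 h], x, Or.inr hx, hxy⟩

theorem nb_union_subset : nb G (A ∪ B) ⊆ nb G A ∪ nb G B := by
  rw [nb_union]
  exact union_subset_union sdiff_subset sdiff_subset

theorem nb_empty : nb G (∅ : Set V) = ∅ := by
  ext y
  simp [nb]

theorem nb_iUnion_subset {ι : Sort*} (f : ι → Set V) : nb G (⋃ i, f i) ⊆ ⋃ i, nb G (f i) := by
  rintro y ⟨hy, x, hx, hxy⟩
  obtain ⟨i, hi⟩ := mem_iUnion.1 hx
  exact mem_iUnion.2 ⟨i, fun h => hy (mem_iUnion.2 ⟨i, h⟩), x, hi, hxy⟩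

theorem nb_finite (lf : ∀ x, {y | G.Adj x y}.Finite) (hF : F.Finite) : (nb G F).Finite := by
  refine (hF.biUnion fun x _ => lf x).subset ?_
  rintro y ⟨_, x, hx, hxy⟩
  exact mem_biUnion hx hxy

theorem nb_nonempty (hG : Conn G univ) (hF : F.Nonempty) (hne : F ≠ univ) :
    (nb G F).Nonempty := by
  obtain ⟨x, hx⟩ := hF
  obtain ⟨y, hy⟩ := (ne_univ_iff_exists_notMem F).1 hne
  obtain ⟨a, ha, b, hb, hab⟩ := hG.exists_adj (mem_univ x) hx (mem_univ y) hy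
  exact ⟨b, hb.2, a, ha.2, hab⟩

theorem nb_submod (hA : (nb G A).Finite) (hB : (nb G B).Finite) :
    (nb G (A ∪ B)).ncard + (nb G (A ∩ B)).ncard ≤ (nb G A).ncard + (nb G B).ncard := by
  have h1 : nb G (A ∪ B) ∪ nb G (A ∩ B) ⊆ nb G A ∪ nb G B := by
    rintro y (hy | ⟨hy, x, hx, hxy⟩)
    · exact nb_union_subset hy
    · by_cases h : y ∈ A
      · exact Or.inr ⟨fun h' => hy ⟨h, h'⟩, x, hx.2, hxy⟩
      · exact Or.inl ⟨h, x, hx.1, hxy⟩
  have h2 : nb G (A ∪ B) ∩ nb G (A ∩ B) ⊆ nb G A ∩ nb G B := by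
    rintro y ⟨⟨hy, _⟩, ⟨_, x, hx, hxy⟩⟩
    exact ⟨⟨fun h => hy (Or.inl h), x, hx.1, hxy⟩, ⟨fun h => hy (Or.inr h), x, hx.2, hxy⟩⟩
  have hf := (hA.union hB)
  have hfu : (nb G (A ∪ B)).Finite := hf.subset (subset_union_left.trans h1)
  have hfi : (nb G (A ∩ B)).Finite := hf.subset (subset_union_right.trans h1)
  rw [← ncard_union_add_ncard_inter _ _ hfu hfi, ← ncard_union_add_ncard_inter _ _ hA hB]
  exact Nat.add_le_add (ncard_le_ncard h1 hf) (ncard_le_ncard h2 (hA.inter_of_left _))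

/-! ### paths -/

/-- a minimal connected set containing two points -/
theorem exists_path_set (h : Conn G H) (hx : x ∈ H) (hy : y ∈ H) (hne : x ≠ y) :
    ∃ P ⊆ H, P.Finite ∧ Conn G P ∧ x ∈ P ∧ y ∈ P ∧ Conn G (P \ {x}) ∧ Conn G (P \ {y}) := by
  classical
  have hex : ∃ n, ∃ P ⊆ H, P.Finite ∧ Conn G P ∧ x ∈ P ∧ y ∈ P ∧ P.ncard = n := by
    obtain ⟨F, hFS, hF, hFc, h1, h2⟩ := lnk_iff.1 (h.lnk hx hy)
    exact ⟨_, F, hFS, hF, hFc, h1, h2, rfl⟩
  obtain ⟨P, hPH, hPf, hPc, hxP, hyP, hcard⟩ := Nat.find_spec hex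
  have hmin : ∀ Q ⊆ P, Conn G Q → x ∈ Q → y ∈ Q → Q = P := by
    intro Q hQP hQ h1 h2
    by_contra hne
    have hlt : Q.ncard < P.ncard := ncard_lt_ncard (ssubset_of_subset_of_ne hQP hne) hPf
    rw [hcard] at hlt
    exact Nat.find_min hex hlt ⟨Q, hQP.trans hPH, hPf.subset hQP, hQ, h1, h2, rfl⟩
  have key : ∀ a b : V, a ∈ P → b ∈ P → a ≠ b →
      (∀ Q ⊆ P, Conn G Q → a ∈ Q → b ∈ Q → Q = P) → Conn G (P \ {a}) := by
    intro a b ha hb hab hm
    have hbm : b ∈ P \ {a} := ⟨hb, fun e => hab (mem_singleton_iff.1 e).symm⟩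
    set C := cmp G (P \ {a}) b with hC
    have hCc : Conn G C := conn_cmp hbm
    have haC : a ∉ C := fun e => (cmp_subset e).2 rfl
    obtain ⟨u, hu, w, hw, huw⟩ := hPc.exists_adj hb (self_mem_cmp (G := G) hbm) ha haC
    have hwa : w = a := by
      by_contra hwa
      exact hw.2 (Lnk.step hu.2 huw ⟨hw.1, hwa⟩)
    subst hwa
    have h1 : insert w C = P := by
      apply hm
      · exact insert_subset ha (cmp_subset.trans sdiff_subset)
      · exact hCc.insert_adj hu.2 huw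
      · exact Or.inl rfl
      · exact Or.inr (self_mem_cmp hbm)
    have h2 : P \ {w} = C := by
      rw [← h1]
      exact insert_sdiff_self_of_notMem haC
    rw [h2]
    exact hCc
  exact ⟨P, hPH, hPf, hPc, hxP, hyP, key x y hxP hyP hne hmin,
    key y x hyP hxP hne.symm (fun Q h1 h2 h3 h4 => hmin Q h1 h2 h4 h3)⟩

/-- an injective path inside a connected set -/
theorem exists_path_fun (h : Conn G H) (hx : x ∈ H) (hy : y ∈ H) :
    ∃ (n : ℕ) (f : ℕ → V), f 0 = x ∧ f n = y ∧ (∀ i ≤ n, f i ∈ H) ∧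
      (∀ i < n, G.Adj (f i) (f (i + 1))) ∧ ∀ i ≤ n, ∀ j ≤ n, f i = f j → i = j := by
  classical
  have hc := conn_iff.2 h
  obtain ⟨p⟩ := hc.preconnected ⟨x, hx⟩ ⟨y, hy⟩
  set q := p.bypass with hq
  have hqp : q.IsPath := p.bypass_isPath
  refine ⟨q.length, fun i => (q.getVert i : V), ?_, ?_, ?_, ?_, ?_⟩
  · simp
  · simp
  · intro i _
    exact (q.getVert i).2
  · intro i hi
    exact q.adj_getVert_succ hi
  · intro i hi j hj hij
    exact hqp.getVert_injOn hi hj (Subtype.ext hij)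

end basic

/-! ### rays -/

section rays

variable {V : Type} {G : SimpleGraph V} {S S' H : Set V} {k : ℕ} {ray : ℕ → ℕ → V}

theorem IsRays.mono {k' : ℕ} (h : IsRays G k ray) (hk : k' ≤ k) : IsRays G k' ray :=
  ⟨fun i hi j hj m n e => h.inj i (by omega) j (by omega) m n e, fun i hi n => h.adj i (by omega) n⟩

theorem IsRays.conn_seg (h : IsRays G k ray) {i a b : ℕ} (hi : i < k) (hab : a ≤ b) :
    Conn G {x | ∃ n, a ≤ n ∧ n ≤ b ∧ x = ray i n} :=
  MP_216d61_lc.conn_seg hab (fun n _ _ => h.adj i hi n)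

theorem IsRays.conn_tail (h : IsRays G k ray) {i : ℕ} (hi : i < k) (a : ℕ) :
    Conn G {x | ∃ n, a ≤ n ∧ x = ray i n} :=
  MP_216d61_lc.conn_tail (fun n _ => h.adj i hi n)

theorem Lk1.symm {i s j t : ℕ} (h : Lk1 G k ray S i s j t) : Lk1 G k ray S j t i s := by
  obtain ⟨H, h1, h2, h3, h4, h5, h6⟩ := h
  exact ⟨H, h1, h2, h3, h5, h4, fun i' hi' n hn => (h6 i' hi' n hn).symm⟩

theorem Lk1.mono {i s j t : ℕ} (h : Lk1 G k ray S i s j t) (hS : S' ⊆ S) :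
    Lk1 G k ray S' i s j t := by
  obtain ⟨H, h1, h2, h3, h4, h5, h6⟩ := h
  exact ⟨H, h1, h2, h3.mono_right hS, h4, h5, h6⟩

theorem RA.symm {i j : ℕ} (h : RA G k ray i j) : RA G k ray j i := by
  intro S hS
  obtain ⟨s, t, hst⟩ := h S hS
  exact ⟨t, s, hst.symm⟩

/-- beyond every finite set and every position -/
theorem exists_beyond_fun {f : ℕ → V} (hf : Function.Injective f) (hS : S.Finite) :
    ∃ N, ∀ n, N ≤ n → f n ∉ S := by
  have h1 : {n | f n ∈ S}.Finite := hS.preimage hf.injOn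
  obtain ⟨N, hN⟩ := h1.bddAbove
  refine ⟨N + 1, fun n hn hnS => ?_⟩
  have := hN (show n ∈ {n | f n ∈ S} from hnS)
  omega

theorem IsRays.injective (h : IsRays G k ray) {i : ℕ} (hi : i < k) :
    Function.Injective (ray i) := fun m n e => (h.inj i hi i hi m n e).2

theorem IsRays.exists_beyond (h : IsRays G k ray) (hS : S.Finite) :
    ∃ N, ∀ i < k, ∀ n, N ≤ n → ray i n ∉ S := by
  have h1 : ∀ i, ∃ N, i < k → ∀ n, N ≤ n → ray i n ∉ S := by
    intro i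
    by_cases hi : i < k
    · obtain ⟨N, hN⟩ := exists_beyond_fun (h.injective hi) hS
      exact ⟨N, fun _ => hN⟩
    · exact ⟨0, fun h => absurd h hi⟩
  choose N hN using h1
  refine ⟨∑ i ∈ Finset.range k, N i, fun i hi n hn => hN i hi n ?_⟩
  exact le_trans (Finset.single_le_sum (f := N) (fun _ _ => Nat.zero_le _)
    (Finset.mem_range.2 hi)) hn

/-- **LKX.** In a connected set with ray vertices of two classes there is a link between a ray
vertex of the one class and a ray vertex of the other class without further ray vertices. -/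
theorem exists_lkx (hR : IsRays G k ray) (hH : Conn G H) {i s j t : ℕ} (hi : i < k) (hj : j < k)
    (hx : ray i s ∈ H) (hy : ray j t ∈ H) (Pr : ℕ → ℕ → Prop) (h1 : Pr i s) (h2 : ¬ Pr j t) :
    ∃ i' s' j' t', i' < k ∧ j' < k ∧ ray i' s' ∈ H ∧ ray j' t' ∈ H ∧ Pr i' s' ∧ ¬ Pr j' t' ∧
      ∃ H' ⊆ H, H'.Finite ∧ Conn G H' ∧ ray i' s' ∈ H' ∧ ray j' t' ∈ H' ∧
        ∀ l < k, ∀ n, ray l n ∈ H' → (l = i' ∧ n = s') ∨ (l = j' ∧ n = t') := by
  classical
  obtain ⟨n, f, f0, fn, fH, fadj, -⟩ := exists_path_fun hH hx hy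
  let PV : ℕ → Prop := fun m => ∃ l < k, ∃ q, f m = ray l q ∧ Pr l q
  let RV : ℕ → Prop := fun m => ∃ l < k, ∃ q, f m = ray l q
  have hPV0 : PV 0 := ⟨i, hi, s, f0, h1⟩
  set a := Nat.findGreatest PV n with ha
  have haPV : PV a := Nat.findGreatest_spec (Nat.zero_le n) hPV0
  have han : a ≤ n := Nat.findGreatest_le n
  have hgr : ∀ m, a < m → m ≤ n → ¬ PV m := fun m hm hmn =>
    Nat.findGreatest_is_greatest (P := PV) (n := n) hm hmn
  have hnPV : ¬ PV n := by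
    rintro ⟨l, hl, q, hq, hP⟩
    obtain ⟨rfl, rfl⟩ := hR.inj l hl j hj q t (by rw [← hq, fn])
    exact h2 hP
  have han' : a < n := by
    rcases han.lt_or_eq with h | h
    · exact h
    · rw [h] at haPV
      exact absurd haPV hnPV
  have hexb : ∃ m, a < m ∧ RV m := ⟨n, han', j, hj, t, fn⟩
  set b := Nat.find hexb with hb
  obtain ⟨hab, l', hl', q', hq'⟩ := Nat.find_spec hexb
  have hbn : b ≤ n := Nat.find_min' hexb ⟨han', j, hj, t, fn⟩
  have hmid : ∀ m, a < m → m < b → ¬ RV m := by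
    intro m hm hmb hRV
    exact Nat.find_min hexb hmb ⟨hm, hRV⟩
  obtain ⟨l, hl, q, hq, hP⟩ := haPV
  have hb' : f b = ray l' q' := hq'
  refine ⟨l, q, l', q', hl, hl', hq ▸ fH a han, hb' ▸ fH b hbn, hP, ?_,
    {x | ∃ m, a ≤ m ∧ m ≤ b ∧ x = f m}, ?_, finite_seg f a b,
    MP_216d61_lc.conn_seg (le_of_lt hab) (fun m _ hm => fadj m (by omega)),
    ⟨a, le_rfl, le_of_lt hab, hq.symm⟩, ⟨b, le_of_lt hab, le_rfl, hb'.symm⟩, ?_⟩
  · intro hP'
    exact hgr b hab hbn ⟨l', hl', q', hb', hP'⟩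
  · rintro _ ⟨m, _, hm, rfl⟩
    exact fH m (by omega)
  · rintro l1 hl1 q1 ⟨m, hm1, hm2, hm⟩
    rcases hm1.lt_or_eq with h | h
    · rcases hm2.lt_or_eq with h' | h'
      · exact absurd ⟨l1, hl1, q1, hm.symm⟩ (hmid m h h')
      · subst h'
        exact Or.inr (hR.inj l1 hl1 l' hl' q1 q' (by rw [hm, hb']))
    · subst h
      exact Or.inl (hR.inj l1 hl1 l hl q1 q (by rw [hm, hq]))

/-- **LKX** with a conclusion about `Lk1`. -/
theorem exists_lk1 (hR : IsRays G k ray) (hH : Conn G H) (hHS : Disjoint H S) {i s j t : ℕ}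
    (hi : i < k) (hj : j < k) (hx : ray i s ∈ H) (hy : ray j t ∈ H) (Pr : ℕ → ℕ → Prop)
    (h1 : Pr i s) (h2 : ¬ Pr j t) :
    ∃ i' s' j' t', i' < k ∧ j' < k ∧ ray i' s' ∈ H ∧ ray j' t' ∈ H ∧ Pr i' s' ∧ ¬ Pr j' t' ∧
      Lk1 G k ray S i' s' j' t' := by
  obtain ⟨i', s', j', t', a1, a2, a3, a4, a5, a6, H', b1, b2, b3, b4, b5, b6⟩ :=
    exists_lkx hR hH hi hj hx hy Pr h1 h2
  exact ⟨i', s', j', t', a1, a2, a3, a4, a5, a6, H', b2, b3, hHS.mono_left b1, b4, b5, b6⟩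

end rays

end Pool.Agent.Work.MP_216d61_lc
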