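import Pool.Agent.Work.MP_216d61_lc_full.FLP

/-!
# Block CDG: the codegree lemma (helper60)
-/

set_option autoImplicit false

namespace Pool.Agent.Work.MP_216d61_lc

open Relation Set

namespace CdgAux

theorem Dp.mono {V : Type} {G : SimpleGraph V} {R : Set V} {n : ℕ} {x : V}
    (h : Dp G R (n + 1) x) : Dp G R n x := h.1

theorem Dp.le {V : Type} {G : SimpleGraph V} {R : Set V} {m n : ℕ} (hmn : m ≤ n) {x : V}
    (h : Dp G R n x) : Dp G R m x := by
  induction hmn with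
  | refl => exact h
  | step _ ih => exact ih h.1

theorem Dp.mem {V : Type} {G : SimpleGraph V} {R : Set V} {n : ℕ} {x : V}
    (h : Dp G R n x) : x ∈ R := Dp.le (Nat.zero_le n) h

/-- all vertices of a closed small set at a deep vertex are in the region -/
theorem Dp.small {V : Type} {G : SimpleGraph V} {R : Set V} {n : ℕ} {x : V}
    (h : Dp G R (n + 1) x) {F : Set V} (hF : Small G F) (hx : x ∈ F ∪ nb G F) :
    F ∪ nb G F ⊆ R := fun y hy => Dp.mem (h.2.2 F hF hx y hy)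

theorem cover_two {V : Type} {C : Set V} (hC : C.Finite) (h : C.ncard ≤ 2) (x : V) :
    ∃ w1 w2 : V, C ⊆ {w1, w2} := by
  have h3 : C.ncard = 0 ∨ C.ncard = 1 ∨ C.ncard = 2 := by omega
  rcases h3 with h3 | h3 | h3
  · refine ⟨x, x, ?_⟩
    rw [(ncard_eq_zero hC).1 h3]
    exact empty_subset _
  · obtain ⟨a, ha⟩ := ncard_eq_one.1 h3
    refine ⟨a, a, ?_⟩
    rw [ha]
    simp
  · obtain ⟨a, b, _, hab⟩ := ncard_eq_two.1 h3
    exact ⟨a, b, hab.subset⟩

end CdgAux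

open FlpAux CdgAux in
theorem stmt_CDG (hFLP : Stmt_FLP) : Stmt_CDG := by
  intro ρ V G r A hS R l g hR x y hxy hD
  obtain ⟨f1, f2, f3⟩ := hFLP ρ V G r A hS
  obtain ⟨sep, tor⟩ := f3 R l g hR
  have hlf := hS.lf
  have hfin : {z | TAdj G x z}.Finite := by
    refine ((hlf x).union ((f2 {x} (finite_singleton x)).biUnion
      (t := fun F => nb G F) fun F hF => nb_fin hlf hF.1.1)).subset ?_
    rintro z ⟨_, _, _, h | ⟨F, hF, hx, hz⟩⟩
    · exact Or.inl h
    · exact Or.inr (mem_iUnion₂.2 ⟨F, ⟨hF.1, x, Or.inr hx, rfl⟩, hz⟩)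
  refine ⟨hfin, ?_⟩
  by_contra hcon
  obtain ⟨hTx, hTy, hne, hxy'⟩ := hxy
  set C : Set V := {z | TAdj G x z ∧ TAdj G y z} with hC
  have hCf : C.Finite := hfin.subset fun z hz => hz.1
  obtain ⟨w1, w2, hw⟩ := cover_two hCf (by omega) x
  have hxR : x ∈ R := Dp.mem hD
  -- the flaps at `x` and `y`
  set J : Set (Set V) := {F | Flap G F ∧ x ∈ nb G F ∧ y ∈ nb G F} with hJ
  have hJf : J.Finite := by
    refine (f2 {x} (finite_singleton x)).subset ?_
    rintro F ⟨hF, hx, _⟩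
    exact ⟨hF.1, x, Or.inr hx, rfl⟩
  have hJR : ∀ F ∈ J, F ∪ nb G F ⊆ R := fun F hF => Dp.small hD hF.1.1 (Or.inr hF.2.1)
  have hJn : ∀ F ∈ J, nb G F ⊆ {x, y, w1} ∨ nb G F ⊆ {x, y, w2} := by
    intro F hF
    have h1 := hR.three F hF.1.1.1 hF.1.1.2.1.nonempty (hJR F hF)
    have h2 := hF.1.1.2.2
    have hnF := nb_fin hlf hF.1.1.1
    have h3 : ∀ z ∈ nb G F, z = x ∨ z = y ∨ z ∈ C := by
      intro z hz
      by_cases hzx : z = x
      · exact Or.inl hzx
      by_cases hzy : z = y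
      · exact Or.inr (Or.inl hzy)
      refine Or.inr (Or.inr ?_)
      have h4 : Tor G z := tor F z hF.1 (hJR F hF) hz (hD.2.2 F hF.1.1 (Or.inr hF.2.1) z (Or.inr hz))
      exact ⟨⟨hTx, h4, fun h => hzx h.symm, Or.inr ⟨F, hF.1, hF.2.1, hz⟩⟩,
        ⟨hTy, h4, fun h => hzy h.symm, Or.inr ⟨F, hF.1, hF.2.2, hz⟩⟩⟩
    by_contra hcon2
    push Not at hcon2
    obtain ⟨h4, h5⟩ := hcon2
    rw [not_subset] at h4 h5
    obtain ⟨a, ha, ha'⟩ := h4
    obtain ⟨b, hb, hb'⟩ := h5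
    simp only [mem_insert_iff, mem_singleton_iff, not_or] at ha' hb'
    have haC : a ∈ C := by
      rcases h3 a ha with h | h | h
      · exact absurd h ha'.1
      · exact absurd h ha'.2.1
      · exact h
    have hbC : b ∈ C := by
      rcases h3 b hb with h | h | h
      · exact absurd h hb'.1
      · exact absurd h hb'.2.1
      · exact h
    have ha2 : a = w2 := by
      rcases hw haC with h | h
      · exact absurd h ha'.2.2
      · exact h
    have hb1 : b = w1 := by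
      rcases hw hbC with h | h
      · exact h
      · exact absurd h hb'.2.2
    have hab : a ≠ b := by
      intro h
      exact hb'.2.2 (h.symm.trans ha2)
    have h6 : ({x, y, a, b} : Set V) ⊆ nb G F := by
      intro z hz
      simp only [mem_insert_iff, mem_singleton_iff] at hz
      rcases hz with h | h | h | h
      · rw [h]; exact hF.2.1
      · rw [h]; exact hF.2.2
      · rw [h]; exact ha
      · rw [h]; exact hb
    have h7 := ncard_le_ncard h6 hnF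
    have h8 : ({x, y, a, b} : Set V).ncard = 4 := by
      rw [ncard_insert_of_notMem, ncard_insert_of_notMem, ncard_pair hab]
      · simp only [mem_insert_iff, mem_singleton_iff, not_or]
        exact ⟨fun h => ha'.2.1 h.symm, fun h => hb'.2.1 h.symm⟩
      · simp only [mem_insert_iff, mem_singleton_iff, not_or]
        exact ⟨hne, fun h => ha'.1 h.symm, fun h => hb'.1 h.symm⟩
    omega
  set J1 : Set (Set V) := {F | F ∈ J ∧ nb G F ⊆ {x, y, w1}} with hJ1
  set J2 : Set (Set V) := {F | F ∈ J ∧ ¬ nb G F ⊆ {x, y, w1}} with hJ2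
  have hfu : ∀ K : Set (Set V), K ⊆ J → (⋃₀ K).Finite := by
    intro K hK
    exact (hJf.subset hK).sUnion fun F hF => (hK hF).1.1.1
  have hgain : ∀ (K : Set (Set V)) (w : V), K ⊆ J → (∀ F ∈ K, nb G F ⊆ {x, y, w}) →
      gn ρ G A (⋃₀ K) ≤ g := by
    intro K w hK hKw
    have h1 : nb G (⋃₀ K) ⊆ {x, y, w} := by
      rintro z ⟨hz, u, ⟨F, hF, hu⟩, huz⟩
      exact hKw F hF ⟨fun h => hz ⟨F, hF, h⟩, u, hu, huz⟩
    have h2 : (nb G (⋃₀ K)).ncard ≤ 3 :=
      (ncard_le_ncard h1 (toFinite _)).trans ((ncard_insert_le _ _).trans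
        (Nat.succ_le_succ ((ncard_insert_le _ _).trans (by rw [ncard_singleton]))))
    refine hR.gain _ (hfu K hK) h2 ?_
    rintro z (⟨F, hF, hz⟩ | ⟨hz, u, ⟨F, hF, hu⟩, huz⟩)
    · exact hJR F (hK hF) (Or.inl hz)
    · by_cases hzF : z ∈ F
      · exact hJR F (hK hF) (Or.inl hzF)
      · exact hJR F (hK hF) (Or.inr ⟨hzF, u, hu, huz⟩)
  have hg1 : gn ρ G A (⋃₀ J1) ≤ g := hgain J1 w1 (fun F hF => hF.1) fun F hF => hF.2
  have hg2 : gn ρ G A (⋃₀ J2) ≤ g := by
    refine hgain J2 w2 (fun F hF => hF.1) fun F hF => ?_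
    rcases hJn F hF.1 with h | h
    · exact absurd h hF.2
    · exact h
  have hdis : Disjoint (⋃₀ J1) (⋃₀ J2) := by
    rw [Set.disjoint_left]
    rintro z ⟨F, hF, hz⟩ ⟨F', hF', hz'⟩
    have hne' : F ≠ F' := by
      rintro rfl
      exact hF'.2 hF.2
    exact disjoint_left.1 (sep F F' hF.1.1 hF'.1.1 (hJR F hF.1) (hJR F' hF'.1) hne').1 hz hz'
  have hU1 := hfu J1 (fun F hF => hF.1)
  have hU2 := hfu J2 (fun F hF => hF.1)
  have hgU := gn_union (L := A) (ρ := ρ) hlf hU1 hU2 hdis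
  set U : Set V := ⋃₀ J1 ∪ ⋃₀ J2 with hU
  have hUf : U.Finite := hU1.union hU2
  have hUmem : ∀ F ∈ J, F ⊆ U := by
    intro F hF z hz
    by_cases h : nb G F ⊆ {x, y, w1}
    · exact Or.inl ⟨F, ⟨hF, h⟩, hz⟩
    · exact Or.inr ⟨F, ⟨hF, h⟩, hz⟩
  have hUex : ∀ z ∈ U, ∃ F ∈ J, z ∈ F := by
    rintro z (⟨F, hF, hz⟩ | ⟨F, hF, hz⟩)
    · exact ⟨F, hF.1, hz⟩
    · exact ⟨F, hF.1, hz⟩
  have hxU : x ∉ U := by
    intro h
    obtain ⟨F, hF, hz⟩ := hUex x h
    exact hTx F hF.1.1 hz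
  have hyU : y ∉ U := by
    intro h
    obtain ⟨F, hF, hz⟩ := hUex y h
    exact hTy F hF.1.1 hz
  set Q : Set V := insert x (insert y U) with hQ
  have hQf : Q.Finite := (hUf.insert y).insert x
  have hQcard : Q.ncard = U.ncard + 2 := by
    rw [hQ, ncard_insert_of_notMem _ (hUf.insert y), ncard_insert_of_notMem hyU hUf]
    simp only [mem_insert_iff, not_or]
    exact ⟨hne, hxU⟩
  have hUQ : U ⊆ Q := fun z hz => Or.inr (Or.inr hz)
  have hconnF : ∀ F ∈ J, ∀ z ∈ F, ReflTransGen (fun a b => G.Adj a b ∧ a ∈ Q ∧ b ∈ Q) z x := by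
    intro F hF z hz
    obtain ⟨_, u, hu, hux⟩ := hF.2.1
    exact (link_mono ((hUmem F hF).trans hUQ) (hF.1.1.2.1.2 z hz u hu)).tail
      ⟨hux, hUQ (hUmem F hF hu), Or.inl rfl⟩
  have hQc : Conn G Q := by
    refine conn_of_center (x0 := x) (Or.inl rfl) ?_
    rintro z (hz | hz | hz)
    · rw [show z = x from hz]
    · rw [show z = y from hz]
      rcases hxy' with h | ⟨F, hF, hx, hy⟩
      · exact ReflTransGen.single ⟨h.symm, Or.inr (Or.inl rfl), Or.inl rfl⟩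
      · obtain ⟨_, u, hu, huy⟩ := hy
        have hFJ : F ∈ J := ⟨hF, hx, ⟨fun h => hTy F hF.1 h, u, hu, huy⟩⟩
        exact ReflTransGen.head ⟨huy.symm, Or.inr (Or.inl rfl), hUQ (hUmem F hFJ hu)⟩
          (hconnF F hFJ u hu)
    · obtain ⟨F, hF, hzF⟩ := hUex z hz
      exact hconnF F hF z hzF
  set Nx : Set V := {z | G.Adj x z ∧ z ∉ Q} with hNx
  set Ny : Set V := {z | G.Adj y z ∧ z ∉ Q} with hNy
  have hNxf : Nx.Finite := (hlf x).subset fun z hz => hz.1
  have hNyf : Ny.Finite := (hlf y).subset fun z hz => hz.1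
  have h1 := incL_insert (L := A) hlf (hUf.insert y) x
  rw [← hQ] at h1
  have h2 := incL_insert (L := A) hlf hUf y
  have h3 : {z | G.Adj x z ∧ z ∉ insert y U}.ncard ≤ Nx.ncard := by
    refine ncard_le_ncard ?_ hNxf
    rintro z ⟨hz, hzU⟩
    refine ⟨hz, ?_⟩
    rintro (h | h)
    · exact G.ne_of_adj hz (by rw [show z = x from h])
    · exact hzU h
  have h4 : {z | G.Adj y z ∧ z ∉ U}.ncard ≤ Ny.ncard + 1 := by
    refine (ncard_le_ncard (t := insert x Ny) ?_ (hNyf.insert x)).trans (ncard_insert_le _ _)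
    rintro z ⟨hz, hzU⟩
    by_cases hzx : z = x
    · exact Or.inl hzx
    · refine Or.inr ⟨hz, ?_⟩
      rintro (h | h | h)
      · exact hzx h
      · exact G.ne_of_adj hz (by rw [show z = y from h])
      · exact hzU h
  have h5 := ncard_union_add_ncard_inter Nx Ny hNxf hNyf
  have h6 : (Nx ∩ Ny).ncard ≤ 2 := by
    have h7 : Nx ∩ Ny ⊆ C := by
      rintro z ⟨⟨hxz, hzQ⟩, ⟨hyz, _⟩⟩
      have hTz : Tor G z := by
        intro F1 hF1 hz1
        obtain ⟨F', hF', hsub⟩ := f1 F1 hF1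
        have h8 : F' ∈ J := ⟨hF', ⟨fun h => hTx F' hF'.1 h, z, hsub hz1, hxz.symm⟩,
          ⟨fun h => hTy F' hF'.1 h, z, hsub hz1, hyz.symm⟩⟩
        exact hzQ (hUQ (hUmem F' h8 (hsub hz1)))
      exact ⟨⟨hTx, hTz, G.ne_of_adj hxz, Or.inl hxz⟩, ⟨hTy, hTz, G.ne_of_adj hyz, Or.inl hyz⟩⟩
    have h9 := ncard_le_ncard h7 hCf
    omega
  have h7 : (Nx ∪ Ny).ncard ≤ (nb G Q).ncard := by
    refine ncard_le_ncard ?_ (nb_fin hlf hQf)
    rintro z (⟨hz, hzQ⟩ | ⟨hz, hzQ⟩)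
    · exact ⟨hzQ, x, Or.inl rfl, hz⟩
    · exact ⟨hzQ, y, Or.inr (Or.inl rfl), hz⟩
  have h8 := ncard_union_add_ncard_inter {a | A a x} {a | A a y} (toFinite _) (toFinite _)
  have h9 : ({a | A a x} ∪ {a | A a y}).ncard ≤ (labs A Q).ncard := by
    refine ncard_le_ncard ?_ (toFinite _)
    rintro a (ha | ha)
    · exact ⟨x, Or.inl rfl, ha⟩
    · exact ⟨y, Or.inr (Or.inl rfl), ha⟩
  have h10 : ({a | A a x} ∩ {a | A a y}).ncard ≤ l :=
    (ncard_le_ncard inter_subset_left (toFinite _)).trans (hR.lab x hxR)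
  have h11 := hS.o2 Q hQf hQc
  have h12 : incL G A Q ≤ incL G A U + 2 * (Ny.ncard + 1) + 2 * {a | A a y}.ncard +
      2 * Nx.ncard + 2 * {a | A a x}.ncard := by omega
  have h13 : incL G A Q ≤ incL G A U + 2 + 2 * (nb G Q).ncard + 4 + 2 * (labs A Q).ncard +
      2 * l := by omega
  have h14 : (incL G A Q : ℝ) ≤ incL G A U + 2 + 2 * (nb G Q).ncard + 4 +
      2 * (labs A Q).ncard + 2 * l := by exact_mod_cast h13
  have h15 := hR.ineq
  have h16 : gn ρ G A U ≤ 2 * g := by linarith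
  unfold gn at h16
  rw [hQcard] at h11
  push_cast at h11
  linarith

end Pool.Agent.Work.MP_216d61_lc
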