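import Pool.Agent.Work.MP_216d61_lc_full.CELa

/-!
# Block CEL, part b: the cells
-/

set_option autoImplicit false

namespace Pool.Agent.Work.MP_216d61_lc

open Relation Set

namespace CelAux

variable {V : Type} {G : SimpleGraph V} {K : ℕ} {ray : ℕ → ℕ → V}

/-- a piece of a ray -/
structure IsSeg (G : SimpleGraph V) (ray : ℕ → ℕ → V) (i a b : ℕ) (g : Set V) : Prop where
  fin : g.Finite
  conn : Conn G g
  ma : ray i a ∈ g
  mb : ray i b ∈ g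
  mem : ∀ x ∈ g, ∃ n, a ≤ n ∧ n ≤ b ∧ x = ray i n

theorem exists_seg (hR : IsRays G K ray) {i a b : ℕ} (hi : i < K) (hab : a ≤ b) :
    ∃ g, IsSeg G ray i a b g :=
  ⟨{x | ∃ n, a ≤ n ∧ n ≤ b ∧ x = ray i n}, finite_seg _ _ _, hR.conn_seg hi hab,
    ⟨a, le_rfl, hab, rfl⟩, ⟨b, hab, le_rfl, rfl⟩, fun _ h => h⟩

theorem IsSeg.disj {i a b : ℕ} {g X : Set V} (h : IsSeg G ray i a b g)
    (hX : ∀ m, a ≤ m → m ≤ b → ray i m ∉ X) : Disjoint g X := by
  rw [disjoint_left]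
  intro x hx hx'
  obtain ⟨n, h1, h2, rfl⟩ := h.mem x hx
  exact hX n h1 h2 hx'

theorem IsSeg.no (hR : IsRays G K ray) {i a b j : ℕ} {g : Set V} (h : IsSeg G ray i a b g)
    (hi : i < K) (hj : j < K) (hne : j ≠ i) (m : ℕ) : ray j m ∉ g := by
  intro hm
  obtain ⟨n, _, _, he⟩ := h.mem _ hm
  exact hne (hR.inj j hj i hi _ _ he).1

theorem IsSeg.le (hR : IsRays G K ray) {i a b : ℕ} {g : Set V} (h : IsSeg G ray i a b g)
    (hi : i < K) {m : ℕ} (hm : ray i m ∈ g) : a ≤ m ∧ m ≤ b := by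
  obtain ⟨n, h1, h2, he⟩ := h.mem _ hm
  obtain rfl := (hR.inj i hi i hi _ _ he).2
  exact ⟨h1, h2⟩

theorem minmax {f : ℕ → V} (hf : Function.Injective f) {p : Set V} (hp : p.Finite)
    (hex : ∃ m, f m ∈ p) :
    ∃ a b, f a ∈ p ∧ f b ∈ p ∧ (∀ m < a, f m ∉ p) ∧ ∀ m, b < m → f m ∉ p := by
  have h1 : {n | f n ∈ p}.Finite := hp.preimage hf.injOn
  have h2 : {n | f n ∈ p}.Nonempty := hex
  obtain ⟨a, ha, ha'⟩ := Set.exists_min_image _ id h1 h2
  obtain ⟨b, hb, hb'⟩ := Set.exists_max_image _ id h1 h2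
  refine ⟨a, b, ha, hb, fun m hm hmp => ?_, fun m hm hmp => ?_⟩
  · have := ha' m hmp
    simp only [id] at this
    omega
  · have := hb' m hmp
    simp only [id] at this
    omega

theorem exists_win (hNO2 : Stmt_NO2) (hNEST : Stmt_NEST) (hWIN : Stmt_WIN) {ρ : ℝ} {r : ℕ}
    {A : Fin r → V → Prop} (hS : Sit ρ G A) {T : ℕ} {S1 : Set V} (hst : Strip G T K ray S1)
    {c d : ℕ} (h1 : T + 20 ≤ c) (hcd : c ≤ d) (h2 : d + 20 + T < K) {e : ℕ}
    (he : e = c - 9 ∨ e = d + 9) {g : ℝ} (hg : g = 0 ∨ Occ ρ G A K ray c d g) {S : Set V}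
    (hSf : S.Finite) :
    ∃ (F DL DR DT : Set V) (am bp s : ℕ), WinD ρ G A K ray S c d e g F DL DR DT am bp s := by
  have hR := hst.rays
  rcases hg with rfl | hg
  · exact win_zero hR hcd (by omega) (by omega) (by omega) (by omega) (by omega) hSf
  obtain ⟨Sn, hSn, hno⟩ := hNO2 ρ V G r A hS T K ray S1 hst (c - 10) (d + 10) (by omega)
    (by omega) (by omega)
  obtain ⟨S', hS'f, hS', hnest⟩ := hNEST ρ V G r A hS.toLim T K ray S1 hst c d (by omega) hcd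
    (by omega) (S ∪ Sn) (hSf.union hSn)
  obtain ⟨F, hF, hFne, hF3, hFR, hgF⟩ := hg S' hS'f
  have hnf : (nb G F).Finite := nb_finite hS.lf hF
  obtain ⟨C, Kc, am, bm, ap, bp, PT, PB, sT, sB, hn, hW⟩ := hnest (F ∪ nb G F) (hF.union hnf) hFR
  have hSn' : Sn ⊆ S' := subset_union_right.trans hS'
  have hF3' : (nb G F).ncard = 3 := by
    refine le_antisymm hF3 (hno F hF hFne (hFR.trans ?_))
    exact reach_mono (by omega) (by omega) hSn'
  have hH : ∀ H : Set V, H.Nonempty → H ⊆ Kc 4 → 3 ≤ (nb G H).ncard := by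
    intro H hHne hHK
    refine hno H ((hn.finK 4 le_rfl).subset hHK) hHne ?_
    refine Set.Subset.trans ?_ (hn.reach.trans (reach_mono le_rfl le_rfl subset_union_right))
    rintro x (hx | hx)
    · exact Or.inr (hHK hx)
    · by_cases hxK : x ∈ Kc 4
      · exact Or.inr hxK
      · exact Or.inl (hn.bd 4 le_rfl (nb_mono_diff hHK ⟨hx, hxK⟩))
  have hd' : ∀ {DL DR DT : Set V} {a b s : ℕ}, WinD ρ G A K ray (S ∪ Sn) c d e g F DL DR DT a b s →
      WinD ρ G A K ray S c d e g F DL DR DT a b s := fun w =>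
    ⟨w.finF, w.finL, w.finR, w.finT, w.conL, w.conR, w.conT, w.dS.mono_right subset_union_left,
      w.dFL, w.dFR, w.dFT, w.dLR, w.dLT, w.dRT, w.lm, w.mL, w.mR, w.mT, w.hc, w.he, w.off, w.nbF,
      w.gF⟩
  rcases he with rfl | rfl
  · obtain ⟨DL, DR, DT, w⟩ := win_nest hWIN hR hcd (by omega) (by omega) (by omega) hn hF
      (subset_union_left.trans hW) (subset_union_right.trans hW) hF3' hgF hH hn.conT.1 hn.tT hn.tK
      hn.tj hn.t0 (hn.tr c le_rfl hcd) hn.tK'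
    exact ⟨F, DL, DR, DT, _, _, _, hd' w⟩
  · obtain ⟨DL, DR, DT, w⟩ := win_nest hWIN hR hcd (by omega) (by omega) (by omega) hn hF
      (subset_union_left.trans hW) (subset_union_right.trans hW) hF3' hgF hH hn.conT.2 hn.bT hn.bK
      hn.bj hn.b0 (hn.br c le_rfl hcd) hn.bK'
    exact ⟨F, DL, DR, DT, _, _, _, hd' w⟩

end CelAux

open CelAux

set_option maxHeartbeats 4000000 in
theorem stmt_CEL (hNO2 : Stmt_NO2) (hNEST : Stmt_NEST) (hWIN : Stmt_WIN) (hCOL : Stmt_COL) :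
    Stmt_CEL := by
  intro ρ V G r A hS T K ray S1 hst c d c1 d1 c2 d2 i0 Lb g hc hd h3 h4 h5 h6 h7 h8 hLb hg S hSf
  classical
  have hR := hst.rays
  obtain ⟨N0, hN0⟩ := hR.exists_beyond hSf
  obtain ⟨p0, hp0, plab, pt, pb⟩ := exists_p0 hCOL hst (c := c) (d := d) (by omega) (by omega)
    (by omega) hLb (hSf.union (ini_fin (K := K) (ray := ray) N0))
  have c1K : c1 < K := by omega
  have c2K : c2 < K := by omega
  have i0K : i0 < K := by omega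
  have e1K : c1 - 9 < K := by omega
  have e2K : d2 + 9 < K := by omega
  have tK : c - 1 < K := by omega
  have bK : d + 1 < K := by omega
  -- positions on the core
  obtain ⟨N1, hN1⟩ := hR.exists_beyond (hSf.union hp0.fin)
  obtain ⟨q1, hq1⟩ := hp0.ex c1 (by omega) (by omega)
  obtain ⟨q2, hq2⟩ := hp0.ex c2 (by omega) (by omega)
  have q1N0 : N0 ≤ q1 := ge_of_disj (hp0.disj.mono_right subset_union_right) c1K hq1
  have q2N0 : N0 ≤ q2 := ge_of_disj (hp0.disj.mono_right subset_union_right) c2K hq2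
  have pN1 : ∀ i < K, ∀ m, ray i m ∈ p0 → m < N1 := by
    intro i hi m hm
    by_contra hcon
    exact hN1 i hi m (by omega) (Or.inr hm)
  -- first window
  obtain ⟨F1, L1, R1, D1, am1, bp1, s1, w1⟩ := exists_win hNO2 hNEST hWIN hS hst (c := c1) (d := d1)
    (by omega) h4 (by omega) (e := c1 - 9) (Or.inl rfl) (g := g) (hg.imp id fun h => h.1)
    ((hSf.union hp0.fin).union (ini_fin (K := K) (ray := ray) N1))
  have fU1 : (F1 ∪ L1 ∪ R1 ∪ D1).Finite := ((w1.finF.union w1.finL).union w1.finR).union w1.finT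
  have sF1 : F1 ⊆ F1 ∪ L1 ∪ R1 ∪ D1 := fun x hx => Or.inl (Or.inl (Or.inl hx))
  have sL1 : L1 ⊆ F1 ∪ L1 ∪ R1 ∪ D1 := fun x hx => Or.inl (Or.inl (Or.inr hx))
  have sR1 : R1 ⊆ F1 ∪ L1 ∪ R1 ∪ D1 := fun x hx => Or.inl (Or.inr hx)
  have sD1 : D1 ⊆ F1 ∪ L1 ∪ R1 ∪ D1 := fun x hx => Or.inr hx
  have am1N : N1 ≤ am1 := ge_of_disj (w1.dS.mono_right subset_union_right) c1K (sL1 w1.mL)
  have s1N : N1 ≤ s1 := ge_of_disj (w1.dS.mono_right subset_union_right) e1K (sD1 w1.mT)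
  -- first column
  obtain ⟨M1, hM1⟩ := hR.exists_beyond ((hSf.union hp0.fin).union fU1)
  obtain ⟨E1, lo1, hi1, k1⟩ := hCOL V G T K ray S1 hst
    (S ∪ p0 ∪ (F1 ∪ L1 ∪ R1 ∪ D1) ∪ ini K ray M1) (c - 1) (c1 - 9)
    (((hSf.union hp0.fin).union fU1).union (ini_fin M1)) (by omega) e1K
  have E1e : ray (c1 - 9) (lo1 (c1 - 9)) ∈ E1 :=
    (k1.on _ (by omega) le_rfl _).2 ⟨le_rfl, k1.le _ (by omega) le_rfl⟩
  have E1t : ray (c - 1) (lo1 (c - 1)) ∈ E1 :=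
    (k1.on _ le_rfl (by omega) _).2 ⟨le_rfl, k1.le _ le_rfl (by omega)⟩
  have l1M : M1 ≤ lo1 (c1 - 9) := ge_of_disj (k1.disj.mono_right subset_union_right) e1K E1e
  have s1M : s1 < M1 := by
    by_contra hcon
    exact hM1 _ e1K s1 (by omega) (Or.inr (sD1 w1.mT))
  obtain ⟨g1, y1⟩ := exists_seg hR (i := c1) (a := q1) (b := am1) c1K
    (by have := pN1 _ c1K _ hq1; omega)
  obtain ⟨h1, z1⟩ := exists_seg hR (i := c1 - 9) (a := s1) (b := lo1 (c1 - 9)) e1K (by omega)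
  -- second window
  have fA : (S ∪ p0 ∪ (F1 ∪ L1 ∪ R1 ∪ D1) ∪ (h1 ∪ E1)).Finite :=
    ((hSf.union hp0.fin).union fU1).union (z1.fin.union k1.fin)
  obtain ⟨N2, hN2⟩ := hR.exists_beyond fA
  obtain ⟨F2, L2, R2, D2, am2, bp2, s2, w2⟩ := exists_win hNO2 hNEST hWIN hS hst (c := c2) (d := d2)
    (by omega) h7 (by omega) (e := d2 + 9) (Or.inr rfl) (g := g) (hg.imp id fun h => h.2)
    (fA.union (ini_fin (K := K) (ray := ray) N2))
  have fU2 : (F2 ∪ L2 ∪ R2 ∪ D2).Finite := ((w2.finF.union w2.finL).union w2.finR).union w2.finT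
  have sF2 : F2 ⊆ F2 ∪ L2 ∪ R2 ∪ D2 := fun x hx => Or.inl (Or.inl (Or.inl hx))
  have sL2 : L2 ⊆ F2 ∪ L2 ∪ R2 ∪ D2 := fun x hx => Or.inl (Or.inl (Or.inr hx))
  have sR2 : R2 ⊆ F2 ∪ L2 ∪ R2 ∪ D2 := fun x hx => Or.inl (Or.inr hx)
  have sD2 : D2 ⊆ F2 ∪ L2 ∪ R2 ∪ D2 := fun x hx => Or.inr hx
  have N12 : N1 ≤ N2 := by
    by_contra hcon
    exact hN2 c1 c1K am1 (by omega) (Or.inl (Or.inr (sL1 w1.mL)))
  have am2N : N2 ≤ am2 := ge_of_disj (w2.dS.mono_right subset_union_right) c2K (sL2 w2.mL)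
  have s2N : N2 ≤ s2 := ge_of_disj (w2.dS.mono_right subset_union_right) e2K (sD2 w2.mT)
  -- second column
  have fB : (S ∪ p0 ∪ (F1 ∪ L1 ∪ R1 ∪ D1) ∪ (h1 ∪ E1) ∪ (F2 ∪ L2 ∪ R2 ∪ D2)).Finite :=
    fA.union fU2
  obtain ⟨M2, hM2⟩ := hR.exists_beyond fB
  obtain ⟨E2, lo2, hi2, k2⟩ := hCOL V G T K ray S1 hst
    (S ∪ p0 ∪ (F1 ∪ L1 ∪ R1 ∪ D1) ∪ (h1 ∪ E1) ∪ (F2 ∪ L2 ∪ R2 ∪ D2) ∪ ini K ray M2) (d2 + 9) (d + 1)
    (fB.union (ini_fin M2)) (by omega) bK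
  have E2e : ray (d2 + 9) (lo2 (d2 + 9)) ∈ E2 :=
    (k2.on _ le_rfl (by omega) _).2 ⟨le_rfl, k2.le _ le_rfl (by omega)⟩
  have E2b : ray (d + 1) (lo2 (d + 1)) ∈ E2 :=
    (k2.on _ (by omega) le_rfl _).2 ⟨le_rfl, k2.le _ (by omega) le_rfl⟩
  have l2M : M2 ≤ lo2 (d2 + 9) := ge_of_disj (k2.disj.mono_right subset_union_right) e2K E2e
  have s2M : s2 < M2 := by
    by_contra hcon
    exact hM2 _ e2K s2 (by omega) (Or.inr (sD2 w2.mT))
  obtain ⟨g2, y2⟩ := exists_seg hR (i := c2) (a := q2) (b := am2) c2K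
    (by have := pN1 _ c2K _ hq2; omega)
  obtain ⟨h2, z2⟩ := exists_seg hR (i := d2 + 9) (a := s2) (b := lo2 (d2 + 9)) e2K (by omega)
  -- regions
  have d_p0_U1 : Disjoint p0 (F1 ∪ L1 ∪ R1 ∪ D1) :=
    (w1.dS.mono_right (subset_union_right.trans subset_union_left)).symm
  have d_S_U1 : Disjoint S (F1 ∪ L1 ∪ R1 ∪ D1) :=
    (w1.dS.mono_right (subset_union_left.trans subset_union_left)).symm
  have d_S_E1 : Disjoint S E1 := (k1.disj.mono_right fun x hx => Or.inl (Or.inl (Or.inl hx))).symm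
  have d_p0_E1 : Disjoint p0 E1 := (k1.disj.mono_right fun x hx => Or.inl (Or.inl (Or.inr hx))).symm
  have d_U1_E1 : Disjoint (F1 ∪ L1 ∪ R1 ∪ D1) E1 :=
    (k1.disj.mono_right fun x hx => Or.inl (Or.inr hx)).symm
  have d_S_U2 : Disjoint S (F2 ∪ L2 ∪ R2 ∪ D2) :=
    (w2.dS.mono_right fun x hx => Or.inl (Or.inl (Or.inl (Or.inl hx)))).symm
  have d_p0_U2 : Disjoint p0 (F2 ∪ L2 ∪ R2 ∪ D2) :=
    (w2.dS.mono_right fun x hx => Or.inl (Or.inl (Or.inl (Or.inr hx)))).symm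
  have d_U1_U2 : Disjoint (F1 ∪ L1 ∪ R1 ∪ D1) (F2 ∪ L2 ∪ R2 ∪ D2) :=
    (w2.dS.mono_right fun x hx => Or.inl (Or.inl (Or.inr hx))).symm
  have d_E1_U2 : Disjoint E1 (F2 ∪ L2 ∪ R2 ∪ D2) :=
    (w2.dS.mono_right fun x hx => Or.inl (Or.inr (Or.inr hx))).symm
  have d_S_E2 : Disjoint S E2 :=
    (k2.disj.mono_right fun x hx => Or.inl (Or.inl (Or.inl (Or.inl (Or.inl hx))))).symm
  have d_p0_E2 : Disjoint p0 E2 :=
    (k2.disj.mono_right fun x hx => Or.inl (Or.inl (Or.inl (Or.inl (Or.inr hx))))).symm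
  have d_U1_E2 : Disjoint (F1 ∪ L1 ∪ R1 ∪ D1) E2 :=
    (k2.disj.mono_right fun x hx => Or.inl (Or.inl (Or.inl (Or.inr hx)))).symm
  have d_E1_E2 : Disjoint E1 E2 :=
    (k2.disj.mono_right fun x hx => Or.inl (Or.inl (Or.inr (Or.inr hx)))).symm
  have d_U2_E2 : Disjoint (F2 ∪ L2 ∪ R2 ∪ D2) E2 :=
    (k2.disj.mono_right fun x hx => Or.inl (Or.inr hx)).symm
  have n_t_p0 : ∀ m, ray (c - 1) m ∉ p0 := fun m hm => by have := hp0.inn _ tK m hm; omega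
  have n_b_p0 : ∀ m, ray (d + 1) m ∉ p0 := fun m hm => by have := hp0.inn _ bK m hm; omega
  have n_t_U1 : ∀ m, ray (c - 1) m ∉ F1 ∪ L1 ∪ R1 ∪ D1 := w1.off _ tK (by omega)
  have n_t_F1 : ∀ m, ray (c - 1) m ∉ F1 := fun m hm => n_t_U1 m (sF1 hm)
  have n_t_L1 : ∀ m, ray (c - 1) m ∉ L1 := fun m hm => n_t_U1 m (sL1 hm)
  have n_t_R1 : ∀ m, ray (c - 1) m ∉ R1 := fun m hm => n_t_U1 m (sR1 hm)
  have n_t_D1 : ∀ m, ray (c - 1) m ∉ D1 := fun m hm => n_t_U1 m (sD1 hm)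
  have n_b_U1 : ∀ m, ray (d + 1) m ∉ F1 ∪ L1 ∪ R1 ∪ D1 := w1.off _ bK (by omega)
  have n_b_F1 : ∀ m, ray (d + 1) m ∉ F1 := fun m hm => n_b_U1 m (sF1 hm)
  have n_b_L1 : ∀ m, ray (d + 1) m ∉ L1 := fun m hm => n_b_U1 m (sL1 hm)
  have n_b_R1 : ∀ m, ray (d + 1) m ∉ R1 := fun m hm => n_b_U1 m (sR1 hm)
  have n_b_D1 : ∀ m, ray (d + 1) m ∉ D1 := fun m hm => n_b_U1 m (sD1 hm)
  have n_i_U1 : ∀ m, ray i0 m ∉ F1 ∪ L1 ∪ R1 ∪ D1 := w1.off _ i0K (by omega)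
  have n_i_F1 : ∀ m, ray i0 m ∉ F1 := fun m hm => n_i_U1 m (sF1 hm)
  have n_i_L1 : ∀ m, ray i0 m ∉ L1 := fun m hm => n_i_U1 m (sL1 hm)
  have n_i_R1 : ∀ m, ray i0 m ∉ R1 := fun m hm => n_i_U1 m (sR1 hm)
  have n_i_D1 : ∀ m, ray i0 m ∉ D1 := fun m hm => n_i_U1 m (sD1 hm)
  have n_v_U1 : ∀ m, ray c2 m ∉ F1 ∪ L1 ∪ R1 ∪ D1 := w1.off _ c2K (by omega)
  have n_v_F1 : ∀ m, ray c2 m ∉ F1 := fun m hm => n_v_U1 m (sF1 hm)
  have n_v_L1 : ∀ m, ray c2 m ∉ L1 := fun m hm => n_v_U1 m (sL1 hm)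
  have n_v_R1 : ∀ m, ray c2 m ∉ R1 := fun m hm => n_v_U1 m (sR1 hm)
  have n_v_D1 : ∀ m, ray c2 m ∉ D1 := fun m hm => n_v_U1 m (sD1 hm)
  have n_f_U1 : ∀ m, ray (d2 + 9) m ∉ F1 ∪ L1 ∪ R1 ∪ D1 := w1.off _ e2K (by omega)
  have n_f_F1 : ∀ m, ray (d2 + 9) m ∉ F1 := fun m hm => n_f_U1 m (sF1 hm)
  have n_f_L1 : ∀ m, ray (d2 + 9) m ∉ L1 := fun m hm => n_f_U1 m (sL1 hm)
  have n_f_R1 : ∀ m, ray (d2 + 9) m ∉ R1 := fun m hm => n_f_U1 m (sR1 hm)
  have n_f_D1 : ∀ m, ray (d2 + 9) m ∉ D1 := fun m hm => n_f_U1 m (sD1 hm)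
  have n_t_U2 : ∀ m, ray (c - 1) m ∉ F2 ∪ L2 ∪ R2 ∪ D2 := w2.off _ tK (by omega)
  have n_t_F2 : ∀ m, ray (c - 1) m ∉ F2 := fun m hm => n_t_U2 m (sF2 hm)
  have n_t_L2 : ∀ m, ray (c - 1) m ∉ L2 := fun m hm => n_t_U2 m (sL2 hm)
  have n_t_R2 : ∀ m, ray (c - 1) m ∉ R2 := fun m hm => n_t_U2 m (sR2 hm)
  have n_t_D2 : ∀ m, ray (c - 1) m ∉ D2 := fun m hm => n_t_U2 m (sD2 hm)
  have n_b_U2 : ∀ m, ray (d + 1) m ∉ F2 ∪ L2 ∪ R2 ∪ D2 := w2.off _ bK (by omega)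
  have n_b_F2 : ∀ m, ray (d + 1) m ∉ F2 := fun m hm => n_b_U2 m (sF2 hm)
  have n_b_L2 : ∀ m, ray (d + 1) m ∉ L2 := fun m hm => n_b_U2 m (sL2 hm)
  have n_b_R2 : ∀ m, ray (d + 1) m ∉ R2 := fun m hm => n_b_U2 m (sR2 hm)
  have n_b_D2 : ∀ m, ray (d + 1) m ∉ D2 := fun m hm => n_b_U2 m (sD2 hm)
  have n_i_U2 : ∀ m, ray i0 m ∉ F2 ∪ L2 ∪ R2 ∪ D2 := w2.off _ i0K (by omega)
  have n_i_F2 : ∀ m, ray i0 m ∉ F2 := fun m hm => n_i_U2 m (sF2 hm)
  have n_i_L2 : ∀ m, ray i0 m ∉ L2 := fun m hm => n_i_U2 m (sL2 hm)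
  have n_i_R2 : ∀ m, ray i0 m ∉ R2 := fun m hm => n_i_U2 m (sR2 hm)
  have n_i_D2 : ∀ m, ray i0 m ∉ D2 := fun m hm => n_i_U2 m (sD2 hm)
  have n_u_U2 : ∀ m, ray c1 m ∉ F2 ∪ L2 ∪ R2 ∪ D2 := w2.off _ c1K (by omega)
  have n_u_F2 : ∀ m, ray c1 m ∉ F2 := fun m hm => n_u_U2 m (sF2 hm)
  have n_u_L2 : ∀ m, ray c1 m ∉ L2 := fun m hm => n_u_U2 m (sL2 hm)
  have n_u_R2 : ∀ m, ray c1 m ∉ R2 := fun m hm => n_u_U2 m (sR2 hm)
  have n_u_D2 : ∀ m, ray c1 m ∉ D2 := fun m hm => n_u_U2 m (sD2 hm)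
  have n_e_U2 : ∀ m, ray (c1 - 9) m ∉ F2 ∪ L2 ∪ R2 ∪ D2 := w2.off _ e1K (by omega)
  have n_e_F2 : ∀ m, ray (c1 - 9) m ∉ F2 := fun m hm => n_e_U2 m (sF2 hm)
  have n_e_L2 : ∀ m, ray (c1 - 9) m ∉ L2 := fun m hm => n_e_U2 m (sL2 hm)
  have n_e_R2 : ∀ m, ray (c1 - 9) m ∉ R2 := fun m hm => n_e_U2 m (sR2 hm)
  have n_e_D2 : ∀ m, ray (c1 - 9) m ∉ D2 := fun m hm => n_e_U2 m (sD2 hm)
  have n_i_E1 : ∀ m, ray i0 m ∉ E1 := k1.off _ i0K (by omega)
  have n_u_E1 : ∀ m, ray c1 m ∉ E1 := k1.off _ c1K (by omega)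
  have n_v_E1 : ∀ m, ray c2 m ∉ E1 := k1.off _ c2K (by omega)
  have n_f_E1 : ∀ m, ray (d2 + 9) m ∉ E1 := k1.off _ e2K (by omega)
  have n_b_E1 : ∀ m, ray (d + 1) m ∉ E1 := k1.off _ bK (by omega)
  have n_t_E2 : ∀ m, ray (c - 1) m ∉ E2 := k2.off _ tK (by omega)
  have n_i_E2 : ∀ m, ray i0 m ∉ E2 := k2.off _ i0K (by omega)
  have n_u_E2 : ∀ m, ray c1 m ∉ E2 := k2.off _ c1K (by omega)
  have n_v_E2 : ∀ m, ray c2 m ∉ E2 := k2.off _ c2K (by omega)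
  have n_e_E2 : ∀ m, ray (c1 - 9) m ∉ E2 := k2.off _ e1K (by omega)
  have n_t_g1 : ∀ m, ray (c - 1) m ∉ g1 := y1.no hR c1K tK (by omega)
  have n_b_g1 : ∀ m, ray (d + 1) m ∉ g1 := y1.no hR c1K bK (by omega)
  have n_i_g1 : ∀ m, ray i0 m ∉ g1 := y1.no hR c1K i0K (by omega)
  have n_v_g1 : ∀ m, ray c2 m ∉ g1 := y1.no hR c1K c2K (by omega)
  have n_e_g1 : ∀ m, ray (c1 - 9) m ∉ g1 := y1.no hR c1K e1K (by omega)
  have n_f_g1 : ∀ m, ray (d2 + 9) m ∉ g1 := y1.no hR c1K e2K (by omega)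
  have n_t_h1 : ∀ m, ray (c - 1) m ∉ h1 := z1.no hR e1K tK (by omega)
  have n_b_h1 : ∀ m, ray (d + 1) m ∉ h1 := z1.no hR e1K bK (by omega)
  have n_i_h1 : ∀ m, ray i0 m ∉ h1 := z1.no hR e1K i0K (by omega)
  have n_u_h1 : ∀ m, ray c1 m ∉ h1 := z1.no hR e1K c1K (by omega)
  have n_v_h1 : ∀ m, ray c2 m ∉ h1 := z1.no hR e1K c2K (by omega)
  have n_f_h1 : ∀ m, ray (d2 + 9) m ∉ h1 := z1.no hR e1K e2K (by omega)
  have n_t_g2 : ∀ m, ray (c - 1) m ∉ g2 := y2.no hR c2K tK (by omega)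
  have n_b_g2 : ∀ m, ray (d + 1) m ∉ g2 := y2.no hR c2K bK (by omega)
  have n_i_g2 : ∀ m, ray i0 m ∉ g2 := y2.no hR c2K i0K (by omega)
  have n_u_g2 : ∀ m, ray c1 m ∉ g2 := y2.no hR c2K c1K (by omega)
  have n_e_g2 : ∀ m, ray (c1 - 9) m ∉ g2 := y2.no hR c2K e1K (by omega)
  have n_f_g2 : ∀ m, ray (d2 + 9) m ∉ g2 := y2.no hR c2K e2K (by omega)
  have n_t_h2 : ∀ m, ray (c - 1) m ∉ h2 := z2.no hR e2K tK (by omega)
  have n_b_h2 : ∀ m, ray (d + 1) m ∉ h2 := z2.no hR e2K bK (by omega)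
  have n_i_h2 : ∀ m, ray i0 m ∉ h2 := z2.no hR e2K i0K (by omega)
  have n_u_h2 : ∀ m, ray c1 m ∉ h2 := z2.no hR e2K c1K (by omega)
  have n_v_h2 : ∀ m, ray c2 m ∉ h2 := z2.no hR e2K c2K (by omega)
  have n_e_h2 : ∀ m, ray (c1 - 9) m ∉ h2 := z2.no hR e2K e1K (by omega)
  have j_p0_F1 : Disjoint p0 F1 := d_p0_U1.mono_right sF1
  have j_p0_F2 : Disjoint p0 F2 := d_p0_U2.mono_right sF2
  have j_p0_R1 : Disjoint p0 R1 := d_p0_U1.mono_right sR1
  have j_p0_R2 : Disjoint p0 R2 := d_p0_U2.mono_right sR2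
  have j_p0_D1 : Disjoint p0 D1 := d_p0_U1.mono_right sD1
  have j_p0_E1 : Disjoint p0 E1 := d_p0_E1
  have j_p0_D2 : Disjoint p0 D2 := d_p0_U2.mono_right sD2
  have j_p0_E2 : Disjoint p0 E2 := d_p0_E2
  have j_L1_F1 : Disjoint L1 F1 := w1.dFL.symm
  have j_L1_F2 : Disjoint L1 F2 := d_U1_U2.mono sL1 sF2
  have j_L1_R1 : Disjoint L1 R1 := w1.dLR
  have j_L1_R2 : Disjoint L1 R2 := d_U1_U2.mono sL1 sR2
  have j_L1_D1 : Disjoint L1 D1 := w1.dLT
  have j_L1_E1 : Disjoint L1 E1 := d_U1_E1.mono_left sL1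
  have j_L1_D2 : Disjoint L1 D2 := d_U1_U2.mono sL1 sD2
  have j_L1_E2 : Disjoint L1 E2 := d_U1_E2.mono_left sL1
  have j_L2_F1 : Disjoint L2 F1 := (d_U1_U2.mono sF1 sL2).symm
  have j_L2_F2 : Disjoint L2 F2 := w2.dFL.symm
  have j_L2_R1 : Disjoint L2 R1 := (d_U1_U2.mono sR1 sL2).symm
  have j_L2_R2 : Disjoint L2 R2 := w2.dLR
  have j_L2_D1 : Disjoint L2 D1 := (d_U1_U2.mono sD1 sL2).symm
  have j_L2_E1 : Disjoint L2 E1 := (d_E1_U2.mono_right sL2).symm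
  have j_L2_D2 : Disjoint L2 D2 := w2.dLT
  have j_L2_E2 : Disjoint L2 E2 := d_U2_E2.mono_left sL2
  have j_F1_F2 : Disjoint F1 F2 := d_U1_U2.mono sF1 sF2
  have j_F1_R1 : Disjoint F1 R1 := w1.dFR
  have j_F1_R2 : Disjoint F1 R2 := d_U1_U2.mono sF1 sR2
  have j_F1_D1 : Disjoint F1 D1 := w1.dFT
  have j_F1_E1 : Disjoint F1 E1 := d_U1_E1.mono_left sF1
  have j_F1_D2 : Disjoint F1 D2 := d_U1_U2.mono sF1 sD2
  have j_F1_E2 : Disjoint F1 E2 := d_U1_E2.mono_left sF1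
  have j_F2_R1 : Disjoint F2 R1 := (d_U1_U2.mono sR1 sF2).symm
  have j_F2_R2 : Disjoint F2 R2 := w2.dFR
  have j_F2_D1 : Disjoint F2 D1 := (d_U1_U2.mono sD1 sF2).symm
  have j_F2_E1 : Disjoint F2 E1 := (d_E1_U2.mono_right sF2).symm
  have j_F2_D2 : Disjoint F2 D2 := w2.dFT
  have j_F2_E2 : Disjoint F2 E2 := d_U2_E2.mono_left sF2
  have j_R1_R2 : Disjoint R1 R2 := d_U1_U2.mono sR1 sR2
  have j_R1_D1 : Disjoint R1 D1 := w1.dRT
  have j_R1_E1 : Disjoint R1 E1 := d_U1_E1.mono_left sR1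
  have j_R1_D2 : Disjoint R1 D2 := d_U1_U2.mono sR1 sD2
  have j_R1_E2 : Disjoint R1 E2 := d_U1_E2.mono_left sR1
  have j_R2_D1 : Disjoint R2 D1 := (d_U1_U2.mono sD1 sR2).symm
  have j_R2_E1 : Disjoint R2 E1 := (d_E1_U2.mono_right sR2).symm
  have j_R2_D2 : Disjoint R2 D2 := w2.dRT
  have j_R2_E2 : Disjoint R2 E2 := d_U2_E2.mono_left sR2
  have j_D1_D2 : Disjoint D1 D2 := d_U1_U2.mono sD1 sD2
  have j_D1_E2 : Disjoint D1 E2 := d_U1_E2.mono_left sD1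
  have j_E1_D2 : Disjoint E1 D2 := d_E1_U2.mono_right sD2
  have j_E1_E2 : Disjoint E1 E2 := d_E1_E2
  have j_h1_p0 : Disjoint h1 p0 := z1.disj fun m hm _ hx => by have := pN1 _ e1K m hx; omega
  have j_p0_h1 : Disjoint p0 h1 := j_h1_p0.symm
  have j_h2_p0 : Disjoint h2 p0 := z2.disj fun m hm _ hx => by have := pN1 _ e2K m hx; omega
  have j_p0_h2 : Disjoint p0 h2 := j_h2_p0.symm
  have j_g1_F1 : Disjoint g1 F1 := y1.disj fun m _ hm hx => by
      have hmm : m = am1 := le_antisymm hm (w1.hc m (sF1 hx)).1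
      subst hmm
      exact disjoint_left.1 w1.dFL hx w1.mL
  have j_g1_F2 : Disjoint g1 F2 := y1.disj fun m _ _ => n_u_F2 m
  have j_g1_R1 : Disjoint g1 R1 := y1.disj fun m _ hm hx => by
      have hmm : m = am1 := le_antisymm hm (w1.hc m (sR1 hx)).1
      subst hmm
      exact disjoint_left.1 w1.dLR.symm hx w1.mL
  have j_g1_R2 : Disjoint g1 R2 := y1.disj fun m _ _ => n_u_R2 m
  have j_g1_D1 : Disjoint g1 D1 := y1.disj fun m _ hm hx => by
      have hmm : m = am1 := le_antisymm hm (w1.hc m (sD1 hx)).1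
      subst hmm
      exact disjoint_left.1 w1.dLT.symm hx w1.mL
  have j_g1_h1 : Disjoint g1 h1 := y1.disj fun m _ _ => n_u_h1 m
  have j_g1_E1 : Disjoint g1 E1 := y1.disj fun m _ _ => n_u_E1 m
  have j_g1_D2 : Disjoint g1 D2 := y1.disj fun m _ _ => n_u_D2 m
  have j_g1_h2 : Disjoint g1 h2 := y1.disj fun m _ _ => n_u_h2 m
  have j_g1_E2 : Disjoint g1 E2 := y1.disj fun m _ _ => n_u_E2 m
  have j_h1_L1 : Disjoint h1 L1 := z1.disj fun m _ _ hx => by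
      have hmm : m = s1 := w1.he m (sL1 hx)
      subst hmm
      exact disjoint_left.1 w1.dLT hx w1.mT
  have j_L1_h1 : Disjoint L1 h1 := j_h1_L1.symm
  have j_h2_L1 : Disjoint h2 L1 := z2.disj fun m _ _ => n_f_L1 m
  have j_L1_h2 : Disjoint L1 h2 := j_h2_L1.symm
  have j_g2_F1 : Disjoint g2 F1 := y2.disj fun m _ _ => n_v_F1 m
  have j_g2_F2 : Disjoint g2 F2 := y2.disj fun m _ hm hx => by
      have hmm : m = am2 := le_antisymm hm (w2.hc m (sF2 hx)).1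
      subst hmm
      exact disjoint_left.1 w2.dFL hx w2.mL
  have j_g2_R1 : Disjoint g2 R1 := y2.disj fun m _ _ => n_v_R1 m
  have j_g2_R2 : Disjoint g2 R2 := y2.disj fun m _ hm hx => by
      have hmm : m = am2 := le_antisymm hm (w2.hc m (sR2 hx)).1
      subst hmm
      exact disjoint_left.1 w2.dLR.symm hx w2.mL
  have j_g2_D1 : Disjoint g2 D1 := y2.disj fun m _ _ => n_v_D1 m
  have j_g2_h1 : Disjoint g2 h1 := y2.disj fun m _ _ => n_v_h1 m
  have j_g2_E1 : Disjoint g2 E1 := y2.disj fun m _ _ => n_v_E1 m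
  have j_g2_D2 : Disjoint g2 D2 := y2.disj fun m _ hm hx => by
      have hmm : m = am2 := le_antisymm hm (w2.hc m (sD2 hx)).1
      subst hmm
      exact disjoint_left.1 w2.dLT.symm hx w2.mL
  have j_g2_h2 : Disjoint g2 h2 := y2.disj fun m _ _ => n_v_h2 m
  have j_g2_E2 : Disjoint g2 E2 := y2.disj fun m _ _ => n_v_E2 m
  have j_h1_L2 : Disjoint h1 L2 := z1.disj fun m _ _ => n_e_L2 m
  have j_L2_h1 : Disjoint L2 h1 := j_h1_L2.symm
  have j_h2_L2 : Disjoint h2 L2 := z2.disj fun m _ _ hx => by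
      have hmm : m = s2 := w2.he m (sL2 hx)
      subst hmm
      exact disjoint_left.1 w2.dLT hx w2.mT
  have j_L2_h2 : Disjoint L2 h2 := j_h2_L2.symm
  have j_h1_F1 : Disjoint h1 F1 := z1.disj fun m _ _ hx => by
      have hmm : m = s1 := w1.he m (sF1 hx)
      subst hmm
      exact disjoint_left.1 w1.dFT hx w1.mT
  have j_F1_h1 : Disjoint F1 h1 := j_h1_F1.symm
  have j_h2_F1 : Disjoint h2 F1 := z2.disj fun m _ _ => n_f_F1 m
  have j_F1_h2 : Disjoint F1 h2 := j_h2_F1.symm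
  have j_h1_F2 : Disjoint h1 F2 := z1.disj fun m _ _ => n_e_F2 m
  have j_F2_h1 : Disjoint F2 h1 := j_h1_F2.symm
  have j_h2_F2 : Disjoint h2 F2 := z2.disj fun m _ _ hx => by
      have hmm : m = s2 := w2.he m (sF2 hx)
      subst hmm
      exact disjoint_left.1 w2.dFT hx w2.mT
  have j_F2_h2 : Disjoint F2 h2 := j_h2_F2.symm
  have j_h1_R1 : Disjoint h1 R1 := z1.disj fun m _ _ hx => by
      have hmm : m = s1 := w1.he m (sR1 hx)
      subst hmm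
      exact disjoint_left.1 w1.dRT hx w1.mT
  have j_R1_h1 : Disjoint R1 h1 := j_h1_R1.symm
  have j_h2_R1 : Disjoint h2 R1 := z2.disj fun m _ _ => n_f_R1 m
  have j_R1_h2 : Disjoint R1 h2 := j_h2_R1.symm
  have j_h1_R2 : Disjoint h1 R2 := z1.disj fun m _ _ => n_e_R2 m
  have j_R2_h1 : Disjoint R2 h1 := j_h1_R2.symm
  have j_h2_R2 : Disjoint h2 R2 := z2.disj fun m _ _ hx => by
      have hmm : m = s2 := w2.he m (sR2 hx)
      subst hmm
      exact disjoint_left.1 w2.dRT hx w2.mT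
  have j_R2_h2 : Disjoint R2 h2 := j_h2_R2.symm
  have j_h2_D1 : Disjoint h2 D1 := z2.disj fun m _ _ => n_f_D1 m
  have j_D1_h2 : Disjoint D1 h2 := j_h2_D1.symm
  have j_h1_D2 : Disjoint h1 D2 := z1.disj fun m _ _ => n_e_D2 m
  have j_h1_h2 : Disjoint h1 h2 := z1.disj fun m _ _ => n_e_h2 m
  have j_h1_E2 : Disjoint h1 E2 := z1.disj fun m _ _ => n_e_E2 m
  have j_h2_E1 : Disjoint h2 E1 := z2.disj fun m _ _ => n_f_E1 m
  have j_E1_h2 : Disjoint E1 h2 := j_h2_E1.symm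
  have S_p0 : Disjoint p0 S := hp0.disj.mono_right subset_union_left
  have S_L1 : Disjoint L1 S := (d_S_U1.mono_right sL1).symm
  have S_L2 : Disjoint L2 S := (d_S_U2.mono_right sL2).symm
  have S_F1 : Disjoint F1 S := (d_S_U1.mono_right sF1).symm
  have S_F2 : Disjoint F2 S := (d_S_U2.mono_right sF2).symm
  have S_R1 : Disjoint R1 S := (d_S_U1.mono_right sR1).symm
  have S_R2 : Disjoint R2 S := (d_S_U2.mono_right sR2).symm
  have S_D1 : Disjoint D1 S := (d_S_U1.mono_right sD1).symm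
  have S_E1 : Disjoint E1 S := (d_S_E1).symm
  have S_D2 : Disjoint D2 S := (d_S_U2.mono_right sD2).symm
  have S_E2 : Disjoint E2 S := (d_S_E2).symm
  have S_g1 : Disjoint g1 S := y1.disj fun m hm _ => hN0 _ c1K m (by omega)
  have S_g2 : Disjoint g2 S := y2.disj fun m hm _ => hN0 _ c2K m (by omega)
  have N01 : N0 ≤ N1 := by
    have := pN1 _ c1K _ hq1
    omega
  have S_h1 : Disjoint h1 S := z1.disj fun m hm _ => hN0 _ e1K m (by omega)
  have S_h2 : Disjoint h2 S := z2.disj fun m hm _ => hN0 _ e2K m (by omega)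
  -- the core
  have finp : (p0 ∪ g1 ∪ L1 ∪ g2 ∪ L2).Finite :=
    (((hp0.fin.union y1.fin).union w1.finL).union y2.fin).union w2.finL
  have conp : Conn G (p0 ∪ g1 ∪ L1 ∪ g2 ∪ L2) := by
    refine (((hp0.conn.union y1.conn hq1 y1.ma).union w1.conL (Or.inr y1.mb) w1.mL).union y2.conn
      (x := ray c2 q2) ?_ y2.ma).union w2.conL (x := ray c2 am2) (Or.inr y2.mb) w2.mL
    exact Or.inl (Or.inl hq2)
  have cT1 : Conn G (D1 ∪ h1 ∪ E1) :=
    (w1.conT.union z1.conn w1.mT z1.ma).union k1.conn (Or.inr z1.mb) E1e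
  have cT2 : Conn G (D2 ∪ h2 ∪ E2) :=
    (w2.conT.union z2.conn w2.mT z2.ma).union k2.conn (Or.inr z2.mb) E2e
  obtain ⟨f0, e0, a1, a2, a3, a4⟩ := minmax (hR.injective i0K) finp
    (by
      obtain ⟨m, hm⟩ := hp0.ex i0 (by omega) (by omega)
      exact ⟨m, Or.inl (Or.inl (Or.inl (Or.inl hm)))⟩)
  obtain ⟨f1, _, b1, _, b3, _⟩ := minmax (hR.injective c1K) finp
    ⟨q1, Or.inl (Or.inl (Or.inl (Or.inl hq1)))⟩
  obtain ⟨f2, _, v1, _, v3, _⟩ := minmax (hR.injective c2K) finp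
    ⟨q2, Or.inl (Or.inl (Or.inl (Or.inl hq2)))⟩
  have q1N1 := pN1 _ c1K _ hq1
  have q2N1 := pN1 _ c2K _ hq2
  have f1q : f1 ≤ q1 := by
    by_contra hcon
    exact b3 q1 (by omega) (Or.inl (Or.inl (Or.inl (Or.inl hq1))))
  have f2q : f2 ≤ q2 := by
    by_contra hcon
    exact v3 q2 (by omega) (Or.inl (Or.inl (Or.inl (Or.inl hq2))))
  have lmw1 := w1.lm
  have lmw2 := w2.lm
  refine ⟨(p0 ∪ g1 ∪ L1 ∪ g2 ∪ L2), F1, F2, R1, R2, (D1 ∪ h1 ∪ E1), (D2 ∪ h2 ∪ E2), f0, f1, f2, e0, bp1, bp2, ?_⟩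
  refine ⟨⟨finp, w1.finF, w2.finF, w1.finR, w2.finR, (w1.finT.union z1.fin).union k1.fin,
    (w2.finT.union z2.fin).union k2.fin⟩, ⟨conp, w1.conR, w2.conR, cT1, cT2⟩, ?_, ?_, ?_, ?_, ?_, ?_,
    ?_, ?_, ?_, ?_, ?_, ?_, ?_, ?_, ?_, ?_, ?_, ?_, ?_, w1.gF, w2.gF⟩
  · simp only [disjoint_union_left, disjoint_union_right]
    repeat' apply And.intro
    all_goals first | assumption | (apply Disjoint.symm; assumption)
  · simp only [disjoint_union_left, disjoint_union_right]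
    repeat' apply And.intro
    all_goals first | assumption | (apply Disjoint.symm; assumption)
  · simp only [disjoint_union_left, disjoint_union_right]
    repeat' apply And.intro
    all_goals first | assumption | (apply Disjoint.symm; assumption)
  · simp only [disjoint_union_left, disjoint_union_right]
    repeat' apply And.intro
    all_goals first | assumption | (apply Disjoint.symm; assumption)
  · simp only [disjoint_union_left, disjoint_union_right]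
    repeat' apply And.intro
    all_goals first | assumption | (apply Disjoint.symm; assumption)
  · simp only [disjoint_union_left, disjoint_union_right]
    repeat' apply And.intro
    all_goals first | assumption | (apply Disjoint.symm; assumption)
  · simp only [disjoint_union_left, disjoint_union_right]
    repeat' apply And.intro
    all_goals first | assumption | (apply Disjoint.symm; assumption)
  · intro a ha
    obtain ⟨x, hx, hx'⟩ := plab ha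
    exact ⟨x, Or.inl (Or.inl (Or.inl (Or.inl hx))), hx'⟩
  · intro m
    simp only [mem_union, not_or]
    repeat' apply And.intro
    all_goals first | exact n_t_p0 m | exact n_t_g1 m | exact n_t_L1 m | exact n_t_g2 m | exact n_t_L2 m | exact n_t_F1 m | exact n_t_F2 m | exact n_t_R1 m | exact n_t_R2 m | exact n_t_D2 m | exact n_t_h2 m | exact n_t_E2 m
  · intro m
    simp only [mem_union, not_or]
    repeat' apply And.intro
    all_goals first | exact n_b_p0 m | exact n_b_g1 m | exact n_b_L1 m | exact n_b_g2 m | exact n_b_L2 m | exact n_b_F1 m | exact n_b_F2 m | exact n_b_R1 m | exact n_b_R2 m | exact n_b_D1 m | exact n_b_h1 m | exact n_b_E1 m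
  · obtain ⟨x, hx, m, hm⟩ := pt
    exact ⟨x, Or.inl (Or.inl (Or.inl (Or.inl hx))), m, hm⟩
  · obtain ⟨x, hx, m, hm⟩ := pb
    exact ⟨x, Or.inl (Or.inl (Or.inl (Or.inl hx))), m, hm⟩
  · exact ⟨_, Or.inr E1t⟩
  · exact ⟨_, Or.inr E2b⟩
  · refine ⟨a1, a2, a3, a4, ?_⟩
    · intro m
      simp only [mem_union, not_or]
      repeat' apply And.intro
      all_goals first | exact n_i_F1 m | exact n_i_F2 m | exact n_i_R1 m | exact n_i_R2 m | exact n_i_D1 m | exact n_i_h1 m | exact n_i_E1 m | exact n_i_D2 m | exact n_i_h2 m | exact n_i_E2 m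
  · refine ⟨b1, w1.mR, ?_, ?_⟩
    · intro m hm hx
      simp only [mem_union] at hx
      have hU : ray c1 m ∉ F1 ∪ L1 ∪ R1 ∪ D1 := fun h => by
        have := (w1.hc m h).1
        omega
      rcases hx with (((((hx | hx) | hx) | hx) | hx) | hx) | hx
      · exact b3 m hm (by simpa only [mem_union] using hx)
      · exact hU (sF1 hx)
      · exact n_u_F2 m hx
      · exact hU (sR1 hx)
      · exact n_u_R2 m hx
      · rcases hx with (hx | hx) | hx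
        · exact hU (sD1 hx)
        · exact n_u_h1 m hx
        · exact n_u_E1 m hx
      · rcases hx with (hx | hx) | hx
        · exact n_u_D2 m hx
        · exact n_u_h2 m hx
        · exact n_u_E2 m hx
    · intro m hm hx
      simp only [mem_union] at hx
      have hU : ray c1 m ∉ F1 ∪ L1 ∪ R1 ∪ D1 := fun h => by
        have := (w1.hc m h).2
        omega
      rcases hx with (((((hx | hx) | hx) | hx) | hx) | hx) | hx
      · rcases hx with (((hx | hx) | hx) | hx) | hx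
        · have := pN1 _ c1K m hx
          omega
        · have := (y1.le hR c1K hx).2
          omega
        · exact hU (sL1 hx)
        · exact n_u_g2 m hx
        · exact n_u_L2 m hx
      · exact hU (sF1 hx)
      · exact n_u_F2 m hx
      · exact hU (sR1 hx)
      · exact n_u_R2 m hx
      · rcases hx with (hx | hx) | hx
        · exact hU (sD1 hx)
        · exact n_u_h1 m hx
        · exact n_u_E1 m hx
      · rcases hx with (hx | hx) | hx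
        · exact n_u_D2 m hx
        · exact n_u_h2 m hx
        · exact n_u_E2 m hx
  · refine ⟨v1, w2.mR, ?_, ?_⟩
    · intro m hm hx
      simp only [mem_union] at hx
      have hU : ray c2 m ∉ F2 ∪ L2 ∪ R2 ∪ D2 := fun h => by
        have := (w2.hc m h).1
        omega
      rcases hx with (((((hx | hx) | hx) | hx) | hx) | hx) | hx
      · exact v3 m hm (by simpa only [mem_union] using hx)
      · exact n_v_F1 m hx
      · exact hU (sF2 hx)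
      · exact n_v_R1 m hx
      · exact hU (sR2 hx)
      · rcases hx with (hx | hx) | hx
        · exact n_v_D1 m hx
        · exact n_v_h1 m hx
        · exact n_v_E1 m hx
      · rcases hx with (hx | hx) | hx
        · exact hU (sD2 hx)
        · exact n_v_h2 m hx
        · exact n_v_E2 m hx
    · intro m hm hx
      simp only [mem_union] at hx
      have hU : ray c2 m ∉ F2 ∪ L2 ∪ R2 ∪ D2 := fun h => by
        have := (w2.hc m h).2
        omega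
      rcases hx with (((((hx | hx) | hx) | hx) | hx) | hx) | hx
      · rcases hx with (((hx | hx) | hx) | hx) | hx
        · have := pN1 _ c2K m hx
          omega
        · exact n_v_g1 m hx
        · exact n_v_L1 m hx
        · have := (y2.le hR c2K hx).2
          omega
        · exact hU (sL2 hx)
      · exact n_v_F1 m hx
      · exact hU (sF2 hx)
      · exact n_v_R1 m hx
      · exact hU (sR2 hx)
      · rcases hx with (hx | hx) | hx
        · exact n_v_D1 m hx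
        · exact n_v_h1 m hx
        · exact n_v_E1 m hx
      · rcases hx with (hx | hx) | hx
        · exact hU (sD2 hx)
        · exact n_v_h2 m hx
        · exact n_v_E2 m hx
  · obtain ⟨x, hx, y, hy, z, hz, h⟩ := w1.nbF
    exact ⟨x, Or.inl (Or.inl (Or.inr hx)), y, hy, z, Or.inl (Or.inl hz), h⟩
  · obtain ⟨x, hx, y, hy, z, hz, h⟩ := w2.nbF
    exact ⟨x, Or.inr hx, y, hy, z, Or.inl (Or.inl hz), h⟩

end Pool.Agent.Work.MP_216d61_lc
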