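import Pool.Agent.Work.MP_216d61_lc_full.Base1
import Pool.Agent.Work.MP_216d61_lc_full.BASE2

/-!
# Block CEL, part a: the core of a cell and the windows
-/

set_option autoImplicit false

namespace Pool.Agent.Work.MP_216d61_lc

open Relation Set

namespace CelAux

variable {V : Type} {G : SimpleGraph V} {K : ℕ} {ray : ℕ → ℕ → V}

/-- initial segments of all rays -/
def ini (K : ℕ) (ray : ℕ → ℕ → V) (N : ℕ) : Set V := {x | ∃ i n, i < K ∧ n < N ∧ x = ray i n}

theorem ini_fin (N : ℕ) : (ini K ray N).Finite := by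
  refine (((finite_Iio K).prod (finite_Iio N)).image fun p : ℕ × ℕ => ray p.1 p.2).subset ?_
  rintro x ⟨i, n, hi, hn, rfl⟩
  exact ⟨(i, n), ⟨hi, hn⟩, rfl⟩

theorem ge_of_disj {U : Set V} {N i n : ℕ} (h : Disjoint U (ini K ray N)) (hi : i < K)
    (hn : ray i n ∈ U) : N ≤ n := by
  by_contra hcon
  exact disjoint_left.1 h hn ⟨i, n, hi, by omega, rfl⟩

theorem reach_mono {c d c' d' : ℕ} {S S' : Set V} (hc : c' ≤ c) (hd : d ≤ d') (hS : S' ⊆ S) :
    Reach G K ray c d S ⊆ Reach G K ray c' d' S' := by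
  rintro x ⟨i, n, h1, h2, h3⟩
  refine ⟨i, n, by omega, by omega, h3.mono ?_⟩
  rw [compl_subset_compl]
  rintro z (hz | ⟨j, m, hj, hjc, rfl⟩)
  · exact Or.inl (hS hz)
  · exact Or.inr ⟨j, m, hj, by omega, rfl⟩

/-! ### the core -/

/-- a finite connected set meeting exactly the rays `c,...,d` -/
structure Good (G : SimpleGraph V) (K : ℕ) (ray : ℕ → ℕ → V) (S : Set V) (c d : ℕ) (p : Set V) :
    Prop where
  fin : p.Finite
  conn : Conn G p
  disj : Disjoint p S
  inn : ∀ i < K, ∀ n, ray i n ∈ p → c ≤ i ∧ i ≤ d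
  ex : ∀ i, c ≤ i → i ≤ d → ∃ n, ray i n ∈ p

theorem Good.attach (hR : IsRays G K ray) {S : Set V} {N c d : ℕ} {p H : Set V} (hd : d < K)
    (hN : ∀ i < K, ∀ n, N ≤ n → ray i n ∉ S) (hS : ini K ray N ⊆ S)
    (hp : Good G K ray S c d p) (hHf : H.Finite) (hHc : Conn G H)
    (hHS : Disjoint H S) (hHr : ∀ i < K, ∀ n, ray i n ∈ H → c ≤ i ∧ i ≤ d) {i n : ℕ}
    (hci : c ≤ i) (hid : i ≤ d) (hn : ray i n ∈ H) :
    ∃ p', p ⊆ p' ∧ H ⊆ p' ∧ Good G K ray S c d p' := by
  obtain ⟨m, hm⟩ := hp.ex i hci hid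
  have hiK : i < K := by omega
  have hmN : N ≤ m := ge_of_disj (hp.disj.mono_right hS) hiK hm
  have hnN : N ≤ n := ge_of_disj (hHS.mono_right hS) hiK hn
  set a := min m n with ha
  set b := max m n with hb
  have hab : a ≤ b := (min_le_left _ _).trans (le_max_left _ _)
  have hseg : Conn G {x | ∃ q, a ≤ q ∧ q ≤ b ∧ x = ray i q} := hR.conn_seg hiK hab
  set sg : Set V := {x | ∃ q, a ≤ q ∧ q ≤ b ∧ x = ray i q} with hsg
  have hms : ray i m ∈ sg := ⟨m, min_le_left _ _, le_max_left _ _, rfl⟩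
  have hns : ray i n ∈ sg := ⟨n, min_le_right _ _, le_max_right _ _, rfl⟩
  refine ⟨p ∪ sg ∪ H, subset_union_left.trans subset_union_left, subset_union_right, ?_, ?_, ?_,
    ?_, ?_⟩
  · exact (hp.fin.union (finite_seg _ _ _)).union hHf
  · exact (hp.conn.union hseg hm hms).union hHc (Or.inr hns) hn
  · rw [disjoint_left]
    rintro x ((hx | ⟨q, hq1, hq2, rfl⟩) | hx) hxS
    · exact disjoint_left.1 hp.disj hx hxS
    · exact hN i hiK q ((le_min hmN hnN).trans hq1) hxS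
    · exact disjoint_left.1 hHS hx hxS
  · rintro j hj q ((hx | ⟨q', hq1, hq2, he⟩) | hx)
    · exact hp.inn j hj q hx
    · obtain ⟨rfl, _⟩ := hR.inj j hj i hiK _ _ he
      exact ⟨hci, hid⟩
    · exact hHr j hj q hx
  · intro j h1 h2
    obtain ⟨q, hq⟩ := hp.ex j h1 h2
    exact ⟨q, Or.inl (Or.inl hq)⟩

theorem exists_p0 (hCOL : Stmt_COL) {T : ℕ} {S1 : Set V} (hst : Strip G T K ray S1) {r : ℕ}
    {A : Fin r → V → Prop} {c d : ℕ} (hc : 1 ≤ c) (hcd : c ≤ d) (hd : d + 1 < K)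
    {Lb : Set (Fin r)}
    (hLb : ∀ a ∈ Lb, ∀ S : Set V, S.Finite → ∃ x ∈ Reach G K ray c d S, A a x)
    {S : Set V} (hSf : S.Finite) :
    ∃ p, Good G K ray S c d p ∧ Lb ⊆ labs A p ∧ (∃ x ∈ p, ∃ m, G.Adj x (ray (c - 1) m)) ∧
      ∃ x ∈ p, ∃ m, G.Adj x (ray (d + 1) m) := by
  classical
  have hR := hst.rays
  obtain ⟨N, hN⟩ := hR.exists_beyond hSf
  set S0 : Set V := S ∪ ini K ray N with hS0
  have hS0f : S0.Finite := hSf.union (ini_fin N)
  have hN0 : ∀ i < K, ∀ n, N ≤ n → ray i n ∉ S0 := by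
    rintro i hi n hn (h | ⟨j, m, hj, hm, he⟩)
    · exact hN i hi n hn h
    · have := (hR.inj i hi j hj _ _ he).2
      omega
  have hini : ini K ray N ⊆ S0 := subset_union_right
  obtain ⟨L, lo, hi, hL⟩ := hCOL V G T K ray S1 hst S0 c d hS0f hcd (by omega)
  have g0 : Good G K ray S0 c d L := by
    refine ⟨hL.fin, hL.conn, hL.disj, ?_, ?_⟩
    · intro i hi' n hn
      by_contra hcon
      exact hL.off i hi' (by omega) n hn
    · intro i h1 h2
      exact ⟨lo i, (hL.on i h1 h2 _).2 ⟨le_rfl, hL.le i h1 h2⟩⟩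
  have glab : ∀ s : Finset (Fin r), (∀ a ∈ s, a ∈ Lb) →
      ∃ p, Good G K ray S0 c d p ∧ ∀ a ∈ s, a ∈ labs A p := by
    intro s
    induction s using Finset.induction_on with
    | empty => exact fun _ => ⟨L, g0, by simp⟩
    | @insert a s _ ih =>
      intro hs
      obtain ⟨p, hp, hps⟩ := ih fun b hb => hs b (Finset.mem_insert_of_mem hb)
      obtain ⟨x, ⟨i, n, h1, h2, h3⟩, hAx⟩ := hLb a (hs a (Finset.mem_insert_self _ _)) S0 hS0f
      obtain ⟨H, hHs, hHf, hHc, hxH, hnH⟩ := lnk_iff.1 h3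
      obtain ⟨p', h4, h5, h6⟩ := hp.attach hR (by omega) hN0 hini hHf hHc
        (by
          rw [disjoint_left]
          exact fun z hz hz' => hHs hz (Or.inl hz'))
        (by
          intro j hj m hm
          by_contra hcon
          exact hHs hm (Or.inr ⟨j, m, hj, by omega, rfl⟩)) h1 h2 hnH
      refine ⟨p', h6, ?_⟩
      intro b hb
      rcases Finset.mem_insert.1 hb with rfl | hb
      · exact ⟨x, h5 hxH, hAx⟩
      · obtain ⟨z, hz, hz'⟩ := hps b hb
        exact ⟨z, h4 hz, hz'⟩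
  obtain ⟨p1, hp1, hl1⟩ := glab (Lb.toFinite.toFinset)
    (fun a ha => (Set.Finite.mem_toFinset _).1 ha)
  -- connectors
  have conn : ∀ (i j : ℕ) (p : Set V), c ≤ i → i ≤ d → j < K → (j < c ∨ d < j) →
      RA G K ray i j → Good G K ray S0 c d p →
      ∃ p', p ⊆ p' ∧ Good G K ray S0 c d p' ∧ ∃ x ∈ p', ∃ m, G.Adj x (ray j m) := by
    intro i j p h1 h2 hj hjo hra hp
    obtain ⟨s, t, H, hHf, hHc, hHS, hsH, htH, hH⟩ := hra S0 hS0f
    have hne : ray i s ≠ ray j t := by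
      intro he
      have := (hR.inj i (by omega) j hj _ _ he).1
      omega
    obtain ⟨P, hPH, hPf, hPc, hsP, htP, _, hPt⟩ := exists_path_set hHc hsH htH hne
    have hsP' : ray i s ∈ P \ {ray j t} := ⟨hsP, hne⟩
    obtain ⟨p', h3, h4, h5⟩ := hp.attach hR (by omega) hN0 hini (hPf.sdiff) hPt
      (hHS.mono_left (sdiff_subset.trans hPH))
      (by
        intro l hl m hm
        rcases hH l hl m (hPH hm.1) with h | h
        · omega
        · exact absurd (show ray l m = ray j t by rw [h.1, h.2]) hm.2) h1 h2 hsP'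
    obtain ⟨a, ha, b, hb, hab⟩ := hPc.exists_adj (K := {ray j t}) htP rfl hsP hne
    refine ⟨p', h3, h5, b, h4 hb, t, ?_⟩
    have : a = ray j t := ha.2
    rw [← this]
    exact hab.symm
  obtain ⟨p2, h21, h22, h23⟩ := conn c (c - 1) p1 le_rfl hcd (by omega) (by omega)
    (by
      have := hst.ra (c - 1) (by omega)
      rw [Nat.sub_add_cancel hc] at this
      exact this.symm) hp1
  obtain ⟨p3, h31, h32, h33⟩ := conn d (d + 1) p2 hcd le_rfl hd (by omega)
    (hst.ra d hd) h22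
  refine ⟨p3, ⟨h32.fin, h32.conn, h32.disj.mono_right subset_union_left, h32.inn, h32.ex⟩, ?_, ?_,
    h33⟩
  · intro a ha
    obtain ⟨z, hz, hz'⟩ := hl1 a ((Set.Finite.mem_toFinset _).2 ha)
    exact ⟨z, h31 (h21 hz), hz'⟩
  · obtain ⟨x, hx, m, hm⟩ := h23
    exact ⟨x, h31 hx, m, hm⟩

/-! ### windows -/

/-- a window: the flap `F`, its three connections `DL`, `DR`, `DT`. -/
structure WinD (ρ : ℝ) (G : SimpleGraph V) {r : ℕ} (A : Fin r → V → Prop) (K : ℕ)
    (ray : ℕ → ℕ → V) (S : Set V) (c d e : ℕ) (g : ℝ) (F DL DR DT : Set V) (am bp s : ℕ) :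
    Prop where
  finF : F.Finite
  finL : DL.Finite
  finR : DR.Finite
  finT : DT.Finite
  conL : Conn G DL
  conR : Conn G DR
  conT : Conn G DT
  dS : Disjoint (F ∪ DL ∪ DR ∪ DT) S
  dFL : Disjoint F DL
  dFR : Disjoint F DR
  dFT : Disjoint F DT
  dLR : Disjoint DL DR
  dLT : Disjoint DL DT
  dRT : Disjoint DR DT
  lm : am < bp
  mL : ray c am ∈ DL
  mR : ray c bp ∈ DR
  mT : ray e s ∈ DT
  hc : ∀ m, ray c m ∈ F ∪ DL ∪ DR ∪ DT → am ≤ m ∧ m ≤ bp
  he : ∀ m, ray e m ∈ F ∪ DL ∪ DR ∪ DT → m = s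
  off : ∀ i < K, i < c - 10 ∨ d + 10 < i → ∀ m, ray i m ∉ F ∪ DL ∪ DR ∪ DT
  nbF : ∃ x ∈ DL, ∃ y ∈ DR, ∃ z ∈ DT, nb G F ⊆ {x, y, z}
  gF : g ≤ gn ρ G A F

theorem win_zero {ρ : ℝ} {r : ℕ} {A : Fin r → V → Prop} (hR : IsRays G K ray) {c d e : ℕ}
    (hcd : c ≤ d) (hcK : c < K) (heK : e < K) (hne : e ≠ c) (h1 : c ≤ e + 10) (h2 : e ≤ d + 10)
    {S : Set V} (hS : S.Finite) :
    ∃ (F DL DR DT : Set V) (am bp s : ℕ), WinD ρ G A K ray S c d e 0 F DL DR DT am bp s := by
  obtain ⟨N, hN⟩ := hR.exists_beyond hS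
  have i1 : ∀ m n, ray c m ≠ ray e n := fun m n h => hne (hR.inj c hcK e heK m n h).1.symm
  have i2 : ∀ m n, ray c m = ray c n → m = n := fun m n h => (hR.inj c hcK c hcK m n h).2
  refine ⟨∅, {ray c N}, {ray c (N + 1)}, {ray e N}, N, N + 1, N, ?_⟩
  refine ⟨finite_empty, finite_singleton _, finite_singleton _, finite_singleton _,
    conn_singleton _, conn_singleton _, conn_singleton _, ?_, ?_, ?_, ?_, ?_, ?_, ?_,
    Nat.lt_succ_self N, rfl, rfl, rfl, ?_, ?_, ?_, ?_, ?_⟩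
  · rw [disjoint_left]
    rintro x (((hx | hx) | hx) | hx) hxS
    · exact hx
    · rw [mem_singleton_iff] at hx
      subst hx
      exact hN c hcK N le_rfl hxS
    · rw [mem_singleton_iff] at hx
      subst hx
      exact hN c hcK (N + 1) (by omega) hxS
    · rw [mem_singleton_iff] at hx
      subst hx
      exact hN e heK N le_rfl hxS
  · simp
  · simp
  · simp
  · rw [disjoint_singleton]
    intro h
    have := i2 _ _ h
    omega
  · rw [disjoint_singleton]
    exact i1 _ _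
  · rw [disjoint_singleton]
    exact i1 _ _
  · rintro m (((hx | hx) | hx) | hx)
    · exact hx.elim
    · have := i2 _ _ (mem_singleton_iff.1 hx)
      omega
    · have := i2 _ _ (mem_singleton_iff.1 hx)
      omega
    · exact (i1 _ _ (mem_singleton_iff.1 hx)).elim
  · rintro m (((hx | hx) | hx) | hx)
    · exact hx.elim
    · exact (i1 _ _ (mem_singleton_iff.1 hx).symm).elim
    · exact (i1 _ _ (mem_singleton_iff.1 hx).symm).elim
    · exact (hR.inj e heK e heK _ _ (mem_singleton_iff.1 hx)).2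
  · rintro i hi hio m (((hx | hx) | hx) | hx)
    · exact hx
    · have := (hR.inj i hi c hcK _ _ (mem_singleton_iff.1 hx)).1
      omega
    · have := (hR.inj i hi c hcK _ _ (mem_singleton_iff.1 hx)).1
      omega
    · have := (hR.inj i hi e heK _ _ (mem_singleton_iff.1 hx)).1
      omega
  · exact ⟨_, rfl, _, rfl, _, rfl, by rw [nb_empty]; exact empty_subset _⟩
  · rw [gn_empty]

/-- the window from a nest -/
theorem win_nest (hWIN : Stmt_WIN) {ρ : ℝ} {r : ℕ} {A : Fin r → V → Prop} (hR : IsRays G K ray)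
    {c d e : ℕ} (hcd : c ≤ d) (hcK : c < K) (heK : e < K) (hne : e ≠ c)
    {S : Set V} {C Kc : ℕ → Set V} {am bm ap bp : ℕ → ℕ} {PT PB PX : Set V} {sT sB s : ℕ}
    (hn : Nest G K ray S c d C Kc am bm ap bp PT PB sT sB) {g : ℝ} {F : Set V}
    (hF : F.Finite) (hFK : F ⊆ Kc 0) (hnK : nb G F ⊆ Kc 0) (hn3 : (nb G F).ncard = 3)
    (hg : g ≤ gn ρ G A F)
    (hH : ∀ H : Set V, H.Nonempty → H ⊆ Kc 4 → 3 ≤ (nb G H).ncard)
    (x1 : Conn G PX) (x2 : ray e s ∈ PX ∩ C 4) (x3 : PX ⊆ Kc 4 ∪ {ray e s})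
    (x4 : ∀ j < 4, (PX ∩ C j).Nonempty) (x5 : Disjoint PX (Kc 0)) (x6 : ∀ m, ray c m ∉ PX)
    (x7 : ∀ m, ray e m ∉ Kc 4) :
    ∃ (DL DR DT : Set V), WinD ρ G A K ray S c d e g F DL DR DT (am c) (bp c) s := by
  classical
  obtain ⟨l1, l2, l3⟩ := hn.lm c le_rfl hcd
  have i2 : ∀ m n, ray c m = ray c n → m = n := fun m n h => (hR.inj c hcK c hcK m n h).2
  have hK := hn.lK c le_rfl hcd
  have h0 := hn.l0 c le_rfl hcd
  set PL : Set V := {x | ∃ n, am c ≤ n ∧ n ≤ bm c ∧ x = ray c n} with hPL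
  set PR : Set V := {x | ∃ n, ap c ≤ n ∧ n ≤ bp c ∧ x = ray c n} with hPR
  have cL : Conn G PL := hR.conn_seg hcK l1.le
  have cR : Conn G PR := hR.conn_seg hcK l3.le
  have dLR : Disjoint PL PR := by
    rw [disjoint_left]
    rintro _ ⟨n, h1, h2, rfl⟩ ⟨m, h3, h4, he⟩
    have := i2 _ _ he
    omega
  have dLX : Disjoint PL PX := by
    rw [disjoint_left]
    rintro _ ⟨n, h1, h2, rfl⟩ h
    exact x6 _ h
  have dRX : Disjoint PR PX := by
    rw [disjoint_left]
    rintro _ ⟨n, h1, h2, rfl⟩ h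
    exact x6 _ h
  obtain ⟨D, D1, D2, D3, D4, D5⟩ := hWIN V G 3 C Kc ![PL, PR, PX]
    ![ray c (am c), ray c (bp c), ray e s] F (by norm_num) hn.conC hn.finK hn.dis hn.bd hn.nest
    (by
      intro t
      fin_cases t
      exacts [cL, cR, x1])
    (by
      intro t t' htt
      fin_cases t <;> fin_cases t'
      · exact absurd rfl htt
      · exact dLR
      · exact dLX
      · exact dLR.symm
      · exact absurd rfl htt
      · exact dRX
      · exact dLX.symm
      · exact dRX.symm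
      · exact absurd rfl htt)
    (by
      intro t
      fin_cases t
      · exact ⟨am c, le_rfl, l1.le, rfl⟩
      · exact ⟨bp c, l3.le, le_rfl, rfl⟩
      · exact x2.1)
    (by
      intro t
      fin_cases t
      · exact (hn.lC c le_rfl hcd).1
      · exact (hn.lC c le_rfl hcd).2
      · exact x2.2)
    (by
      intro t
      fin_cases t
      · rintro _ ⟨n, h1, h2, rfl⟩
        rcases h1.eq_or_lt with h | h
        · exact Or.inr (by rw [h]; rfl)
        · exact Or.inl ((hK n).2 ⟨h, by omega⟩)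
      · rintro _ ⟨n, h1, h2, rfl⟩
        rcases h2.eq_or_lt with h | h
        · exact Or.inr (by rw [h]; rfl)
        · exact Or.inl ((hK n).2 ⟨by omega, h⟩)
      · exact x3)
    (by
      intro t j hj
      obtain ⟨⟨m, m1, m2, m3⟩, n, n1, n2, n3⟩ := hn.lj c le_rfl hcd j hj
      fin_cases t
      · exact ⟨ray c m, ⟨m, m1, m2, rfl⟩, m3⟩
      · exact ⟨ray c n, ⟨n, n1, n2, rfl⟩, n3⟩
      · exact x4 j hj)
    (by
      intro t
      fin_cases t
      · rw [disjoint_left]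
        rintro _ ⟨n, h1, h2, rfl⟩ h
        have := h0 _ h
        omega
      · rw [disjoint_left]
        rintro _ ⟨n, h1, h2, rfl⟩ h
        have := h0 _ h
        omega
      · exact x5) hFK hnK hn3 hH
  have K01 : Kc 0 ⊆ Kc 1 := subset_union_right.trans (hn.nest 0 (by norm_num))
  have K12 : Kc 1 ⊆ Kc 2 := subset_union_right.trans (hn.nest 1 (by norm_num))
  have K23 : Kc 2 ⊆ Kc 3 := subset_union_right.trans (hn.nest 2 (by norm_num))
  have K34 : Kc 3 ⊆ Kc 4 := subset_union_right.trans (hn.nest 3 (by norm_num))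
  have hF4 : F ⊆ Kc 4 := fun x hx => K34 (K23 (K12 (K01 (hFK hx))))
  have E0 : ∀ x ∈ D 0, (x ∈ Kc 4 ∨ x = ray c (am c)) ∧ x ∉ F := by
    intro x hx
    have := D4 0 hx
    exact ⟨this.1.imp id (fun h => mem_singleton_iff.1 h), this.2⟩
  have E1 : ∀ x ∈ D 1, (x ∈ Kc 4 ∨ x = ray c (bp c)) ∧ x ∉ F := by
    intro x hx
    have := D4 1 hx
    exact ⟨this.1.imp id (fun h => mem_singleton_iff.1 h), this.2⟩
  have E2 : ∀ x ∈ D 2, (x ∈ Kc 4 ∨ x = ray e s) ∧ x ∉ F := by
    intro x hx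
    have := D4 2 hx
    exact ⟨this.1.imp id (fun h => mem_singleton_iff.1 h), this.2⟩
  have hall : ∀ x ∈ F ∪ D 0 ∪ D 1 ∪ D 2, x ∈ Kc 4 ∨ x = ray c (am c) ∨ x = ray c (bp c) ∨
      x = ray e s := by
    rintro x (((hx | hx) | hx) | hx)
    · exact Or.inl (hF4 hx)
    · exact (E0 x hx).1.imp id Or.inl
    · exact (E1 x hx).1.imp id (fun h => Or.inr (Or.inl h))
    · exact (E2 x hx).1.imp id (fun h => Or.inr (Or.inr h))
  have hall' : F ∪ D 0 ∪ D 1 ∪ D 2 ⊆ C 4 ∪ Kc 4 := by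
    intro x hx
    rcases hall x hx with h | h | h | h
    · exact Or.inr h
    · exact Or.inl (h ▸ (hn.lC c le_rfl hcd).1)
    · exact Or.inl (h ▸ (hn.lC c le_rfl hcd).2)
    · exact Or.inl (h ▸ x2.2)
  have hfin4 : (Kc 4).Finite := hn.finK 4 le_rfl
  refine ⟨D 0, D 1, D 2, hF, ?_, ?_, ?_, D1 0, D1 1, D1 2, ?_, ?_, ?_, ?_, D2 0 1 (by decide),
    D2 0 2 (by decide), D2 1 2 (by decide), by omega, D3 0, D3 1, D3 2, ?_, ?_, ?_, ?_, hg⟩
  · exact (hfin4.union (finite_singleton (ray c (am c)))).subset fun x hx => (E0 x hx).1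
  · exact (hfin4.union (finite_singleton (ray c (bp c)))).subset fun x hx => (E1 x hx).1
  · exact (hfin4.union (finite_singleton (ray e s))).subset fun x hx => (E2 x hx).1
  · exact hn.dS.mono_left hall'
  · rw [disjoint_left]
    exact fun x hx hx' => (E0 x hx').2 hx
  · rw [disjoint_left]
    exact fun x hx hx' => (E1 x hx').2 hx
  · rw [disjoint_left]
    exact fun x hx hx' => (E2 x hx').2 hx
  · intro m hm
    rcases hall _ hm with h | h | h | h
    · have := (hK m).1 h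
      omega
    · have := i2 _ _ h
      omega
    · have := i2 _ _ h
      omega
    · exact absurd (hR.inj c hcK e heK _ _ h).1.symm hne
  · intro m hm
    rcases hall _ hm with h | h | h | h
    · exact absurd h (x7 m)
    · exact absurd (hR.inj e heK c hcK _ _ h).1 hne
    · exact absurd (hR.inj e heK c hcK _ _ h).1 hne
    · exact (hR.inj e heK e heK _ _ h).2
  · intro i hi hio m hm
    exact hn.off i hi hio m (hall' hm)
  · obtain ⟨x, hx, hx'⟩ := D5 0
    obtain ⟨y, hy, hy'⟩ := D5 1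
    obtain ⟨z, hz, hz'⟩ := D5 2
    refine ⟨x, hx, y, hy, z, hz, ?_⟩
    have hxy : x ≠ y := fun h => disjoint_left.1 (D2 0 1 (by decide)) hx (h ▸ hy)
    have hxz : x ≠ z := fun h => disjoint_left.1 (D2 0 2 (by decide)) hx (h ▸ hz)
    have hyz : y ≠ z := fun h => disjoint_left.1 (D2 1 2 (by decide)) hy (h ▸ hz)
    have hcard : ({x, y, z} : Set V).ncard = 3 := by
      rw [ncard_eq_three]
      exact ⟨x, y, z, hxy, hxz, hyz, rfl⟩
    have hsub : ({x, y, z} : Set V) ⊆ nb G F := by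
      rintro w (rfl | rfl | rfl)
      exacts [hx', hy', hz']
    have hfn : (nb G F).Finite := finite_of_ncard_pos (by omega)
    exact (eq_of_subset_of_ncard_le hsub (by omega) hfn).ge

end CelAux

end Pool.Agent.Work.MP_216d61_lc
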