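import Pool.Agent.Work.MP_216d61_lc_full.FAN

/-!
# Block CHN: chains of connected sets with two hubs and flaps
-/

set_option autoImplicit false

namespace Pool.Agent.Work.MP_216d61_lc

open Relation Set

namespace ChnAux

open FanAux

section
variable {r n : ℕ} {V : Type}

/-- the vertices: labels, hubs, the path, the flaps -/
abbrev CW (r n : ℕ) (FF : Bool → ℕ → Set V) : Type :=
  (Fin r ⊕ Bool) ⊕ (Fin (n + 1) ⊕ (Σ q : Fin n × Bool, {x // x ∈ FF q.2 q.1}))

variable {FF : Bool → ℕ → Set V}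

abbrev wl (a : Fin r) : CW r n FF := Sum.inl (Sum.inl a)
abbrev wh (b : Bool) : CW r n FF := Sum.inl (Sum.inr b)
abbrev wp (i : Fin (n + 1)) : CW r n FF := Sum.inr (Sum.inl i)
abbrev wf (x : Σ q : Fin n × Bool, {x // x ∈ FF q.2 q.1}) : CW r n FF := Sum.inr (Sum.inr x)

/-- directed adjacency -/
def Rl (G : SimpleGraph V) (A : Fin r → V → Prop) (p : ℕ → Set V) (HH : Bool → Set V)
    (Lb : Set (Fin r)) : CW r n FF → CW r n FF → Prop
  | .inr (.inl i), .inr (.inl j) => (i : ℕ) + 1 = j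
  | .inr (.inl i), .inl (.inr _) => (i : ℕ) < n
  | .inr (.inl i), .inl (.inl a) => (i : ℕ) < n ∧ a ∈ Lb
  | .inr (.inr x), .inr (.inr y) => x.1 = y.1 ∧ G.Adj x.2 y.2
  | .inr (.inr x), .inl (.inl a) => A a x.2
  | .inr (.inr x), .inr (.inl j) => ((j : ℕ) = x.1.1 ∨ (j : ℕ) = x.1.1 + 1) ∧ ∃ y ∈ p j, G.Adj x.2 y
  | .inr (.inr x), .inl (.inr b) => x.1.2 = b ∧ ∃ y ∈ HH b, G.Adj x.2 y
  | _, _ => False

/-- the graph -/
def CX (G : SimpleGraph V) (A : Fin r → V → Prop) (p : ℕ → Set V) (HH : Bool → Set V)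
    (Lb : Set (Fin r)) : SimpleGraph (CW r n FF) := SimpleGraph.fromRel (Rl G A p HH Lb)

theorem CX_minor (G : SimpleGraph V) (A : Fin r → V → Prop) (p : ℕ → Set V) (HH : Bool → Set V)
    (Lb : Set (Fin r)) (hp : ∀ i ≤ n, Conn G (p i)) (hH : ∀ b, Conn G (HH b))
    (hpp : ∀ i ≤ n, ∀ j ≤ n, i ≠ j → Disjoint (p i) (p j))
    (hpH : ∀ i ≤ n, ∀ b, Disjoint (p i) (HH b)) (hHH : ∀ b b', b ≠ b' → Disjoint (HH b) (HH b'))
    (hFF : ∀ q q' : Fin n × Bool, q ≠ q' → Disjoint (FF q.2 q.1) (FF q'.2 q'.1))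
    (hFp : ∀ q : Fin n × Bool, ∀ j ≤ n, Disjoint (FF q.2 q.1) (p j))
    (hFH : ∀ q : Fin n × Bool, ∀ b, Disjoint (FF q.2 q.1) (HH b))
    (e1 : ∀ i < n, ∃ x ∈ p i, ∃ y ∈ p (i + 1), G.Adj x y)
    (e2 : ∀ i < n, ∀ b, ∃ x ∈ p i, ∃ y ∈ HH b, G.Adj x y)
    (e3 : ∀ i < n, ∀ a ∈ Lb, ∃ x ∈ p i, A a x) :
    Minor (CX (n := n) (FF := FF) G A p HH Lb) (Hat G A) := by
  set f : CW r n FF → Set (Fin r ⊕ V) := fun w => match w with
    | .inl (.inl a) => {Sum.inl a}
    | .inl (.inr b) => Sum.inr '' HH b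
    | .inr (.inl i) => Sum.inr '' p i
    | .inr (.inr x) => {Sum.inr (x.2 : V)} with hf
  have dsym : ∀ u v, Disjoint (f u) (f v) → Disjoint (f v) (f u) := fun u v h => h.symm
  have dl : ∀ a (S : Set V), Disjoint ({Sum.inl a} : Set (Fin r ⊕ V)) (Sum.inr '' S) := by
    intro a S
    rw [disjoint_left]
    rintro z hz ⟨y, _, hy⟩
    have h1 : z = Sum.inl a := hz
    rw [h1] at hy
    exact absurd hy (by simp)
  have di : ∀ S T : Set V, Disjoint S T →
      Disjoint (Sum.inr '' S : Set (Fin r ⊕ V)) (Sum.inr '' T) := by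
    intro S T h
    rw [disjoint_left]
    rintro _ ⟨x, hx, rfl⟩ ⟨y, hy, hxy⟩
    have h1 : y = x := Sum.inr.inj hxy
    subst h1
    exact disjoint_left.1 h hx hy
  have hsing : ∀ x : (Σ q : Fin n × Bool, {x // x ∈ FF q.2 q.1}),
      ({Sum.inr (x.2 : V)} : Set (Fin r ⊕ V)) = Sum.inr '' {(x.2 : V)} := by
    intro x; rw [image_singleton]
  have dmem : ∀ (x : (Σ q : Fin n × Bool, {x // x ∈ FF q.2 q.1})) (T : Set V),
      Disjoint (FF x.1.2 x.1.1) T →
      Disjoint ({Sum.inr (x.2 : V)} : Set (Fin r ⊕ V)) (Sum.inr '' T) := by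
    intro x T h
    rw [hsing]
    apply di
    rw [disjoint_singleton_left]
    exact disjoint_left.1 h x.2.2
  refine Model.minor (f := f) ⟨?_, ?_, ?_⟩
  · rintro ((a | b) | (i | x)) ((a' | b') | (j | y)) huv
    · change Disjoint ({Sum.inl a} : Set (Fin r ⊕ V)) {Sum.inl a'}
      rw [disjoint_singleton]
      intro h
      exact huv (by rw [Sum.inl.inj h])
    · exact dl a _
    · exact dl a _
    · change Disjoint ({Sum.inl a} : Set (Fin r ⊕ V)) {Sum.inr (y.2 : V)}
      rw [hsing]; exact dl a _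
    · exact (dl a' _).symm
    · exact di _ _ (hHH b b' fun h => huv (by rw [h]))
    · exact di _ _ (hpH j (Nat.lt_succ_iff.1 j.2) b).symm
    · exact (dmem y _ (hFH y.1 b)).symm
    · exact (dl a' _).symm
    · exact di _ _ (hpH i (Nat.lt_succ_iff.1 i.2) b')
    · refine di _ _ (hpp i (Nat.lt_succ_iff.1 i.2) j (Nat.lt_succ_iff.1 j.2) fun h => huv ?_)
      rw [Fin.ext h]
    · exact (dmem y _ (hFp y.1 i (Nat.lt_succ_iff.1 i.2))).symm
    · change Disjoint ({Sum.inr (x.2 : V)} : Set (Fin r ⊕ V)) {Sum.inl a'}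
      rw [hsing]; exact (dl a' _).symm
    · exact dmem x _ (hFH x.1 b')
    · exact dmem x _ (hFp x.1 j (Nat.lt_succ_iff.1 j.2))
    · change Disjoint ({Sum.inr (x.2 : V)} : Set (Fin r ⊕ V)) {Sum.inr (y.2 : V)}
      rw [disjoint_singleton]
      intro h
      have h3 : (x.2 : V) = y.2 := Sum.inr.inj h
      obtain ⟨q, x⟩ := x
      obtain ⟨q', y⟩ := y
      have h4 : q = q' := by
        by_contra hne
        exact disjoint_left.1 (hFF q q' hne) x.2 (by simp only at h3; rw [h3]; exact y.2)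
      subst h4
      exact huv (by rw [show x = y from Subtype.ext h3])
  · rintro ((a | b) | (i | x))
    · exact conn_singleton _
    · exact (hH b).image Sum.inr fun a _ b _ hab => hab
    · exact (hp i (Nat.lt_succ_iff.1 i.2)).image Sum.inr fun a _ b _ hab => hab
    · exact conn_singleton _
  · have key : ∀ u v : CW r n FF, Rl G A p HH Lb u v →
        ∃ a ∈ f u, ∃ b ∈ f v, (Hat G A).Adj a b := by
      rintro ((a | b) | (i | x)) ((a' | b') | (j | y)) h
      · exact h.elim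
      · exact h.elim
      · exact h.elim
      · exact h.elim
      · exact h.elim
      · exact h.elim
      · exact h.elim
      · exact h.elim
      · have h' : (i : ℕ) < n ∧ a' ∈ Lb := h
        obtain ⟨x, hx, hax⟩ := e3 i h'.1 a' h'.2
        exact ⟨Sum.inr x, ⟨x, hx, rfl⟩, Sum.inl a', rfl, a', rfl, hax⟩
      · obtain ⟨x, hx, y, hy, hxy⟩ := e2 i h b'
        exact ⟨Sum.inr x, ⟨x, hx, rfl⟩, Sum.inr y, ⟨y, hy, rfl⟩, hxy⟩
      · have h' : (i : ℕ) + 1 = j := h
        have h2 : (i : ℕ) < n := by have := j.2; omega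
        obtain ⟨x, hx, y, hy, hxy⟩ := e1 i h2
        exact ⟨Sum.inr x, ⟨x, hx, rfl⟩, Sum.inr y, ⟨y, h' ▸ hy, rfl⟩, hxy⟩
      · exact h.elim
      · exact ⟨Sum.inr (x.2 : V), rfl, Sum.inl a', rfl, a', rfl, h⟩
      · obtain ⟨_, y, hy, hxy⟩ := (h : x.1.2 = b' ∧ ∃ y ∈ HH b', G.Adj x.2 y)
        exact ⟨Sum.inr (x.2 : V), rfl, Sum.inr y, ⟨y, hy, rfl⟩, hxy⟩
      · obtain ⟨_, y, hy, hxy⟩ := (h : ((j : ℕ) = x.1.1 ∨ (j : ℕ) = x.1.1 + 1) ∧
          ∃ y ∈ p j, G.Adj x.2 y)
        exact ⟨Sum.inr (x.2 : V), rfl, Sum.inr y, ⟨y, hy, rfl⟩, hxy⟩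
      · exact ⟨Sum.inr (x.2 : V), rfl, Sum.inr (y.2 : V), rfl, h.2⟩
    intro u v huv
    rcases huv.2 with h | h
    · exact key u v h
    · obtain ⟨a, ha, b, hb, hab⟩ := key v u h
      exact ⟨b, hb, a, ha, hab.symm⟩

end

end ChnAux

open FanAux ChnAux in
theorem stmt_CHN (hPL : Stmt_PL) : Stmt_CHN := by
  classical
  intro a b r
  obtain ⟨n, hn⟩ := hPL a b (r + 2)
  refine ⟨n, ?_⟩
  intro V G A p F1 F2 H1 H2 Lb g1 g2 hMR hH1 hH2 hH12 hp hpp hpH hFfin hFd hF12 hFp hFH he1 he2 he3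
    hLb hnb1 hnb2 hg1 hg2 hsum
  set ρ : ℝ := (a : ℝ) / ((b : ℝ) + 1) with hρ
  have hρ0 : 0 ≤ ρ := by rw [hρ]; positivity
  set FF : Bool → ℕ → Set V := fun b i => if b then F1 i else F2 i with hFF
  set HH : Bool → Set V := fun b => if b then H1 else H2 with hHH
  set gg : Bool → ℝ := fun b => if b then g1 else g2 with hgg
  have FFt : ∀ i, FF true i = F1 i := fun i => rfl
  have FFf : ∀ i, FF false i = F2 i := fun i => rfl
  have hfin : ∀ q : Fin n × Bool, Finite {x // x ∈ FF q.2 q.1} := by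
    rintro ⟨i, _ | _⟩
    · exact (hFfin i i.2).2.to_subtype
    · exact (hFfin i i.2).1.to_subtype
  set X : SimpleGraph (CW r n FF) := CX G A p HH Lb with hX
  have hHc : ∀ b, Conn G (HH b) := by
    rintro (_ | _)
    · exact hH2
    · exact hH1
  have hHd : ∀ b b', b ≠ b' → Disjoint (HH b) (HH b') := by
    rintro (_ | _) (_ | _) h
    · exact absurd rfl h
    · exact hH12.symm
    · exact hH12
    · exact absurd rfl h
  have hpHb : ∀ i ≤ n, ∀ b, Disjoint (p i) (HH b) := by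
    rintro i hi (_ | _)
    · exact (hpH i hi).2
    · exact (hpH i hi).1
  have hFFd : ∀ q q' : Fin n × Bool, q ≠ q' → Disjoint (FF q.2 q.1) (FF q'.2 q'.1) := by
    rintro ⟨i, _ | _⟩ ⟨j, _ | _⟩ h
    · exact (hFd i i.2 j j.2 fun h' => h (by rw [Fin.ext h'])).2
    · exact (hF12 j j.2 i i.2).symm
    · exact hF12 i i.2 j j.2
    · exact (hFd i i.2 j j.2 fun h' => h (by rw [Fin.ext h'])).1
  have hFpb : ∀ q : Fin n × Bool, ∀ j ≤ n, Disjoint (FF q.2 q.1) (p j) := by
    rintro ⟨i, _ | _⟩ j hj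
    · exact (hFp i i.2 j hj).2
    · exact (hFp i i.2 j hj).1
  have hFHb : ∀ q : Fin n × Bool, ∀ b, Disjoint (FF q.2 q.1) (HH b) := by
    rintro ⟨i, _ | _⟩ (_ | _)
    · exact (hFH i i.2).2.2.2
    · exact (hFH i i.2).2.2.1
    · exact (hFH i i.2).2.1
    · exact (hFH i i.2).1
  have he2b : ∀ i < n, ∀ b, ∃ x ∈ p i, ∃ y ∈ HH b, G.Adj x y := by
    rintro i hi (_ | _)
    · exact he3 i hi
    · exact he2 i hi
  have hXM : MR ρ X := hMR.minor (CX_minor G A p HH Lb hp hHc hpp hpHb hHd hFFd hFpb hFHb he1 he2b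
    (fun i hi a ha => hLb i hi ha))
  have hnbb : ∀ q : Fin n × Bool, ∃ x ∈ p q.1, ∃ y ∈ p (q.1 + 1), ∃ z ∈ HH q.2,
      nb G (FF q.2 q.1) ⊆ {x, y, z} := by
    rintro ⟨i, _ | _⟩
    · exact hnb2 i i.2
    · exact hnb1 i i.2
  have hgb : ∀ q : Fin n × Bool, gg q.2 ≤ gn ρ G A (FF q.2 q.1) := by
    rintro ⟨i, _ | _⟩
    · exact hg2 i i.2
    · exact hg1 i i.2
  set Φ : Set (CW r n FF) := range Sum.inl with hΦ
  set U : ℕ → Set (CW r n FF) := fun i => {w | (∃ j : Fin (n + 1), w = wp j ∧ (j : ℕ) < i) ∨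
    ∃ x : (Σ q : Fin n × Bool, {x // x ∈ FF q.2 q.1}), w = wf x ∧ (x.1.1 : ℕ) < i} with hU
  have Up : ∀ i (j : Fin (n + 1)), (wp j : CW r n FF) ∈ U i ↔ (j : ℕ) < i := by
    intro i j
    constructor
    · rintro (⟨j', h1, h2⟩ | ⟨x, h1, _⟩)
      · rw [Sum.inl.inj (Sum.inr.inj h1)]; exact h2
      · exact absurd (Sum.inr.inj h1) (by simp)
    · intro h
      exact Or.inl ⟨j, rfl, h⟩
  have Uf : ∀ i x, (wf x : CW r n FF) ∈ U i ↔ (x.1.1 : ℕ) < i := by
    intro i x
    constructor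
    · rintro (⟨j', h1, _⟩ | ⟨y, h1, h2⟩)
      · exact absurd (Sum.inr.inj h1) (by simp)
      · rw [Sum.inr.inj (Sum.inr.inj h1)]; exact h2
    · intro h
      exact Or.inr ⟨x, rfl, h⟩
  have Ul : ∀ i c, (Sum.inl c : CW r n FF) ∉ U i := by
    rintro i c (⟨j', h1, _⟩ | ⟨y, h1, h2⟩)
    · exact absurd h1 (by simp)
    · exact absurd h1 (by simp)
  have hUU : ∀ i, U i ⊆ U (i + 1) := by
    rintro i w (⟨x, h1, h2⟩ | ⟨x, h1, h2⟩)
    · exact Or.inl ⟨x, h1, by omega⟩
    · exact Or.inr ⟨x, h1, by omega⟩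
  have hnb : ∀ i, ∀ w ∈ nb X (U i) \ Φ, ∃ k : Fin (n + 1), w = wp k ∧ (k : ℕ) = i := by
    rintro i w ⟨⟨h1, u, hu, h2⟩, h3⟩
    rcases u with u | (j | x)
    · exact absurd hu (Ul i u)
    · rw [Up] at hu
      rcases w with w | (k | y)
      · exact absurd ⟨w, rfl⟩ h3
      · rw [Up] at h1
        refine ⟨k, rfl, ?_⟩
        rcases h2.2 with h4 | h4
        · have h5 : (j : ℕ) + 1 = k := h4
          omega
        · have h5 : (k : ℕ) + 1 = j := h4
          omega
      · rw [Uf] at h1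
        rcases h2.2 with h4 | h4
        · exact h4.elim
        · have h5 : (j : ℕ) = y.1.1 ∨ (j : ℕ) = y.1.1 + 1 := h4.1
          omega
    · rw [Uf] at hu
      rcases w with w | (k | y)
      · exact absurd ⟨w, rfl⟩ h3
      · rw [Up] at h1
        refine ⟨k, rfl, ?_⟩
        rcases h2.2 with h4 | h4
        · have h5 : (k : ℕ) = x.1.1 ∨ (k : ℕ) = x.1.1 + 1 := h4.1
          omega
        · exact h4.elim
      · rw [Uf] at h1
        exfalso
        rcases h2.2 with h4 | h4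
        · have h5 : x.1 = y.1 := h4.1
          rw [h5] at hu
          exact h1 hu
        · have h5 : y.1 = x.1 := h4.1
          rw [← h5] at hu
          exact h1 hu
  -- the copy of a flap
  set B : Fin n × Bool → Set (CW r n FF) := fun q => {w | ∃ x : {x // x ∈ FF q.2 q.1},
    w = wf ⟨q, x⟩} with hB
  have hBcard : ∀ q, (B q).ncard = (FF q.2 q.1).ncard := by
    intro q
    have h1 : B q = (fun x : {x // x ∈ FF q.2 q.1} => (wf ⟨q, x⟩ : CW r n FF)) '' univ := by
      ext w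
      simp only [hB, mem_ofPred_eq, image_univ, mem_range]
      exact exists_congr fun x => eq_comm
    rw [h1, ncard_image_of_injective _ (by
      intro x y hxy
      have h2 := Sum.inr.inj (Sum.inr.inj hxy)
      exact eq_of_heq (Sigma.mk.inj h2).2)]
    rw [ncard_univ]
    rfl
  have hBinc : ∀ q, incL G A (FF q.2 q.1) ≤ inc2 X (B q) := by
    intro q
    obtain ⟨x0, hx0, y0, hy0, z0, hz0, hnbq⟩ := hnbb q
    have hq := q.1.2
    set φ : V → CW r n FF := fun x => if h : x ∈ FF q.2 q.1 then wf ⟨q, ⟨x, h⟩⟩ else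
      if x = x0 then wp ⟨q.1, by omega⟩ else if x = y0 then wp ⟨q.1 + 1, by omega⟩ else wh q.2
      with hφ
    have φ1 : ∀ x (h : x ∈ FF q.2 q.1), φ x = wf ⟨q, ⟨x, h⟩⟩ := by
      intro x h
      rw [hφ]
      simp only
      rw [dif_pos h]
    have φ2 : ∀ x ∈ nb G (FF q.2 q.1), (x = x0 ∧ φ x = wp ⟨q.1, by omega⟩) ∨
        (x = y0 ∧ φ x = wp ⟨q.1 + 1, by omega⟩) ∨ (x = z0 ∧ φ x = wh q.2) := by
      intro x hx
      have h' := hnbq hx
      rw [hφ]
      simp only
      rw [dif_neg hx.1]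
      by_cases h1 : x = x0
      · left; exact ⟨h1, by rw [if_pos h1]⟩
      · rw [if_neg h1]
        by_cases h2 : x = y0
        · right; left; exact ⟨h2, by rw [if_pos h2]⟩
        · rw [if_neg h2]
          right; right
          rcases h' with h3 | h3 | h3
          · exact absurd h3 h1
          · exact absurd h3 h2
          · exact ⟨h3, rfl⟩
    refine emb G A X (FF q.2 q.1) φ (fun a => wl a) (B q) ?_ ?_ ?_ ?_ ?_ ?_
    · rintro x (hx | hx) z (hz | hz) hxz
      · rw [φ1 x hx, φ1 z hz] at hxz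
        have h2 := Sum.inr.inj (Sum.inr.inj hxz)
        exact congrArg Subtype.val (eq_of_heq (Sigma.mk.inj h2).2)
      · rw [φ1 x hx] at hxz
        rcases φ2 z hz with ⟨_, h2⟩ | ⟨_, h2⟩ | ⟨_, h2⟩ <;> rw [h2] at hxz <;>
          exact absurd hxz (by simp)
      · rw [φ1 z hz] at hxz
        rcases φ2 x hx with ⟨_, h2⟩ | ⟨_, h2⟩ | ⟨_, h2⟩ <;> rw [h2] at hxz <;>
          exact absurd hxz (by simp)
      · rcases φ2 x hx with ⟨h1, h2⟩ | ⟨h1, h2⟩ | ⟨h1, h2⟩ <;>
          rcases φ2 z hz with ⟨h3, h4⟩ | ⟨h3, h4⟩ | ⟨h3, h4⟩ <;> rw [h2, h4] at hxz <;>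
          first
          | exact h1.trans h3.symm
          | exact absurd hxz (by simp)
    · intro x z hxz
      exact Sum.inl.inj (Sum.inl.inj hxz)
    · rintro c x (hx | hx) h
      · rw [φ1 x hx] at h
        exact absurd h (by simp)
      · rcases φ2 x hx with ⟨_, h2⟩ | ⟨_, h2⟩ | ⟨_, h2⟩ <;> rw [h2] at h <;>
          exact absurd h (by simp)
    · intro x hx
      exact ⟨⟨x, hx⟩, φ1 x hx⟩
    · intro x hx z hxz
      by_cases hz : z ∈ FF q.2 q.1
      · rw [φ1 x hx, φ1 z hz]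
        refine ⟨?_, Or.inl ⟨rfl, hxz⟩⟩
        intro h
        have h2 := Sum.inr.inj (Sum.inr.inj h)
        exact hxz.ne (congrArg Subtype.val (eq_of_heq (Sigma.mk.inj h2).2))
      · rw [φ1 x hx]
        rcases φ2 z ⟨hz, x, hx, hxz⟩ with ⟨h1, h2⟩ | ⟨h1, h2⟩ | ⟨h1, h2⟩ <;> rw [h2]
        · exact ⟨by simp, Or.inl ⟨Or.inl rfl, z, h1 ▸ hx0, hxz⟩⟩
        · exact ⟨by simp, Or.inl ⟨Or.inr rfl, z, h1 ▸ hy0, hxz⟩⟩
        · exact ⟨by simp, Or.inl ⟨rfl, z, h1 ▸ hz0, hxz⟩⟩
    · intro c x hx hcx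
      rw [φ1 x hx]
      exact ⟨by simp, Or.inr hcx⟩
  -- neighbours of a flap
  have hflap : ∀ (q : Fin n × Bool) (x : {x // x ∈ FF q.2 q.1}) (w : CW r n FF),
      X.Adj (wf ⟨q, x⟩) w → w ∉ U q.1 ∧ ∀ q', q' ≠ q → w ∉ B q' := by
    intro q x w h
    rcases w with w | (k | y)
    · exact ⟨Ul _ _, fun q' _ ⟨y, hy⟩ => absurd hy (by simp)⟩
    · refine ⟨?_, fun q' _ ⟨y, hy⟩ => absurd hy (by simp)⟩
      rw [Up]
      rcases h.2 with h4 | h4
      · have h5 : (k : ℕ) = q.1 ∨ (k : ℕ) = q.1 + 1 := h4.1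
        omega
      · exact h4.elim
    · have h5 : q = y.1 := by
        rcases h.2 with h4 | h4
        · exact h4.1
        · exact h4.1.symm
      refine ⟨?_, ?_⟩
      · rw [Uf, ← h5]; exact lt_irrefl _
      · rintro q' hq' ⟨z, hz⟩
        have h6 := Sum.inr.inj (Sum.inr.inj hz)
        apply hq'
        rw [h5, h6]
  have hflap0 : ∀ (q : Fin n × Bool) (x : {x // x ∈ FF q.2 q.1}),
      (wf ⟨q, x⟩ : CW r n FF) ∉ U q.1 ∧ ∀ q', q' ≠ q → (wf ⟨q, x⟩ : CW r n FF) ∉ B q' := by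
    intro q x
    refine ⟨?_, ?_⟩
    · rw [Uf]; exact lt_irrefl _
    · rintro q' hq' ⟨z, hz⟩
      have h6 := Sum.inr.inj (Sum.inr.inj hz)
      exact hq' (Sigma.mk.inj h6).1.symm
  have hends : ∀ (q : Fin n × Bool), ∀ w ∈ prs X (B q), X.Adj w.1 w.2 ∧
      (w.1 ∈ B q ∨ w.2 ∈ B q) ∧ (w.1 ∉ U q.1 ∧ ∀ q', q' ≠ q → w.1 ∉ B q') ∧
      (w.2 ∉ U q.1 ∧ ∀ q', q' ≠ q → w.2 ∉ B q') := by
    rintro q ⟨u, v⟩ hw
    refine ⟨hw.1, hw.2, ?_⟩
    rcases hw.2 with ⟨x, hx⟩ | ⟨x, hx⟩
    · simp only at hx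
      subst hx
      exact ⟨hflap0 q x, hflap q x v hw.1⟩
    · simp only at hx
      subst hx
      exact ⟨hflap q x u hw.1.symm, hflap0 q x⟩
  have hinc : ∀ i ≤ n, 2 * ρ * (U i).ncard ≤ inc2 X (U i) := by
    intro i
    induction i with
    | zero =>
      intro _
      have h1 : U 0 = ∅ := by
        rw [Set.eq_empty_iff_forall_notMem]
        rintro w (⟨x, _, h2⟩ | ⟨x, _, h2⟩) <;> omega
      rw [h1, ncard_empty, inc2_empty]
      simp
    | succ i ih =>
      intro hi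
      have ih' := ih (by omega)
      set qt : Fin n × Bool := (⟨i, hi⟩, true) with hqt
      set qf : Fin n × Bool := (⟨i, hi⟩, false) with hqf
      have hne : qt ≠ qf := by
        intro h
        exact absurd (congrArg Prod.snd h) (by simp [hqt, hqf])
      have st1 := add_le X (U i) (B qt) (prs X (B qt)) (fun w hw =>
        ⟨(hends qt w hw).1, (hends qt w hw).2.1, (hends qt w hw).2.2.1.1,
          (hends qt w hw).2.2.2.1⟩)
      have st2 := add_le X (U i ∪ B qt) (B qf) (prs X (B qf)) (fun w hw =>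
        ⟨(hends qf w hw).1, (hends qf w hw).2.1,
          fun h => h.elim (hends qf w hw).2.2.1.1 ((hends qf w hw).2.2.1.2 qt hne),
          fun h => h.elim (hends qf w hw).2.2.2.1 ((hends qf w hw).2.2.2.2 qt hne)⟩)
      rw [← inc2_eq] at st1 st2
      -- the path vertex
      set pi : CW r n FF := wp ⟨i, by omega⟩ with hpi
      set Nb : Set (CW r n FF) := ({wp ⟨i + 1, by omega⟩} ∪ range wh) ∪ wl '' Lb with hNb
      have cNb : Nb.ncard = 3 + Lb.ncard := by
        have c1 : (range (wh : Bool → CW r n FF)).ncard = 2 := by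
          rw [← image_univ, ncard_image_of_injective _ (fun x y h => Sum.inr.inj (Sum.inl.inj h)),
            ncard_univ]
          simp
        have c2 : ((wl : Fin r → CW r n FF) '' Lb).ncard = Lb.ncard :=
          ncard_image_of_injective _ (fun x y h => Sum.inl.inj (Sum.inl.inj h))
        have d1 : Disjoint ({wp ⟨i + 1, by omega⟩} : Set (CW r n FF)) (range wh) := by
          rw [disjoint_singleton_left]
          rintro ⟨x, hx⟩
          exact absurd hx (by simp)
        have d2 : Disjoint (({wp ⟨i + 1, by omega⟩} : Set (CW r n FF)) ∪ range wh)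
            (wl '' Lb) := by
          rw [disjoint_left]
          rintro w (hw | ⟨x, rfl⟩) ⟨y, _, hy⟩
          · rw [mem_singleton_iff] at hw
            rw [hw] at hy
            exact absurd hy (by simp)
          · exact absurd hy (by simp)
        rw [hNb, ncard_union_eq d2 (toFinite _) (toFinite _),
          ncard_union_eq d1 (toFinite _) (toFinite _), c1, c2, ncard_singleton]
      have hpiN : pi ∉ Nb := by
        rintro ((h | ⟨x, hx⟩) | ⟨x, _, hx⟩)
        · have h2 := Sum.inl.inj (Sum.inr.inj h)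
          have h3 := congrArg Fin.val h2
          simp at h3
        · exact absurd hx (by simp [hpi])
        · exact absurd hx (by simp [hpi])
      set S1 : Set (CW r n FF × CW r n FF) := (fun w => (pi, w)) '' Nb with hS1
      set S2 : Set (CW r n FF × CW r n FF) := (fun w => (w, pi)) '' Nb with hS2
      have cS : (S1 ∪ S2).ncard = 2 * (3 + Lb.ncard) := by
        have c1 : S1.ncard = Nb.ncard :=
          ncard_image_of_injective _ (fun x y h => (Prod.mk.inj h).2)
        have c2 : S2.ncard = Nb.ncard :=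
          ncard_image_of_injective _ (fun x y h => (Prod.mk.inj h).1)
        have d : Disjoint S1 S2 := by
          rw [disjoint_left]
          rintro _ ⟨w, hw, rfl⟩ ⟨w', hw', h⟩
          have h1 := (Prod.mk.inj h).1
          exact hpiN (h1 ▸ hw')
        rw [ncard_union_eq d (toFinite _) (toFinite _), c1, c2, cNb]
        ring
      have hpiU : pi ∉ (U i ∪ B qt) ∪ B qf := by
        rintro ((h | ⟨x, hx⟩) | ⟨x, hx⟩)
        · rw [hpi, Up] at h
          simp at h
        · exact absurd hx (by simp [hpi])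
        · exact absurd hx (by simp [hpi])
      have hNU : ∀ w ∈ Nb, w ∉ (U i ∪ B qt) ∪ B qf := by
        rintro w ((h | ⟨x, rfl⟩) | ⟨x, _, rfl⟩)
        · rw [mem_singleton_iff] at h
          subst h
          rintro ((h | ⟨x, hx⟩) | ⟨x, hx⟩)
          · rw [Up] at h
            simp only at h
            omega
          · exact absurd hx (by simp)
          · exact absurd hx (by simp)
        · rintro ((h | ⟨x, hx⟩) | ⟨x, hx⟩)
          · exact Ul _ _ h
          · exact absurd hx (by simp)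
          · exact absurd hx (by simp)
        · rintro ((h | ⟨x, hx⟩) | ⟨x, hx⟩)
          · exact Ul _ _ h
          · exact absurd hx (by simp)
          · exact absurd hx (by simp)
      have hadj : ∀ w ∈ Nb, X.Adj pi w := by
        rintro w ((h | ⟨x, rfl⟩) | ⟨x, hx, rfl⟩)
        · rw [mem_singleton_iff] at h
          subst h
          refine ⟨?_, Or.inl rfl⟩
          intro h2
          have h3 := congrArg Fin.val (Sum.inl.inj (Sum.inr.inj h2))
          simp at h3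
        · exact ⟨by simp [hpi], Or.inl hi⟩
        · exact ⟨by simp [hpi], Or.inl ⟨hi, hx⟩⟩
      have st3 := add_le X ((U i ∪ B qt) ∪ B qf) {pi} (S1 ∪ S2) (by
        rintro _ (⟨w, hw, rfl⟩ | ⟨w, hw, rfl⟩)
        · exact ⟨hadj w hw, Or.inl rfl, hpiU, hNU w hw⟩
        · exact ⟨(hadj w hw).symm, Or.inr rfl, hNU w hw, hpiU⟩)
      rw [cS] at st3
      have hUe : U (i + 1) = ((U i ∪ B qt) ∪ B qf) ∪ {pi} := by
        ext w
        constructor
        · rintro (⟨j, rfl, h2⟩ | ⟨⟨⟨j, bb⟩, x⟩, rfl, h2⟩)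
          · by_cases h3 : (j : ℕ) < i
            · exact Or.inl (Or.inl (Or.inl (Or.inl ⟨j, rfl, h3⟩)))
            · right
              have h4 : j = ⟨i, by omega⟩ := Fin.ext (by simp only; omega)
              rw [h4]
              rfl
          · by_cases h3 : (j : ℕ) < i
            · exact Or.inl (Or.inl (Or.inl (Or.inr ⟨_, rfl, h3⟩)))
            · have h4 : j = ⟨i, hi⟩ := Fin.ext (by simp only at h2 ⊢; omega)
              subst h4
              rcases bb with _ | _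
              · exact Or.inl (Or.inr ⟨x, rfl⟩)
              · exact Or.inl (Or.inl (Or.inr ⟨x, rfl⟩))
        · rintro (((h | ⟨x, rfl⟩) | ⟨x, rfl⟩) | h)
          · exact hUU i h
          · exact Or.inr ⟨_, rfl, Nat.lt_succ_self i⟩
          · exact Or.inr ⟨_, rfl, Nat.lt_succ_self i⟩
          · rw [mem_singleton_iff] at h
            exact Or.inl ⟨_, h, Nat.lt_succ_self i⟩
      rw [hUe]
      have c1 : (((U i ∪ B qt) ∪ B qf) ∪ {pi}).ncard ≤
          (U i).ncard + (FF true i).ncard + (FF false i).ncard + 1 := by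
        have e1 := ncard_union_le ((U i ∪ B qt) ∪ B qf) {pi}
        have e2 := ncard_union_le (U i ∪ B qt) (B qf)
        have e3 := ncard_union_le (U i) (B qt)
        have e4 := hBcard qt
        have e5 := hBcard qf
        have e6 : (FF qt.2 qt.1).ncard = (FF true i).ncard := rfl
        have e7 : (FF qf.2 qf.1).ncard = (FF false i).ncard := rfl
        rw [ncard_singleton] at e1
        omega
      have c1' : ((((U i ∪ B qt) ∪ B qf) ∪ {pi}).ncard : ℝ) ≤
          (U i).ncard + (FF true i).ncard + (FF false i).ncard + 1 := by exact_mod_cast c1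
      have c2 : inc2 X (U i) + incL G A (FF true i) + incL G A (FF false i) +
          2 * (3 + Lb.ncard) ≤ inc2 X (((U i ∪ B qt) ∪ B qf) ∪ {pi}) := by
        have e1 : incL G A (FF true i) ≤ inc2 X (B qt) := hBinc qt
        have e2 : incL G A (FF false i) ≤ inc2 X (B qf) := hBinc qf
        omega
      have c2' : (inc2 X (U i) : ℝ) + incL G A (FF true i) + incL G A (FF false i) +
          2 * (3 + Lb.ncard) ≤ inc2 X (((U i ∪ B qt) ∪ B qf) ∪ {pi}) := by exact_mod_cast c2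
      have h1 : g1 ≤ (incL G A (FF true i) : ℝ) - 2 * ρ * (FF true i).ncard := hgb qt
      have h2 : g2 ≤ (incL G A (FF false i) : ℝ) - 2 * ρ * (FF false i).ncard := hgb qf
      have h3 := mul_le_mul_of_nonneg_left c1' (by linarith : 0 ≤ 2 * ρ)
      linarith
  have hw : ∀ i (hi : i ≤ n), nb X (U i) \ Φ ⊆ {wp ⟨i, by omega⟩} := by
    intro i hi w hw
    obtain ⟨k, rfl, hk⟩ := hnb i w hw
    rw [mem_singleton_iff]
    congr 2
    exact Fin.ext hk
  refine hn (CW r n FF) X Φ U hXM (toFinite _) ?_ ?_ ?_ ?_ ?_ hinc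
  · rw [hΦ, ← image_univ, ncard_image_of_injective _ Sum.inl_injective, ncard_univ]
    simp
  · intro i _
    refine ⟨toFinite _, ?_⟩
    rw [disjoint_left]
    rintro w hw ⟨c, rfl⟩
    exact Ul i c hw
  · intro i hi
    refine ⟨toFinite _, ?_⟩
    have h1 := ncard_le_ncard (hw i hi) (toFinite _)
    rw [ncard_singleton] at h1
    omega
  · intro i hi w hww
    rcases hww with h | h
    · exact hUU i h
    · have h1 := hw i hi.le h
      rw [mem_singleton_iff] at h1
      rw [h1, Up]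
      exact Nat.lt_succ_self i
  · intro i hi h
    have h1 : (wp ⟨i, by omega⟩ : CW r n FF) ∈ U (i + 1) := (Up _ _).2 (Nat.lt_succ_self i)
    rw [← h, Up] at h1
    simp at h1

end Pool.Agent.Work.MP_216d61_lc
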