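import Pool.Agent.Work.MP_216d61_lc_full.InterfaceINF

/-!
# Block COL: columns of a strip
-/

set_option autoImplicit false
set_option linter.unusedSectionVars false

namespace Pool.Agent.Work.MP_216d61_lc

open Relation Set

namespace COLaux

variable {V : Type} {G : SimpleGraph V} {K : ℕ} {ray : ℕ → ℕ → V}

theorem conn_union {s t : Set V} (hs : Conn G s) (ht : Conn G t) {x : V} (hx : x ∈ s)
    (hx' : x ∈ t) : Conn G (s ∪ t) := by
  refine conn_of_center (x0 := x) (Or.inl hx) ?_
  rintro y (hy | hy)
  · exact link_mono subset_union_left (hs.2 y hy x hx)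
  · exact link_mono subset_union_right (ht.2 y hy x hx')

/-- the piece `[p,q]` of a ray -/
def seg (ray : ℕ → ℕ → V) (i p q : ℕ) : Set V := {x | ∃ m, p ≤ m ∧ m ≤ q ∧ x = ray i m}

theorem seg_finite (i p q : ℕ) : (seg ray i p q).Finite := by
  have : seg ray i p q = ray i '' Set.Icc p q := by
    ext x
    constructor
    · rintro ⟨m, h1, h2, rfl⟩
      exact ⟨m, ⟨h1, h2⟩, rfl⟩
    · rintro ⟨m, ⟨h1, h2⟩, rfl⟩
      exact ⟨m, h1, h2, rfl⟩
  rw [this]
  exact (Set.finite_Icc p q).image _

theorem seg_conn (hr : IsRays G K ray) {i : ℕ} (hi : i < K) {p q : ℕ} (hpq : p ≤ q) :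
    Conn G (seg ray i p q) := by
  refine conn_of_center (x0 := ray i p) ⟨p, le_rfl, hpq, rfl⟩ ?_
  rintro _ ⟨m, h1, h2, rfl⟩
  induction m with
  | zero =>
    have : p = 0 := by omega
    subst this
    exact ReflTransGen.refl
  | succ m ih =>
    rcases Nat.lt_or_ge m p with h | h
    · have : p = m + 1 := by omega
      subst this
      exact ReflTransGen.refl
    · exact ReflTransGen.head ⟨(hr.adj i hi m).symm, ⟨m + 1, h1, h2, rfl⟩,
        ⟨m, h, by omega, rfl⟩⟩ (ih h (by omega))

theorem mem_seg (hr : IsRays G K ray) {i : ℕ} (hi : i < K) {p q j n : ℕ} (hj : j < K) :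
    ray j n ∈ seg ray i p q ↔ j = i ∧ p ≤ n ∧ n ≤ q := by
  constructor
  · rintro ⟨m, h1, h2, h3⟩
    obtain ⟨rfl, rfl⟩ := hr.inj j hj i hi n m h3
    exact ⟨rfl, h1, h2⟩
  · rintro ⟨rfl, h1, h2⟩
    exact ⟨n, h1, h2, rfl⟩

/-- the initial pieces of the rays -/
def ini (ray : ℕ → ℕ → V) (K M : ℕ) : Set V := {x | ∃ i < K, ∃ m ≤ M, x = ray i m}

theorem ini_finite (M : ℕ) : (ini ray K M).Finite := by
  have : ini ray K M ⊆ (fun p : ℕ × ℕ => ray p.1 p.2) '' (Set.Iio K ×ˢ Set.Iic M) := by
    rintro x ⟨i, hi, m, hm, rfl⟩
    exact ⟨(i, m), ⟨hi, hm⟩, rfl⟩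
  exact (((Set.finite_Iio K).prod (Set.finite_Iic M)).image _).subset this

/-- a bound for the positions of the ray vertices of a finite set -/
theorem exists_bound (hr : IsRays G K ray) {S : Set V} (hS : S.Finite) :
    ∃ M, ∀ i < K, ∀ m, ray i m ∈ S → m ≤ M := by
  have h1 : ∀ i < K, ∃ M, ∀ m, ray i m ∈ S → m ≤ M := by
    intro i hi
    have hf : {m | ray i m ∈ S}.Finite := hS.preimage (fun a _ b _ h =>
      (hr.inj i hi i hi a b h).2)
    obtain ⟨M, hM⟩ := hf.bddAbove
    exact ⟨M, fun m hm => hM hm⟩
  choose! M hM using h1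
  refine ⟨(Finset.range K).sup M, fun i hi m hm => (hM i hi m hm).trans ?_⟩
  exact Finset.le_sup (f := M) (Finset.mem_range.2 hi)

theorem exists_column0 (hr : IsRays G K ray) (hra : ∀ i, i + 1 < K → RA G K ray i (i + 1))
    {S : Set V} (hS : S.Finite) (M : ℕ) (hM : ∀ i < K, ∀ m, ray i m ∈ S → m ≤ M)
    (hini : ∀ i < K, ∀ m ≤ M, ray i m ∈ S) (a : ℕ) (j : ℕ) : a + 1 + j < K →
    ∃ (L : Set V) (lo hi : ℕ → ℕ), Col G K ray S a (a + 1 + j) L lo hi := by
  induction j with
  | zero =>
    intro hb
    obtain ⟨s, t, H, hHf, hHc, hHd, hs, ht, hH⟩ := hra a hb S hS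
    refine ⟨H, fun i => if i = a then s else t, fun i => if i = a then s else t, hHf, hHc, hHd,
      fun i _ _ => le_rfl, ?_, ?_, rfl, rfl⟩
    · intro i h1 h2 n
      rcases (show i = a ∨ i = a + 1 by omega) with rfl | rfl
      · rw [if_pos rfl]
        constructor
        · intro hn
          rcases hH i (by omega) n hn with ⟨_, rfl⟩ | ⟨h3, _⟩
          · exact ⟨le_rfl, le_rfl⟩
          · omega
        · rintro ⟨h3, h4⟩
          have : n = s := le_antisymm h4 h3
          rw [this]
          exact hs
      · rw [if_neg (by omega)]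
        constructor
        · intro hn
          rcases hH (a + 1) (by omega) n hn with ⟨h3, _⟩ | ⟨_, rfl⟩
          · omega
          · exact ⟨le_rfl, le_rfl⟩
        · rintro ⟨h3, h4⟩
          have : n = t := le_antisymm h4 h3
          rw [this]
          exact ht
    · intro i hi h1 n hn
      rcases hH i hi n hn with ⟨rfl, _⟩ | ⟨rfl, _⟩ <;> omega
  | succ j ih =>
    intro hb
    obtain ⟨L, lo, hi, hL⟩ := ih (by omega)
    set b := a + 1 + j with hbdef
    have hbK : b < K := by omega
    obtain ⟨s, t, H, hHf, hHc, hHd, hs, ht, hH⟩ := hra b hb S hS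
    set p := hi b with hp
    have hloL : lo b = p := hL.endb
    have hpL : ray b p ∈ L := (hL.on b (by omega) le_rfl p).2 ⟨hloL.le, le_rfl⟩
    have hpM : M < p := by
      by_contra hn
      exact Set.disjoint_left.1 hL.disj hpL (hini b hbK p (not_lt.1 hn))
    have hsM : M < s := by
      by_contra hn
      exact Set.disjoint_left.1 hHd hs (hini b hbK s (not_lt.1 hn))
    have hpseg : ray b p ∈ seg ray b (min p s) (max p s) :=
      ⟨p, min_le_left _ _, le_max_left _ _, rfl⟩
    have hsseg : ray b s ∈ seg ray b (min p s) (max p s) :=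
      ⟨s, min_le_right _ _, le_max_right _ _, rfl⟩
    have hmm : min p s ≤ max p s := min_le_max
    refine ⟨L ∪ seg ray b (min p s) (max p s) ∪ H,
      fun i => if i = b then min p s else if i = b + 1 then t else lo i,
      fun i => if i = b then max p s else if i = b + 1 then t else hi i,
      (hL.fin.union (seg_finite _ _ _)).union hHf,
      conn_union (conn_union hL.conn (seg_conn hr hbK hmm) hpL hpseg) hHc
        (Or.inr hsseg) hs, ?_, ?_, ?_, ?_, ?_, ?_⟩
    · rw [Set.disjoint_union_left, Set.disjoint_union_left]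
      refine ⟨⟨hL.disj, ?_⟩, hHd⟩
      rw [Set.disjoint_left]
      rintro _ ⟨m, h1, h2, rfl⟩ hmS
      have h3 := hM b hbK m hmS
      have h4 : M < min p s := lt_min hpM hsM
      omega
    · intro i h1 h2
      by_cases hib : i = b
      · rw [if_pos hib, if_pos hib]
        exact hmm
      · rw [if_neg hib, if_neg hib]
        by_cases hib' : i = b + 1
        · rw [if_pos hib', if_pos hib']
        · rw [if_neg hib', if_neg hib']
          exact hL.le i h1 (by omega)
    · intro i h1 h2 n
      have hiK : i < K := by omega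
      simp only [Set.mem_union]
      rw [mem_seg hr hbK hiK]
      by_cases hib : i = b
      · rw [if_pos hib, if_pos hib]
        constructor
        · rintro ((h | h) | h)
          · rw [hib] at h
            have h3 := (hL.on b (by omega) le_rfl n).1 h
            rw [hloL] at h3
            have : n = p := le_antisymm h3.2 h3.1
            rw [this]
            exact ⟨min_le_left _ _, le_max_left _ _⟩
          · exact h.2
          · rcases hH i hiK n h with ⟨_, rfl⟩ | ⟨h3, _⟩
            · exact ⟨min_le_right _ _, le_max_right _ _⟩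
            · omega
        · intro h
          exact Or.inl (Or.inr ⟨hib, h⟩)
      · rw [if_neg hib, if_neg hib]
        by_cases hib' : i = b + 1
        · rw [if_pos hib', if_pos hib']
          constructor
          · rintro ((h | h) | h)
            · exact absurd h (hL.off i hiK (Or.inr (by omega)) n)
            · exact absurd h.1 hib
            · rcases hH i hiK n h with ⟨h3, _⟩ | ⟨_, rfl⟩
              · exact absurd h3 hib
              · exact ⟨le_rfl, le_rfl⟩
          · rintro ⟨h3, h4⟩
            have : n = t := le_antisymm h4 h3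
            rw [this, hib']
            exact Or.inr ht
        · rw [if_neg hib', if_neg hib', ← hL.on i h1 (by omega) n]
          constructor
          · rintro ((h | h) | h)
            · exact h
            · exact absurd h.1 hib
            · rcases hH i hiK n h with ⟨h3, _⟩ | ⟨h3, _⟩
              · exact absurd h3 hib
              · exact absurd h3 hib'
          · intro h
            exact Or.inl (Or.inl h)
    · intro i hiK h1 n hn
      simp only [Set.mem_union] at hn
      rw [mem_seg hr hbK hiK] at hn
      rcases hn with (h | h) | h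
      · exact hL.off i hiK (by omega) n h
      · omega
      · rcases hH i hiK n h with ⟨h3, _⟩ | ⟨h3, _⟩ <;> omega
    · rw [if_neg (by omega), if_neg (by omega), if_neg (by omega), if_neg (by omega)]
      exact hL.enda
    · have e1 : a + 1 + (j + 1) = b + 1 := by omega
      rw [e1, if_neg (by omega), if_pos rfl, if_neg (by omega), if_pos rfl]

end COLaux

open COLaux in
theorem stmt_COL : Stmt_COL := by
  intro V G T K ray S1 hst S a b hS hab hb
  have hr := hst.rays
  obtain ⟨M, hM⟩ := exists_bound hr hS
  rcases hab.eq_or_lt with rfl | hlt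
  · -- a single vertex
    refine ⟨{ray a (M + 1)}, fun _ => M + 1, fun _ => M + 1, Set.finite_singleton _,
      conn_singleton _, ?_, fun _ _ _ => le_rfl, ?_, ?_, rfl, rfl⟩
    · rw [Set.disjoint_singleton_left]
      intro h
      have := hM a hb _ h
      omega
    · intro i h1 h2 n
      have : i = a := le_antisymm h2 h1
      subst this
      constructor
      · intro h
        have := (hr.inj i hb i hb n (M + 1) h).2
        omega
      · rintro ⟨h3, h4⟩
        have : n = M + 1 := le_antisymm h4 h3
        rw [this]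
        rfl
    · intro i hi h1 n h
      have := (hr.inj i hi a hb n (M + 1) h).1
      omega
  · obtain ⟨j, rfl⟩ : ∃ j, b = a + 1 + j := ⟨b - a - 1, by omega⟩
    obtain ⟨L, lo, hi, hL⟩ := exists_column0 hr hst.ra (S := S ∪ ini ray K M)
      (hS.union (ini_finite M)) M (by
        rintro i hi m (h | ⟨i', hi', m', hm', h⟩)
        · exact hM i hi m h
        · have := (hr.inj i hi i' hi' m m' h).2
          omega) (fun i hi m hm => Or.inr ⟨i, hi, m, hm, rfl⟩) a j hb
    exact ⟨L, lo, hi, hL.fin, hL.conn, hL.disj.mono_right Set.subset_union_left, hL.le, hL.on,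
      hL.off, hL.enda, hL.endb⟩

end Pool.Agent.Work.MP_216d61_lc
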