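import Pool.Agent.Work.MP_216d61_lc_full.InterfaceLIM
import Pool.Agent.Work.MP_216d61_lc_full.Base1

/-!
# CPT: the local limit (by an ultraproduct)
-/

set_option autoImplicit false

namespace Pool.Agent.Work.MP_216d61_lc

open Relation Set Filter

namespace CPTAux

/-! ### finite models -/

theorem exists_finite_conn {V : Type*} {G : SimpleGraph V} {S : Set V} (h : Conn G S)
    {P : Set V} (hP : P.Finite) (hPS : P ⊆ S) :
    ∃ F : Set V, F.Finite ∧ Conn G F ∧ P ⊆ F ∧ F ⊆ S := by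
  obtain ⟨x0, hx0⟩ := h.1
  have key : ∃ F : Set V, F.Finite ∧ Conn G F ∧ P ⊆ F ∧ F ⊆ S ∧ x0 ∈ F := by
    induction P, hP using Set.Finite.induction_on with
    | empty => exact ⟨{x0}, finite_singleton _, conn_singleton _, empty_subset _,
        singleton_subset_iff.2 hx0, rfl⟩
    | @insert a P _ _ ih =>
      obtain ⟨F, hF, hFc, hPF, hFS, hx⟩ := ih ((subset_insert _ _).trans hPS)
      obtain ⟨F', hF'S, hF', hF'c, hx', ha⟩ := lnk_iff.1 (h.lnk hx0 (hPS (mem_insert _ _)))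
      exact ⟨F ∪ F', hF.union hF', hFc.union hF'c hx hx', insert_subset (Or.inr ha)
        (hPF.trans subset_union_left), union_subset hFS hF'S, Or.inl hx⟩
  obtain ⟨F, h1, h2, h3, h4, _⟩ := key
  exact ⟨F, h1, h2, h3, h4⟩

theorem exists_finite_model {W V : Type*} [Finite W] {K : SimpleGraph W} {G : SimpleGraph V}
    {f : W → Set V} (h : Model K G f) : ∃ F : W → Set V, (∀ i, (F i).Finite) ∧ Model K G F := by
  classical
  choose a ha b hb hab using h.adj
  let P : W → Set V := fun i => (⋃ j, ⋃ (hij : K.Adj i j), {a i j hij}) ∪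
    ⋃ j, ⋃ (hij : K.Adj j i), {b j i hij}
  have hP : ∀ i, (P i).Finite := fun i =>
    (finite_iUnion fun j => finite_iUnion fun _ => finite_singleton _).union
      (finite_iUnion fun j => finite_iUnion fun _ => finite_singleton _)
  have hPf : ∀ i, P i ⊆ f i := by
    intro i
    refine union_subset ?_ ?_
    · exact iUnion_subset fun j => iUnion_subset fun hij => singleton_subset_iff.2 (ha i j hij)
    · exact iUnion_subset fun j => iUnion_subset fun hij => singleton_subset_iff.2 (hb j i hij)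
  choose F hF hFc hPF hFf using fun i => exists_finite_conn (h.conn i) (hP i) (hPf i)
  refine ⟨F, hF, ⟨fun i j hij => (h.disj i j hij).mono (hFf i) (hFf j), hFc, ?_⟩⟩
  intro i j hij
  refine ⟨a i j hij, hPF i (Or.inl ?_), b i j hij, hPF j (Or.inr ?_), hab i j hij⟩
  · exact mem_iUnion.2 ⟨j, mem_iUnion.2 ⟨hij, rfl⟩⟩
  · exact mem_iUnion.2 ⟨i, mem_iUnion.2 ⟨hij, rfl⟩⟩

/-! ### local embeddings -/

/-- `ψ` embeds the neighbourhood of `F` -/
structure Emb {V W : Type*} (G : SimpleGraph V) (H : SimpleGraph W) (ψ : V → W) (F : Set V) :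
    Prop where
  inj : InjOn ψ (F ∪ nb G F)
  adj : ∀ x ∈ F ∪ nb G F, ∀ y ∈ F ∪ nb G F, (G.Adj x y ↔ H.Adj (ψ x) (ψ y))
  cl : ∀ x ∈ F, ∀ y, H.Adj (ψ x) y → ∃ x', G.Adj x x' ∧ ψ x' = y

section emb

variable {V W : Type*} {G : SimpleGraph V} {H : SimpleGraph W} {ψ : V → W} {F : Set V}

theorem mem_un {x y : V} (hx : x ∈ F) (h : G.Adj x y) : y ∈ F ∪ nb G F := by
  by_cases hy : y ∈ F
  · exact Or.inl hy
  · exact Or.inr ⟨hy, x, hx, h⟩

theorem Emb.ncard (h : Emb G H ψ F) : (ψ '' F).ncard = F.ncard :=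
  (h.inj.mono subset_union_left).ncard_image

theorem Emb.nb_eq (h : Emb G H ψ F) : nb H (ψ '' F) = ψ '' nb G F := by
  ext y
  constructor
  · rintro ⟨hy, _, ⟨x, hx, rfl⟩, hxy⟩
    obtain ⟨x', hx', rfl⟩ := h.cl x hx y hxy
    exact ⟨x', ⟨fun hF => hy ⟨x', hF, rfl⟩, x, hx, hx'⟩, rfl⟩
  · rintro ⟨x', ⟨hx', x, hx, hxx⟩, rfl⟩
    refine ⟨?_, ψ x, ⟨x, hx, rfl⟩, (h.adj x (Or.inl hx) x' (mem_un hx hxx)).1 hxx⟩
    rintro ⟨z, hz, hzx⟩
    have := h.inj (Or.inl hz) (mem_un hx hxx) hzx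
    exact hx' (this ▸ hz)

theorem Emb.ncard_nb (h : Emb G H ψ F) : (nb H (ψ '' F)).ncard = (nb G F).ncard := by
  rw [h.nb_eq]
  exact (h.inj.mono subset_union_right).ncard_image

theorem Emb.inc2 (h : Emb G H ψ F) : inc2 H (ψ '' F) = inc2 G F := by
  have h1 : {p : W × W | H.Adj p.1 p.2 ∧ (p.1 ∈ ψ '' F ∨ p.2 ∈ ψ '' F)} =
      (fun p : V × V => (ψ p.1, ψ p.2)) '' {p : V × V | G.Adj p.1 p.2 ∧ (p.1 ∈ F ∨ p.2 ∈ F)} := by
    ext ⟨u, v⟩
    constructor
    · rintro ⟨huv, ⟨x, hx, hxu⟩ | ⟨x, hx, hxv⟩⟩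
      · simp only at huv hxu
        subst hxu
        obtain ⟨x', hx', rfl⟩ := h.cl x hx v huv
        exact ⟨(x, x'), ⟨hx', Or.inl hx⟩, rfl⟩
      · simp only at huv hxv
        subst hxv
        obtain ⟨x', hx', rfl⟩ := h.cl x hx u huv.symm
        exact ⟨(x', x), ⟨hx'.symm, Or.inr hx⟩, rfl⟩
    · rintro ⟨⟨x, x'⟩, ⟨hxx, hx | hx⟩, hp⟩
      · simp only [Prod.mk.injEq] at hp hxx hx
        obtain ⟨rfl, rfl⟩ := hp
        exact ⟨(h.adj x (Or.inl hx) x' (mem_un hx hxx)).1 hxx, Or.inl ⟨x, hx, rfl⟩⟩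
      · simp only [Prod.mk.injEq] at hp hxx hx
        obtain ⟨rfl, rfl⟩ := hp
        exact ⟨(h.adj x (mem_un hx hxx.symm) x' (Or.inl hx)).1 hxx, Or.inr ⟨x', hx, rfl⟩⟩
  unfold Pool.Agent.Work.MP_216d61_lc.inc2
  rw [h1]
  refine InjOn.ncard_image ?_
  have hm : ∀ p ∈ {p : V × V | G.Adj p.1 p.2 ∧ (p.1 ∈ F ∨ p.2 ∈ F)},
      p.1 ∈ F ∪ nb G F ∧ p.2 ∈ F ∪ nb G F := by
    rintro ⟨x, y⟩ ⟨hxy, hx | hy⟩
    · exact ⟨Or.inl hx, mem_un hx hxy⟩
    · exact ⟨mem_un hy hxy.symm, Or.inl hy⟩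
  rintro p hp q hq hpq
  simp only [Prod.mk.injEq] at hpq
  exact Prod.ext (h.inj (hm p hp).1 (hm q hq).1 hpq.1) (h.inj (hm p hp).2 (hm q hq).2 hpq.2)

theorem labc_image {r : ℕ} {A : Fin r → V → Prop} {B : Fin r → W → Prop}
    (hinj : InjOn ψ F) (hAB : ∀ a, ∀ x ∈ F, (A a x ↔ B a (ψ x))) :
    labc B (ψ '' F) = labc A F := by
  have h1 : {p : Fin r × W | p.2 ∈ ψ '' F ∧ B p.1 p.2} =
      (fun p : Fin r × V => (p.1, ψ p.2)) '' {p : Fin r × V | p.2 ∈ F ∧ A p.1 p.2} := by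
    ext ⟨a, v⟩
    constructor
    · rintro ⟨⟨x, hx, hxv⟩, hB⟩
      simp only at hxv hB
      subst hxv
      exact ⟨(a, x), ⟨hx, (hAB a x hx).2 hB⟩, rfl⟩
    · rintro ⟨⟨a', x⟩, ⟨hx, hA⟩, hp⟩
      simp only [Prod.mk.injEq] at hp hx hA
      obtain ⟨rfl, rfl⟩ := hp
      exact ⟨⟨x, hx, rfl⟩, (hAB a' x hx).1 hA⟩
  unfold labc
  rw [h1]
  refine InjOn.ncard_image ?_
  rintro p hp q hq hpq
  simp only [Prod.mk.injEq] at hpq
  exact Prod.ext hpq.1 (hinj hp.1 hq.1 hpq.2)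

theorem labs_image {r : ℕ} {A : Fin r → V → Prop} {B : Fin r → W → Prop}
    (hAB : ∀ a, ∀ x ∈ F, (A a x ↔ B a (ψ x))) : labs B (ψ '' F) = labs A F := by
  ext a
  constructor
  · rintro ⟨_, ⟨x, hx, rfl⟩, hB⟩
    exact ⟨x, hx, (hAB a x hx).2 hB⟩
  · rintro ⟨x, hx, hA⟩
    exact ⟨ψ x, ⟨x, hx, rfl⟩, (hAB a x hx).1 hA⟩

end emb

/-! ### the ultraproduct -/

/-- a free ultrafilter -/
noncomputable abbrev U : Ultrafilter ℕ := Filter.hyperfilter ℕ

theorem ev_ge (N : ℕ) : ∀ᶠ m in (U : Filter ℕ), N ≤ m :=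
  Nat.hyperfilter_le_atTop (eventually_ge_atTop N)

variable {ρ : ℝ} {r : ℕ}

/-- almost everywhere equality -/
def st (s : PSeq ρ r) : Setoid (∀ m, Fin (s.n m)) where
  r y z := ∀ᶠ m in (U : Filter ℕ), y m = z m
  iseqv := ⟨fun _ => Eventually.of_forall fun _ => rfl, fun h => h.mono fun _ h => h.symm,
    fun h h' => (h.and h').mono fun _ h => h.1.trans h.2⟩

/-- the vertices of the limit graph -/
def VV (s : PSeq ρ r) : Type :=
  {q : Quotient (st s) // ∃ R, ∀ᶠ m in (U : Filter ℕ), q.out m ∈ ball (s.H m) (s.x m) R}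

/-- a representative -/
noncomputable def rep {s : PSeq ρ r} (q : VV s) (m : ℕ) : Fin (s.n m) := q.1.out m

variable {s : PSeq ρ r}

theorem rep_ne {q q' : VV s} (h : q ≠ q') : ∀ᶠ m in (U : Filter ℕ), rep q m ≠ rep q' m := by
  rw [Ultrafilter.eventually_not]
  intro h'
  apply h
  apply Subtype.ext
  rw [← Quotient.out_equiv_out]
  exact h'

theorem exists_rep (z : ∀ m, Fin (s.n m)) (R : ℕ)
    (hz : ∀ᶠ m in (U : Filter ℕ), z m ∈ ball (s.H m) (s.x m) R) :
    ∃ q : VV s, ∀ᶠ m in (U : Filter ℕ), rep q m = z m := by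
  have h1 : ∀ᶠ m in (U : Filter ℕ), (Quotient.mk (st s) z).out m = z m :=
    @Quotient.mk_out _ (st s) z
  refine ⟨⟨Quotient.mk (st s) z, R, (h1.and hz).mono fun m h => ?_⟩, h1⟩
  rw [h.1]
  exact h.2

/-- the ball of the limit graph -/
def gball (s : PSeq ρ r) (R : ℕ) : Set (VV s) :=
  {q | ∀ᶠ m in (U : Filter ℕ), rep q m ∈ ball (s.H m) (s.x m) R}

theorem mem_some_gball (q : VV s) : ∃ R, q ∈ gball s R := q.2

theorem exists_lift {P : ∀ m, Fin (s.n m) → Prop} {R : ℕ}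
    (h : ∀ᶠ m in (U : Filter ℕ), ∃ y, y ∈ ball (s.H m) (s.x m) R ∧ P m y) :
    ∃ q : VV s, q ∈ gball s R ∧ ∀ᶠ m in (U : Filter ℕ), P m (rep q m) := by
  classical
  let z : ∀ m, Fin (s.n m) := fun m =>
    if h : ∃ y, y ∈ ball (s.H m) (s.x m) R ∧ P m y then h.choose else s.x m
  have hz : ∀ᶠ m in (U : Filter ℕ), z m ∈ ball (s.H m) (s.x m) R ∧ P m (z m) := by
    refine h.mono fun m hm => ?_
    have h2 : z m = hm.choose := dif_pos hm
    rw [h2]
    exact hm.choose_spec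
  obtain ⟨q, hq⟩ := exists_rep z R (hz.mono fun m h => h.1)
  refine ⟨q, ?_, ?_⟩
  · exact (hq.and hz).mono fun m h => by rw [h.1]; exact h.2.1
  · exact (hq.and hz).mono fun m h => by rw [h.1]; exact h.2.2

/-- the limit graph -/
def LG (s : PSeq ρ r) : SimpleGraph (VV s) where
  Adj q q' := ∀ᶠ m in (U : Filter ℕ), (s.H m).Adj (rep q m) (rep q' m)
  symm := ⟨fun _ _ h => h.mono fun _ h => h.symm⟩
  loopless := ⟨fun q h => by
    obtain ⟨m, hm⟩ := h.exists
    exact (s.H m).loopless.1 _ hm⟩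

/-- the labels of the limit graph -/
def LA (s : PSeq ρ r) (a : Fin r) (q : VV s) : Prop :=
  ∀ᶠ m in (U : Filter ℕ), s.A m a (rep q m)

theorem ev_all {T : Set (VV s)} (hT : T.Finite) {p : VV s → ℕ → Prop}
    (h : ∀ q ∈ T, ∀ᶠ m in (U : Filter ℕ), p q m) : ∀ᶠ m in (U : Filter ℕ), ∀ q ∈ T, p q m :=
  (eventually_all_finite hT).2 h

theorem ev_inj {T : Set (VV s)} (hT : T.Finite) :
    ∀ᶠ m in (U : Filter ℕ), InjOn (fun q => rep q m) T := by
  have : ∀ᶠ m in (U : Filter ℕ), ∀ q ∈ T, ∀ q' ∈ T, rep q m = rep q' m → q = q' := by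
    refine ev_all hT fun q _ => ev_all hT fun q' _ => ?_
    by_cases h : q = q'
    · exact Eventually.of_forall fun _ _ => h
    · exact (rep_ne h).mono fun m hm h' => absurd h' hm
  exact this.mono fun m hm q hq q' hq' h => hm q hq q' hq' h

theorem ev_iff {p : ℕ → Prop} : ∀ᶠ m in (U : Filter ℕ), ((∀ᶠ m in (U : Filter ℕ), p m) ↔ p m) := by
  by_cases h : ∀ᶠ m in (U : Filter ℕ), p m
  · exact h.mono fun m hm => ⟨fun _ => hm, fun _ => h⟩
  · have h' : ∀ᶠ m in (U : Filter ℕ), ¬ p m := Ultrafilter.eventually_not.2 h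
    exact h'.mono fun m hm => ⟨fun h2 => absurd h2 h, fun h2 => absurd h2 hm⟩

theorem ev_adj {T : Set (VV s)} (hT : T.Finite) : ∀ᶠ m in (U : Filter ℕ), ∀ q ∈ T, ∀ q' ∈ T,
    ((LG s).Adj q q' ↔ (s.H m).Adj (rep q m) (rep q' m)) :=
  ev_all hT fun _ _ => ev_all hT fun _ _ => ev_iff

theorem ev_lab {T : Set (VV s)} (hT : T.Finite) : ∀ᶠ m in (U : Filter ℕ), ∀ a, ∀ q ∈ T,
    (LA s a q ↔ s.A m a (rep q m)) := by
  rw [eventually_all]
  exact fun a => ev_all hT fun _ _ => ev_iff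

theorem ball_adj {V : Type*} {G : SimpleGraph V} {x y z : V} {R : ℕ} (hy : y ∈ ball G x R)
    (h : G.Adj y z) : z ∈ ball G x (R + 1) := mem_un hy h

theorem ball_mono {V : Type*} {G : SimpleGraph V} {x : V} {R R' : ℕ} (h : R ≤ R') :
    ball G x R ⊆ ball G x R' := by
  induction R', h using Nat.le_induction with
  | base => exact subset_rfl
  | succ n _ ih => exact ih.trans subset_union_left

theorem gball_mono {R R' : ℕ} (h : R ≤ R') : gball s R ⊆ gball s R' :=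
  fun _ hq => Eventually.mono hq fun _ hm => ball_mono h hm

theorem ev_nbr (q : VV s) : ∀ᶠ m in (U : Filter ℕ), ∀ y, (s.H m).Adj (rep q m) y →
    ∃ q', (LG s).Adj q q' ∧ rep q' m = y := by
  by_contra hcon
  rw [← Ultrafilter.eventually_not] at hcon
  obtain ⟨R, hR⟩ := mem_some_gball q
  have h1 : ∀ᶠ m in (U : Filter ℕ), ∃ y, y ∈ ball (s.H m) (s.x m) (R + 1) ∧
      ((s.H m).Adj (rep q m) y ∧ ∀ q', (LG s).Adj q q' → rep q' m ≠ y) := by
    refine (hcon.and hR).mono fun m ⟨hm, hmR⟩ => ?_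
    push Not at hm
    obtain ⟨y, hy, hy'⟩ := hm
    exact ⟨y, ball_adj hmR hy, hy, hy'⟩
  obtain ⟨q'', _, hq⟩ := exists_lift h1
  have hadj : (LG s).Adj q q'' := hq.mono fun m h => h.1
  obtain ⟨m, hm⟩ := hq.exists
  exact hm.2 q'' hadj rfl

theorem lf (q : VV s) : {y | (LG s).Adj q y}.Finite := by
  obtain ⟨R, hR⟩ := mem_some_gball q
  by_contra hinf
  obtain ⟨t, ht, hc⟩ := Set.Infinite.exists_subset_card_eq hinf (s.B R + 1)
  have h1 : ∀ᶠ m in (U : Filter ℕ), ∀ y ∈ (t : Set (VV s)), (s.H m).Adj (rep q m) (rep y m) :=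
    ev_all t.finite_toSet fun y hy => ht hy
  obtain ⟨m, ⟨hm1, hm2⟩, hm3, hm4⟩ :=
    ((h1.and (ev_inj t.finite_toSet)).and (hR.and (ev_ge R))).exists
  have h2 := s.deg m R hm4 _ hm3
  have h3 : ((fun q => rep q m) '' (t : Set (VV s))).ncard ≤ dg (s.H m) (rep q m) := by
    refine ncard_le_ncard ?_ (toFinite _)
    rintro _ ⟨y, hy, rfl⟩
    exact hm1 y hy
  rw [hm2.ncard_image, ncard_coe_finset, hc] at h3
  omega

theorem ev_emb {F : Set (VV s)} (hF : F.Finite) :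
    ∀ᶠ m in (U : Filter ℕ), Emb (LG s) (s.H m) (fun q => rep q m) F := by
  have hT : (F ∪ nb (LG s) F).Finite := hF.union (nb_finite lf hF)
  filter_upwards [ev_inj hT, ev_adj hT, ev_all hF fun q _ => ev_nbr q] with m h1 h2 h3
  exact ⟨h1, h2, h3⟩

/-- the root of the limit graph -/
theorem exists_root (s : PSeq ρ r) : ∃ o : VV s, ∀ᶠ m in (U : Filter ℕ), rep o m = s.x m :=
  exists_rep (fun m => s.x m) 0 (Eventually.of_forall fun _ => rfl)

theorem gball_zero {o : VV s} (ho : ∀ᶠ m in (U : Filter ℕ), rep o m = s.x m) :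
    gball s 0 = {o} := by
  ext q
  constructor
  · intro hq
    by_contra hne
    obtain ⟨m, ⟨h1, h2⟩, h3⟩ := ((ho.and hq).and (rep_ne hne)).exists
    exact h3 (h2.trans h1.symm)
  · rintro rfl
    exact ho

theorem gball_succ (R : ℕ) : gball s (R + 1) ⊆ gball s R ∪ nb (LG s) (gball s R) := by
  intro q hq
  by_cases h : q ∈ gball s R
  · exact Or.inl h
  have h' : ∀ᶠ m in (U : Filter ℕ), rep q m ∉ ball (s.H m) (s.x m) R :=
    Ultrafilter.eventually_not.2 h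
  have h1 : ∀ᶠ m in (U : Filter ℕ), ∃ y, y ∈ ball (s.H m) (s.x m) R ∧
      (s.H m).Adj y (rep q m) := by
    filter_upwards [hq, h'] with m hm hm'
    rcases hm with hm | hm
    · exact absurd hm hm'
    · obtain ⟨_, y, hy, hyq⟩ := hm
      exact ⟨y, hy, hyq⟩
  obtain ⟨q', hq', hadj⟩ := exists_lift h1
  exact Or.inr ⟨h, q', hq', hadj⟩

theorem gball_finite (s : PSeq ρ r) (R : ℕ) : (gball s R).Finite := by
  induction R with
  | zero =>
    obtain ⟨o, ho⟩ := exists_root s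
    rw [gball_zero ho]
    exact finite_singleton _
  | succ R ih => exact (ih.union (nb_finite lf ih)).subset (gball_succ R)

theorem conn_univ (s : PSeq ρ r) : Conn (LG s) univ := by
  obtain ⟨o, ho⟩ := exists_root s
  refine conn_of_center (x0 := o) (mem_univ _) ?_
  have key : ∀ R, ∀ q ∈ gball s R,
      ReflTransGen (fun a b => (LG s).Adj a b ∧ a ∈ univ ∧ b ∈ univ) q o := by
    intro R
    induction R with
    | zero =>
      intro q hq
      rw [gball_zero ho] at hq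
      rw [mem_singleton_iff.1 hq]
    | succ R ih =>
      intro q hq
      rcases gball_succ R hq with h | ⟨_, q', hq', h⟩
      · exact ih q h
      · exact ReflTransGen.head ⟨h.symm, mem_univ _, mem_univ _⟩ (ih q' hq')
  intro q _
  obtain ⟨R, hR⟩ := mem_some_gball q
  exact key R q hR

theorem infinite (s : PSeq ρ r) : Infinite (VV s) := by
  by_contra hfin
  rw [not_infinite_iff_finite] at hfin
  obtain ⟨o, _⟩ := exists_root s
  have hU : (univ : Set (VV s)).Finite := finite_univ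
  obtain ⟨m, h1, h2⟩ := ((ev_emb hU).and (ev_ge ((univ : Set (VV s)).ncard + 1))).exists
  have h3 : nb (s.H m) ((fun q => rep q m) '' univ) = ∅ := by
    rw [h1.nb_eq]
    have : nb (LG s) (univ : Set (VV s)) = ∅ := by
      ext y
      simp [nb]
    rw [this, image_empty]
  have h4 : (fun q => rep q m) '' (univ : Set (VV s)) = univ := by
    by_contra hne
    have := nb_nonempty (s.conn m) (F := (fun q => rep q m) '' (univ : Set (VV s)))
      ⟨rep o m, o, mem_univ _, rfl⟩ hne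
    rw [h3] at this
    exact not_nonempty_empty this
  have h5 := h1.ncard
  rw [h4, ncard_univ, Nat.card_eq_fintype_card, Fintype.card_fin] at h5
  have h6 := s.big m
  omega

theorem image_gball (R : ℕ) : ∀ᶠ m in (U : Filter ℕ),
    (fun q => rep q m) '' gball s R = ball (s.H m) (s.x m) R := by
  have h1 : ∀ᶠ m in (U : Filter ℕ), ∀ q ∈ gball s R, rep q m ∈ ball (s.H m) (s.x m) R :=
    ev_all (gball_finite s R) fun q hq => hq
  have h2 : ∀ᶠ m in (U : Filter ℕ),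
      ball (s.H m) (s.x m) R ⊆ (fun q => rep q m) '' gball s R := by
    by_contra hcon
    rw [← Ultrafilter.eventually_not] at hcon
    have h3 : ∀ᶠ m in (U : Filter ℕ), ∃ y, y ∈ ball (s.H m) (s.x m) R ∧
        y ∉ (fun q => rep q m) '' gball s R := by
      refine hcon.mono fun m hm => ?_
      rw [not_subset] at hm
      exact hm
    obtain ⟨q, hq, hq'⟩ := exists_lift h3
    obtain ⟨m, hm⟩ := hq'.exists
    exact hm ⟨q, hq, rfl⟩
  filter_upwards [h1, h2] with m hm hm'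
  refine Subset.antisymm ?_ hm'
  rintro _ ⟨q, hq, rfl⟩
  exact hm q hq

theorem e1 (s : PSeq ρ r) (S : Set (VV s)) (hS : S.Finite) : ∃ Y : Set (VV s), Y.Finite ∧ S ⊆ Y ∧
    ∀ x y, x ∉ Y → y ∉ Y → Lnk (LG s) Sᶜ x y := by
  obtain ⟨o, ho⟩ := exists_root s
  -- a radius
  have hR : ∃ R, S ⊆ gball s R := by
    choose f hf using fun q : VV s => mem_some_gball q
    obtain ⟨R, hR⟩ := (hS.image f).bddAbove
    refine ⟨R, fun q hq => gball_mono (hR ⟨q, hq, rfl⟩) (hf q)⟩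
  obtain ⟨R, hR⟩ := hR
  have hinf := infinite s
  -- outside vertices are linked to the sphere
  have hsph : ∀ p, p ∉ gball s (s.L R) → ∃ w, w ∈ gball s (s.L R + 1) ∧ w ∉ gball s (s.L R) ∧
      Lnk (LG s) (gball s (s.L R))ᶜ p w := by
    intro p hp
    have hmem : o ∈ gball s (s.L R) := gball_mono (Nat.zero_le _) (by
      rw [gball_zero ho]
      rfl)
    obtain ⟨z, w, h1, h2, h3, _⟩ := ((conn_univ s).lnk (mem_univ p) (mem_univ o)).hitSet hp hmem
    refine ⟨z, ?_, h1.mem_right.2, h1.mono fun a ha => ha.2⟩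
    filter_upwards [h2, h3] with m h2 h3
    exact ball_adj h3 h2.symm
  have hlink : ∀ w w', w ∈ gball s (s.L R + 1) → w ∉ gball s (s.L R) → w' ∈ gball s (s.L R + 1) →
      w' ∉ gball s (s.L R) → Lnk (LG s) (gball s (s.L R + 1) \ gball s R) w w' := by
    intro w w' h1 h2 h3 h4
    have h2' : ∀ᶠ m in (U : Filter ℕ), rep w m ∉ ball (s.H m) (s.x m) (s.L R) :=
      Ultrafilter.eventually_not.2 h2
    have h4' : ∀ᶠ m in (U : Filter ℕ), rep w' m ∉ ball (s.H m) (s.x m) (s.L R) :=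
      Ultrafilter.eventually_not.2 h4
    obtain ⟨m, ⟨⟨g1, g2⟩, g3, g4⟩, ⟨⟨g5, g6⟩, g7⟩, g8, g9⟩ :=
      (((h1.and h2').and (h3.and h4')).and
        (((image_gball (s := s) (s.L R + 1)).and (image_gball (s := s) R)).and
          (ev_emb (gball_finite s (s.L R + 1))) |>.and
          ((ev_inj ((gball_finite s (s.L R + 1)).union (gball_finite s R))).and (ev_ge R)))).exists
    have g10 := s.one m R g9 (rep w m) (rep w' m) g1 g2 g3 g4
    -- pull back
    obtain ⟨h5, h6⟩ := g10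
    have hback : ∀ y, y ∈ ball (s.H m) (s.x m) (s.L R + 1) \ ball (s.H m) (s.x m) R →
        ∃ q ∈ gball s (s.L R + 1) \ gball s R, rep q m = y := by
      rintro y ⟨hy, hy'⟩
      rw [← g5] at hy
      obtain ⟨q, hq, rfl⟩ := hy
      refine ⟨q, ⟨hq, fun hqR => hy' ?_⟩, rfl⟩
      rw [← g6]
      exact ⟨q, hqR, rfl⟩
    have hwR : w ∈ gball s (s.L R + 1) \ gball s R := by
      obtain ⟨q, hq, hqw⟩ := hback _ h5
      have : q = w := g8 (Or.inl hq.1) (Or.inl h1) hqw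
      rwa [← this]
    have key : ∀ y, ReflTransGen (fun a b => (s.H m).Adj a b ∧
        a ∈ ball (s.H m) (s.x m) (s.L R + 1) \ ball (s.H m) (s.x m) R ∧
        b ∈ ball (s.H m) (s.x m) (s.L R + 1) \ ball (s.H m) (s.x m) R) (rep w m) y →
        ∀ q ∈ gball s (s.L R + 1), rep q m = y →
          Lnk (LG s) (gball s (s.L R + 1) \ gball s R) w q := by
      intro y hy
      induction hy with
      | refl =>
        intro q hq hqw
        have : q = w := g8 (Or.inl hq) (Or.inl h1) hqw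
        rw [this]
        exact Lnk.refl hwR
      | @tail b c _ h3 ih =>
        intro q hq hqc
        obtain ⟨q', hq', hq'b⟩ := hback b h3.2.1
        obtain ⟨q2, hq2, hq2c⟩ := hback c h3.2.2
        have : q2 = q := g8 (Or.inl hq2.1) (Or.inl hq) (hq2c.trans hqc.symm)
        subst this
        refine (ih q' hq'.1 hq'b).step ?_ hq2
        refine (g7.adj q' (Or.inl hq'.1) q2 (Or.inl hq)).2 ?_
        simp only [hq'b, hqc]
        exact h3.1
    exact key _ h6 w' h3 rfl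
  -- `L R` is at least `R`
  have hLR : gball s R ⊆ gball s (s.L R) := by
    intro q hq
    by_contra hq'
    obtain ⟨w, h1, h2, _⟩ := hsph q hq'
    have h3 := (hlink w w h1 h2 h1 h2).mem_left.2
    have h4 : s.L R < R := by
      by_contra h
      exact hq' (gball_mono (not_lt.1 h) hq)
    exact h3 (gball_mono h4 h1)
  refine ⟨gball s (s.L R), gball_finite s _, hR.trans hLR, ?_⟩
  intro p q hp hq
  obtain ⟨w, h1, h2, h3⟩ := hsph p hp
  obtain ⟨w', h1', h2', h3'⟩ := hsph q hq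
  have hsub : (gball s (s.L R))ᶜ ⊆ Sᶜ := compl_subset_compl.2 (hR.trans hLR)
  refine (h3.mono hsub).trans (Lnk.trans ?_ (h3'.mono hsub).symm)
  exact (hlink w w' h1 h2 h1' h2').mono fun a ha haS => ha.2 (hR haS)

theorem mr (s : PSeq ρ r) : MR ρ (Hat (LG s) (LA s)) := by
  intro W _ K hK
  obtain ⟨f, hf⟩ := minor_iff.1 hK
  obtain ⟨F, hF, hFm⟩ := exists_finite_model hf
  let T : Set (VV s) := ⋃ i, Sum.inr ⁻¹' F i
  have hT : T.Finite := finite_iUnion fun i => (hF i).preimage Sum.inr_injective.injOn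
  have hmT : ∀ i q, (Sum.inr q : Fin r ⊕ VV s) ∈ F i → q ∈ T := fun i q h => mem_iUnion.2 ⟨i, h⟩
  obtain ⟨m, ⟨h1, h2⟩, h3⟩ := (((ev_inj hT).and (ev_adj hT)).and (ev_lab hT)).exists
  refine s.mr m W K ?_
  let φ : Fin r ⊕ VV s → Fin r ⊕ Fin (s.n m) := Sum.map id fun q => rep q m
  have hφ : ∀ i j, ∀ u ∈ F i, ∀ v ∈ F j, (Hat (LG s) (LA s)).Adj u v →
      (Hat (s.H m) (s.A m)).Adj (φ u) (φ v) := by
    rintro i j (a | q) hu (b | q') hv huv
    · exact huv
    · obtain ⟨c, hc, hA⟩ := huv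
      exact ⟨c, hc, (h3 c q' (hmT j q' hv)).1 hA⟩
    · obtain ⟨c, hc, hA⟩ := huv
      exact ⟨c, hc, (h3 c q (hmT i q hu)).1 hA⟩
    · exact (h2 q (hmT i q hu) q' (hmT j q' hv)).1 huv
  refine Model.minor (f := fun i => φ '' F i) ⟨?_, ?_, ?_⟩
  · intro i j hij
    rw [disjoint_left]
    rintro _ ⟨u, hu, rfl⟩ ⟨v, hv, hvu⟩
    have : v = u := by
      rcases u with a | q <;> rcases v with b | q'
      · exact congrArg _ (Sum.inl_injective hvu)
      · exact absurd hvu (by simp [φ])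
      · exact absurd hvu (by simp [φ])
      · exact congrArg _ (h1 (hmT j q' hv) (hmT i q hu) (Sum.inr_injective hvu))
    exact disjoint_left.1 (hFm.disj i j hij) hu (this ▸ hv)
  · intro i
    exact (hFm.conn i).image φ fun a ha b hb hab => hφ i i a ha b hb hab
  · intro i j hij
    obtain ⟨a, ha, b, hb, hab⟩ := hFm.adj i j hij
    exact ⟨φ a, ⟨a, ha, rfl⟩, φ b, ⟨b, hb, rfl⟩, hφ i j a ha b hb hab⟩

end CPTAux

open CPTAux in
/-- **Block CPT**. -/
theorem stmt_CPT : Stmt_CPT := by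
  intro ρ r s
  refine ⟨VV s, LG s, LA s, ⟨lf, infinite s, conn_univ s, mr s, ?_, ?_, e1 s⟩⟩
  · intro F hF
    obtain ⟨m, ⟨h1, h2⟩, h3⟩ := (((ev_emb hF).and (ev_lab hF)).and (ev_ge F.ncard)).exists
    have h4 := s.o1 m ((fun q => rep q m) '' F) (by rw [h1.ncard]; exact h3)
    unfold gn incL at h4 ⊢
    rwa [h1.inc2, h1.ncard, labc_image (h1.inj.mono subset_union_left) h2] at h4
  · intro J hJ hJc
    obtain ⟨m, ⟨h1, h2⟩, h3⟩ := (((ev_emb hJ).and (ev_lab hJ)).and (ev_ge J.ncard)).exists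
    have h4 := s.o2 m ((fun q => rep q m) '' J) (by rw [h1.ncard]; exact h3)
      (hJc.image _ fun a ha b hb hab => (h1.adj a (Or.inl ha) b (Or.inl hb)).1 hab)
    unfold incL at h4 ⊢
    rwa [h1.inc2, h1.ncard, h1.ncard_nb, labs_image h2,
      labc_image (h1.inj.mono subset_union_left) h2] at h4

end Pool.Agent.Work.MP_216d61_lc
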