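import Pool.Agent.Work.MP_216d61_lc_full.CDG

/-!
# Block CRS: a cross in the nest around a torso vertex (helper60)
-/

set_option autoImplicit false

namespace Pool.Agent.Work.MP_216d61_lc

open Relation Set

namespace CrsAux

section gen

variable {V : Type} {G K : SimpleGraph V}

/-- the graph `G` in which the attachments of each flap of `J` are made adjacent -/
def Fill (G : SimpleGraph V) (J : Set (Set V)) : SimpleGraph V where
  Adj x y := x ≠ y ∧ (G.Adj x y ∨ ∃ F ∈ J, x ∈ nb G F ∧ y ∈ nb G F)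
  symm := ⟨by
    rintro x y ⟨h1, h2 | ⟨F, hF, hx, hy⟩⟩
    · exact ⟨h1.symm, Or.inl h2.symm⟩
    · exact ⟨h1.symm, Or.inr ⟨F, hF, hy, hx⟩⟩⟩
  loopless := ⟨fun _ h => h.1 rfl⟩

theorem le_fill (J : Set (Set V)) : G ≤ Fill G J := fun _ _ h => ⟨G.ne_of_adj h, Or.inl h⟩

theorem lnk_sub {VG S : Set V} (hS : S ⊆ VG) {x y : V} (h : Lnk K S x y) (hx : x ∈ VG)
    (hy : y ∈ VG) : Lnk (K.induce VG) {z | (z : V) ∈ S} ⟨x, hx⟩ ⟨y, hy⟩ := by
  obtain ⟨h1, h2⟩ := h
  have key : ∀ z, ReflTransGen (fun a b => K.Adj a b ∧ a ∈ S ∧ b ∈ S) x z →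
      ∀ hz : z ∈ VG, Lnk (K.induce VG) {z | (z : V) ∈ S} ⟨x, hx⟩ ⟨z, hz⟩ := by
    intro z hz
    induction hz with
    | refl => intro hz; exact MenAux.lnk_refl h1
    | tail _ h ih =>
      intro hz
      exact MenAux.lnk_step (ih (hS h.2.1)) h.1 h.2.2
  exact key y h2 hy

/-- the first step of a link -/
theorem lnk_leave {S : Set V} {v t : V} (h : Lnk K S v t) (hne : v ≠ t) :
    ∃ w, K.Adj v w ∧ Lnk K (S \ {v}) w t := by
  obtain ⟨h1, h2⟩ := h
  have key : ∀ z, ReflTransGen (fun a b => K.Adj a b ∧ a ∈ S ∧ b ∈ S) v z → v ≠ z →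
      ∃ w, K.Adj v w ∧ Lnk K (S \ {v}) w z := by
    intro z hz
    induction hz with
    | refl => intro h; exact absurd rfl h
    | @tail b c _ h ih =>
      intro hc
      by_cases hvb : v = b
      · subst hvb
        exact ⟨c, h.1, MenAux.lnk_refl ⟨h.2.2, fun h' => hc (by rw [show c = v from h'])⟩⟩
      · obtain ⟨w, hw1, hw2⟩ := ih hvb
        exact ⟨w, hw1, MenAux.lnk_step hw2 h.1
          ⟨h.2.2, fun h' => hc (by rw [show c = v from h'])⟩⟩
  exact key t h2 hne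

/-- a connected set of the filled graph becomes connected when the flaps are added -/
theorem conn_fill {J J' : Set (Set V)} {H : Set V} (hc : ∀ F ∈ J, Conn G F)
    (hH : Conn (Fill G J) H) (h1 : J' ⊆ J) (h2 : ∀ F ∈ J', (nb G F ∩ H).Nonempty)
    (h3 : ∀ F ∈ J, ∀ x ∈ H, ∀ y ∈ H, x ≠ y → x ∈ nb G F → y ∈ nb G F → F ∈ J') :
    Conn G (H ∪ ⋃₀ J') := by
  obtain ⟨x0, hx0⟩ := hH.nonempty
  have hsub : ∀ F ∈ J', F ⊆ H ∪ ⋃₀ J' := fun F hF z hz => Or.inr ⟨F, hF, hz⟩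
  have key : ∀ z, ReflTransGen (fun a b => (Fill G J).Adj a b ∧ a ∈ H ∧ b ∈ H) x0 z →
      ReflTransGen (fun a b => G.Adj a b ∧ a ∈ H ∪ ⋃₀ J' ∧ b ∈ H ∪ ⋃₀ J') z x0 := by
    intro z hz
    induction hz with
    | refl => exact ReflTransGen.refl
    | @tail b c _ h ih =>
      obtain ⟨⟨hne, hbc⟩, hb, hc'⟩ := h
      rcases hbc with hbc | ⟨F, hF, hbF, hcF⟩
      · exact ReflTransGen.head ⟨hbc.symm, Or.inl hc', Or.inl hb⟩ ih
      · have hFJ := h3 F hF b hb c hc' hne hbF hcF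
        obtain ⟨_, u, hu, hub⟩ := hbF
        obtain ⟨_, u', hu', huc⟩ := hcF
        refine ReflTransGen.head ⟨huc.symm, Or.inl hc', hsub F hFJ hu'⟩ ?_
        refine (link_mono (hsub F hFJ) ((hc F hF).2 u' hu' u hu)).trans ?_
        exact ReflTransGen.head ⟨hub, hsub F hFJ hu, Or.inl hb⟩ ih
  refine conn_of_center (x0 := x0) (Or.inl hx0) ?_
  rintro y (hy | ⟨F, hF, hy⟩)
  · exact key y (hH.2 x0 hx0 y hy)
  · obtain ⟨w, ⟨_, u, hu, huw⟩, hwH⟩ := h2 F hF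
    refine (link_mono (hsub F hF) ((hc F (h1 hF)).2 y hy u hu)).trans ?_
    exact ReflTransGen.head ⟨huw, hsub F hF hu, Or.inl hwH⟩ (key w (hH.2 x0 hx0 w hwH))

/-- one of four disjoint sets avoids three vertices -/
theorem avoid (D : Fin 4 → Set V) (hD : ∀ i j, i ≠ j → Disjoint (D i) (D j)) {Z : Set V}
    (hZ : Z.Finite) (h : Z.ncard ≤ 3) : ∃ i, Disjoint (D i) Z := by
  by_contra hcon
  push Not at hcon
  have h1 : ∀ i, ∃ x, x ∈ D i ∧ x ∈ Z := by
    intro i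
    obtain ⟨x, hx⟩ := not_disjoint_iff_nonempty_inter.1 (hcon i)
    exact ⟨x, hx.1, hx.2⟩
  choose f hf1 hf2 using h1
  have hinj : Function.Injective f := by
    intro i j hij
    by_contra hne
    exact disjoint_left.1 (hD i j hne) (hf1 i) (by rw [hij]; exact hf1 j)
  have h2 : (f '' univ).ncard = 4 := by
    rw [ncard_image_of_injective _ hinj, ncard_univ, Nat.card_fin]
  have h3 : (f '' univ).ncard ≤ Z.ncard := by
    refine ncard_le_ncard ?_ hZ
    rintro _ ⟨i, _, rfl⟩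
    exact hf2 i
  omega

end gen

end CrsAux

open FlpAux CdgAux CrsAux in
theorem stmt_CRS (hGC : Stmt_GC) (hFLP : Stmt_FLP) (hCDG : Stmt_CDG) : Stmt_CRS := by
  intro ρ V G r A hS R l g hR v C Kc P θ hTv hDv hC1 hK1 hCK hKn hKs hP1 hP2 hθP hθC hPK hPC
    hP0 hv0 hN0 hF0 hF0'
  obtain ⟨f1, f2, f3⟩ := hFLP ρ V G r A hS
  obtain ⟨sep, tor⟩ := f3 R l g hR
  have hlf := hS.lf
  -- monotonicity of the insides
  have hKmono : ∀ i j, i ≤ j → j ≤ 4 → Kc i ⊆ Kc j := by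
    intro i j hij
    induction hij with
    | refl => intro _; exact Subset.rfl
    | step _ ih => intro hj; exact (ih (by omega)).trans (subset_union_right.trans (hKs _ (by omega)))
  have hCK4 : ∀ j < 4, C j ⊆ Kc 4 := fun j hj =>
    (subset_union_left.trans (hKs j hj)).trans (hKmono _ _ (by omega) le_rfl)
  have hCK0 : ∀ j ≤ 4, Disjoint (C j) (Kc 0) := fun j hj =>
    (hCK j hj).mono_right (hKmono 0 j (Nat.zero_le j) hj)
  have hCd : ∀ i j : Fin 4, i ≠ j → Disjoint (C i) (C j) := by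
    have h1 : ∀ i j : Fin 4, (i : ℕ) < j → Disjoint (C i) (C j) := by
      intro i j hij
      refine ((hCK j (by omega)).symm).mono_left ?_
      exact (subset_union_left.trans (hKs i (by omega))).trans (hKmono _ _ (by omega) (by omega))
    intro i j hij
    rcases lt_or_gt_of_ne (fun h => hij (Fin.ext h) : (i : ℕ) ≠ j) with h | h
    · exact h1 i j h
    · exact (h1 j i h).symm
  -- `v` and its torso neighbours
  set N : Set V := {z | z = v ∨ TAdj G v z} with hN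
  have hNT : ∀ z ∈ N, Tor G z := by
    rintro z (rfl | h)
    · exact hTv
    · exact h.2.1
  have hND : ∀ z ∈ N, Dp G R 3 z := by
    rintro z (rfl | ⟨_, _, _, h | ⟨F, hF, hv, hz⟩⟩)
    · exact hDv.1
    · exact hDv.2.1 z h
    · exact hDv.2.2 F hF.1 (Or.inr hv) z (Or.inr hz)
  have hNK : N ⊆ Kc 0 := by
    rintro z (rfl | h)
    · exact hv0
    · exact hN0 z h
  -- the flaps
  set J : Set (Set V) := {F | Flap G F ∧ ∃ x y, x ≠ y ∧ x ∈ nb G F ∧ y ∈ nb G F ∧ x ∈ N ∧ y ∈ N}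
    with hJ
  have hJD : ∀ F ∈ J, ∀ y ∈ F ∪ nb G F, Dp G R 2 y := by
    rintro F ⟨hF, x, y, _, hx, _, hxN, _⟩ z hz
    exact (hND x hxN).2.2 F hF.1 (Or.inr hx) z hz
  have hJR : ∀ F ∈ J, F ∪ nb G F ⊆ R := fun F hF z hz => Dp.mem (hJD F hF z hz)
  have hJK : ∀ F ∈ J, F ∪ nb G F ⊆ Kc 0 := by
    rintro F ⟨hF, x, y, _, hx, _, hxN, _⟩
    rcases hxN with rfl | h
    · exact hF0' F hF hx
    · exact hF0 F x hF h hx
  have hJT : ∀ F ∈ J, ∀ y ∈ nb G F, Tor G y := fun F hF y hy =>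
    tor F y hF.1 (hJR F hF) hy (hJD F hF y (Or.inr hy)).1
  have hJd : ∀ F ∈ J, ∀ F' ∈ J, F ≠ F' → Disjoint F F' := fun F hF F' hF' hne =>
    (sep F F' hF.1 hF'.1 (hJR F hF) (hJR F' hF') hne).1
  have hTJ : ∀ y, Tor G y → y ∉ ⋃₀ J := by
    rintro y hy ⟨F, hF, hyF⟩
    exact hy F hF.1.1 hyF
  have hUK : ⋃₀ J ⊆ Kc 0 := by
    rintro y ⟨F, hF, hyF⟩
    exact hJK F hF (Or.inl hyF)
  -- the vertex set of the filled graph
  set W : Set V := (Kc 4 ∪ range θ) \ ⋃₀ J with hW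
  have hWf : W.Finite := ((hK1 4 le_rfl).union (finite_range θ)).sdiff
  have hCW : ∀ j < 4, C j ⊆ W := fun j hj x hx =>
    ⟨Or.inl (hCK4 j hj hx), fun h => disjoint_left.1 (hCK0 j (by omega)) hx (hUK h)⟩
  have hPW : ∀ t, P t ⊆ W := by
    intro t x hx
    refine ⟨?_, fun h => disjoint_left.1 (hP0 t) hx (hUK h)⟩
    rcases hPK t hx with h | h
    · exact Or.inl h
    · exact Or.inr ⟨t, (show x = θ t from h).symm⟩
  have hNW : N ⊆ W := fun z hz =>
    ⟨Or.inl (hKmono 0 4 (by omega) le_rfl (hNK hz)), hTJ z (hNT z hz)⟩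
  have hθN : ∀ t, θ t ∉ N := fun t ht => disjoint_left.1 (hCK0 4 le_rfl) (hθC t) (hNK ht)
  set K : SimpleGraph V := Fill G J with hK
  have hGK : G ≤ K := le_fill J
  -- adjacency of two elements of `N`
  have hadjN : ∀ x ∈ N, ∀ y ∈ N, TAdj G x y → K.Adj x y := by
    rintro x hx y hy ⟨_, _, hne, h | ⟨F, hF, hxF, hyF⟩⟩
    · exact ⟨hne, Or.inl h⟩
    · exact ⟨hne, Or.inr ⟨F, ⟨hF, x, y, hne, hxF, hyF, hx, hy⟩, hxF, hyF⟩⟩
  have hvN : v ∈ N := Or.inl rfl
  have hadjv : ∀ h ∈ W, K.Adj v h → TAdj G v h := by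
    rintro h hh ⟨hne, hvh | ⟨F, hF, hvF, hhF⟩⟩
    · refine ⟨hTv, ?_, hne, Or.inl hvh⟩
      intro F1 hF1 hh1
      obtain ⟨F, hF, hsub⟩ := f1 F1 hF1
      have hvF : v ∈ nb G F := ⟨hTv F hF.1, h, hsub hh1, hvh.symm⟩
      have hFD : ∀ y ∈ F ∪ nb G F, Dp G R 3 y := fun y hy => hDv.2.2 F hF.1 (Or.inr hvF) y hy
      have hFR : F ∪ nb G F ⊆ R := fun y hy => Dp.mem (hFD y hy)
      have h3 := hR.three F hF.1.1 ⟨h, hsub hh1⟩ hFR
      obtain ⟨w, hw, hwv⟩ : ∃ w ∈ nb G F, w ≠ v := by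
        by_contra hcon
        push Not at hcon
        have h4 : nb G F ⊆ {v} := fun w hw => hcon w hw
        have h5 := ncard_le_ncard h4 (finite_singleton v)
        rw [ncard_singleton] at h5
        omega
      have hTw : Tor G w := tor F w hF hFR hw (hFD w (Or.inr hw)).1.1
      have hwN : w ∈ N := Or.inr ⟨hTv, hTw, hwv.symm, Or.inr ⟨F, hF, hvF, hw⟩⟩
      exact hh.2 ⟨F, ⟨hF, v, w, hwv.symm, hvF, hw, hvN, hwN⟩, hsub hh1⟩
    · exact ⟨hTv, hJT F hF h hhF, hne, Or.inr ⟨F, hF.1, hvF, hhF⟩⟩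
  -- (FREE)
  have free : ∀ h ∈ N, ∀ Z : Set V, Z.Finite → Z.ncard ≤ 3 → h ∉ Z →
      ∃ t, Lnk K (W \ Z) h (θ t) := by
    intro h hhN Z hZf hZ hhZ
    by_contra hno
    push Not at hno
    obtain ⟨j, hj⟩ := avoid (fun i : Fin 4 => C i) hCd hZf hZ
    obtain ⟨t, ht⟩ := avoid P hP2 hZf hZ
    have hj' : Disjoint (C (j : ℕ)) Z := hj
    have hj4 : (j : ℕ) < 4 := j.2
    set H : Set V := {y | Lnk K (W \ Z) h y} with hH
    have hHC : ∀ y ∈ H, y ∉ C j := by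
      intro y hy hyC
      obtain ⟨p, hpP, hpC⟩ := hPC t j hj4
      have h1 : Lnk K (W \ Z) y p := MenAux.lnk_mono
        (fun x hx => ⟨hCW j hj4 hx, fun hz => disjoint_left.1 hj' hx hz⟩)
        (MenAux.conn_lnk (MenAux.conn_mono_graph hGK (hC1 j (by omega))) hyC hpC)
      have h2 : Lnk K (W \ Z) p (θ t) := MenAux.lnk_mono
        (fun x hx => ⟨hPW t hx, fun hz => disjoint_left.1 ht hx hz⟩)
        (MenAux.conn_lnk (MenAux.conn_mono_graph hGK (hP1 t)) hpP (hθP t))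
      exact hno t (MenAux.lnk_trans hy (MenAux.lnk_trans h1 h2))
    have hhW : h ∈ W \ Z := ⟨hNW hhN, hhZ⟩
    have hHK : H ⊆ Kc j := by
      intro y hy
      have h1 := MenAux.lnk_closed (A := {y | y ∈ H ∧ y ∈ Kc j}) hy
        ⟨MenAux.lnk_refl hhW, hKmono 0 j (Nat.zero_le _) (by omega) (hNK hhN)⟩ ?_
      · exact (MenAux.lnk_right h1).2.2
      · rintro a ⟨haH, haK⟩ haW b hab hbW
        have hbH : b ∈ H := MenAux.lnk_step haH hab hbW
        refine ⟨hbH, ?_⟩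
        rcases hab.2 with h2 | ⟨F, hF, _, hbF⟩
        · by_contra hbK
          exact hHC b hbH (hKn j (by omega) ⟨hbK, a, haK, h2⟩)
        · exact hKmono 0 j (Nat.zero_le _) (by omega) (hJK F hF (Or.inr hbF))
    set J' : Set (Set V) := {F | F ∈ J ∧ (nb G F ∩ H).Nonempty} with hJ'
    have hconn : Conn G (H ∪ ⋃₀ J') := by
      refine conn_fill (J := J) (fun F hF => hF.1.1.2.1) (MenAux.conn_cmp hhW)
        (fun F hF => hF.1) (fun F hF => hF.2) ?_
      intro F hF x hx y _ _ hxF _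
      exact ⟨hF, x, hxF, hx⟩
    have hfin : (H ∪ ⋃₀ J').Finite := by
      refine ((hK1 j (by omega)).union (hK1 0 (by omega))).subset (union_subset_union hHK ?_)
      rintro y ⟨F, hF, hyF⟩
      exact hUK ⟨F, hF.1, hyF⟩
    have hnb : nb G (H ∪ ⋃₀ J') ⊆ Z := by
      rintro y ⟨hy, x, hx, hxy⟩
      by_contra hyZ
      have hxH : ∀ x ∈ H, K.Adj x y → y ∈ W → False := by
        intro x hx hxy hyW
        exact hy (Or.inl (MenAux.lnk_step hx hxy ⟨hyW, hyZ⟩))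
      rcases hx with hx | ⟨F, hF, hxF⟩
      · have hxW : x ∈ W := (MenAux.lnk_right hx).1
        have hyK : y ∈ Kc 4 := by
          by_cases hyj : y ∈ Kc j
          · exact hKmono j 4 (by omega) le_rfl hyj
          · exact hCK4 j hj4 (hKn j (by omega) ⟨hyj, x, hHK hx, hxy⟩)
        by_cases hyJ : y ∈ ⋃₀ J
        · obtain ⟨F, hF, hyF⟩ := hyJ
          refine hy (Or.inr ⟨F, ⟨hF, x, ⟨fun h => hxW.2 ⟨F, hF, h⟩, y, hyF, hxy.symm⟩, hx⟩, hyF⟩)
        · exact hxH x hx (hGK hxy) ⟨Or.inl hyK, hyJ⟩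
      · obtain ⟨w, hwF, hwH⟩ := hF.2
        have hyF : y ∉ F := fun h => hy (Or.inr ⟨F, hF, h⟩)
        have hyn : y ∈ nb G F := ⟨hyF, x, hxF, hxy⟩
        have hyW : y ∈ W := ⟨Or.inl (hKmono 0 4 (by omega) le_rfl (hJK F hF.1 (Or.inr hyn))),
          hTJ y (hJT F hF.1 y hyn)⟩
        by_cases hwy : w = y
        · exact hy (Or.inl (by rw [← hwy]; exact hwH))
        · exact hxH w hwH ⟨hwy, Or.inr ⟨F, hF.1, hwF, hyn⟩⟩ hyW
    have hsmall : Small G (H ∪ ⋃₀ J') := ⟨hfin, hconn, (ncard_le_ncard hnb hZf).trans hZ⟩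
    exact hNT h hhN _ hsmall (Or.inl (MenAux.lnk_refl hhW))
  -- the crossing lemma
  have hθW : ∀ t, θ t ∈ W := fun t => hPW t (hθP t)
  have hvW : v ∈ W := hNW hvN
  have hθinj : ∀ t t', θ t = θ t' → t = t' := by
    intro t t' h
    by_contra hne
    exact disjoint_left.1 (hP2 t t' hne) (hθP t) (by rw [h]; exact hθP t')
  have : Finite W := hWf
  have hZim : ∀ Z : Set W, (Subtype.val '' Z : Set V).ncard = Z.ncard := fun Z =>
    ncard_image_of_injective _ Subtype.val_injective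
  have hNadj : ∀ z ∈ N, z ≠ v → TAdj G v z := by
    rintro z (h | h) hne
    · exact absurd h hne
    · exact h
  obtain ⟨A1, B1, hA1, hB1, hAB, h0A, h2A, h1B, h3B⟩ := hGC W (K.induce W) ⟨v, hvW⟩
    (fun t => ⟨θ t, hθW t⟩) (fun t t' h => hθinj t t' (congrArg Subtype.val h))
    (fun t h => hθN t (by rw [show θ t = v from congrArg Subtype.val h]; exact hvN))
    (by
      rintro ⟨h, hhW⟩ hadj _
      have hT := hadjv h hhW hadj
      obtain ⟨hfin, h3⟩ := hCDG ρ V G r A hS R l g hR v h hT hDv.1.1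
      refine h3.trans ?_
      have h4 : {z | TAdj G v z ∧ TAdj G h z} ⊆ Subtype.val '' {y : W | (K.induce W).Adj ⟨v, hvW⟩ y ∧
          (K.induce W).Adj ⟨h, hhW⟩ y} := by
        rintro z ⟨hz1, hz2⟩
        have hzN : z ∈ N := Or.inr hz1
        exact ⟨⟨z, hNW hzN⟩, ⟨hadjN v hvN z hzN hz1, hadjN h (Or.inr hT) z hzN hz2⟩, rfl⟩
      rw [← hZim]
      exact ncard_le_ncard h4 ((toFinite _).image _))
    (by
      rintro ⟨h, hhW⟩ hadj _ Z hZ hvZ hhZ
      have hT := hadjv h hhW hadj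
      have h1 : (insert v (Subtype.val '' Z) : Set V).ncard ≤ 3 := by
        have h2 := ncard_insert_le v (Subtype.val '' Z : Set V)
        rw [hZim] at h2
        omega
      have h2 : h ∉ (insert v (Subtype.val '' Z) : Set V) := by
        rintro (h3 | ⟨z, hz, h3⟩)
        · exact hT.2.2.1 h3.symm
        · exact hhZ (by rw [show (⟨h, hhW⟩ : W) = z from Subtype.ext h3.symm]; exact hz)
      obtain ⟨t, ht⟩ := free h (Or.inr hT) _ (((toFinite Z).image _).insert v) h1 h2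
      refine ⟨t, MenAux.lnk_mono ?_ (lnk_sub sdiff_subset ht hhW (hθW t))⟩
      rintro ⟨z, hz⟩ ⟨_, hz2⟩
      rintro (h3 | h3)
      · exact hz2 (Or.inl (congrArg Subtype.val h3))
      · exact hz2 (Or.inr ⟨⟨z, hz⟩, h3, rfl⟩))
    (by
      intro Z hZ hvZ
      have h2 : v ∉ (Subtype.val '' Z : Set V) := by
        rintro ⟨z, hz, h3⟩
        exact hvZ (by rw [show (⟨v, hvW⟩ : W) = z from Subtype.ext h3.symm]; exact hz)
      obtain ⟨t, ht⟩ := free v hvN _ ((toFinite Z).image _) (by rw [hZim]; exact hZ) h2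
      obtain ⟨w, hw1, hw2⟩ := lnk_leave ht (fun h => hθN t (by rw [← h]; exact hvN))
      have hwW : w ∈ W := hw2.1.1.1
      refine ⟨⟨w, hwW⟩, hw1, t, MenAux.lnk_mono ?_
        (lnk_sub (sdiff_subset.trans sdiff_subset) hw2 hwW (hθW t))⟩
      rintro ⟨z, hz⟩ ⟨⟨_, hz2⟩, hz3⟩
      rintro (h3 | h3)
      · exact hz3 (congrArg Subtype.val h3)
      · exact hz2 ⟨⟨z, hz⟩, h3, rfl⟩)
    (by
      obtain ⟨t, ht⟩ := free v hvN ∅ finite_empty (by rw [ncard_empty]; omega) (notMem_empty v)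
      obtain ⟨w, hw1, hw2⟩ := lnk_leave ht (fun h => hθN t (by rw [← h]; exact hvN))
      have hwW : w ∈ W := hw2.1.1.1
      refine ⟨⟨w, hwW⟩, hw1, fun i h => ?_⟩
      have h3 : w = θ i := congrArg Subtype.val h
      exact hθN i (by rw [← h3]; exact Or.inr (hadjv w hwW hw1)))
  -- the two sets in `G`
  have hnbf : ∀ F ∈ J, (nb G F).Finite := fun F hF => nb_fin hlf hF.1.1.1
  have main : ∀ A1 : Set W, Conn (K.induce W) A1 →
      Conn G ((Subtype.val '' A1 : Set V) ∪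
        ⋃₀ {F | F ∈ J ∧ 2 ≤ (nb G F ∩ (Subtype.val '' A1 : Set V)).ncard}) := by
    intro A1 hA1
    refine conn_fill (J := J) (fun F hF => hF.1.1.2.1) (hA1.image Subtype.val
      fun a _ b _ hab => hab) (fun F hF => hF.1) ?_ ?_
    · intro F hF
      rw [nonempty_iff_ne_empty]
      intro h
      have h2 := hF.2
      rw [h, ncard_empty] at h2
      omega
    · intro F hF x hx y hy hne hxF hyF
      refine ⟨hF, ?_⟩
      have h1 : ({x, y} : Set V) ⊆ nb G F ∩ (Subtype.val '' A1 : Set V) := by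
        rintro z (h | h)
        · rw [show z = x from h]; exact ⟨hxF, hx⟩
        · rw [show z = y from h]; exact ⟨hyF, hy⟩
      have h2 := ncard_le_ncard h1 ((hnbf F hF).inter_of_left _)
      rw [ncard_pair hne] at h2
      exact h2
  have mainK : ∀ A1 : Set W, ((Subtype.val '' A1 : Set V) ∪
        ⋃₀ {F | F ∈ J ∧ 2 ≤ (nb G F ∩ (Subtype.val '' A1 : Set V)).ncard}) ⊆
          Kc 4 ∪ range θ := by
    rintro A1 z (⟨⟨w, hw⟩, _, rfl⟩ | ⟨F, hF, hz⟩)
    · exact hw.1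
    · exact Or.inl (hKmono 0 4 (by omega) le_rfl (hJK F hF.1 (Or.inl hz)))
  refine ⟨_, _, main A1 hA1, main B1 hB1, ?_, Or.inl ⟨_, h0A, rfl⟩, Or.inl ⟨_, h2A, rfl⟩,
    Or.inl ⟨_, h1B, rfl⟩, Or.inl ⟨_, h3B, rfl⟩, mainK A1, mainK B1⟩
  rw [Set.disjoint_left]
  rintro z (⟨a, ha, haz⟩ | ⟨F, hF, hzF⟩) (⟨b, hb, hbz⟩ | ⟨F', hF', hzF'⟩)
  · have hab : a = b := Subtype.ext (haz.trans hbz.symm)
    rw [← hab] at hb
    exact disjoint_left.1 hAB ha hb
  · exact a.2.2 ⟨F', hF'.1, by rw [haz]; exact hzF'⟩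
  · exact b.2.2 ⟨F, hF.1, by rw [hbz]; exact hzF⟩
  · by_cases hFF : F = F'
    · subst hFF
      have h1 : Disjoint (nb G F ∩ (Subtype.val '' A1 : Set V)) (nb G F ∩ (Subtype.val '' B1 : Set V)) := by
        rw [Set.disjoint_left]
        rintro y ⟨_, a, ha, hay⟩ ⟨_, b, hb, hby⟩
        have hab : a = b := Subtype.ext (hay.trans hby.symm)
        rw [← hab] at hb
        exact disjoint_left.1 hAB ha hb
      have hf := hnbf F hF.1
      have h2 := ncard_union_eq h1 (hf.inter_of_left _) (hf.inter_of_left _)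
      have h3 := ncard_le_ncard (union_subset (inter_subset_left (s := nb G F)
        (t := (Subtype.val '' A1 : Set V))) (inter_subset_left (s := nb G F)
        (t := (Subtype.val '' B1 : Set V)))) hf
      have h4 := hF.1.1.1.2.2
      have h5 := hF.2
      have h6 := hF'.2
      omega
    · exact disjoint_left.1 (hJd F hF.1 F' hF'.1 hFF) hzF hzF'

end Pool.Agent.Work.MP_216d61_lc
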