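import Pool.Agent.Work.MP_216d61_lc_full.InterfaceLIM
import Pool.Agent.Work.MP_216d61_lc_helper52.SD

/-!
# Block EXT: nearly extremal types
-/

set_option autoImplicit false

namespace Pool.Agent.Work.MP_216d61_lc

open Relation Set Filter

namespace ExtAux

section basic

variable {R C R' C' : Type} {ρ : ℝ} {H : SimpleGraph C} {A : R → C → Prop}
  {H' : SimpleGraph C'} {A' : R' → C' → Prop}

theorem GT_of_minor (h : GT ρ H A)
    (hm : ∀ κ : ℕ, Minor (Fan H' A' (Fin κ)) (Fan H A (Fin κ))) : GT ρ H' A' :=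
  fun κ => (h κ).minor (hm κ)

theorem GT_sub (h : GT ρ H A) (φ : C' → C) (ψ : R' → R) (hφ : Function.Injective φ)
    (hψ : Function.Injective ψ) (hH : ∀ c d, H'.Adj c d → H.Adj (φ c) (φ d))
    (hA : ∀ a c, A' a c → A (ψ a) (φ c)) : GT ρ H' A' := by
  refine GT_of_minor h fun κ => minor_of_inj (Sum.map ψ (Prod.map id φ))
    (Function.Injective.sumMap hψ (Function.Injective.prodMap Function.injective_id hφ)) ?_
  rintro (a | p) (b | q) hab
  · exact hab
  · exact hA _ _ hab
  · exact hA _ _ hab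
  · exact ⟨hab.1, hH _ _ hab.2⟩

/-- contraction of the set `J` to a point -/
def conH (H : SimpleGraph C) (J : Set C) : SimpleGraph (Option {x : C // x ∉ J}) where
  Adj p q := match p, q with
    | none, none => False
    | none, some y => ∃ x ∈ J, H.Adj x y
    | some y, none => ∃ x ∈ J, H.Adj x y
    | some x, some y => H.Adj x y
  symm := ⟨by
    rintro (_ | x) (_ | y) h
    · exact h
    · exact h
    · exact h
    · exact h.symm⟩
  loopless := ⟨by
    rintro (_ | x) h
    · exact h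
    · exact H.loopless.irrefl _ h⟩

def conA (A : R → C → Prop) (J : Set C) (a : R) : Option {x : C // x ∉ J} → Prop
  | none => ∃ x ∈ J, A a x
  | some y => A a y

theorem GT_con (h : GT ρ H A) {J : Set C} (hJ : Conn H J) : GT ρ (conH H J) (conA A J) := by
  classical
  refine GT_of_minor h fun κ => Model.minor (f := fun x => match x with
    | .inl a => {Sum.inl a}
    | .inr (i, none) => (fun c => Sum.inr (i, c)) '' J
    | .inr (i, some y) => {Sum.inr (i, (y : C))}) ⟨?_, ?_, ?_⟩
  · rintro (a | ⟨i, _ | x⟩) (b | ⟨j, _ | y⟩) hne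
    · rw [disjoint_singleton]
      intro h'
      exact hne (congrArg Sum.inl (Sum.inl_injective h'))
    · rw [disjoint_left]
      rintro _ rfl ⟨c, _, hc⟩
      exact Sum.inr_ne_inl hc
    · rw [disjoint_singleton]
      exact Sum.inl_ne_inr
    · rw [disjoint_left]
      rintro _ ⟨c, _, rfl⟩ hc
      exact Sum.inr_ne_inl hc
    · rw [disjoint_left]
      rintro _ ⟨c, _, rfl⟩ ⟨d, _, hd⟩
      apply hne
      have h1 : j = i := (Prod.ext_iff.1 (Sum.inr_injective hd)).1
      rw [h1]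
    · rw [disjoint_left]
      rintro _ ⟨c, hcJ, rfl⟩ hd
      have h1 : (i, c) = (j, (y : C)) := Sum.inr_injective (mem_singleton_iff.1 hd)
      have h2 : c = y := (Prod.ext_iff.1 h1).2
      exact y.2 (h2 ▸ hcJ)
    · rw [disjoint_singleton]
      exact Sum.inr_ne_inl
    · rw [disjoint_left]
      rintro _ rfl ⟨d, hdJ, hd⟩
      have h1 : (j, d) = (i, (x : C)) := Sum.inr_injective hd
      have h2 : d = x := (Prod.ext_iff.1 h1).2
      exact x.2 (h2 ▸ hdJ)
    · rw [disjoint_singleton]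
      intro hd
      have h1 : (i, (x : C)) = (j, (y : C)) := Sum.inr_injective hd
      apply hne
      have h2 := (Prod.ext_iff.1 h1).1
      have h3 : x = y := Subtype.ext (Prod.ext_iff.1 h1).2
      simp only at h2
      rw [h2, h3]
  · rintro (a | ⟨i, _ | x⟩)
    · exact conn_singleton _
    · exact hJ.image _ fun a _ b _ hab => ⟨rfl, hab⟩
    · exact conn_singleton _
  · rintro (a | ⟨i, _ | x⟩) (b | ⟨j, _ | y⟩) hab
    · exact hab.elim
    · obtain ⟨x, hx, hax⟩ := (hab : ∃ x ∈ J, A a x)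
      exact ⟨_, rfl, _, ⟨x, hx, rfl⟩, hax⟩
    · exact ⟨_, rfl, _, rfl, hab⟩
    · obtain ⟨x, hx, hax⟩ := (hab : ∃ x ∈ J, A b x)
      exact ⟨_, ⟨x, hx, rfl⟩, _, rfl, hax⟩
    · exact hab.2.elim
    · obtain ⟨hij, x, hx, hxy⟩ := (hab : i = j ∧ ∃ x ∈ J, H.Adj x y)
      exact ⟨_, ⟨x, hx, rfl⟩, _, rfl, hij, hxy⟩
    · exact ⟨_, rfl, _, rfl, hab⟩
    · obtain ⟨hij, y, hy, hxy⟩ := (hab : i = j ∧ ∃ y ∈ J, H.Adj y x)
      exact ⟨_, rfl, _, ⟨y, hy, rfl⟩, hij, hxy.symm⟩
    · exact ⟨_, rfl, _, rfl, hab⟩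

/-! ### counting -/

theorem e2_eq_ncard {V : Type*} [Fintype V] (G : SimpleGraph V) :
    e2 G = {p : V × V | G.Adj p.1 p.2}.ncard := by
  classical
  rw [e2, ncard_eq_toFinset_card']
  congr 1
  ext p
  simp

theorem tau2_eq [Fintype R] [Fintype C] (H : SimpleGraph C) (A : R → C → Prop) :
    tau2 H A = e2 H + 2 * lbn A := by
  classical
  rw [tau2, lbn, ncard_eq_toFinset_card']
  congr 3
  ext p
  simp

theorem e2_sub_add [Fintype C] (H : SimpleGraph C) (J : Set C) [Fintype {x : C // x ∉ J}] :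
    e2 (H.comap (fun x : {x : C // x ∉ J} => (x : C))) + inc2 H J = e2 H := by
  classical
  rw [e2_eq_ncard, e2_eq_ncard, inc2]
  have h1 : {p : C × C | H.Adj p.1 p.2} =
      ((Prod.map Subtype.val Subtype.val) '' {p : {x : C // x ∉ J} × {x : C // x ∉ J} |
        (H.comap (fun x : {x : C // x ∉ J} => (x : C))).Adj p.1 p.2}) ∪
      {p : C × C | H.Adj p.1 p.2 ∧ (p.1 ∈ J ∨ p.2 ∈ J)} := by
    ext ⟨x, y⟩
    constructor
    · intro h
      by_cases hx : x ∈ J
      · exact Or.inr ⟨h, Or.inl hx⟩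
      · by_cases hy : y ∈ J
        · exact Or.inr ⟨h, Or.inr hy⟩
        · exact Or.inl ⟨(⟨x, hx⟩, ⟨y, hy⟩), h, rfl⟩
    · rintro (⟨⟨p, q⟩, h, he⟩ | h)
      · have h2 : ((p : C), (q : C)) = (x, y) := he
        rw [← h2]
        exact h
      · exact h.1
  rw [h1, ncard_union_eq, ncard_image_of_injective]
  · exact Function.Injective.prodMap Subtype.val_injective Subtype.val_injective
  · rw [disjoint_left]
    rintro _ ⟨⟨p, q⟩, h, rfl⟩ ⟨_, h' | h'⟩
    · exact p.2 h'
    · exact q.2 h'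

theorem lbn_sub_add {r : ℕ} [Fintype C] (A : Fin r → C → Prop) (J : Set C) :
    lbn (fun a (c : {x : C // x ∉ J}) => A a c) + labc A J = lbn A := by
  classical
  rw [lbn, lbn, labc]
  have h1 : {p : Fin r × C | A p.1 p.2} =
      ((Prod.map id Subtype.val) '' {p : Fin r × {x : C // x ∉ J} | A p.1 p.2}) ∪
      {p : Fin r × C | p.2 ∈ J ∧ A p.1 p.2} := by
    ext ⟨x, y⟩
    constructor
    · intro h
      by_cases hy : y ∈ J
      · exact Or.inr ⟨hy, h⟩
      · exact Or.inl ⟨(x, ⟨y, hy⟩), h, rfl⟩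
    · rintro (⟨⟨p, q⟩, h, he⟩ | h)
      · have h2 : (p, (q : C)) = (x, y) := he
        rw [← h2]
        exact h
      · exact h.2
  rw [h1, ncard_union_eq, ncard_image_of_injective]
  · exact Function.Injective.prodMap Function.injective_id Subtype.val_injective
  · rw [disjoint_left]
    rintro _ ⟨⟨p, q⟩, h, rfl⟩ ⟨h', _⟩
    exact q.2 h'

theorem e2_con [Fintype C] (H : SimpleGraph C) (J : Set C) [Fintype {x : C // x ∉ J}] :
    e2 (conH H J) = e2 (H.comap (fun x : {x : C // x ∉ J} => (x : C))) + 2 * (nb H J).ncard := by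
  classical
  rw [e2_eq_sum, e2_eq_sum]
  simp only [Fintype.sum_option]
  have h1 : ∀ y : {x : C // x ∉ J}, (conH H J).Adj none (some y) ↔ ∃ x ∈ J, H.Adj x y :=
    fun y => Iff.rfl
  have h2 : ∀ y : {x : C // x ∉ J}, (conH H J).Adj (some y) none ↔ ∃ x ∈ J, H.Adj x y :=
    fun y => Iff.rfl
  have h3 : ∀ x y : {x : C // x ∉ J}, (conH H J).Adj (some x) (some y) ↔ H.Adj x y :=
    fun x y => Iff.rfl
  have h4 : (conH H J).Adj none none ↔ False := Iff.rfl
  simp only [h1, h2, h3, h4, if_false, zero_add, Finset.sum_add_distrib]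
  have h5 : (∑ y : {x : C // x ∉ J}, if ∃ x ∈ J, H.Adj x y then 1 else 0) = (nb H J).ncard := by
    have h6 : nb H J = Subtype.val '' {y : {x : C // x ∉ J} | ∃ x ∈ J, H.Adj x y} := by
      ext y
      constructor
      · rintro ⟨h, h'⟩
        exact ⟨⟨y, h⟩, h', rfl⟩
      · rintro ⟨z, h, rfl⟩
        exact ⟨z.2, h⟩
    rw [h6, ncard_image_of_injective _ Subtype.val_injective, ncard_eq_toFinset_card',
      ← Finset.card_filter]
    congr 1
    ext y
    simp
  rw [h5]
  have h7 : ∀ x y : {x : C // x ∉ J}, (H.comap (fun x : {x : C // x ∉ J} => (x : C))).Adj x y ↔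
    H.Adj x y := fun x y => Iff.rfl
  simp only [h7]
  omega

theorem lbn_con {r : ℕ} [Fintype C] (A : Fin r → C → Prop) (J : Set C) :
    lbn (conA A J) = lbn (fun a (c : {x : C // x ∉ J}) => A a c) + (labs A J).ncard := by
  classical
  rw [lbn, lbn]
  have h1 : {p : Fin r × Option {x : C // x ∉ J} | conA A J p.1 p.2} =
      ((Prod.map id some) '' {p : Fin r × {x : C // x ∉ J} | A p.1 p.2}) ∪
      ((fun a => (a, none)) '' labs A J) := by
    ext ⟨x, y⟩
    constructor
    · intro h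
      rcases y with _ | y
      · exact Or.inr ⟨x, h, rfl⟩
      · exact Or.inl ⟨(x, y), h, rfl⟩
    · rintro (⟨⟨p, q⟩, h, he⟩ | ⟨p, h, he⟩)
      · have h2 : (p, some q) = (x, y) := he
        rw [← h2]
        exact h
      · have h2 : (p, none) = (x, y) := he
        rw [← h2]
        exact h
  rw [h1, ncard_union_eq, ncard_image_of_injective, ncard_image_of_injective]
  · intro a b hab
    exact (Prod.ext_iff.1 hab).1
  · exact Function.Injective.prodMap Function.injective_id (Option.some_injective _)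
  · rw [disjoint_left]
    rintro _ ⟨⟨p, q⟩, h, rfl⟩ ⟨a, _, h'⟩
    have h2 : (a, none) = (p, some q) := h'
    simp at h2

theorem card_sub [Fintype C] (J : Set C) [Fintype {x : C // x ∉ J}] :
    Fintype.card {x : C // x ∉ J} + J.ncard = Fintype.card C := by
  classical
  have h1 : Fintype.card {x : C // x ∉ J} = (Jᶜ).ncard := by
    rw [← Nat.card_eq_fintype_card]
    rfl
  rw [h1, add_comm, ncard_add_ncard_compl, Nat.card_eq_fintype_card]

theorem labc_le {r : ℕ} [Fintype C] (A : Fin r → C → Prop) (J : Set C) :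
    labc A J ≤ r * J.ncard := by
  have h1 : {p : Fin r × C | p.2 ∈ J ∧ A p.1 p.2} ⊆ (univ : Set (Fin r)) ×ˢ J := by
    rintro ⟨a, c⟩ h
    exact ⟨trivial, h.1⟩
  have h2 := ncard_le_ncard h1 (toFinite _)
  rw [ncard_prod, ncard_univ, Nat.card_eq_fintype_card, Fintype.card_fin] at h2
  exact h2

end basic

/-! ### the deficiency -/

section defi

variable {R C : Type} [Fintype R] [Fintype C] {ρ : ℝ} {H : SimpleGraph C} {A : R → C → Prop}

theorem tau2_le_of_GT (h : GT ρ H A) : (tau2 H A : ℝ) ≤ 2 * ρ * Fintype.card C := by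
  by_contra hcon
  push Not at hcon
  set d : ℝ := tau2 H A - 2 * ρ * Fintype.card C with hd
  have hd0 : 0 < d := by rw [hd]; linarith
  obtain ⟨κ, hκ⟩ := exists_nat_gt (2 * ρ * Fintype.card R / d)
  have h1 := (h κ).self
  rw [e2_fan, Nat.card_eq_fintype_card, card_fan, Fintype.card_fin] at h1
  rw [div_lt_iff₀ hd0] at hκ
  push_cast at h1
  have h5 : (κ : ℝ) * d = κ * tau2 H A - 2 * ρ * (κ * Fintype.card C) := by rw [hd]; ring
  linarith

theorem toFin (h : GT ρ H A) : ∃ (H' : SimpleGraph (Fin (Fintype.card C)))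
    (A' : Fin (Fintype.card R) → Fin (Fintype.card C) → Prop), GT ρ H' A' ∧
      tau2 H' A' = tau2 H A ∧ lbn A' = lbn A := by
  set e := Fintype.equivFin C with he
  set f := Fintype.equivFin R with hf
  refine ⟨H.comap e.symm, fun a c => A (f.symm a) (e.symm c), ?_, ?_, ?_⟩
  · exact GT_sub h e.symm f.symm e.symm.injective f.symm.injective (fun _ _ h => h)
      fun _ _ h => h
  · refine le_antisymm (tau2_le_of_inj e.symm f.symm e.symm.injective f.symm.injective
      (fun _ _ h => h) fun _ _ h => h) (tau2_le_of_inj e f e.injective f.injective ?_ ?_)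
    · intro c d hcd
      simpa using hcd
    · intro a c hac
      simpa using hac
  · rw [lbn, lbn]
    have h1 : {p : R × C | A p.1 p.2} = (Prod.map f.symm e.symm) ''
        {p : Fin (Fintype.card R) × Fin (Fintype.card C) | A (f.symm p.1) (e.symm p.2)} := by
      ext ⟨a, c⟩
      constructor
      · intro h
        exact ⟨(f a, e c), by simpa using h, by simp⟩
      · rintro ⟨⟨p, q⟩, h, he⟩
        have h2 : (f.symm p, e.symm q) = (a, c) := he
        rw [← h2]
        exact h
    rw [h1, ncard_image_of_injective]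
    exact Function.Injective.prodMap f.symm.injective e.symm.injective

end defi

theorem lt_of_not_BT {a b r n : ℕ} (hB : ¬ BT ((a : ℝ) / ((b : ℝ) + 1))) {H : SimpleGraph (Fin n)}
    {A : Fin r → Fin n → Prop} (h : GT ((a : ℝ) / ((b : ℝ) + 1)) H A) (hn : 1 ≤ n) :
    1 ≤ ((b : ℝ) + 1) * (2 * ((a : ℝ) / ((b : ℝ) + 1)) * n - tau2 H A) := by
  classical
  have hb : (0 : ℝ) < (b : ℝ) + 1 := by positivity
  have h1 := tau2_le_of_GT h
  rw [Fintype.card_fin] at h1
  have h2 : ((b : ℝ) + 1) * (2 * ((a : ℝ) / ((b : ℝ) + 1)) * n - tau2 H A) =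
      2 * a * n - (b + 1) * tau2 H A := by
    field_simp
  have h3 : (0 : ℝ) ≤ 2 * a * n - (b + 1) * tau2 H A := by
    rw [← h2]
    exact mul_nonneg hb.le (by linarith)
  rw [h2]
  have h4 : (b + 1) * tau2 H A ≤ 2 * a * n := by
    have h5 : ((b : ℝ) + 1) * tau2 H A ≤ 2 * a * n := by linarith
    exact_mod_cast h5
  rcases h4.eq_or_lt with h4 | h4
  · exfalso
    apply hB
    refine stmt_SD a b r n ⟨H, fun _ _ => False, A⟩ ⟨hn, ?_⟩ ?_
    · rw [← h4]
      congr 1
      simp [Chn.ce, tau2]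
    · intro κ
      refine (h κ).minor (minor_of_inj id Function.injective_id ?_)
      rintro (x | p) (y | q) hxy
      · exact hxy
      · exact hxy
      · exact hxy
      · rcases hxy with h' | h' | h'
        · exact h'
        · exact h'.2.elim
        · exact h'.2.elim
  · have h5 : (b + 1) * tau2 H A + 1 ≤ 2 * a * n := h4
    have h6 : ((b : ℝ) + 1) * tau2 H A + 1 ≤ 2 * a * n := by exact_mod_cast h5
    linarith

/-! ### the minimal type -/

/-- the inequality in the choice of the type -/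
def Iq (ρ ω η : ℝ) {R C : Type} [Fintype R] [Fintype C] (H : SimpleGraph C) (A : R → C → Prop) :
    Prop :=
  (2 * η * ω - η ^ 2) * Fintype.card C ≤ 2 * η * lbn A - (2 * ρ * Fintype.card C - tau2 H A)

theorem exists_min {ρ ω η : ℝ} (hη : 0 < η) (h2 : Om2 ρ ω) :
    ∃ (r n : ℕ) (H : SimpleGraph (Fin n)) (A : Fin r → Fin n → Prop), 1 ≤ n ∧ GT ρ H A ∧
      Iq ρ ω η H A ∧ ∀ (R' C' : Type) [Fintype R'] [Fintype C'] (H' : SimpleGraph C')
        (A' : R' → C' → Prop), 1 ≤ Fintype.card C' → GT ρ H' A' → Iq ρ ω η H' A' →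
        r + n ≤ Fintype.card R' + Fintype.card C' := by
  classical
  set P : ℕ → Prop := fun s => ∃ (r n : ℕ) (H : SimpleGraph (Fin n)) (A : Fin r → Fin n → Prop),
    1 ≤ n ∧ GT ρ H A ∧ Iq ρ ω η H A ∧ r + n = s with hP
  have hex : ∃ s, P s := by
    set ε : ℝ := η ^ 2 / (2 * η + 1) with hε
    have hε0 : 0 < ε := by rw [hε]; positivity
    obtain ⟨r, n, H, A, hn, hg, h3, h4⟩ := h2 ε hε0
    refine ⟨r + n, r, n, H, A, hn, hg, ?_, rfl⟩
    rw [Iq, Fintype.card_fin]
    have h5 : ε * (2 * η + 1) = η ^ 2 := by rw [hε]; field_simp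
    have h6 := mul_le_mul_of_nonneg_left h4 (by positivity : (0 : ℝ) ≤ 2 * η)
    nlinarith
  obtain ⟨r, n, H, A, hn, hg, hI, hs⟩ := Nat.find_spec hex
  refine ⟨r, n, H, A, hn, hg, hI, ?_⟩
  intro R' C' _ _ H' A' hC' hg' hI'
  rw [hs]
  refine Nat.find_min' hex ?_
  obtain ⟨H'', A'', hg'', ht, hl⟩ := toFin hg'
  refine ⟨_, _, H'', A'', hC', hg'', ?_, rfl⟩
  rw [Iq, ht, hl, Fintype.card_fin]
  exact hI'

/-- what is proved for the minimal type -/
structure Nr (a b : ℕ) (ω η : ℝ) {r n : ℕ} (H : SimpleGraph (Fin n)) (A : Fin r → Fin n → Prop) :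
    Prop where
  good : GT ((a : ℝ) / ((b : ℝ) + 1)) H A
  conn : Conn H univ
  near : 2 * ((a : ℝ) / ((b : ℝ) + 1)) * n - tau2 H A ≤
    (2 * η * ((a : ℝ) / ((b : ℝ) + 1)) + η ^ 2) * n
  lab : (ω - η / 2) * n ≤ lbn A
  big : 1 ≤ ((b : ℝ) + 1) * (2 * η * ((a : ℝ) / ((b : ℝ) + 1)) + η ^ 2) * n
  r_le : (r : ℝ) ≤ (a : ℝ) / ((b : ℝ) + 1)
  o1 : ∀ N : ℕ, ((b : ℝ) + 1) * (2 * η * ((a : ℝ) / ((b : ℝ) + 1)) + η ^ 2) * N < 1 →
    ∀ F : Set (Fin n), F.ncard ≤ N → 0 ≤ gn ((a : ℝ) / ((b : ℝ) + 1)) H A F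
  o2 : ∀ N : ℕ, ((b : ℝ) + 1) * (2 * η * ((a : ℝ) / ((b : ℝ) + 1)) + η ^ 2) * N < 1 →
    ∀ J : Set (Fin n), J.ncard ≤ N → Conn H J →
    2 * ((nb H J).ncard + (labs A J).ncard : ℝ) + 2 * ((a : ℝ) / ((b : ℝ) + 1)) * (J.ncard - 1) ≤
      incL H A J

theorem int_step {x : ℝ} {z : ℤ} (h : x = z) (hx : x < 0) : x ≤ -1 := by
  rw [h] at hx ⊢
  have h1 : z < 0 := by exact_mod_cast hx
  have h2 : z ≤ -1 := by omega
  exact_mod_cast h2

theorem nb_le {n : ℕ} (H : SimpleGraph (Fin n)) (J : Set (Fin n)) :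
    2 * (nb H J).ncard ≤ inc2 H J := by
  classical
  have h1 : ∀ y : Fin n, ∃ x, y ∈ nb H J → x ∈ J ∧ H.Adj x y := by
    intro y
    by_cases hy : y ∈ nb H J
    · obtain ⟨x, hx, hxy⟩ := hy.2
      exact ⟨x, fun _ => ⟨hx, hxy⟩⟩
    · exact ⟨y, fun h => absurd h hy⟩
  choose g hg using h1
  have h2 : ((fun y => (g y, y)) '' nb H J) ∪ ((fun y => (y, g y)) '' nb H J) ⊆
      {p : Fin n × Fin n | H.Adj p.1 p.2 ∧ (p.1 ∈ J ∨ p.2 ∈ J)} := by
    rintro _ (⟨y, hy, rfl⟩ | ⟨y, hy, rfl⟩)
    · exact ⟨(hg y hy).2, Or.inl (hg y hy).1⟩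
    · exact ⟨(hg y hy).2.symm, Or.inr (hg y hy).1⟩
  have h3 := ncard_le_ncard h2 (toFinite _)
  rw [ncard_union_eq, ncard_image_of_injective, ncard_image_of_injective] at h3
  · rw [inc2]
    omega
  · intro x y hxy
    exact (Prod.ext_iff.1 hxy).1
  · intro x y hxy
    exact (Prod.ext_iff.1 hxy).2
  · rw [disjoint_left]
    rintro _ ⟨y, hy, rfl⟩ ⟨z, hz, h⟩
    have h4 : z = g y := (Prod.ext_iff.1 h).1
    exact hz.1 (h4 ▸ (hg y hy).1)

theorem labs_le {r n : ℕ} (A : Fin r → Fin n → Prop) (J : Set (Fin n)) :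
    (labs A J).ncard ≤ labc A J := by
  have h1 : labs A J = Prod.fst '' {p : Fin r × Fin n | p.2 ∈ J ∧ A p.1 p.2} := by
    ext a
    constructor
    · rintro ⟨x, hx, hax⟩
      exact ⟨(a, x), ⟨hx, hax⟩, rfl⟩
    · rintro ⟨⟨b, x⟩, ⟨hx, hax⟩, rfl⟩
      exact ⟨x, hx, hax⟩
  rw [h1, labc]
  exact ncard_image_le (toFinite _)

theorem exists_Nr {a b : ℕ} {ω η : ℝ} (hη : 0 < η) (hω : 0 ≤ ω)
    (hB : ¬ BT ((a : ℝ) / ((b : ℝ) + 1))) (h2 : Om2 ((a : ℝ) / ((b : ℝ) + 1)) ω) :
    ∃ (r n : ℕ) (H : SimpleGraph (Fin n)) (A : Fin r → Fin n → Prop), Nr a b ω η H A := by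
  classical
  obtain ⟨r, n, H, A, hn, hg, hI, hmin⟩ := exists_min hη h2
  have hdef := lt_of_not_BT hB hg hn
  obtain ⟨ρ, hρ⟩ : ∃ ρ : ℝ, ρ = (a : ℝ) / ((b : ℝ) + 1) := ⟨_, rfl⟩
  have hb : (0 : ℝ) < (b : ℝ) + 1 := by positivity
  have hbρ : ((b : ℝ) + 1) * ρ = a := by rw [hρ]; field_simp
  rw [← hρ] at hB h2 hg hI hmin hdef
  have hρ0 : 0 ≤ ρ := by rw [hρ]; positivity
  have hn0 : (1 : ℝ) ≤ n := by exact_mod_cast hn
  have ht := tau2_le_of_GT hg
  rw [Fintype.card_fin] at ht
  have hte : (tau2 H A : ℝ) = e2 H + 2 * lbn A := by exact_mod_cast tau2_eq H A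
  have hl : (lbn A : ℝ) ≤ ρ * n := by
    have : (0 : ℝ) ≤ e2 H := Nat.cast_nonneg _
    linarith
  have hI' := hI
  rw [Iq, Fintype.card_fin] at hI'
  -- all roots are seen
  have hroot : ∀ x, ∃ c, A x c := by
    by_contra hcon
    push Not at hcon
    obtain ⟨a0, ha0⟩ := hcon
    have hgD : GT ρ H (fun (a : {a : Fin r // a ≠ a0}) c => A a c) :=
      GT_sub hg id (fun a : {a : Fin r // a ≠ a0} => (a : Fin r)) Function.injective_id
        Subtype.val_injective (fun _ _ h => h) (fun _ _ h => h)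
    have h3 := tau2_le_del (H := H) a0 ha0 inferInstance
    have h3' := h3
    rw [tau2_eq, tau2_eq] at h3'
    have h4 : Fintype.card {a : Fin r // a ≠ a0} < r := by
      have := Fintype.card_subtype_lt (p := fun a : Fin r => a ≠ a0) (x := a0) (by simp)
      rwa [Fintype.card_fin] at this
    have h5 := hmin {a : Fin r // a ≠ a0} (Fin n) H (fun a c => A a c)
      (by rw [Fintype.card_fin]; exact hn) hgD (by
        rw [Iq, Fintype.card_fin]
        have h6 : (tau2 H A : ℝ) ≤ tau2 H (fun (a : {a : Fin r // a ≠ a0}) c => A a c) := by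
          exact_mod_cast h3
        have h7 : (lbn A : ℝ) ≤ lbn (fun (a : {a : Fin r // a ≠ a0}) (c : Fin n) => A a c) := by
          have : lbn A ≤ lbn (fun (a : {a : Fin r // a ≠ a0}) (c : Fin n) => A a c) := by omega
          exact_mod_cast this
        have h8 := mul_le_mul_of_nonneg_left h7 (by positivity : (0 : ℝ) ≤ 2 * η)
        linarith)
    rw [Fintype.card_fin] at h5
    omega
  -- connected
  have hconn : Conn H univ := by
    by_contra hnc
    have hsp : ∀ D : Fin n → Prop, (∀ x y, H.Adj x y → (D x ↔ D y)) →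
        (∀ x, D x) ∨ (∀ x, ¬ D x) := by
      intro D hD
      by_contra hcon
      push Not at hcon
      obtain ⟨⟨y, hy⟩, ⟨x, hx⟩⟩ := hcon
      have hgD : GT ρ (H.comap (fun x : {x // D x} => (x : Fin n)))
          (fun a (c : {x // D x}) => A a c) :=
        GT_sub hg (fun x : {x // D x} => (x : Fin n)) id Subtype.val_injective
          Function.injective_id (fun _ _ h => h) (fun _ _ h => h)
      have hgD' : GT ρ (H.comap (fun x : {x // ¬ D x} => (x : Fin n)))
          (fun a (c : {x // ¬ D x}) => A a c) :=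
        GT_sub hg (fun x : {x // ¬ D x} => (x : Fin n)) id Subtype.val_injective
          Function.injective_id (fun _ _ h => h) (fun _ _ h => h)
      have hcc : Fintype.card {x // D x} + Fintype.card {x // ¬ D x} = n := by
        have h3 := Fintype.card_subtype_compl D
        have h4 := Fintype.card_subtype_le D
        rw [Fintype.card_fin] at h3 h4
        have h5 : Fintype.card {x // ¬ D x} = n - Fintype.card {x // D x} := h3
        omega
      have hpos : 1 ≤ Fintype.card {x // D x} := Fintype.card_pos_iff.2 ⟨⟨x, hx⟩⟩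
      have hpos' : 1 ≤ Fintype.card {x // ¬ D x} := Fintype.card_pos_iff.2 ⟨⟨y, hy⟩⟩
      have h3 := tau2_le_split (A := A) D hD inferInstance inferInstance
      have h4 := tau2_le_split (H := (⊥ : SimpleGraph (Fin n))) (A := A) D
        (fun _ _ h => h.elim) inferInstance inferInstance
      rw [tau2_eq, tau2_eq, tau2_eq, e2_eq_zero (fun _ _ h => h), e2_eq_zero (fun _ _ h => h),
        e2_eq_zero (fun _ _ h => h)] at h4
      have n1 : ¬ Iq ρ ω η (H.comap (fun x : {x // D x} => (x : Fin n)))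
          (fun a (c : {x // D x}) => A a c) := by
        intro hIq
        have := hmin _ _ _ _ hpos hgD hIq
        rw [Fintype.card_fin] at this
        omega
      have n2 : ¬ Iq ρ ω η (H.comap (fun x : {x // ¬ D x} => (x : Fin n)))
          (fun a (c : {x // ¬ D x}) => A a c) := by
        intro hIq
        have := hmin _ _ _ _ hpos' hgD' hIq
        rw [Fintype.card_fin] at this
        omega
      rw [Iq] at n1 n2
      push Not at n1 n2
      have h3' : (tau2 H A : ℝ) ≤ tau2 (H.comap (fun x : {x // D x} => (x : Fin n)))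
          (fun a (c : {x // D x}) => A a c) + tau2 (H.comap (fun x : {x // ¬ D x} => (x : Fin n)))
          (fun a (c : {x // ¬ D x}) => A a c) := by exact_mod_cast h3
      have h4' : (lbn A : ℝ) ≤ lbn (fun a (c : {x // D x}) => A a c) +
          lbn (fun a (c : {x // ¬ D x}) => A a c) := by
        have : lbn A ≤ lbn (fun a (c : {x // D x}) => A a c) +
          lbn (fun a (c : {x // ¬ D x}) => A a c) := by omega
        exact_mod_cast this
      have h5 := mul_le_mul_of_nonneg_left h4' (by positivity : (0 : ℝ) ≤ 2 * η)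
      have hcc' : (Fintype.card {x // D x} : ℝ) + Fintype.card {x // ¬ D x} = n := by
        exact_mod_cast hcc
      rw [← hcc'] at hI'
      linarith
    apply hnc
    refine conn_of_center (x0 := ⟨0, hn⟩) trivial ?_
    have h2 := hsp (fun x => ReflTransGen (fun a b => H.Adj a b ∧ a ∈ univ ∧ b ∈ univ) x
      ⟨0, hn⟩) (by
      intro x y hxy
      constructor
      · intro h
        exact ReflTransGen.head ⟨hxy.symm, trivial, trivial⟩ h
      · intro h
        exact ReflTransGen.head ⟨hxy, trivial, trivial⟩ h)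
    rcases h2 with h2 | h2
    · exact fun x _ => h2 x
    · exact absurd ReflTransGen.refl (h2 ⟨0, hn⟩)
  -- few roots
  have hr : (r : ℝ) ≤ ρ := by
    have h3 := tau2_le_of_GT (GT_con hg hconn)
    have h4 : Fintype.card (Option {x : Fin n // x ∉ (univ : Set (Fin n))}) = 1 := by
      rw [Fintype.card_option, Fintype.card_eq_zero_iff.2 ⟨fun x => x.2 trivial⟩]
    rw [h4, tau2_eq, lbn_con] at h3
    have h5 : (labs A univ).ncard = r := by
      have h6 : labs A univ = univ := by
        ext x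
        obtain ⟨c, hc⟩ := hroot x
        exact ⟨fun _ => trivial, fun _ => ⟨c, trivial, hc⟩⟩
      rw [h6, ncard_univ, Nat.card_eq_fintype_card, Fintype.card_fin]
    rw [h5] at h3
    push_cast at h3
    have h6 : (0 : ℝ) ≤ e2 (conH H univ) := Nat.cast_nonneg _
    have h7 : (0 : ℝ) ≤ lbn (fun a (c : {x : Fin n // x ∉ (univ : Set (Fin n))}) => A a c) :=
      Nat.cast_nonneg _
    linarith
  have hμ : -η ^ 2 ≤ 2 * η * ω - η ^ 2 := by
    have : 0 ≤ 2 * η * ω := by positivity
    linarith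
  have hnear : 2 * ρ * n - tau2 H A ≤ (2 * η * ρ + η ^ 2) * n := by
    have h3 := mul_le_mul_of_nonneg_right hμ (by positivity : (0 : ℝ) ≤ n)
    have h4 := mul_le_mul_of_nonneg_left hl (by positivity : (0 : ℝ) ≤ 2 * η)
    linarith
  have hbig : 1 ≤ ((b : ℝ) + 1) * (2 * η * ρ + η ^ 2) * n := by
    have h3 := mul_le_mul_of_nonneg_left hnear hb.le
    linarith
  have hsmall : ∀ N : ℕ, ((b : ℝ) + 1) * (2 * η * ρ + η ^ 2) * N < 1 → N < n := by
    intro N hN
    by_contra hcon
    push Not at hcon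
    have h3 : (n : ℝ) ≤ N := by exact_mod_cast hcon
    have h4 := mul_le_mul_of_nonneg_left h3
      (by positivity : (0 : ℝ) ≤ ((b : ℝ) + 1) * (2 * η * ρ + η ^ 2))
    linarith
  -- the arithmetic of the last two parts
  have key : ∀ (N f l : ℕ) (g : ℝ), ((b : ℝ) + 1) * (2 * η * ρ + η ^ 2) * N < 1 → f ≤ N →
      l ≤ r * N → ((b : ℝ) + 1) * g ≤ -1 →
      -((2 * η * ω - η ^ 2) * f) + 2 * η * l ≤ -g := by
    intro N f l g hN hf hlf hg1
    have hf' : (f : ℝ) ≤ N := by exact_mod_cast hf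
    have h3 : (l : ℝ) ≤ ρ * N := by
      have h4 : (l : ℝ) ≤ r * N := by exact_mod_cast hlf
      have h5 := mul_le_mul_of_nonneg_right hr (Nat.cast_nonneg N : (0 : ℝ) ≤ N)
      linarith
    have h4 := mul_le_mul_of_nonneg_left h3 (by positivity : (0 : ℝ) ≤ 2 * η)
    have h5 := mul_le_mul_of_nonneg_right hμ (Nat.cast_nonneg f : (0 : ℝ) ≤ f)
    have h6 := mul_le_mul_of_nonneg_left hf' (by positivity : (0 : ℝ) ≤ η ^ 2)
    have h7 : -((2 * η * ω - η ^ 2) * f) + 2 * η * l ≤ (2 * η * ρ + η ^ 2) * N := by linarith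
    have h8 : ((b : ℝ) + 1) * ((2 * η * ρ + η ^ 2) * N) ≤ ((b : ℝ) + 1) * (-g) := by linarith
    have h9 := le_of_mul_le_mul_left h8 hb
    linarith
  refine ⟨r, n, H, A, ?_⟩
  constructor
  · rw [← hρ]
    exact hg
  · exact hconn
  · rw [← hρ]
    exact hnear
  · have h3 : (2 * η) * ((ω - η / 2) * n) ≤ 2 * η * lbn A := by
      have h4 : (0 : ℝ) ≤ 2 * ρ * n - tau2 H A := by linarith
      have h5 : (2 * η) * ((ω - η / 2) * n) = (2 * η * ω - η ^ 2) * n := by ring
      rw [h5]
      linarith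
    exact le_of_mul_le_mul_left h3 (by positivity)
  · rw [← hρ]
    exact hbig
  · rw [← hρ]
    exact hr
  · rw [← hρ]
    intro N hN F hF
    by_contra hcon
    push Not at hcon
    have hNn := hsmall N hN
    have hcard := card_sub F
    rw [Fintype.card_fin] at hcard
    have hF0 : 1 ≤ F.ncard := by
      by_contra h0
      have h1 : F.ncard = 0 := by omega
      rw [gn, h1] at hcon
      have : (0 : ℝ) ≤ incL H A F := Nat.cast_nonneg _
      simp at hcon
      linarith
    have hstep : ((b : ℝ) + 1) * gn ρ H A F ≤ -1 := by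
      refine int_step (z := (b + 1) * incL H A F - 2 * a * F.ncard) ?_
        (mul_neg_of_pos_of_neg hb hcon)
      rw [gn]
      push_cast
      linear_combination (-2 * (F.ncard : ℝ)) * hbρ
    have h3 := key N F.ncard (labc A F) _ hN hF
      ((labc_le A F).trans (Nat.mul_le_mul_left _ hF)) hstep
    have hgF : GT ρ (H.comap (fun x : {x : Fin n // x ∉ F} => (x : Fin n)))
        (fun a (c : {x : Fin n // x ∉ F}) => A a c) :=
      GT_sub hg (fun x : {x : Fin n // x ∉ F} => (x : Fin n)) id Subtype.val_injective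
        Function.injective_id (fun _ _ h => h) (fun _ _ h => h)
    have h4 := hmin _ _ _ _ (by omega) hgF (by
      rw [Iq, tau2_eq]
      have e1 := e2_sub_add H F
      have e3 := lbn_sub_add A F
      have e1' : (e2 H : ℝ) = e2 (H.comap (fun x : {x : Fin n // x ∉ F} => (x : Fin n))) +
        inc2 H F := by exact_mod_cast e1.symm
      have e3' : (lbn A : ℝ) = lbn (fun a (c : {x : Fin n // x ∉ F}) => A a c) + labc A F := by
        exact_mod_cast e3.symm
      have e4 : (n : ℝ) = Fintype.card {x : Fin n // x ∉ F} + F.ncard := by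
        exact_mod_cast hcard.symm
      rw [gn, incL] at h3
      rw [hte, e1', e3', e4] at hI'
      push_cast at h3 hI' ⊢
      linarith)
    rw [Fintype.card_fin] at h4
    omega
  · rw [← hρ]
    intro N hN J hJ hJc
    have hJ0 : 1 ≤ J.ncard := (ncard_pos (toFinite J)).2 hJc.1
    have hNn := hsmall N hN
    have hcard := card_sub J
    rw [Fintype.card_fin] at hcard
    rcases hJ0.eq_or_lt with hJ1 | hJ1
    · have h3 := nb_le H J
      have h4 := labs_le A J
      rw [← hJ1]
      have h5 : 2 * ((nb H J).ncard + (labs A J).ncard) ≤ incL H A J := by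
        rw [incL]; omega
      have h6 : 2 * (((nb H J).ncard : ℝ) + (labs A J).ncard) ≤ incL H A J := by
        exact_mod_cast h5
      simpa using h6
    · by_contra hcon
      push Not at hcon
      set g : ℝ := incL H A J - (2 * ((nb H J).ncard + (labs A J).ncard : ℝ) +
        2 * ρ * (J.ncard - 1)) with hgdef
      have hg0 : g < 0 := by rw [hgdef]; linarith
      have hstep : ((b : ℝ) + 1) * g ≤ -1 := by
        refine int_step (z := (b + 1) * (incL H A J - 2 * ((nb H J).ncard + (labs A J).ncard)) -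
          2 * a * (J.ncard - 1)) ?_ (mul_neg_of_pos_of_neg hb hg0)
        rw [hgdef]
        push_cast
        linear_combination (-2 * ((J.ncard : ℝ) - 1)) * hbρ
      have h3 := key N (J.ncard - 1) (labc A J) _ hN (by omega)
        ((labc_le A J).trans (Nat.mul_le_mul_left _ hJ)) hstep
      have hcard2 : Fintype.card (Option {x : Fin n // x ∉ J}) + J.ncard = n + 1 := by
        rw [Fintype.card_option]
        omega
      have h4 := hmin _ _ _ _ (by rw [Fintype.card_option]; omega) (GT_con hg hJc) (by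
        rw [Iq, tau2_eq]
        have e1 := e2_sub_add H J
        have e2' := e2_con H J
        have e3 := lbn_sub_add A J
        have e4 := lbn_con A J
        have e1' : (e2 H : ℝ) = e2 (H.comap (fun x : {x : Fin n // x ∉ J} => (x : Fin n))) +
          inc2 H J := by exact_mod_cast e1.symm
        have e2'' : (e2 (conH H J) : ℝ) =
          e2 (H.comap (fun x : {x : Fin n // x ∉ J} => (x : Fin n))) + 2 * (nb H J).ncard := by
          exact_mod_cast e2'
        have e3' : (lbn A : ℝ) = lbn (fun a (c : {x : Fin n // x ∉ J}) => A a c) + labc A J := by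
          exact_mod_cast e3.symm
        have e4' : (lbn (conA A J) : ℝ) = lbn (fun a (c : {x : Fin n // x ∉ J}) => A a c) +
          (labs A J).ncard := by exact_mod_cast e4
        have e5 : (n : ℝ) = Fintype.card (Option {x : Fin n // x ∉ J}) + J.ncard - 1 := by
          have : (Fintype.card (Option {x : Fin n // x ∉ J}) : ℝ) + J.ncard = n + 1 := by
            exact_mod_cast hcard2
          linarith
        have e6 : (((J.ncard - 1 : ℕ)) : ℝ) = J.ncard - 1 := by
          rw [Nat.cast_sub hJ0]; simp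
        have e7 : 0 ≤ 2 * η * ((labs A J).ncard : ℝ) := by positivity
        rw [hgdef, incL, e6] at h3
        rw [hte, e1', e3', e5] at hI'
        push_cast at h3 hI' ⊢
        rw [e2'', e4']
        linarith)
      rw [Fintype.card_fin, Fintype.card_option] at h4
      omega

end ExtAux

open ExtAux in
/-- **Block EXT**. -/
theorem stmt_EXT : Stmt_EXT := by
  classical
  intro a b ω ha hB hω h1 h2
  set ρ : ℝ := (a : ℝ) / ((b : ℝ) + 1) with hρ
  have hb : (0 : ℝ) < (b : ℝ) + 1 := by positivity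
  have hρ0 : 0 ≤ ρ := by rw [hρ]; positivity
  have hρa : ρ ≤ a := by
    rw [hρ, div_le_iff₀ hb]
    have : (0 : ℝ) ≤ (a : ℝ) * b := by positivity
    linarith
  set e : ℕ → ℝ := fun j => 1 / ((j : ℝ) + 1) with he
  have he0 : ∀ j, 0 < e j := fun j => by rw [he]; positivity
  have hex : ∀ j, ∃ (r n : ℕ) (H : SimpleGraph (Fin n)) (A : Fin r → Fin n → Prop),
    Nr a b ω (e j) H A := fun j => exists_Nr (he0 j) hω hB h2
  have hfr : ∃ r : ℕ, ∃ᶠ j in atTop, ∃ (n : ℕ) (H : SimpleGraph (Fin n))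
      (A : Fin r → Fin n → Prop), Nr a b ω (e j) H A := by
    by_contra hcon
    push Not at hcon
    have h3 : ∀ᶠ j in (atTop : Filter ℕ), ∀ r ∈ Finset.range (a + 1),
        ¬ ∃ (n : ℕ) (H : SimpleGraph (Fin n)) (A : Fin r → Fin n → Prop),
          Nr a b ω (e j) H A := by
      rw [Finset.eventually_all]
      intro r _
      filter_upwards [hcon r] with j hj
      rintro ⟨n, H, A, h⟩
      exact hj n H A h
    obtain ⟨j, hj⟩ := h3.exists
    obtain ⟨r, n, H, A, hN⟩ := hex j
    refine hj r (Finset.mem_range.2 ?_) ⟨n, H, A, hN⟩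
    have h4 : (r : ℝ) ≤ a := hN.r_le.trans hρa
    have h5 : r ≤ a := by exact_mod_cast h4
    omega
  obtain ⟨r, hr⟩ := hfr
  obtain ⟨φ, hφ, hφr⟩ := extraction_of_frequently_atTop hr
  choose n H A hN using hφr
  have hlim : Tendsto (fun j => e (φ j)) atTop (nhds 0) :=
    tendsto_one_div_add_atTop_nhds_zero_nat.comp hφ.tendsto_atTop
  have hlim2 : Tendsto (fun j => 2 * e (φ j) * ρ + e (φ j) ^ 2) atTop (nhds 0) := by
    have := ((hlim.const_mul 2).mul_const ρ).add (hlim.pow 2)
    simpa using this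
  have hlim3 : ∀ N : ℕ, ∀ᶠ j in atTop,
      ((b : ℝ) + 1) * (2 * e (φ j) * ρ + e (φ j) ^ 2) * N < 1 := by
    intro N
    have h3 : Tendsto (fun j => ((b : ℝ) + 1) * (2 * e (φ j) * ρ + e (φ j) ^ 2) * N) atTop
        (nhds 0) := by
      have := (hlim2.const_mul ((b : ℝ) + 1)).mul_const (N : ℝ)
      simpa using this
    exact h3.eventually (gt_mem_nhds one_pos)
  refine ⟨r, ⟨⟨n, H, A, fun j => (hN j).good, fun j => (hN j).conn, ?_, ?_, ?_, ?_, ?_⟩⟩⟩
  · intro N
    filter_upwards [hlim3 N] with j hj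
    by_contra hcon
    push Not at hcon
    have h3 : (n j : ℝ) ≤ N := by exact_mod_cast hcon.le
    have h4 := mul_le_mul_of_nonneg_left h3
      (by have := he0 (φ j); positivity :
        (0 : ℝ) ≤ ((b : ℝ) + 1) * (2 * e (φ j) * ρ + e (φ j) ^ 2))
    have h5 := (hN j).big
    linarith
  · intro ε hε
    filter_upwards [hlim2.eventually (gt_mem_nhds hε)] with j hj
    have h4 := mul_le_mul_of_nonneg_right hj.le (Nat.cast_nonneg (n j) : (0 : ℝ) ≤ n j)
    exact (hN j).near.trans h4
  · intro ε hε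
    filter_upwards [hlim.eventually (gt_mem_nhds hε)] with j hj
    refine le_trans ?_ (hN j).lab
    refine mul_le_mul_of_nonneg_right ?_ (Nat.cast_nonneg _)
    have := he0 (φ j)
    linarith
  · intro N
    filter_upwards [hlim3 N] with j hj
    exact (hN j).o1 N hj
  · intro N
    filter_upwards [hlim3 N] with j hj
    exact (hN j).o2 N hj

end Pool.Agent.Work.MP_216d61_lc
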