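import Pool.Agent.Work.MP_216d61_lc_full.Interface

/-!
# Block FAN: many sets attached to the same hubs
-/

set_option autoImplicit false

namespace Pool.Agent.Work.MP_216d61_lc

open Relation Set

namespace FanAux

/-- the ordered adjacent pairs with an end in `F` -/
def prs {V : Type*} (G : SimpleGraph V) (F : Set V) : Set (V × V) :=
  {p : V × V | G.Adj p.1 p.2 ∧ (p.1 ∈ F ∨ p.2 ∈ F)}

theorem inc2_eq {V : Type*} (G : SimpleGraph V) (F : Set V) : inc2 G F = (prs G F).ncard := rfl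

theorem inc2_empty {V : Type*} (G : SimpleGraph V) : inc2 G ∅ = 0 := by
  rw [inc2_eq]
  have : prs G ∅ = ∅ := by
    ext p
    simp [prs]
  rw [this, ncard_empty]

/-- adding a block -/
theorem add_le {W : Type*} [Finite W] (X : SimpleGraph W) (U B : Set W) (S : Set (W × W))
    (hS : ∀ p ∈ S, X.Adj p.1 p.2 ∧ (p.1 ∈ B ∨ p.2 ∈ B) ∧ p.1 ∉ U ∧ p.2 ∉ U) :
    inc2 X U + S.ncard ≤ inc2 X (U ∪ B) := by
  rw [inc2_eq, inc2_eq]
  have h1 : Disjoint (prs X U) S := by
    rw [disjoint_left]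
    intro p hp hp'
    rcases hp.2 with h | h
    · exact (hS p hp').2.2.1 h
    · exact (hS p hp').2.2.2 h
  rw [← ncard_union_eq h1 (toFinite _) (toFinite _)]
  refine ncard_le_ncard ?_ (toFinite _)
  rintro p (hp | hp)
  · exact ⟨hp.1, hp.2.imp (fun h => Or.inl h) (fun h => Or.inl h)⟩
  · exact ⟨(hS p hp).1, (hS p hp).2.1.imp (fun h => Or.inr h) (fun h => Or.inr h)⟩

/-- a copy of `F` with its neighbours and labels -/
theorem emb {V W : Type*} [Finite W] {r : ℕ} (G : SimpleGraph V) (A : Fin r → V → Prop)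
    (X : SimpleGraph W) (F : Set V) (φ : V → W) (lam : Fin r → W) (B : Set W)
    (hinj : Set.InjOn φ (F ∪ nb G F)) (hlam : Function.Injective lam)
    (hdis : ∀ a, ∀ x ∈ F ∪ nb G F, lam a ≠ φ x) (hB : ∀ x ∈ F, φ x ∈ B)
    (hadj : ∀ x ∈ F, ∀ y, G.Adj x y → X.Adj (φ x) (φ y))
    (hlab : ∀ a, ∀ x ∈ F, A a x → X.Adj (lam a) (φ x)) : incL G A F ≤ inc2 X B := by
  have hmem : ∀ p ∈ prs G F, p.1 ∈ F ∪ nb G F ∧ p.2 ∈ F ∪ nb G F := by
    intro p hp
    rcases hp.2 with h | h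
    · refine ⟨Or.inl h, ?_⟩
      by_cases h2 : p.2 ∈ F
      · exact Or.inl h2
      · exact Or.inr ⟨h2, p.1, h, hp.1⟩
    · refine ⟨?_, Or.inl h⟩
      by_cases h2 : p.1 ∈ F
      · exact Or.inl h2
      · exact Or.inr ⟨h2, p.2, h, hp.1.symm⟩
  set SA : Set (Fin r × V) := {p : Fin r × V | p.2 ∈ F ∧ A p.1 p.2} with hSA
  set T1 : Set (W × W) := (fun p : V × V => (φ p.1, φ p.2)) '' prs G F with hT1
  set T2 : Set (W × W) := (fun q : Fin r × V => (lam q.1, φ q.2)) '' SA with hT2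
  set T3 : Set (W × W) := (fun q : Fin r × V => (φ q.2, lam q.1)) '' SA with hT3
  have c1 : T1.ncard = (prs G F).ncard := by
    apply InjOn.ncard_image
    intro p hp q hq hpq
    have h1 := Prod.mk.inj hpq
    exact Prod.ext (hinj (hmem p hp).1 (hmem q hq).1 h1.1) (hinj (hmem p hp).2 (hmem q hq).2 h1.2)
  have c2 : T2.ncard = SA.ncard := by
    apply InjOn.ncard_image
    intro p hp q hq hpq
    have h1 := Prod.mk.inj hpq
    exact Prod.ext (hlam h1.1) (hinj (Or.inl hp.1) (Or.inl hq.1) h1.2)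
  have c3 : T3.ncard = SA.ncard := by
    apply InjOn.ncard_image
    intro p hp q hq hpq
    have h1 := Prod.mk.inj hpq
    exact Prod.ext (hlam h1.2) (hinj (Or.inl hp.1) (Or.inl hq.1) h1.1)
  have d12 : Disjoint T1 T2 := by
    rw [disjoint_left]
    rintro _ ⟨p, hp, rfl⟩ ⟨q, hq, h⟩
    exact hdis q.1 p.1 (hmem p hp).1 (Prod.mk.inj h).1
  have d13 : Disjoint (T1 ∪ T2) T3 := by
    rw [disjoint_left]
    rintro _ (⟨p, hp, rfl⟩ | ⟨p, hp, rfl⟩) ⟨q, hq, h⟩
    · exact hdis q.1 p.2 (hmem p hp).2 (Prod.mk.inj h).2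
    · exact hdis p.1 q.2 (Or.inl hq.1) (Prod.mk.inj h).1.symm
  have h1 : incL G A F = (T1 ∪ T2 ∪ T3).ncard := by
    rw [ncard_union_eq d13 (toFinite _) (toFinite _), ncard_union_eq d12 (toFinite _) (toFinite _),
      c1, c2, c3]
    unfold incL labc
    rw [inc2_eq]
    ring
  rw [h1, inc2_eq]
  refine ncard_le_ncard ?_ (toFinite _)
  rintro _ ((⟨p, hp, rfl⟩ | ⟨q, hq, rfl⟩) | ⟨q, hq, rfl⟩)
  · rcases hp.2 with h | h
    · exact ⟨hadj _ h _ hp.1, Or.inl (hB _ h)⟩
    · exact ⟨(hadj _ h _ hp.1.symm).symm, Or.inr (hB _ h)⟩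
  · exact ⟨hlab _ _ hq.1 hq.2, Or.inr (hB _ hq.1)⟩
  · exact ⟨(hlab _ _ hq.1 hq.2).symm, Or.inl (hB _ hq.1)⟩

/-! ### The graph of the fan -/

section
variable {r s L : ℕ} {V : Type}

/-- the vertices -/
abbrev FW (r s : ℕ) {L : ℕ} (F : Fin L → Set V) : Type :=
  (Fin r ⊕ Fin s) ⊕ (Σ i : Fin L, {x // x ∈ F i})

/-- the graph -/
def FX (G : SimpleGraph V) (A : Fin r → V → Prop) (F : Fin L → Set V) (H : Fin s → Set V) :
    SimpleGraph (FW r s F) where
  Adj u v := match u, v with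
    | .inl _, .inl _ => False
    | .inl (.inl a), .inr x => A a x.2
    | .inl (.inr t), .inr x => ∃ y ∈ H t, G.Adj x.2 y
    | .inr x, .inl (.inl a) => A a x.2
    | .inr x, .inl (.inr t) => ∃ y ∈ H t, G.Adj x.2 y
    | .inr x, .inr y => x.1 = y.1 ∧ G.Adj x.2 y.2
  symm := ⟨by
    rintro ((a | t) | x) ((a' | t') | y) h
    · exact h
    · exact h
    · exact h
    · exact h
    · exact h
    · exact h
    · exact h
    · exact h
    · exact ⟨h.1.symm, h.2.symm⟩⟩
  loopless := ⟨by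
    rintro ((a | t) | x) h
    · exact h
    · exact h
    · exact G.loopless.irrefl _ h.2⟩

theorem FX_minor (G : SimpleGraph V) (A : Fin r → V → Prop) (F : Fin L → Set V)
    (H : Fin s → Set V) (hd : ∀ i j, i ≠ j → Disjoint (F i) (F j))
    (hc : ∀ t, Conn G (H t)) (hh : ∀ t t', t ≠ t' → Disjoint (H t) (H t'))
    (hFH : ∀ i t, Disjoint (F i) (H t)) : Minor (FX G A F H) (Hat G A) := by
  set f : FW r s F → Set (Fin r ⊕ V) := fun w => match w with
    | .inl (.inl a) => {Sum.inl a}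
    | .inl (.inr t) => Sum.inr '' H t
    | .inr x => {Sum.inr (x.2 : V)} with hf
  refine Model.minor (f := f) ⟨?_, ?_, ?_⟩
  · intro u v huv
    rw [disjoint_left]
    intro z hz hz'
    apply huv
    rcases u with (a | t) | x <;> rcases v with (a' | t') | y
    · have h1 : z = Sum.inl a := hz
      have h2 : z = Sum.inl a' := hz'
      rw [h1] at h2
      rw [Sum.inl.inj h2]
    · have h1 : z = Sum.inl a := hz
      obtain ⟨y, _, h2⟩ := hz'
      rw [h1] at h2
      exact absurd h2 (by simp)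
    · have h1 : z = Sum.inl a := hz
      have h2 : z = Sum.inr (y.2 : V) := hz'
      rw [h1] at h2
      exact absurd h2 (by simp)
    · have h1 : z = Sum.inl a' := hz'
      obtain ⟨y, _, h2⟩ := hz
      rw [h1] at h2
      exact absurd h2 (by simp)
    · obtain ⟨x, hx, h1⟩ := hz
      obtain ⟨y, hy, h2⟩ := hz'
      have h3 : x = y := Sum.inr.inj (h1.trans h2.symm)
      subst h3
      by_contra hne
      exact disjoint_left.1 (hh t t' (fun h => hne (by rw [h]))) hx hy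
    · obtain ⟨x, hx, h1⟩ := hz
      have h2 : z = Sum.inr (y.2 : V) := hz'
      have h3 : x = y.2 := Sum.inr.inj (h1.trans h2)
      exact absurd hx (disjoint_left.1 (hFH y.1 t) (h3 ▸ y.2.2))
    · have h1 : z = Sum.inl a' := hz'
      have h2 : z = Sum.inr (x.2 : V) := hz
      rw [h1] at h2
      exact absurd h2 (by simp)
    · obtain ⟨y, hy, h1⟩ := hz'
      have h2 : z = Sum.inr (x.2 : V) := hz
      have h3 : y = x.2 := Sum.inr.inj (h1.trans h2)
      exact absurd hy (disjoint_left.1 (hFH x.1 t') (h3 ▸ x.2.2))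
    · have h1 : z = Sum.inr (x.2 : V) := hz
      have h2 : z = Sum.inr (y.2 : V) := hz'
      have h3 : (x.2 : V) = y.2 := Sum.inr.inj (h1.symm.trans h2)
      obtain ⟨i, x⟩ := x
      obtain ⟨j, y⟩ := y
      have h4 : i = j := by
        by_contra hne
        exact disjoint_left.1 (hd i j hne) x.2 (by simp only at h3; rw [h3]; exact y.2)
      subst h4
      have h5 : x = y := Subtype.ext h3
      rw [h5]
  · rintro ((a | t) | x)
    · exact conn_singleton _
    · exact (hc t).image Sum.inr fun a _ b _ hab => hab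
    · exact conn_singleton _
  · have key : ∀ (t : Fin s) (x : Σ i : Fin L, {x // x ∈ F i}), (∃ y ∈ H t, G.Adj x.2 y) →
        ∃ a ∈ (Sum.inr '' H t : Set (Fin r ⊕ V)), ∃ b ∈ ({Sum.inr (x.2 : V)} : Set (Fin r ⊕ V)),
        (Hat G A).Adj a b := by
      rintro t x ⟨y, hy, hxy⟩
      exact ⟨Sum.inr y, ⟨y, hy, rfl⟩, Sum.inr (x.2 : V), rfl, hxy.symm⟩
    rintro ((a | t) | x) ((a' | t') | y) h
    · exact h.elim
    · exact h.elim
    · exact ⟨Sum.inl a, rfl, Sum.inr (y.2 : V), rfl, a, rfl, h⟩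
    · exact h.elim
    · exact h.elim
    · exact key t y h
    · exact ⟨Sum.inr (x.2 : V), rfl, Sum.inl a', rfl, a', rfl, h⟩
    · obtain ⟨u, hu, v, hv, huv⟩ := key t' x h
      exact ⟨v, hv, u, hu, huv.symm⟩
    · exact ⟨Sum.inr (x.2 : V), rfl, Sum.inr (y.2 : V), rfl, h.2⟩

end

end FanAux

open FanAux in
theorem stmt_FAN (hPL : Stmt_PL) : Stmt_FAN := by
  classical
  intro a b r s
  obtain ⟨L, hL⟩ := hPL a b (r + s)
  refine ⟨L, ?_⟩
  intro V G A F H hMR hF hFd hHc hHd hFH hy hg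
  set ρ : ℝ := (a : ℝ) / ((b : ℝ) + 1) with hρ
  have hρ0 : 0 ≤ ρ := by rw [hρ]; positivity
  have hfin : ∀ i, Finite {x // x ∈ F i} := fun i => (hF i).1.to_subtype
  set X := FX G A F H with hX
  set Φ : Set (FW r s F) := range Sum.inl with hΦ
  set U : ℕ → Set (FW r s F) := fun i => {w | ∃ x : (Σ i : Fin L, {x // x ∈ F i}),
    w = Sum.inr x ∧ (x.1 : ℕ) < i} with hU
  have hXM : MR ρ X := hMR.minor (FX_minor G A F H hFd hHc hHd hFH)
  have hnb : ∀ i, nb X (U i) \ Φ = ∅ := by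
    intro i
    rw [Set.eq_empty_iff_forall_notMem]
    rintro w ⟨⟨h1, u, ⟨x, rfl, hx⟩, h2⟩, h3⟩
    rcases w with w | y
    · exact h3 ⟨w, rfl⟩
    · apply h1
      exact ⟨y, rfl, by rw [← h2.1]; exact hx⟩
  have hUU : ∀ i, U i ⊆ U (i + 1) := by
    rintro i w ⟨x, h1, h2⟩
    exact ⟨x, h1, by omega⟩
  -- the copy of `F i`
  set B : Fin L → Set (FW r s F) := fun i => {w | ∃ x : {x // x ∈ F i}, w = Sum.inr ⟨i, x⟩} with hB
  have hBcard : ∀ i, (B i).ncard = (F i).ncard := by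
    intro i
    have h1 : B i = (fun x : {x // x ∈ F i} => (Sum.inr ⟨i, x⟩ : FW r s F)) '' univ := by
      ext w
      simp only [hB, mem_ofPred_eq, image_univ, mem_range]
      exact exists_congr fun x => eq_comm
    rw [h1, ncard_image_of_injective _ (by
      intro x y hxy
      have h2 := Sum.inr.inj hxy
      exact eq_of_heq (Sigma.mk.inj h2).2)]
    rw [ncard_univ]
    rfl
  have hUB : ∀ i : Fin L, U ((i : ℕ) + 1) = U i ∪ B i := by
    intro i
    ext w
    constructor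
    · rintro ⟨⟨j, x⟩, rfl, h2⟩
      by_cases h3 : (j : ℕ) < i
      · exact Or.inl ⟨⟨j, x⟩, rfl, h3⟩
      · right
        have h4 : j = i := by
          apply Fin.ext
          simp only at h2
          omega
        subst h4
        exact ⟨x, rfl⟩
    · rintro (⟨x, h1, h2⟩ | ⟨x, h1⟩)
      · exact ⟨x, h1, by omega⟩
      · exact ⟨⟨i, x⟩, h1, Nat.lt_succ_self _⟩
  have hBinc : ∀ i, incL G A (F i) ≤ inc2 X (B i) := by
    intro i
    obtain ⟨y, hyH, hynb⟩ := hy i
    obtain ⟨x0, hx0⟩ := (hF i).2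
    set φ : V → FW r s F := fun x => if h : x ∈ F i then Sum.inr ⟨i, ⟨x, h⟩⟩ else
      if h' : ∃ t, y t = x then Sum.inl (Sum.inr h'.choose) else Sum.inr ⟨i, ⟨x0, hx0⟩⟩ with hφ
    have φ1 : ∀ x (h : x ∈ F i), φ x = Sum.inr ⟨i, ⟨x, h⟩⟩ := by
      intro x h
      rw [hφ]
      simp only
      rw [dif_pos h]
    have φ2 : ∀ x ∈ nb G (F i), ∃ t, y t = x ∧ φ x = Sum.inl (Sum.inr t) := by
      intro x hx
      have h' : ∃ t, y t = x := hynb hx
      refine ⟨h'.choose, h'.choose_spec, ?_⟩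
      rw [hφ]
      simp only
      rw [dif_neg hx.1, dif_pos h']
    refine emb G A X (F i) φ (fun a => Sum.inl (Sum.inl a)) (B i) ?_ ?_ ?_ ?_ ?_ ?_
    · rintro x (hx | hx) z (hz | hz) hxz
      · rw [φ1 x hx, φ1 z hz] at hxz
        have h2 := Sum.inr.inj hxz
        exact congrArg Subtype.val (eq_of_heq (Sigma.mk.inj h2).2)
      · obtain ⟨t, _, h2⟩ := φ2 z hz
        rw [φ1 x hx, h2] at hxz
        exact absurd hxz (by simp)
      · obtain ⟨t, _, h2⟩ := φ2 x hx
        rw [φ1 z hz, h2] at hxz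
        exact absurd hxz (by simp)
      · obtain ⟨t, h1, h2⟩ := φ2 x hx
        obtain ⟨t', h3, h4⟩ := φ2 z hz
        rw [h2, h4] at hxz
        rw [← h1, ← h3, Sum.inr.inj (Sum.inl.inj hxz)]
    · intro x z hxz
      exact Sum.inl.inj (Sum.inl.inj hxz)
    · rintro c x (hx | hx) h
      · rw [φ1 x hx] at h
        exact absurd h (by simp)
      · obtain ⟨t, _, h2⟩ := φ2 x hx
        rw [h2] at h
        exact absurd h (by simp)
    · intro x hx
      exact ⟨⟨x, hx⟩, φ1 x hx⟩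
    · intro x hx z hxz
      by_cases hz : z ∈ F i
      · rw [φ1 x hx, φ1 z hz]
        exact ⟨rfl, hxz⟩
      · obtain ⟨t, h1, h2⟩ := φ2 z ⟨hz, x, hx, hxz⟩
        rw [φ1 x hx, h2]
        exact ⟨z, h1 ▸ hyH t, hxz⟩
    · intro c x hx hcx
      rw [φ1 x hx]
      exact hcx
  have hinc : ∀ i ≤ L, 2 * ρ * (U i).ncard ≤ inc2 X (U i) := by
    intro i
    induction i with
    | zero =>
      intro _
      have h1 : U 0 = ∅ := by
        rw [Set.eq_empty_iff_forall_notMem]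
        rintro w ⟨x, _, h2⟩
        omega
      rw [h1, ncard_empty, inc2_empty]
      simp
    | succ i ih =>
      intro hi
      have ih' := ih (by omega)
      have hB' := hBinc ⟨i, hi⟩
      have h1 := hUB ⟨i, hi⟩
      simp only at h1
      have h2 := add_le X (U i) (B ⟨i, hi⟩) (prs X (B ⟨i, hi⟩)) (by
        rintro ⟨u, v⟩ hp
        refine ⟨hp.1, hp.2, ?_, ?_⟩
        · rintro ⟨x, hx1, hx2⟩
          simp only at hx1
          subst hx1
          rcases hp.2 with ⟨z, hz⟩ | ⟨z, hz⟩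
          · have h3 := Sum.inr.inj hz
            rw [h3] at hx2
            simp at hx2
          · simp only at hz
            subst hz
            have h3 : x.1 = ⟨i, hi⟩ := hp.1.1
            rw [h3] at hx2
            simp at hx2
        · rintro ⟨x, hx1, hx2⟩
          simp only at hx1
          subst hx1
          rcases hp.2 with ⟨z, hz⟩ | ⟨z, hz⟩
          · simp only at hz
            subst hz
            have h3 : (⟨i, hi⟩ : Fin L) = x.1 := hp.1.1
            rw [← h3] at hx2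
            simp at hx2
          · have h3 := Sum.inr.inj hz
            rw [h3] at hx2
            simp at hx2)
      rw [← inc2_eq] at h2
      rw [h1]
      have h3 := hg ⟨i, hi⟩
      unfold gn at h3
      have h4 : (incL G A (F ⟨i, hi⟩) : ℝ) ≤ inc2 X (B ⟨i, hi⟩) := by exact_mod_cast hB'
      have h5 : (inc2 X (U i) : ℝ) + inc2 X (B ⟨i, hi⟩) ≤ inc2 X (U i ∪ B ⟨i, hi⟩) := by
        exact_mod_cast h2
      have h6 : ((U i ∪ B ⟨i, hi⟩).ncard : ℝ) ≤ (U i).ncard + (F ⟨i, hi⟩).ncard := by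
        rw [← hBcard]
        exact_mod_cast ncard_union_le _ _
      have h7 : 2 * ρ * ((U i ∪ B ⟨i, hi⟩).ncard : ℝ) ≤
          2 * ρ * ((U i).ncard + (F ⟨i, hi⟩).ncard) := mul_le_mul_of_nonneg_left h6 (by linarith)
      linarith
  refine hL (FW r s F) X Φ U hXM (toFinite _) ?_ ?_ ?_ ?_ ?_ hinc
  · rw [hΦ, ← image_univ, ncard_image_of_injective _ Sum.inl_injective, ncard_univ]
    simp
  · intro i _
    refine ⟨toFinite _, ?_⟩
    rw [disjoint_left]
    rintro w ⟨x, rfl, _⟩ ⟨h, hh⟩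
    exact absurd hh (by simp)
  · intro i _
    rw [hnb i]
    exact ⟨finite_empty, by simp⟩
  · intro i _
    rw [hnb i, union_empty]
    exact hUU i
  · intro i hi h
    obtain ⟨x0, hx0⟩ := (hF ⟨i, hi⟩).2
    have h1 : (Sum.inr ⟨⟨i, hi⟩, ⟨x0, hx0⟩⟩ : FW r s F) ∈ U (i + 1) :=
      ⟨_, rfl, Nat.lt_succ_self i⟩
    rw [← h] at h1
    obtain ⟨x, hx1, hx2⟩ := h1
    rw [← Sum.inr.inj hx1] at hx2
    simp at hx2

end Pool.Agent.Work.MP_216d61_lc
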