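import Pool.Agent.Work.MP_216d61_lc_full.InterfaceLIM
import Pool.Agent.Work.MP_216d61_lc_helper79.Final2

/-!
# MP_216d61_lc full: the final assembly
-/

set_option autoImplicit false

namespace Pool.Agent.Work.MP_216d61_lc

open Relation Set

theorem tw_bot_one (w : ℕ) : TWle w (⊥ : SimpleGraph (Fin 1)) := by
  refine ⟨Equiv.refl _, fun _ => ∅, ?_, ?_, ?_, ?_⟩
  · intro v u hu; simp at hu
  · intro v; simp
  · intro v u hu; simp at hu
  · intro u v _ h; exact h.elim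

theorem BT_zero (b : ℕ) : BT (((0 : ℕ) : ℝ) / ((b : ℝ) + 1)) := by
  refine ⟨0, fun ε hε => ⟨1, le_rfl, ⊥, tw_bot_one 0, ?_, ?_⟩⟩
  · intro W _ K hK
    obtain ⟨f, hf⟩ := minor_iff.1 hK
    have h1 : e2 K = 0 := e2_eq_zero fun x y hxy => by
      obtain ⟨a, _, c, _, hab⟩ := hf.adj x y hxy
      exact hab
    rw [h1]; simp
  · have : (0 : ℝ) ≤ e2 (⊥ : SimpleGraph (Fin 1)) := Nat.cast_nonneg _
    push_cast
    have h2 : (0 : ℝ) / ((b : ℝ) + 1) = 0 := by simp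
    rw [h2]
    linarith

theorem bt_of_isDen (hINF : Stmt_INF) (hLIM : Stmt_LIM) (a b : ℕ)
    (h : IsDen ((a : ℝ) / ((b : ℝ) + 1))) : BT ((a : ℝ) / ((b : ℝ) + 1)) := by
  rcases Nat.eq_zero_or_pos a with ha | ha
  · subst ha
    exact BT_zero b
  · by_contra hBT
    have hD := dense_of_isDen (by positivity) h
    obtain ⟨V, G, r, A, hS⟩ := hLIM a b ha hD hBT
    exact hINF _ V G r A hS

theorem main_full (hINF : Stmt_INF) (hLIM : Stmt_LIM) :
    ComputablePred fun p : ℕ × ℕ => IsDen ((p.1 : ℝ) / ((p.2 : ℝ) + 1)) :=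
  computable_of_BT (bt_of_isDen hINF hLIM)

end Pool.Agent.Work.MP_216d61_lc
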