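import Pool.Agent.Work.MP_216d61_lc_full.Interface

/-!
# Block MEN: Menger's theorem for sets (Göring's proof), helper82
-/

set_option autoImplicit false

namespace Pool.Agent.Work.MP_216d61_lc

open Relation Set

namespace MenAux

section lnk

variable {V : Type*} {G G' : SimpleGraph V} {S T : Set V} {x y z : V}

theorem lnk_refl (h : x ∈ S) : Lnk G S x x := ⟨h, ReflTransGen.refl⟩

theorem lnk_right (h : Lnk G S x y) : y ∈ S := by
  obtain ⟨h1, h2⟩ := h
  induction h2 with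
  | refl => exact h1
  | tail _ h _ => exact h.2.2

theorem lnk_symm (h : Lnk G S x y) : Lnk G S y x := ⟨lnk_right h, link_symm h.2⟩

theorem lnk_trans (h : Lnk G S x y) (h' : Lnk G S y z) : Lnk G S x z := ⟨h.1, h.2.trans h'.2⟩

theorem lnk_step (h : Lnk G S x y) (h' : G.Adj y z) (hz : z ∈ S) : Lnk G S x z :=
  ⟨h.1, h.2.tail ⟨h', lnk_right h, hz⟩⟩

theorem lnk_mono (hST : S ⊆ T) (h : Lnk G S x y) : Lnk G T x y := ⟨hST h.1, link_mono hST h.2⟩

theorem lnk_mono_graph (hG : G' ≤ G) (h : Lnk G' S x y) : Lnk G S x y :=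
  ⟨h.1, ReflTransGen.mono (fun _ _ hab => ⟨hG hab.1, hab.2.1, hab.2.2⟩) _ _ h.2⟩

/-- a link that stays in a set closed under the steps -/
theorem lnk_closed {A : Set V} (h : Lnk G S x y) (hx : x ∈ A)
    (hA : ∀ a ∈ A, a ∈ S → ∀ b, G.Adj a b → b ∈ S → b ∈ A) : Lnk G (S ∩ A) x y := by
  obtain ⟨h1, h2⟩ := h
  have key : ∀ z, ReflTransGen (fun a b => G.Adj a b ∧ a ∈ S ∧ b ∈ S) x z →
      Lnk G (S ∩ A) x z := by
    intro z hz
    induction hz with
    | refl => exact lnk_refl ⟨h1, hx⟩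
    | tail _ h ih =>
      have h3 := lnk_right ih
      exact lnk_step ih h.1 ⟨h.2.2, hA _ h3.2 h3.1 _ h.1 h.2.2⟩
  exact key y h2

/-- a link from a set to its complement has a crossing step -/
theorem lnk_cross {A : Set V} (h : Lnk G S x y) (hx : x ∈ A) (hy : y ∉ A) :
    ∃ a b, a ∈ A ∧ b ∉ A ∧ G.Adj a b ∧ a ∈ S ∧ b ∈ S := by
  by_contra hcon
  push Not at hcon
  have h1 := lnk_closed h hx fun a ha haS b hab hb => by
    by_contra hbA
    exact hcon a b ha hbA hab haS hb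
  exact hy (lnk_right h1).2

/-- a link in a graph is a link in a subgraph if all used edges are there -/
theorem lnk_graph (h : Lnk G S x y) (hS : ∀ a ∈ S, ∀ b ∈ S, G.Adj a b → G'.Adj a b) :
    Lnk G' S x y :=
  ⟨h.1, ReflTransGen.mono (fun _ _ hab => ⟨hS _ hab.2.1 _ hab.2.2 hab.1, hab.2.1, hab.2.2⟩)
    _ _ h.2⟩

theorem conn_lnk (h : Conn G S) (hx : x ∈ S) (hy : y ∈ S) : Lnk G S x y := ⟨hx, h.2 x hx y hy⟩

theorem conn_mono_graph (hG : G' ≤ G) (h : Conn G' S) : Conn G S :=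
  ⟨h.1, fun x hx y hy => (lnk_mono_graph hG (conn_lnk h hx hy)).2⟩

/-- the component of `x` in `S` -/
theorem conn_cmp (hx : x ∈ S) : Conn G {y | Lnk G S x y} := by
  refine conn_of_center (x0 := x) (lnk_refl hx) fun y hy => link_symm ?_
  have h1 := lnk_closed (A := {y | Lnk G S x y}) hy (lnk_refl hx)
    fun a ha _ b hab hb => lnk_step ha hab hb
  exact (lnk_mono inter_subset_right h1).2

theorem conn_union (h : Conn G S) (h' : Conn G T) (hx : x ∈ S) (hx' : x ∈ T) :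
    Conn G (S ∪ T) := by
  refine conn_of_center (x0 := x) (Or.inl hx) ?_
  rintro y (hy | hy)
  · exact (lnk_mono subset_union_left (conn_lnk h hy hx)).2
  · exact (lnk_mono subset_union_right (conn_lnk h' hy hx')).2

theorem conn_union_adj (h : Conn G S) (h' : Conn G T) (hx : x ∈ S) (hy : y ∈ T)
    (hxy : G.Adj x y) : Conn G (S ∪ T) := by
  refine conn_of_center (x0 := x) (Or.inl hx) ?_
  rintro z (hz | hz)
  · exact (lnk_mono subset_union_left (conn_lnk h hz hx)).2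
  · exact (lnk_step (lnk_mono subset_union_right (conn_lnk h' hz hy)) hxy.symm (Or.inl hx)).2

/-- a connected set meeting `A` at `a`, cut at `z` -/
theorem conn_cut (hD : Conn G S) (hx : x ∈ S) (hz : z ∈ S) :
    Conn G (insert z {w | Lnk G (S \ {z}) x w}) := by
  by_cases hxz : x = z
  · subst hxz
    have : {w | Lnk G (S \ {x}) x w} = ∅ := by
      ext w
      simp only [mem_setOf_eq, mem_empty_iff_false, iff_false]
      rintro ⟨h, _⟩
      exact h.2 rfl
    rw [this, insert_empty_eq]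
    exact conn_singleton x
  · have hx' : x ∈ S \ {z} := ⟨hx, hxz⟩
    obtain ⟨a, b, ha, hb, hab, haS, hbS⟩ := lnk_cross (A := {w | Lnk G (S \ {z}) x w})
      (conn_lnk hD hx hz) (lnk_refl hx') (fun h => (lnk_right h).2 rfl)
    have hbz : b = z := by
      by_contra hbz
      exact hb (lnk_step ha hab ⟨hbS, hbz⟩)
    subst hbz
    rw [insert_eq, union_comm]
    exact conn_union_adj (conn_cmp hx') (conn_singleton b) ha rfl hab

end lnk

variable {V : Type} {G G' : SimpleGraph V}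

/-- `Z` separates `P` and `Q` in `U` -/
def Sp (G : SimpleGraph V) (U P Q Z : Set V) : Prop :=
  ∀ x ∈ P, ∀ y ∈ Q, ¬ Lnk G (U \ Z) x y

theorem Sp.symm {U P Q Z : Set V} (h : Sp G U P Q Z) : Sp G U Q P Z :=
  fun x hx y hy hxy => h y hy x hx (lnk_symm hxy)

/-- the hypothesis of Menger's theorem for one side -/
theorem side {U P Q S : Set V} {k : ℕ} {x y : V} (hG : G' ≤ G)
    (he : ∀ a b, G.Adj a b → ¬ G'.Adj a b → (a = x ∧ b = y) ∨ (a = y ∧ b = x))
    (hS : Sp G' U P Q S) (hy : ∃ q ∈ Q, Lnk G' (U \ S) y q)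
    (hyp : ∀ Z : Set V, Z ⊆ U → Z.ncard < k → ∃ p ∈ P, ∃ q ∈ Q, Lnk G (U \ Z) p q) :
    ∀ Z : Set V, Z ⊆ U → Z.ncard < k → ∃ p ∈ P, ∃ z ∈ insert x S, Lnk G' (U \ Z) p z := by
  intro Z hZU hZ
  by_contra hcon
  push Not at hcon
  obtain ⟨p, hp, q, hq, hpq⟩ := hyp Z hZU hZ
  set A : Set V := {w | ∃ p ∈ P, Lnk G' (U \ Z) p w} with hA
  have hAS : ∀ w ∈ A, w ∉ insert x S := by
    rintro w ⟨p', hp', hw⟩ hw'
    exact hcon p' hp' w hw' hw
  have hAin : ∀ w ∈ A, ∃ p' ∈ P, Lnk G' (U \ S) p' w := by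
    rintro w ⟨p', hp', hw⟩
    refine ⟨p', hp', ?_⟩
    have h1 := lnk_closed (A := A) hw ⟨p', hp', lnk_refl hw.1⟩ (by
      rintro a ⟨p'', hp'', ha⟩ _ b hab hb
      exact ⟨p'', hp'', lnk_step ha hab hb⟩)
    refine lnk_mono ?_ h1
    rintro t ⟨ht1, ht2⟩
    exact ⟨ht1.1, fun h => hAS t ht2 (mem_insert_of_mem _ h)⟩
  have hqA : q ∉ A := by
    intro h
    obtain ⟨p', hp', h1⟩ := hAin q h
    exact hS p' hp' q hq h1
  obtain ⟨c, d, hc, hd, hcd, hcU, hdU⟩ := lnk_cross (A := A) hpq ⟨p, hp, lnk_refl hpq.1⟩ hqA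
  have hnad : ¬ G'.Adj c d := by
    intro h
    obtain ⟨p', hp', h1⟩ := hc
    exact hd ⟨p', hp', lnk_step h1 h hdU⟩
  have hcx : c ≠ x := by
    rintro rfl
    exact hAS c hc (mem_insert _ _)
  rcases he c d hcd hnad with ⟨h1, _⟩ | ⟨h1, _⟩
  · exact hcx h1
  · subst h1
    obtain ⟨q', hq', h2⟩ := hy
    obtain ⟨p', hp', h3⟩ := hAin c hc
    exact hS p' hp' q' hq' (lnk_trans h3 h2)

/-- from a family of connected sets to a clean family -/
theorem clean {U P S' : Set V} {k : ℕ} (hU : U.Finite) (hS'U : S' ⊆ U) (hS' : S'.ncard = k)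
    (D : Fin k → Set V) (hDU : ∀ i, D i ⊆ U) (hDc : ∀ i, Conn G' (D i))
    (hDd : ∀ i j, i ≠ j → Disjoint (D i) (D j)) (hDP : ∀ i, (D i ∩ P).Nonempty)
    (hDS : ∀ i, (D i ∩ S').Nonempty) :
    ∃ (E : Fin k → Set V) (z : Fin k → V), (∀ i, E i ⊆ U) ∧ (∀ i, Conn G' (E i)) ∧
      (∀ i j, i ≠ j → Disjoint (E i) (E j)) ∧ (∀ i, (E i ∩ P).Nonempty) ∧ (∀ i, z i ∈ E i) ∧
      (∀ i, z i ∈ S') ∧ (∀ t ∈ S', ∃ i, z i = t) ∧
      (∀ i, ∀ w ∈ E i, w = z i ∨ ∃ p ∈ P, Lnk G' (U \ S') p w) := by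
  classical
  choose z hz using hDS
  choose a ha using hDP
  have hinj : Function.Injective z := by
    intro i j hij
    by_contra hne
    exact (disjoint_left.1 (hDd i j hne)) (hz i).1 (hij ▸ (hz j).1)
  have hrange : range z = S' := by
    refine eq_of_subset_of_ncard_le ?_ ?_ (hU.subset hS'U)
    · rintro _ ⟨i, rfl⟩; exact (hz i).2
    · rw [hS', ← image_univ, ncard_image_of_injective _ hinj, ncard_univ, Nat.card_fin]
  have honly : ∀ i, ∀ w ∈ D i, w ∈ S' → w = z i := by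
    intro i w hw hwS
    rw [← hrange] at hwS
    obtain ⟨j, rfl⟩ := hwS
    by_contra hne
    have hij : i ≠ j := by rintro rfl; exact hne rfl
    exact (disjoint_left.1 (hDd i j hij)) hw (hz j).1
  have hsub : ∀ i, insert (z i) {w | Lnk G' (D i \ {z i}) (a i) w} ⊆ D i := by
    intro i w hw
    rcases hw with rfl | hw
    · exact (hz i).1
    · exact (lnk_right hw).1
  refine ⟨fun i => insert (z i) {w | Lnk G' (D i \ {z i}) (a i) w}, z,
    fun i => (hsub i).trans (hDU i), fun i => conn_cut (hDc i) (ha i).1 (hz i).1,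
    fun i j hij => (hDd i j hij).mono (hsub i) (hsub j), fun i => ?_, fun i => mem_insert _ _,
    fun i => (hz i).2, fun t ht => ?_, fun i w hw => ?_⟩
  · refine ⟨a i, ?_, (ha i).2⟩
    by_cases h : a i = z i
    · rw [h]; exact mem_insert _ _
    · exact mem_insert_of_mem _ (lnk_refl ⟨(ha i).1, h⟩)
  · rw [← hrange] at ht; exact ht
  · rcases hw with rfl | hw
    · exact Or.inl rfl
    · refine Or.inr ⟨a i, (ha i).2, lnk_mono ?_ hw⟩
      rintro t ⟨ht1, ht2⟩
      exact ⟨hDU i ht1, fun h => ht2 (honly i t ht1 h)⟩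

/-- the number of (directed) edges in `U` -/
noncomputable def ed (G : SimpleGraph V) (U : Set V) : ℕ :=
  {p : V × V | G.Adj p.1 p.2 ∧ p.1 ∈ U ∧ p.2 ∈ U}.ncard

theorem men_aux (U : Set V) (hU : U.Finite) (k : ℕ) : ∀ (m : ℕ) (G : SimpleGraph V)
    (P Q : Set V), ed G U ≤ m → P ⊆ U → Q ⊆ U →
    (∀ Z : Set V, Z ⊆ U → Z.ncard < k → ∃ x ∈ P, ∃ y ∈ Q, Lnk G (U \ Z) x y) →
    ∃ D : Fin k → Set V, (∀ i, D i ⊆ U) ∧ (∀ i, Conn G (D i)) ∧
      (∀ i j, i ≠ j → Disjoint (D i) (D j)) ∧ (∀ i, (D i ∩ P).Nonempty) ∧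
      ∀ i, (D i ∩ Q).Nonempty := by
  classical
  intro m
  induction m with
  | zero =>
    intro G P Q hm hP hQ hyp
    have hfin : {p : V × V | G.Adj p.1 p.2 ∧ p.1 ∈ U ∧ p.2 ∈ U}.Finite :=
      (hU.prod hU).subset fun p hp => ⟨hp.2.1, hp.2.2⟩
    have h0 : {p : V × V | G.Adj p.1 p.2 ∧ p.1 ∈ U ∧ p.2 ∈ U} = ∅ := by
      rw [← ncard_eq_zero hfin]; exact Nat.le_zero.1 hm
    have hno : ∀ a ∈ U, ∀ b ∈ U, ¬ G.Adj a b := by
      intro a ha b hb hab
      have : (a, b) ∈ {p : V × V | G.Adj p.1 p.2 ∧ p.1 ∈ U ∧ p.2 ∈ U} := ⟨hab, ha, hb⟩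
      rw [h0] at this
      exact this
    have hk : k ≤ (P ∩ Q).ncard := by
      by_contra hlt
      push Not at hlt
      obtain ⟨x, hx, y, hy, hxy⟩ := hyp (P ∩ Q) (fun t ht => hP ht.1) hlt
      have h1 : y = x := by
        have := lnk_closed (A := {x}) hxy rfl (by
          rintro a rfl haU b hab hb
          exact absurd hab (hno a haU.1 b hb.1))
        exact (lnk_right this).2
      subst h1
      exact hxy.1.2 ⟨hx, hy⟩
    have hfinPQ : (P ∩ Q).Finite := hU.subset fun t ht => hP ht.1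
    have := hfinPQ.fintype
    have hemb : Nonempty (Fin k ↪ (P ∩ Q : Set V)) := by
      refine Function.Embedding.nonempty_of_card_le ?_
      rw [Fintype.card_fin, ← Nat.card_eq_fintype_card]
      exact hk
    obtain ⟨f⟩ := hemb
    refine ⟨fun i => {(f i : V)}, fun i => ?_, fun i => conn_singleton _, fun i j hij => ?_,
      fun i => ⟨f i, rfl, (f i).2.1⟩, fun i => ⟨f i, rfl, (f i).2.2⟩⟩
    · rintro t rfl
      exact hP (f i).2.1
    · rw [disjoint_singleton]
      intro h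
      exact hij (f.injective (Subtype.ext h))
  | succ m ih =>
    intro G P Q hm hP hQ hyp
    have hfin : ∀ G : SimpleGraph V, {p : V × V | G.Adj p.1 p.2 ∧ p.1 ∈ U ∧ p.2 ∈ U}.Finite :=
      fun G => (hU.prod hU).subset fun p hp => ⟨hp.2.1, hp.2.2⟩
    by_cases hE : ∃ e1 ∈ U, ∃ e2 ∈ U, G.Adj e1 e2
    swap
    · refine ih G P Q ?_ hP hQ hyp
      have h0 : {p : V × V | G.Adj p.1 p.2 ∧ p.1 ∈ U ∧ p.2 ∈ U} = ∅ := by
        ext p
        simp only [mem_setOf_eq, mem_empty_iff_false, iff_false]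
        rintro ⟨h1, h2, h3⟩
        exact hE ⟨p.1, h2, p.2, h3, h1⟩
      unfold ed
      rw [h0, ncard_empty]
      exact Nat.zero_le _
    obtain ⟨e1, he1, e2, he2, he12⟩ := hE
    set G' : SimpleGraph V := G.deleteEdges {s(e1, e2)} with hG'
    have hle : G' ≤ G := SimpleGraph.deleteEdges_le _
    have hadj : ∀ a b, G.Adj a b → ¬ G'.Adj a b → (a = e1 ∧ b = e2) ∨ (a = e2 ∧ b = e1) := by
      intro a b hab hn
      rw [hG', SimpleGraph.deleteEdges_adj] at hn
      push Not at hn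
      have h1 := hn hab
      rw [mem_singleton_iff, Sym2.eq_iff] at h1
      exact h1
    have hn12 : ¬ G'.Adj e1 e2 := by
      rw [hG', SimpleGraph.deleteEdges_adj]
      rintro ⟨_, h⟩
      exact h rfl
    have hm' : ed G' U ≤ m := by
      have : ed G' U < ed G U := by
        refine ncard_lt_ncard ?_ (hfin G)
        refine ⟨fun p hp => ⟨hle hp.1, hp.2⟩, fun h => ?_⟩
        exact hn12 (h (show (e1, e2) ∈ _ from ⟨he12, he1, he2⟩)).1
      omega
    by_cases hyp' : ∀ Z : Set V, Z ⊆ U → Z.ncard < k → ∃ x ∈ P, ∃ y ∈ Q, Lnk G' (U \ Z) x y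
    · obtain ⟨D, h1, h2, h3⟩ := ih G' P Q hm' hP hQ hyp'
      exact ⟨D, h1, fun i => conn_mono_graph hle (h2 i), h3⟩
    push Not at hyp'
    obtain ⟨S, hSU, hSk, hS⟩ := hyp'
    have hSp : Sp G' U P Q S := hS
    obtain ⟨p, hp, q, hq, hpq⟩ := hyp S hSU hSk
    -- the first crossing
    obtain ⟨x, y, hx, hy, hxy, hxU, hyU⟩ := lnk_cross (A := {w | ∃ p ∈ P, Lnk G' (U \ S) p w}) hpq
      ⟨p, hp, lnk_refl hpq.1⟩ (by rintro ⟨p', hp', h⟩; exact hS p' hp' q hq h)
    have hnxy : ¬ G'.Adj x y := by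
      intro h
      obtain ⟨p', hp', h1⟩ := hx
      exact hy ⟨p', hp', lnk_step h1 h hyU⟩
    -- the last crossing
    obtain ⟨y', x', hy', hx', hyx', hyU', hxU'⟩ := lnk_cross
      (A := {w | ∃ q ∈ Q, Lnk G' (U \ S) q w}) (lnk_symm hpq)
      ⟨q, hq, lnk_refl (lnk_right hpq)⟩ (by
        rintro ⟨q', hq', h⟩; exact hS p hp q' hq' (lnk_symm h))
    have hnxy' : ¬ G'.Adj y' x' := by
      intro h
      obtain ⟨q', hq', h1⟩ := hy'
      exact hx' ⟨q', hq', lnk_step h1 h hxU'⟩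
    have hyy : y' = y := by
      have hne : y' ≠ x := by
        rintro rfl
        obtain ⟨p', hp', h1⟩ := hx
        obtain ⟨q', hq', h2⟩ := hy'
        exact hS p' hp' q' hq' (lnk_trans h1 (lnk_symm h2))
      rcases hadj x y hxy hnxy with ⟨h1, h2⟩ | ⟨h1, h2⟩ <;>
        rcases hadj y' x' hyx' hnxy' with ⟨h3, h4⟩ | ⟨h3, h4⟩
      · exact absurd (h3.trans h1.symm) hne
      · exact h3.trans h2.symm
      · exact h3.trans h2.symm
      · exact absurd (h3.trans h1.symm) hne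
    subst hyy
    have hadj2 : ∀ a b, G.Adj a b → ¬ G'.Adj a b → (a = x ∧ b = y') ∨ (a = y' ∧ b = x) := by
      intro a b hab hn
      rcases hadj x y' hxy hnxy with ⟨h1, h2⟩ | ⟨h1, h2⟩ <;>
        rcases hadj a b hab hn with ⟨h3, h4⟩ | ⟨h3, h4⟩
      · exact Or.inl ⟨h3.trans h1.symm, h4.trans h2.symm⟩
      · exact Or.inr ⟨h3.trans h2.symm, h4.trans h1.symm⟩
      · exact Or.inr ⟨h3.trans h2.symm, h4.trans h1.symm⟩
      · exact Or.inl ⟨h3.trans h1.symm, h4.trans h2.symm⟩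
    have hyQ : ∃ q ∈ Q, Lnk G' (U \ S) y' q := by
      obtain ⟨q', hq', h⟩ := hy'
      exact ⟨q', hq', lnk_symm h⟩
    have hxP : ∃ p ∈ P, Lnk G' (U \ S) x p := by
      obtain ⟨p', hp', h⟩ := hx
      exact ⟨p', hp', lnk_symm h⟩
    have hfinS : S.Finite := hU.subset hSU
    have hxS : x ∉ S := hxU.2
    have hyS : y' ∉ S := hyU.2
    have hxU1 : insert x S ⊆ U := insert_subset hxU.1 hSU
    have hyU1 : insert y' S ⊆ U := insert_subset hyU.1 hSU
    have hcard : S.ncard + 1 = k := by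
      by_contra hne
      have hlt : (insert x S).ncard < k := by
        rw [ncard_insert_of_notMem hxS hfinS]; omega
      obtain ⟨p', hp', q', hq', h⟩ := hyp (insert x S) hxU1 hlt
      refine hS p' hp' q' hq' (lnk_mono (sdiff_subset_sdiff_right (subset_insert x S))
        (lnk_graph h fun a ha b hb hab => ?_))
      by_contra hn
      rcases hadj2 a b hab hn with ⟨h1, h2⟩ | ⟨h1, h2⟩
      · exact ha.2 (by rw [h1]; exact mem_insert _ _)
      · exact hb.2 (by rw [h2]; exact mem_insert _ _)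
    have hcx : (insert x S).ncard = k := by rw [ncard_insert_of_notMem hxS hfinS]; exact hcard
    have hcy : (insert y' S).ncard = k := by rw [ncard_insert_of_notMem hyS hfinS]; exact hcard
    -- the two families
    obtain ⟨D0, d1, d2, d3, d4, d5⟩ := ih G' P (insert x S) hm' hP hxU1
      (side hle hadj2 hSp hyQ hyp)
    obtain ⟨D, z, D1, D2, D3, D4, D5, D6, D7, D8⟩ := clean hU hxU1 hcx D0 d1 d2 d3 d4 d5
    obtain ⟨E0, e1', e2', e3', e4', e5'⟩ := ih G' Q (insert y' S) hm' hQ hyU1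
      (side hle (fun a b hab hn => (hadj2 a b hab hn).symm) hSp.symm hxP
        (fun Z h1 h2 => by
          obtain ⟨p', hp', q', hq', h⟩ := hyp Z h1 h2
          exact ⟨q', hq', p', hp', lnk_symm h⟩))
    obtain ⟨E, w, E1, E2, E3, E4, E5, E6, E7, E8⟩ := clean hU hyU1 hcy E0 e1' e2' e3' e4' e5'
    have hyx : y' ≠ x := hxy.ne'
    -- the matching
    have hmatch : ∀ i, ∃ j, w j = if z i = x then y' else z i := by
      intro i
      refine E7 _ ?_
      split_ifs with h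
      · exact mem_insert _ _
      · exact mem_insert_of_mem _ ((D6 i).resolve_left h)
    choose σ hσ using hmatch
    have hzy : ∀ i, z i ≠ y' := by
      intro i h
      rcases D6 i with h1 | h1
      · exact hyx (h.symm.trans h1)
      · exact hyS (h ▸ h1)
    have hDE : ∀ i i', i ≠ i' → Disjoint (D i) (E (σ i')) := by
      intro i i' hii
      rw [disjoint_left]
      intro v hvD hvE
      have hP2 : ∀ v, (∃ p ∈ P, Lnk G' (U \ insert x S) p v) → ∃ p ∈ P, Lnk G' (U \ S) p v := by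
        rintro v ⟨p', hp', h⟩
        exact ⟨p', hp', lnk_mono (sdiff_subset_sdiff_right (subset_insert x S)) h⟩
      have hQ2 : ∀ v, (∃ p ∈ Q, Lnk G' (U \ insert y' S) p v) →
          ∃ p ∈ Q, Lnk G' (U \ S) p v := by
        rintro v ⟨p', hp', h⟩
        exact ⟨p', hp', lnk_mono (sdiff_subset_sdiff_right (subset_insert y' S)) h⟩
      rcases D8 i v hvD with h1 | h1 <;> rcases E8 (σ i') v hvE with h2 | h2
      · rw [hσ i'] at h2
        split_ifs at h2 with h3
        · exact hzy i (h1.symm.trans h2)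
        · have h4 : z i = z i' := h1.symm.trans h2
          exact (disjoint_left.1 (D3 i i' hii)) (D5 i) (h4 ▸ D5 i')
      · obtain ⟨q', hq', h3⟩ := h2
        have h4 := (lnk_right h3).2
        rcases D6 i with h5 | h5
        · obtain ⟨p', hp', h6⟩ := hxP
          obtain ⟨q2, hq2, h7⟩ := hQ2 v ⟨q', hq', h3⟩
          have h8 : v = x := h1.trans h5
          subst h8
          exact hS p' hp' q2 hq2 (lnk_trans (lnk_symm h6) (lnk_symm h7))
        · exact h4 (mem_insert_of_mem _ (h1 ▸ h5))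
      · obtain ⟨p', hp', h3⟩ := h1
        have h4 := (lnk_right h3).2
        rcases E6 (σ i') with h5 | h5
        · obtain ⟨q', hq', h6⟩ := hyQ
          obtain ⟨p2, hp2, h7⟩ := hP2 v ⟨p', hp', h3⟩
          have h8 : v = y' := h2.trans h5
          subst h8
          exact hS p2 hp2 q' hq' (lnk_trans h7 h6)
        · exact h4 (mem_insert_of_mem _ (h2 ▸ h5))
      · obtain ⟨p2, hp2, h7⟩ := hP2 v h1
        obtain ⟨q2, hq2, h8⟩ := hQ2 v h2
        exact hS p2 hp2 q2 hq2 (lnk_trans h7 (lnk_symm h8))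
    have hσinj : ∀ i i', i ≠ i' → σ i ≠ σ i' := by
      intro i i' hii h
      have h1 := hσ i
      rw [h, hσ i'] at h1
      have h2 : z i = z i' := by
        split_ifs at h1 with h3 h4 h4
        · exact h4.trans h3.symm
        · exact absurd h1.symm (hzy i)
        · exact absurd h1 (hzy i')
        · exact h1.symm
      exact (disjoint_left.1 (D3 i i' hii)) (D5 i) (h2 ▸ D5 i')
    refine ⟨fun i => D i ∪ E (σ i), fun i => union_subset (D1 i) (E1 _), fun i => ?_,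
      fun i i' hii => ?_, fun i => ?_, fun i => ?_⟩
    · have h1 := conn_mono_graph hle (D2 i)
      have h2 := conn_mono_graph hle (E2 (σ i))
      by_cases h3 : z i = x
      · have h4 := hσ i
        rw [if_pos h3] at h4
        refine conn_union_adj h1 h2 (x := x) (y := y') (h3 ▸ D5 i) (h4 ▸ E5 _) hxy
      · have h4 := hσ i
        rw [if_neg h3] at h4
        exact conn_union h1 h2 (D5 i) (h4 ▸ E5 _)
    · rw [disjoint_union_left, disjoint_union_right, disjoint_union_right]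
      exact ⟨⟨D3 i i' hii, hDE i i' hii⟩, (hDE i' i hii.symm).symm, E3 _ _ (hσinj i i' hii)⟩
    · obtain ⟨t, ht⟩ := D4 i
      exact ⟨t, Or.inl ht.1, ht.2⟩
    · obtain ⟨t, ht⟩ := E4 (σ i)
      exact ⟨t, Or.inr ht.1, ht.2⟩

end MenAux

theorem stmt_MEN : Stmt_MEN :=
  fun _ G U P Q k hU hP hQ hyp => MenAux.men_aux U hU k _ G P Q le_rfl hP hQ hyp

end Pool.Agent.Work.MP_216d61_lc
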