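import Pool.Agent.Work.MP_216d61_lc_full.InterfaceINF
import Pool.Agent.Work.MP_216d61_lc_full.MEN

/-!
# Block FLP: basic facts on flaps (helper60)
-/

set_option autoImplicit false

namespace Pool.Agent.Work.MP_216d61_lc

open Relation Set

namespace FlpAux

section gen

variable {V : Type*} {G : SimpleGraph V} {A B F : Set V} {x y : V}

theorem nb_fin (hlf : ∀ x, {y | G.Adj x y}.Finite) (hF : F.Finite) : (nb G F).Finite := by
  have h1 : nb G F ⊆ ⋃ x ∈ F, {y | G.Adj x y} := by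
    rintro y ⟨_, x, hx, hxy⟩
    exact mem_iUnion₂.2 ⟨x, hx, hxy⟩
  exact (hF.biUnion fun x _ => hlf x).subset h1

theorem nb_union_sub : nb G (A ∪ B) ⊆ nb G A ∪ nb G B := by
  rintro y ⟨h1, x, hx | hx, hxy⟩
  · exact Or.inl ⟨fun h => h1 (Or.inl h), x, hx, hxy⟩
  · exact Or.inr ⟨fun h => h1 (Or.inr h), x, hx, hxy⟩

theorem nb_submod (hlf : ∀ x, {y | G.Adj x y}.Finite) (hA : A.Finite) (hB : B.Finite) :
    (nb G (A ∪ B)).ncard + (nb G (A ∩ B)).ncard ≤ (nb G A).ncard + (nb G B).ncard := by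
  have hnA := nb_fin hlf hA
  have hnB := nb_fin hlf hB
  have hn1 := nb_fin hlf (hA.union hB)
  have hn2 := nb_fin hlf (hA.inter_of_left B)
  rw [← ncard_union_add_ncard_inter _ _ hn1 hn2, ← ncard_union_add_ncard_inter _ _ hnA hnB]
  refine Nat.add_le_add (ncard_le_ncard ?_ (hnA.union hnB))
    (ncard_le_ncard ?_ (hnA.inter_of_left _))
  · rintro y (h | ⟨h1, x, hx, hxy⟩)
    · exact nb_union_sub h
    · by_cases hyA : y ∈ A
      · exact Or.inr ⟨fun h => h1 ⟨hyA, h⟩, x, hx.2, hxy⟩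
      · exact Or.inl ⟨hyA, x, hx.1, hxy⟩
  · rintro y ⟨⟨h1, _⟩, _, x, hx, hxy⟩
    exact ⟨⟨fun h => h1 (Or.inl h), x, hx.1, hxy⟩, ⟨fun h => h1 (Or.inr h), x, hx.2, hxy⟩⟩

/-- the neighbours of a subset -/
theorem nb_sub_cl (h : A ⊆ B) : A ∪ nb G A ⊆ B ∪ nb G B := by
  rintro y (hy | ⟨_, x, hx, hxy⟩)
  · exact Or.inl (h hy)
  · by_cases hyB : y ∈ B
    · exact Or.inl hyB
    · exact Or.inr ⟨hyB, x, h hx, hxy⟩

theorem inc_fin (hlf : ∀ x, {y | G.Adj x y}.Finite) (hF : F.Finite) :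
    {p : V × V | G.Adj p.1 p.2 ∧ (p.1 ∈ F ∨ p.2 ∈ F)}.Finite := by
  have h1 : (⋃ x ∈ F, ((fun y => (x, y)) '' {y | G.Adj x y} ∪
      (fun y => (y, x)) '' {y | G.Adj x y})).Finite :=
    hF.biUnion fun x _ => ((hlf x).image _).union ((hlf x).image _)
  refine h1.subset ?_
  rintro ⟨a, b⟩ ⟨hab, ha | hb⟩
  · exact mem_iUnion₂.2 ⟨a, ha, Or.inl ⟨b, hab, rfl⟩⟩
  · exact mem_iUnion₂.2 ⟨b, hb, Or.inr ⟨a, hab.symm, rfl⟩⟩

theorem inc2_insert (hlf : ∀ x, {y | G.Adj x y}.Finite) (hF : F.Finite) (x : V) :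
    inc2 G (insert x F) ≤ inc2 G F + 2 * {z | G.Adj x z ∧ z ∉ F}.ncard := by
  have hN : {z | G.Adj x z ∧ z ∉ F}.Finite := (hlf x).subset fun z hz => hz.1
  have h1 : {p : V × V | G.Adj p.1 p.2 ∧ (p.1 ∈ insert x F ∨ p.2 ∈ insert x F)} ⊆
      {p : V × V | G.Adj p.1 p.2 ∧ (p.1 ∈ F ∨ p.2 ∈ F)} ∪
        ((fun z => (x, z)) '' {z | G.Adj x z ∧ z ∉ F} ∪
          (fun z => (z, x)) '' {z | G.Adj x z ∧ z ∉ F}) := by
    rintro ⟨a, b⟩ ⟨hab, h⟩
    by_cases ha : a ∈ F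
    · exact Or.inl ⟨hab, Or.inl ha⟩
    by_cases hb : b ∈ F
    · exact Or.inl ⟨hab, Or.inr hb⟩
    rcases h with h | h
    · rcases h with h | h
      · have h' : a = x := h
        subst h'
        exact Or.inr (Or.inl ⟨b, ⟨hab, hb⟩, rfl⟩)
      · exact absurd h ha
    · rcases h with h | h
      · have h' : b = x := h
        subst h'
        exact Or.inr (Or.inr ⟨a, ⟨hab.symm, ha⟩, rfl⟩)
      · exact absurd h hb
  unfold inc2
  have h2 := ncard_le_ncard h1 ((inc_fin hlf hF).union ((hN.image _).union (hN.image _)))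
  have h3 := ncard_union_le {p : V × V | G.Adj p.1 p.2 ∧ (p.1 ∈ F ∨ p.2 ∈ F)}
    ((fun z => (x, z)) '' {z | G.Adj x z ∧ z ∉ F} ∪ (fun z => (z, x)) '' {z | G.Adj x z ∧ z ∉ F})
  have h4 := ncard_union_le ((fun z => (x, z)) '' {z | G.Adj x z ∧ z ∉ F})
    ((fun z => (z, x)) '' {z | G.Adj x z ∧ z ∉ F})
  have h5 := ncard_image_le (f := fun z => (x, z)) hN
  have h6 := ncard_image_le (f := fun z => (z, x)) hN
  omega

theorem inc2_union (hlf : ∀ x, {y | G.Adj x y}.Finite) (hA : A.Finite) (hB : B.Finite) :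
    inc2 G (A ∪ B) ≤ inc2 G A + inc2 G B := by
  unfold inc2
  refine (ncard_le_ncard ?_ ((inc_fin hlf hA).union (inc_fin hlf hB))).trans
    (ncard_union_le _ _)
  rintro ⟨a, b⟩ ⟨hab, (h | h) | (h | h)⟩
  · exact Or.inl ⟨hab, Or.inl h⟩
  · exact Or.inr ⟨hab, Or.inl h⟩
  · exact Or.inl ⟨hab, Or.inr h⟩
  · exact Or.inr ⟨hab, Or.inr h⟩

variable {r : ℕ} {L : Fin r → V → Prop}

theorem lab_fin (hF : F.Finite) : {p : Fin r × V | p.2 ∈ F ∧ L p.1 p.2}.Finite :=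
  ((finite_univ (α := Fin r)).prod hF).subset fun _ hp => ⟨mem_univ _, hp.1⟩

theorem labc_insert (hF : F.Finite) (x : V) :
    labc L (insert x F) ≤ labc L F + {a | L a x}.ncard := by
  have hN : {a | L a x}.Finite := toFinite _
  have h1 : {p : Fin r × V | p.2 ∈ insert x F ∧ L p.1 p.2} ⊆
      {p : Fin r × V | p.2 ∈ F ∧ L p.1 p.2} ∪ (fun a => (a, x)) '' {a | L a x} := by
    rintro ⟨a, b⟩ ⟨h | h, hab⟩
    · have h' : b = x := h
      subst h'
      exact Or.inr ⟨a, hab, rfl⟩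
    · exact Or.inl ⟨h, hab⟩
  unfold labc
  have h2 := ncard_le_ncard h1 ((lab_fin hF).union (hN.image _))
  have h3 := ncard_union_le {p : Fin r × V | p.2 ∈ F ∧ L p.1 p.2}
    ((fun a => (a, x)) '' {a | L a x})
  have h4 := ncard_image_le (f := fun a => (a, x)) hN
  omega

theorem labc_union (hA : A.Finite) (hB : B.Finite) :
    labc L (A ∪ B) ≤ labc L A + labc L B := by
  unfold labc
  refine (ncard_le_ncard ?_ ((lab_fin hA).union (lab_fin hB))).trans (ncard_union_le _ _)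
  rintro ⟨a, b⟩ ⟨h | h, hab⟩
  · exact Or.inl ⟨h, hab⟩
  · exact Or.inr ⟨h, hab⟩

theorem incL_insert (hlf : ∀ x, {y | G.Adj x y}.Finite) (hF : F.Finite) (x : V) :
    incL G L (insert x F) ≤ incL G L F + 2 * {z | G.Adj x z ∧ z ∉ F}.ncard +
      2 * {a | L a x}.ncard := by
  have h1 := inc2_insert hlf hF x
  have h2 := labc_insert (L := L) hF x
  unfold incL
  omega

theorem incL_union (hlf : ∀ x, {y | G.Adj x y}.Finite) (hA : A.Finite) (hB : B.Finite) :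
    incL G L (A ∪ B) ≤ incL G L A + incL G L B := by
  have h1 := inc2_union hlf hA hB
  have h2 := labc_union (L := L) hA hB
  unfold incL
  omega

theorem gn_union {ρ : ℝ} (hlf : ∀ x, {y | G.Adj x y}.Finite) (hA : A.Finite) (hB : B.Finite)
    (hd : Disjoint A B) : gn ρ G L (A ∪ B) ≤ gn ρ G L A + gn ρ G L B := by
  have h1 := incL_union (L := L) hlf hA hB
  have h2 := ncard_union_eq hd hA hB
  unfold gn
  have h3 : (incL G L (A ∪ B) : ℝ) ≤ incL G L A + incL G L B := by exact_mod_cast h1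
  rw [h2]
  push_cast
  linarith

end gen

section flap

variable {ρ : ℝ} {V : Type} {G : SimpleGraph V} {r : ℕ} {A : Fin r → V → Prop}

theorem small_union (hlf : ∀ x, {y | G.Adj x y}.Finite) {F F' : Set V} (h : Small G F)
    (h' : Small G F') (hc : Conn G (F ∪ F')) (hn : (nb G (F ∪ F')).ncard ≤ 3) :
    Small G (F ∪ F') := ⟨h.1.union h'.1, hc, hn⟩

theorem flap_eq {F F' : Set V} (h : Flap G F) (h' : Flap G F') (hs : Small G (F ∪ F')) :
    F = F' :=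
  (h.2 _ hs subset_union_left).symm.trans (h'.2 _ hs subset_union_right)

/-- small sets meeting a finite set lie in a finite set -/
theorem small_fin (hFS : Stmt_FS) (hS : Sit ρ G A) {S : Set V} (hSf : S.Finite) :
    ∃ S' : Set V, S'.Finite ∧ ∀ F, Small G F → ((F ∪ nb G F) ∩ S).Nonempty → F ∪ nb G F ⊆ S' := by
  obtain ⟨S', h1, _, h2⟩ := hFS ρ V G r A hS 3 S hSf
  exact ⟨S', h1, fun F hF hm => h2 F hF.1 hF.2.1 hF.2.2 hm⟩

theorem exists_flap (hFS : Stmt_FS) (hS : Sit ρ G A) {F : Set V} (hF : Small G F) :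
    ∃ F', Flap G F' ∧ F ⊆ F' := by
  obtain ⟨x, hx⟩ := hF.2.1.nonempty
  obtain ⟨S', h1, h2⟩ := small_fin hFS hS (finite_singleton x)
  have hfin : {F' | Small G F' ∧ F ⊆ F'}.Finite := by
    refine (h1.finite_subsets).subset ?_
    rintro F' ⟨h3, h4⟩
    exact subset_union_left.trans (h2 F' h3 ⟨x, Or.inl (h4 hx), rfl⟩)
  obtain ⟨M, hM⟩ := hfin.exists_maximal ⟨F, hF, Subset.rfl⟩
  refine ⟨M, ⟨hM.1.1, ?_⟩, hM.1.2⟩
  intro F' h3 h4
  exact Subset.antisymm (hM.2 ⟨h3, hM.1.2.trans h4⟩ h4) h4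

theorem flap_sep (hS : Sit ρ G A) {R : Set V} {l : ℕ} {g : ℝ} (hR : Reg ρ G A R l g)
    {F F' : Set V} (hF : Flap G F) (hF' : Flap G F') (hFR : F ∪ nb G F ⊆ R)
    (hFR' : F' ∪ nb G F' ⊆ R) (hne : F ≠ F') : Disjoint F F' ∧ Disjoint F (nb G F') := by
  have hlf := hS.lf
  have hdis : Disjoint F F' := by
    rw [Set.disjoint_iff_inter_eq_empty]
    by_contra hcon
    obtain ⟨x, hx⟩ := nonempty_iff_ne_empty.2 hcon
    have h1 := hR.three (F ∩ F') (hF.1.1.inter_of_left F') ⟨x, hx⟩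
      ((nb_sub_cl inter_subset_left).trans hFR)
    have h2 := nb_submod hlf hF.1.1 hF'.1.1
    have h3 := hF.1.2.2
    have h4 := hF'.1.2.2
    exact hne (flap_eq hF hF' (small_union hlf hF.1 hF'.1
      (MenAux.conn_union hF.1.2.1 hF'.1.2.1 hx.1 hx.2) (by omega)))
  refine ⟨hdis, ?_⟩
  rw [Set.disjoint_left]
  rintro x hx ⟨hxF', x', hx', hxx'⟩
  have hx'F : x' ∉ F := fun h => disjoint_left.1 hdis h hx'
  have hnF := nb_fin hlf hF.1.1
  have hnF' := nb_fin hlf hF'.1.1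
  have hx'n : x' ∈ nb G F := ⟨hx'F, x, hx, hxx'.symm⟩
  have hxn : x ∈ nb G F' := ⟨hxF', x', hx', hxx'⟩
  -- the union has at least four neighbours
  have h4 : ¬ (nb G (F ∪ F')).ncard ≤ 3 := fun h => hne (flap_eq hF hF'
    (small_union hlf hF.1 hF'.1 (MenAux.conn_union_adj hF.1.2.1 hF'.1.2.1 hx hx' hxx'.symm) h))
  have h5 : nb G (F ∪ F') ⊆ (nb G F \ F') ∪ (nb G F' \ F) := by
    rintro y ⟨hy, z, hz | hz, hzy⟩
    · exact Or.inl ⟨⟨fun h => hy (Or.inl h), z, hz, hzy⟩, fun h => hy (Or.inr h)⟩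
    · exact Or.inr ⟨⟨fun h => hy (Or.inr h), z, hz, hzy⟩, fun h => hy (Or.inl h)⟩
  have h6 := (ncard_le_ncard h5 ((hnF.sdiff).union (hnF'.sdiff))).trans (ncard_union_le _ _)
  have h7 : (nb G F ∩ F').ncard + (nb G F \ F').ncard = (nb G F).ncard :=
    ncard_inter_add_ncard_sdiff_eq_ncard _ _ hnF
  have h8 : (nb G F' ∩ F).ncard + (nb G F' \ F).ncard = (nb G F').ncard :=
    ncard_inter_add_ncard_sdiff_eq_ncard _ _ hnF'
  have h9 : 1 ≤ (nb G F ∩ F').ncard :=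
    (ncard_pos (hnF.inter_of_left _)).2 ⟨x', hx'n, hx'⟩
  have h10 : 1 ≤ (nb G F' ∩ F).ncard :=
    (ncard_pos (hnF'.inter_of_left _)).2 ⟨x, hxn, hx⟩
  have h11 := hF.1.2.2
  have h12 := hF'.1.2.2
  have h13 : (nb G F' ∩ F).ncard = 1 := by omega
  obtain ⟨w, hw⟩ := ncard_eq_one.1 h13
  have hwx : ∀ z, z ∈ nb G F' → z ∈ F → z = x := by
    intro z hz hzF
    have h14 : z ∈ nb G F' ∩ F := ⟨hz, hzF⟩
    have h15 : x ∈ nb G F' ∩ F := ⟨hxn, hx⟩
    rw [hw, mem_singleton_iff] at h14 h15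
    rw [h14, h15]
  -- the set without `x`
  have hF0 : (F \ {x}).Finite := hF.1.1.sdiff
  have hnb0 : nb G (F \ {x}) ⊆ insert x (nb G F \ {x'}) := by
    rintro y ⟨hy, z, hz, hzy⟩
    by_cases hyF : y ∈ F
    · by_cases hyx : y = x
      · exact Or.inl hyx
      · exact absurd ⟨hyF, hyx⟩ hy
    · refine Or.inr ⟨⟨hyF, z, hz.1, hzy⟩, ?_⟩
      intro hyx'
      have hyx'' : y = x' := hyx'
      subst hyx''
      exact hz.2 (hwx z ⟨fun h => disjoint_left.1 hdis hz.1 h, y, hx', hzy.symm⟩ hz.1)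
  have h14 : (nb G (F \ {x})).ncard ≤ 3 := by
    have h15 := ncard_le_ncard hnb0 ((hnF.sdiff).insert x)
    have h16 := ncard_insert_le x (nb G F \ {x'})
    have h17 := ncard_sdiff_singleton_of_mem hx'n
    omega
  have h18 := hR.gain _ hF0 h14 ((nb_sub_cl sdiff_subset).trans hFR)
  have h19 : insert x (F \ {x}) = F := by
    rw [insert_sdiff_singleton, insert_eq_of_mem hx]
  have h20 := incL_insert (L := A) hlf hF0 x
  rw [h19] at h20
  have h21 : {z | G.Adj x z ∧ z ∉ F \ {x}} ⊆ nb G F := by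
    rintro z ⟨hz, hzF⟩
    refine ⟨fun h => ?_, x, hx, hz⟩
    exact hzF ⟨h, fun h' => G.ne_of_adj hz (by rw [show z = x from h'])⟩
  have h22 := ncard_le_ncard h21 hnF
  have h23 := hR.lab x (hFR (Or.inl hx))
  have h24 := hS.o1 F hF.1.1
  have h25 : F.ncard = (F \ {x}).ncard + 1 := by
    have h26 := ncard_sdiff_singleton_add_one hx hF.1.1
    omega
  have h27 : (incL G A F : ℝ) ≤ incL G A (F \ {x}) + 2 * 3 + 2 * l := by
    have h28 : incL G A F ≤ incL G A (F \ {x}) + 2 * 3 + 2 * l := by omega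
    exact_mod_cast h28
  have h29 := hR.ineq
  have h30 := hR.g0
  unfold gn at h18 h24
  rw [h25] at h24
  push_cast at h24
  linarith

end flap

end FlpAux

open FlpAux in
theorem stmt_FLP (hFS : Stmt_FS) : Stmt_FLP := by
  intro ρ V G r A hS
  refine ⟨fun F hF => exists_flap hFS hS hF, ?_, ?_⟩
  · intro S hSf
    obtain ⟨S', h1, h2⟩ := small_fin hFS hS hSf
    refine (h1.finite_subsets).subset ?_
    rintro F ⟨h3, h4⟩
    exact subset_union_left.trans (h2 F h3 h4)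
  · intro R l g hR
    refine ⟨fun F F' hF hF' hFR hFR' hne => flap_sep hS hR hF hF' hFR hFR' hne, ?_⟩
    intro F y hF hFR hy hD F1 hF1 hyF1
    obtain ⟨F', hF', hsub⟩ := exists_flap hFS hS hF1
    have hFR' : F' ∪ nb G F' ⊆ R := fun z hz => hD.2.2 F' hF'.1 (Or.inl (hsub hyF1)) z hz
    have hne : F' ≠ F := by
      rintro rfl
      exact hy.1 (hsub hyF1)
    exact disjoint_left.1 (flap_sep hS hR hF' hF hFR' hFR hne).2 (hsub hyF1) hy

end Pool.Agent.Work.MP_216d61_lc
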