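import Pool.Agent.Work.MP_216d61_lc_full.Base1

/-!
# Block FRM: the inside of a frame
-/

set_option autoImplicit false

namespace Pool.Agent.Work.MP_216d61_lc

open Relation Set

namespace FRMaux

theorem col_mono {V : Type} {G : SimpleGraph V} {K : ℕ} {ray : ℕ → ℕ → V} {S S' : Set V} {a b : ℕ}
    {L : Set V} {lo hi : ℕ → ℕ} (h : Col G K ray S a b L lo hi) (hS : S' ⊆ S) :
    Col G K ray S' a b L lo hi :=
  ⟨h.fin, h.conn, h.disj.mono_right hS, h.le, h.on, h.off, h.enda, h.endb⟩

/-- ray vertices of the segment between two positions -/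
theorem conn_between {V : Type} {G : SimpleGraph V} {K : ℕ} {ray : ℕ → ℕ → V} (h : IsRays G K ray)
    {i : ℕ} (hi : i < K) (m n : ℕ) :
    Conn G {x | ∃ j, min m n ≤ j ∧ j ≤ max m n ∧ x = ray i j} :=
  h.conn_seg hi (min_le_max)

end FRMaux

open FRMaux in
theorem stmt_FRM (hNO : Stmt_NO) : Stmt_FRM := by
  classical
  intro ρ V G r A hL T K ray S1 hSt S hSf
  obtain ⟨S2, hS2f, hS12, hS2⟩ := hNO V G T K ray S1 hSt
  set S0 : Set V := S ∪ S2 with hS0
  have hS0f : S0.Finite := hSf.union hS2f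
  -- connected sets outside `S0` from the neighbours of `S0` to the rays
  have hZ : ∀ w : V, ∃ Z : Set V, Z.Finite ∧ ((∃ i n, i < K ∧ Lnk G S0ᶜ w (ray i n)) →
      Conn G Z ∧ Z ⊆ S0ᶜ ∧ w ∈ Z ∧ ∃ i n, i < K ∧ ray i n ∈ Z) := by
    intro w
    by_cases h : ∃ i n, i < K ∧ Lnk G S0ᶜ w (ray i n)
    · obtain ⟨i, n, hi, hl⟩ := h
      obtain ⟨F, hFS, hFf, hFc, hw, hr⟩ := lnk_iff.1 hl
      exact ⟨F, hFf, fun _ => ⟨hFc, hFS, hw, i, n, hi, hr⟩⟩
    · exact ⟨∅, finite_empty, fun h' => absurd h' h⟩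
  choose Z hZf hZ using hZ
  have hnf : (nb G S0).Finite := nb_finite hL.lf hS0f
  set S3 : Set V := S0 ∪ nb G S0 ∪ ⋃ w ∈ nb G S0, Z w with hS3
  have hS3f : S3.Finite := (hS0f.union hnf).union (hnf.biUnion fun w _ => hZf w)
  have hS03 : S0 ⊆ S3 := fun x hx => Or.inl (Or.inl hx)
  refine ⟨S3, hS3f, fun x hx => hS03 (Or.inl hx), ?_⟩
  intro a b L Q D loL hiL loQ hiQ loD hiD hTa hab hbK cL cQ cD hlo hLQ hD dLQ dLD dDQ
  have hR := hSt.rays
  have hS23 : S2 ⊆ S3 := fun x hx => hS03 (Or.inr hx)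
  set W : Set V := (Frm ray a b L Q hiL loQ ∪ S0)ᶜ with hW
  -- basic facts on the positions
  have pL : ∀ i n, a - 1 ≤ i → i ≤ b + 1 → ray i n ∉ L → n < loL i ∨ hiL i < n := by
    intro i n h1 h2 h3
    rw [cL.on i h1 h2] at h3
    omega
  have pQ : ∀ i n, a - 1 ≤ i → i ≤ b + 1 → ray i n ∉ Q → n < loQ i ∨ hiQ i < n := by
    intro i n h1 h2 h3
    rw [cQ.on i h1 h2] at h3
    omega
  have leL : ∀ i, a - 1 ≤ i → i ≤ b + 1 → loL i ≤ hiL i := cL.le
  have leQ : ∀ i, a - 1 ≤ i → i ≤ b + 1 → loQ i ≤ hiQ i := cQ.le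
  have hd0D : ray (a + 1) (loD (a + 1)) ∈ D :=
    (cD.on (a + 1) le_rfl (by omega) _).2 ⟨le_rfl, cD.le (a + 1) le_rfl (by omega)⟩
  have hDW : D ⊆ W := by
    intro x hx hx'
    rcases hx' with (((hx' | hx') | ⟨n, _, _, rfl⟩) | ⟨n, _, _, rfl⟩) | hx'
    · exact disjoint_left.1 dLD hx' hx
    · exact disjoint_left.1 dDQ hx hx'
    · exact cD.off a (by omega) (by omega) n hx
    · exact cD.off b (by omega) (by omega) n hx
    · exact disjoint_left.1 cD.disj hx (hS03 hx')
  set Kc : Set V := cmp G W (ray (a + 1) (loD (a + 1))) with hKc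
  have hKW : Kc ⊆ W := cmp_subset
  have hKconn : Conn G Kc := conn_cmp (hDW hd0D)
  have hDK : D ⊆ Kc := cD.conn.subset_cmp hDW hd0D
  have hKF : Disjoint Kc (Frm ray a b L Q hiL loQ) := by
    rw [disjoint_left]
    exact fun x hx hx' => hKW hx (Or.inl hx')
  have hKS0 : Disjoint Kc S0 := by
    rw [disjoint_left]
    exact fun x hx hx' => hKW hx (Or.inr hx')
  -- (A) ray vertices of `Kc`
  have hA : ∀ i < K, ∀ n, ray i n ∈ Kc → a < i ∧ i < b ∧ hiL i < n ∧ n < loQ i := by
    intro j hj t hjt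
    by_contra hbad
    have hgood : a < a + 1 ∧ a + 1 < b ∧ hiL (a + 1) < loD (a + 1) ∧ loD (a + 1) < loQ (a + 1) := by
      have h1 := hD (a + 1) le_rfl (by omega)
      have h2 := cD.le (a + 1) le_rfl (by omega)
      omega
    obtain ⟨i', s', j', t', hi', hj', m1, m2, P1, P2, H', hH'K, hH'f, hH'c, n1, n2, hH'r⟩ :=
      exists_lkx hR hKconn (by omega : a + 1 < K) hj (hDK hd0D) hjt
        (fun i n => a < i ∧ i < b ∧ hiL i < n ∧ n < loQ i) hgood hbad
    have hLk : ∀ X : Set V, Disjoint Kc X → Lk1 G K ray X i' s' j' t' := fun X hX =>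
      ⟨H', hH'f, hH'c, hX.mono_left hH'K, n1, n2, hH'r⟩
    obtain ⟨g1, g2, g3, g4⟩ := P1
    have hS1K : Disjoint Kc S1 := hKS0.mono_right fun x hx => Or.inr (hS12 hx)
    have hjf := hSt.jf i' s' j' t' (by omega) (by omega) hj' (hLk S1 hS1K)
    have hja : a ≤ j' := by omega
    have hjb : j' ≤ b := by omega
    have hnF : ray j' t' ∉ Frm ray a b L Q hiL loQ := disjoint_left.1 hKF m2
    have hnL : ray j' t' ∉ L := fun h => hnF (Or.inl (Or.inl (Or.inl h)))
    have hnQ : ray j' t' ∉ Q := fun h => hnF (Or.inl (Or.inl (Or.inr h)))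
    have q1 := pL j' t' (by omega) (by omega) hnL
    have q2 := pQ j' t' (by omega) (by omega) hnQ
    have q3 := leL j' (by omega) (by omega)
    have q4 := leQ j' (by omega) (by omega)
    have q5 := hLQ j' (by omega) (by omega)
    have hcase : t' < loL j' ∨ hiQ j' < t' := by
      by_contra hc
      push Not at hc
      have q6 : hiL j' < t' := by omega
      have q7 : t' < loQ j' := by omega
      rcases Nat.lt_or_ge a j' with h1 | h1
      · rcases Nat.lt_or_ge j' b with h2 | h2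
        · exact P2 ⟨h1, h2, q6, q7⟩
        · have : j' = b := by omega
          subst this
          exact hnF (Or.inr ⟨t', q6.le, q7.le, rfl⟩)
      · have : j' = a := by omega
        subst this
        exact hnF (Or.inl (Or.inr ⟨t', q6.le, q7.le, rfl⟩))
    have hKS2 : Disjoint Kc S2 := hKS0.mono_right fun x hx => Or.inr hx
    rcases hcase with hcase | hcase
    · refine hS2 (a - 1) (b + 1) L loL hiL (by omega) (by omega) (col_mono cL hS23) j' i' t' s'
        (by omega) (by omega) (by omega) (by omega) hcase g3 ?_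
      apply Lk1.symm
      apply hLk
      rw [disjoint_union_right]
      exact ⟨hKS2, hKF.mono_right fun x hx => Or.inl (Or.inl (Or.inl hx))⟩
    · refine hS2 (a - 1) (b + 1) Q loQ hiQ (by omega) (by omega) (col_mono cQ hS23) i' j' s' t'
        (by omega) (by omega) (by omega) (by omega) g4 hcase ?_
      apply hLk
      rw [disjoint_union_right]
      exact ⟨hKS2, hKF.mono_right fun x hx => Or.inl (Or.inl (Or.inr hx))⟩
  -- (B) `Kc` has no neighbours in `S0`
  have hB : ∀ w ∈ Kc, w ∉ nb G S0 := by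
    intro w hw hwn
    have hWS : W ⊆ S0ᶜ := fun x hx hx' => hx (Or.inr hx')
    have hlw : Lnk G S0ᶜ w (ray (a + 1) (loD (a + 1))) := (Lnk.symm hw).mono hWS
    obtain ⟨z1, z2, z3, i, n, hi, z4⟩ := hZ w ⟨a + 1, loD (a + 1), by omega, hlw⟩
    have hZ3 : Z w ⊆ S3 := fun x hx => Or.inr (mem_biUnion hwn hx)
    have hZW : Z w ⊆ W := by
      intro x hx hx'
      rcases hx' with (((hx' | hx') | ⟨n, hn1, _, rfl⟩) | ⟨n, hn1, _, rfl⟩) | hx'
      · exact disjoint_left.1 cL.disj hx' (hZ3 hx)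
      · exact disjoint_left.1 cQ.disj hx' (hZ3 hx)
      · have h1 := hlo a n (by omega) (by omega) (hZ3 hx)
        have h2 := leL a (by omega) (by omega)
        omega
      · have h1 := hlo b n (by omega) (by omega) (hZ3 hx)
        have h2 := leL b (by omega) (by omega)
        omega
      · exact z2 hx hx'
    have hZK : Z w ⊆ Kc := by
      intro x hx
      exact (show Lnk G W _ w from hw).trans (z1.lnk' hZW z3 hx)
    have h1 := hA i hi n (hZK z4)
    have h2 := hlo i n (by omega) (by omega) (hZ3 z4)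
    have h3 := leL i (by omega) (by omega)
    omega
  refine ⟨Kc, ?_, hKconn, hDK, hKF, hKS0.mono_right fun x hx => Or.inl hx, ?_, hA, ?_⟩
  · -- (C) finiteness
    have hFf : (Frm ray a b L Q hiL loQ).Finite :=
      ((cL.fin.union cQ.fin).union (finite_seg _ _ _)).union (finite_seg _ _ _)
    obtain ⟨Y, hYf, hYS, hY⟩ := hL.e1 (Frm ray a b L Q hiL loQ ∪ S0) (hFf.union hS0f)
    by_contra hinf
    have hnot : ¬ Kc ⊆ Y := fun h => hinf (hYf.subset h)
    obtain ⟨x, hxK, hxY⟩ := not_subset.1 hnot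
    obtain ⟨N, hN⟩ := hR.exists_beyond hYf
    have h1 := hN (a + 1) (by omega) (max N (loQ (a + 1))) (le_max_left _ _)
    have h2 := hY x _ hxY h1
    have h3 : ray (a + 1) (max N (loQ (a + 1))) ∈ Kc := (show Lnk G W _ x from hxK).trans h2
    have h4 := hA (a + 1) (by omega) _ h3
    have h5 := le_max_right N (loQ (a + 1))
    omega
  · rintro y ⟨hyK, x, hx, hxy⟩
    by_contra hyF
    by_cases hyS : y ∈ S0
    · exact hB x hx ⟨fun h => disjoint_left.1 hKS0 hx h, y, hyS, hxy.symm⟩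
    · apply hyK
      exact Lnk.step (show Lnk G W _ x from hx) hxy (fun h => h.elim hyF hyS)
  · intro i h1 h2 n h3 h4
    have e1 := hD i (by omega) (by omega)
    have e2 := cD.le i (by omega) (by omega)
    have hseg := conn_between hR (by omega : i < K) n (loD i)
    have hsW : {x | ∃ j, min n (loD i) ≤ j ∧ j ≤ max n (loD i) ∧ x = ray i j} ⊆ W := by
      rintro x ⟨m, hm1, hm2, rfl⟩ hx'
      have hm3 : hiL i < m := by omega
      have hm4 : m < loQ i := by omega
      rcases hx' with (((hx' | hx') | ⟨n', _, _, he⟩) | ⟨n', _, _, he⟩) | hx'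
      · have := (cL.on i (by omega) (by omega) m).1 hx'
        omega
      · have := (cQ.on i (by omega) (by omega) m).1 hx'
        omega
      · have := (hR.inj i (by omega) a (by omega) m n' he).1
        omega
      · have := (hR.inj i (by omega) b (by omega) m n' he).1
        omega
      · have := hlo i m (by omega) (by omega) (hS03 hx')
        have := leL i (by omega) (by omega)
        omega
    have hDi : ray i (loD i) ∈ D := (cD.on i (by omega) (by omega) _).2 ⟨le_rfl, e2⟩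
    have hlk : Lnk G W (ray i (loD i)) (ray i n) :=
      hseg.lnk' hsW ⟨loD i, min_le_right _ _, le_max_right _ _, rfl⟩
        ⟨n, min_le_left _ _, le_max_left _ _, rfl⟩
    exact (show Lnk G W _ _ from hDK hDi).trans hlk

end Pool.Agent.Work.MP_216d61_lc
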