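import Pool.Agent.Work.MP_216d61_lc_full.Base1

/-!
# Block FS: finitely many small sets near a vertex
-/

set_option autoImplicit false

namespace Pool.Agent.Work.MP_216d61_lc

open Relation Set Filter

namespace FsAux

theorem ev_subset {V : Type} {f : ℕ → Set V} {T : Set V} (hT : T.Finite)
    (h : ∀ x ∈ T, ∀ᶠ i in (hyperfilter ℕ : Filter ℕ), x ∈ f i) :
    ∀ᶠ i in (hyperfilter ℕ : Filter ℕ), T ⊆ f i := by
  have := (hT.eventually_all (l := (hyperfilter ℕ : Filter ℕ)) (p := fun x i => x ∈ f i)).2 h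
  exact this

/-- The main point of the block. -/
theorem fs_main (hTH : Stmt_TH) (ρ : ℝ) (V : Type) (G : SimpleGraph V) (r : ℕ)
    (A : Fin r → V → Prop) (hS : Sit ρ G A) (k : ℕ) (v : V) :
    {F : Set V | F.Finite ∧ Conn G F ∧ (nb G F).ncard ≤ k ∧ v ∈ F ∪ nb G F}.Finite := by
  classical
  by_contra hinf
  have hinf' : {F : Set V | F.Finite ∧ Conn G F ∧ (nb G F).ncard ≤ k ∧ v ∈ F ∪ nb G F}.Infinite :=
    hinf
  set f : ℕ → Set V := fun n => ((hinf'.natEmbedding _ n : _) : Set V) with hf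
  have finj : Function.Injective f := fun m n h =>
    (hinf'.natEmbedding _).injective (Subtype.ext h)
  have hp : ∀ n, (f n).Finite ∧ Conn G (f n) ∧ (nb G (f n)).ncard ≤ k ∧ v ∈ f n ∪ nb G (f n) :=
    fun n => (hinf'.natEmbedding _ n).2
  set F8 : Set V := {x | ∀ᶠ i in (hyperfilter ℕ : Filter ℕ), x ∈ f i} with hF8
  set N8 : Set V := {x | ∀ᶠ i in (hyperfilter ℕ : Filter ℕ), x ∈ nb G (f i)} with hN8
  have hN : nb G F8 = N8 := by
    ext y
    constructor
    · rintro ⟨hy, x, hx, hxy⟩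
      have hy' : ∀ᶠ i in (hyperfilter ℕ : Filter ℕ), y ∉ f i := Ultrafilter.eventually_not.2 hy
      exact (hy'.and hx).mono fun i hi => ⟨hi.1, x, hi.2, hxy⟩
    · intro hy
      have h1 : ∀ᶠ i in (hyperfilter ℕ : Filter ℕ), ∃ x ∈ {x | G.Adj y x}, x ∈ f i :=
        Filter.Eventually.mono hy fun i hi => by
          obtain ⟨_, x, hx, hxy⟩ := hi
          exact ⟨x, hxy.symm, hx⟩
      have h2 : ∃ x ∈ {x | G.Adj y x}, ∀ᶠ i in (hyperfilter ℕ : Filter ℕ), x ∈ f i := by
        by_contra hcon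
        push Not at hcon
        have h3 : ∀ x ∈ {x | G.Adj y x}, ∀ᶠ i in (hyperfilter ℕ : Filter ℕ), x ∉ f i :=
          fun x hx => hcon x hx
        have h4 := ((hS.lf y).eventually_all (l := (hyperfilter ℕ : Filter ℕ))
          (p := fun x i => x ∉ f i)).2 h3
        obtain ⟨i, h5, x, hx, hxi⟩ := (h4.and h1).exists
        exact h5 x hx hxi
      obtain ⟨x, hx, hx'⟩ := h2
      refine ⟨?_, x, hx', hx.symm⟩
      intro hy'
      obtain ⟨i, h5, h6⟩ := (Filter.Eventually.and hy hy').exists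
      exact h5.1 h6
  have hN8card : ∀ T : Finset V, (T : Set V) ⊆ N8 → T.card ≤ k := by
    intro T hT
    have h1 := ev_subset (f := fun i => nb G (f i)) T.finite_toSet fun x hx => hT hx
    obtain ⟨i, hi⟩ := h1.exists
    have h2 := ncard_le_ncard hi (nb_finite hS.lf (hp i).1)
    rw [ncard_coe_finset] at h2
    exact h2.trans (hp i).2.2.1
  have hN8fin : N8.Finite := by
    by_contra hcon
    obtain ⟨T, hT, hTc⟩ := Set.Infinite.exists_subset_card_eq hcon (k + 1)
    have := hN8card T hT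
    omega
  have hne : F8.Nonempty := by
    have h1 : ∀ᶠ i in (hyperfilter ℕ : Filter ℕ), v ∈ f i ∨ v ∈ nb G (f i) :=
      Eventually.of_forall fun i => (hp i).2.2.2
    rcases Ultrafilter.eventually_or.1 h1 with h | h
    · exact ⟨v, h⟩
    · have h2 : v ∈ nb G F8 := by rw [hN]; exact h
      obtain ⟨_, x, hx, _⟩ := h2
      exact ⟨x, hx⟩
  have hnN : ∀ y ∈ N8, ∀ᶠ i in (hyperfilter ℕ : Filter ℕ), y ∉ f i := fun y hy =>
    Filter.Eventually.mono hy fun i hi => hi.1
  by_cases hfin : F8.Finite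
  · have h1 := ev_subset hfin fun x hx => hx
    have h2 := (hN8fin.eventually_all (l := (hyperfilter ℕ : Filter ℕ))
      (p := fun x i => x ∉ f i)).2 hnN
    have h3 : ∀ᶠ i in (hyperfilter ℕ : Filter ℕ), f i = F8 := by
      refine (h1.and h2).mono fun i hi => ?_
      refine Subset.antisymm ?_ hi.1
      refine (hp i).2.1.subset_of_nb ?_ ?_
      · obtain ⟨x, hx⟩ := hne
        exact ⟨x, hi.1 hx, hx⟩
      · rw [hN, disjoint_right]
        exact fun y hy => hi.2 y hy
    have h4 : {i | f i = F8}.Infinite := by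
      intro hfin'
      have := hfin'.compl_mem_hyperfilter
      obtain ⟨i, h5, h6⟩ := (h3.and this).exists
      exact h6 h5
    exact h4 (Set.Subsingleton.finite fun i hi j hj => finj (hi.trans hj.symm))
  · obtain ⟨Y, hY, hNY, hlnk⟩ := hS.e1 N8 hN8fin
    obtain ⟨x0, hx0, hx0Y⟩ := (show F8.Infinite from hfin).exists_notMem_finite hY
    have hsub : Yᶜ ⊆ F8 := by
      intro y hy
      refine (hlnk x0 y hx0Y hy).mem_of_nb hx0 ?_
      rw [hN]
      exact disjoint_compl_left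
    have hWfin : (F8ᶜ).Finite := hY.subset (by rwa [compl_subset_comm])
    obtain ⟨S0, hS0, hTHk⟩ := hTH ρ V G r A hS (k + 1)
    have h1 : ∀ᶠ i in (hyperfilter ℕ : Filter ℕ), S0 \ F8ᶜ ⊆ f i :=
      ev_subset (hS0.subset sdiff_subset) fun x hx => by
        have := hx.2
        rw [notMem_compl_iff] at this
        exact this
    have h2 : ∀ᶠ i in (hyperfilter ℕ : Filter ℕ), nb G F8ᶜ ⊆ f i :=
      ev_subset (nb_finite hS.lf hWfin) fun x hx => by
        have := hx.1
        rw [notMem_compl_iff] at this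
        exact this
    obtain ⟨i, h3, h4⟩ := (h1.and h2).exists
    have h5 := hTHk (f i ∪ F8ᶜ) ((hp i).1.union hWfin) (by
      intro x hx
      by_cases h : x ∈ F8ᶜ
      · exact Or.inr h
      · exact Or.inl (h3 ⟨hx, h⟩))
    have h6 : nb G (f i ∪ F8ᶜ) ⊆ nb G (f i) := by
      rintro y ⟨hy, x, hx | hx, hxy⟩
      · exact ⟨fun h => hy (Or.inl h), x, hx, hxy⟩
      · exact absurd (Or.inl (h4 ⟨fun h => hy (Or.inr h), x, hx, hxy⟩)) hy
    have h7 := ncard_le_ncard h6 (nb_finite hS.lf (hp i).1)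
    have h8 := (hp i).2.2.1
    omega

end FsAux

open FsAux

theorem stmt_FS (hTH : Stmt_TH) : Stmt_FS := by
  classical
  intro ρ V G r A hS k S hSfin
  refine ⟨S ∪ ⋃ v ∈ S, ⋃ F ∈ {F : Set V | F.Finite ∧ Conn G F ∧ (nb G F).ncard ≤ k ∧
    v ∈ F ∪ nb G F}, (F ∪ nb G F), ?_, subset_union_left, ?_⟩
  · refine hSfin.union (hSfin.biUnion fun v _ => ?_)
    refine (fs_main hTH ρ V G r A hS k v).biUnion fun F hF => ?_
    exact hF.1.union (nb_finite hS.lf hF.1)
  · intro F hF hc hk hne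
    obtain ⟨v, hv, hvS⟩ := hne
    refine Subset.trans ?_ subset_union_right
    refine Subset.trans ?_ (subset_biUnion_of_mem hvS)
    exact subset_biUnion_of_mem (u := fun F : Set V => F ∪ nb G F) ⟨hF, hc, hk, hv⟩

end Pool.Agent.Work.MP_216d61_lc
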