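import Pool.Agent.Work.MP_216d61_lc_full.Base1

/-!
# The crossing lemma, case 0
-/

set_option autoImplicit false

namespace Pool.Agent.Work.MP_216d61_lc

open Relation Set

namespace GC0Aux

theorem core {V : Type} {G : SimpleGraph V} {v p q r t : V} {X : Set V} (hX : Conn G X)
    (hp : p ∈ nb G X) (hr : r ∈ nb G X) (hq : G.Adj v q) (ht : G.Adj v t) (hvX : v ∉ X)
    (hqX : q ∉ X) (htX : t ∉ X) (hvp : v ≠ p) (hvr : v ≠ r) (hqp : q ≠ p) (hqr : q ≠ r)
    (htp : t ≠ p) (htr : t ≠ r) :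
    ∃ A B : Set V, Conn G A ∧ Conn G B ∧ Disjoint A B ∧ p ∈ A ∧ r ∈ A ∧ q ∈ B ∧ t ∈ B := by
  obtain ⟨_, x, hx, hxp⟩ := hp
  obtain ⟨_, y, hy, hyr⟩ := hr
  have h1 : Conn G (insert r (insert p X)) :=
    (hX.insert_adj hx hxp).insert_adj (x := y) (Or.inr hy) hyr
  have h2 : Conn G (insert t (insert q {v})) :=
    ((conn_singleton v).insert_adj (mem_singleton v) hq).insert_adj (x := v) (Or.inr rfl) ht
  refine ⟨_, _, h1, h2, ?_, Or.inr (Or.inl rfl), Or.inl rfl, Or.inr (Or.inl rfl), Or.inl rfl⟩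
  rw [disjoint_left]
  rintro z (rfl | rfl | hz) (hz' | hz' | hz')
  · exact htr hz'.symm
  · exact hqr hz'.symm
  · exact hvr (mem_singleton_iff.1 hz').symm
  · exact htp hz'.symm
  · exact hqp hz'.symm
  · exact hvp (mem_singleton_iff.1 hz').symm
  · exact htX (hz' ▸ hz)
  · exact hqX (hz' ▸ hz)
  · exact hvX (mem_singleton_iff.1 hz' ▸ hz)

end GC0Aux

open GC0Aux in
/-- Case 0 of the crossing lemma: all terminals are neighbours of `v`. -/
theorem gc0 (V : Type) [Finite V] (G : SimpleGraph V) (v : V) (s : Fin 4 → V)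
    (hinj : Function.Injective s) (hsv : ∀ i, s i ≠ v) (hΘ : ∀ i, G.Adj v (s i))
    (WF3 : ∀ h, G.Adj v h → (∀ i, h ≠ s i) → ∀ Z : Set V, Z.ncard ≤ 2 → v ∉ Z → h ∉ Z →
      ∃ i, Lnk G ({v} ∪ Z)ᶜ h (s i))
    (NE : ∃ h, G.Adj v h ∧ ∀ i, h ≠ s i) :
    ∃ A B : Set V, Conn G A ∧ Conn G B ∧ Disjoint A B ∧ s 0 ∈ A ∧ s 2 ∈ A ∧ s 1 ∈ B ∧
      s 3 ∈ B := by
  classical
  obtain ⟨h, hvh, hhs⟩ := NE
  set U : Set V := ({v} ∪ range s)ᶜ with hU
  have hhU : h ∈ U := by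
    rintro (h1 | ⟨i, h1⟩)
    · exact G.ne_of_adj hvh (mem_singleton_iff.1 h1).symm
    · exact hhs i h1.symm
  set X := cmp G U h with hX
  have hXc : Conn G X := conn_cmp hhU
  have hXU : X ⊆ U := cmp_subset
  have hvX : v ∉ X := fun h1 => hXU h1 (Or.inl rfl)
  have hsX : ∀ i, s i ∉ X := fun i h1 => hXU h1 (Or.inr ⟨i, rfl⟩)
  set N : Set V := nb G X \ {v} with hN
  have hNs : ∀ x ∈ N, ∃ i, s i = x := by
    rintro x ⟨hx, hxv⟩
    have := nb_cmp hx
    rw [hU, compl_compl] at this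
    rcases this with h1 | h1
    · exact absurd h1 hxv
    · exact h1
  have hcard : ¬ N.ncard ≤ 2 := by
    intro hc
    obtain ⟨i, hi⟩ := WF3 h hvh hhs N hc (fun h1 => h1.2 rfl)
      (fun h1 => h1.1.1 (self_mem_cmp hhU))
    refine hsX i (hi.mem_of_nb (self_mem_cmp hhU) ?_)
    rw [disjoint_left]
    intro x hx hx'
    by_cases hxv : x = v
    · exact hx (Or.inl hxv)
    · exact hx (Or.inr ⟨hx', hxv⟩)
  have hpair : ∀ a b : V, N ⊆ {a, b} → False := by
    intro a b hab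
    apply hcard
    have h2 : ({a, b} : Set V).ncard ≤ 2 := by
      have := ncard_insert_le a {b}
      rwa [ncard_singleton] at this
    exact (ncard_le_ncard hab (by simp)).trans h2
  have hne : ∀ i j, i ≠ j → s i ≠ s j := fun i j hij he => hij (hinj he)
  by_cases h02 : s 0 ∈ N ∧ s 2 ∈ N
  · exact core hXc h02.1.1 h02.2.1 (hΘ 1) (hΘ 3) hvX (hsX 1) (hsX 3) (hsv 0).symm (hsv 2).symm
      (hne _ _ (by decide)) (hne _ _ (by decide)) (hne _ _ (by decide)) (hne _ _ (by decide))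
  by_cases h13 : s 1 ∈ N ∧ s 3 ∈ N
  · obtain ⟨A, B, h1, h2, h3, h4, h5, h6, h7⟩ := core hXc h13.1.1 h13.2.1 (hΘ 0) (hΘ 2) hvX
      (hsX 0) (hsX 2) (hsv 1).symm (hsv 3).symm
      (hne _ _ (by decide)) (hne _ _ (by decide)) (hne _ _ (by decide)) (hne _ _ (by decide))
    exact ⟨B, A, h2, h1, h3.symm, h6, h7, h4, h5⟩
  exfalso
  rw [not_and_or] at h02 h13
  rcases h02 with h02 | h02 <;> rcases h13 with h13 | h13
  · refine hpair (s 2) (s 3) ?_
    intro x hx
    obtain ⟨i, rfl⟩ := hNs x hx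
    fin_cases i
    · exact absurd hx h02
    · exact absurd hx h13
    · simp
    · simp
  · refine hpair (s 2) (s 1) ?_
    intro x hx
    obtain ⟨i, rfl⟩ := hNs x hx
    fin_cases i
    · exact absurd hx h02
    · simp
    · simp
    · exact absurd hx h13
  · refine hpair (s 0) (s 3) ?_
    intro x hx
    obtain ⟨i, rfl⟩ := hNs x hx
    fin_cases i
    · simp
    · exact absurd hx h13
    · exact absurd hx h02
    · simp
  · refine hpair (s 0) (s 1) ?_
    intro x hx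
    obtain ⟨i, rfl⟩ := hNs x hx
    fin_cases i
    · simp
    · simp
    · exact absurd hx h02
    · exact absurd hx h13

end Pool.Agent.Work.MP_216d61_lc
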