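import Pool.Agent.Work.MP_216d61_lc_full.Base1

/-!
# The crossing lemma, case 1c
-/

set_option autoImplicit false

namespace Pool.Agent.Work.MP_216d61_lc

open Relation Set

namespace GC1cAux

/-- `G` without the edges at `v` and `w` -/
def del {V : Type} (G : SimpleGraph V) (v w : V) : SimpleGraph V where
  Adj a b := G.Adj a b ∧ a ≠ v ∧ b ≠ v ∧ a ≠ w ∧ b ≠ w
  symm := ⟨fun _ _ h => ⟨h.1.symm, h.2.2.1, h.2.1, h.2.2.2.2, h.2.2.2.1⟩⟩
  loopless := ⟨fun a h => G.loopless.irrefl a h.1⟩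

theorem conn_of_del {V : Type} {G : SimpleGraph V} {v w : V} {A : Set V}
    (h : Conn (del G v w) A) : Conn G A := by
  refine ⟨h.1, fun x hx y hy => ReflTransGen.mono ?_ _ _ (h.2 x hx y hy)⟩
  exact fun a b hab => ⟨hab.1.1, hab.2⟩

theorem not_mem_of_del {V : Type} {G : SimpleGraph V} {v w x y : V} {A : Set V}
    (h : Conn (del G v w) A) (hx : x ∈ A) (hxy : x ≠ y) (hy : y = v ∨ y = w) : y ∉ A := by
  intro hyA
  obtain h1 | ⟨c, h1, _⟩ := (h.2 y hyA x hx).cases_head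
  · exact hxy h1.symm
  · rcases hy with rfl | rfl
    · exact h1.1.2.1 rfl
    · exact h1.1.2.2.2.1 rfl

end GC1cAux

open GC1cAux in
/-- Case 1c of the crossing lemma. -/
theorem gc1c (hLB : Stmt_LB) (V : Type) [Finite V] (G : SimpleGraph V) (v : V) (s : Fin 4 → V)
    (hinj : Function.Injective s) (hsv : ∀ i, s i ≠ v)
    (LD : ∀ h, G.Adj v h → (∀ i, h ≠ s i) → 3 ≤ {y | G.Adj v y ∧ G.Adj h y}.ncard)
    (WF3 : ∀ h, G.Adj v h → (∀ i, h ≠ s i) → ∀ Z : Set V, Z.ncard ≤ 2 → v ∉ Z → h ∉ Z →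
      ∃ i, Lnk G ({v} ∪ Z)ᶜ h (s i))
    (NE : ∃ h, G.Adj v h ∧ ∀ i, h ≠ s i) (h0 : G.Adj v (s 0))
    (hna : ∀ y, y ≠ v → (∀ i, y ≠ s i) → ¬ G.Adj (s 0) y) :
    ∃ A B : Set V, Conn G A ∧ Conn G B ∧ Disjoint A B ∧ s 0 ∈ A ∧ s 2 ∈ A ∧ s 1 ∈ B ∧
      s 3 ∈ B := by
  classical
  have hne : ∀ i j, i ≠ j → s i ≠ s j := fun i j hij he => hij (hinj he)
  set G' := del G v (s 0) with hG'
  set Lk0 : Set V := {y | G.Adj v y ∧ y ≠ s 0} with hLk0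
  have hall : ∀ h : V, h ≠ s 0 → h ≠ s 1 → h ≠ s 2 → h ≠ s 3 → ∀ i, h ≠ s i := by
    intro h a0 a1 a2 a3 i
    fin_cases i
    exacts [a0, a1, a2, a3]
  have hmain : ∃ A B : Set V, Conn G' A ∧ Conn G' B ∧ Disjoint A B ∧ s 1 ∈ A ∧ s 3 ∈ A ∧
      s 2 ∈ B ∧ (B ∩ Lk0).Nonempty := by
    refine hLB V G' (s 1) (s 2) (s 3) Lk0 (hne _ _ (by decide)) (hne _ _ (by decide))
      (hne _ _ (by decide)) ?_ ?_ ?_
    · rintro h ⟨hvh, hh0⟩ a1 a2 a3
      have hs := hall h hh0 a1 a2 a3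
      have hhv : h ≠ v := (G.ne_of_adj hvh).symm
      refine (LD h hvh hs).trans (ncard_le_ncard ?_ (Set.toFinite _))
      rintro z ⟨hvz, hhz⟩
      have hz0 : z ≠ s 0 := by
        rintro rfl
        exact hna h hhv hs hhz.symm
      exact ⟨⟨hvz, hz0⟩, hhz, hhv, (G.ne_of_adj hvz).symm, hh0, hz0⟩
    · rintro h ⟨hvh, hh0⟩ a1 a2 a3 Z hZ hhZ
      have hs := hall h hh0 a1 a2 a3
      obtain ⟨i, hi⟩ := WF3 h hvh hs (Z \ {v}) ((ncard_le_ncard sdiff_subset (Set.toFinite _)).trans hZ)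
        (fun e => e.2 rfl) (fun e => hhZ e.1)
      obtain ⟨z, w, hz, hzw, ⟨j, rfl⟩, hwS⟩ := hi.hitSet (T := range s)
        (by rintro ⟨j, hj⟩; exact hs j hj.symm) ⟨i, rfl⟩
      have hzm := hz.mem_right
      have hzv : z ≠ v := fun e => hzm.1 (Or.inl e)
      have hzs : ∀ i, z ≠ s i := fun i e => hzm.2 ⟨i, e.symm⟩
      have hj : j ≠ 0 := by
        rintro rfl
        exact hna z hzv hzs hzw.symm
      have hsub : (({v} ∪ Z \ {v})ᶜ \ range s : Set V) ⊆ Zᶜ := by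
        rintro x ⟨hx, _⟩ hxZ
        by_cases hxv : x = v
        · exact hx (Or.inl hxv)
        · exact hx (Or.inr ⟨hxZ, hxv⟩)
      have hlink : Lnk G' Zᶜ h z := by
        refine ⟨hhZ, ReflTransGen.mono ?_ _ _ hz.2⟩
        rintro a b ⟨hab, ha, hb⟩
        exact ⟨⟨hab, fun e => ha.1 (Or.inl e), fun e => hb.1 (Or.inl e),
          fun e => ha.2 ⟨0, e.symm⟩, fun e => hb.2 ⟨0, e.symm⟩⟩, hsub ha, hsub hb⟩
      have hwZ : s j ∈ Zᶜ := by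
        intro hjZ
        exact hwS (Or.inr ⟨hjZ, hsv j⟩)
      refine ⟨s j, ?_, hlink.step ⟨hzw, hzv, hsv j, hzs 0, hne _ _ hj⟩ hwZ⟩
      fin_cases j
      · exact absurd rfl hj
      · exact Or.inl rfl
      · exact Or.inr (Or.inl rfl)
      · exact Or.inr (Or.inr rfl)
    · obtain ⟨h, hvh, hs⟩ := NE
      exact ⟨h, ⟨hvh, hs 0⟩, hs 1, hs 2, hs 3⟩
  obtain ⟨A0, B0, hA, hB, hd, h1, h3, h2, y, hyB, hyL⟩ := hmain
  refine ⟨insert (s 0) (insert v B0), A0, ?_, conn_of_del hA, ?_, Or.inl rfl,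
    Or.inr (Or.inr h2), h1, h3⟩
  · exact ((conn_of_del hB).insert_adj hyB hyL.1.symm).insert_adj (x := v) (Or.inl rfl) h0
  · rw [disjoint_left]
    rintro z (rfl | rfl | hz) hz'
    · exact not_mem_of_del hA h1 (hne _ _ (by decide)) (Or.inr rfl) hz'
    · exact not_mem_of_del hA h1 (hsv 1) (Or.inl rfl) hz'
    · exact disjoint_left.1 hd hz' hz

end Pool.Agent.Work.MP_216d61_lc
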