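import Pool.Agent.Work.MP_216d61_lc_full.GCb
import Pool.Agent.Work.MP_216d61_lc_full.GC0
import Pool.Agent.Work.MP_216d61_lc_full.GC1c

/-!
# Block GC: the crossing lemma (helper82, helper63)
-/

set_option autoImplicit false

namespace Pool.Agent.Work.MP_216d61_lc

theorem stmt_GC (hLB : Stmt_LB) : Stmt_GC :=
  stmt_GC_aux (fun V _ G v s h hΘ => gc0 V G v s h.inj h.ne hΘ h.wf h.nt)
    (fun V _ G v s h h0 hna => gc1c hLB V G v s h.inj h.ne h.ld h.wf h.nt h0 hna)

end Pool.Agent.Work.MP_216d61_lc
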