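import Pool.Agent.Work.MP_216d61_lc_full.MEN

/-!
# Block GC, part 1: separations (helper82)
-/

set_option autoImplicit false

namespace Pool.Agent.Work.MP_216d61_lc

open Relation Set MenAux

namespace GCx

/-- the hypotheses of the crossing lemma -/
structure Hyp {V : Type} (G : SimpleGraph V) (v : V) (s : Fin 4 → V) : Prop where
  inj : Function.Injective s
  ne : ∀ i, s i ≠ v
  ld : ∀ h, G.Adj v h → (∀ i, h ≠ s i) → 3 ≤ {y | G.Adj v y ∧ G.Adj h y}.ncard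
  wf : ∀ h, G.Adj v h → (∀ i, h ≠ s i) → ∀ Z : Set V, Z.ncard ≤ 2 → v ∉ Z → h ∉ Z →
    ∃ i, Lnk G ({v} ∪ Z)ᶜ h (s i)
  m4 : ∀ Z : Set V, Z.ncard ≤ 3 → v ∉ Z → ∃ h, G.Adj v h ∧ ∃ i, Lnk G ({v} ∪ Z)ᶜ h (s i)
  nt : ∃ h, G.Adj v h ∧ ∀ i, h ≠ s i

/-- the conclusion of the crossing lemma -/
def Cross {V : Type} (G : SimpleGraph V) (s : Fin 4 → V) : Prop :=
  ∃ A B : Set V, Conn G A ∧ Conn G B ∧ Disjoint A B ∧ s 0 ∈ A ∧ s 2 ∈ A ∧ s 1 ∈ B ∧ s 3 ∈ B

variable {V : Type} {G : SimpleGraph V} {v : V} {s : Fin 4 → V}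

theorem Hyp.perm (h : Hyp G v s) (e : Equiv.Perm (Fin 4)) : Hyp G v (s ∘ e) := by
  have key : ∀ x : V, (∀ i, x ≠ (s ∘ e) i) → ∀ i, x ≠ s i := by
    intro x hx i
    have := hx (e.symm i)
    simpa using this
  refine ⟨h.inj.comp e.injective, fun i => h.ne _, fun x hx hx' => h.ld x hx (key x hx'),
    fun x hx hx' Z h1 h2 h3 => ?_, fun Z h1 h2 => ?_, ?_⟩
  · obtain ⟨i, hi⟩ := h.wf x hx (key x hx') Z h1 h2 h3
    exact ⟨e.symm i, by simpa using hi⟩
  · obtain ⟨x, hx, i, hi⟩ := h.m4 Z h1 h2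
    exact ⟨x, hx, e.symm i, by simpa using hi⟩
  · obtain ⟨x, hx, hx'⟩ := h.nt
    exact ⟨x, hx, fun i => hx' _⟩

/-- separations of `G - v - T` (given by two covering sets) -/
structure Spn (G : SimpleGraph V) (v : V) (s : Fin 4 → V) (T A B : Set V) : Prop where
  cov : ∀ x, (x ∈ A ∨ x ∈ B) ↔ (x ≠ v ∧ x ∉ T)
  tm : ∀ i, i ≠ 0 → s i ∈ A
  lk : ∀ h, G.Adj v h → h ∉ T → h ∈ B
  ne : ∀ a ∈ A, a ∉ B → ∀ b ∈ B, b ∉ A → ¬ G.Adj a b

/-- admissible sets -/
structure Adm (G : SimpleGraph V) (v : V) (s : Fin 4 → V) (T : Set V) : Prop where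
  con : Conn G T
  s0 : s 0 ∈ T
  si : ∀ i, i ≠ 0 → s i ∉ T
  vT : v ∉ T
  sep : ∀ A B, Spn G v s T A B → 3 ≤ (A ∩ B).ncard

variable {T A B : Set V}

theorem Spn.subA (h : Spn G v s T A B) {x : V} (hx : x ∈ A) : x ≠ v ∧ x ∉ T :=
  (h.cov x).1 (Or.inl hx)

theorem Spn.subB (h : Spn G v s T A B) {x : V} (hx : x ∈ B) : x ≠ v ∧ x ∉ T :=
  (h.cov x).1 (Or.inr hx)

/-- the first corner -/
theorem Spn.corner {A' B' : Set V} (h : Spn G v s T A B) (h' : Spn G v s T A' B') :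
    Spn G v s T (A ∪ A') (B ∩ B') := by
  refine ⟨fun x => ?_, fun i hi => Or.inl (h.tm i hi), fun x hx hx' => ⟨h.lk x hx hx',
    h'.lk x hx hx'⟩, ?_⟩
  · have h1 := h.cov x
    have h2 := h'.cov x
    simp only [mem_union, mem_inter_iff]
    tauto
  · rintro a ha haB b ⟨hb, hb'⟩ hbA hab
    simp only [mem_union, mem_inter_iff, not_or, not_and] at haB hbA
    by_cases haB1 : a ∈ B
    · have haB2 := haB haB1
      have h1 := (h.cov a).1 (Or.inr haB1)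
      have haA' : a ∈ A' := ((h'.cov a).2 h1).resolve_right haB2
      exact h'.ne a haA' haB2 b hb' hbA.2 hab
    · have haA : a ∈ A := by
        rcases ha with ha | ha
        · exact ha
        · exact ((h.cov a).2 ((h'.cov a).1 (Or.inl ha))).resolve_right haB1
      exact h.ne a haA haB1 b hb hbA.1 hab

/-- the second corner -/
theorem Spn.corner' {A' B' : Set V} (h : Spn G v s T A B) (h' : Spn G v s T A' B') :
    Spn G v s T (A ∩ A') (B ∪ B') := by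
  refine ⟨fun x => ?_, fun i hi => ⟨h.tm i hi, h'.tm i hi⟩, fun x hx hx' => Or.inl
    (h.lk x hx hx'), ?_⟩
  · have h1 := h.cov x
    have h2 := h'.cov x
    simp only [mem_union, mem_inter_iff]
    tauto
  · rintro a ⟨ha, ha'⟩ haB b hb hbA hab
    simp only [mem_union, mem_inter_iff, not_or, not_and] at haB hbA
    by_cases hbA1 : b ∈ A
    · have hbA2 := hbA hbA1
      have h1 := (h.cov b).1 (Or.inl hbA1)
      have hbB' : b ∈ B' := ((h'.cov b).2 h1).resolve_left hbA2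
      exact h'.ne a ha' haB.2 b hbB' hbA2 hab
    · have hbB : b ∈ B := by
        rcases hb with hb | hb
        · exact hb
        · exact ((h.cov b).2 ((h'.cov b).1 (Or.inr hb))).resolve_left hbA1
      exact h.ne a ha haB.1 b hbB hbA1 hab

theorem corner_card [Finite V] (A B A' B' : Set V) :
    ((A ∪ A') ∩ (B ∩ B')).ncard + ((A ∩ A') ∩ (B ∪ B')).ncard ≤
      (A ∩ B).ncard + (A' ∩ B').ncard := by
  have h1 := ncard_union_add_ncard_inter ((A ∪ A') ∩ (B ∩ B')) ((A ∩ A') ∩ (B ∪ B'))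
    (toFinite _) (toFinite _)
  have h2 := ncard_union_add_ncard_inter (A ∩ B) (A' ∩ B') (toFinite _) (toFinite _)
  rw [← h1, ← h2]
  refine Nat.add_le_add (ncard_le_ncard ?_ (toFinite _)) (ncard_le_ncard ?_ (toFinite _))
  · intro x hx
    simp only [mem_union, mem_inter_iff] at hx ⊢
    tauto
  · intro x hx
    simp only [mem_union, mem_inter_iff] at hx ⊢
    tauto

/-- the separation given by a separating set -/
theorem spn_of (hT : ∀ i, i ≠ 0 → s i ∉ T) (hne : ∀ i, s i ≠ v) (Z : Set V)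
    (hZ : ∀ x ∈ Z, x ≠ v ∧ x ∉ T)
    (h : ∀ i, i ≠ 0 → ∀ h, G.Adj v h → h ∉ T → ¬ Lnk G {x | (x ≠ v ∧ x ∉ T) ∧ x ∉ Z} (s i) h) :
    ∃ A B, Spn G v s T A B ∧ A ∩ B = Z := by
  set R : Set V := {x | ∃ i, i ≠ 0 ∧ Lnk G {x | (x ≠ v ∧ x ∉ T) ∧ x ∉ Z} (s i) x} with hR
  have hRW : ∀ x ∈ R, (x ≠ v ∧ x ∉ T) ∧ x ∉ Z := by
    rintro x ⟨i, hi, hx⟩
    have h1 := lnk_right hx
    exact h1
  refine ⟨Z ∪ R, {x | (x ≠ v ∧ x ∉ T) ∧ x ∉ R}, ⟨fun x => ?_, fun i hi => ?_, fun x hx hx' => ?_,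
    fun a ha haB b hb hbA hab => ?_⟩, ?_⟩
  · have h1 := hRW x
    have h2 := hZ x
    simp only [mem_union, mem_setOf_eq]
    tauto
  · by_cases hsZ : s i ∈ Z
    · exact Or.inl hsZ
    · exact Or.inr ⟨i, hi, lnk_refl ⟨⟨hne i, hT i hi⟩, hsZ⟩⟩
  · refine ⟨⟨hx.ne', hx'⟩, ?_⟩
    rintro ⟨i, hi, hl⟩
    exact h i hi x hx hx' hl
  · have haR : a ∈ R := by
      by_contra haR
      rcases ha with ha | ha
      · exact haB ⟨hZ a ha, haR⟩
      · exact haR ha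
    simp only [mem_union, not_or] at hbA
    obtain ⟨i, hi, hl⟩ := haR
    exact hbA.2 ⟨i, hi, lnk_step hl hab ⟨hb.1, hbA.1⟩⟩
  · ext x
    have h1 := hRW x
    have h2 := hZ x
    simp only [mem_union, mem_inter_iff, mem_setOf_eq]
    tauto

/-- the separation with `A` equal to the three terminals -/
theorem spn_triv (hne : ∀ i, s i ≠ v) (hT : ∀ i, i ≠ 0 → s i ∉ T) :
    Spn G v s T {x | ∃ i, i ≠ 0 ∧ s i = x} {x | x ≠ v ∧ x ∉ T} := by
  refine ⟨fun x => ?_, fun i hi => ⟨i, hi, rfl⟩, fun x hx hx' => ⟨hx.ne', hx'⟩, ?_⟩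
  · constructor
    · rintro (⟨i, hi, rfl⟩ | hx)
      · exact ⟨hne i, hT i hi⟩
      · exact hx
    · exact fun hx => Or.inr hx
  · rintro a ⟨i, hi, rfl⟩ haB
    exact absurd ⟨hne i, hT i hi⟩ haB

theorem term_card (hinj : Function.Injective s) : {x : V | ∃ i, i ≠ 0 ∧ s i = x}.ncard = 3 := by
  have : {x : V | ∃ i, i ≠ 0 ∧ s i = x} = range fun j : Fin 3 => s j.succ := by
    ext x
    constructor
    · rintro ⟨i, hi, rfl⟩
      obtain ⟨j, rfl⟩ := Fin.exists_succ_eq.2 hi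
      exact ⟨j, rfl⟩
    · rintro ⟨j, rfl⟩
      exact ⟨j.succ, Fin.succ_ne_zero j, rfl⟩
  rw [this]
  exact (ncard_range_of_injective (f := fun j : Fin 3 => s j.succ)
    (hinj.comp (Fin.succ_injective 3))).trans (Nat.card_fin 3)

theorem adm_base [Finite V] (h : Hyp G v s) : Adm G v s {s 0} := by
  refine ⟨conn_singleton _, rfl, fun i hi hs => hi (h.inj hs), fun hv => h.ne 0 hv.symm, ?_⟩
  intro A B hAB
  by_contra hlt
  push Not at hlt
  have hc : (insert (s 0) (A ∩ B)).ncard ≤ 3 := by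
    have := ncard_insert_le (s 0) (A ∩ B)
    omega
  obtain ⟨x, hx, i, hi⟩ := h.m4 (insert (s 0) (A ∩ B)) hc (by
    rintro (h1 | h1)
    · exact h.ne 0 h1.symm
    · exact (hAB.subA h1.1).1 rfl)
  have hi0 : i ≠ 0 := by
    rintro rfl
    exact lnk_right hi (Or.inr (mem_insert _ _))
  have hx0 : x ∉ ({s 0} : Set V) := by
    rintro rfl
    exact hi.1 (Or.inr (mem_insert _ _))
  have hxB := hAB.lk x hx hx0
  have hxA : x ∉ A := fun h1 => hi.1 (Or.inr (mem_insert_of_mem _ ⟨h1, hxB⟩))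
  obtain ⟨a, b, ha, hb, hab, ha', hb'⟩ := lnk_cross (A := A) (lnk_symm hi) (hAB.tm i hi0) hxA
  have haB : a ∉ B := fun h1 => ha' (Or.inr (mem_insert_of_mem _ ⟨ha, h1⟩))
  have hbB : b ∈ B := by
    refine ((hAB.cov b).2 ⟨fun h1 => hb' (Or.inl h1), fun h1 => ?_⟩).resolve_left hb
    rw [mem_singleton_iff] at h1
    exact hb' (Or.inr (by rw [h1]; exact mem_insert _ _))
  exact hAB.ne a ha haB b hbB hb hab

/-- a link from `B` to the outside of `Y = B \ A` meets `A ∩ B` -/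
theorem to_Z (hAB : Spn G v s T A B)
    (hY : ∀ a ∈ B, a ∉ A → ∀ b, G.Adj a b → b ≠ v → b ∈ B) {S : Set V} (hvS : v ∉ S) {x y : V}
    (hx : x ∈ B) (hy : ¬ (y ∈ B ∧ y ∉ A)) (hxy : Lnk G S x y) :
    ∃ z, z ∈ A ∧ z ∈ B ∧ Lnk G (B ∩ S) x z := by
  by_contra hcon
  push Not at hcon
  have hC : ∀ w, Lnk G (B ∩ S) x w → w ∈ B ∧ w ∉ A := by
    intro w hw
    have h1 := (lnk_right hw).1
    exact ⟨h1, fun h2 => hcon w h2 h1 hw⟩
  obtain ⟨a, b, ha, hb, hab, haS, hbS⟩ := lnk_cross (A := {w | Lnk G (B ∩ S) x w}) hxy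
    (lnk_refl ⟨hx, hxy.1⟩) (fun h1 => hy (hC _ h1))
  have h1 := hC a ha
  have hbB := hY a h1.1 h1.2 b hab (by rintro rfl; exact hvS hbS)
  exact hb (lnk_step ha hab ⟨hbB, hbS⟩)

/-- the part of a connected set in `A` is connected if it meets `A ∩ B` in one point -/
theorem conn_part {D : Set V} (hD : Conn G D) (hDW : ∀ x ∈ D, x ∈ A ∨ x ∈ B)
    (hne : ∀ a ∈ A, a ∉ B → ∀ b ∈ B, b ∉ A → ¬ G.Adj a b) {z : V} (hzD : z ∈ D) (hzA : z ∈ A)
    (hz : ∀ x ∈ D, x ∈ A → x ∈ B → x = z) : Conn G (D ∩ A) := by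
  refine conn_of_center (x0 := z) ⟨hzD, hzA⟩ ?_
  rintro x ⟨hxD, hxA⟩
  by_contra hcon
  have hC : ∀ w, Lnk G (D ∩ A) x w → w ∉ B := by
    intro w hw hwB
    have h1 := lnk_right hw
    have h2 := hz w h1.1 h1.2 hwB
    subst h2
    exact hcon hw.2
  obtain ⟨a, b, ha, hb, hab, haS, hbS⟩ := lnk_cross (A := {w | Lnk G (D ∩ A) x w})
    (conn_lnk hD hxD hzD) (lnk_refl ⟨hxD, hxA⟩) (fun h1 => hcon h1.2)
  have haA := (lnk_right ha).2
  have hbA : b ∉ A := fun h1 => hb (lnk_step ha hab ⟨hbS, h1⟩)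
  exact hne a haA (hC a ha) b ((hDW b hbS).resolve_left hbA) hbA hab

/-- the data of case 1 -/
structure Dat (G : SimpleGraph V) (v : V) (s : Fin 4 → V) (T A B : Set V)
    (P : Fin 3 → Set V) (z : Fin 3 → V) : Prop where
  adm : Adm G v s T
  spn : Spn G v s T A B
  c3 : (A ∩ B).ncard = 3
  hY : ∀ a ∈ B, a ∉ A → ∀ b, G.Adj a b → b ≠ v → b ∈ B
  hT : ∃ t ∈ T, G.Adj v t
  pW : ∀ j, ∀ x ∈ P j, x ≠ v ∧ x ∉ T
  pc : ∀ j, Conn G (P j)
  pd : ∀ i j, i ≠ j → Disjoint (P i) (P j)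
  ps : ∀ j : Fin 3, s j.succ ∈ P j
  pq : ∀ j, ∃ h ∈ P j, G.Adj v h
  zP : ∀ j, z j ∈ P j
  zA : ∀ j, z j ∈ A
  zB : ∀ j, z j ∈ B
  zinj : Function.Injective z
  zr : ∀ x, x ∈ A → x ∈ B → ∃ j, z j = x

theorem exists_dat [Finite V] (h : Hyp G v s) :
    ∃ (T A B : Set V) (P : Fin 3 → Set V) (z : Fin 3 → V), Dat G v s T A B P z := by
  classical
  obtain ⟨T, hT, hmax⟩ := exists_max_image {T : Set V | Adm G v s T} (fun T => T.ncard)
    (toFinite _) ⟨_, adm_base h⟩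
  have hT : Adm G v s T := hT
  obtain ⟨⟨A, B⟩, ⟨hAB, hc3⟩, hmin⟩ := exists_min_image
    {p : Set V × Set V | Spn G v s T p.1 p.2 ∧ (p.1 ∩ p.2).ncard = 3}
    (fun p => (p.2 \ p.1).ncard) (toFinite _) (by
      refine ⟨⟨_, _⟩, spn_triv h.ne hT.si, ?_⟩
      change (({x | ∃ i, i ≠ 0 ∧ s i = x} : Set V) ∩ {x | x ≠ v ∧ x ∉ T}).ncard = 3
      rw [inter_eq_left.2]
      · exact term_card h.inj
      · rintro x ⟨i, hi, rfl⟩
        exact ⟨h.ne i, hT.si i hi⟩)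
  have hAB : Spn G v s T A B := hAB
  have hc3 : (A ∩ B).ncard = 3 := hc3
  -- the minimal side
  have hminY : ∀ A' B', Spn G v s T A' B' → (A' ∩ B').ncard = 3 → ∀ y ∈ B, y ∉ A →
      y ∈ B' ∧ y ∉ A' := by
    intro A' B' hS' hc' y hyB hyA
    have h1 := hT.sep _ _ (hAB.corner hS')
    have h2 := hT.sep _ _ (hAB.corner' hS')
    have h3 := corner_card A B A' B'
    have h4 := hmin (A ∪ A', B ∩ B') ⟨hAB.corner hS', by dsimp only; omega⟩
    dsimp only at h4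
    have h5 : (B ∩ B') \ (A ∪ A') = B \ A := by
      refine eq_of_subset_of_ncard_le ?_ h4 (toFinite _)
      rintro x ⟨hx1, hx2⟩
      exact ⟨hx1.1, fun h => hx2 (Or.inl h)⟩
    have h6 : y ∈ (B ∩ B') \ (A ∪ A') := by rw [h5]; exact ⟨hyB, hyA⟩
    exact ⟨h6.1.2, fun h => h6.2 (Or.inr h)⟩
  -- (a)
  have hYT : ∀ y ∈ B, y ∉ A → ∀ t ∈ T, ¬ G.Adj y t := by
    intro y hyB hyA t ht hyt
    have hyW := hAB.subB hyB
    have hnot : ¬ Adm G v s (insert y T) := by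
      intro hA'
      have h1 := hmax _ hA'
      rw [ncard_insert_of_notMem hyW.2 (toFinite _)] at h1
      omega
    have hsi : ∀ i, i ≠ 0 → s i ∉ insert y T := by
      rintro i hi (h1 | h1)
      · exact hyA (h1 ▸ hAB.tm i hi)
      · exact hT.si i hi h1
    have hvy : v ∉ insert y T := by
      rintro (h1 | h1)
      · exact hyW.1 h1.symm
      · exact hT.vT h1
    have hcon : Conn G (insert y T) := by
      rw [insert_eq]
      exact conn_union_adj (conn_singleton y) hT.con rfl ht hyt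
    have hex : ∃ A' B', Spn G v s (insert y T) A' B' ∧ (A' ∩ B').ncard < 3 := by
      by_contra hno
      push Not at hno
      exact hnot ⟨hcon, mem_insert_of_mem _ hT.s0, hsi, hvy, hno⟩
    obtain ⟨A', B', hS', hc'⟩ := hex
    have hS2 : Spn G v s T (insert y A') (insert y B') := by
      refine ⟨fun x => ?_, fun i hi => mem_insert_of_mem _ (hS'.tm i hi), fun x hx hx' => ?_, ?_⟩
      · have h1 := hS'.cov x
        simp only [mem_insert_iff] at h1 ⊢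
        by_cases hxy : x = y
        · subst hxy; tauto
        · tauto
      · by_cases hxy : x = y
        · exact Or.inl hxy
        · exact Or.inr (hS'.lk x hx (by simp only [mem_insert_iff]; tauto))
      · intro a ha haB b hb hbA hab
        simp only [mem_insert_iff, not_or] at ha haB hb hbA
        exact hS'.ne a (ha.resolve_left haB.1) haB.2 b (hb.resolve_left hbA.1) hbA.2 hab
    have hc2 : (insert y A' ∩ insert y B').ncard ≤ 3 := by
      rw [← insert_inter_distrib]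
      have := ncard_insert_le y (A' ∩ B')
      omega
    have hc4 := hT.sep _ _ hS2
    exact (hminY _ _ hS2 (by omega) y hyB hyA).2 (mem_insert _ _)
  have hY : ∀ a ∈ B, a ∉ A → ∀ b, G.Adj a b → b ≠ v → b ∈ B := by
    intro a haB haA b hab hbv
    by_contra hbB
    by_cases hbT : b ∈ T
    · exact hYT a haB haA b hbT hab
    · have hbA := ((hAB.cov b).2 ⟨hbv, hbT⟩).resolve_right hbB
      exact hAB.ne b hbA hbB a haB haA hab.symm
  have hvAB : v ∉ A ∩ B := fun h1 => (hAB.subA h1.1).1 rfl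
  -- (b)
  have hTl : ∃ t ∈ T, G.Adj v t := by
    by_contra hno
    push Not at hno
    obtain ⟨x, hx, i, hi⟩ := h.m4 (A ∩ B) hc3.le hvAB
    have hxT : x ∉ T := fun h1 => hno x h1 hx
    obtain ⟨w, hwA, hwB, hw⟩ := to_Z hAB hY (S := ({v} ∪ (A ∩ B))ᶜ)
      (fun h1 => h1 (Or.inl rfl)) (hAB.lk x hx hxT) (by
        rintro ⟨h1, h2⟩
        by_cases hi0 : i = 0
        · subst hi0
          exact (hAB.subB h1).2 hT.s0
        · exact h2 (hAB.tm i hi0)) hi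
    exact (lnk_right hw).2 (Or.inr ⟨hwA, hwB⟩)
  -- (c)
  set U : Set V := {x | x ≠ v ∧ x ∉ T} with hU
  have hmen := stmt_MEN V G U {x | ∃ i, i ≠ 0 ∧ s i = x} {x | G.Adj v x ∧ x ∉ T} 3 (toFinite _)
    (by rintro x ⟨i, hi, rfl⟩; exact ⟨h.ne i, hT.si i hi⟩)
    (by rintro x ⟨hx, hx'⟩; exact ⟨hx.ne', hx'⟩) (by
      intro Z hZU hZ
      by_contra hno
      push Not at hno
      obtain ⟨A', B', hS', hZ'⟩ := spn_of hT.si h.ne Z hZU (by
        intro i hi x hx hx' hl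
        exact hno (s i) ⟨i, hi, rfl⟩ x ⟨hx, hx'⟩ hl)
      have := hT.sep _ _ hS'
      rw [hZ'] at this
      omega)
  obtain ⟨D, hDU, hDc, hDd, hDP, hDQ⟩ := hmen
  -- the terminals in the sets
  have hτ : ∀ j, ∃ i : Fin 3, s i.succ ∈ D j := by
    intro j
    obtain ⟨x, hx, i, hi, rfl⟩ := hDP j
    obtain ⟨i', rfl⟩ := Fin.exists_succ_eq.2 hi
    exact ⟨i', hx⟩
  choose τ hτ using hτ
  have hτinj : Function.Injective τ := by
    intro j j' hjj
    by_contra hne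
    exact (disjoint_left.1 (hDd j j' hne)) (hτ j) (hjj ▸ hτ j')
  have hτsurj : Function.Surjective τ := Finite.surjective_of_injective hτinj
  choose κ hκ using hτsurj
  have hκinj : ∀ i j, i ≠ j → κ i ≠ κ j := by
    intro i j hij h1
    exact hij (by rw [← hκ i, ← hκ j, h1])
  have hzex : ∀ j, ∃ w ∈ D (κ j), w ∈ A ∧ w ∈ B := by
    intro j
    obtain ⟨x, hxD, hx, hxT⟩ := hDQ (κ j)
    have hsj : s j.succ ∈ D (κ j) := by have := hτ (κ j); rwa [hκ j] at this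
    have hsA := hAB.tm _ (Fin.succ_ne_zero j)
    have hxB := hAB.lk x hx hxT
    by_cases hxA : x ∈ A
    · exact ⟨x, hxD, hxA, hxB⟩
    · obtain ⟨a, b, ha, hb, hab, haS, hbS⟩ := lnk_cross (A := A)
        (conn_lnk (hDc (κ j)) hsj hxD) hsA hxA
      have hbB := ((hAB.cov b).2 (hDU _ hbS)).resolve_left hb
      by_cases haB : a ∈ B
      · exact ⟨a, haS, ha, haB⟩
      · exact absurd hab (hAB.ne a ha haB b hbB hb)
  choose z hzD hzA hzB using hzex
  have hzinj : Function.Injective z := by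
    intro i j hij
    by_contra hne
    exact (disjoint_left.1 (hDd _ _ (hκinj i j hne))) (hzD i) (hij ▸ hzD j)
  have hzr : range z = A ∩ B := by
    refine eq_of_subset_of_ncard_le ?_ ?_ (toFinite _)
    · rintro _ ⟨j, rfl⟩; exact ⟨hzA j, hzB j⟩
    · rw [hc3, ncard_range_of_injective hzinj, Nat.card_fin]
  refine ⟨T, A, B, fun j => D (κ j), z, hT, hAB, hc3, hY, hTl, fun j x hx => hDU _ hx,
    fun j => hDc _, fun i j hij => hDd _ _ (hκinj i j hij), fun j => ?_, fun j => ?_, hzD, hzA,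
    hzB, hzinj, fun x hxA hxB => ?_⟩
  · have := hτ (κ j); rwa [hκ j] at this
  · obtain ⟨x, hxD, hx, _⟩ := hDQ (κ j)
    exact ⟨x, hxD, hx⟩
  · have : x ∈ range z := by rw [hzr]; exact ⟨hxA, hxB⟩
    exact this

end GCx

end Pool.Agent.Work.MP_216d61_lc
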