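import Pool.Agent.Work.MP_216d61_lc_full.DEEP

/-!
# MP_216d61_lc full: block INF (helper36)
-/

set_option autoImplicit false

namespace Pool.Agent.Work.MP_216d61_lc

open Relation Set

open DeepAux RegAux in
/-- **Block INF** -/
theorem stmt_INF (hREG : Stmt_REG) (hDEEP : Stmt_DEEP) (hNEST : Stmt_NEST) (hCRS : Stmt_CRS) (hFLP : Stmt_FLP)
    (hMOV : Stmt_MOV) (hSWP : Stmt_SWP) : Stmt_INF := by
  intro ρ V G r A hs
  obtain ⟨T, hT⟩ := exists_nat_gt (2 * ρ + 1)
  obtain ⟨K, ray, S1, m, S0, l, g, hst, hm1, hm2, hS0, hReg⟩ := hREG ρ V G r A hs T hT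
  have hR := hst.rays
  apply hst.noT
  -- the exchange devices
  have hGad : ∀ S' : Set V, S'.Finite → Gad G K ray S' (m - 22) (m + 22) (m - 12) (m + 12) := by
    intro S' hS'
    obtain ⟨S'', hS'', hsub, hnest⟩ := hNEST ρ V G r A hs.toLim T K ray S1 hst (m - 12) (m + 12) (by omega)
      (by omega) (by omega) S' hS'
    obtain ⟨n, hTor, hDp⟩ := hDEEP ρ V G r A hs T K ray S1 hst m hm1 hm2 S0 l g hS0 hReg (S'' ∪ S0)
      (hS''.union hS0)
    set v := ray m n with hv
    set R' := Reach G K ray (m - 12) (m + 12) (S'' ∪ S0) with hR'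
    have r1 : R' ⊆ Reach G K ray (m - 12) (m + 12) S'' := reach_mono (le_refl _) (le_refl _) subset_union_left
    have r0 : R' ⊆ Reach G K ray (m - 12) (m + 12) S0 := reach_mono (le_refl _) (le_refl _) subset_union_right
    obtain ⟨p1, p2, p3⟩ := hFLP ρ V G r A hs
    -- the neighbours of `v` in the torso
    have hNfin : {z | TAdj G v z}.Finite := by
      have h1 : {z | TAdj G v z} ⊆ {z | G.Adj v z} ∪ ⋃ F ∈ {F | Small G F ∧ ((F ∪ nb G F) ∩ {v}).Nonempty}, nb G F := by
        rintro z ⟨_, _, _, h | ⟨F, hF, h1, h2⟩⟩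
        · exact Or.inl h
        · refine Or.inr (Set.mem_biUnion (show F ∈ {F | Small G F ∧ ((F ∪ nb G F) ∩ {v}).Nonempty} from ?_) h2)
          exact ⟨hF.1, v, Or.inr h1, rfl⟩
      refine Set.Finite.subset ((hs.lf v).union ?_) h1
      exact (p2 {v} (Set.finite_singleton v)).biUnion fun F hF => nb_finite hs.lf hF.1.1
    have hN3 : ∀ z, TAdj G v z → Dp G R' 3 z := by
      rintro z ⟨_, _, _, h | ⟨F, hF, h1, h2⟩⟩
      · exact hDp.2.1 z h
      · exact hDp.2.2 F hF.1 (Or.inr h1) z (Or.inr h2)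
    -- everything near `v`
    let Z : Set V := {v} ∪ {z | TAdj G v z}
    have hZ : Z.Finite := (Set.finite_singleton v).union hNfin
    let W : Set V := Z ∪ ⋃ F ∈ {F | Small G F ∧ ((F ∪ nb G F) ∩ Z).Nonempty}, (F ∪ nb G F)
    have hW : W.Finite := hZ.union ((p2 Z hZ).biUnion fun F hF => hF.1.1.union (nb_finite hs.lf hF.1.1))
    have hWR : W ⊆ Reach G K ray (m - 12) (m + 12) S'' := by
      refine Set.Subset.trans ?_ r1
      have hZ3 : ∀ z ∈ Z, Dp G R' 3 z := by
        rintro z (h | h)
        · rw [h]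
          exact hDp.1
        · exact hN3 z h
      rintro y (hy | hy)
      · exact dp_mem 3 (hZ3 y hy)
      · obtain ⟨F, hF, hyF⟩ := Set.mem_iUnion₂.1 hy
        obtain ⟨hFs, z, hzF, hzZ⟩ := hF
        exact dp_mem 2 ((hZ3 z hzZ).2.2 F hFs hzF y hyF)
    obtain ⟨C, Kc, am, bm, ap, bp, PT, PB, sT, sB, hN, hWK⟩ := hnest W hW hWR
    -- the four radials
    have hlc := hN.lm (m - 12) (le_refl _) (by omega)
    have hld := hN.lm (m + 12) (by omega) (le_refl _)
    let P : Fin 4 → Set V := ![{x | ∃ q, am (m - 12) ≤ q ∧ q ≤ bm (m - 12) ∧ x = ray (m - 12) q},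
      {x | ∃ q, am (m + 12) ≤ q ∧ q ≤ bm (m + 12) ∧ x = ray (m + 12) q},
      {x | ∃ q, ap (m + 12) ≤ q ∧ q ≤ bp (m + 12) ∧ x = ray (m + 12) q},
      {x | ∃ q, ap (m - 12) ≤ q ∧ q ≤ bp (m - 12) ∧ x = ray (m - 12) q}]
    let θ : Fin 4 → V := ![ray (m - 12) (am (m - 12)), ray (m + 12) (am (m + 12)), ray (m + 12) (bp (m + 12)),
      ray (m - 12) (bp (m - 12))]
    have hc : m - 12 < K := by omega
    have hd : m + 12 < K := by omega
    have hne : m - 12 ≠ m + 12 := by omega
    have hdis : ∀ (i j a b a' b' : ℕ), i < K → j < K → (i ≠ j ∨ b < a' ∨ b' < a) →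
        Disjoint {x | ∃ q, a ≤ q ∧ q ≤ b ∧ x = ray i q} {x | ∃ q, a' ≤ q ∧ q ≤ b' ∧ x = ray j q} := by
      intro i j a b a' b' hi hj h
      rw [Set.disjoint_left]
      rintro x ⟨q, h1, h2, rfl⟩ ⟨q', h3, h4, e⟩
      obtain ⟨e1, e2⟩ := hR.inj i hi j hj q q' e
      omega
    have hKi := hN.lK (m - 12) (le_refl _) (by omega)
    have hKd := hN.lK (m + 12) (by omega) (le_refl _)
    have h0c := hN.l0 (m - 12) (le_refl _) (by omega)
    have h0d := hN.l0 (m + 12) (by omega) (le_refl _)
    have hjc := hN.lj (m - 12) (le_refl _) (by omega)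
    have hjd := hN.lj (m + 12) (by omega) (le_refl _)
    have hlC := hN.lC (m - 12) (le_refl _) (by omega)
    have hlD := hN.lC (m + 12) (by omega) (le_refl _)
    obtain ⟨A', B', hA, hB, hAB, hA0, hA2, hB1, hB3, hAK, hBK⟩ := hCRS ρ V G r A hs _ l g hReg v C Kc P θ hTor
      (dp_mono r0 4 hDp) hN.conC hN.finK hN.dis hN.bd hN.nest
      (by
        intro t
        fin_cases t
        · exact hR.conn_seg hc (by omega)
        · exact hR.conn_seg hd (by omega)
        · exact hR.conn_seg hd (by omega)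
        · exact hR.conn_seg hc (by omega))
      (by
        intro t t' h
        fin_cases t <;> fin_cases t'
        · exact absurd rfl h
        · exact hdis _ _ _ _ _ _ hc hd (by omega)
        · exact hdis _ _ _ _ _ _ hc hd (by omega)
        · exact hdis _ _ _ _ _ _ hc hc (by omega)
        · exact hdis _ _ _ _ _ _ hd hc (by omega)
        · exact absurd rfl h
        · exact hdis _ _ _ _ _ _ hd hd (by omega)
        · exact hdis _ _ _ _ _ _ hd hc (by omega)
        · exact hdis _ _ _ _ _ _ hd hc (by omega)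
        · exact hdis _ _ _ _ _ _ hd hd (by omega)
        · exact absurd rfl h
        · exact hdis _ _ _ _ _ _ hd hc (by omega)
        · exact hdis _ _ _ _ _ _ hc hc (by omega)
        · exact hdis _ _ _ _ _ _ hc hd (by omega)
        · exact hdis _ _ _ _ _ _ hc hd (by omega)
        · exact absurd rfl h)
      (by
        intro t
        fin_cases t
        · exact ⟨am (m - 12), le_refl _, by omega, rfl⟩
        · exact ⟨am (m + 12), le_refl _, by omega, rfl⟩
        · exact ⟨bp (m + 12), by omega, le_refl _, rfl⟩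
        · exact ⟨bp (m - 12), by omega, le_refl _, rfl⟩)
      (by
        intro t
        fin_cases t
        · exact hlC.1
        · exact hlD.1
        · exact hlD.2
        · exact hlC.2)
      (by
        intro t
        fin_cases t
        · rintro x ⟨q, h1, h2, rfl⟩
          rcases h1.lt_or_eq with h | h
          · exact Or.inl ((hKi q).2 ⟨h, by omega⟩)
          · right
            rw [← h]
            rfl
        · rintro x ⟨q, h1, h2, rfl⟩
          rcases h1.lt_or_eq with h | h
          · exact Or.inl ((hKd q).2 ⟨h, by omega⟩)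
          · right
            rw [← h]
            rfl
        · rintro x ⟨q, h1, h2, rfl⟩
          rcases h2.lt_or_eq with h | h
          · exact Or.inl ((hKd q).2 ⟨by omega, h⟩)
          · right
            rw [h]
            rfl
        · rintro x ⟨q, h1, h2, rfl⟩
          rcases h2.lt_or_eq with h | h
          · exact Or.inl ((hKi q).2 ⟨by omega, h⟩)
          · right
            rw [h]
            rfl)
      (by
        intro t j hj
        fin_cases t
        · obtain ⟨q, h1, h2, h3⟩ := (hjc j hj).1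
          exact ⟨_, ⟨q, h1, h2, rfl⟩, h3⟩
        · obtain ⟨q, h1, h2, h3⟩ := (hjd j hj).1
          exact ⟨_, ⟨q, h1, h2, rfl⟩, h3⟩
        · obtain ⟨q, h1, h2, h3⟩ := (hjd j hj).2
          exact ⟨_, ⟨q, h1, h2, rfl⟩, h3⟩
        · obtain ⟨q, h1, h2, h3⟩ := (hjc j hj).2
          exact ⟨_, ⟨q, h1, h2, rfl⟩, h3⟩)
      (by
        intro t
        rw [Set.disjoint_left]
        fin_cases t
        · rintro x ⟨q, h1, h2, rfl⟩ h
          have := h0c q h
          omega
        · rintro x ⟨q, h1, h2, rfl⟩ h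
          have := h0d q h
          omega
        · rintro x ⟨q, h1, h2, rfl⟩ h
          have := h0d q h
          omega
        · rintro x ⟨q, h1, h2, rfl⟩ h
          have := h0c q h
          omega)
      (hWK (Or.inl (Or.inl rfl)))
      (fun z hz => hWK (Or.inl (Or.inr hz)))
      (fun F z hF hz hzF y hy => hWK (Or.inr (Set.mem_biUnion
        (show F ∈ {F | Small G F ∧ ((F ∪ nb G F) ∩ Z).Nonempty} from ⟨hF.1, z, Or.inr hzF, Or.inr hz⟩) hy)))
      (fun F hF hvF y hy => hWK (Or.inr (Set.mem_biUnion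
        (show F ∈ {F | Small G F ∧ ((F ∪ nb G F) ∩ Z).Nonempty} from ⟨hF.1, v, Or.inr hvF, Or.inl rfl⟩) hy)))
    have hθ : ∀ t, θ t ∈ C 4 := by
      intro t
      fin_cases t
      · exact hlC.1
      · exact hlD.1
      · exact hlD.2
      · exact hlC.2
    have hsub4 : Kc 4 ∪ range θ ⊆ C 4 ∪ Kc 4 := by
      rintro x (h | ⟨t, rfl⟩)
      · exact Or.inr h
      · exact Or.inl (hθ t)
    have hf4 : (Kc 4 ∪ range θ).Finite := (hN.finK 4 (le_refl _)).union (Set.finite_range θ)
    -- ray vertices in `Kc 4 ∪ range θ`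
    have hcpos : ∀ q, ray (m - 12) q ∈ Kc 4 ∪ range θ → (am (m - 12) < q ∧ q < bp (m - 12)) ∨
        (q = am (m - 12) ∧ ray (m - 12) q = θ 0) ∨ (q = bp (m - 12) ∧ ray (m - 12) q = θ 3) := by
      rintro q (h | ⟨t, ht⟩)
      · exact Or.inl ((hKi q).1 h)
      · right
        fin_cases t
        · have ht' : ray (m - 12) (am (m - 12)) = ray (m - 12) q := ht
          have := (hR.inj _ hc _ hc _ _ ht').2
          exact Or.inl ⟨this.symm, ht.symm⟩
        · have ht' : ray (m + 12) (am (m + 12)) = ray (m - 12) q := ht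
          exact absurd (hR.inj _ hd _ hc _ _ ht').1 hne.symm
        · have ht' : ray (m + 12) (bp (m + 12)) = ray (m - 12) q := ht
          exact absurd (hR.inj _ hd _ hc _ _ ht').1 hne.symm
        · have ht' : ray (m - 12) (bp (m - 12)) = ray (m - 12) q := ht
          have := (hR.inj _ hc _ hc _ _ ht').2
          exact Or.inr ⟨this.symm, ht.symm⟩
    have hdpos : ∀ q, ray (m + 12) q ∈ Kc 4 ∪ range θ → (am (m + 12) < q ∧ q < bp (m + 12)) ∨
        (q = am (m + 12) ∧ ray (m + 12) q = θ 1) ∨ (q = bp (m + 12) ∧ ray (m + 12) q = θ 2) := by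
      rintro q (h | ⟨t, ht⟩)
      · exact Or.inl ((hKd q).1 h)
      · right
        fin_cases t
        · have ht' : ray (m - 12) (am (m - 12)) = ray (m + 12) q := ht
          exact absurd (hR.inj _ hc _ hd _ _ ht').1 hne
        · have ht' : ray (m + 12) (am (m + 12)) = ray (m + 12) q := ht
          have := (hR.inj _ hd _ hd _ _ ht').2
          exact Or.inl ⟨this.symm, ht.symm⟩
        · have ht' : ray (m + 12) (bp (m + 12)) = ray (m + 12) q := ht
          have := (hR.inj _ hd _ hd _ _ ht').2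
          exact Or.inr ⟨this.symm, ht.symm⟩
        · have ht' : ray (m - 12) (bp (m - 12)) = ray (m + 12) q := ht
          exact absurd (hR.inj _ hc _ hd _ _ ht').1 hne
    refine ⟨A', B', am (m - 12), bp (m - 12), am (m + 12), bp (m + 12), hf4.subset hAK, hf4.subset hBK, hA, hB, hAB,
      hN.dS.mono_left (hAK.trans hsub4), hN.dS.mono_left (hBK.trans hsub4), by omega, by omega, hA0, hA2, hB1, hB3,
      ?_, ?_, ?_, ?_, ?_⟩
    · intro s hs' h
      rcases hcpos s (hBK h) with h1 | ⟨h1, h2⟩ | ⟨h1, h2⟩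
      · omega
      · rw [h2] at h
        exact Set.disjoint_left.1 hAB hA0 h
      · omega
    · intro s hs' h
      rcases hcpos s (hAK h) with h1 | ⟨h1, h2⟩ | ⟨h1, h2⟩
      · omega
      · omega
      · rw [h2] at h
        exact Set.disjoint_left.1 hAB h hB3
    · intro s hs' h
      rcases hdpos s (hAK h) with h1 | ⟨h1, h2⟩ | ⟨h1, h2⟩
      · omega
      · rw [h2] at h
        exact Set.disjoint_left.1 hAB h hB1
      · omega
    · intro s hs' h
      rcases hdpos s (hBK h) with h1 | ⟨h1, h2⟩ | ⟨h1, h2⟩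
      · omega
      · omega
      · rw [h2] at h
        exact Set.disjoint_left.1 hAB hA2 h
    · intro i hi h q
      have := hN.off i hi (by omega) q
      exact ⟨fun h' => this (hsub4 (hAK h')), fun h' => this (hsub4 (hBK h'))⟩
  obtain ⟨_, _, _, hex, _⟩ := hMOV V G K ray T hR
  refine hSWP V G K ray T K (fun i => i) (m - 22) (m + 22) (m - 12) (m + 12) hR (fun i hi => hi)
    (fun i _ j _ h => h) (fun i hi => hst.ra i hi) (by omega) (by omega) (by omega) (by omega) (by omega) ?_
  intro f E t t' htt _ hft hft' hoth htok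
  have := hex f E t t' (m - 22) (m + 22) htok htt (by rw [hft, hft']; exact hGad) hoth
  rw [hft, hft'] at this
  exact this

end Pool.Agent.Work.MP_216d61_lc
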