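import Pool.Agent.Work.MP_216d61_lc.Interface2

/-!
# MP_216d61_lc: every rational limiting density is a bounded treewidth density

Common definitions and the statements `Stmt_X` of the blocks. A block is proved in
`Work/MP_216d61_lc_full/X.lean` as `theorem stmt_X : Stmt_X` (a block may take other `Stmt_Y`
as hypotheses: `theorem stmt_X (h : Stmt_Y) : Stmt_X`). Paper proofs: `BLUEPRINT.md`.
-/

set_option autoImplicit false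

namespace Pool.Agent.Work.MP_216d61_lc

open Relation Set

/-! ## Part 0: basic notions -/

/-- `x` and `y` are in `S` and linked inside `S`. -/
def Lnk {V : Type*} (G : SimpleGraph V) (S : Set V) (x y : V) : Prop :=
  x ∈ S ∧ ReflTransGen (fun a b => G.Adj a b ∧ a ∈ S ∧ b ∈ S) x y

/-- the neighbours of the set `F` outside `F` -/
def nb {V : Type*} (G : SimpleGraph V) (F : Set V) : Set V := {y | y ∉ F ∧ ∃ x ∈ F, G.Adj x y}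

/-- twice the number of edges with at least one end in `F` -/
noncomputable def inc2 {V : Type*} (G : SimpleGraph V) (F : Set V) : ℕ :=
  {p : V × V | G.Adj p.1 p.2 ∧ (p.1 ∈ F ∨ p.2 ∈ F)}.ncard

/-- The graph `G` together with the roots `Fin r` (root `a` is adjacent to `x` iff `A a x`). -/
def Hat {r : ℕ} {V : Type} (G : SimpleGraph V) (A : Fin r → V → Prop) : SimpleGraph (Fin r ⊕ V) :=
  Glue (⊥ : SimpleGraph (Fin r)) id G A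

/-- the number of label edges at `F` -/
noncomputable def labc {r : ℕ} {V : Type*} (A : Fin r → V → Prop) (F : Set V) : ℕ :=
  {p : Fin r × V | p.2 ∈ F ∧ A p.1 p.2}.ncard

/-- the labels seen by `F` -/
def labs {r : ℕ} {V : Type*} (A : Fin r → V → Prop) (F : Set V) : Set (Fin r) :=
  {a | ∃ x ∈ F, A a x}

/-- twice the number of edges of `Hat G A` with an end in `F` -/
noncomputable def incL {r : ℕ} {V : Type*} (G : SimpleGraph V) (A : Fin r → V → Prop)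
    (F : Set V) : ℕ := inc2 G F + 2 * labc A F

/-- twice the gain of `F` -/
noncomputable def gn (ρ : ℝ) {r : ℕ} {V : Type*} (G : SimpleGraph V) (A : Fin r → V → Prop)
    (F : Set V) : ℝ := (incL G A F : ℝ) - 2 * ρ * F.ncard

/-! ## Part 1: the finite lemmas -/

/-- **Block MEN** (Menger's theorem for sets, with disjoint connected sets instead of paths).
If no set of fewer than `k` vertices of `U` separates `P` from `Q` in `G[U]`, then there are `k`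
pairwise disjoint connected sets in `U`, each meeting `P` and `Q`. -/
def Stmt_MEN : Prop :=
  ∀ (V : Type) (G : SimpleGraph V) (U P Q : Set V) (k : ℕ), U.Finite → P ⊆ U → Q ⊆ U →
    (∀ Z : Set V, Z ⊆ U → Z.ncard < k → ∃ x ∈ P, ∃ y ∈ Q, Lnk G (U \ Z) x y) →
    ∃ D : Fin k → Set V, (∀ i, D i ⊆ U) ∧ (∀ i, Conn G (D i)) ∧
      (∀ i j, i ≠ j → Disjoint (D i) (D j)) ∧ (∀ i, (D i ∩ P).Nonempty) ∧ ∀ i, (D i ∩ Q).Nonempty

/-- **Block LB** (Lemma B). -/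
def Stmt_LB : Prop :=
  ∀ (V : Type) [Finite V] (G : SimpleGraph V) (p q r : V) (Lk : Set V), p ≠ q → q ≠ r → p ≠ r →
    (∀ h ∈ Lk, h ≠ p → h ≠ q → h ≠ r → 3 ≤ (Lk ∩ {y | G.Adj h y}).ncard) →
    (∀ h ∈ Lk, h ≠ p → h ≠ q → h ≠ r → ∀ Z : Set V, Z.ncard ≤ 2 → h ∉ Z →
      ∃ t, (t = p ∨ t = q ∨ t = r) ∧ Lnk G Zᶜ h t) →
    (∃ h ∈ Lk, h ≠ p ∧ h ≠ q ∧ h ≠ r) →
    ∃ A B : Set V, Conn G A ∧ Conn G B ∧ Disjoint A B ∧ p ∈ A ∧ r ∈ A ∧ q ∈ B ∧ (B ∩ Lk).Nonempty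

/-- **Block GC** (the crossing lemma; uses `MEN` and `LB`). -/
def Stmt_GC : Prop :=
  ∀ (V : Type) [Finite V] (G : SimpleGraph V) (v : V) (s : Fin 4 → V), Function.Injective s →
    (∀ i, s i ≠ v) →
    -- (LD)
    (∀ h, G.Adj v h → (∀ i, h ≠ s i) → 3 ≤ {y | G.Adj v y ∧ G.Adj h y}.ncard) →
    -- (WF3)
    (∀ h, G.Adj v h → (∀ i, h ≠ s i) → ∀ Z : Set V, Z.ncard ≤ 2 → v ∉ Z → h ∉ Z →
      ∃ i, Lnk G ({v} ∪ Z)ᶜ h (s i)) →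
    -- (M4)
    (∀ Z : Set V, Z.ncard ≤ 3 → v ∉ Z → ∃ h, G.Adj v h ∧ ∃ i, Lnk G ({v} ∪ Z)ᶜ h (s i)) →
    (∃ h, G.Adj v h ∧ ∀ i, h ≠ s i) →
    ∃ A B : Set V, Conn G A ∧ Conn G B ∧ Disjoint A B ∧ s 0 ∈ A ∧ s 2 ∈ A ∧ s 1 ∈ B ∧ s 3 ∈ B

/-! ## Part 2: pumping -/

/-- **Block PL** (the pumping lemma; uses `stmt_FI`, `stmt_SD`). -/
def Stmt_PL : Prop :=
  ∀ a b k : ℕ, ∃ L : ℕ, ∀ (W : Type) (X : SimpleGraph W) (Φ : Set W) (U : ℕ → Set W),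
    MR ((a : ℝ) / ((b : ℝ) + 1)) X → Φ.Finite → Φ.ncard ≤ k →
    (∀ i ≤ L, (U i).Finite ∧ Disjoint (U i) Φ) →
    (∀ i ≤ L, (nb X (U i) \ Φ).Finite ∧ (nb X (U i) \ Φ).ncard ≤ k) →
    (∀ i < L, U i ∪ (nb X (U i) \ Φ) ⊆ U (i + 1)) → (∀ i < L, U i ≠ U (i + 1)) →
    (∀ i ≤ L, 2 * ((a : ℝ) / ((b : ℝ) + 1)) * (U i).ncard ≤ inc2 X (U i)) →
    BT ((a : ℝ) / ((b : ℝ) + 1))

/-- **Block FAN** (many sets attached to the same hubs; uses `PL`). -/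
def Stmt_FAN : Prop :=
  ∀ a b r s : ℕ, ∃ L : ℕ, ∀ (V : Type) (G : SimpleGraph V) (A : Fin r → V → Prop)
    (F : Fin L → Set V) (H : Fin s → Set V), MR ((a : ℝ) / ((b : ℝ) + 1)) (Hat G A) →
    (∀ i, (F i).Finite ∧ (F i).Nonempty) → (∀ i j, i ≠ j → Disjoint (F i) (F j)) →
    (∀ t, Conn G (H t)) → (∀ t t', t ≠ t' → Disjoint (H t) (H t')) →
    (∀ i t, Disjoint (F i) (H t)) →
    (∀ i, ∃ y : Fin s → V, (∀ t, y t ∈ H t) ∧ nb G (F i) ⊆ range y) →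
    (∀ i, 0 ≤ gn ((a : ℝ) / ((b : ℝ) + 1)) G A (F i)) →
    BT ((a : ℝ) / ((b : ℝ) + 1))

/-- **Block CHN** (chains of connected sets with two hubs and flaps; uses `PL`). `g1`, `g2` are
(twice) the gains of the flaps, which may be empty. -/
def Stmt_CHN : Prop :=
  ∀ a b r : ℕ, ∃ n : ℕ, ∀ (V : Type) (G : SimpleGraph V) (A : Fin r → V → Prop)
    (p F1 F2 : ℕ → Set V) (H1 H2 : Set V) (Lb : Set (Fin r)) (g1 g2 : ℝ),
    MR ((a : ℝ) / ((b : ℝ) + 1)) (Hat G A) →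
    Conn G H1 → Conn G H2 → Disjoint H1 H2 → (∀ i ≤ n, Conn G (p i)) →
    (∀ i ≤ n, ∀ j ≤ n, i ≠ j → Disjoint (p i) (p j)) →
    (∀ i ≤ n, Disjoint (p i) H1 ∧ Disjoint (p i) H2) →
    (∀ i < n, (F1 i).Finite ∧ (F2 i).Finite) →
    (∀ i < n, ∀ j < n, i ≠ j → Disjoint (F1 i) (F1 j) ∧ Disjoint (F2 i) (F2 j)) →
    (∀ i < n, ∀ j < n, Disjoint (F1 i) (F2 j)) →
    (∀ i < n, ∀ j ≤ n, Disjoint (F1 i) (p j) ∧ Disjoint (F2 i) (p j)) →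
    (∀ i < n, Disjoint (F1 i) H1 ∧ Disjoint (F1 i) H2 ∧ Disjoint (F2 i) H1 ∧ Disjoint (F2 i) H2) →
    (∀ i < n, ∃ x ∈ p i, ∃ y ∈ p (i + 1), G.Adj x y) →
    (∀ i < n, ∃ x ∈ p i, ∃ y ∈ H1, G.Adj x y) → (∀ i < n, ∃ x ∈ p i, ∃ y ∈ H2, G.Adj x y) →
    (∀ i < n, Lb ⊆ labs A (p i)) →
    (∀ i < n, ∃ x ∈ p i, ∃ y ∈ p (i + 1), ∃ z ∈ H1, nb G (F1 i) ⊆ {x, y, z}) →
    (∀ i < n, ∃ x ∈ p i, ∃ y ∈ p (i + 1), ∃ z ∈ H2, nb G (F2 i) ⊆ {x, y, z}) →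
    (∀ i < n, g1 ≤ gn ((a : ℝ) / ((b : ℝ) + 1)) G A (F1 i)) →
    (∀ i < n, g2 ≤ gn ((a : ℝ) / ((b : ℝ) + 1)) G A (F2 i)) →
    2 * ((a : ℝ) / ((b : ℝ) + 1)) ≤ 6 + 2 * Lb.ncard + g1 + g2 →
    BT ((a : ℝ) / ((b : ℝ) + 1))

end Pool.Agent.Work.MP_216d61_lc
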