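import Pool.Agent.Work.MP_216d61_lc_full.Interface

/-!
# MP_216d61_lc full: Part 3 (the infinite graph), statements of the blocks
Paper proofs: `BLUEPRINT.md`, Part 3.
-/

set_option autoImplicit false

namespace Pool.Agent.Work.MP_216d61_lc

open Relation Set

/-! ## Part 3: the infinite graph -/

/-- The limit graph: `G` infinite, connected, locally finite, one-ended, labels `A`. -/
structure Lim (ρ : ℝ) {V : Type} (G : SimpleGraph V) {r : ℕ} (A : Fin r → V → Prop) : Prop where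
  lf : ∀ x, {y | G.Adj x y}.Finite
  inf : Infinite V
  conn : Conn G univ
  mr : MR ρ (Hat G A)
  o1 : ∀ F : Set V, F.Finite → 0 ≤ gn ρ G A F
  o2 : ∀ J : Set V, J.Finite → Conn G J →
    2 * ((nb G J).ncard + (labs A J).ncard : ℝ) + 2 * ρ * (J.ncard - 1) ≤ incL G A J
  e1 : ∀ S : Set V, S.Finite → ∃ Y : Set V, Y.Finite ∧ S ⊆ Y ∧
    ∀ x y, x ∉ Y → y ∉ Y → Lnk G Sᶜ x y

/-- The situation of Part 3: a limit graph for a rational `ρ` which is not `BT`. -/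
structure Sit (ρ : ℝ) {V : Type} (G : SimpleGraph V) {r : ℕ} (A : Fin r → V → Prop) : Prop
    extends Lim ρ G A where
  rat : ∃ a b : ℕ, ρ = (a : ℝ) / ((b : ℝ) + 1)
  nbt : ¬ BT ρ

/-- **Block TH** (uses `PL`). -/
def Stmt_TH : Prop :=
  ∀ (ρ : ℝ) (V : Type) (G : SimpleGraph V) (r : ℕ) (A : Fin r → V → Prop), Sit ρ G A →
    ∀ k : ℕ, ∃ S : Set V, S.Finite ∧ ∀ F : Set V, F.Finite → S ⊆ F → k ≤ (nb G F).ncard

/-- **Block FS** (uses `TH`). -/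
def Stmt_FS : Prop :=
  ∀ (ρ : ℝ) (V : Type) (G : SimpleGraph V) (r : ℕ) (A : Fin r → V → Prop), Sit ρ G A →
    ∀ (k : ℕ) (S : Set V), S.Finite → ∃ S' : Set V, S'.Finite ∧ S ⊆ S' ∧
      ∀ F : Set V, F.Finite → Conn G F → (nb G F).ncard ≤ k → ((F ∪ nb G F) ∩ S).Nonempty →
        F ∪ nb G F ⊆ S'

/-! ### rays -/

/-- `ray i`, `i < k`, are disjoint rays. -/
structure IsRays {V : Type} (G : SimpleGraph V) (k : ℕ) (ray : ℕ → ℕ → V) : Prop where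
  inj : ∀ i < k, ∀ j < k, ∀ m n, ray i m = ray j n → i = j ∧ m = n
  adj : ∀ i < k, ∀ n, G.Adj (ray i n) (ray i (n + 1))

/-- a connection outside `S` from `ray i s` to `ray j t` without other ray vertices -/
def Lk1 {V : Type} (G : SimpleGraph V) (k : ℕ) (ray : ℕ → ℕ → V) (S : Set V) (i s j t : ℕ) :
    Prop :=
  ∃ H : Set V, H.Finite ∧ Conn G H ∧ Disjoint H S ∧ ray i s ∈ H ∧ ray j t ∈ H ∧
    ∀ i' < k, ∀ n, ray i' n ∈ H → (i' = i ∧ n = s) ∨ (i' = j ∧ n = t)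

/-- the rays `i` and `j` are adjacent in the ray graph -/
def RA {V : Type} (G : SimpleGraph V) (k : ℕ) (ray : ℕ → ℕ → V) (i j : ℕ) : Prop :=
  ∀ S : Set V, S.Finite → ∃ s t, Lk1 G k ray S i s j t

/-- **Block RAYS** (uses `TH`, `MEN`). -/
def Stmt_RAYS : Prop :=
  ∀ (ρ : ℝ) (V : Type) (G : SimpleGraph V) (r : ℕ) (A : Fin r → V → Prop), Sit ρ G A →
    ∀ k : ℕ, ∃ ray : ℕ → ℕ → V, IsRays G k ray

/-- **Block RGC** (the ray graph is connected). -/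
def Stmt_RGC : Prop :=
  ∀ (ρ : ℝ) (V : Type) (G : SimpleGraph V) (r : ℕ) (A : Fin r → V → Prop), Lim ρ G A →
    ∀ (k : ℕ) (ray : ℕ → ℕ → V), IsRays G k ray → ∀ i < k, ∀ j < k,
      ReflTransGen (fun a b => a < k ∧ b < k ∧ a ≠ b ∧ RA G k ray a b) i j

/-! ### the token machine -/

/-- `T` tokens on the rays `c t`; `E` is a set of pairs of tokens whose sets touch. -/
def Tok {V : Type} (G : SimpleGraph V) (k : ℕ) (ray : ℕ → ℕ → V) {T : ℕ} (c : Fin T → ℕ)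
    (E : Fin T → Fin T → Prop) : Prop :=
  Function.Injective c ∧ (∀ t, c t < k) ∧ ∃ (B : Fin T → Set V) (p : Fin T → ℕ),
    (∀ t, (B t).Finite ∧ Conn G (B t)) ∧ (∀ t t', t ≠ t' → Disjoint (B t) (B t')) ∧
    (∀ t, ray (c t) (p t) ∈ B t) ∧ (∀ t t' m, p t < m → ray (c t) m ∉ B t') ∧
    (∀ t t', E t t' → ∃ x ∈ B t, ∃ y ∈ B t', G.Adj x y)

/-- An exchange device outside `S` between the rays `c` and `d`, inside the strip `[a,b]`. -/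
def Gad {V : Type} (G : SimpleGraph V) (k : ℕ) (ray : ℕ → ℕ → V) (S : Set V) (a b c d : ℕ) :
    Prop :=
  ∃ (P Q : Set V) (s1 s0 t0 t1 : ℕ), P.Finite ∧ Q.Finite ∧ Conn G P ∧ Conn G Q ∧ Disjoint P Q ∧
    Disjoint P S ∧ Disjoint Q S ∧ s1 < s0 ∧ t0 < t1 ∧
    ray c s1 ∈ P ∧ ray d t1 ∈ P ∧ ray d t0 ∈ Q ∧ ray c s0 ∈ Q ∧
    (∀ s ≤ s1, ray c s ∉ Q) ∧ (∀ s, s0 ≤ s → ray c s ∉ P) ∧
    (∀ t ≤ t0, ray d t ∉ P) ∧ (∀ t, t1 ≤ t → ray d t ∉ Q) ∧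
    (∀ i < k, i < a ∨ b < i → ∀ n, ray i n ∉ P ∧ ray i n ∉ Q)

/-- **Block MOV** (the moves of the token machine). -/
def Stmt_MOV : Prop :=
  ∀ (V : Type) (G : SimpleGraph V) (k : ℕ) (ray : ℕ → ℕ → V) (T : ℕ), IsRays G k ray →
    -- start
    (∀ c : Fin T → ℕ, Function.Injective c → (∀ t, c t < k) → Tok G k ray c fun _ _ => False) ∧
    -- step to a free adjacent ray
    (∀ (c : Fin T → ℕ) (E : Fin T → Fin T → Prop) (t : Fin T) (b : ℕ), Tok G k ray c E → b < k →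
      (∀ t', c t' ≠ b) → RA G k ray (c t) b → Tok G k ray (Function.update c t b) E) ∧
    -- contact
    (∀ (c : Fin T → ℕ) (E : Fin T → Fin T → Prop) (t t' : Fin T), Tok G k ray c E → t ≠ t' →
      RA G k ray (c t) (c t') →
      Tok G k ray c fun i j => E i j ∨ (i = t ∧ j = t') ∨ (i = t' ∧ j = t)) ∧
    -- exchange
    (∀ (c : Fin T → ℕ) (E : Fin T → Fin T → Prop) (t t' : Fin T) (a b : ℕ), Tok G k ray c E →
      t ≠ t' → (∀ S : Set V, S.Finite → Gad G k ray S a b (c t) (c t')) →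
      (∀ i, i ≠ t → i ≠ t' → c i < a ∨ b < c i) →
      Tok G k ray (Function.update (Function.update c t (c t')) t' (c t)) E) ∧
    -- end
    (∀ (c : Fin T → ℕ) (E : Fin T → Fin T → Prop), Tok G k ray c E → (∀ i j, i ≠ j → E i j) →
      Minor (⊤ : SimpleGraph (Fin T)) G)

/-- **Block STAR** (a ray with many neighbours in the ray graph; uses `MOV`). -/
def Stmt_STAR : Prop :=
  ∀ (V : Type) (G : SimpleGraph V) (k : ℕ) (ray : ℕ → ℕ → V) (T : ℕ) (z : ℕ) (l : Fin T → ℕ),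
    IsRays G k ray → z < k → Function.Injective l → (∀ t, l t < k ∧ l t ≠ z) →
    (∀ t, RA G k ray (l t) z) → Minor (⊤ : SimpleGraph (Fin T)) G

/-- **Block SWP** (tokens on a path of rays with a possibility to exchange two tokens; uses
`MOV`). `u i`, `i < K`, is a path in the ray graph; the exchange happens at the places `c < d` in
the window `[a,b]`. -/
def Stmt_SWP : Prop :=
  ∀ (V : Type) (G : SimpleGraph V) (k : ℕ) (ray : ℕ → ℕ → V) (T K : ℕ) (u : ℕ → ℕ)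
    (a b c d : ℕ), IsRays G k ray → (∀ i < K, u i < k) → (∀ i < K, ∀ j < K, u i = u j → i = j) →
    (∀ i, i + 1 < K → RA G k ray (u i) (u (i + 1))) → T ≤ a → a ≤ c → c < d → d ≤ b →
    b + T < K →
    (∀ (f : Fin T → ℕ) (E : Fin T → Fin T → Prop) (t t' : Fin T), t ≠ t' → (∀ i, f i < K) →
      f t = c → f t' = d → (∀ i, i ≠ t → i ≠ t' → f i < a ∨ b < f i) →
      Tok G k ray (fun i => u (f i)) E →
      Tok G k ray (fun i => u (Function.update (Function.update f t d) t' c i)) E) →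
    Minor (⊤ : SimpleGraph (Fin T)) G

/-! ### the strip -/

/-- A strip of `K` rays. -/
structure Strip {V : Type} (G : SimpleGraph V) (T K : ℕ) (ray : ℕ → ℕ → V) (S1 : Set V) :
    Prop where
  rays : IsRays G K ray
  ra : ∀ i, i + 1 < K → RA G K ray i (i + 1)
  fin : S1.Finite
  jf : ∀ l s j t, T + 1 ≤ l → l + T + 1 < K → j < K → Lk1 G K ray S1 l s j t →
    j = l ∨ j = l + 1 ∨ l = j + 1
  noT : ¬ Minor (⊤ : SimpleGraph (Fin T)) G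

/-- **Block STRIP** (uses `RAYS`, `RGC`, `STAR`, `SWP`, `MOV`). -/
def Stmt_STRIP : Prop :=
  ∀ (ρ : ℝ) (V : Type) (G : SimpleGraph V) (r : ℕ) (A : Fin r → V → Prop), Sit ρ G A →
    ∀ T : ℕ, 2 * ρ + 1 < T → ∀ K : ℕ, ∃ (ray : ℕ → ℕ → V) (S1 : Set V), Strip G T K ray S1

/-- A column over the rays `a,...,b` outside `S`, with positions `[lo i, hi i]` on the ray `i`. -/
structure Col {V : Type} (G : SimpleGraph V) (K : ℕ) (ray : ℕ → ℕ → V) (S : Set V) (a b : ℕ)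
    (L : Set V) (lo hi : ℕ → ℕ) : Prop where
  fin : L.Finite
  conn : Conn G L
  disj : Disjoint L S
  le : ∀ i, a ≤ i → i ≤ b → lo i ≤ hi i
  on : ∀ i, a ≤ i → i ≤ b → ∀ n, ray i n ∈ L ↔ lo i ≤ n ∧ n ≤ hi i
  off : ∀ i < K, i < a ∨ b < i → ∀ n, ray i n ∉ L
  enda : lo a = hi a
  endb : lo b = hi b

/-- **Block COL**. -/
def Stmt_COL : Prop :=
  ∀ (V : Type) (G : SimpleGraph V) (T K : ℕ) (ray : ℕ → ℕ → V) (S1 : Set V),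
    Strip G T K ray S1 → ∀ (S : Set V) (a b : ℕ), S.Finite → a ≤ b → b < K →
      ∃ (L : Set V) (lo hi : ℕ → ℕ), Col G K ray S a b L lo hi

/-- **Block NO** (no overpass; uses `COL`, `SWP`, `MOV`). -/
def Stmt_NO : Prop :=
  ∀ (V : Type) (G : SimpleGraph V) (T K : ℕ) (ray : ℕ → ℕ → V) (S1 : Set V),
    Strip G T K ray S1 → ∃ S2 : Set V, S2.Finite ∧ S1 ⊆ S2 ∧
      ∀ (a b : ℕ) (L : Set V) (lo hi : ℕ → ℕ), T ≤ a → b + T < K → Col G K ray S2 a b L lo hi →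
        ∀ i j s t, a < i → i < b → a < j → j < b → s < lo i → hi j < t →
          ¬ Lk1 G K ray (S2 ∪ L) i s j t

/-- the frame: two columns over `[a-1,b+1]` and the parts of the rays `a` and `b` between them -/
def Frm {V : Type} (ray : ℕ → ℕ → V) (a b : ℕ) (L Q : Set V) (hiL loQ : ℕ → ℕ) : Set V :=
  L ∪ Q ∪ {x | ∃ n, hiL a ≤ n ∧ n ≤ loQ a ∧ x = ray a n} ∪
    {x | ∃ n, hiL b ≤ n ∧ n ≤ loQ b ∧ x = ray b n}

/-- **Block FRM** (the inside of a frame; uses `NO`). -/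
def Stmt_FRM : Prop :=
  ∀ (ρ : ℝ) (V : Type) (G : SimpleGraph V) (r : ℕ) (A : Fin r → V → Prop), Lim ρ G A →
    ∀ (T K : ℕ) (ray : ℕ → ℕ → V) (S1 : Set V), Strip G T K ray S1 →
    ∀ S : Set V, S.Finite → ∃ S3 : Set V, S3.Finite ∧ S ⊆ S3 ∧
      ∀ (a b : ℕ) (L Q D : Set V) (loL hiL loQ hiQ loD hiD : ℕ → ℕ),
        T + 1 ≤ a → a + 2 ≤ b → b + 1 + T < K →
        Col G K ray S3 (a - 1) (b + 1) L loL hiL → Col G K ray S3 (a - 1) (b + 1) Q loQ hiQ →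
        Col G K ray S3 (a + 1) (b - 1) D loD hiD →
        (∀ i n, a - 1 ≤ i → i ≤ b + 1 → ray i n ∈ S3 → n < loL i) →
        (∀ i, a - 1 ≤ i → i ≤ b + 1 → hiL i < loQ i) →
        (∀ i, a + 1 ≤ i → i ≤ b - 1 → hiL i < loD i ∧ hiD i < loQ i) →
        Disjoint L Q → Disjoint L D → Disjoint D Q →
        ∃ Kc : Set V, Kc.Finite ∧ Conn G Kc ∧ D ⊆ Kc ∧ Disjoint Kc (Frm ray a b L Q hiL loQ) ∧
          Disjoint Kc S ∧ nb G Kc ⊆ Frm ray a b L Q hiL loQ ∧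
          (∀ i < K, ∀ n, ray i n ∈ Kc → a < i ∧ i < b ∧ hiL i < n ∧ n < loQ i) ∧
          (∀ i, a < i → i < b → ∀ n, hiL i < n → n < loQ i → ray i n ∈ Kc)

/-- the part of the graph near the rays `c,...,d` and outside `S` -/
def Reach {V : Type} (G : SimpleGraph V) (K : ℕ) (ray : ℕ → ℕ → V) (c d : ℕ) (S : Set V) :
    Set V :=
  {x | ∃ i n, c ≤ i ∧ i ≤ d ∧
    Lnk G (S ∪ {z | ∃ j m, j < K ∧ (j < c ∨ d < j) ∧ z = ray j m})ᶜ x (ray i n)}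

/-- Five nested frames `C 0,...,C 4` with insides `Kc 0,...,Kc 4`, and radials: on the ray `i`
(`c ≤ i ≤ d`) the left radial `[am i, bm i]` and the right radial `[ap i, bp i]`, the top radial
`PT` ending on the ray `c - 9` and the bottom radial `PB` ending on the ray `d + 9`. -/
structure Nest {V : Type} (G : SimpleGraph V) (K : ℕ) (ray : ℕ → ℕ → V) (S : Set V) (c d : ℕ)
    (C Kc : ℕ → Set V) (am bm ap bp : ℕ → ℕ) (PT PB : Set V) (sT sB : ℕ) : Prop where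
  finC : ∀ j ≤ 4, (C j).Finite
  conC : ∀ j ≤ 4, Conn G (C j)
  finK : ∀ j ≤ 4, (Kc j).Finite
  dis : ∀ j ≤ 4, Disjoint (C j) (Kc j)
  bd : ∀ j ≤ 4, nb G (Kc j) ⊆ C j
  nest : ∀ j < 4, C j ∪ Kc j ⊆ Kc (j + 1)
  dS : Disjoint (C 4 ∪ Kc 4) S
  reach : C 4 ∪ Kc 4 ⊆ Reach G K ray (c - 10) (d + 10) S
  lm : ∀ i, c ≤ i → i ≤ d → am i < bm i ∧ bm i < ap i ∧ ap i < bp i
  lC : ∀ i, c ≤ i → i ≤ d → ray i (am i) ∈ C 4 ∧ ray i (bp i) ∈ C 4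
  lK : ∀ i, c ≤ i → i ≤ d → ∀ m, ray i m ∈ Kc 4 ↔ am i < m ∧ m < bp i
  lj : ∀ i, c ≤ i → i ≤ d → ∀ j < 4, (∃ m, am i ≤ m ∧ m ≤ bm i ∧ ray i m ∈ C j) ∧
    ∃ m, ap i ≤ m ∧ m ≤ bp i ∧ ray i m ∈ C j
  l0 : ∀ i, c ≤ i → i ≤ d → ∀ m, ray i m ∈ Kc 0 → bm i < m ∧ m < ap i
  off : ∀ i < K, i < c - 10 ∨ d + 10 < i → ∀ m, ray i m ∉ C 4 ∪ Kc 4
  finT : PT.Finite ∧ PB.Finite
  conT : Conn G PT ∧ Conn G PB
  disT : Disjoint PT PB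
  tT : ray (c - 9) sT ∈ PT ∩ C 4
  tK : PT ⊆ Kc 4 ∪ {ray (c - 9) sT}
  tj : ∀ j < 4, (PT ∩ C j).Nonempty
  t0 : Disjoint PT (Kc 0)
  tr : ∀ i, c ≤ i → i ≤ d → ∀ m, ray i m ∉ PT
  tK' : ∀ m, ray (c - 9) m ∉ Kc 4
  bT : ray (d + 9) sB ∈ PB ∩ C 4
  bK : PB ⊆ Kc 4 ∪ {ray (d + 9) sB}
  bj : ∀ j < 4, (PB ∩ C j).Nonempty
  b0 : Disjoint PB (Kc 0)
  br : ∀ i, c ≤ i → i ≤ d → ∀ m, ray i m ∉ PB
  bK' : ∀ m, ray (d + 9) m ∉ Kc 4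

/-- **Block NEST** (uses `FRM`, `COL`). -/
def Stmt_NEST : Prop :=
  ∀ (ρ : ℝ) (V : Type) (G : SimpleGraph V) (r : ℕ) (A : Fin r → V → Prop), Lim ρ G A →
    ∀ (T K : ℕ) (ray : ℕ → ℕ → V) (S1 : Set V), Strip G T K ray S1 →
    ∀ c d : ℕ, T + 10 ≤ c → c ≤ d → d + 10 + T < K → ∀ S : Set V, S.Finite →
    ∃ S' : Set V, S'.Finite ∧ S ⊆ S' ∧ ∀ W : Set V, W.Finite → W ⊆ Reach G K ray c d S' →
      ∃ (C Kc : ℕ → Set V) (am bm ap bp : ℕ → ℕ) (PT PB : Set V) (sT sB : ℕ),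
        Nest G K ray S c d C Kc am bm ap bp PT PB sT sB ∧ W ⊆ Kc 0

/-- **Block WIN** (linking a small set to the exits of a nest; uses `MEN`). -/
def Stmt_WIN : Prop :=
  ∀ (V : Type) (G : SimpleGraph V) (κ : ℕ) (C Kc : ℕ → Set V) (P : Fin κ → Set V)
    (θ : Fin κ → V) (F : Set V), κ ≤ 4 →
    (∀ j ≤ 4, Conn G (C j)) → (∀ j ≤ 4, (Kc j).Finite) → (∀ j ≤ 4, Disjoint (C j) (Kc j)) →
    (∀ j ≤ 4, nb G (Kc j) ⊆ C j) → (∀ j < 4, C j ∪ Kc j ⊆ Kc (j + 1)) →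
    (∀ t, Conn G (P t)) → (∀ t t', t ≠ t' → Disjoint (P t) (P t')) → (∀ t, θ t ∈ P t) →
    (∀ t, θ t ∈ C 4) → (∀ t, P t ⊆ Kc 4 ∪ {θ t}) → (∀ t, ∀ j < 4, (P t ∩ C j).Nonempty) →
    (∀ t, Disjoint (P t) (Kc 0)) → F ⊆ Kc 0 → nb G F ⊆ Kc 0 → (nb G F).ncard = κ →
    (∀ H : Set V, H.Nonempty → H ⊆ Kc 4 → κ ≤ (nb G H).ncard) →
    ∃ D : Fin κ → Set V, (∀ t, Conn G (D t)) ∧ (∀ t t', t ≠ t' → Disjoint (D t) (D t')) ∧
      (∀ t, θ t ∈ D t) ∧ (∀ t, D t ⊆ (Kc 4 ∪ {θ t}) \ F) ∧ ∀ t, (D t ∩ nb G F).Nonempty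

/-! ### small sets -/

/-- **Block NO1** (uses `FS`, `FAN`). -/
def Stmt_NO1 : Prop :=
  ∀ (ρ : ℝ) (V : Type) (G : SimpleGraph V) (r : ℕ) (A : Fin r → V → Prop), Sit ρ G A →
    ∃ S : Set V, S.Finite ∧ ∀ F : Set V, F.Finite → F.Nonempty → (nb G F).ncard ≤ 1 →
      (F ∩ S).Nonempty

/-- **Block NO2** (uses `NO1`, `NEST`, `WIN`, `FAN`). -/
def Stmt_NO2 : Prop :=
  ∀ (ρ : ℝ) (V : Type) (G : SimpleGraph V) (r : ℕ) (A : Fin r → V → Prop), Sit ρ G A →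
    ∀ (T K : ℕ) (ray : ℕ → ℕ → V) (S1 : Set V), Strip G T K ray S1 →
    ∀ c d : ℕ, T + 10 ≤ c → c ≤ d → d + 10 + T < K →
    ∃ S : Set V, S.Finite ∧ ∀ F : Set V, F.Finite → F.Nonempty →
      F ∪ nb G F ⊆ Reach G K ray c d S → 3 ≤ (nb G F).ncard

/-- Sets with at most three neighbours and (twice the) gain at least `g` occur beyond every finite
set near the rays `c,...,d`. -/
def Occ (ρ : ℝ) {V : Type} (G : SimpleGraph V) {r : ℕ} (A : Fin r → V → Prop) (K : ℕ)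
    (ray : ℕ → ℕ → V) (c d : ℕ) (g : ℝ) : Prop :=
  ∀ S : Set V, S.Finite → ∃ F : Set V, F.Finite ∧ F.Nonempty ∧ (nb G F).ncard ≤ 3 ∧
    F ∪ nb G F ⊆ Reach G K ray c d S ∧ g ≤ gn ρ G A F

/-- One cell of the double window chain. -/
structure Cell (ρ : ℝ) {V : Type} (G : SimpleGraph V) {r : ℕ} (A : Fin r → V → Prop)
    (ray : ℕ → ℕ → V) (S : Set V) (c d i0 i1 i2 : ℕ) (Lb : Set (Fin r)) (g : ℝ)
    (p F1 F2 R1 R2 T1 T2 : Set V) (f0 f1 f2 e0 e1 e2 : ℕ) : Prop where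
  fin : p.Finite ∧ F1.Finite ∧ F2.Finite ∧ R1.Finite ∧ R2.Finite ∧ T1.Finite ∧ T2.Finite
  conn : Conn G p ∧ Conn G R1 ∧ Conn G R2 ∧ Conn G T1 ∧ Conn G T2
  dS : Disjoint (p ∪ F1 ∪ F2 ∪ R1 ∪ R2 ∪ T1 ∪ T2) S
  dp : Disjoint p (F1 ∪ F2 ∪ R1 ∪ R2 ∪ T1 ∪ T2)
  d1 : Disjoint F1 (F2 ∪ R1 ∪ R2 ∪ T1 ∪ T2)
  d2 : Disjoint F2 (R1 ∪ R2 ∪ T1 ∪ T2)
  d3 : Disjoint R1 (R2 ∪ T1 ∪ T2)
  d4 : Disjoint R2 (T1 ∪ T2)
  d5 : Disjoint T1 T2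
  lab : Lb ⊆ labs A p
  rt : ∀ m, ray (c - 1) m ∉ p ∪ F1 ∪ F2 ∪ R1 ∪ R2 ∪ T2
  rb : ∀ m, ray (d + 1) m ∉ p ∪ F1 ∪ F2 ∪ R1 ∪ R2 ∪ T1
  at1 : ∃ x ∈ p, ∃ m, G.Adj x (ray (c - 1) m)
  at2 : ∃ x ∈ p, ∃ m, G.Adj x (ray (d + 1) m)
  tt : ∃ m, ray (c - 1) m ∈ T1
  tb : ∃ m, ray (d + 1) m ∈ T2
  r0 : ray i0 f0 ∈ p ∧ ray i0 e0 ∈ p ∧ (∀ m < f0, ray i0 m ∉ p) ∧ (∀ m, e0 < m → ray i0 m ∉ p) ∧
    ∀ m, ray i0 m ∉ F1 ∪ F2 ∪ R1 ∪ R2 ∪ T1 ∪ T2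
  r1 : ray i1 f1 ∈ p ∧ ray i1 e1 ∈ R1 ∧
    (∀ m < f1, ray i1 m ∉ p ∪ F1 ∪ F2 ∪ R1 ∪ R2 ∪ T1 ∪ T2) ∧
    ∀ m, e1 < m → ray i1 m ∉ p ∪ F1 ∪ F2 ∪ R1 ∪ R2 ∪ T1 ∪ T2
  r2 : ray i2 f2 ∈ p ∧ ray i2 e2 ∈ R2 ∧
    (∀ m < f2, ray i2 m ∉ p ∪ F1 ∪ F2 ∪ R1 ∪ R2 ∪ T1 ∪ T2) ∧
    ∀ m, e2 < m → ray i2 m ∉ p ∪ F1 ∪ F2 ∪ R1 ∪ R2 ∪ T1 ∪ T2
  n1 : ∃ x ∈ p, ∃ y ∈ R1, ∃ z ∈ T1, nb G F1 ⊆ {x, y, z}
  n2 : ∃ x ∈ p, ∃ y ∈ R2, ∃ z ∈ T2, nb G F2 ⊆ {x, y, z}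
  g1 : g ≤ gn ρ G A F1
  g2 : g ≤ gn ρ G A F2

/-- **Block CEL** (cells exist; uses `NO1`, `NO2`, `NEST`, `WIN`, `COL`). -/
def Stmt_CEL : Prop :=
  ∀ (ρ : ℝ) (V : Type) (G : SimpleGraph V) (r : ℕ) (A : Fin r → V → Prop), Sit ρ G A →
    ∀ (T K : ℕ) (ray : ℕ → ℕ → V) (S1 : Set V), Strip G T K ray S1 →
    ∀ (c d c1 d1 c2 d2 i0 : ℕ) (Lb : Set (Fin r)) (g : ℝ),
      T + 11 ≤ c → d + 11 + T < K → c + 10 ≤ c1 → c1 ≤ d1 → d1 + 11 ≤ i0 → i0 + 11 ≤ c2 →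
      c2 ≤ d2 → d2 + 10 ≤ d → (∀ a ∈ Lb, ∀ S : Set V, S.Finite →
        ∃ x ∈ Reach G K ray c d S, A a x) →
      (g = 0 ∨ (Occ ρ G A K ray c1 d1 g ∧ Occ ρ G A K ray c2 d2 g)) →
      ∀ S : Set V, S.Finite → ∃ (p F1 F2 R1 R2 T1 T2 : Set V) (f0 f1 f2 e0 e1 e2 : ℕ),
        Cell ρ G A ray S c d i0 c1 c2 Lb g p F1 F2 R1 R2 T1 T2 f0 f1 f2 e0 e1 e2

/-- **Block ASM** (assembling the cells; uses `CHN`). -/
def Stmt_ASM : Prop :=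
  ∀ (ρ : ℝ) (V : Type) (G : SimpleGraph V) (r : ℕ) (A : Fin r → V → Prop), Sit ρ G A →
    ∀ (K : ℕ) (ray : ℕ → ℕ → V), IsRays G K ray →
    ∀ (c d i0 i1 i2 : ℕ) (Lb : Set (Fin r)) (g : ℝ), 1 ≤ c → c ≤ i1 → i1 < i0 → i0 < i2 →
      i2 ≤ d → d + 1 < K →
      (∀ S : Set V, S.Finite → ∃ (p F1 F2 R1 R2 T1 T2 : Set V) (f0 f1 f2 e0 e1 e2 : ℕ),
        Cell ρ G A ray S c d i0 i1 i2 Lb g p F1 F2 R1 R2 T1 T2 f0 f1 f2 e0 e1 e2) →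
      6 + 2 * (Lb.ncard : ℝ) + 2 * g < 2 * ρ

/-- the region in which the final argument takes place -/
structure Reg (ρ : ℝ) {V : Type} (G : SimpleGraph V) {r : ℕ} (A : Fin r → V → Prop) (R : Set V)
    (l : ℕ) (g : ℝ) : Prop where
  three : ∀ F : Set V, F.Finite → F.Nonempty → F ∪ nb G F ⊆ R → 3 ≤ (nb G F).ncard
  gain : ∀ F : Set V, F.Finite → (nb G F).ncard ≤ 3 → F ∪ nb G F ⊆ R → gn ρ G A F ≤ g
  lab : ∀ x ∈ R, {a | A a x}.ncard ≤ l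
  ineq : 6 + 2 * (l : ℝ) + 2 * g < 2 * ρ
  g0 : 0 ≤ g

/-- **Block REG** (uses `STRIP`, `NO2`, `CEL`, `ASM`). -/
def Stmt_REG : Prop :=
  ∀ (ρ : ℝ) (V : Type) (G : SimpleGraph V) (r : ℕ) (A : Fin r → V → Prop), Sit ρ G A →
    ∀ T : ℕ, 2 * ρ + 1 < T → ∃ (K : ℕ) (ray : ℕ → ℕ → V) (S1 : Set V) (m : ℕ) (S : Set V) (l : ℕ)
      (g : ℝ), Strip G T K ray S1 ∧ T + 30 ≤ m ∧ m + 30 + T < K ∧ S.Finite ∧
      Reg ρ G A (Reach G K ray (m - 12) (m + 12) S) l g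

/-! ### flaps and the torso -/

/-- finite connected sets with at most three neighbours -/
def Small {V : Type} (G : SimpleGraph V) (F : Set V) : Prop :=
  F.Finite ∧ Conn G F ∧ (nb G F).ncard ≤ 3

/-- maximal small sets -/
def Flap {V : Type} (G : SimpleGraph V) (F : Set V) : Prop :=
  Small G F ∧ ∀ F', Small G F' → F ⊆ F' → F' = F

/-- torso vertices -/
def Tor {V : Type} (G : SimpleGraph V) (x : V) : Prop := ∀ F, Small G F → x ∉ F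

/-- adjacency in the torso -/
def TAdj {V : Type} (G : SimpleGraph V) (x y : V) : Prop :=
  Tor G x ∧ Tor G y ∧ x ≠ y ∧ (G.Adj x y ∨ ∃ F, Flap G F ∧ x ∈ nb G F ∧ y ∈ nb G F)

/-- all vertices reachable from `x` by `n` steps (along edges or inside closed small sets) are in
`R` -/
def Dp {V : Type} (G : SimpleGraph V) (R : Set V) : ℕ → V → Prop
  | 0, x => x ∈ R
  | n + 1, x => Dp G R n x ∧ (∀ y, G.Adj x y → Dp G R n y) ∧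
      ∀ F, Small G F → x ∈ F ∪ nb G F → ∀ y ∈ F ∪ nb G F, Dp G R n y

/-- **Block FLP** (basic facts on flaps; uses `FS`). -/
def Stmt_FLP : Prop :=
  ∀ (ρ : ℝ) (V : Type) (G : SimpleGraph V) (r : ℕ) (A : Fin r → V → Prop), Sit ρ G A →
    (∀ F, Small G F → ∃ F', Flap G F' ∧ F ⊆ F') ∧
    (∀ S : Set V, S.Finite → {F | Small G F ∧ ((F ∪ nb G F) ∩ S).Nonempty}.Finite) ∧
    ∀ (R : Set V) (l : ℕ) (g : ℝ), Reg ρ G A R l g →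
      (∀ F F', Flap G F → Flap G F' → F ∪ nb G F ⊆ R → F' ∪ nb G F' ⊆ R → F ≠ F' →
        Disjoint F F' ∧ Disjoint F (nb G F')) ∧
      (∀ F y, Flap G F → F ∪ nb G F ⊆ R → y ∈ nb G F → Dp G R 1 y → Tor G y)

/-- **Block CDG** (the codegree lemma; uses `FLP`). -/
def Stmt_CDG : Prop :=
  ∀ (ρ : ℝ) (V : Type) (G : SimpleGraph V) (r : ℕ) (A : Fin r → V → Prop), Sit ρ G A →
    ∀ (R : Set V) (l : ℕ) (g : ℝ), Reg ρ G A R l g → ∀ x y, TAdj G x y → Dp G R 2 x →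
      {z | TAdj G x z}.Finite ∧ 3 ≤ {z | TAdj G x z ∧ TAdj G y z}.ncard

/-- **Block DEEP** (torso vertices far out on the ray `m`; uses `FS`, `FLP`). -/
def Stmt_DEEP : Prop :=
  ∀ (ρ : ℝ) (V : Type) (G : SimpleGraph V) (r : ℕ) (A : Fin r → V → Prop), Sit ρ G A →
    ∀ (T K : ℕ) (ray : ℕ → ℕ → V) (S1 : Set V), Strip G T K ray S1 →
    ∀ m : ℕ, T + 30 ≤ m → m + 30 + T < K → ∀ (S0 : Set V) (l : ℕ) (g : ℝ), S0.Finite →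
    Reg ρ G A (Reach G K ray (m - 12) (m + 12) S0) l g → ∀ S : Set V, S.Finite →
    ∃ n, Tor G (ray m n) ∧ Dp G (Reach G K ray (m - 12) (m + 12) S) 4 (ray m n)

/-- **Block CRS** (a cross in the nest around a torso vertex; uses `GC`, `FLP`, `CDG`). -/
def Stmt_CRS : Prop :=
  ∀ (ρ : ℝ) (V : Type) (G : SimpleGraph V) (r : ℕ) (A : Fin r → V → Prop), Sit ρ G A →
    ∀ (R : Set V) (l : ℕ) (g : ℝ), Reg ρ G A R l g →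
    ∀ (v : V) (C Kc : ℕ → Set V) (P : Fin 4 → Set V) (θ : Fin 4 → V), Tor G v → Dp G R 4 v →
    (∀ j ≤ 4, Conn G (C j)) → (∀ j ≤ 4, (Kc j).Finite) → (∀ j ≤ 4, Disjoint (C j) (Kc j)) →
    (∀ j ≤ 4, nb G (Kc j) ⊆ C j) → (∀ j < 4, C j ∪ Kc j ⊆ Kc (j + 1)) →
    (∀ t, Conn G (P t)) → (∀ t t', t ≠ t' → Disjoint (P t) (P t')) → (∀ t, θ t ∈ P t) →
    (∀ t, θ t ∈ C 4) → (∀ t, P t ⊆ Kc 4 ∪ {θ t}) → (∀ t, ∀ j < 4, (P t ∩ C j).Nonempty) →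
    (∀ t, Disjoint (P t) (Kc 0)) →
    -- everything near `v` is in `Kc 0`
    v ∈ Kc 0 → (∀ z, TAdj G v z → z ∈ Kc 0) →
    (∀ F z, Flap G F → TAdj G v z → z ∈ nb G F → F ∪ nb G F ⊆ Kc 0) →
    (∀ F, Flap G F → v ∈ nb G F → F ∪ nb G F ⊆ Kc 0) →
    ∃ A' B' : Set V, Conn G A' ∧ Conn G B' ∧ Disjoint A' B' ∧ θ 0 ∈ A' ∧ θ 2 ∈ A' ∧ θ 1 ∈ B' ∧
      θ 3 ∈ B' ∧ A' ⊆ Kc 4 ∪ range θ ∧ B' ⊆ Kc 4 ∪ range θ

/-- **Block INF** (there is no such limit graph; uses `REG`, `DEEP`, `NEST`, `CRS`, `SWP`). -/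
def Stmt_INF : Prop :=
  ∀ (ρ : ℝ) (V : Type) (G : SimpleGraph V) (r : ℕ) (A : Fin r → V → Prop), ¬ Sit ρ G A

end Pool.Agent.Work.MP_216d61_lc
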