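import Pool.Agent.Work.MP_216d61_lc_full.InterfaceINF
import Pool.Agent.Work.MP_216d61_lc.Back

/-!
# MP_216d61_lc full: Part 4 (from finite graphs to the limit graph), statements of the blocks
Paper proofs: `BLUEPRINT.md`, Part 4.
-/

set_option autoImplicit false

namespace Pool.Agent.Work.MP_216d61_lc

open Relation Set Filter

/-- good types: all fans are in `M_ρ` -/
def GT (ρ : ℝ) {R C : Type} (H : SimpleGraph C) (A : R → C → Prop) : Prop :=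
  ∀ κ : ℕ, MR ρ (Fan H A (Fin κ))

/-- the number of label edges of a type -/
noncomputable def lbn {R C : Type*} (A : R → C → Prop) : ℕ := {p : R × C | A p.1 p.2}.ncard

/-- `ω` bounds the label density of nearly tight good types. -/
def Om1 (ρ ω : ℝ) : Prop :=
  ∀ δ : ℝ, 0 < δ → ∃ θ : ℝ, 0 < θ ∧ ∀ (R C : Type) [Fintype R] [Fintype C] (H : SimpleGraph C)
    (A : R → C → Prop), 1 ≤ Fintype.card C → GT ρ H A →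
    2 * ρ * Fintype.card C - tau2 H A ≤ θ * Fintype.card C →
    (lbn A : ℝ) ≤ (ω + δ) * Fintype.card C

/-- `ω` is attained in the limit. -/
def Om2 (ρ ω : ℝ) : Prop :=
  ∀ ε : ℝ, 0 < ε → ∃ (r n : ℕ) (H : SimpleGraph (Fin n)) (A : Fin r → Fin n → Prop), 1 ≤ n ∧
    GT ρ H A ∧ 2 * ρ * n - tau2 H A ≤ ε * n ∧ (ω - ε) * n ≤ lbn A

/-- **Block OM**. -/
def Stmt_OM : Prop := ∀ ρ : ℝ, 0 < ρ → Dense ρ → ∃ ω : ℝ, 0 ≤ ω ∧ Om1 ρ ω ∧ Om2 ρ ω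

/-- A sequence of nearly extremal types. -/
structure ESeq (ρ ω : ℝ) (r : ℕ) where
  n : ℕ → ℕ
  H : ∀ j, SimpleGraph (Fin (n j))
  A : ∀ j, Fin r → Fin (n j) → Prop
  good : ∀ j, GT ρ (H j) (A j)
  conn : ∀ j, Conn (H j) univ
  big : ∀ N : ℕ, ∀ᶠ j in atTop, N ≤ n j
  near : ∀ ε : ℝ, 0 < ε → ∀ᶠ j in atTop, 2 * ρ * n j - tau2 (H j) (A j) ≤ ε * n j
  lab : ∀ ε : ℝ, 0 < ε → ∀ᶠ j in atTop, (ω - ε) * n j ≤ lbn (A j)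
  o1 : ∀ N : ℕ, ∀ᶠ j in atTop, ∀ F : Set (Fin (n j)), F.ncard ≤ N → 0 ≤ gn ρ (H j) (A j) F
  o2 : ∀ N : ℕ, ∀ᶠ j in atTop, ∀ J : Set (Fin (n j)), J.ncard ≤ N → Conn (H j) J →
    2 * ((nb (H j) J).ncard + (labs (A j) J).ncard : ℝ) + 2 * ρ * (J.ncard - 1) ≤
      incL (H j) (A j) J

/-- **Block EXT**. -/
def Stmt_EXT : Prop :=
  ∀ (a b : ℕ) (ω : ℝ), 0 < a → ¬ BT ((a : ℝ) / ((b : ℝ) + 1)) → 0 ≤ ω →
    Om1 ((a : ℝ) / ((b : ℝ) + 1)) ω → Om2 ((a : ℝ) / ((b : ℝ) + 1)) ω →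
    ∃ r : ℕ, Nonempty (ESeq ((a : ℝ) / ((b : ℝ) + 1)) ω r)

/-- **Block REP** (few distinct neighbourhoods). -/
def Stmt_REP : Prop :=
  ∀ ρ : ℝ, 0 ≤ ρ → ∃ c : ℕ, ∀ (V : Type) [Finite V] (G : SimpleGraph V), MR ρ G →
    ∀ (Hs : Set V) (m : ℕ) (Q : Fin m → Set V), (∀ i, Conn G (Q i)) →
      (∀ i j, i ≠ j → Disjoint (Q i) (Q j)) → (∀ i, Disjoint (Q i) Hs) →
      (∀ i j, nb G (Q i) ∩ Hs = nb G (Q j) ∩ Hs → i = j) → m ≤ c * (Hs.ncard + 1)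

/-- the degree -/
noncomputable def dg {V : Type*} (G : SimpleGraph V) (x : V) : ℕ := {y | G.Adj x y}.ncard

/-- the roots of the type of `Q`: the old roots and the neighbours of `Q` in `Hs` -/
def QA {V : Type} (G : SimpleGraph V) {r : ℕ} (A : Fin r → V → Prop) (Hs Q : Set V) :
    (Fin r ⊕ {h : V // h ∈ nb G Q ∩ Hs}) → {x : V // x ∈ Q} → Prop
  | .inl a, x => A a x
  | .inr h, x => G.Adj h x

/-- **Block UIA** (the low degree part splits into good types; uses `REP` and `decomp`). -/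
def Stmt_UIA : Prop :=
  ∀ (ρ : ℝ) (r D : ℕ) (ξ : ℝ), 0 < ρ → 0 < ξ → ∃ D' n0 : ℕ, D ≤ D' ∧ ∀ n : ℕ, n0 ≤ n →
    ∀ (H : SimpleGraph (Fin n)) (A : Fin r → Fin n → Prop), MR ρ (Hat H A) →
    ∃ 𝒬 : Set (Set (Fin n)), (∀ Q ∈ 𝒬, ∀ Q' ∈ 𝒬, Q ≠ Q' → Disjoint Q Q' ∧ Disjoint Q (nb H Q')) ∧
      (∀ Q ∈ 𝒬, Q.Nonempty ∧ ∀ x ∈ Q, dg H x ≤ D) ∧
      (∀ Q ∈ 𝒬, GT ρ (H.comap (fun x : {x : Fin n // x ∈ Q} => (x : Fin n)))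
        (QA H A {x | D' < dg H x} Q)) ∧
      ((({x | dg H x ≤ D} \ ⋃₀ 𝒬).ncard : ℝ) ≤ ξ * n)

open Classical in
/-- **Block UIB** (uniform integrability of the degrees; uses `UIA`). -/
def Stmt_UIB : Prop :=
  ∀ (ρ ω : ℝ) (r : ℕ), 0 < ρ → Om1 ρ ω → ∀ s : ESeq ρ ω r, ∀ ε : ℝ, 0 < ε →
    ∃ D : ℕ, ∀ᶠ j in atTop,
      ((∑ x : Fin (s.n j), if D < dg (s.H j) x then dg (s.H j) x else 0 : ℕ) : ℝ) ≤ ε * s.n j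

/-- balls -/
def ball {V : Type*} (G : SimpleGraph V) (x : V) : ℕ → Set V
  | 0 => {x}
  | R + 1 => ball G x R ∪ nb G (ball G x R)

/-- **Block SML** (small sets have small neighbourhoods, and balls are bounded; uses `UIB`). -/
def Stmt_SML : Prop :=
  ∀ (ρ ω : ℝ) (r : ℕ), 0 < ρ → Om1 ρ ω → ∀ s : ESeq ρ ω r, ∀ (R0 : ℕ) (ε : ℝ), 0 < ε →
    (∃ δ : ℝ, 0 < δ ∧ ∀ᶠ j in atTop, ∀ S : Set (Fin (s.n j)), (S.ncard : ℝ) ≤ δ * s.n j →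
      (({x | (ball (s.H j) x R0 ∩ S).Nonempty}.ncard : ℝ) ≤ ε * s.n j)) ∧
    ∃ B : ℕ, ∀ᶠ j in atTop,
      (({x | ∃ y ∈ ball (s.H j) x R0, B < dg (s.H j) y}.ncard : ℝ) ≤ ε * s.n j)

/-- the sphere of radius `L + 1` is linked outside the ball of radius `R0` -/
def oneG {V : Type*} (G : SimpleGraph V) (x : V) (R0 L : ℕ) : Prop :=
  ∀ u v, u ∈ ball G x (L + 1) → u ∉ ball G x L → v ∈ ball G x (L + 1) → v ∉ ball G x L →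
    Lnk G (ball G x (L + 1) \ ball G x R0) u v

/-- **Block LAM** (laminar families of separating sets). -/
def Stmt_LAM : Prop :=
  ∀ β m : ℕ, ∃ M : ℕ, ∀ (V : Type) (G : SimpleGraph V) (Pi bd : Set V) (q : ℕ)
    (X : Fin q → Set V), Pi.Finite → Conn G Pi → bd ⊆ Pi →
    (∀ x ∈ Pi, ∀ y, y ∉ Pi → G.Adj x y → x ∈ bd) →
    (∀ i, Conn G (X i) ∧ X i ⊆ Pi ∧ Disjoint (X i) bd ∧ (X i).ncard ≤ β) →
    (∀ i j, i ≠ j → Disjoint (X i) (X j) ∧ Disjoint (X i) (nb G (X j))) →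
    (∀ i, ∃ b ∈ bd, ∃ b' ∈ bd, ¬ Lnk G (Pi \ X i) b b') →
    M * bd.ncard < q →
    ∃ (Φ : Set V) (F : ℕ → Set V), Φ ⊆ Pi ∧ Φ.ncard ≤ β ∧ (∀ l ≤ m, F l ⊆ Pi) ∧
      (∀ l ≤ m, Disjoint (F l) Φ ∧ (nb G (F l) \ Φ).ncard ≤ β ∧ nb G (F l) ⊆ Pi) ∧
      (∀ l < m, F l ∪ (nb G (F l) \ Φ) ⊆ F (l + 1)) ∧ ∀ l < m, F l ≠ F (l + 1)

/-- **Block ONE** (typical one-endedness; uses `SML`, `LAM`, `PL` and `decomp`). -/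
def Stmt_ONE : Prop :=
  ∀ (a b : ℕ) (ω : ℝ) (r : ℕ), 0 < a → ¬ BT ((a : ℝ) / ((b : ℝ) + 1)) →
    Om1 ((a : ℝ) / ((b : ℝ) + 1)) ω → ∀ s : ESeq ((a : ℝ) / ((b : ℝ) + 1)) ω r,
    ∀ (R0 : ℕ) (ε : ℝ), 0 < ε → ∃ L : ℕ, ∀ᶠ j in atTop,
      (({x | ¬ oneG (s.H j) x R0 L}.ncard : ℝ) ≤ ε * s.n j)

/-- A sequence of rooted finite graphs ready for the limit. -/
structure PSeq (ρ : ℝ) (r : ℕ) where
  n : ℕ → ℕ
  H : ∀ m, SimpleGraph (Fin (n m))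
  A : ∀ m, Fin r → Fin (n m) → Prop
  x : ∀ m, Fin (n m)
  B : ℕ → ℕ
  L : ℕ → ℕ
  conn : ∀ m, Conn (H m) univ
  big : ∀ m, m ≤ n m
  mr : ∀ m, MR ρ (Hat (H m) (A m))
  deg : ∀ m, ∀ R ≤ m, ∀ y ∈ ball (H m) (x m) R, dg (H m) y ≤ B R
  one : ∀ m, ∀ R ≤ m, oneG (H m) (x m) R (L R)
  o1 : ∀ m, ∀ F : Set (Fin (n m)), F.ncard ≤ m → 0 ≤ gn ρ (H m) (A m) F
  o2 : ∀ m, ∀ J : Set (Fin (n m)), J.ncard ≤ m → Conn (H m) J →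
    2 * ((nb (H m) J).ncard + (labs (A m) J).ncard : ℝ) + 2 * ρ * (J.ncard - 1) ≤
      incL (H m) (A m) J

/-- **Block PICK** (uses `SML`, `ONE`). -/
def Stmt_PICK : Prop :=
  ∀ (a b : ℕ) (ω : ℝ) (r : ℕ), 0 < a → ¬ BT ((a : ℝ) / ((b : ℝ) + 1)) →
    Om1 ((a : ℝ) / ((b : ℝ) + 1)) ω → ESeq ((a : ℝ) / ((b : ℝ) + 1)) ω r →
    Nonempty (PSeq ((a : ℝ) / ((b : ℝ) + 1)) r)

/-- **Block CPT** (the local limit). -/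
def Stmt_CPT : Prop :=
  ∀ (ρ : ℝ) (r : ℕ), PSeq ρ r →
    ∃ (V : Type) (G : SimpleGraph V) (A : Fin r → V → Prop), Lim ρ G A

/-- **Block LIM** (assembly of Part 4). -/
def Stmt_LIM : Prop :=
  ∀ a b : ℕ, 0 < a → Dense ((a : ℝ) / ((b : ℝ) + 1)) → ¬ BT ((a : ℝ) / ((b : ℝ) + 1)) →
    ∃ (V : Type) (G : SimpleGraph V) (r : ℕ) (A : Fin r → V → Prop),
      Sit ((a : ℝ) / ((b : ℝ) + 1)) G A

end Pool.Agent.Work.MP_216d61_lc
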