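import Pool.Agent.Work.MP_216d61_lc_full.InterfaceLIM
import Pool.Agent.Work.MP_216d61_lc_full.Base1

/-!
# Block LAM: laminar families of separating sets
-/

set_option autoImplicit false

namespace Pool.Agent.Work.MP_216d61_lc

open Relation Set

namespace LAMaux

theorem erase_dich {α : Type*} [DecidableEq α] {b : α} {A A' : Finset α} (hne : A ≠ A')
    (h : A.erase b = A'.erase b) :
    (b ∉ A ∧ b ∈ A' ∧ A = A'.erase b) ∨ (b ∉ A' ∧ b ∈ A ∧ A' = A.erase b) := by
  by_cases h1 : b ∈ A
  · by_cases h2 : b ∈ A'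
    · exfalso
      apply hne
      rw [← Finset.insert_erase h1, ← Finset.insert_erase h2, h]
    · right
      refine ⟨h2, h1, ?_⟩
      rw [h, Finset.erase_eq_of_notMem h2]
  · by_cases h2 : b ∈ A'
    · left
      refine ⟨h1, h2, ?_⟩
      rw [← h, Finset.erase_eq_of_notMem h1]
    · exfalso
      apply hne
      rw [← Finset.erase_eq_of_notMem h1, ← Finset.erase_eq_of_notMem h2, h]

/-- a laminar family of nonempty subsets of a set with `n` elements has at most `2 n` members -/
theorem laminar_card {α : Type*} [DecidableEq α] (B : Finset α) : ∀ 𝓕 : Finset (Finset α),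
    (∀ A ∈ 𝓕, A.Nonempty ∧ A ⊆ B) →
    (∀ A ∈ 𝓕, ∀ A' ∈ 𝓕, A ⊆ A' ∨ A' ⊆ A ∨ Disjoint A A') → 𝓕.card ≤ 2 * B.card := by
  induction B using Finset.induction_on with
  | empty =>
    intro 𝓕 h _
    have h0 : 𝓕 = ∅ := by
      rw [Finset.eq_empty_iff_forall_notMem]
      intro A hA
      obtain ⟨⟨x, hx⟩, h2⟩ := h A hA
      exact absurd (h2 hx) (Finset.notMem_empty x)
    simp [h0]
  | insert b B hb ih =>
    intro 𝓕 h hl
    have h1 : 𝓕.card ≤ (𝓕.erase {b}).card + 1 := by
      have := Finset.pred_card_le_card_erase (s := 𝓕) (a := ({b} : Finset α))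
      omega
    have key : ∀ 𝒮 : Finset (Finset α), 𝒮 ⊆ 𝓕.erase {b} →
        Set.InjOn (fun A : Finset α => A.erase b) (𝒮 : Set (Finset α)) → 𝒮.card ≤ 2 * B.card := by
      intro 𝒮 h𝒮 hinj
      rw [← Finset.card_image_of_injOn hinj]
      apply ih
      · intro A hA
        obtain ⟨C, hC, rfl⟩ := Finset.mem_image.1 hA
        have hC' := h𝒮 hC
        rw [Finset.mem_erase] at hC'
        refine ⟨?_, ?_⟩
        · by_contra hne
          rw [Finset.not_nonempty_iff_eq_empty, Finset.erase_eq_empty_iff] at hne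
          rcases hne with hne | hne
          · exact (h C hC'.2).1.ne_empty hne
          · exact hC'.1 hne
        · intro x hx
          rw [Finset.mem_erase] at hx
          have := (h C hC'.2).2 hx.2
          rw [Finset.mem_insert] at this
          rcases this with this | this
          · exact absurd this hx.1
          · exact this
      · intro A hA A' hA'
        obtain ⟨C, hC, rfl⟩ := Finset.mem_image.1 hA
        obtain ⟨C', hC', rfl⟩ := Finset.mem_image.1 hA'
        rcases hl C (Finset.mem_of_mem_erase (h𝒮 hC)) C' (Finset.mem_of_mem_erase (h𝒮 hC'))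
          with h | h | h
        · exact Or.inl (Finset.erase_subset_erase _ h)
        · exact Or.inr (Or.inl (Finset.erase_subset_erase _ h))
        · exact Or.inr (Or.inr (Finset.disjoint_of_subset_left (Finset.erase_subset _ _)
            (Finset.disjoint_of_subset_right (Finset.erase_subset _ _) h)))
    rw [Finset.card_insert_of_notMem hb]
    by_cases hinj : Set.InjOn (fun A : Finset α => A.erase b) ((𝓕.erase {b} : Finset _) : Set _)
    · have := key (𝓕.erase {b}) (Finset.Subset.refl _) hinj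
      omega
    · have hex : ∃ A1 ∈ 𝓕.erase {b}, ∃ A2 ∈ 𝓕.erase {b}, b ∉ A1 ∧ b ∈ A2 ∧ A1 = A2.erase b := by
        unfold Set.InjOn at hinj
        push Not at hinj
        obtain ⟨A, hA, A', hA', he, hne⟩ := hinj
        rcases erase_dich hne he with hh | hh
        · exact ⟨A, hA, A', hA', hh⟩
        · exact ⟨A', hA', A, hA, hh⟩
      obtain ⟨A1, hA1, A2, hA2, hb1, hb2, he⟩ := hex
      have hno : ∀ C ∈ (𝓕.erase {b}).erase A2, ∀ C' ∈ (𝓕.erase {b}).erase A2,
          b ∉ C → b ∈ C' → C = C'.erase b → False := by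
        intro C hC C' hC' hbC hbC' hCC
        rw [Finset.mem_erase] at hC hC'
        have e1 := (Finset.mem_erase.1 hC.2).2
        have e2 := (Finset.mem_erase.1 hC'.2).2
        have e3 := (Finset.mem_erase.1 hA1).2
        have e4 := (Finset.mem_erase.1 hA2).2
        obtain ⟨c, hc⟩ := (h C e1).1
        obtain ⟨a, ha⟩ := (h A1 e3).1
        have hC1 : C ⊆ C' := by rw [hCC]; exact Finset.erase_subset _ _
        have hA12 : A1 ⊆ A2 := by rw [he]; exact Finset.erase_subset _ _
        have hsub1 : ∀ x ∈ C', x ≠ b → x ∈ C := by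
          intro x hx hxb
          rw [hCC]; exact Finset.mem_erase.2 ⟨hxb, hx⟩
        have hsub2 : ∀ x ∈ A2, x ≠ b → x ∈ A1 := by
          intro x hx hxb
          rw [he]; exact Finset.mem_erase.2 ⟨hxb, hx⟩
        -- `C'` and `A2` are comparable
        rcases hl C' e2 A2 e4 with hh | hh | hh
        · -- `C' ⊂ A2`
          -- compare `C'` with `A1`
          rcases hl C' e2 A1 e3 with h5 | h5 | h5
          · exact hb1 (h5 hbC')
          · -- `A1 ⊆ C'`
            apply hC'.1
            apply Finset.Subset.antisymm hh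
            intro x hx
            by_cases hxb : x = b
            · rw [hxb]; exact hbC'
            · exact h5 (hsub2 x hx hxb)
          · have hcA : c ∈ A1 := hsub2 c (hh (hC1 hc)) (by
              intro hcb; rw [hcb] at hc; exact hbC hc)
            exact Finset.disjoint_left.1 h5 (hC1 hc) hcA
        · rcases hl A2 e4 C e1 with h5 | h5 | h5
          · exact hbC (h5 hb2)
          · apply hC'.1
            apply Finset.Subset.antisymm _ hh
            intro x hx
            by_cases hxb : x = b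
            · rw [hxb]; exact hb2
            · exact h5 (hsub1 x hx hxb)
          · have haC : a ∈ C := hsub1 a (hh (hA12 ha)) (by
              intro hab; rw [hab] at ha; exact hb1 ha)
            exact Finset.disjoint_left.1 h5 (hA12 ha) haC
        · exact Finset.disjoint_left.1 hh hbC' hb2
      have h2 : Set.InjOn (fun A : Finset α => A.erase b)
          (((𝓕.erase {b}).erase A2 : Finset _) : Set (Finset α)) := by
        intro C hC C' hC' hCC
        by_contra hne
        rcases erase_dich hne hCC with hh | hh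
        · exact hno C hC C' hC' hh.1 hh.2.1 hh.2.2
        · exact hno C' hC' C hC hh.1 hh.2.1 hh.2.2
      have h3 := key _ (Finset.erase_subset _ _) h2
      have h4 := Finset.card_erase_add_one hA2
      omega

/-- `Pi` minus the component of `b0` in `Pi \ X` is connected -/
theorem conn_far {V : Type*} {G : SimpleGraph V} {Pi X : Set V} {b0 : V} (hPi : Conn G Pi)
    (hX : Conn G X) (hXP : X ⊆ Pi) :
    Conn G (Pi \ cmp G (Pi \ X) b0) := by
  obtain ⟨x0, hx0⟩ := hX.1
  have hXE : X ⊆ Pi \ cmp G (Pi \ X) b0 := by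
    intro x hx
    exact ⟨hXP hx, fun hc => (cmp_subset hc).2 hx⟩
  refine conn_of_center (x0 := x0) (hXE hx0) ?_
  intro y hy
  by_cases hyX : y ∈ X
  · exact (hX.lnk' hXE hyX hx0).2
  · -- link from `y` to `X`
    have h1 : Lnk G Pi y x0 := hPi.lnk hy.1 (hXP hx0)
    obtain ⟨z, w, hz, hzw, hw, hwP⟩ := h1.hitSet hyX hx0
    have h2 : Lnk G (Pi \ cmp G (Pi \ X) b0) y z := by
      refine hz.restrict ?_
      intro v hv
      refine ⟨hv.mem_right.1, ?_⟩
      intro hvc
      exact hy.2 ((mem_cmp.1 hvc).trans hv.symm)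
    have h3 : Lnk G (Pi \ cmp G (Pi \ X) b0) y w := h2.step hzw (hXE hw)
    exact (h3.trans (hX.lnk' hXE hw hx0)).2

/-- the component of `b0` in `Pi \ X` together with `X` is connected -/
theorem conn_near {V : Type*} {G : SimpleGraph V} {Pi X : Set V} {b0 : V} (hPi : Conn G Pi)
    (hX : Conn G X) (hXP : X ⊆ Pi) (hb0 : b0 ∈ Pi) (hb0X : b0 ∉ X) :
    Conn G (cmp G (Pi \ X) b0 ∪ X) := by
  obtain ⟨x0, hx0⟩ := hX.1
  have h1 : Lnk G Pi b0 x0 := hPi.lnk hb0 (hXP hx0)
  obtain ⟨z, w, hz, hzw, hw, hwP⟩ := h1.hitSet hb0X hx0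
  have h2 : b0 ∈ Pi \ X := ⟨hb0, hb0X⟩
  exact (conn_cmp h2).union_adj hX hz hw hzw

end LAMaux

open LAMaux in
theorem stmt_LAM : Stmt_LAM := by
  classical
  intro β m
  refine ⟨2 * (m + 2), ?_⟩
  intro V G Pi bd q X hPf hPi hbd hout hX hXX hsep hq
  -- a base point
  have hq0 : 0 < q := by omega
  obtain ⟨b0, hb0, -⟩ := hsep ⟨0, hq0⟩
  have hb0P : b0 ∈ Pi := hbd hb0
  have hb0X : ∀ i, b0 ∉ X i := fun i h => disjoint_left.1 (hX i).2.2.1 h hb0
  set O : Fin q → Set V := fun i => cmp G (Pi \ X i) b0 with hO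
  set E : Fin q → Set V := fun i => Pi \ O i with hE
  set D : Fin q → Set V := fun i => E i \ X i with hD
  have hOP : ∀ i, O i ⊆ Pi \ X i := fun i => cmp_subset
  have hXE : ∀ i, X i ⊆ E i := fun i x hx => ⟨(hX i).2.1 hx, fun hc => (hOP i hc).2 hx⟩
  have hDE : ∀ i, D i ⊆ E i := fun i x hx => hx.1
  have hEP : ∀ i, E i ⊆ Pi := fun i x hx => hx.1
  have hconnO : ∀ i, Conn G (O i) := fun i => conn_cmp ⟨hb0P, hb0X i⟩
  have hconnE : ∀ i, Conn G (E i) := fun i => conn_far hPi (hX i).1 (hX i).2.1
  have hconnN : ∀ i, Conn G (O i ∪ X i) := fun i =>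
    conn_near hPi (hX i).1 (hX i).2.1 hb0P (hb0X i)
  have hb0O : ∀ i, b0 ∈ O i := fun i => self_mem_cmp ⟨hb0P, hb0X i⟩
  -- one step from `O i`
  have hstepO : ∀ i x y, x ∈ O i → G.Adj x y → y ∈ Pi → y ∉ X i → y ∈ O i := by
    intro i x y hx hxy hy hyX
    exact Lnk.step hx hxy ⟨hy, hyX⟩
  -- connected sets avoiding `X i` and meeting `O i`
  have hinO : ∀ i (K : Set V), Conn G K → K ⊆ Pi → Disjoint K (X i) → (K ∩ O i).Nonempty →
      K ⊆ O i := by
    intro i K hK hKP hKX ⟨x, hx, hxO⟩ y hy
    have : Lnk G (Pi \ X i) x y :=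
      hK.lnk' (fun z hz => ⟨hKP hz, fun h => disjoint_left.1 hKX hz h⟩) hx hy
    exact (mem_cmp.1 hxO).trans this
  -- laminarity
  have hlam : ∀ i j, i ≠ j → E j ⊆ D i ∨ E i ⊆ D j ∨ Disjoint (E i) (E j) := by
    have hA : ∀ i j, i ≠ j → (¬ X j ⊆ O i) → E j ⊆ D i := by
      intro i j hij hno
      have hdis := (hXX i j hij).1
      have hXj : Disjoint (X j) (O i) := by
        rw [disjoint_left]
        intro x hx hxO
        exact hno (hinO i (X j) (hX j).1 (hX j).2.1 hdis.symm ⟨x, hx, hxO⟩)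
      have h1 : O i ∪ X i ⊆ O j := by
        refine hinO j _ (hconnN i) ?_ ?_ ⟨b0, Or.inl (hb0O i), hb0O j⟩
        · exact union_subset (fun x hx => (hOP i hx).1) (hX i).2.1
        · rw [disjoint_union_left]
          exact ⟨hXj.symm, hdis⟩
      intro x hx
      exact ⟨⟨hx.1, fun h => hx.2 (h1 (Or.inl h))⟩, fun h => hx.2 (h1 (Or.inr h))⟩
    intro i j hij
    by_cases h1 : X j ⊆ O i
    · by_cases h2 : X i ⊆ O j
      · right; right
        have h3 : E i ⊆ O j := by
          obtain ⟨x, hx⟩ := (hX i).1.1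
          refine hinO j _ (hconnE i) (hEP i) ?_ ⟨x, hXE i hx, h2 hx⟩
          rw [disjoint_right]
          intro y hy hyE
          exact hyE.2 (h1 hy)
        rw [disjoint_left]
        intro x hx hxj
        exact hxj.2 (h3 hx)
      · right; left
        exact hA j i hij.symm h2
    · left
      exact hA i j hij h1
  -- traces
  have hbdf : bd.Finite := hPf.subset hbd
  set B : Finset V := hbdf.toFinset with hB
  set T : Fin q → Finset V := fun i => B.filter (fun x => x ∈ E i) with hT
  have hTmem : ∀ i x, x ∈ T i ↔ x ∈ bd ∧ x ∈ E i := by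
    intro i x
    rw [hT]
    simp only [Finset.mem_filter, hB, Set.Finite.mem_toFinset]
  have hTne : ∀ i, (T i).Nonempty := by
    intro i
    obtain ⟨b, hb, b', hb', hbb⟩ := hsep i
    by_cases h1 : b ∈ O i
    · by_cases h2 : b' ∈ O i
      · exact absurd ((mem_cmp.1 h1).symm.trans (mem_cmp.1 h2)) hbb
      · exact ⟨b', (hTmem i b').2 ⟨hb', hbd hb', h2⟩⟩
    · exact ⟨b, (hTmem i b).2 ⟨hb, hbd hb, h1⟩⟩
  have hcard : (Finset.univ.image T).card ≤ 2 * B.card := by
    apply laminar_card
    · intro A hA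
      obtain ⟨i, -, rfl⟩ := Finset.mem_image.1 hA
      exact ⟨hTne i, Finset.filter_subset _ _⟩
    · intro A hA A' hA'
      obtain ⟨i, -, rfl⟩ := Finset.mem_image.1 hA
      obtain ⟨j, -, rfl⟩ := Finset.mem_image.1 hA'
      by_cases hij : i = j
      · subst hij
        exact Or.inl (Finset.Subset.refl _)
      · rcases hlam i j hij with h | h | h
        · right; left
          intro x hx
          rw [hTmem] at hx ⊢
          exact ⟨hx.1, hDE i (h hx.2)⟩
        · left
          intro x hx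
          rw [hTmem] at hx ⊢
          exact ⟨hx.1, hDE j (h hx.2)⟩
        · right; right
          rw [Finset.disjoint_left]
          intro x hx hx'
          rw [hTmem] at hx hx'
          exact disjoint_left.1 h hx.2 hx'.2
  have hBc : B.card = bd.ncard := (Set.ncard_eq_toFinset_card bd hbdf).symm
  -- pigeonhole
  obtain ⟨t, -, ht⟩ := Finset.exists_lt_card_fiber_of_mul_lt_card_of_maps_to
    (s := (Finset.univ : Finset (Fin q))) (t := Finset.univ.image T) (f := T) (n := m + 2)
    (fun i _ => Finset.mem_image_of_mem _ (Finset.mem_univ i)) (by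
      rw [Finset.card_univ, Fintype.card_fin]
      calc (Finset.univ.image T).card * (m + 2) ≤ (2 * B.card) * (m + 2) :=
            Nat.mul_le_mul_right _ hcard
        _ = 2 * (m + 2) * bd.ncard := by rw [hBc]; ring
        _ < q := hq)
  set J : Finset (Fin q) := Finset.univ.filter (fun i => T i = t) with hJ
  have hJt : ∀ i ∈ J, T i = t := fun i hi => (Finset.mem_filter.1 hi).2
  -- in `J` the sets are nested
  have hnest : ∀ i ∈ J, ∀ j ∈ J, i ≠ j → E j ⊆ D i ∨ E i ⊆ D j := by
    intro i hi j hj hij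
    rcases hlam i j hij with h | h | h
    · exact Or.inl h
    · exact Or.inr h
    · exfalso
      obtain ⟨x, hx⟩ := hTne i
      have hx' : x ∈ T j := by rw [hJt j hj, ← hJt i hi]; exact hx
      exact disjoint_left.1 h ((hTmem i x).1 hx).2 ((hTmem j x).1 hx').2
  have hEf : ∀ i, (E i).Finite := fun i => hPf.subset (hEP i)
  have hlt : ∀ i j, E j ⊆ D i → (E j).ncard < (E i).ncard := by
    intro i j h
    apply Set.ncard_lt_ncard _ (hEf i)
    refine ⟨fun x hx => hDE i (h hx), fun hcon => ?_⟩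
    obtain ⟨x, hx⟩ := (hX i).1.1
    exact (h (hcon (hXE i hx))).2 hx
  have hinj : Set.InjOn (fun i => (E i).ncard) (J : Set (Fin q)) := by
    intro i hi j hj hij
    by_contra hne
    rcases hnest i hi j hj hne with h | h
    · have := hlt i j h
      simp only at hij
      omega
    · have := hlt j i h
      simp only at hij
      omega
  have hback : ∀ i ∈ J, ∀ j ∈ J, (E j).ncard < (E i).ncard → E j ⊆ D i := by
    intro i hi j hj h
    have hne : i ≠ j := by rintro rfl; omega
    rcases hnest i hi j hj hne with h' | h'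
    · exact h'
    · have := hlt j i h'
      omega
  -- enumerate
  set K : Finset ℕ := J.image (fun i => (E i).ncard) with hK
  have hKc : K.card = J.card := Finset.card_image_of_injOn hinj
  have hKm : m + 2 < K.card := by rw [hKc]; exact ht
  let e := K.orderEmbOfFin rfl
  have hidx : ∀ k : ℕ, k ≤ m + 1 → ∃ i ∈ J, ∃ hk : k < K.card, (E i).ncard = e ⟨k, hk⟩ := by
    intro k hk
    have hk' : k < K.card := by omega
    have : e ⟨k, hk'⟩ ∈ K := Finset.orderEmbOfFin_mem K rfl _
    obtain ⟨i, hi, hie⟩ := Finset.mem_image.1 this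
    exact ⟨i, hi, hk', hie⟩
  have : Nonempty (Fin q) := ⟨⟨0, hq0⟩⟩
  choose! c hcJ hck hce using hidx
  have hdown : ∀ k l, k < l → l ≤ m + 1 → E (c k) ⊆ D (c l) := by
    intro k l hkl hl
    apply hback _ (hcJ l hl) _ (hcJ k (by omega))
    rw [hce k (by omega), hce l hl]
    exact e.strictMono (by exact hkl)
  have hnb : ∀ l : ℕ, nb G (D (c (m + 1)) \ E (c (m - l))) ⊆
      X (c (m + 1)) ∪ X (c (m - l)) := by
    intro l
    rintro y ⟨hy, x, hx, hxy⟩
    have hxP : x ∈ Pi := hEP _ (hDE _ hx.1)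
    have hxbd : x ∉ bd := by
      intro hxb
      have h1 : x ∈ T (c (m + 1)) := (hTmem _ _).2 ⟨hxb, hDE _ hx.1⟩
      rw [hJt _ (hcJ (m + 1) (le_refl _)), ← hJt _ (hcJ (m - l) (by omega))] at h1
      exact hx.2 ((hTmem _ _).1 h1).2
    have hyP : y ∈ Pi := by
      by_contra hyP
      exact hxbd (hout x hxP y hyP hxy)
    by_cases h1 : y ∈ X (c (m + 1))
    · exact Or.inl h1
    by_cases h2 : y ∈ X (c (m - l))
    · exact Or.inr h2
    exfalso
    have h3 : y ∈ D (c (m + 1)) := by
      refine ⟨⟨hyP, fun hO => ?_⟩, h1⟩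
      exact (hDE _ hx.1).2 (hstepO _ y x hO hxy.symm hxP hx.1.2)
    have h4 : y ∈ E (c (m - l)) := by
      by_contra h4
      exact hy ⟨h3, h4⟩
    have h5 : x ∈ O (c (m - l)) := by
      by_contra h5
      exact hx.2 ⟨hxP, h5⟩
    exact h4.2 (hstepO _ x y h5 hxy hyP h2)
  -- the sets
  refine ⟨X (c (m + 1)), fun l => D (c (m + 1)) \ E (c (m - l)), ?_, ?_, ?_, ?_, ?_, ?_⟩
  · exact (hX _).2.1
  · exact (hX _).2.2.2
  · intro l _ x hx
    exact hEP _ (hDE _ hx.1)
  · intro l hl
    have hsub : E (c (m - l)) ⊆ D (c (m + 1)) := hdown _ _ (by omega) (le_refl _)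
    refine ⟨?_, ?_, ?_⟩
    · rw [disjoint_left]
      intro x hx hx'
      exact hx.1.2 hx'
    · refine (Set.ncard_le_ncard (t := X (c (m - l))) ?_ (hPf.subset (hX _).2.1)).trans
        (hX _).2.2.2
      rintro y ⟨hy, hy'⟩
      rcases hnb l hy with h | h
      · exact absurd h hy'
      · exact h
    · exact (hnb l).trans (union_subset (hX _).2.1 (hX _).2.1)
  · intro l hl
    have hsub : E (c (m - l)) ⊆ D (c (m + 1)) := hdown _ _ (by omega) (le_refl _)
    have hsub2 : E (c (m - (l + 1))) ⊆ D (c (m - l)) := hdown _ _ (by omega) (by omega)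
    rintro x (hx | ⟨hx, hx'⟩)
    · exact ⟨hx.1, fun h => hx.2 (hDE _ (hsub2 h))⟩
    · rcases hnb l hx with h | h
      · exact absurd h hx'
      · exact ⟨hsub (hXE _ h), fun h' => (hsub2 h').2 h⟩
  · intro l hl heq
    have hsub : E (c (m - l)) ⊆ D (c (m + 1)) := hdown _ _ (by omega) (le_refl _)
    have hsub2 : E (c (m - (l + 1))) ⊆ D (c (m - l)) := hdown _ _ (by omega) (by omega)
    obtain ⟨x, hx⟩ := (hX (c (m - l))).1.1
    have h1 : x ∈ D (c (m + 1)) \ E (c (m - (l + 1))) :=
      ⟨hsub (hXE _ hx), fun h' => (hsub2 h').2 hx⟩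
    have h2 : x ∈ D (c (m + 1)) \ E (c (m - l)) := by
      have := heq
      simp only at this
      rw [this]
      exact h1
    exact h2.2 (hXE _ hx)

end Pool.Agent.Work.MP_216d61_lc
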