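import Pool.Agent.Work.MP_216d61_lc_full.Interface

/-!
# Block LB
-/

set_option autoImplicit false

namespace Pool.Agent.Work.MP_216d61_lc

open Relation Set

namespace LBaux

variable {V : Type*} {G : SimpleGraph V} {S T : Set V} {x y z : V}

theorem lright (h : Lnk G S x y) : y ∈ S := by
  rcases h.2.cases_tail with h3 | ⟨c, _, h4⟩
  · rw [h3]; exact h.1
  · exact h4.2.2

theorem lrefl (h : x ∈ S) : Lnk G S x x := ⟨h, ReflTransGen.refl⟩

theorem lsymm (h : Lnk G S x y) : Lnk G S y x := ⟨lright h, link_symm h.2⟩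

theorem ltrans (h : Lnk G S x y) (h' : Lnk G S y z) : Lnk G S x z := ⟨h.1, h.2.trans h'.2⟩

theorem lmono (hST : S ⊆ T) (h : Lnk G S x y) : Lnk G T x y := ⟨hST h.1, link_mono hST h.2⟩

theorem ltail (h : Lnk G S x y) (hz : z ∈ S) (ha : G.Adj y z) : Lnk G S x z :=
  ⟨h.1, h.2.tail ⟨ha, lright h, hz⟩⟩

theorem lconn (hx : x ∈ S) : Conn G {y | Lnk G S x y} := by
  refine conn_of_center (x0 := x) (lrefl hx) ?_
  rintro y ⟨_, hy⟩
  refine link_symm ?_
  induction hy with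
  | refl => exact ReflTransGen.refl
  | tail h1 h2 ih => exact ih.tail ⟨h2.1, ⟨hx, h1⟩, ⟨hx, h1.tail h2⟩⟩

theorem lofconn (hC : Conn G T) (hTS : T ⊆ S) (hx : x ∈ T) (hy : y ∈ T) : Lnk G S x y :=
  ⟨hTS hx, link_mono hTS (hC.2 x hx y hy)⟩

theorem lrestrict (h : Lnk G S x y) (hT : ∀ w, Lnk G S x w → w ∈ T) : Lnk G T x y :=
  lofconn (lconn h.1) hT (lrefl h.1) h

theorem lhit (h : Lnk G S x y) (m : V) (hx : x ≠ m) :
    Lnk G (S \ {m}) x y ∨ ∃ z, Lnk G (S \ {m}) x z ∧ G.Adj z m := by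
  obtain ⟨h1, h2⟩ := h
  induction h2 with
  | refl => exact Or.inl (lrefl ⟨h1, hx⟩)
  | @tail b c _ h3 ih =>
    rcases ih with ih | ih
    · by_cases hc : c = m
      · subst hc
        exact Or.inr ⟨b, ih, h3.1⟩
      · exact Or.inl (ltail ih ⟨h3.2.2, hc⟩ h3.1)
    · exact Or.inr ih

/-- The situation of the proof: `H` is the complement of the component, `M` the attachments
different from `p`, `r`. -/
structure Sit {V : Type*} (G : SimpleGraph V) (H M : Set V) (p r : V) : Prop where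
  hp : p ∈ H
  hr : r ∈ H
  sub : M ⊆ H
  nep : ∀ m ∈ M, m ≠ p
  ner : ∀ m ∈ M, m ≠ r
  lp : ∀ m ∈ M, Lnk G H p m
  lr : ∀ m ∈ M, Lnk G H r m
  sep : ∀ m ∈ M, ¬ Lnk G (H \ {m}) p r

variable {H M : Set V} {p r : V}

theorem Sit.symm (s : Sit G H M p r) : Sit G H M r p :=
  ⟨s.hr, s.hp, s.sub, s.ner, s.nep, s.lr, s.lp, fun m hm h => s.sep m hm (lsymm h)⟩

theorem Sit.hitp (s : Sit G H M p r) {m : V} (hm : m ∈ M) :
    ∃ z, Lnk G (H \ {m}) p z ∧ G.Adj z m := by
  rcases lhit (s.lp m hm) m (s.nep m hm).symm with h | h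
  · exact absurd rfl (lright h).2
  · exact h

/-- (j) -/
theorem Sit.tot (s : Sit G H M p r) {x y : V} (hx : x ∈ M) (hxy : x ≠ y) :
    Lnk G (H \ {x}) p y ∨ Lnk G (H \ {y}) p x := by
  by_cases h : Lnk G (H \ {x}) p y
  · exact Or.inl h
  · obtain ⟨z, hz, ha⟩ := s.hitp hx
    refine Or.inr (ltail (lrestrict hz ?_) ⟨s.sub hx, hxy⟩ ha)
    intro w hw
    refine ⟨(lright hw).1, ?_⟩
    intro hwy
    rw [mem_singleton_iff] at hwy
    subst hwy
    exact h hw

theorem Sit.notboth (s : Sit G H M p r) {m y : V} (hm : m ∈ M) (h1 : Lnk G (H \ {m}) p y)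
    (h2 : Lnk G (H \ {m}) r y) : False := s.sep m hm (ltrans h1 (lsymm h2))

/-- (i) -/
theorem Sit.either (s : Sit G H M p r) {x y : V} (hx : x ∈ M) (hy : y ∈ M) (hxy : x ≠ y) :
    Lnk G (H \ {x}) p y ∨ Lnk G (H \ {x}) r y := by
  by_contra hcon
  push Not at hcon
  rcases s.tot hx hxy with h | h
  · exact hcon.1 h
  · rcases s.symm.tot hx hxy with h' | h'
    · exact hcon.2 h'
    · exact s.notboth hy h h'

/-- (ii) -/
theorem Sit.anti (s : Sit G H M p r) {x y : V} (hx : x ∈ M) (hy : y ∈ M) (hxy : x ≠ y)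
    (h1 : Lnk G (H \ {x}) p y) (h2 : Lnk G (H \ {y}) p x) : False := by
  rcases s.symm.tot hx hxy with h' | h'
  · exact s.notboth hx h1 h'
  · exact s.notboth hy h2 h'

theorem Sit.swap (s : Sit G H M p r) {x y : V} (hx : x ∈ M) (hy : y ∈ M) (hxy : x ≠ y)
    (h1 : Lnk G (H \ {x}) p y) : Lnk G (H \ {y}) r x := by
  rcases s.either hy hx hxy.symm with h | h
  · exact (s.anti hx hy hxy h1 h).elim
  · exact h

/-- three attachments in `M` -/
theorem Sit.three (s : Sit G H M p r) {x y z : V} (hx : x ∈ M) (hy : y ∈ M) (hz : z ∈ M)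
    (hxy : x ≠ y) (hxz : x ≠ z) (hyz : y ≠ z) (h1 : Lnk G (H \ {x}) y z)
    (h2 : Lnk G (H \ {y}) x z) (h3 : Lnk G (H \ {z}) x y) : False := by
  by_cases h : Lnk G (H \ {x}) p y
  · have hxz' : Lnk G (H \ {x}) p z := ltrans h h1
    rcases s.tot hy hyz with h4 | h4
    · exact s.anti hx hy hxy h (ltrans h4 (lsymm h2))
    · exact s.anti hx hz hxz hxz' (ltrans h4 (lsymm h3))
  · have hxz' : ¬ Lnk G (H \ {x}) p z := fun h' => h (ltrans h' (lsymm h1))
    have h4 : Lnk G (H \ {y}) p x := (s.tot hx hxy).resolve_left h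
    have h5 : Lnk G (H \ {z}) p x := (s.tot hx hxz).resolve_left hxz'
    exact s.anti hy hz hyz (ltrans h4 h2) (ltrans h5 h3)

/-- two neighbours of `h` on the side of `p` -/
theorem Sit.two (s : Sit G H M p r) {h u1 u2 : V} (hh : h ∈ M) (h1 : u1 ∈ M ∨ u1 = p)
    (h2 : u2 ∈ M ∨ u2 = p) (h12 : u1 ≠ u2) (a1 : G.Adj h u1) (a2 : G.Adj h u2)
    (l1 : Lnk G (H \ {h}) p u1) (l2 : Lnk G (H \ {h}) p u2) : False := by
  have key : ∀ u v : V, u ∈ M → v ∈ H → u ≠ v → G.Adj h u → G.Adj h v →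
      Lnk G (H \ {h}) p u → Lnk G (H \ {u}) r v := by
    intro u v hu hv huv au av l
    exact ltail (s.swap hh hu (G.ne_of_adj au) l) ⟨hv, huv.symm⟩ av
  rcases h1 with h1 | h1
  · rcases h2 with h2 | h2
    · exact s.symm.anti h1 h2 h12 (key u1 u2 h1 (s.sub h2) h12 a1 a2 l1)
        (key u2 u1 h2 (s.sub h1) h12.symm a2 a1 l2)
    · subst h2
      exact s.symm.sep u1 h1 (key u1 u2 h1 s.hp h12 a1 a2 l1)
  · subst h1
    rcases h2 with h2 | h2
    · exact s.symm.sep u2 h2 (key u2 u1 h2 s.hp h12.symm a2 a1 l2)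
    · exact h12 h2.symm

end LBaux

open LBaux

theorem stmt_LB : Stmt_LB := by
  intro V _ G p q r Lk hpq hqr hpr hLD hWF hne
  classical
  by_contra hcon
  push Not at hcon
  -- the candidates
  let P : Set V → Prop := fun A => Conn G A ∧ p ∈ A ∧ r ∈ A ∧ q ∉ A
  have hex : ∃ A, P A := by
    obtain ⟨h, hh, h1, h2, h3⟩ := hne
    have k1 : Lnk G {q}ᶜ h r := by
      obtain ⟨t, ht, hl⟩ := hWF h hh h1 h2 h3 {q, p} (ncard_pair (Ne.symm hpq)).le (by simp [h1, h2])
      have ht2 := lright hl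
      have : t = r := by
        rcases ht with ht | ht | ht
        · subst ht; simp at ht2
        · subst ht; simp at ht2
        · exact ht
      subst this
      exact lmono (by intro y hy; simp only [mem_compl_iff, mem_insert_iff, mem_singleton_iff, not_or] at hy ⊢; exact hy.1) hl
    have k2 : Lnk G {q}ᶜ h p := by
      obtain ⟨t, ht, hl⟩ := hWF h hh h1 h2 h3 {q, r} (ncard_pair hqr).le (by simp [h3, h2])
      have ht2 := lright hl
      have : t = p := by
        rcases ht with ht | ht | ht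
        · exact ht
        · subst ht; simp at ht2
        · subst ht; simp at ht2
      subst this
      exact lmono (by intro y hy; simp only [mem_compl_iff, mem_insert_iff, mem_singleton_iff, not_or] at hy ⊢; exact hy.1) hl
    refine ⟨{y | Lnk G {q}ᶜ h y}, lconn (by simpa using h2), k2, k1, ?_⟩
    intro hq
    exact absurd rfl (lright hq)
  -- a maximal candidate
  obtain ⟨A, hA, hmax⟩ : ∃ A, P A ∧ ∀ A', P A' →
      {y | Lnk G A'ᶜ q y}.ncard ≤ {y | Lnk G Aᶜ q y}.ncard := by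
    have hfin : (Set.univ : Set (Set V)).Finite := Set.toFinite _
    obtain ⟨A, hA, hm⟩ := Set.exists_max_image {A | P A} (fun A => {y | Lnk G Aᶜ q y}.ncard)
      (Set.toFinite _) hex
    exact ⟨A, hA, hm⟩
  obtain ⟨hAc, hpA, hrA, hqA⟩ := hA
  set C : Set V := {y | Lnk G Aᶜ q y} with hC
  have hCc : Conn G C := lconn hqA
  have hqC : q ∈ C := lrefl hqA
  have hCA : ∀ y ∈ C, y ∉ A := fun y hy => lright hy
  have hdisj : Disjoint A C := by
    rw [disjoint_left]
    intro y hy hy'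
    exact hCA y hy' hy
  have hCL : ∀ y ∈ C, y ∉ Lk := by
    intro y hy hyL
    have he := hcon A C hAc hCc hdisj hpA hrA hqC
    have hmem : y ∈ C ∩ Lk := ⟨hy, hyL⟩
    rw [he] at hmem
    exact hmem
  -- attachments
  set M : Set V := {m | m ∉ C ∧ ∃ c ∈ C, G.Adj c m} with hM
  have hMA : M ⊆ A := by
    rintro m ⟨hmC, c, hc, hcm⟩
    by_contra hmA
    exact hmC (ltail hc hmA hcm)
  have hAH : A ⊆ Cᶜ := fun y hy hy' => hCA y hy' hy
  set M0 : Set V := M \ {p, r} with hM0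
  have sit : Sit G Cᶜ M0 p r := by
    refine ⟨hAH hpA, hAH hrA, fun m hm => hm.1.1, ?_, ?_, ?_, ?_, ?_⟩
    · rintro m hm rfl
      exact hm.2 (by simp)
    · rintro m hm rfl
      exact hm.2 (by simp)
    · intro m hm
      exact lofconn hAc hAH hpA (hMA hm.1)
    · intro m hm
      exact lofconn hAc hAH hrA (hMA hm.1)
    · intro m hm hl
      have hA' : P {y | Lnk G (Cᶜ \ {m}) p y} := by
        refine ⟨lconn hl.1, lrefl hl.1, hl, ?_⟩
        intro hq
        exact (lright hq).1 hqC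
      have h1 := hmax _ hA'
      obtain ⟨hmC, c, hc, hcm⟩ := hm.1
      have hsub : C ⊆ {y | Lnk G {y | Lnk G (Cᶜ \ {m}) p y}ᶜ q y} := by
        intro y hy
        refine lofconn hCc ?_ hqC hy
        intro w hw hw'
        exact (lright hw').1 hw
      have hmem : m ∈ {y | Lnk G {y | Lnk G (Cᶜ \ {m}) p y}ᶜ q y} := by
        refine ltail (hsub hc) ?_ hcm
        intro hw'
        exact (lright hw').2 rfl
      have h2 : C.ncard < {y | Lnk G {y | Lnk G (Cᶜ \ {m}) p y}ᶜ q y}.ncard := by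
        refine ncard_lt_ncard ?_ (Set.toFinite _)
        refine ⟨hsub, fun h => hmC (h hmem)⟩
      omega
  -- Claim 1
  have claim1 : ∀ h ∈ Lk, h ≠ p → h ≠ q → h ≠ r → h ∈ M := by
    intro h hh h1 h2 h3
    by_contra hhM
    have hhC : h ∉ C := fun h' => hCL h h' hh
    set S : Set V := Cᶜ \ (M ∪ {p, r}) with hS
    have hhS : h ∈ S := ⟨hhC, by simp [hhM, h1, h3]⟩
    set W : Set V := {y | Lnk G S h y} with hW
    have hWS : ∀ y ∈ W, y ∈ S := fun y hy => lright hy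
    have hWc : Conn G W := lconn hhS
    set N : Set V := {y | y ∉ W ∧ ∃ w ∈ W, G.Adj w y} with hN
    have hNM : ∀ y ∈ N, y ∈ M0 ∨ y = p ∨ y = r := by
      rintro y ⟨hyW, w, hw, hwy⟩
      have hwS := hWS w hw
      have hyC : y ∉ C := by
        intro hyC
        exact hwS.2 (Or.inl ⟨hwS.1, y, hyC, hwy.symm⟩)
      by_cases hyp : y = p
      · exact Or.inr (Or.inl hyp)
      by_cases hyr : y = r
      · exact Or.inr (Or.inr hyr)
      left
      refine ⟨?_, by simp [hyp, hyr]⟩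
      by_contra hyM
      exact hyW (ltail hw ⟨hyC, by simp [hyM, hyp, hyr]⟩ hwy)
    -- links through W
    have hK : ∀ x ∈ M0, ∀ y ∈ N, ∀ z ∈ N, y ≠ x → z ≠ x → Lnk G (Cᶜ \ {x}) y z := by
      intro x hx y hy z hz hyx hzx
      have hNC : ∀ y ∈ N, y ∉ C := by
        intro y hy
        rcases hNM y hy with h' | h' | h'
        · exact h'.1.1
        · rw [h']; exact hAH hpA
        · rw [h']; exact hAH hrA
      have hyC := hNC y hy
      have hzC := hNC z hz
      obtain ⟨_, w, hw, hwy⟩ := hy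
      obtain ⟨_, w', hw', hwz⟩ := hz
      have hWx : W ⊆ Cᶜ \ {x} := by
        intro v hv
        refine ⟨(hWS v hv).1, ?_⟩
        rintro rfl
        exact (hWS v hv).2 (Or.inl hx.1)
      have hl : Lnk G (Cᶜ \ {x}) w w' := lofconn hWc hWx hw hw'
      have h4 : Lnk G (Cᶜ \ {x}) w z := ltail hl ⟨hzC, hzx⟩ hwz
      exact ltrans (lsymm (ltail (lrefl (hWx hw)) ⟨hyC, hyx⟩ hwy)) h4
    have hN2 : N.ncard ≤ 2 := by
      by_contra hcard
      obtain ⟨x, hx, y, hy, z, hz, hxy, hxz, hyz⟩ :=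
        (Set.two_lt_ncard (Set.toFinite N)).1 (by omega)
      have T1 : ∀ x ∈ N, x ∈ M0 → p ∈ N → r ∈ N → False := by
        intro x _ hx0 hpN hrN
        exact sit.sep x hx0 (hK x hx0 p hpN r hrN (sit.nep x hx0).symm (sit.ner x hx0).symm)
      have T2 : ∀ x ∈ N, ∀ y ∈ N, x ≠ y → x ∈ M0 → y ∈ M0 → p ∈ N → False := by
        intro x hx y hy hxy hx0 hy0 hpN
        exact sit.anti hx0 hy0 hxy (hK x hx0 p hpN y hy (sit.nep x hx0).symm hxy.symm)
          (hK y hy0 p hpN x hx (sit.nep y hy0).symm hxy)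
      have T3 : ∀ x ∈ N, ∀ y ∈ N, x ≠ y → x ∈ M0 → y ∈ M0 → r ∈ N → False := by
        intro x hx y hy hxy hx0 hy0 hrN
        exact sit.symm.anti hx0 hy0 hxy (hK x hx0 r hrN y hy (sit.ner x hx0).symm hxy.symm)
          (hK y hy0 r hrN x hx (sit.ner y hy0).symm hxy)
      rcases hNM x hx with a | a | a <;> rcases hNM y hy with b | b | b <;>
        rcases hNM z hz with c | c | c
      · exact sit.three a b c hxy hxz hyz (hK x a y hy z hz hxy.symm hxz.symm)
          (hK y b x hx z hz hxy hyz.symm) (hK z c x hx y hy hxz hyz)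
      · exact T2 x hx y hy hxy a b (c ▸ hz)
      · exact T3 x hx y hy hxy a b (c ▸ hz)
      · exact T2 x hx z hz hxz a c (b ▸ hy)
      · exact hyz (b.trans c.symm)
      · exact T1 x hx a (b ▸ hy) (c ▸ hz)
      · exact T3 x hx z hz hxz a c (b ▸ hy)
      · exact T1 x hx a (c ▸ hz) (b ▸ hy)
      · exact hyz (b.trans c.symm)
      · exact T2 y hy z hz hyz b c (a ▸ hx)
      · exact hxz (a.trans c.symm)
      · exact T1 y hy b (a ▸ hx) (c ▸ hz)
      · exact hxy (a.trans b.symm)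
      · exact hxy (a.trans b.symm)
      · exact hxy (a.trans b.symm)
      · exact T1 z hz c (a ▸ hx) (b ▸ hy)
      · exact hxz (a.trans c.symm)
      · exact hyz (b.trans c.symm)
      · exact T3 y hy z hz hyz b c (a ▸ hx)
      · exact T1 y hy b (c ▸ hz) (a ▸ hx)
      · exact hxz (a.trans c.symm)
      · exact T1 z hz c (b ▸ hy) (a ▸ hx)
      · exact hyz (b.trans c.symm)
      · exact hxz (a.trans c.symm)
      · exact hxy (a.trans b.symm)
      · exact hxy (a.trans b.symm)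
      · exact hxy (a.trans b.symm)
    obtain ⟨t, ht, hl⟩ := hWF h hh h1 h2 h3 N hN2 (fun hhN => hhN.1 (lrefl hhS))
    have htW : t ∈ W := by
      have : ∀ t, ReflTransGen (fun a b => G.Adj a b ∧ a ∈ Nᶜ ∧ b ∈ Nᶜ) h t → t ∈ W := by
        intro t ht
        induction ht with
        | refl => exact lrefl hhS
        | @tail b c _ h3 ih =>
          by_contra hcW
          exact h3.2.2 ⟨hcW, b, ih, h3.1⟩
      exact this t hl.2
    have htS := hWS t htW
    rcases ht with ht | ht | ht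
    · subst ht
      exact htS.2 (by simp)
    · subst ht
      exact htS.1 hqC
    · subst ht
      exact htS.2 (by simp)
  -- Claim 2
  obtain ⟨h, hh, h1, h2, h3⟩ := hne
  have hhM : h ∈ M0 := ⟨claim1 h hh h1 h2 h3, by simp [h1, h3]⟩
  obtain ⟨u1, ⟨hu1, a1⟩, u2, ⟨hu2, a2⟩, u3, ⟨hu3, a3⟩, h12, h13, h23⟩ :=
    (Set.two_lt_ncard (Set.toFinite (Lk ∩ {y | G.Adj h y}))).1 (by have := hLD h hh h1 h2 h3; omega)
  have hside : ∀ u ∈ Lk, G.Adj h u →
      ((u ∈ M0 ∨ u = p) ∧ Lnk G (Cᶜ \ {h}) p u) ∨ ((u ∈ M0 ∨ u = r) ∧ Lnk G (Cᶜ \ {h}) r u) := by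
    intro u hu au
    by_cases hup : u = p
    · subst hup
      exact Or.inl ⟨Or.inr rfl, lrefl ⟨sit.hp, fun e => h1 (mem_singleton_iff.1 e).symm⟩⟩
    by_cases hur : u = r
    · subst hur
      exact Or.inr ⟨Or.inr rfl, lrefl ⟨sit.hr, fun e => h3 (mem_singleton_iff.1 e).symm⟩⟩
    have huq : u ≠ q := by
      rintro rfl
      exact hCL u hqC hu
    have huM : u ∈ M0 := ⟨claim1 u hu hup huq hur, by simp [hup, hur]⟩
    rcases sit.either hhM huM (G.ne_of_adj au) with h' | h'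
    · exact Or.inl ⟨Or.inl huM, h'⟩
    · exact Or.inr ⟨Or.inl huM, h'⟩
  rcases hside u1 hu1 a1 with s1 | s1 <;> rcases hside u2 hu2 a2 with s2 | s2
  · exact sit.two hhM s1.1 s2.1 h12 a1 a2 s1.2 s2.2
  · rcases hside u3 hu3 a3 with s3 | s3
    · exact sit.two hhM s1.1 s3.1 h13 a1 a3 s1.2 s3.2
    · exact sit.symm.two hhM s2.1 s3.1 h23 a2 a3 s2.2 s3.2
  · rcases hside u3 hu3 a3 with s3 | s3
    · exact sit.two hhM s2.1 s3.1 h23 a2 a3 s2.2 s3.2
    · exact sit.symm.two hhM s1.1 s3.1 h13 a1 a3 s1.2 s3.2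
  · exact sit.symm.two hhM s1.1 s2.1 h12 a1 a2 s1.2 s2.2

end Pool.Agent.Work.MP_216d61_lc
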