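import Pool.Agent.Work.MP_216d61_lc_full.OM

/-!
# MP_216d61_lc full: block LIM (assembly of Part 4)
-/

set_option autoImplicit false

namespace Pool.Agent.Work.MP_216d61_lc

open Relation Set Filter

theorem stmt_LIM (hEXT : Stmt_EXT) (hPICK : Stmt_PICK) (hCPT : Stmt_CPT) : Stmt_LIM := by
  intro a b ha hD hBT
  have hρ : (0 : ℝ) < (a : ℝ) / ((b : ℝ) + 1) := by
    have : (0 : ℝ) < a := by exact_mod_cast ha
    positivity
  obtain ⟨ω, hω, h1, h2⟩ := stmt_OM _ hρ hD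
  obtain ⟨r, ⟨s⟩⟩ := hEXT a b ω ha hBT hω h1 h2
  obtain ⟨p⟩ := hPICK a b ω r ha hBT h1 s
  obtain ⟨V, G, A, hL⟩ := hCPT _ r p
  exact ⟨V, G, r, A, { toLim := hL, rat := ⟨a, b, rfl⟩, nbt := hBT }⟩

end Pool.Agent.Work.MP_216d61_lc
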