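import Pool.Agent.Work.MP_216d61_lc_full.InterfaceINF

/-!
# Block MOV : the moves of the token machine
-/

set_option autoImplicit false

namespace Pool.Agent.Work.MP_216d61_lc

open Relation Set

namespace MOVaux

variable {V : Type} {G : SimpleGraph V}

/-- The union of two meeting connected sets. -/
theorem conn_union {s t : Set V} (hs : Conn G s) (ht : Conn G t) {x : V} (hx : x ∈ s)
    (hx' : x ∈ t) : Conn G (s ∪ t) := by
  refine conn_of_center (x0 := x) (Or.inl hx) ?_
  rintro y (hy | hy)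
  · exact link_mono subset_union_left (hs.2 y hy x hx)
  · exact link_mono subset_union_right (ht.2 y hy x hx')

/-- a segment of a ray -/
def seg (ray : ℕ → ℕ → V) (i a b : ℕ) : Set V := {x | ∃ m, a ≤ m ∧ m ≤ b ∧ x = ray i m}

theorem seg_finite (ray : ℕ → ℕ → V) (i a b : ℕ) : (seg ray i a b).Finite := by
  have h : seg ray i a b = (fun m => ray i m) '' Icc a b := by
    ext x
    constructor
    · rintro ⟨m, h1, h2, rfl⟩
      exact ⟨m, ⟨h1, h2⟩, rfl⟩
    · rintro ⟨m, ⟨h1, h2⟩, rfl⟩
      exact ⟨m, h1, h2, rfl⟩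
  rw [h]
  exact (finite_Icc a b).image _

theorem seg_left {ray : ℕ → ℕ → V} {i a b : ℕ} (h : a ≤ b) : ray i a ∈ seg ray i a b :=
  ⟨a, le_rfl, h, rfl⟩

theorem seg_right {ray : ℕ → ℕ → V} {i a b : ℕ} (h : a ≤ b) : ray i b ∈ seg ray i a b :=
  ⟨b, h, le_rfl, rfl⟩

theorem seg_conn {k : ℕ} {ray : ℕ → ℕ → V} (hr : IsRays G k ray) {i a b : ℕ} (hi : i < k)
    (h : a ≤ b) : Conn G (seg ray i a b) := by
  refine conn_of_center (x0 := ray i a) (seg_left h) ?_
  rintro x ⟨m, h1, h2, rfl⟩
  induction m, h1 using Nat.le_induction with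
  | base => exact ReflTransGen.refl
  | succ m hm ih =>
    refine ReflTransGen.head ⟨(hr.adj i hi m).symm, ⟨m + 1, by omega, h2, rfl⟩,
      ⟨m, hm, by omega, rfl⟩⟩ (ih (by omega))

theorem seg_mem {k : ℕ} {ray : ℕ → ℕ → V} (hr : IsRays G k ray) {i a b j m : ℕ} (hi : i < k)
    (hj : j < k) (h : ray j m ∈ seg ray i a b) : j = i ∧ a ≤ m ∧ m ≤ b := by
  obtain ⟨m', h1, h2, h3⟩ := h
  obtain ⟨h4, h5⟩ := hr.inj j hj i hi m m' h3
  exact ⟨h4, by omega, by omega⟩

/-- Positions of the vertices of a finite set are bounded. -/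
theorem exists_bound {k : ℕ} {ray : ℕ → ℕ → V} (hr : IsRays G k ray) {S : Set V}
    (hS : S.Finite) : ∃ N, ∀ i < k, ∀ n, ray i n ∈ S → n ≤ N := by
  have h1 : {x : ℕ × ℕ | x.1 < k ∧ ray x.1 x.2 ∈ S}.Finite := by
    refine Finite.of_finite_image (f := fun x => ray x.1 x.2) (hS.subset ?_) ?_
    · rintro _ ⟨x, hx, rfl⟩
      exact hx.2
    · rintro ⟨i, m⟩ hx ⟨j, n⟩ hy hxy
      obtain ⟨h2, h3⟩ := hr.inj i hx.1 j hy.1 m n hxy
      rw [h2, h3]
  obtain ⟨N, hN⟩ := (h1.image Prod.snd).bddAbove
  exact ⟨N, fun i hi n hn => hN ⟨(i, n), ⟨hi, hn⟩, rfl⟩⟩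

/-- The finite set which has to be avoided by the next move. -/
def blk (k : ℕ) (ray : ℕ → ℕ → V) (B : Set V) (N : ℕ) : Set V :=
  B ∪ {x | ∃ i n, i < k ∧ n ≤ N ∧ x = ray i n}

theorem blk_finite {k : ℕ} {ray : ℕ → ℕ → V} {B : Set V} {N : ℕ} (hB : B.Finite) :
    (blk k ray B N).Finite := by
  apply hB.union
  have h : {x : V | ∃ i n, i < k ∧ n ≤ N ∧ x = ray i n} =
      (fun x : ℕ × ℕ => ray x.1 x.2) '' (Iio k ×ˢ Iic N) := by
    ext x
    constructor
    · rintro ⟨i, n, h1, h2, rfl⟩
      exact ⟨(i, n), ⟨h1, h2⟩, rfl⟩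
    · rintro ⟨⟨i, n⟩, ⟨h1, h2⟩, rfl⟩
      exact ⟨i, n, h1, h2, rfl⟩
  rw [h]
  exact ((finite_Iio k).prod (finite_Iic N)).image _

theorem lt_of_notMem_blk {k : ℕ} {ray : ℕ → ℕ → V} {B : Set V} {N i n : ℕ} (hi : i < k)
    (h : ray i n ∉ blk k ray B N) : N < n := by
  by_contra hcon
  exact h (Or.inr ⟨i, n, hi, by omega, rfl⟩)

/-- The data of a configuration of tokens. -/
structure Conf (G : SimpleGraph V) (k : ℕ) (ray : ℕ → ℕ → V) {T : ℕ} (c : Fin T → ℕ)
    (E : Fin T → Fin T → Prop) (B : Fin T → Set V) (p : Fin T → ℕ) : Prop where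
  fin : ∀ t, (B t).Finite
  conn : ∀ t, Conn G (B t)
  disj : ∀ t t', t ≠ t' → Disjoint (B t) (B t')
  mem : ∀ t, ray (c t) (p t) ∈ B t
  off : ∀ t t' m, p t < m → ray (c t) m ∉ B t'
  adj : ∀ t t', E t t' → ∃ x ∈ B t, ∃ y ∈ B t', G.Adj x y

theorem tok_iff {k : ℕ} {ray : ℕ → ℕ → V} {T : ℕ} {c : Fin T → ℕ} {E : Fin T → Fin T → Prop} :
    Tok G k ray c E ↔ Function.Injective c ∧ (∀ t, c t < k) ∧ ∃ B p, Conf G k ray c E B p := by
  constructor
  · rintro ⟨h1, h2, B, p, h3, h4, h5, h6, h7⟩
    exact ⟨h1, h2, B, p, fun t => (h3 t).1, fun t => (h3 t).2, h4, h5, h6, h7⟩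
  · rintro ⟨h1, h2, B, p, h⟩
    exact ⟨h1, h2, B, p, fun t => ⟨h.fin t, h.conn t⟩, h.disj, h.mem, h.off, h.adj⟩

section

variable {k : ℕ} {ray : ℕ → ℕ → V} {T : ℕ} {c : Fin T → ℕ} {E : Fin T → Fin T → Prop}
  {B : Fin T → Set V} {p : Fin T → ℕ}

/-- The union of the sets of the tokens and a bound for the positions. -/
theorem Conf.exists_N (hr : IsRays G k ray) (h : Conf G k ray c E B p) (hc : ∀ t, c t < k) :
    ∃ N, (∀ t, p t ≤ N) ∧ (∀ i < k, ∀ n t, ray i n ∈ B t → n ≤ N) ∧
      (blk k ray (⋃ t, B t) N).Finite ∧ ∀ t, B t ⊆ blk k ray (⋃ t, B t) N := by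
  have h1 : (⋃ t, B t).Finite := finite_iUnion h.fin
  obtain ⟨N, hN⟩ := exists_bound hr h1
  exact ⟨N, fun t => hN (c t) (hc t) _ (mem_iUnion_of_mem t (h.mem t)),
    fun i hi n t hn => hN i hi n (mem_iUnion_of_mem t hn), blk_finite h1,
    fun t => (subset_iUnion B t).trans subset_union_left⟩

theorem Conf.seg_disj (hr : IsRays G k ray) (h : Conf G k ray c E B p) (hc : ∀ t, c t < k)
    {t t' : Fin T} (htt : t ≠ t') (s : ℕ) : Disjoint (seg ray (c t) (p t) s) (B t') := by
  rw [disjoint_left]
  rintro x ⟨m, h1, h2, rfl⟩ hx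
  rcases Nat.eq_or_lt_of_le h1 with h3 | h3
  · rw [← h3] at hx
    exact disjoint_left.1 (h.disj t t' htt) (h.mem t) hx
  · exact h.off t t' m h3 hx

/-- Change of the sets of two tokens. -/
theorem tok_two [DecidableEq (Fin T)] (h : Conf G k ray c E B p) (hinj : Function.Injective c)
    (hk : ∀ t, c t < k) {t t' : Fin T} (htt : t ≠ t') (X Y : Set V) (ct ct' pt pt' : ℕ)
    (E' : Fin T → Fin T → Prop)
    (hXf : X.Finite) (hYf : Y.Finite) (hXc : Conn G X) (hYc : Conn G Y)
    (hXB : B t ⊆ X) (hYB : B t' ⊆ Y) (hXY : Disjoint X Y)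
    (hXd : ∀ i, i ≠ t → i ≠ t' → Disjoint X (B i)) (hYd : ∀ i, i ≠ t → i ≠ t' → Disjoint Y (B i))
    (hXm : ray ct pt ∈ X) (hYm : ray ct' pt' ∈ Y) (hck : ct < k) (hck' : ct' < k)
    (hcc : ct ≠ ct') (hf : ∀ i, i ≠ t → i ≠ t' → c i ≠ ct) (hf' : ∀ i, i ≠ t → i ≠ t' → c i ≠ ct')
    (h1 : ∀ m, pt < m → ray ct m ∉ X ∧ ray ct m ∉ Y ∧ ∀ i, i ≠ t → i ≠ t' → ray ct m ∉ B i)
    (h2 : ∀ m, pt' < m → ray ct' m ∉ X ∧ ray ct' m ∉ Y ∧ ∀ i, i ≠ t → i ≠ t' → ray ct' m ∉ B i)
    (h3 : ∀ i, i ≠ t → i ≠ t' → ∀ m, p i < m → ray (c i) m ∉ X ∧ ray (c i) m ∉ Y)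
    (hE : ∀ i j, E' i j → E i j ∨ (i = t ∧ j = t' ∧ ∃ x ∈ X, ∃ y ∈ Y, G.Adj x y) ∨
      (i = t' ∧ j = t ∧ ∃ x ∈ X, ∃ y ∈ Y, G.Adj x y)) :
    Tok G k ray (Function.update (Function.update c t ct) t' ct') E' := by
  classical
  rw [tok_iff]
  have tri : ∀ i : Fin T, i = t ∨ i = t' ∨ (i ≠ t ∧ i ≠ t') := by
    intro i
    by_cases h1 : i = t
    · exact Or.inl h1
    · by_cases h2 : i = t'
      · exact Or.inr (Or.inl h2)
      · exact Or.inr (Or.inr ⟨h1, h2⟩)
  have e : ∀ {α : Type} (g : Fin T → α) (x y : α),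
      Function.update (Function.update g t x) t' y t = x ∧
      Function.update (Function.update g t x) t' y t' = y ∧
      ∀ i, i ≠ t → i ≠ t' → Function.update (Function.update g t x) t' y i = g i := by
    intro α g x y
    refine ⟨?_, Function.update_self _ _ _, ?_⟩
    · rw [Function.update_of_ne htt, Function.update_self]
    · intro i hi hi'
      rw [Function.update_of_ne hi', Function.update_of_ne hi]
  obtain ⟨c1, c2, c3⟩ := e c ct ct'
  set c' := Function.update (Function.update c t ct) t' ct' with hc'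
  set B' := Function.update (Function.update B t X) t' Y with hB'
  set p' := Function.update (Function.update p t pt) t' pt' with hp'
  have b1 : B' t = X := by rw [hB', Function.update_of_ne htt, Function.update_self]
  have b2 : B' t' = Y := Function.update_self _ _ _
  have b3 : ∀ i, i ≠ t → i ≠ t' → B' i = B i := by
    intro i hi hi'
    rw [hB', Function.update_of_ne hi', Function.update_of_ne hi]
  obtain ⟨p1, p2, p3⟩ := e p pt pt'
  rw [← hp'] at p1 p2 p3
  have hBB : ∀ i, B i ⊆ B' i := by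
    intro i
    rcases tri i with rfl | rfl | ⟨hi, hi'⟩
    · rw [b1]; exact hXB
    · rw [b2]; exact hYB
    · rw [b3 i hi hi']
  refine ⟨?_, ?_, B', p', ?_, ?_, ?_, ?_, ?_, ?_⟩
  · intro i j hij
    rcases tri i with rfl | rfl | ⟨hi, hi'⟩ <;> rcases tri j with rfl | rfl | ⟨hj, hj'⟩
    · rfl
    · rw [c1, c2] at hij; exact absurd hij hcc
    · rw [c1, c3 j hj hj'] at hij; exact absurd hij.symm (hf j hj hj')
    · rw [c1, c2] at hij; exact absurd hij.symm hcc
    · rfl
    · rw [c2, c3 j hj hj'] at hij; exact absurd hij.symm (hf' j hj hj')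
    · rw [c1, c3 i hi hi'] at hij; exact absurd hij (hf i hi hi')
    · rw [c2, c3 i hi hi'] at hij; exact absurd hij (hf' i hi hi')
    · rw [c3 i hi hi', c3 j hj hj'] at hij; exact hinj hij
  · intro i
    rcases tri i with rfl | rfl | ⟨hi, hi'⟩
    · rw [c1]; exact hck
    · rw [c2]; exact hck'
    · rw [c3 i hi hi']; exact hk i
  · intro i
    rcases tri i with rfl | rfl | ⟨hi, hi'⟩
    · rw [b1]; exact hXf
    · rw [b2]; exact hYf
    · rw [b3 i hi hi']; exact h.fin i
  · intro i
    rcases tri i with rfl | rfl | ⟨hi, hi'⟩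
    · rw [b1]; exact hXc
    · rw [b2]; exact hYc
    · rw [b3 i hi hi']; exact h.conn i
  · intro i j hij
    rcases tri i with rfl | rfl | ⟨hi, hi'⟩ <;> rcases tri j with rfl | rfl | ⟨hj, hj'⟩
    · exact absurd rfl hij
    · rw [b1, b2]; exact hXY
    · rw [b1, b3 j hj hj']; exact hXd j hj hj'
    · rw [b1, b2]; exact hXY.symm
    · exact absurd rfl hij
    · rw [b2, b3 j hj hj']; exact hYd j hj hj'
    · rw [b1, b3 i hi hi']; exact (hXd i hi hi').symm
    · rw [b2, b3 i hi hi']; exact (hYd i hi hi').symm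
    · rw [b3 i hi hi', b3 j hj hj']; exact h.disj i j hij
  · intro i
    rcases tri i with rfl | rfl | ⟨hi, hi'⟩
    · rw [b1, c1, p1]; exact hXm
    · rw [b2, c2, p2]; exact hYm
    · rw [b3 i hi hi', c3 i hi hi', p3 i hi hi']; exact h.mem i
  · intro i j m hm
    rcases tri i with rfl | rfl | ⟨hi, hi'⟩
    · rw [p1] at hm
      rw [c1]
      rcases tri j with rfl | rfl | ⟨hj, hj'⟩
      · rw [b1]; exact (h1 m hm).1
      · rw [b2]; exact (h1 m hm).2.1
      · rw [b3 j hj hj']; exact (h1 m hm).2.2 j hj hj'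
    · rw [p2] at hm
      rw [c2]
      rcases tri j with rfl | rfl | ⟨hj, hj'⟩
      · rw [b1]; exact (h2 m hm).1
      · rw [b2]; exact (h2 m hm).2.1
      · rw [b3 j hj hj']; exact (h2 m hm).2.2 j hj hj'
    · rw [p3 i hi hi'] at hm
      rw [c3 i hi hi']
      rcases tri j with rfl | rfl | ⟨hj, hj'⟩
      · rw [b1]; exact (h3 i hi hi' m hm).1
      · rw [b2]; exact (h3 i hi hi' m hm).2
      · rw [b3 j hj hj']; exact h.off i j m hm
  · intro i j hij
    rcases hE i j hij with h4 | ⟨rfl, rfl, h4⟩ | ⟨rfl, rfl, x, hx, y, hy, hxy⟩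
    · obtain ⟨x, hx, y, hy, hxy⟩ := h.adj i j h4
      exact ⟨x, hBB i hx, y, hBB j hy, hxy⟩
    · rw [b1, b2]; exact h4
    · rw [b1, b2]; exact ⟨y, hy, x, hx, hxy.symm⟩

end

/-- In a connected set, the part of `x` outside `y` is adjacent to `y`. -/
theorem exists_side {H : Set V} (hH : Conn G H) (hHf : H.Finite) {x y : V} (hx : x ∈ H)
    (hy : y ∈ H) (hxy : x ≠ y) : ∃ H1 ⊆ H, H1.Finite ∧ Conn G H1 ∧ x ∈ H1 ∧ y ∉ H1 ∧
      ∃ z ∈ H1, G.Adj z y := by
  set H1 : Set V := {z | ReflTransGen (fun a b => G.Adj a b ∧ a ∈ H \ {y} ∧ b ∈ H \ {y}) x z}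
    with hH1
  have hsub : H1 ⊆ H \ {y} := by
    intro z hz
    have hz' : ReflTransGen (fun a b => G.Adj a b ∧ a ∈ H \ {y} ∧ b ∈ H \ {y}) x z := hz
    rcases ReflTransGen.cases_tail hz' with h | ⟨w, -, h⟩
    · rw [h]; exact ⟨hx, hxy⟩
    · exact h.2.2
  have hcl : ∀ z ∈ H1, ∀ w ∈ H, G.Adj z w → w ≠ y → w ∈ H1 := by
    intro z hz w hw hzw hwy
    exact ReflTransGen.tail hz ⟨hzw, hsub hz, ⟨hw, hwy⟩⟩
  refine ⟨H1, fun z hz => (hsub hz).1, hHf.subset fun z hz => (hsub hz).1, ?_,
    ReflTransGen.refl, fun h => (hsub h).2 rfl, ?_⟩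
  · refine conn_of_center (x0 := x) ReflTransGen.refl ?_
    intro z hz
    apply link_symm
    have key : ∀ z, ReflTransGen (fun a b => G.Adj a b ∧ a ∈ H \ {y} ∧ b ∈ H \ {y}) x z →
        ReflTransGen (fun a b => G.Adj a b ∧ a ∈ H1 ∧ b ∈ H1) x z := by
      intro z hz
      induction hz with
      | refl => exact ReflTransGen.refl
      | tail h1 h2 ih => exact ih.tail ⟨h2.1, h1, h1.tail h2⟩
    exact key z hz
  · by_contra hcon
    push Not at hcon
    have key : ∀ z, ReflTransGen (fun a b => G.Adj a b ∧ a ∈ H ∧ b ∈ H) x z → z ∈ H1 := by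
      intro z hz
      induction hz with
      | refl => exact ReflTransGen.refl
      | @tail b w h1 h2 ih =>
        by_cases hw : w = y
        · subst hw
          exact absurd h2.1 (hcon b ih)
        · exact hcl b ih w h2.2.2 h2.1 hw
    exact (hsub (key y (hH.2 x hx y hy))).2 rfl

end MOVaux

open MOVaux

theorem stmt_MOV : Stmt_MOV := by
  classical
  intro V G k ray T hr
  refine ⟨?_, ?_, ?_, ?_, ?_⟩
  · -- start
    intro c hc hk
    rw [tok_iff]
    refine ⟨hc, hk, fun t => {ray (c t) 0}, fun _ => 0, fun t => finite_singleton _,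
      fun t => conn_singleton _, ?_, fun t => rfl, ?_, fun t t' h => h.elim⟩
    · intro t t' htt
      rw [disjoint_singleton]
      intro h
      exact htt (hc (hr.inj _ (hk t) _ (hk t') _ _ h).1)
    · intro t t' m hm h
      have h1 := (hr.inj _ (hk t) _ (hk t') _ _ (mem_singleton_iff.1 h)).2
      omega
  · -- step
    intro c E t b h hb hfree hra
    rw [tok_iff] at h ⊢
    obtain ⟨hinj, hk, B, p, h⟩ := h
    obtain ⟨N, hpN, hN, hfin, hsub⟩ := h.exists_N hr hk
    obtain ⟨s, u, H, hHf, hHc, hHS, hs, hu, hH⟩ := hra _ hfin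
    have hsN : N < s := lt_of_notMem_blk (hk t) (disjoint_left.1 hHS hs)
    have huN : N < u := lt_of_notMem_blk hb (disjoint_left.1 hHS hu)
    have hps : p t ≤ s := (hpN t).trans hsN.le
    set D : Set V := seg ray (c t) (p t) s ∪ H with hD
    have hDc : Conn G D := conn_union (seg_conn hr (hk t) hps) hHc (seg_right hps) hs
    have hHB : ∀ t', Disjoint H (B t') := fun t' => hHS.mono_right (hsub t')
    have hDB : ∀ t', t' ≠ t → Disjoint D (B t') := by
      intro t' htt
      exact disjoint_union_left.2 ⟨h.seg_disj hr hk htt.symm s, hHB t'⟩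
    refine ⟨?_, ?_, Function.update B t (B t ∪ D), Function.update p t u, ?_⟩
    · intro t1 t2 h12
      by_cases h1 : t1 = t <;> by_cases h2 : t2 = t
      · rw [h1, h2]
      · rw [h1, Function.update_self, Function.update_of_ne h2] at h12
        exact absurd h12.symm (hfree t2)
      · rw [h2, Function.update_self, Function.update_of_ne h1] at h12
        exact absurd h12 (hfree t1)
      · rw [Function.update_of_ne h1, Function.update_of_ne h2] at h12
        exact hinj h12
    · intro t1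
      by_cases h1 : t1 = t
      · rw [h1, Function.update_self]; exact hb
      · rw [Function.update_of_ne h1]; exact hk t1
    · refine ⟨?_, ?_, ?_, ?_, ?_, ?_⟩
      · intro t1
        by_cases h1 : t1 = t
        · subst h1
          rw [Function.update_self]
          exact (h.fin _).union ((seg_finite _ _ _ _).union hHf)
        · rw [Function.update_of_ne h1]; exact h.fin t1
      · intro t1
        by_cases h1 : t1 = t
        · subst h1
          rw [Function.update_self]
          exact conn_union (h.conn _) hDc (h.mem _) (Or.inl (seg_left hps))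
        · rw [Function.update_of_ne h1]; exact h.conn t1
      · intro t1 t2 h12
        by_cases h1 : t1 = t <;> by_cases h2 : t2 = t
        · exact absurd (h1.trans h2.symm) h12
        · subst h1
          rw [Function.update_self, Function.update_of_ne h2]
          exact disjoint_union_left.2 ⟨h.disj _ _ h12, hDB _ h2⟩
        · subst h2
          rw [Function.update_self, Function.update_of_ne h1]
          exact disjoint_union_right.2 ⟨h.disj _ _ h12, (hDB _ h1).symm⟩
        · rw [Function.update_of_ne h1, Function.update_of_ne h2]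
          exact h.disj _ _ h12
      · intro t1
        by_cases h1 : t1 = t
        · subst h1
          rw [Function.update_self, Function.update_self, Function.update_self]
          exact Or.inr (Or.inr hu)
        · rw [Function.update_of_ne h1, Function.update_of_ne h1, Function.update_of_ne h1]
          exact h.mem t1
      · intro t1 t2 m
        by_cases h1 : t1 = t
        · subst h1
          rw [Function.update_self, Function.update_self]
          intro hm hx
          by_cases h2 : t2 = t1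
          · subst h2
            rw [Function.update_self] at hx
            rcases hx with hx | hx | hx
            · have := hN b hb m _ hx; omega
            · exact hfree t2 (seg_mem hr (hk t2) hb hx).1.symm
            · rcases hH b hb m hx with h3 | h3
              · exact hfree _ h3.1.symm
              · omega
          · rw [Function.update_of_ne h2] at hx
            have := hN b hb m _ hx; omega
        · rw [Function.update_of_ne h1, Function.update_of_ne h1]
          intro hm hx
          by_cases h2 : t2 = t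
          · subst h2
            rw [Function.update_self] at hx
            rcases hx with hx | hx | hx
            · exact h.off t1 _ m hm hx
            · exact h1 (hinj (seg_mem hr (hk t2) (hk t1) hx).1)
            · rcases hH _ (hk t1) m hx with h3 | h3
              · exact h1 (hinj h3.1)
              · exact hfree _ h3.1
          · rw [Function.update_of_ne h2] at hx
            exact h.off t1 _ m hm hx
      · intro t1 t2 h12
        obtain ⟨x, hx, y, hy, hxy⟩ := h.adj t1 t2 h12
        refine ⟨x, ?_, y, ?_, hxy⟩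
        · by_cases h1 : t1 = t
          · subst h1; rw [Function.update_self]; exact Or.inl hx
          · rw [Function.update_of_ne h1]; exact hx
        · by_cases h1 : t2 = t
          · subst h1; rw [Function.update_self]; exact Or.inl hy
          · rw [Function.update_of_ne h1]; exact hy
  · -- contact
    intro c E t t' h htt hra
    rw [tok_iff] at h
    obtain ⟨hinj, hk, B, p, h⟩ := h
    obtain ⟨N, hpN, hN, hfin, hsub⟩ := h.exists_N hr hk
    obtain ⟨s, u, H, hHf, hHc, hHS, hs, hu, hH⟩ := hra _ hfin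
    have hcne : c t ≠ c t' := fun h' => htt (hinj h')
    have hsN : N < s := lt_of_notMem_blk (hk t) (disjoint_left.1 hHS hs)
    have huN : N < u := lt_of_notMem_blk (hk t') (disjoint_left.1 hHS hu)
    have hps : p t ≤ s := (hpN t).trans hsN.le
    have hpu : p t' ≤ u := (hpN t').trans huN.le
    have hsune : ray (c t) s ≠ ray (c t') u := fun h' => hcne (hr.inj _ (hk t) _ (hk t') _ _ h').1
    obtain ⟨H1, hH1H, hH1f, hH1c, hsH1, huH1, z, hz, hzu⟩ := exists_side hHc hHf hs hu hsune
    have hHB : ∀ i, Disjoint H1 (B i) := fun i => (hHS.mono_right (hsub i)).mono_left hH1H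
    set X : Set V := B t ∪ (seg ray (c t) (p t) s ∪ H1) with hX
    set Y : Set V := B t' ∪ seg ray (c t') (p t') u with hY
    have hfun : c = Function.update (Function.update c t (c t)) t' (c t') := by
      rw [Function.update_eq_self, Function.update_eq_self]
    rw [hfun]
    refine tok_two h hinj hk htt X Y (c t) (c t') s u _ ?_ ?_ ?_ ?_ ?_ ?_ ?_ ?_ ?_ ?_ ?_ (hk t)
      (hk t') hcne (fun i hi _ h' => hi (hinj h')) (fun i _ hi h' => hi (hinj h')) ?_ ?_ ?_ ?_
    · exact (h.fin t).union ((seg_finite _ _ _ _).union hH1f)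
    · exact (h.fin t').union (seg_finite _ _ _ _)
    · exact conn_union (h.conn t) (conn_union (seg_conn hr (hk t) hps) hH1c (seg_right hps) hsH1)
        (h.mem t) (Or.inl (seg_left hps))
    · exact conn_union (h.conn t') (seg_conn hr (hk t') hpu) (h.mem t') (seg_left hpu)
    · exact subset_union_left
    · exact subset_union_left
    · rw [hX, hY, disjoint_union_left, disjoint_union_left, disjoint_union_right,
        disjoint_union_right, disjoint_union_right]
      refine ⟨⟨h.disj _ _ htt, (h.seg_disj hr hk htt.symm u).symm⟩,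
        ⟨h.seg_disj hr hk htt s, ?_⟩, ⟨hHB t', ?_⟩⟩
      · rw [disjoint_left]
        rintro x ⟨m, h1, h2, rfl⟩ hx
        exact hcne (seg_mem hr (hk t') (hk t) hx).1
      · rw [disjoint_right]
        rintro x ⟨m, h1, h2, rfl⟩ hx
        rcases hH _ (hk t') m (hH1H hx) with h3 | h3
        · exact hcne h3.1.symm
        · rw [h3.2] at hx
          exact huH1 hx
    · intro i hi hi'
      exact disjoint_union_left.2 ⟨h.disj _ _ (Ne.symm hi),
        disjoint_union_left.2 ⟨h.seg_disj hr hk (Ne.symm hi) s, hHB i⟩⟩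
    · intro i hi hi'
      exact disjoint_union_left.2 ⟨h.disj _ _ (Ne.symm hi'), h.seg_disj hr hk (Ne.symm hi') u⟩
    · exact Or.inr (Or.inl (seg_right hps))
    · exact Or.inr (seg_right hpu)
    · intro m hm
      refine ⟨?_, ?_, ?_⟩
      · rintro (hx | hx | hx)
        · exact h.off t t m (by omega) hx
        · have := (seg_mem hr (hk t) (hk t) hx).2.2; omega
        · rcases hH _ (hk t) m (hH1H hx) with h3 | h3
          · omega
          · exact hcne h3.1
      · rintro (hx | hx)
        · exact h.off t t' m (by omega) hx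
        · exact hcne (seg_mem hr (hk t') (hk t) hx).1
      · intro i _ _
        exact h.off t i m (by omega)
    · intro m hm
      refine ⟨?_, ?_, ?_⟩
      · rintro (hx | hx | hx)
        · exact h.off t' t m (by omega) hx
        · exact hcne (seg_mem hr (hk t) (hk t') hx).1.symm
        · rcases hH _ (hk t') m (hH1H hx) with h3 | h3
          · exact hcne h3.1.symm
          · omega
      · rintro (hx | hx)
        · exact h.off t' t' m (by omega) hx
        · have := (seg_mem hr (hk t') (hk t') hx).2.2; omega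
      · intro i _ _
        exact h.off t' i m (by omega)
    · intro i hi hi' m hm
      refine ⟨?_, ?_⟩
      · rintro (hx | hx | hx)
        · exact h.off i t m hm hx
        · exact hi (hinj (seg_mem hr (hk t) (hk i) hx).1)
        · rcases hH _ (hk i) m (hH1H hx) with h3 | h3
          · exact hi (hinj h3.1)
          · exact hi' (hinj h3.1)
      · rintro (hx | hx)
        · exact h.off i t' m hm hx
        · exact hi' (hinj (seg_mem hr (hk t') (hk i) hx).1)
    · have hadj : ∃ x ∈ X, ∃ y ∈ Y, G.Adj x y :=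
        ⟨z, Or.inr (Or.inr hz), ray (c t') u, Or.inr (seg_right hpu), hzu⟩
      intro i j hij
      rcases hij with h4 | ⟨h4, h5⟩ | ⟨h4, h5⟩
      · exact Or.inl h4
      · exact Or.inr (Or.inl ⟨h4, h5, hadj⟩)
      · exact Or.inr (Or.inr ⟨h4, h5, hadj⟩)
  · -- exchange
    intro c E t t' a b h htt hgad hfar
    rw [tok_iff] at h
    obtain ⟨hinj, hk, B, p, h⟩ := h
    obtain ⟨N, hpN, hN, hfin, hsub⟩ := h.exists_N hr hk
    obtain ⟨P, Q, s1, s0, t0, t1, hPf, hQf, hPc, hQc, hPQ, hPS, hQS, hs10, ht01, hPs1, hPt1, hQt0,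
      hQs0, g1, g2, g3, g4, g5⟩ := hgad _ hfin
    have hcne : c t ≠ c t' := fun h' => htt (hinj h')
    have hs1N : N < s1 := lt_of_notMem_blk (hk t) (disjoint_left.1 hPS hPs1)
    have ht1N : N < t1 := lt_of_notMem_blk (hk t') (disjoint_left.1 hPS hPt1)
    have ht0N : N < t0 := lt_of_notMem_blk (hk t') (disjoint_left.1 hQS hQt0)
    have hs0N : N < s0 := lt_of_notMem_blk (hk t) (disjoint_left.1 hQS hQs0)
    have hps : p t ≤ s1 := (hpN t).trans hs1N.le
    have hpt : p t' ≤ t0 := (hpN t').trans ht0N.le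
    obtain ⟨NP, hNP⟩ := exists_bound hr hPf
    obtain ⟨NQ, hNQ⟩ := exists_bound hr hQf
    have hM : t1 ≤ NP := hNP _ (hk t') _ hPt1
    have hM' : s0 ≤ NQ := hNQ _ (hk t) _ hQs0
    have hPB : ∀ i, Disjoint P (B i) := fun i => hPS.mono_right (hsub i)
    have hQB : ∀ i, Disjoint Q (B i) := fun i => hQS.mono_right (hsub i)
    set X : Set V := B t ∪ (seg ray (c t) (p t) s1 ∪ (P ∪ seg ray (c t') t1 NP)) with hX
    set Y : Set V := B t' ∪ (seg ray (c t') (p t') t0 ∪ (Q ∪ seg ray (c t) s0 NQ)) with hY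
    have hsegB : ∀ j < k, ∀ x y, N < x → ∀ i, Disjoint (seg ray j x y) (B i) := by
      intro j hj x y hx i
      rw [disjoint_left]
      rintro z ⟨m, h1, h2, rfl⟩ hz
      have := hN j hj m i hz
      omega
    refine tok_two h hinj hk htt X Y (c t') (c t) NP NQ _ ?_ ?_ ?_ ?_ ?_ ?_ ?_ ?_ ?_ ?_ ?_ (hk t')
      (hk t) hcne.symm (fun i _ hi h' => hi (hinj h')) (fun i hi _ h' => hi (hinj h')) ?_ ?_ ?_ ?_
    · exact (h.fin t).union ((seg_finite _ _ _ _).union (hPf.union (seg_finite _ _ _ _)))
    · exact (h.fin t').union ((seg_finite _ _ _ _).union (hQf.union (seg_finite _ _ _ _)))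
    · exact conn_union (h.conn t) (conn_union (seg_conn hr (hk t) hps)
        (conn_union hPc (seg_conn hr (hk t') hM) hPt1 (seg_left hM)) (seg_right hps)
        (Or.inl hPs1)) (h.mem t) (Or.inl (seg_left hps))
    · exact conn_union (h.conn t') (conn_union (seg_conn hr (hk t') hpt)
        (conn_union hQc (seg_conn hr (hk t) hM') hQs0 (seg_left hM')) (seg_right hpt)
        (Or.inl hQt0)) (h.mem t') (Or.inl (seg_left hpt))
    · exact subset_union_left
    · exact subset_union_left
    · rw [hX, hY]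
      have d4 : ∀ x a b c d : Set V, Disjoint x a → Disjoint x b → Disjoint x c → Disjoint x d →
          Disjoint x (a ∪ (b ∪ (c ∪ d))) := fun x a b c d ha hb hc hd =>
        disjoint_union_right.2 ⟨ha, disjoint_union_right.2 ⟨hb, disjoint_union_right.2 ⟨hc, hd⟩⟩⟩
      refine disjoint_union_left.2 ⟨d4 _ _ _ _ _ (h.disj _ _ htt)
        (h.seg_disj hr hk htt.symm t0).symm (hQB t).symm (hsegB _ (hk t) _ _ hs0N t).symm,
        disjoint_union_left.2 ⟨d4 _ _ _ _ _ (h.seg_disj hr hk htt s1) ?_ ?_ ?_,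
        disjoint_union_left.2 ⟨d4 _ _ _ _ _ (hPB t') ?_ hPQ ?_,
          d4 _ _ _ _ _ (hsegB _ (hk t') _ _ ht1N t') ?_ ?_ ?_⟩⟩⟩
      · rw [disjoint_left]
        rintro x ⟨m, h1, h2, rfl⟩ hx
        exact hcne (seg_mem hr (hk t') (hk t) hx).1
      · rw [disjoint_left]
        rintro x ⟨m, h1, h2, rfl⟩ hx
        exact g1 m h2 hx
      · rw [disjoint_left]
        rintro x ⟨m, h1, h2, rfl⟩ hx
        have := (seg_mem hr (hk t) (hk t) hx).2.1
        omega
      · rw [disjoint_right]
        rintro x ⟨m, h1, h2, rfl⟩ hx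
        exact g3 m h2 hx
      · rw [disjoint_right]
        rintro x ⟨m, h1, h2, rfl⟩ hx
        exact g2 m h1 hx
      · rw [disjoint_left]
        rintro x ⟨m, h1, h2, rfl⟩ hx
        have := (seg_mem hr (hk t') (hk t') hx).2.2
        omega
      · rw [disjoint_left]
        rintro x ⟨m, h1, h2, rfl⟩ hx
        exact g4 m h1 hx
      · rw [disjoint_left]
        rintro x ⟨m, h1, h2, rfl⟩ hx
        exact hcne (seg_mem hr (hk t) (hk t') hx).1.symm
    · intro i hi hi'
      exact disjoint_union_left.2 ⟨h.disj _ _ (Ne.symm hi),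
        disjoint_union_left.2 ⟨h.seg_disj hr hk (Ne.symm hi) s1,
          disjoint_union_left.2 ⟨hPB i, hsegB _ (hk t') _ _ ht1N i⟩⟩⟩
    · intro i hi hi'
      exact disjoint_union_left.2 ⟨h.disj _ _ (Ne.symm hi'),
        disjoint_union_left.2 ⟨h.seg_disj hr hk (Ne.symm hi') t0,
          disjoint_union_left.2 ⟨hQB i, hsegB _ (hk t) _ _ hs0N i⟩⟩⟩
    · exact Or.inr (Or.inr (Or.inr (seg_right hM)))
    · exact Or.inr (Or.inr (Or.inr (seg_right hM')))
    · intro m hm
      refine ⟨?_, ?_, ?_⟩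
      · rintro (hx | hx | hx | hx)
        · have := hN _ (hk t') m _ hx; omega
        · exact hcne (seg_mem hr (hk t) (hk t') hx).1.symm
        · have := hNP _ (hk t') m hx; omega
        · have := (seg_mem hr (hk t') (hk t') hx).2.2; omega
      · rintro (hx | hx | hx | hx)
        · have := hN _ (hk t') m _ hx; omega
        · have := (seg_mem hr (hk t') (hk t') hx).2.2; omega
        · exact g4 m (by omega) hx
        · exact hcne (seg_mem hr (hk t) (hk t') hx).1.symm
      · intro i _ _ hx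
        have := hN _ (hk t') m _ hx; omega
    · intro m hm
      refine ⟨?_, ?_, ?_⟩
      · rintro (hx | hx | hx | hx)
        · have := hN _ (hk t) m _ hx; omega
        · have := (seg_mem hr (hk t) (hk t) hx).2.2; omega
        · exact g2 m (by omega) hx
        · exact hcne (seg_mem hr (hk t') (hk t) hx).1
      · rintro (hx | hx | hx | hx)
        · have := hN _ (hk t) m _ hx; omega
        · exact hcne (seg_mem hr (hk t') (hk t) hx).1
        · have := hNQ _ (hk t) m hx; omega
        · have := (seg_mem hr (hk t) (hk t) hx).2.2; omega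
      · intro i _ _ hx
        have := hN _ (hk t) m _ hx; omega
    · intro i hi hi' m hm
      have hg := g5 (c i) (hk i) (hfar i hi hi') m
      refine ⟨?_, ?_⟩
      · rintro (hx | hx | hx | hx)
        · exact h.off i t m hm hx
        · exact hi (hinj (seg_mem hr (hk t) (hk i) hx).1)
        · exact hg.1 hx
        · exact hi' (hinj (seg_mem hr (hk t') (hk i) hx).1)
      · rintro (hx | hx | hx | hx)
        · exact h.off i t' m hm hx
        · exact hi' (hinj (seg_mem hr (hk t') (hk i) hx).1)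
        · exact hg.2 hx
        · exact hi (hinj (seg_mem hr (hk t) (hk i) hx).1)
    · intro i j hij
      exact Or.inl hij
  · -- end
    intro c E h hE
    rw [tok_iff] at h
    obtain ⟨-, -, B, p, h⟩ := h
    refine Model.minor (f := B) ⟨h.disj, h.conn, ?_⟩
    intro i j hij
    exact h.adj i j (hE i j hij)

end Pool.Agent.Work.MP_216d61_lc
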