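import Pool.Agent.Work.MP_216d61_lc_full.InterfaceINF
import Pool.Agent.Work.MP_216d61_lc_full.Base1

/-!
# MP_216d61_lc, block NEST: nested frames around a finite set
-/

set_option autoImplicit false

namespace Pool.Agent.Work.MP_216d61_lc

open Relation Set

namespace NestAux

variable {V : Type} {G : SimpleGraph V} {T K : ℕ} {ray : ℕ → ℕ → V} {S1 : Set V}

theorem Col.mono' {S S' : Set V} {a b : ℕ} {L : Set V} {lo hi : ℕ → ℕ}
    (h : Col G K ray S' a b L lo hi) (hS : S ⊆ S') : Col G K ray S a b L lo hi :=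
  ⟨h.fin, h.conn, h.disj.mono_right hS, h.le, h.on, h.off, h.enda, h.endb⟩

/-- initial segments -/
def Ini (K : ℕ) (ray : ℕ → ℕ → V) (N : ℕ) : Set V := {x | ∃ i n, i < K ∧ n ≤ N ∧ x = ray i n}

theorem ini_finite (K : ℕ) (ray : ℕ → ℕ → V) (N : ℕ) : (Ini K ray N).Finite := by
  refine (((Set.finite_Iio K).prod (Set.finite_Iic N)).image (fun p => ray p.1 p.2)).subset ?_
  rintro _ ⟨i, n, h1, h2, rfl⟩
  exact ⟨(i, n), ⟨h1, h2⟩, rfl⟩

theorem next_col (hC : Stmt_COL) (hs : Strip G T K ray S1) {A : Set V} (hA : A.Finite)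
    {a b : ℕ} (N : ℕ) (hab : a ≤ b) (hb : b < K) : ∃ (L : Set V) (lo hi : ℕ → ℕ) (N' : ℕ),
      Col G K ray A a b L lo hi ∧ N ≤ N' ∧ ∀ i, a ≤ i → i ≤ b → N < lo i ∧ hi i ≤ N' := by
  obtain ⟨L, lo, hi, h⟩ := hC V G T K ray S1 hs (A ∪ Ini K ray N) a b
    (hA.union (ini_finite K ray N)) hab hb
  refine ⟨L, lo, hi, N + ∑ i ∈ Finset.range (b + 1), hi i, Col.mono' h subset_union_left,
    Nat.le_add_right _ _, fun i h1 h2 => ⟨?_, ?_⟩⟩
  · by_contra hcon
    have h3 : ray i (lo i) ∈ L := (h.on i h1 h2 _).2 ⟨le_rfl, h.le i h1 h2⟩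
    exact disjoint_left.1 h.disj h3 (Or.inr ⟨i, lo i, by omega, by omega, rfl⟩)
  · have := Finset.single_le_sum (f := hi) (s := Finset.range (b + 1))
      (fun _ _ => Nat.zero_le _) (Finset.mem_range.2 (show i < b + 1 by omega))
    omega

/-- a sequence of columns, each beyond the preceding ones -/
theorem cols (hC : Stmt_COL) (hs : Strip G T K ray S1) {A : Set V} (hA : A.Finite) (N : ℕ)
    (a b : ℕ → ℕ) (n : ℕ) (hab : ∀ k < n, a k ≤ b k ∧ b k < K) :
    ∃ (L : ℕ → Set V) (lo hi : ℕ → ℕ → ℕ) (M : ℕ → ℕ), M 0 = N ∧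
      (∀ k < n, M k ≤ M (k + 1)) ∧
      (∀ k < n, Col G K ray A (a k) (b k) (L k) (lo k) (hi k)) ∧
      (∀ k < n, ∀ i, a k ≤ i → i ≤ b k → M k < lo k i ∧ hi k i ≤ M (k + 1)) ∧
      (∀ k < n, ∀ k' < n, k ≠ k' → Disjoint (L k) (L k')) := by
  induction n with
  | zero => exact ⟨fun _ => ∅, fun _ _ => 0, fun _ _ => 0, fun _ => N, rfl,
      fun k hk => absurd hk (Nat.not_lt_zero _), fun k hk => absurd hk (Nat.not_lt_zero _),
      fun k hk => absurd hk (Nat.not_lt_zero _), fun k hk => absurd hk (Nat.not_lt_zero _)⟩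
  | succ n ih =>
    obtain ⟨L, lo, hi, M, h0, h1, h2, h3, h4⟩ := ih fun k hk => hab k (by omega)
    have hfin : (A ∪ ⋃ k ∈ {k | k < n}, L k).Finite := by
      refine hA.union ((Set.finite_Iio n).biUnion fun k hk => (h2 k hk).fin)
    obtain ⟨L', lo', hi', N', g1, g2, g3⟩ := next_col hC hs hfin (M n) (hab n (by omega)).1
      (hab n (by omega)).2
    have hne : ∀ k < n, k ≠ n := fun k hk => by omega
    have hd : ∀ k < n, Disjoint L' (L k) := fun k hk =>
      g1.disj.mono_right (subset_union_of_subset_right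
        (subset_biUnion_of_mem (u := L) (show k ∈ {k | k < n} from hk)) A)
    refine ⟨Function.update L n L', Function.update lo n lo', Function.update hi n hi',
      Function.update M (n + 1) N', ?_, ?_, ?_, ?_, ?_⟩
    · rw [Function.update_of_ne (by omega)]
      exact h0
    · intro k hk
      rcases Nat.lt_succ_iff_lt_or_eq.1 hk with hk | rfl
      · rw [Function.update_of_ne (by omega), Function.update_of_ne (by omega)]
        exact h1 k hk
      · rw [Function.update_self, Function.update_of_ne (by omega)]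
        exact g2
    · intro k hk
      rcases Nat.lt_succ_iff_lt_or_eq.1 hk with hk | rfl
      · rw [Function.update_of_ne (hne k hk), Function.update_of_ne (hne k hk),
          Function.update_of_ne (hne k hk)]
        exact h2 k hk
      · rw [Function.update_self, Function.update_self, Function.update_self]
        exact Col.mono' g1 subset_union_left
    · intro k hk i hi1 hi2
      rcases Nat.lt_succ_iff_lt_or_eq.1 hk with hk | rfl
      · rw [Function.update_of_ne (hne k hk), Function.update_of_ne (hne k hk),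
          Function.update_of_ne (by omega), Function.update_of_ne (by omega)]
        exact h3 k hk i hi1 hi2
      · rw [Function.update_self, Function.update_self, Function.update_self,
          Function.update_of_ne (by omega)]
        exact g3 i hi1 hi2
    · intro k hk k' hk' hkk
      rcases Nat.lt_succ_iff_lt_or_eq.1 hk with hk | rfl <;>
        rcases Nat.lt_succ_iff_lt_or_eq.1 hk' with hk' | rfl
      · rw [Function.update_of_ne (hne k hk), Function.update_of_ne (hne k' hk')]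
        exact h4 k hk k' hk' hkk
      · rw [Function.update_of_ne (hne k hk), Function.update_self]
        exact (hd k hk).symm
      · rw [Function.update_of_ne (hne k' hk'), Function.update_self]
        exact hd k' hk'
      · exact absurd rfl hkk

theorem mono_seq {M : ℕ → ℕ} {n : ℕ} (h : ∀ k < n, M k ≤ M (k + 1)) {k k' : ℕ} (hk : k ≤ k')
    (hk' : k' ≤ n) : M k ≤ M k' := by
  induction k', hk using Nat.le_induction with
  | base => exact le_rfl
  | succ m hm ih => exact (ih (by omega)).trans (h m (by omega))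

theorem frm_finite {a b : ℕ} {L Q : Set V} {hiL loQ : ℕ → ℕ} (hL : L.Finite) (hQ : Q.Finite) :
    (Frm ray a b L Q hiL loQ).Finite :=
  ((hL.union hQ).union (finite_seg _ _ _)).union (finite_seg _ _ _)

theorem frm_conn (hR : IsRays G K ray) {S : Set V} {a b : ℕ} {L Q : Set V}
    {loL hiL loQ hiQ : ℕ → ℕ}
    (hL : Col G K ray S (a - 1) (b + 1) L loL hiL) (hQ : Col G K ray S (a - 1) (b + 1) Q loQ hiQ)
    (hab : a ≤ b) (hb : b < K) (ha' : hiL a ≤ loQ a) (hb' : hiL b ≤ loQ b) :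
    Conn G (Frm ray a b L Q hiL loQ) := by
  have e : Frm ray a b L Q hiL loQ = ((L ∪ {x | ∃ n, hiL a ≤ n ∧ n ≤ loQ a ∧ x = ray a n}) ∪ Q) ∪
      {x | ∃ n, hiL b ≤ n ∧ n ≤ loQ b ∧ x = ray b n} := by
    ext x
    simp only [Frm, mem_union]
    tauto
  have h1 : ray a (hiL a) ∈ L := (hL.on a (by omega) (by omega) _).2
    ⟨hL.le a (by omega) (by omega), le_rfl⟩
  have h2 : ray a (loQ a) ∈ Q := (hQ.on a (by omega) (by omega) _).2
    ⟨le_rfl, hQ.le a (by omega) (by omega)⟩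
  have h3 : ray b (hiL b) ∈ L := (hL.on b (by omega) (by omega) _).2
    ⟨hL.le b (by omega) (by omega), le_rfl⟩
  rw [e]
  refine Conn.union (x := ray b (hiL b)) (Conn.union (x := ray a (loQ a))
    (Conn.union (x := ray a (hiL a)) hL.conn (hR.conn_seg (by omega) ha') h1 ?_) hQ.conn ?_ h2)
    (hR.conn_seg hb hb') (Or.inl (Or.inl h3)) ?_
  · exact ⟨hiL a, le_rfl, ha', rfl⟩
  · exact Or.inr ⟨loQ a, ha', le_rfl, rfl⟩
  · exact ⟨hiL b, le_rfl, hb', rfl⟩

/-- All data of the construction. -/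
structure Sys {V : Type} (G : SimpleGraph V) (K : ℕ) (ray : ℕ → ℕ → V) (S3 : Set V) (c d : ℕ)
    (L Q D : ℕ → Set V) (loL hiL loQ hiQ loD hiD : ℕ → ℕ → ℕ) (P0 : ℕ) : Prop where
  rays : IsRays G K ray
  hc : 10 ≤ c
  hd : d + 10 < K
  cd : c ≤ d
  colL : ∀ j ≤ 4, Col G K ray S3 (c - 1 - 2 * j - 1) (d + 1 + 2 * j + 1) (L j) (loL j) (hiL j)
  colQ : ∀ j ≤ 4, Col G K ray S3 (c - 1 - 2 * j - 1) (d + 1 + 2 * j + 1) (Q j) (loQ j) (hiQ j)
  colD : ∀ j ≤ 4, Col G K ray S3 (c - 1 - 2 * j + 1) (d + 1 + 2 * j - 1) (D j) (loD j) (hiD j)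
  LL : ∀ j ≤ 4, ∀ j' ≤ 4, j ≠ j' → Disjoint (L j) (L j')
  QQ : ∀ j ≤ 4, ∀ j' ≤ 4, j ≠ j' → Disjoint (Q j) (Q j')
  LQ : ∀ j ≤ 4, ∀ j' ≤ 4, Disjoint (L j) (Q j')
  LD : ∀ j ≤ 4, ∀ j' ≤ 4, Disjoint (L j) (D j')
  DQ : ∀ j ≤ 4, ∀ j' ≤ 4, Disjoint (D j) (Q j')
  pS : ∀ i < K, ∀ n, ray i n ∈ S3 → ∀ j ≤ 4, ∀ i', c - 1 - 2 * j - 1 ≤ i' →
    i' ≤ d + 1 + 2 * j + 1 → n < loL j i'
  pL : ∀ j ≤ 4, ∀ i, c - 1 - 2 * j - 1 ≤ i → i ≤ d + 1 + 2 * j + 1 → hiL j i ≤ P0
  pLL : ∀ j' ≤ 4, ∀ j < j', ∀ i, c - 1 - 2 * j - 1 ≤ i → i ≤ d + 1 + 2 * j + 1 →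
    hiL j' i < loL j i
  pD : ∀ j ≤ 4, ∀ i, c - 1 - 2 * j + 1 ≤ i → i ≤ d + 1 + 2 * j - 1 → P0 < loD j i
  pQ : ∀ j ≤ 4, ∀ i, c - 1 - 2 * j - 1 ≤ i → i ≤ d + 1 + 2 * j + 1 → P0 < loQ j i
  pDQ : ∀ j' ≤ 4, ∀ j ≤ j', ∀ i, c - 1 - 2 * j + 1 ≤ i → i ≤ d + 1 + 2 * j - 1 →
    hiD j i < loQ j' i
  pQQ : ∀ j' ≤ 4, ∀ j < j', ∀ i, c - 1 - 2 * j - 1 ≤ i → i ≤ d + 1 + 2 * j + 1 →
    hiQ j i < loQ j' i

section sys

variable {S3 S : Set V} {c d : ℕ} {L Q D : ℕ → Set V} {loL hiL loQ hiQ loD hiD : ℕ → ℕ → ℕ}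
  {P0 : ℕ}

/-- the frames -/
def CC (ray : ℕ → ℕ → V) (c d : ℕ) (L Q : ℕ → Set V) (hiL loQ : ℕ → ℕ → ℕ) (j : ℕ) : Set V :=
  Frm ray (c - 1 - 2 * j) (d + 1 + 2 * j) (L j) (Q j) (hiL j) (loQ j)

/-- the insides -/
structure Ins (G : SimpleGraph V) (K : ℕ) (ray : ℕ → ℕ → V) (S : Set V) (c d : ℕ)
    (L Q D : ℕ → Set V) (hiL loQ : ℕ → ℕ → ℕ) (Kc : ℕ → Set V) : Prop where
  fin : ∀ j ≤ 4, (Kc j).Finite
  conn : ∀ j ≤ 4, Conn G (Kc j)
  sub : ∀ j ≤ 4, D j ⊆ Kc j
  dis : ∀ j ≤ 4, Disjoint (Kc j) (CC ray c d L Q hiL loQ j)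
  dS : ∀ j ≤ 4, Disjoint (Kc j) S
  nb : ∀ j ≤ 4, nb G (Kc j) ⊆ CC ray c d L Q hiL loQ j
  on1 : ∀ j ≤ 4, ∀ i < K, ∀ n, ray i n ∈ Kc j → c - 1 - 2 * j < i ∧ i < d + 1 + 2 * j ∧
    hiL j i < n ∧ n < loQ j i
  on2 : ∀ j ≤ 4, ∀ i, c - 1 - 2 * j < i → i < d + 1 + 2 * j → ∀ n, hiL j i < n → n < loQ j i →
    ray i n ∈ Kc j

variable (s : Sys G K ray S3 c d L Q D loL hiL loQ hiQ loD hiD P0)
include s

theorem Sys.hLQ {j i : ℕ} (hj : j ≤ 4) (h1 : c - 1 - 2 * j - 1 ≤ i) (h2 : i ≤ d + 1 + 2 * j + 1) :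
    hiL j i < loQ j i := lt_of_le_of_lt (s.pL j hj i h1 h2) (s.pQ j hj i h1 h2)

theorem Sys.exIns (hFr : ∀ (a b : ℕ) (L Q D : Set V) (loL hiL loQ hiQ loD hiD : ℕ → ℕ),
        T + 1 ≤ a → a + 2 ≤ b → b + 1 + T < K →
        Col G K ray S3 (a - 1) (b + 1) L loL hiL → Col G K ray S3 (a - 1) (b + 1) Q loQ hiQ →
        Col G K ray S3 (a + 1) (b - 1) D loD hiD →
        (∀ i n, a - 1 ≤ i → i ≤ b + 1 → ray i n ∈ S3 → n < loL i) →
        (∀ i, a - 1 ≤ i → i ≤ b + 1 → hiL i < loQ i) →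
        (∀ i, a + 1 ≤ i → i ≤ b - 1 → hiL i < loD i ∧ hiD i < loQ i) →
        Disjoint L Q → Disjoint L D → Disjoint D Q →
        ∃ Kc : Set V, Kc.Finite ∧ Conn G Kc ∧ D ⊆ Kc ∧ Disjoint Kc (Frm ray a b L Q hiL loQ) ∧
          Disjoint Kc S ∧ MP_216d61_lc.nb G Kc ⊆ Frm ray a b L Q hiL loQ ∧
          (∀ i < K, ∀ n, ray i n ∈ Kc → a < i ∧ i < b ∧ hiL i < n ∧ n < loQ i) ∧
          (∀ i, a < i → i < b → ∀ n, hiL i < n → n < loQ i → ray i n ∈ Kc))
    (hTc : T + 10 ≤ c) (hTd : d + 10 + T < K) : ∃ Kc, Ins G K ray S c d L Q D hiL loQ Kc := by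
  have h : ∀ j, ∃ Kc : Set V, j ≤ 4 → (Kc.Finite ∧ Conn G Kc ∧ D j ⊆ Kc ∧
      Disjoint Kc (CC ray c d L Q hiL loQ j) ∧
      Disjoint Kc S ∧ MP_216d61_lc.nb G Kc ⊆ CC ray c d L Q hiL loQ j ∧
      (∀ i < K, ∀ n, ray i n ∈ Kc → c - 1 - 2 * j < i ∧ i < d + 1 + 2 * j ∧ hiL j i < n ∧
        n < loQ j i) ∧
      (∀ i, c - 1 - 2 * j < i → i < d + 1 + 2 * j → ∀ n, hiL j i < n → n < loQ j i →
        ray i n ∈ Kc)) := by
    intro j
    by_cases hj : j ≤ 4
    · have hcd := s.cd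
      obtain ⟨Kc, hKc⟩ := hFr (c - 1 - 2 * j) (d + 1 + 2 * j) (L j) (Q j) (D j) (loL j) (hiL j)
        (loQ j) (hiQ j) (loD j) (hiD j) (by omega) (by omega) (by omega) (s.colL j hj)
        (s.colQ j hj) (s.colD j hj) (fun i n h1 h2 h3 => s.pS i (by omega) n h3 j hj i h1 h2)
        (fun i h1 h2 => s.hLQ hj h1 h2)
        (fun i h1 h2 => ⟨lt_of_le_of_lt (s.pL j hj i (by omega) (by omega)) (s.pD j hj i h1 h2),
          s.pDQ j hj j le_rfl i h1 h2⟩) (s.LQ j hj j hj) (s.LD j hj j hj) (s.DQ j hj j hj)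
      exact ⟨Kc, fun _ => hKc⟩
    · exact ⟨∅, fun h => absurd h hj⟩
  choose Kc hKc using h
  exact ⟨Kc, fun j hj => (hKc j hj).1, fun j hj => (hKc j hj).2.1, fun j hj => (hKc j hj).2.2.1,
    fun j hj => (hKc j hj).2.2.2.1, fun j hj => (hKc j hj).2.2.2.2.1,
    fun j hj => (hKc j hj).2.2.2.2.2.1, fun j hj => (hKc j hj).2.2.2.2.2.2.1,
    fun j hj => (hKc j hj).2.2.2.2.2.2.2⟩

theorem Sys.ccFin {j : ℕ} (hj : j ≤ 4) : (CC ray c d L Q hiL loQ j).Finite :=
  frm_finite (s.colL j hj).fin (s.colQ j hj).fin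

theorem Sys.ccConn {j : ℕ} (hj : j ≤ 4) : Conn G (CC ray c d L Q hiL loQ j) := by
  have hcd := s.cd
  have hd := s.hd
  exact frm_conn s.rays (s.colL j hj) (s.colQ j hj) (by omega) (by omega)
    (s.hLQ hj (by omega) (by omega)).le (s.hLQ hj (by omega) (by omega)).le

/-- a ray vertex in a frame -/
theorem Sys.ray_cc {j i n : ℕ} (hj : j ≤ 4) (hi : i < K) (h : ray i n ∈ CC ray c d L Q hiL loQ j) :
    (c - 1 - 2 * j - 1 ≤ i ∧ i ≤ d + 1 + 2 * j + 1) ∧
      ((loL j i ≤ n ∧ n ≤ hiL j i) ∨ (loQ j i ≤ n ∧ n ≤ hiQ j i) ∨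
        ((i = c - 1 - 2 * j ∨ i = d + 1 + 2 * j) ∧ hiL j i ≤ n ∧ n ≤ loQ j i)) := by
  have hd := s.hd
  have hcd := s.cd
  rcases h with ((h | h) | ⟨m, h1, h2, h3⟩) | ⟨m, h1, h2, h3⟩
  · by_cases hr : c - 1 - 2 * j - 1 ≤ i ∧ i ≤ d + 1 + 2 * j + 1
    · exact ⟨hr, Or.inl (((s.colL j hj).on i hr.1 hr.2 n).1 h)⟩
    · exact absurd h ((s.colL j hj).off i hi (by omega) n)
  · by_cases hr : c - 1 - 2 * j - 1 ≤ i ∧ i ≤ d + 1 + 2 * j + 1
    · exact ⟨hr, Or.inr (Or.inl (((s.colQ j hj).on i hr.1 hr.2 n).1 h))⟩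
    · exact absurd h ((s.colQ j hj).off i hi (by omega) n)
  · obtain ⟨rfl, rfl⟩ := s.rays.inj i hi _ (by omega) n m h3
    exact ⟨⟨by omega, by omega⟩, Or.inr (Or.inr ⟨Or.inl rfl, h1, h2⟩)⟩
  · obtain ⟨rfl, rfl⟩ := s.rays.inj i hi _ (by omega) n m h3
    exact ⟨⟨by omega, by omega⟩, Or.inr (Or.inr ⟨Or.inr rfl, h1, h2⟩)⟩

theorem Sys.cc_disj {j : ℕ} (hj : j < 4) :
    Disjoint (CC ray c d L Q hiL loQ j) (CC ray c d L Q hiL loQ (j + 1)) := by
  have hd := s.hd
  have hcd := s.cd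
  have hc := s.hc
  -- a ray vertex on the inner vertical segments is not in the outer frame
  have key : ∀ i n, (i = c - 1 - 2 * j ∨ i = d + 1 + 2 * j) → hiL j i ≤ n → n ≤ loQ j i →
      ray i n ∉ CC ray c d L Q hiL loQ (j + 1) := by
    intro i n hi h1 h2 h3
    obtain ⟨-, h4⟩ := s.ray_cc (by omega) (by omega) h3
    have h5 := s.pLL (j + 1) (by omega) j (by omega) i (by omega) (by omega)
    have h6 := (s.colL j (by omega)).le i (by omega) (by omega)
    have h7 := s.pQQ (j + 1) (by omega) j (by omega) i (by omega) (by omega)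
    have h8 := (s.colQ j (by omega)).le i (by omega) (by omega)
    have h9 := s.hLQ (j := j) (i := i) (by omega) (by omega) (by omega)
    rcases h4 with h4 | h4 | h4
    · omega
    · omega
    · have h10 := h4.1
      omega
  rw [disjoint_left]
  intro x hx hx'
  rcases hx with ((h | h) | ⟨m, h1, h2, rfl⟩) | ⟨m, h1, h2, rfl⟩
  · rcases hx' with ((h' | h') | ⟨m, h1, h2, rfl⟩) | ⟨m, h1, h2, rfl⟩
    · exact disjoint_left.1 (s.LL j (by omega) (j + 1) (by omega) (by omega)) h h'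
    · exact disjoint_left.1 (s.LQ j (by omega) (j + 1) (by omega)) h h'
    · exact (s.colL j (by omega)).off _ (by omega) (by omega) m h
    · exact (s.colL j (by omega)).off _ (by omega) (by omega) m h
  · rcases hx' with ((h' | h') | ⟨m, h1, h2, rfl⟩) | ⟨m, h1, h2, rfl⟩
    · exact disjoint_left.1 (s.LQ (j + 1) (by omega) j (by omega)) h' h
    · exact disjoint_left.1 (s.QQ j (by omega) (j + 1) (by omega) (by omega)) h h'
    · exact (s.colQ j (by omega)).off _ (by omega) (by omega) m h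
    · exact (s.colQ j (by omega)).off _ (by omega) (by omega) m h
  · exact key _ m (Or.inl rfl) h1 h2 hx'
  · exact key _ m (Or.inr rfl) h1 h2 hx'

theorem Sys.cc_dS (hS : S ⊆ S3) {j : ℕ} (hj : j ≤ 4) : Disjoint (CC ray c d L Q hiL loQ j) S := by
  have hd := s.hd
  have hcd := s.cd
  have hc := s.hc
  have key : ∀ i n, (i = c - 1 - 2 * j ∨ i = d + 1 + 2 * j) → hiL j i ≤ n → ray i n ∉ S3 := by
    intro i n hi h1 h3
    have h4 := s.pS i (by omega) n h3 j hj i (by omega) (by omega)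
    have h6 := (s.colL j hj).le i (by omega) (by omega)
    omega
  rw [disjoint_left]
  intro x hx hx'
  rcases hx with ((h | h) | ⟨m, h1, h2, rfl⟩) | ⟨m, h1, h2, rfl⟩
  · exact disjoint_left.1 (s.colL j hj).disj h (hS hx')
  · exact disjoint_left.1 (s.colQ j hj).disj h (hS hx')
  · exact key _ m (Or.inl rfl) h1 (hS hx')
  · exact key _ m (Or.inr rfl) h1 (hS hx')

variable {Kc : ℕ → Set V} (t : Ins G K ray S c d L Q D hiL loQ Kc)
include t

theorem Sys.nest {j : ℕ} (hj : j < 4) : CC ray c d L Q hiL loQ j ∪ Kc j ⊆ Kc (j + 1) := by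
  have hd := s.hd
  have hcd := s.cd
  have hc := s.hc
  have hdis := s.cc_disj hj
  -- `C j ⊆ Kc (j+1)`
  have h1 : CC ray c d L Q hiL loQ j ⊆ Kc (j + 1) := by
    refine (s.ccConn (by omega)).subset_of_nb ?_ (hdis.mono_right (t.nb (j + 1) (by omega)))
    refine ⟨ray (c - 1 - 2 * j) (hiL j (c - 1 - 2 * j)), ?_, ?_⟩
    · exact Or.inl (Or.inr ⟨_, le_rfl, (s.hLQ (by omega) (by omega) (by omega)).le, rfl⟩)
    · refine t.on2 (j + 1) (by omega) _ (by omega) (by omega) _ ?_ ?_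
      · have h5 := s.pLL (j + 1) (by omega) j (by omega) (c - 1 - 2 * j) (by omega) (by omega)
        have h6 := (s.colL j (by omega)).le (c - 1 - 2 * j) (by omega) (by omega)
        omega
      · exact lt_of_le_of_lt (s.pL j (by omega) _ (by omega) (by omega))
          (s.pQ (j + 1) (by omega) _ (by omega) (by omega))
  have h2 : Kc j ⊆ Kc (j + 1) := by
    refine (t.conn j (by omega)).subset_of_nb ?_ ?_
    · have hm : ray c (loD j c) ∈ D j := ((s.colD j (by omega)).on c (by omega) (by omega) _).2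
        ⟨le_rfl, (s.colD j (by omega)).le c (by omega) (by omega)⟩
      refine ⟨_, t.sub j (by omega) hm, ?_⟩
      refine t.on2 (j + 1) (by omega) c (by omega) (by omega) _ ?_ ?_
      · exact lt_of_le_of_lt (s.pL (j + 1) (by omega) _ (by omega) (by omega))
          (s.pD j (by omega) c (by omega) (by omega))
      · exact lt_of_le_of_lt ((s.colD j (by omega)).le c (by omega) (by omega))
          (s.pDQ (j + 1) (by omega) j (by omega) c (by omega) (by omega))
    · refine Disjoint.mono_right (t.nb (j + 1) (by omega)) ?_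
      rw [disjoint_left]
      intro x hx hx'
      have h3 : CC ray c d L Q hiL loQ (j + 1) ⊆ Kc j :=
        (s.ccConn (by omega)).subset_of_nb ⟨x, hx', hx⟩
          (hdis.symm.mono_right (t.nb j (by omega)))
      have h4 : ray (c - 1 - 2 * (j + 1)) (hiL (j + 1) (c - 1 - 2 * (j + 1))) ∈ Kc j :=
        h3 (Or.inl (Or.inr ⟨_, le_rfl, (s.hLQ (by omega) (by omega) (by omega)).le, rfl⟩))
      have h5 := t.on1 j (by omega) _ (by omega) _ h4
      omega
  exact union_subset h1 h2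

/-- the radial sets: a connected set `P` with `x = ray i0 p0` outside and `y` inside -/
theorem Sys.radial {P : Set V} {x y : V} (hP : Conn G P) (hx : x ∈ P) (hy : y ∈ P)
    (hPx : Conn G (P \ {x})) (hPy : Conn G (P \ {y})) (hxy : x ≠ y)
    (hxC : x ∈ CC ray c d L Q hiL loQ 4)
    (h4 : ∀ z ∈ P, z ∈ CC ray c d L Q hiL loQ 4 → z = x)
    (h0 : ∀ z ∈ P, z ∈ CC ray c d L Q hiL loQ 0 → z = y) (hyC : y ∈ CC ray c d L Q hiL loQ 0) :
    P ⊆ Kc 4 ∪ {x} ∧ (∀ j < 4, (P ∩ CC ray c d L Q hiL loQ j).Nonempty) ∧ Disjoint P (Kc 0) := by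
  have hmono : ∀ j j', j ≤ j' → j' ≤ 4 → Kc j ⊆ Kc j' := by
    intro j j' hjj hj'
    induction j', hjj using Nat.le_induction with
    | base => exact Subset.rfl
    | succ n hn ih =>
      intro z hz
      exact s.nest t (by omega) (Or.inr (ih (by omega) hz))
  have hyK : ∀ j, 1 ≤ j → j ≤ 4 → y ∈ Kc j := fun j h1 h2 =>
    hmono 1 j h1 h2 (s.nest t (by omega) (Or.inl hyC))
  have hxK : ∀ j ≤ 4, x ∉ Kc j := fun j hj h =>
    disjoint_left.1 (t.dis 4 le_rfl) (hmono j 4 hj le_rfl h) hxC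
  refine ⟨?_, ?_, ?_⟩
  · intro z hz
    by_cases hzx : z = x
    · exact Or.inr hzx
    · left
      refine hPx.subset_of_nb ⟨y, ⟨hy, hxy.symm⟩, hyK 4 (by omega) le_rfl⟩ ?_ ⟨hz, hzx⟩
      rw [disjoint_left]
      intro w hw hw'
      exact hw.2 (h4 w hw.1 (t.nb 4 le_rfl hw'))
  · intro j hj
    by_cases hj0 : j = 0
    · subst hj0
      exact ⟨y, hy, hyC⟩
    · obtain ⟨u, hu, w, hw, huw⟩ := hP.exists_adj hy (hyK j (by omega) hj.le) hx (hxK j hj.le)
      exact ⟨w, hw.1, t.nb j hj.le ⟨hw.2, u, hu.2, huw⟩⟩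
  · rw [disjoint_left]
    intro z hz hz'
    have hyK0 : y ∉ Kc 0 := fun h => disjoint_left.1 (t.dis 0 (by omega)) h hyC
    have hzy : z ≠ y := fun h => hyK0 (h ▸ hz')
    have h5 : P \ {y} ⊆ Kc 0 := by
      refine hPy.subset_of_nb ⟨z, ⟨hz, hzy⟩, hz'⟩ ?_
      rw [disjoint_left]
      intro w hw hw'
      exact hw.2 (h0 w hw.1 (t.nb 0 (by omega) hw'))
    exact hxK 0 (by omega) (h5 ⟨hx, hxy⟩)

end sys

end NestAux

open NestAux in
theorem stmt_NEST (hFRM : Stmt_FRM) (hCOL : Stmt_COL) : Stmt_NEST := by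
  intro ρ V G r A hLim T K ray S1 hs c d hTc hcd hTd S hS
  obtain ⟨S3, hS3, hSS3, hFr⟩ := hFRM ρ V G r A hLim T K ray S1 hs S hS
  obtain ⟨N0, hN0⟩ := hs.rays.exists_beyond hS3
  obtain ⟨Lf, lof, hif, ML, hML0, hMLm, hLc, hLp, hLd⟩ := cols hCOL hs hS3 N0
    (fun k => c - 2 * (5 - k)) (fun k => d + 2 * (5 - k)) 5 (fun k hk => by omega)
  set SL : Set V := ⋃ k ∈ {k | k < 5}, Lf k with hSL
  have hSLf : SL.Finite := (Set.finite_Iio 5).biUnion fun k hk => (hLc k hk).fin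
  have hLSL : ∀ k < 5, Lf k ⊆ SL := fun k hk =>
    subset_biUnion_of_mem (u := Lf) (show k ∈ {k | k < 5} from hk)
  set S' : Set V := (S3 ∪ SL) ∪ Ini K ray (ML 5) with hS'
  have hS'f : S'.Finite := (hS3.union hSLf).union (ini_finite _ _ _)
  refine ⟨S', hS'f, fun x hx => Or.inl (Or.inl (hSS3 hx)), ?_⟩
  intro W hW hWR
  -- the links of the elements of `W`
  set Out : Set V := {z | ∃ j m, j < K ∧ (j < c ∨ d < j) ∧ z = ray j m} with hOut
  have hex : ∀ x ∈ W, ∃ (F : Set V) (i n : ℕ), F ⊆ (S' ∪ Out)ᶜ ∧ F.Finite ∧ Conn G F ∧ x ∈ F ∧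
      ray i n ∈ F ∧ c ≤ i ∧ i ≤ d := by
    intro x hx
    obtain ⟨i, n, h1, h2, h3⟩ := hWR hx
    obtain ⟨F, f1, f2, f3, f4, f5⟩ := lnk_iff.1 h3
    exact ⟨F, i, n, f1, f2, f3, f4, f5, h1, h2⟩
  choose! F fi fn hF using hex
  set Y : Set V := ⋃ x ∈ W, F x with hY
  have hYf : Y.Finite := hW.biUnion fun x hx => (hF x hx).2.1
  have hFY : ∀ x ∈ W, F x ⊆ Y := fun x hx => subset_biUnion_of_mem (u := F) hx
  have hA1 : (S' ∪ Y).Finite := hS'f.union hYf
  obtain ⟨N1, hN1⟩ := hs.rays.exists_beyond hA1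
  have hd9 : d + 10 < K := by omega
  obtain ⟨PTc, loT, hiT, N2, hT1, hT2, hT3⟩ := next_col hCOL hs hA1 (a := c - 9) (b := c - 1)
    (N1 + ML 5) (by omega) (by omega)
  have hA2 : (S' ∪ Y ∪ PTc).Finite := hA1.union hT1.fin
  obtain ⟨PBc, loB, hiB, N3, hB1, hB2, hB3⟩ := next_col hCOL hs hA2 (a := d + 1) (b := d + 9)
    N2 (by omega) (by omega)
  have hA3 : (S' ∪ Y ∪ PTc ∪ PBc).Finite := hA2.union hB1.fin
  obtain ⟨R, loR, hiR, MR', hMR0, hMRm, hRc, hRp, hRd⟩ := cols hCOL hs hA3 N3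
    (fun k => c - 2 * ((k + 1) / 2)) (fun k => d + 2 * ((k + 1) / 2)) 10
    (fun k hk => by omega)
  -- the system
  have hLm : ∀ {k k' : ℕ}, k ≤ k' → k' ≤ 5 → ML k ≤ ML k' := fun h h' => mono_seq hMLm h h'
  have hRm : ∀ {k k' : ℕ}, k ≤ k' → k' ≤ 10 → MR' k ≤ MR' k' := fun h h' => mono_seq hMRm h h'
  have hML5 : ML 5 ≤ N3 := by omega
  have sys : Sys G K ray S3 c d (fun j => Lf (4 - j)) (fun j => R (2 * j + 1)) (fun j => R (2 * j))
      (fun j => lof (4 - j)) (fun j => hif (4 - j)) (fun j => loR (2 * j + 1))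
      (fun j => hiR (2 * j + 1)) (fun j => loR (2 * j)) (fun j => hiR (2 * j)) N3 := by
    have hLD : ∀ j ≤ 4, ∀ k < 10, Disjoint (Lf (4 - j)) (R k) := by
      intro j hj k hk
      refine ((hRc k hk).disj.mono_right ?_).symm
      intro x hx
      exact Or.inl (Or.inl (Or.inl (Or.inl (Or.inr (hLSL (4 - j) (by omega) hx)))))
    refine ⟨hs.rays, by omega, hd9, hcd, ?_, ?_, ?_, ?_, ?_, ?_, ?_, ?_, ?_, ?_, ?_, ?_, ?_, ?_, ?_⟩
    · intro j hj
      have h1 := hLc (4 - j) (by omega)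
      rw [show c - 2 * (5 - (4 - j)) = c - 1 - 2 * j - 1 by omega,
        show d + 2 * (5 - (4 - j)) = d + 1 + 2 * j + 1 by omega] at h1
      exact h1
    · intro j hj
      have h1 := hRc (2 * j + 1) (by omega)
      rw [show c - 2 * ((2 * j + 1 + 1) / 2) = c - 1 - 2 * j - 1 by omega,
        show d + 2 * ((2 * j + 1 + 1) / 2) = d + 1 + 2 * j + 1 by omega] at h1
      exact Col.mono' h1 (fun x hx => Or.inl (Or.inl (Or.inl (Or.inl (Or.inl hx)))))
    · intro j hj
      have h1 := hRc (2 * j) (by omega)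
      rw [show c - 2 * ((2 * j + 1) / 2) = c - 1 - 2 * j + 1 by omega,
        show d + 2 * ((2 * j + 1) / 2) = d + 1 + 2 * j - 1 by omega] at h1
      exact Col.mono' h1 (fun x hx => Or.inl (Or.inl (Or.inl (Or.inl (Or.inl hx)))))
    · intro j hj j' hj' hne
      exact hLd _ (by omega) _ (by omega) (by omega)
    · intro j hj j' hj' hne
      exact hRd _ (by omega) _ (by omega) (by omega)
    · intro j hj j' hj'
      exact hLD j hj _ (by omega)
    · intro j hj j' hj'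
      exact hLD j hj _ (by omega)
    · intro j hj j' hj'
      exact hRd _ (by omega) _ (by omega) (by omega)
    · intro i hi n hn j hj i' h1 h2
      have h3 := (hLp (4 - j) (by omega) i' (by omega) (by omega)).1
      have h4 := hLm (Nat.zero_le (4 - j)) (by omega)
      by_contra hcon
      exact hN0 i hi n (by omega) hn
    · intro j hj i h1 h2
      have h3 := (hLp (4 - j) (by omega) i (by omega) (by omega)).2
      have h4 := hLm (show 4 - j + 1 ≤ 5 by omega) le_rfl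
      exact (h3.trans h4).trans hML5
    · intro j' hj' j hj i h1 h2
      have h3 := (hLp (4 - j') (by omega) i (by omega) (by omega)).2
      have h4 := (hLp (4 - j) (by omega) i (by omega) (by omega)).1
      have h5 := hLm (show 4 - j' + 1 ≤ 4 - j by omega) (by omega)
      omega
    · intro j hj i h1 h2
      have h3 := (hRp (2 * j) (by omega) i (by omega) (by omega)).1
      have h4 := hRm (Nat.zero_le (2 * j)) (by omega)
      omega
    · intro j hj i h1 h2
      have h3 := (hRp (2 * j + 1) (by omega) i (by omega) (by omega)).1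
      have h4 := hRm (Nat.zero_le (2 * j + 1)) (by omega)
      omega
    · intro j' hj' j hj i h1 h2
      have h3 := (hRp (2 * j) (by omega) i (by omega) (by omega)).2
      have h4 := (hRp (2 * j' + 1) (by omega) i (by omega) (by omega)).1
      have h5 := hRm (show 2 * j + 1 ≤ 2 * j' + 1 by omega) (by omega)
      omega
    · intro j' hj' j hj i h1 h2
      have h3 := (hRp (2 * j + 1) (by omega) i (by omega) (by omega)).2
      have h4 := (hRp (2 * j' + 1) (by omega) i (by omega) (by omega)).1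
      have h5 := hRm (show 2 * j + 1 + 1 ≤ 2 * j' + 1 by omega) (by omega)
      omega
  obtain ⟨Kc, ins⟩ := sys.exIns hFr hTc hTd
  set L : ℕ → Set V := fun j => Lf (4 - j) with hLdef
  set Q : ℕ → Set V := fun j => R (2 * j + 1) with hQdef
  set D : ℕ → Set V := fun j => R (2 * j) with hDdef
  set loL : ℕ → ℕ → ℕ := fun j => lof (4 - j) with hloL
  set hiL : ℕ → ℕ → ℕ := fun j => hif (4 - j) with hhiL
  set loQ : ℕ → ℕ → ℕ := fun j => loR (2 * j + 1) with hloQ
  set hiQ : ℕ → ℕ → ℕ := fun j => hiR (2 * j + 1) with hhiQ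
  set loD : ℕ → ℕ → ℕ := fun j => loR (2 * j) with hloD
  set hiD : ℕ → ℕ → ℕ := fun j => hiR (2 * j) with hhiD
  have hQA : ∀ j ≤ 4, Disjoint (Q j) (S' ∪ Y ∪ PTc ∪ PBc) := fun j hj =>
    (hRc (2 * j + 1) (by omega)).disj
  have hLS' : ∀ j ≤ 4, L j ⊆ S' := fun j hj x hx => Or.inl (Or.inr (hLSL (4 - j) (by omega) hx))
  -- positions of the radial columns
  have hposL : ∀ j ≤ 4, ∀ i, c - 1 - 2 * j - 1 ≤ i → i ≤ d + 1 + 2 * j + 1 → hiL j i ≤ ML 5 := by
    intro j hj i h1 h2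
    have h3 := (hLp (4 - j) (by omega) i (by omega) (by omega)).2
    have h4 := hLm (show 4 - j + 1 ≤ 5 by omega) le_rfl
    exact h3.trans h4
  -- the top radial
  obtain ⟨PT, hPT1, hPT2, hPT3, hPT4, hPT5, hPT6, hPT7⟩ := exists_path_set hT1.conn
    (x := ray (c - 9) (loT (c - 9))) (y := ray (c - 1) (loT (c - 1)))
    ((hT1.on _ le_rfl (by omega) _).2 ⟨le_rfl, hT1.le _ le_rfl (by omega)⟩)
    ((hT1.on _ (by omega) le_rfl _).2 ⟨le_rfl, hT1.le _ (by omega) le_rfl⟩)
    (fun h => by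
      have := (hs.rays.inj _ (by omega) _ (by omega) _ _ h).1
      omega)
  obtain ⟨hTK, hTj, hT0⟩ := sys.radial ins hPT3 hPT4 hPT5 hPT6 hPT7
    (fun h => by
      have := (hs.rays.inj _ (by omega) _ (by omega) _ _ h).1
      omega)
    (by
      refine Or.inl (Or.inr ⟨loT (c - 9), ?_, ?_, by rw [show c - 1 - 2 * 4 = c - 9 by omega]⟩)
      · have h1 := hposL 4 le_rfl (c - 1 - 2 * 4) (by omega) (by omega)
        have h2 := (hT3 (c - 9) le_rfl (by omega)).1
        omega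
      · have h1 := sys.pQ 4 le_rfl (c - 1 - 2 * 4) (by omega) (by omega)
        have h2 := (hT3 (c - 9) le_rfl (by omega)).2
        have h3 := hT1.le (c - 9) le_rfl (by omega)
        omega)
    (by
      intro z hz hzC
      have hz' := hPT1 hz
      rcases hzC with ((h | h) | ⟨m, h1, h2, rfl⟩) | ⟨m, h1, h2, rfl⟩
      · exact absurd (Or.inl (hLS' 4 le_rfl h)) (disjoint_left.1 hT1.disj hz')
      · exact absurd (Or.inl (Or.inr hz')) (disjoint_left.1 (hQA 4 le_rfl) h)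
      · rw [show c - 1 - 2 * 4 = c - 9 by omega] at hz' ⊢
        have h3 := (hT1.on _ le_rfl (by omega) _).1 hz'
        have h4 := hT1.enda
        have h5 : m = loT (c - 9) := by omega
        rw [h5]
      · exact absurd hz' (hT1.off _ (by omega) (by omega) m))
    (by
      intro z hz hzC
      have hz' := hPT1 hz
      rcases hzC with ((h | h) | ⟨m, h1, h2, rfl⟩) | ⟨m, h1, h2, rfl⟩
      · exact absurd (Or.inl (hLS' 0 (by omega) h)) (disjoint_left.1 hT1.disj hz')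
      · exact absurd (Or.inl (Or.inr hz')) (disjoint_left.1 (hQA 0 (by omega)) h)
      · rw [show c - 1 - 2 * 0 = c - 1 by omega] at hz' ⊢
        have h3 := (hT1.on _ (by omega) le_rfl _).1 hz'
        have h4 := hT1.endb
        have h5 : m = loT (c - 1) := by omega
        rw [h5]
      · exact absurd hz' (hT1.off _ (by omega) (by omega) m))
    (by
      refine Or.inl (Or.inr ⟨loT (c - 1), ?_, ?_, by rw [show c - 1 - 2 * 0 = c - 1 by omega]⟩)
      · have h1 := hposL 0 (by omega) (c - 1 - 2 * 0) (by omega) (by omega)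
        have h2 := (hT3 (c - 1) (by omega) le_rfl).1
        omega
      · have h1 := sys.pQ 0 (by omega) (c - 1 - 2 * 0) (by omega) (by omega)
        have h2 := (hT3 (c - 1) (by omega) le_rfl).2
        have h3 := hT1.le (c - 1) (by omega) le_rfl
        omega)
  -- the bottom radial
  obtain ⟨PB, hPB1, hPB2, hPB3, hPB4, hPB5, hPB6, hPB7⟩ := exists_path_set hB1.conn
    (x := ray (d + 9) (loB (d + 9))) (y := ray (d + 1) (loB (d + 1)))
    ((hB1.on _ (by omega) le_rfl _).2 ⟨le_rfl, hB1.le _ (by omega) le_rfl⟩)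
    ((hB1.on _ le_rfl (by omega) _).2 ⟨le_rfl, hB1.le _ le_rfl (by omega)⟩)
    (fun h => by
      have := (hs.rays.inj _ (by omega) _ (by omega) _ _ h).1
      omega)
  obtain ⟨hBK, hBj, hB0⟩ := sys.radial ins hPB3 hPB4 hPB5 hPB6 hPB7
    (fun h => by
      have := (hs.rays.inj _ (by omega) _ (by omega) _ _ h).1
      omega)
    (by
      refine Or.inr ⟨loB (d + 9), ?_, ?_, by rw [show d + 1 + 2 * 4 = d + 9 by omega]⟩
      · have h1 := hposL 4 le_rfl (d + 1 + 2 * 4) (by omega) (by omega)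
        have h2 := (hB3 (d + 9) (by omega) le_rfl).1
        omega
      · have h1 := sys.pQ 4 le_rfl (d + 1 + 2 * 4) (by omega) (by omega)
        have h2 := (hB3 (d + 9) (by omega) le_rfl).2
        have h3 := hB1.le (d + 9) (by omega) le_rfl
        omega)
    (by
      intro z hz hzC
      have hz' := hPB1 hz
      rcases hzC with ((h | h) | ⟨m, h1, h2, rfl⟩) | ⟨m, h1, h2, rfl⟩
      · exact absurd (Or.inl (Or.inl (hLS' 4 le_rfl h))) (disjoint_left.1 hB1.disj hz')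
      · exact absurd (Or.inr hz') (disjoint_left.1 (hQA 4 le_rfl) h)
      · exact absurd hz' (hB1.off _ (by omega) (by omega) m)
      · rw [show d + 1 + 2 * 4 = d + 9 by omega] at hz' ⊢
        have h3 := (hB1.on _ (by omega) le_rfl _).1 hz'
        have h4 := hB1.endb
        have h5 : m = loB (d + 9) := by omega
        rw [h5])
    (by
      intro z hz hzC
      have hz' := hPB1 hz
      rcases hzC with ((h | h) | ⟨m, h1, h2, rfl⟩) | ⟨m, h1, h2, rfl⟩
      · exact absurd (Or.inl (Or.inl (hLS' 0 (by omega) h))) (disjoint_left.1 hB1.disj hz')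
      · exact absurd (Or.inr hz') (disjoint_left.1 (hQA 0 (by omega)) h)
      · exact absurd hz' (hB1.off _ (by omega) (by omega) m)
      · rw [show d + 1 + 2 * 0 = d + 1 by omega] at hz' ⊢
        have h3 := (hB1.on _ le_rfl (by omega) _).1 hz'
        have h4 := hB1.enda
        have h5 : m = loB (d + 1) := by omega
        rw [h5])
    (by
      refine Or.inr ⟨loB (d + 1), ?_, ?_, by rw [show d + 1 + 2 * 0 = d + 1 by omega]⟩
      · have h1 := hposL 0 (by omega) (d + 1 + 2 * 0) (by omega) (by omega)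
        have h2 := (hB3 (d + 1) le_rfl (by omega)).1
        omega
      · have h1 := sys.pQ 0 (by omega) (d + 1 + 2 * 0) (by omega) (by omega)
        have h2 := (hB3 (d + 1) le_rfl (by omega)).2
        have h3 := hB1.le (d + 1) le_rfl (by omega)
        omega)
  have hxT : ray (c - 9) (loT (c - 9)) ∈ CC ray c d L Q hiL loQ 4 := by
    refine Or.inl (Or.inr ⟨loT (c - 9), ?_, ?_, by rw [show c - 1 - 2 * 4 = c - 9 by omega]⟩)
    · have h1 := hposL 4 le_rfl (c - 1 - 2 * 4) (by omega) (by omega)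
      have h2 := (hT3 (c - 9) le_rfl (by omega)).1
      omega
    · have h1 := sys.pQ 4 le_rfl (c - 1 - 2 * 4) (by omega) (by omega)
      have h2 := (hT3 (c - 9) le_rfl (by omega)).2
      have h3 := hT1.le (c - 9) le_rfl (by omega)
      omega
  have hxB : ray (d + 9) (loB (d + 9)) ∈ CC ray c d L Q hiL loQ 4 := by
    refine Or.inr ⟨loB (d + 9), ?_, ?_, by rw [show d + 1 + 2 * 4 = d + 9 by omega]⟩
    · have h1 := hposL 4 le_rfl (d + 1 + 2 * 4) (by omega) (by omega)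
      have h2 := (hB3 (d + 9) (by omega) le_rfl).1
      omega
    · have h1 := sys.pQ 4 le_rfl (d + 1 + 2 * 4) (by omega) (by omega)
      have h2 := (hB3 (d + 9) (by omega) le_rfl).2
      have h3 := hB1.le (d + 9) (by omega) le_rfl
      omega
  have hrC : ∀ i, c ≤ i → i ≤ d → ∀ j ≤ 4, ray i (loL j i) ∈ L j ∧ ray i (hiL j i) ∈ L j ∧
      ray i (loQ j i) ∈ Q j ∧ ray i (hiQ j i) ∈ Q j := by
    intro i h1 h2 j hj
    have h3 := (sys.colL j hj).le i (by omega) (by omega)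
    have h4 := (sys.colQ j hj).le i (by omega) (by omega)
    exact ⟨((sys.colL j hj).on i (by omega) (by omega) _).2 ⟨le_rfl, h3⟩,
      ((sys.colL j hj).on i (by omega) (by omega) _).2 ⟨h3, le_rfl⟩,
      ((sys.colQ j hj).on i (by omega) (by omega) _).2 ⟨le_rfl, h4⟩,
      ((sys.colQ j hj).on i (by omega) (by omega) _).2 ⟨h4, le_rfl⟩⟩
  have hLCC : ∀ j, L j ⊆ CC ray c d L Q hiL loQ j := fun j x hx => Or.inl (Or.inl (Or.inl hx))
  have hQCC : ∀ j, Q j ⊆ CC ray c d L Q hiL loQ j := fun j x hx => Or.inl (Or.inl (Or.inr hx))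
  refine ⟨CC ray c d L Q hiL loQ, Kc, hiL 4, loL 0, hiQ 0, loQ 4, PT, PB, loT (c - 9),
    loB (d + 9), ?_, ?_⟩
  · refine
      { finC := fun j hj => sys.ccFin hj
        conC := fun j hj => sys.ccConn hj
        finK := ins.fin
        dis := fun j hj => (ins.dis j hj).symm
        bd := ins.nb
        nest := fun j hj => sys.nest ins hj
        dS := disjoint_union_left.2 ⟨sys.cc_dS hSS3 le_rfl, ins.dS 4 le_rfl⟩
        reach := ?_
        lm := ?_
        lC := ?_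
        lK := ?_
        lj := ?_
        l0 := ?_
        off := ?_
        finT := ⟨hPT2, hPB2⟩
        conT := ⟨hPT3, hPB3⟩
        disT := ?_
        tT := ⟨hPT4, hxT⟩
        tK := hTK
        tj := hTj
        t0 := hT0
        tr := ?_
        tK' := ?_
        bT := ⟨hPB4, hxB⟩
        bK := hBK
        bj := hBj
        b0 := hB0
        br := ?_
        bK' := ?_ }
    · rintro x (hx | hx)
      · refine ⟨c - 9, loT (c - 9), by omega, by omega, (sys.ccConn le_rfl).lnk' ?_ hx hxT⟩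
        rintro z hz (hz' | ⟨j, m, h1, h2, rfl⟩)
        · exact disjoint_left.1 (sys.cc_dS hSS3 le_rfl) hz hz'
        · have h3 := (sys.ray_cc le_rfl h1 hz).1
          omega
      · have hm : ray c (loD 4 c) ∈ D 4 := ((sys.colD 4 le_rfl).on c (by omega) (by omega) _).2
          ⟨le_rfl, (sys.colD 4 le_rfl).le c (by omega) (by omega)⟩
        refine ⟨c, loD 4 c, by omega, by omega,
          (ins.conn 4 le_rfl).lnk' ?_ hx (ins.sub 4 le_rfl hm)⟩
        rintro z hz (hz' | ⟨j, m, h1, h2, rfl⟩)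
        · exact disjoint_left.1 (ins.dS 4 le_rfl) hz hz'
        · have h3 := ins.on1 4 le_rfl j h1 m hz
          omega
    · intro i h1 h2
      have h3 := sys.pLL 4 le_rfl 0 (by omega) i (by omega) (by omega)
      have h4 := (sys.colL 0 (by omega)).le i (by omega) (by omega)
      have h5 := sys.hLQ (j := 0) (i := i) (by omega) (by omega) (by omega)
      have h6 := (sys.colQ 0 (by omega)).le i (by omega) (by omega)
      have h7 := sys.pQQ 4 le_rfl 0 (by omega) i (by omega) (by omega)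
      exact ⟨h3, lt_of_le_of_lt h4 (lt_of_lt_of_le h5 h6), h7⟩
    · intro i h1 h2
      exact ⟨hLCC 4 (hrC i h1 h2 4 le_rfl).2.1, hQCC 4 (hrC i h1 h2 4 le_rfl).2.2.1⟩
    · intro i h1 h2 m
      constructor
      · intro h
        exact (ins.on1 4 le_rfl i (by omega) m h).2.2
      · rintro ⟨h3, h4⟩
        exact ins.on2 4 le_rfl i (by omega) (by omega) m h3 h4
    · intro i h1 h2 j hj
      constructor
      · refine ⟨loL j i, ?_, ?_, hLCC j (hrC i h1 h2 j (by omega)).1⟩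
        · exact (sys.pLL 4 le_rfl j hj i (by omega) (by omega)).le
        · by_cases hj0 : j = 0
          · rw [hj0]
          · have h3 := sys.pLL j (by omega) 0 (by omega) i (by omega) (by omega)
            have h4 := (sys.colL j (by omega)).le i (by omega) (by omega)
            exact h4.trans h3.le
      · refine ⟨hiQ j i, ?_, ?_, hQCC j (hrC i h1 h2 j (by omega)).2.2.2⟩
        · by_cases hj0 : j = 0
          · rw [hj0]
          · have h3 := sys.pQQ j (by omega) 0 (by omega) i (by omega) (by omega)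
            have h4 := (sys.colQ j (by omega)).le i (by omega) (by omega)
            exact h3.le.trans h4
        · exact (sys.pQQ 4 le_rfl j hj i (by omega) (by omega)).le
    · intro i h1 h2 m hm
      have h3 := ins.on1 0 (by omega) i (by omega) m hm
      have h4 := (sys.colL 0 (by omega)).le i (by omega) (by omega)
      have h5 := (sys.colQ 0 (by omega)).le i (by omega) (by omega)
      exact ⟨lt_of_le_of_lt h4 h3.2.2.1, lt_of_lt_of_le h3.2.2.2 h5⟩
    · rintro i hi hio m (h | h)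
      · have h3 := (sys.ray_cc le_rfl hi h).1
        omega
      · have h3 := ins.on1 4 le_rfl i hi m h
        omega
    · rw [disjoint_left]
      intro z hz hz'
      exact disjoint_left.1 hB1.disj (hPB1 hz') (Or.inr (hPT1 hz))
    · intro i h1 h2 m hm
      exact hT1.off i (by omega) (by omega) m (hPT1 hm)
    · intro m hm
      have h3 := ins.on1 4 le_rfl (c - 9) (by omega) m hm
      omega
    · intro i h1 h2 m hm
      exact hB1.off i (by omega) (by omega) m (hPB1 hm)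
    · intro m hm
      have h3 := ins.on1 4 le_rfl (d + 9) (by omega) m hm
      omega
  · intro x hx
    obtain ⟨f1, f2, f3, f4, f5, f6, f7⟩ := hF x hx
    refine f3.subset_of_nb ⟨ray (fi x) (fn x), f5, ?_⟩ ?_ f4
    · refine ins.on2 0 (by omega) _ (by omega) (by omega) _ ?_ ?_
      · have h1 := hposL 0 (by omega) (fi x) (by omega) (by omega)
        by_contra hcon
        exact f1 f5 (Or.inl (Or.inr ⟨fi x, fn x, by omega, by omega, rfl⟩))
      · have h1 := sys.pQ 0 (by omega) (fi x) (by omega) (by omega)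
        by_contra hcon
        exact hN1 (fi x) (by omega) (fn x) (by omega) (Or.inr (hFY x hx f5))
    · refine Disjoint.mono_right (ins.nb 0 (by omega)) ?_
      rw [disjoint_left]
      intro z hz hzC
      rcases hzC with ((h | h) | ⟨m, h1, h2, rfl⟩) | ⟨m, h1, h2, rfl⟩
      · exact f1 hz (Or.inl (hLS' 0 (by omega) h))
      · exact disjoint_left.1 (hQA 0 (by omega)) h (Or.inl (Or.inl (Or.inr (hFY x hx hz))))
      · exact f1 hz (Or.inr ⟨c - 1 - 2 * 0, m, by omega, by omega, rfl⟩)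
      · exact f1 hz (Or.inr ⟨d + 1 + 2 * 0, m, by omega, by omega, rfl⟩)

end Pool.Agent.Work.MP_216d61_lc
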