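import Pool.Agent.Work.MP_216d61_lc_full.Base1
import Pool.Agent.Work.MP_216d61_lc_full.BASE2

/-!
# Block NO1: finitely many sets with at most one neighbour
-/

set_option autoImplicit false

namespace Pool.Agent.Work.MP_216d61_lc

open Relation Set

theorem stmt_NO1 (hFS : Stmt_FS) (hFAN : Stmt_FAN) : Stmt_NO1 := by
  classical
  intro ρ V G r A hS
  by_contra hcon
  push Not at hcon
  obtain ⟨a, b, rfl⟩ := hS.rat
  apply hS.nbt
  obtain ⟨L, hL⟩ := hFAN a b r 1
  have := hS.inf
  -- beyond every finite set there is a connected set with one neighbour, together with it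
  have h1 : ∀ S : Set V, S.Finite → ∃ F : Set V, F.Finite ∧ Conn G F ∧ (nb G F).ncard ≤ 1 ∧
      Disjoint (F ∪ nb G F) S := by
    intro S hSf
    obtain ⟨S', hS'f, hSS', hS'⟩ := hFS _ V G r A hS 1 S hSf
    obtain ⟨F, hFf, hFne, hF1, hFS'⟩ := hcon S' hS'f
    obtain ⟨x, hx⟩ := hFne
    have hnb : nb G (cmp G F x) ⊆ nb G F := by
      intro y hy
      have h2 := nb_cmp hy
      obtain ⟨_, z, hz, hzy⟩ := hy
      exact ⟨h2, z, cmp_subset hz, hzy⟩
    have hcf : (cmp G F x).Finite := hFf.subset cmp_subset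
    have hc1 : (nb G (cmp G F x)).ncard ≤ 1 :=
      (ncard_le_ncard hnb (nb_finite hS.lf hFf)).trans hF1
    refine ⟨cmp G F x, hcf, conn_cmp hx, hc1, ?_⟩
    by_contra hd
    have h3 := hS' (cmp G F x) hcf (conn_cmp hx) hc1 (not_disjoint_iff_nonempty_inter.1 hd)
    have h4 : x ∈ F ∩ S' := ⟨hx, h3 (Or.inl (self_mem_cmp hx))⟩
    rw [hFS'] at h4
    exact h4
  choose! Fn hF1 hF2 hF3 hF4 using h1
  -- the sequence, with the union of the closed sets used so far
  set T : ℕ → Set V := fun n => Nat.rec ∅ (fun _ T => T ∪ (Fn T ∪ nb G (Fn T))) n with hT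
  have T0 : T 0 = ∅ := rfl
  have Ts : ∀ n, T (n + 1) = T n ∪ (Fn (T n) ∪ nb G (Fn (T n))) := fun n => rfl
  have Tfin : ∀ n, (T n).Finite := by
    intro n
    induction n with
    | zero => rw [T0]; exact finite_empty
    | succ n ih =>
      rw [Ts]
      exact ih.union ((hF1 _ ih).union (nb_finite hS.lf (hF1 _ ih)))
  have Tmono : ∀ m n, m ≤ n → T m ⊆ T n := by
    intro m n hmn
    induction n, hmn using Nat.le_induction with
    | base => exact Subset.rfl
    | succ n _ ih => rw [Ts]; exact ih.trans subset_union_left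
  set F : ℕ → Set V := fun n => Fn (T n) with hF
  have Ff : ∀ n, (F n).Finite := fun n => hF1 _ (Tfin n)
  have Fc : ∀ n, Conn G (F n) := fun n => hF2 _ (Tfin n)
  have Fd : ∀ m n, m < n → Disjoint (F n ∪ nb G (F n)) (F m ∪ nb G (F m)) := by
    intro m n hmn
    refine (hF4 _ (Tfin n)).mono_right ?_
    refine Subset.trans ?_ (Tmono (m + 1) n hmn)
    rw [Ts]
    exact subset_union_right
  have Fd' : ∀ m n, m ≠ n → Disjoint (F n ∪ nb G (F n)) (F m ∪ nb G (F m)) := by
    intro m n hmn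
    rcases Nat.lt_or_gt_of_ne hmn with h | h
    · exact Fd m n h
    · exact (Fd n m h).symm
  have hy : ∀ n, ∃ y, nb G (F n) = {y} := by
    intro n
    have h2 : (nb G (F n)).Nonempty := by
      apply nb_nonempty hS.conn (Fc n).1
      intro h
      have := Ff n
      rw [h] at this
      exact infinite_univ this
    have h3 : (nb G (F n)).ncard = 1 := by
      have := hF3 _ (Tfin n)
      have h4 := (ncard_pos (nb_finite hS.lf (Ff n))).2 h2
      have h5 : (nb G (F n)).ncard ≤ 1 := this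
      omega
    exact ncard_eq_one.1 h3
  choose y hy using hy
  set H : Set V := (⋃ i : Fin L, F i)ᶜ with hH
  have hyH : ∀ n, y n ∈ H := by
    intro n
    have hyn : y n ∈ nb G (F n) := by rw [hy]; rfl
    rw [hH, mem_compl_iff, mem_iUnion]
    rintro ⟨i, hi⟩
    by_cases h : (i : ℕ) = n
    · rw [h] at hi; exact hyn.1 hi
    · exact disjoint_left.1 (Fd' i n h) (Or.inr hyn) (Or.inl hi)
  have hHc : Conn G H := by
    refine ⟨⟨_, hyH 0⟩, ?_⟩
    intro x hx z hz
    set K : Set V := cmp G H x ∪ ⋃ i : {i : Fin L // y i ∈ cmp G H x}, F i.1 with hK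
    have hnb : nb G K = ∅ := by
      rw [eq_empty_iff_forall_notMem]
      rintro w ⟨hw, v, hv, hvw⟩
      rcases hv with hv | hv
      · have hwH : w ∉ H := fun h => hw (Or.inl (Lnk.step hv hvw h))
        rw [hH, notMem_compl_iff, mem_iUnion] at hwH
        obtain ⟨i, hi⟩ := hwH
        have hvH : v ∈ H := cmp_subset hv
        have hvi : v ∉ F i := fun h => hvH (mem_iUnion.2 ⟨i, h⟩)
        have hvn : v ∈ nb G (F i) := ⟨hvi, w, hi, hvw.symm⟩
        rw [hy] at hvn
        have hvy : v = y i := hvn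
        rw [hvy] at hv
        exact hw (Or.inr (mem_iUnion.2 ⟨⟨i, hv⟩, hi⟩))
      · obtain ⟨⟨i, hi⟩, hvi⟩ := mem_iUnion.1 hv
        have hwi : w ∉ F i := fun h => hw (Or.inr (mem_iUnion.2 ⟨⟨i, hi⟩, h⟩))
        have hwn : w ∈ nb G (F i) := ⟨hwi, v, hvi, hvw⟩
        rw [hy] at hwn
        have hwy : w = y i := hwn
        exact hw (Or.inl (hwy ▸ hi))
    have hKu : K = univ := by
      by_contra hne
      have := nb_nonempty hS.conn ⟨x, Or.inl (self_mem_cmp hx)⟩ hne
      rw [hnb] at this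
      exact not_nonempty_empty this
    have hzK : z ∈ K := by rw [hKu]; exact mem_univ z
    rcases hzK with h | h
    · exact h.2
    · obtain ⟨⟨i, _⟩, hzi⟩ := mem_iUnion.1 h
      exact absurd (mem_iUnion.2 ⟨i, hzi⟩) hz
  refine hL V G A (fun i => F i) (fun _ => H) hS.mr (fun i => ⟨Ff i, (Fc i).1⟩) ?_ (fun _ => hHc)
    ?_ ?_ ?_ (fun i => hS.o1 _ (Ff i))
  · intro i j hij
    have := Fd' i j (fun h => hij (Fin.ext h))
    exact ((this.mono_left subset_union_left).mono_right subset_union_left).symm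
  · intro t t' h
    exact absurd (Subsingleton.elim t t') h
  · intro i t
    rw [disjoint_left]
    exact fun x hx hx' => hx' (mem_iUnion.2 ⟨i, hx⟩)
  · intro i
    refine ⟨fun _ => y i, fun _ => hyH i, ?_⟩
    rw [hy]
    rintro _ rfl
    exact ⟨0, rfl⟩

end Pool.Agent.Work.MP_216d61_lc
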