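import Pool.Agent.Work.MP_216d61_lc_full.Base1

/-!
# Block NO2: sets with two neighbours are not in the strip
-/

set_option autoImplicit false

namespace Pool.Agent.Work.MP_216d61_lc

open Relation Set

namespace NO2aux

/-- Successively disjoint windows. -/
theorem seq_of {V α : Type*} (wn : α → Set V) (P : α → Prop)
    (h : ∀ S : Set V, S.Finite → ∃ w, P w ∧ (wn w).Finite ∧ Disjoint (wn w) S) :
    ∃ w : ℕ → α, (∀ i, P (w i)) ∧ ∀ i j, i ≠ j → Disjoint (wn (w i)) (wn (w j)) := by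
  have h' : ∀ S : {S : Set V // S.Finite}, ∃ w, P w ∧ (wn w).Finite ∧ Disjoint (wn w) S.1 :=
    fun S => h S.1 S.2
  choose f h1 h2 h3 using h'
  let St : ℕ → {S : Set V // S.Finite} := fun n =>
    Nat.rec ⟨∅, finite_empty⟩ (fun _ S => ⟨S.1 ∪ wn (f S), S.2.union (h2 S)⟩) n
  have hSt : ∀ n, (St (n + 1)).1 = (St n).1 ∪ wn (f (St n)) := fun n => rfl
  have hmono : ∀ m n, m ≤ n → (St m).1 ⊆ (St n).1 := by
    intro m n hmn
    induction hmn with
    | refl => exact Subset.rfl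
    | step _ ih => exact ih.trans (by rw [hSt]; exact subset_union_left)
  have hlt : ∀ m n, m < n → Disjoint (wn (f (St m))) (wn (f (St n))) := by
    intro m n hmn
    have h4 : wn (f (St m)) ⊆ (St n).1 :=
      (show wn (f (St m)) ⊆ (St (m + 1)).1 by rw [hSt]; exact subset_union_right).trans
        (hmono (m + 1) n hmn)
    exact (h3 (St n)).symm.mono_left h4
  refine ⟨fun n => f (St n), fun i => h1 _, fun i j hij => ?_⟩
  rcases lt_or_gt_of_ne hij with h4 | h4
  · exact hlt i j h4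
  · exact (hlt j i h4).symm

theorem reach_compl {V : Type} {G : SimpleGraph V} {K : ℕ} {ray : ℕ → ℕ → V} {c d : ℕ}
    {S : Set V} : Disjoint (Reach G K ray c d S) S := by
  rw [disjoint_left]
  rintro x ⟨i, n, _, _, hx⟩ hxS
  exact hx.1 (Or.inl hxS)

theorem reach_mono {V : Type} {G : SimpleGraph V} {K : ℕ} {ray : ℕ → ℕ → V} {c d : ℕ}
    {S S' : Set V} (h : S' ⊆ S) : Reach G K ray c d S ⊆ Reach G K ray c d S' := by
  rintro x ⟨i, n, h1, h2, hx⟩
  refine ⟨i, n, h1, h2, hx.mono ?_⟩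
  rw [compl_subset_compl]
  exact union_subset_union_left _ h

end NO2aux

open NO2aux in
theorem stmt_NO2 (hNO1 : Stmt_NO1) (hNEST : Stmt_NEST) (hWIN : Stmt_WIN) (hFAN : Stmt_FAN) :
    Stmt_NO2 := by
  classical
  intro ρ V G r A hS T K ray S1 hSt c d hc hcd hdK
  by_contra hcon
  push Not at hcon
  obtain ⟨a, b, hρ⟩ := hS.rat
  obtain ⟨SN, hSNf, hSN⟩ := hNO1 ρ V G r A hS
  have hR := hSt.rays
  -- one window
  have hwin : ∀ S : Set V, S.Finite → ∃ w : Set V × (Fin 2 → Set V) × (Fin 2 → V) × Set V,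
      ((w.1.Finite ∧ w.1.Nonempty) ∧ (∀ t, Conn G (w.2.1 t)) ∧ Disjoint (w.2.1 0) (w.2.1 1) ∧
        (∀ t, w.2.2.1 t ∈ w.2.1 t) ∧ (∃ m, w.2.2.1 0 = ray (c - 9) m) ∧
        (∃ m, w.2.2.1 1 = ray (d + 9) m) ∧ (∀ t, Disjoint w.1 (w.2.1 t)) ∧
        (∀ m, ray (c - 9) m ∉ w.1 ∧ ray (d + 9) m ∉ w.1) ∧
        (∀ m, ray (c - 9) m ∉ w.2.1 1) ∧ (∀ m, ray (d + 9) m ∉ w.2.1 0) ∧
        (∃ y : Fin 2 → V, (∀ t, y t ∈ w.2.1 t) ∧ nb G w.1 ⊆ range y) ∧
        w.1 ⊆ w.2.2.2 ∧ ∀ t, w.2.1 t ⊆ w.2.2.2) ∧ (w.2.2.2).Finite ∧ Disjoint w.2.2.2 S := by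
    intro S hSf
    obtain ⟨S', hS'f, hSS', hN⟩ := hNEST ρ V G r A hS.toLim T K ray S1 hSt c d hc hcd hdK
      (S ∪ SN) (hSf.union hSNf)
    obtain ⟨F, hFf, hFn, hFR, hF3⟩ := hcon S' hS'f
    have hnf : (nb G F).Finite := nb_finite hS.lf hFf
    have hFSN : Disjoint F SN := by
      refine (reach_compl (S := S')).mono (subset_union_left.trans hFR) ?_
      exact (subset_union_right (s := S)).trans hSS'
    have h2 : (nb G F).ncard = 2 := by
      by_contra hne
      have h1 : (nb G F).ncard ≤ 1 := by omega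
      obtain ⟨x, hx1, hx2⟩ := hSN F hFf hFn h1
      exact disjoint_left.1 hFSN hx1 hx2
    obtain ⟨C, Kc, am, bm, ap, bp, PT, PB, sT, sB, hNest, hW⟩ := hN (F ∪ nb G F)
      (hFf.union hnf) hFR
    have hmonoK : ∀ j ≤ 4, Kc j ⊆ Kc 4 := by
      intro j hj
      have h01 : Kc 0 ⊆ Kc 1 := subset_union_right.trans (hNest.nest 0 (by norm_num))
      have h12 : Kc 1 ⊆ Kc 2 := subset_union_right.trans (hNest.nest 1 (by norm_num))
      have h23 : Kc 2 ⊆ Kc 3 := subset_union_right.trans (hNest.nest 2 (by norm_num))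
      have h34 : Kc 3 ⊆ Kc 4 := subset_union_right.trans (hNest.nest 3 (by norm_num))
      interval_cases j
      · exact h01.trans (h12.trans (h23.trans h34))
      · exact h12.trans (h23.trans h34)
      · exact h23.trans h34
      · exact h34
      · exact Subset.rfl
    have hFK : F ⊆ Kc 4 := (subset_union_left.trans hW).trans (hmonoK 0 (by norm_num))
    obtain ⟨D, hDc, hDd, hDθ, hDs, hDn⟩ := hWIN V G 2 C Kc ![PT, PB]
      ![ray (c - 9) sT, ray (d + 9) sB] F (by norm_num) hNest.conC hNest.finK hNest.dis hNest.bd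
      hNest.nest
      (by rw [Fin.forall_fin_two]; exact hNest.conT)
      (by
        intro t t' htt
        fin_cases t <;> fin_cases t'
        · exact absurd rfl htt
        · exact hNest.disT
        · exact hNest.disT.symm
        · exact absurd rfl htt)
      (by rw [Fin.forall_fin_two]; exact ⟨hNest.tT.1, hNest.bT.1⟩)
      (by rw [Fin.forall_fin_two]; exact ⟨hNest.tT.2, hNest.bT.2⟩)
      (by rw [Fin.forall_fin_two]; exact ⟨hNest.tK, hNest.bK⟩)
      (by rw [Fin.forall_fin_two]; exact ⟨hNest.tj, hNest.bj⟩)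
      (by rw [Fin.forall_fin_two]; exact ⟨hNest.t0, hNest.b0⟩)
      (subset_union_left.trans hW) (subset_union_right.trans hW) h2
      (by
        intro H hHn hHK
        by_contra hlt
        obtain ⟨x, hx1, hx2⟩ := hSN H ((hNest.finK 4 le_rfl).subset hHK) hHn (by omega)
        exact disjoint_left.1 hNest.dS (Or.inr (hHK hx1)) (Or.inr hx2))
    have hD0 : D 0 ⊆ Kc 4 ∪ {ray (c - 9) sT} := fun x hx => (hDs 0 hx).1
    have hD1 : D 1 ⊆ Kc 4 ∪ {ray (d + 9) sB} := fun x hx => (hDs 1 hx).1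
    have hcK : c - 9 < K := by omega
    have hdK' : d + 9 < K := by omega
    have hne : ∀ m m', ray (c - 9) m ≠ ray (d + 9) m' := by
      intro m m' h
      have := (hR.inj (c - 9) hcK (d + 9) hdK' m m' h).1
      omega
    refine ⟨(F, D, ![ray (c - 9) sT, ray (d + 9) sB], C 4 ∪ Kc 4), ⟨⟨hFf, hFn⟩, hDc,
      hDd 0 1 (by decide), hDθ, ⟨sT, rfl⟩, ⟨sB, rfl⟩, ?_, ?_, ?_, ?_, ?_, ?_, ?_⟩, ?_, ?_⟩
    · intro t
      rw [disjoint_left]
      exact fun x hx hx' => (hDs t hx').2 hx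
    · exact fun m => ⟨fun h => hNest.tK' m (hFK h), fun h => hNest.bK' m (hFK h)⟩
    · intro m hm
      rcases hD1 hm with h | h
      · exact hNest.tK' m h
      · exact hne _ _ h
    · intro m hm
      rcases hD0 hm with h | h
      · exact hNest.bK' m h
      · exact hne _ _ h.symm
    · obtain ⟨y0, hy0, hy0'⟩ := hDn 0
      obtain ⟨y1, hy1, hy1'⟩ := hDn 1
      refine ⟨![y0, y1], by rw [Fin.forall_fin_two]; exact ⟨hy0, hy1⟩, ?_⟩
      have hne01 : y0 ≠ y1 := by
        rintro rfl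
        exact disjoint_left.1 (hDd 0 1 (by decide)) hy0 hy1
      have hsub : ({y0, y1} : Set V) ⊆ nb G F := by
        intro x hx
        rcases hx with rfl | rfl
        · exact hy0'
        · exact hy1'
      have heq : ({y0, y1} : Set V) = nb G F := by
        apply eq_of_subset_of_ncard_le hsub _ hnf
        rw [h2, ncard_pair hne01]
      rw [← heq]
      intro x hx
      rcases hx with rfl | rfl
      · exact ⟨0, rfl⟩
      · exact ⟨1, rfl⟩
    · exact hFK.trans subset_union_right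
    · rw [Fin.forall_fin_two]
      constructor
      · intro x hx
        rcases hD0 hx with h | h
        · exact Or.inr h
        · rw [mem_singleton_iff] at h
          rw [h]; exact Or.inl hNest.tT.2
      · intro x hx
        rcases hD1 hx with h | h
        · exact Or.inr h
        · rw [mem_singleton_iff] at h
          rw [h]; exact Or.inl hNest.bT.2
    · exact (hNest.finC 4 le_rfl).union (hNest.finK 4 le_rfl)
    · exact hNest.dS.mono_right subset_union_left
  obtain ⟨w, hw, hwd⟩ := seq_of (fun w : Set V × (Fin 2 → Set V) × (Fin 2 → V) × Set V => w.2.2.2)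
    _ hwin
  -- the hubs
  obtain ⟨L, hL⟩ := hFAN a b r 2
  set rr : Fin 2 → ℕ → V := ![ray (c - 9), ray (d + 9)] with hrr
  have hcK : c - 9 < K := by omega
  have hdK' : d + 9 < K := by omega
  have hne : ∀ m m', ray (c - 9) m ≠ ray (d + 9) m' := by
    intro m m' h
    have := (hR.inj (c - 9) hcK (d + 9) hdK' m m' h).1
    omega
  have hrconn : ∀ t, Conn G (range (rr t)) := by
    have h0 : ∀ i, i < K → Conn G (range (ray i)) := by
      intro i hi
      have := hR.conn_tail hi 0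
      have he : {x | ∃ n, 0 ≤ n ∧ x = ray i n} = range (ray i) := by
        ext x
        constructor
        · rintro ⟨n, _, rfl⟩; exact ⟨n, rfl⟩
        · rintro ⟨n, rfl⟩; exact ⟨n, Nat.zero_le _, rfl⟩
      rwa [he] at this
    rw [Fin.forall_fin_two]
    exact ⟨h0 _ hcK, h0 _ hdK'⟩
  set H : Fin 2 → Set V := fun t => range (rr t) ∪ ⋃ i, (w i).2.1 t with hH
  have hθr : ∀ t i, (w i).2.2.1 t ∈ range (rr t) := by
    rw [Fin.forall_fin_two]
    constructor
    · intro i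
      obtain ⟨m, hm⟩ := (hw i).2.2.2.2.1
      exact ⟨m, hm.symm⟩
    · intro i
      obtain ⟨m, hm⟩ := (hw i).2.2.2.2.2.1
      exact ⟨m, hm.symm⟩
  have hHc : ∀ t, Conn G (H t) := fun t =>
    (hrconn t).iUnion (fun i => (hw i).2.1 t) fun i =>
      ⟨_, (hw i).2.2.2.1 t, _, hθr t i, Or.inl rfl⟩
  have hFW : ∀ i, (w i).1 ⊆ (w i).2.2.2 := fun i => (hw i).2.2.2.2.2.2.2.2.2.2.2.1
  have hDW : ∀ i t, (w i).2.1 t ⊆ (w i).2.2.2 := fun i => (hw i).2.2.2.2.2.2.2.2.2.2.2.2
  have hHd : Disjoint (H 0) (H 1) := by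
    rw [disjoint_left]
    rintro x (⟨m, rfl⟩ | hx) (⟨m', hm'⟩ | hx')
    · exact hne m m' hm'.symm
    · obtain ⟨j, hj⟩ := mem_iUnion.1 hx'
      exact (hw j).2.2.2.2.2.2.2.2.1 m hj
    · obtain ⟨i, hi⟩ := mem_iUnion.1 hx
      have h1 : ray (d + 9) m' = x := hm'
      rw [← h1] at hi
      exact (hw i).2.2.2.2.2.2.2.2.2.1 m' hi
    · obtain ⟨i, hi⟩ := mem_iUnion.1 hx
      obtain ⟨j, hj⟩ := mem_iUnion.1 hx'
      by_cases hij : i = j
      · subst hij
        exact disjoint_left.1 (hw i).2.2.1 hi hj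
      · exact disjoint_left.1 (hwd i j hij) (hDW i 0 hi) (hDW j 1 hj)
  refine hS.nbt ?_
  rw [hρ]
  refine hL V G A (fun i => (w i).1) H (by rw [← hρ]; exact hS.mr) (fun i => (hw i).1) ?_ hHc ?_
    ?_ ?_ ?_
  · intro i j hij
    exact (hwd i j (fun h => hij (Fin.ext h))).mono (hFW i) (hFW j)
  · intro t t' htt
    fin_cases t <;> fin_cases t'
    · exact absurd rfl htt
    · exact hHd
    · exact hHd.symm
    · exact absurd rfl htt
  · intro i t
    rw [disjoint_left]
    rintro x hx (hx' | hx')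
    · revert hx'
      fin_cases t
      · rintro ⟨m, hm⟩
        have h1 : ray (c - 9) m = x := hm
        rw [← h1] at hx
        exact ((hw i).2.2.2.2.2.2.2.1 m).1 hx
      · rintro ⟨m, hm⟩
        have h1 : ray (d + 9) m = x := hm
        rw [← h1] at hx
        exact ((hw i).2.2.2.2.2.2.2.1 m).2 hx
    · obtain ⟨j, hj⟩ := mem_iUnion.1 hx'
      by_cases hij : (i : ℕ) = j
      · rw [← hij] at hj
        exact disjoint_left.1 ((hw i).2.2.2.2.2.2.1 t) hx hj
      · exact disjoint_left.1 (hwd i j hij) (hFW i hx) (hDW j t hj)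
  · intro i
    obtain ⟨y, hy1, hy2⟩ := (hw i).2.2.2.2.2.2.2.2.2.2.1
    exact ⟨y, fun t => Or.inr (mem_iUnion.2 ⟨i, hy1 t⟩), hy2⟩
  · intro i
    rw [← hρ]
    exact hS.o1 _ (hw i).1.1

end Pool.Agent.Work.MP_216d61_lc
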