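import Pool.Agent.Work.MP_216d61_lc_full.InterfaceLIM

/-!
# MP_216d61_lc full: block OM, and basic facts on good types
-/

set_option autoImplicit false

namespace Pool.Agent.Work.MP_216d61_lc

open Relation Set Filter

/-- passing to a subtype on the level of injections -/
theorem GT.sub {ρ : ℝ} {R C R' C' : Type} {H : SimpleGraph C} {A : R → C → Prop}
    {H' : SimpleGraph C'} {A' : R' → C' → Prop} (h : GT ρ H A) (φ : C' → C) (ψ : R' → R)
    (hφ : Function.Injective φ) (hψ : Function.Injective ψ)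
    (hH : ∀ c d, H'.Adj c d → H.Adj (φ c) (φ d)) (hA : ∀ a c, A' a c → A (ψ a) (φ c)) :
    GT ρ H' A' := by
  intro κ
  refine (h κ).minor (minor_of_inj (Sum.map ψ (Prod.map id φ))
    (Function.Injective.sumMap hψ (Function.Injective.prodMap Function.injective_id hφ)) ?_)
  rintro (a | p) (b | q) hab
  · exact hab
  · exact hA _ _ hab
  · exact hA _ _ hab
  · exact ⟨hab.1, hH _ _ hab.2⟩

theorem lbn_eq {R C : Type*} [Fintype R] [Fintype C] (A : R → C → Prop)
    [DecidablePred fun p : R × C => A p.1 p.2] :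
    lbn A = (Finset.univ.filter fun p : R × C => A p.1 p.2).card := by
  unfold lbn
  rw [← Set.ncard_coe_finset]
  congr 1
  ext p
  simp

theorem tau2_eq {R C : Type*} [Fintype R] [Fintype C] (H : SimpleGraph C) (A : R → C → Prop) :
    tau2 H A = e2 H + 2 * lbn A := by
  classical
  rw [tau2, lbn_eq]

/-- good types have nonnegative deficiency -/
theorem GT.tau2_le {ρ : ℝ} {R C : Type} [Fintype R] [Fintype C] {H : SimpleGraph C}
    {A : R → C → Prop} (h : GT ρ H A) : (tau2 H A : ℝ) ≤ 2 * ρ * Fintype.card C := by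
  by_contra hcon
  push Not at hcon
  set d : ℝ := tau2 H A - 2 * ρ * Fintype.card C with hd
  have hd0 : 0 < d := by rw [hd]; linarith
  obtain ⟨κ, hκ⟩ := exists_nat_gt (2 * ρ * Fintype.card R / d)
  have h1 := (h κ).self
  rw [e2_fan, Nat.card_eq_fintype_card, card_fan, Fintype.card_fin] at h1
  rw [div_lt_iff₀ hd0] at hκ
  push_cast at h1
  have h5 : (κ : ℝ) * d = κ * tau2 H A - 2 * ρ * (κ * Fintype.card C) := by rw [hd]; ring
  linarith

/-- the graph with the roots is in `M_ρ` -/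
theorem GT.hat {ρ : ℝ} {r : ℕ} {C : Type} {H : SimpleGraph C} {A : Fin r → C → Prop}
    (h : GT ρ H A) : MR ρ (Hat H A) := by
  refine (h 1).minor (minor_of_inj (Sum.map id fun c => ((0 : Fin 1), c))
    (Function.Injective.sumMap Function.injective_id fun c d hcd => (Prod.ext_iff.1 hcd).2) ?_)
  rintro (a | p) (b | q) hab
  · exact hab
  · obtain ⟨a', h1, h2⟩ := hab
    cases h1
    exact h2
  · obtain ⟨a', h1, h2⟩ := hab
    cases h1
    exact h2
  · exact ⟨rfl, hab⟩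

theorem lbn_congr {R C R' C' : Type*} {A : R → C → Prop} {A' : R' → C' → Prop} (e : R' ≃ R)
    (f : C' ≃ C) (h : ∀ a c, A' a c ↔ A (e a) (f c)) : lbn A' = lbn A := by
  unfold lbn
  refine Set.ncard_congr (fun p _ => (e p.1, f p.2)) ?_ ?_ ?_
  · rintro ⟨a, c⟩ hp
    exact (h a c).1 hp
  · rintro ⟨a, c⟩ ⟨b, d⟩ _ _ hpq
    simp only [Prod.mk.injEq, EmbeddingLike.apply_eq_iff_eq] at hpq
    exact Prod.ext hpq.1 hpq.2
  · rintro ⟨a, c⟩ hp
    refine ⟨(e.symm a, f.symm c), ?_, by simp⟩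
    show A' _ _
    rw [h]
    simpa using hp

/-- every good type has a copy on `Fin` -/
theorem GT.reindex {ρ : ℝ} {R C : Type} [Fintype R] [Fintype C] {H : SimpleGraph C}
    {A : R → C → Prop} (h : GT ρ H A) {r n : ℕ} (hr : Fintype.card R = r)
    (hn : Fintype.card C = n) :
    ∃ (H' : SimpleGraph (Fin n)) (A' : Fin r → Fin n → Prop), GT ρ H' A' ∧
      tau2 H' A' = tau2 H A ∧ lbn A' = lbn A := by
  set e := (Fintype.equivFinOfCardEq hr).symm with he
  set f := (Fintype.equivFinOfCardEq hn).symm with hf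
  refine ⟨H.comap f, fun a c => A (e a) (f c), ?_, ?_, ?_⟩
  · exact h.sub f e f.injective e.injective (fun _ _ h => h) fun _ _ h => h
  · rw [tau2_eq, tau2_eq, lbn_congr e f fun _ _ => Iff.rfl, e2_congr f fun _ _ => Iff.rfl]
  · exact lbn_congr e f fun _ _ => Iff.rfl

theorem GT.lbn_le {ρ : ℝ} {R C : Type} [Fintype R] [Fintype C] {H : SimpleGraph C}
    {A : R → C → Prop} (h : GT ρ H A) : (lbn A : ℝ) ≤ ρ * Fintype.card C := by
  have h1 := h.tau2_le
  rw [tau2_eq] at h1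
  push_cast at h1
  have h2 : (0 : ℝ) ≤ e2 H := Nat.cast_nonneg _
  linarith

/-- label densities of the good types with deficiency at most `ε` -/
def LS (ρ ε : ℝ) : Set ℝ :=
  {x | ∃ (r n : ℕ) (H : SimpleGraph (Fin n)) (A : Fin r → Fin n → Prop), 1 ≤ n ∧ GT ρ H A ∧
    2 * ρ * n - tau2 H A ≤ ε * n ∧ x = lbn A / n}

theorem LS_zero {ρ ε : ℝ} (hD : Dense ρ) (hε : 0 < ε) : (0 : ℝ) ∈ LS ρ ε := by
  obtain ⟨m, hm, G, hG, hGe⟩ := hD (ε / 2) (by linarith)
  refine ⟨0, m, G, fun _ _ => False, hm, fun κ => hG.copies κ, ?_, ?_⟩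
  · rw [tau2_eq]
    push_cast
    have h1 : (0 : ℝ) ≤ lbn (fun (_ : Fin 0) (_ : Fin m) => False) := Nat.cast_nonneg _
    have h2 : 2 * (ρ - ε / 2) * (m : ℝ) = 2 * ρ * m - ε * m := by ring
    linarith
  · have h1 : lbn (fun (_ : Fin 0) (_ : Fin m) => False) = 0 := by
      unfold lbn
      rw [Set.ncard_eq_zero]
      ext p
      simp
    rw [h1]
    simp

theorem LS_bdd {ρ ε : ℝ} : BddAbove (LS ρ ε) := by
  refine ⟨ρ, ?_⟩
  rintro x ⟨r, n, H, A, hn, hG, _, rfl⟩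
  have h1 := hG.lbn_le
  rw [Fintype.card_fin] at h1
  have h2 : (0 : ℝ) < n := by exact_mod_cast hn
  rw [div_le_iff₀ h2]
  exact h1

theorem stmt_OM : Stmt_OM := by
  intro ρ hρ hD
  set W : Set ℝ := {w | ∃ ε : ℝ, 0 < ε ∧ w = sSup (LS ρ ε)} with hW
  have hW0 : ∀ w ∈ W, 0 ≤ w := by
    rintro w ⟨ε, hε, rfl⟩
    exact le_csSup LS_bdd (LS_zero hD hε)
  have hWne : W.Nonempty := ⟨_, 1, one_pos, rfl⟩
  have hWb : BddBelow W := ⟨0, hW0⟩
  refine ⟨sInf W, le_csInf hWne hW0, ?_, ?_⟩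
  · intro δ hδ
    obtain ⟨w, ⟨θ, hθ, rfl⟩, hlt⟩ := exists_lt_of_csInf_lt hWne (show sInf W < sInf W + δ by linarith)
    refine ⟨θ, hθ, ?_⟩
    intro R C _ _ H A hC hG hdef
    obtain ⟨H', A', hG', ht, hl⟩ := hG.reindex rfl rfl
    have hpos : (0 : ℝ) < Fintype.card C := by exact_mod_cast hC
    have h1 : (lbn A' : ℝ) / Fintype.card C ∈ LS ρ θ :=
      ⟨_, _, H', A', hC, hG', by rw [ht]; exact hdef, rfl⟩
    have h2 := le_csSup LS_bdd h1
    rw [div_le_iff₀ hpos, hl] at h2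
    refine h2.trans ?_
    exact mul_le_mul_of_nonneg_right hlt.le hpos.le
  · intro ε hε
    have h1 : sInf W ≤ sSup (LS ρ ε) := csInf_le hWb ⟨ε, hε, rfl⟩
    obtain ⟨x, ⟨r, n, H, A, hn, hG, hdef, rfl⟩, hx⟩ := exists_lt_of_lt_csSup
      ⟨0, LS_zero hD hε⟩ (show sInf W - ε < sSup (LS ρ ε) by linarith)
    refine ⟨r, n, H, A, hn, hG, hdef, ?_⟩
    have hpos : (0 : ℝ) < n := by exact_mod_cast hn
    rw [lt_div_iff₀ hpos] at hx
    exact hx.le

end Pool.Agent.Work.MP_216d61_lc
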