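import Pool.Agent.Work.MP_216d61_lc_full.Base1
import Pool.Agent.Work.MP_216d61_lc_full.BASE2
import Pool.Agent.Work.MP_216d61_lc_full.OM

/-!
# Block ONE (typical one-endedness)
-/

set_option autoImplicit false

namespace Pool.Agent.Work.MP_216d61_lc

open Relation Set Filter

namespace ONEaux

variable {V : Type} {G : SimpleGraph V}

theorem ball_zero (x : V) : ball G x 0 = {x} := rfl

theorem ball_succ (x : V) (R : ℕ) : ball G x (R + 1) = ball G x R ∪ nb G (ball G x R) := rfl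

theorem ball_sub (x : V) (R : ℕ) : ball G x R ⊆ ball G x (R + 1) := subset_union_left

theorem ball_mono (x : V) {R R' : ℕ} (h : R ≤ R') : ball G x R ⊆ ball G x R' := by
  induction R', h using Nat.le_induction with
  | base => exact subset_rfl
  | succ n _ ih => exact ih.trans (ball_sub x n)

theorem self_mem_ball (x : V) (R : ℕ) : x ∈ ball G x R := ball_mono x (Nat.zero_le R) rfl

theorem ball_adj {x y z : V} {R : ℕ} (hy : y ∈ ball G x R) (h : G.Adj y z) :
    z ∈ ball G x (R + 1) := by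
  by_cases hz : z ∈ ball G x R
  · exact Or.inl hz
  · exact Or.inr ⟨hz, y, hy, h⟩

theorem ball_succ_cases {x y : V} {R : ℕ} (h : y ∈ ball G x (R + 1)) :
    y ∈ ball G x R ∨ ∃ z ∈ ball G x R, G.Adj z y := by
  rcases h with h | ⟨_, z, hz, hzy⟩
  · exact Or.inl h
  · exact Or.inr ⟨z, hz, hzy⟩

theorem adj_ball {x z y : V} {R : ℕ} (h : G.Adj x z) (hy : y ∈ ball G z R) :
    y ∈ ball G x (R + 1) := by
  induction R generalizing y with
  | zero =>
    rw [ball_zero, mem_singleton_iff] at hy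
    subst hy
    exact ball_adj (self_mem_ball x 0) h
  | succ R ih =>
    rcases ball_succ_cases hy with h1 | ⟨w, hw, hwy⟩
    · exact ball_sub x _ (ih h1)
    · exact ball_adj (ih hw) hwy

theorem ball_symm {x y : V} {R : ℕ} (h : y ∈ ball G x R) : x ∈ ball G y R := by
  induction R generalizing y with
  | zero =>
    rw [ball_zero, mem_singleton_iff] at h
    rw [ball_zero, mem_singleton_iff]
    exact h.symm
  | succ R ih =>
    rcases ball_succ_cases h with h1 | ⟨w, hw, hwy⟩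
    · exact ball_sub y _ (ih h1)
    · exact adj_ball hwy.symm (ih hw)

theorem ball_trans {x y z : V} {R R' : ℕ} (h : y ∈ ball G x R) (h' : z ∈ ball G y R') :
    z ∈ ball G x (R + R') := by
  induction R' generalizing z with
  | zero =>
    rw [ball_zero, mem_singleton_iff] at h'
    rw [h']; exact h
  | succ R' ih =>
    rcases ball_succ_cases h' with h1 | ⟨w, hw, hwz⟩
    · exact ball_mono x (by omega) (ih h1)
    · exact ball_adj (ih hw) hwz

theorem ball_conn (x : V) (R : ℕ) : Conn G (ball G x R) := by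
  induction R with
  | zero => exact conn_singleton x
  | succ R ih =>
    refine conn_of_center (x0 := x) (self_mem_ball x _) ?_
    intro y hy
    rcases ball_succ_cases hy with h1 | ⟨z, hz, hzy⟩
    · exact link_mono (ball_sub x R) (ih.2 y h1 x (self_mem_ball x R))
    · exact (link_mono (ball_sub x R) (ih.2 z hz x (self_mem_ball x R))).head
        ⟨hzy.symm, hy, ball_sub x R hz⟩

/-- a ball with bounded degrees is small -/
theorem ball_card [Finite V] {x : V} {B R : ℕ} (h : ∀ y ∈ ball G x R, dg G y ≤ B) (k : ℕ)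
    (hk : k ≤ R + 1) : (ball G x k).ncard ≤ (B + 1) ^ k := by
  classical
  induction k with
  | zero => rw [ball_zero, ncard_singleton, pow_zero]
  | succ k ih =>
    have hk' : k ≤ R := by omega
    have ih' := ih (by omega)
    rw [ball_succ]
    have h1 : (nb G (ball G x k)).ncard ≤ (ball G x k).ncard * B := by
      have h2 : nb G (ball G x k) ⊆ ⋃ y ∈ ball G x k, {z | G.Adj y z} := by
        rintro z ⟨_, y, hy, hyz⟩
        exact mem_biUnion hy hyz
      refine (ncard_le_ncard h2 (toFinite _)).trans ?_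
      have h3 : (ball G x k).Finite := toFinite _
      have h4 := Finset.card_biUnion_le_card_mul (h3.toFinset)
        (fun y => (toFinite {z | G.Adj y z}).toFinset) B (fun y hy => by
          rw [← ncard_eq_toFinset_card _ (toFinite {z | G.Adj y z})]
          exact h y (ball_mono x hk' (h3.mem_toFinset.1 hy)))
      rw [← ncard_coe_finset, ← ncard_eq_toFinset_card _ h3] at h4
      refine le_trans (le_of_eq ?_) h4
      congr 1
      ext z
      simp
    calc (ball G x k ∪ nb G (ball G x k)).ncard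
        ≤ (ball G x k).ncard + (nb G (ball G x k)).ncard := ncard_union_le _ _
      _ ≤ (ball G x k).ncard + (ball G x k).ncard * B := by omega
      _ = (ball G x k).ncard * (B + 1) := by ring
      _ ≤ (B + 1) ^ k * (B + 1) := Nat.mul_le_mul_right _ ih'
      _ = (B + 1) ^ (k + 1) := by rw [pow_succ]

/-- a small connected set lies in a ball -/
theorem conn_sub_ball [Finite V] {P : Set V} {x : V} {K : ℕ} (hP : Conn G P) (hx : x ∈ P)
    (hK : P.ncard ≤ K) : P ⊆ ball G x K := by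
  by_contra hcon
  have hcon' : ∀ i ≤ K, ¬ P ⊆ ball G x i := fun i hi h => hcon (h.trans (ball_mono x hi))
  have key : ∀ i ≤ K, i + 1 ≤ (P ∩ ball G x i).ncard := by
    intro i
    induction i with
    | zero =>
      intro _
      have : (P ∩ ball G x 0).Nonempty := ⟨x, hx, rfl⟩
      have h1 := (ncard_pos (toFinite _)).2 this
      omega
    | succ i ih =>
      intro hi
      have h1 := ih (by omega)
      obtain ⟨y, hy, hyn⟩ := not_subset.1 (hcon' i (by omega))
      obtain ⟨a, ha, b, hb, hab⟩ := hP.exists_adj hx (self_mem_ball x i) hy hyn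
      have h2 : insert b (P ∩ ball G x i) ⊆ P ∩ ball G x (i + 1) := by
        rintro z (rfl | hz)
        · exact ⟨hb.1, ball_adj ha.2 hab⟩
        · exact ⟨hz.1, ball_sub x i hz.2⟩
      have h3 := ncard_le_ncard h2 (toFinite _)
      rw [ncard_insert_of_notMem (fun h => hb.2 h.2) (toFinite _)] at h3
      omega
  have h1 := key K le_rfl
  have h2 := ncard_le_ncard (inter_subset_left (s := P) (t := ball G x K)) (toFinite _)
  omega

/-- the descending path from a sphere to the boundary -/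
theorem descend {x : V} {R0 L : ℕ} {Pi bd : Set V} (hx : x ∈ Pi)
    (hbd : ∀ z ∈ Pi, ∀ y, y ∉ Pi → G.Adj z y → z ∈ bd) (hR : ∀ z ∈ bd, z ∉ ball G x (R0 + 1)) :
    ∀ i ≤ L + 1, ∀ w, w ∈ ball G x i → (∀ i' < i, w ∉ ball G x i') → w ∉ Pi →
      ∃ b ∈ bd, Lnk G (ball G x (L + 1) \ ball G x R0) w b := by
  intro i
  induction i with
  | zero =>
    intro _ w hw _ hwP
    rw [ball_zero, mem_singleton_iff] at hw
    exact absurd (hw ▸ hx) hwP
  | succ i ih =>
    intro hi w hw hw' hwP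
    have hwi := hw' i (by omega)
    rcases ball_succ_cases hw with h1 | ⟨z, hz, hzw⟩
    · exact absurd h1 hwi
    have hz' : ∀ i' < i, z ∉ ball G x i' := fun i' hi' h =>
      hwi (ball_mono x (by omega) (ball_adj h hzw))
    have hwL : w ∈ ball G x (L + 1) := ball_mono x hi hw
    have hzL : z ∈ ball G x (L + 1) := ball_mono x (by omega) hz
    by_cases hzP : z ∈ Pi
    · have hzb : z ∈ bd := hbd z hzP w hwP hzw
      have hzR := hR z hzb
      have hiR : R0 + 1 < i := by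
        by_contra hc
        exact hzR (ball_mono x (by omega) hz)
      have hwR : w ∉ ball G x R0 := fun h => hwi (ball_mono x (by omega) h)
      have hzR' : z ∉ ball G x R0 := fun h => hzR (ball_sub x R0 h)
      exact ⟨z, hzb, Lnk.of_adj hzw.symm ⟨hwL, hwR⟩ ⟨hzL, hzR'⟩⟩
    · obtain ⟨b, hb, hlk⟩ := ih (by omega) z hz hz' hzP
      have hzR : z ∉ ball G x R0 := hlk.mem_left.2
      have hiR : R0 < i := by
        by_contra hc
        exact hzR (ball_mono x (by omega) hz)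
      have hwR : w ∉ ball G x R0 := fun h => hwi (ball_mono x (by omega) h)
      have h9 : Lnk G (ball G x (L + 1) \ ball G x R0) w z :=
        Lnk.of_adj hzw.symm ⟨hwL, hwR⟩ ⟨hzL, hzR⟩
      exact ⟨b, hb, h9.trans hlk⟩

theorem sepr {x : V} {R0 L : ℕ} {Pi bd : Set V} (hx : x ∈ Pi) (hPi : Pi ⊆ ball G x L)
    (hbd : ∀ z ∈ Pi, ∀ y, y ∉ Pi → G.Adj z y → z ∈ bd) (hR : ∀ z ∈ bd, z ∉ ball G x (R0 + 1))
    (hno : ¬ oneG G x R0 L) :
    ∃ b ∈ bd, ∃ b' ∈ bd, ¬ Lnk G (Pi \ ball G x R0) b b' := by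
  unfold oneG at hno
  push Not at hno
  obtain ⟨u, v, hu1, hu2, hv1, hv2, hnot⟩ := hno
  have h1 : ∀ w, w ∈ ball G x (L + 1) → w ∉ ball G x L →
      ∃ b ∈ bd, Lnk G (ball G x (L + 1) \ ball G x R0) w b := by
    intro w hw1 hw2
    exact descend hx hbd hR (L + 1) le_rfl w hw1
      (fun i' hi' h => hw2 (ball_mono x (by omega) h)) (fun h => hw2 (hPi h))
  obtain ⟨b, hb, hub⟩ := h1 u hu1 hu2
  obtain ⟨b', hb', hvb⟩ := h1 v hv1 hv2
  refine ⟨b, hb, b', hb', fun hlk => hnot ?_⟩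
  exact (hub.trans (hlk.mono (fun y hy => ⟨ball_sub x L (hPi hy.1), hy.2⟩))).trans hvb.symm

/-- a maximal scattered subset -/
theorem scatter [Finite V] (Bad : Set V) (D β : ℕ) (hβ : ∀ x ∈ Bad, (ball G x D).ncard ≤ β) :
    ∃ T ⊆ Bad, (∀ x ∈ T, ∀ y ∈ T, x ≠ y → y ∉ ball G x D) ∧ Bad.ncard ≤ β * T.ncard := by
  classical
  let P : Set (Set V) := {T | T ⊆ Bad ∧ ∀ x ∈ T, ∀ y ∈ T, x ≠ y → y ∉ ball G x D}
  have hne : P.Nonempty := ⟨∅, empty_subset _, by simp⟩
  obtain ⟨T, hT, hmax⟩ := exists_max_image P ncard (toFinite P) hne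
  refine ⟨T, hT.1, hT.2, ?_⟩
  have hcov : Bad ⊆ ⋃ x ∈ T, ball G x D := by
    intro y hy
    by_contra hcon
    have hcon' : ∀ x ∈ T, y ∉ ball G x D := by
      intro x hx h
      exact hcon (mem_biUnion hx h)
    have hyT : y ∉ T := fun h => hcon' y h (self_mem_ball y D)
    have h1 : insert y T ∈ P := by
      refine ⟨insert_subset hy hT.1, ?_⟩
      rintro a (rfl | ha) b (rfl | hb) hab
      · exact absurd rfl hab
      · exact fun h => hcon' b hb (ball_symm h)
      · exact hcon' a ha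
      · exact hT.2 a ha b hb hab
    have h2 := hmax _ h1
    rw [ncard_insert_of_notMem hyT (toFinite _)] at h2
    omega
  refine (ncard_le_ncard hcov (toFinite _)).trans ?_
  have h3 : T.Finite := toFinite _
  have h4 := Finset.card_biUnion_le_card_mul (h3.toFinset)
    (fun y => (toFinite (ball G y D)).toFinset) β (fun y hy => by
      rw [← ncard_eq_toFinset_card _ (toFinite (ball G y D))]
      exact hβ y (hT.1 (h3.mem_toFinset.1 hy)))
  rw [← ncard_coe_finset, ← ncard_eq_toFinset_card _ h3] at h4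
  rw [mul_comm]
  refine le_trans (le_of_eq ?_) h4
  congr 1
  ext z
  simp

/-- a class with many elements of `T` and few elements of `N` -/
theorem pigeon [Finite V] {α : Type} (g : V → α) (T N : Set V) (M : ℕ)
    (h : M * N.ncard < T.ncard) :
    ∃ c, M * {y | y ∈ N ∧ g y = c}.ncard < {x | x ∈ T ∧ g x = c}.ncard := by
  classical
  by_contra hcon
  push Not at hcon
  have hT : T.Finite := toFinite _
  have hN : N.Finite := toFinite _
  have e1 : ∀ c, {x | x ∈ T ∧ g x = c}.ncard = (hT.toFinset.filter fun x => g x = c).card := by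
    intro c
    rw [← ncard_coe_finset]
    congr 1
    ext x
    simp
  have e2 : ∀ c, {x | x ∈ N ∧ g x = c}.ncard = (hN.toFinset.filter fun x => g x = c).card := by
    intro c
    rw [← ncard_coe_finset]
    congr 1
    ext x
    simp
  have h1 : T.ncard = ∑ c ∈ hT.toFinset.image g, (hT.toFinset.filter fun x => g x = c).card := by
    rw [ncard_eq_toFinset_card _ hT]
    exact Finset.card_eq_sum_card_image g _
  have h2 : ∑ c ∈ hT.toFinset.image g, (hN.toFinset.filter fun x => g x = c).card ≤ N.ncard := by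
    rw [ncard_eq_toFinset_card _ hN]
    have h5 := Finset.sum_card_fiberwise_eq_card_filter hN.toFinset (hT.toFinset.image g) g
    refine le_trans (le_of_eq ?_) (Finset.card_filter_le hN.toFinset
      (fun i => g i ∈ hT.toFinset.image g))
    convert h5
  have h3 : T.ncard ≤ M * ∑ c ∈ hT.toFinset.image g, (hN.toFinset.filter fun x => g x = c).card := by
    rw [h1, Finset.mul_sum]
    refine Finset.sum_le_sum fun c _ => ?_
    have := hcon c
    rw [e1, e2] at this
    exact this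
  have h4 := Nat.mul_le_mul_left M h2
  omega

/-- the finite core -/
theorem core {ρ : ℝ} {r β m : ℕ} (hPL : ∀ (W : Type) (X : SimpleGraph W) (Φ : Set W) (U : ℕ → Set W),
    MR ρ X → Φ.Finite → Φ.ncard ≤ β + r →
    (∀ i ≤ m, (U i).Finite ∧ Disjoint (U i) Φ) →
    (∀ i ≤ m, (nb X (U i) \ Φ).Finite ∧ (nb X (U i) \ Φ).ncard ≤ β + r) →
    (∀ i < m, U i ∪ (nb X (U i) \ Φ) ⊆ U (i + 1)) → (∀ i < m, U i ≠ U (i + 1)) →
    (∀ i ≤ m, 2 * ρ * (U i).ncard ≤ inc2 X (U i)) →
    BT ρ) {V : Type} [Finite V] (H : SimpleGraph V)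
    (A : Fin r → V → Prop) (hMR : MR ρ (Hat H A)) {K : ℕ}
    (ho1 : ∀ F : Set V, F.ncard ≤ K → 0 ≤ gn ρ H A F)
    {Pi : Set V} (hPiK : Pi.ncard ≤ K) {Φ : Set V} {F : ℕ → Set V} (hΦ : Φ.ncard ≤ β)
    (h1 : ∀ l ≤ m, F l ⊆ Pi)
    (h2 : ∀ l ≤ m, Disjoint (F l) Φ ∧ (nb H (F l) \ Φ).ncard ≤ β ∧ nb H (F l) ⊆ Pi)
    (h3 : ∀ l < m, F l ∪ (nb H (F l) \ Φ) ⊆ F (l + 1)) (h4 : ∀ l < m, F l ≠ F (l + 1)) :
    BT ρ := by
  have hnb : ∀ i, nb (Hat H A) (Sum.inr '' F i) \ (range Sum.inl ∪ Sum.inr '' Φ) =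
      Sum.inr '' (nb H (F i) \ Φ) := by
    intro i
    rw [nb_hat]
    ext z
    constructor
    · rintro ⟨h5 | h5, h6⟩
      · obtain ⟨x, _, rfl⟩ := h5
        exact absurd (Or.inl ⟨x, rfl⟩) h6
      · obtain ⟨x, hx, rfl⟩ := h5
        exact ⟨x, ⟨hx, fun hxΦ => h6 (Or.inr ⟨x, hxΦ, rfl⟩)⟩, rfl⟩
    · rintro ⟨x, hx, rfl⟩
      refine ⟨Or.inr ⟨x, hx.1, rfl⟩, ?_⟩
      rintro (⟨y, hy⟩ | ⟨y, hy, hyx⟩)
      · cases hy
      · cases hyx
        exact hx.2 hy
  refine hPL (Fin r ⊕ V) (Hat H A) (range Sum.inl ∪ Sum.inr '' Φ) (fun i => Sum.inr '' F i) hMR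
    (toFinite _) ?_ ?_ ?_ ?_ ?_ ?_
  · refine (ncard_union_le _ _).trans ?_
    have e1 : (range (Sum.inl : Fin r → Fin r ⊕ V)).ncard ≤ r := by
      rw [← image_univ]
      refine (ncard_image_le finite_univ).trans ?_
      rw [ncard_univ, Nat.card_eq_fintype_card, Fintype.card_fin]
    have e2 : ((Sum.inr : V → Fin r ⊕ V) '' Φ).ncard ≤ β :=
      (ncard_image_le (toFinite _)).trans hΦ
    omega
  · intro i hi
    refine ⟨toFinite _, ?_⟩
    rw [disjoint_left]
    rintro _ ⟨x, hx, rfl⟩ (⟨y, hy⟩ | ⟨y, hy, hyx⟩)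
    · cases hy
    · cases hyx
      exact disjoint_left.1 (h2 i hi).1 hx hy
  · intro i hi
    rw [hnb]
    refine ⟨toFinite _, (ncard_image_le (toFinite _)).trans ?_⟩
    have := (h2 i hi).2.1
    omega
  · intro i hi
    rw [hnb, ← image_union]
    exact image_mono (h3 i hi)
  · intro i hi heq
    exact h4 i hi (Sum.inr_injective.image_injective heq)
  · intro i hi
    have h5 := ho1 (F i) ((ncard_le_ncard (h1 i hi) (toFinite _)).trans hPiK)
    rw [inc2_hat' (toFinite _) (toFinite _), ncard_image_of_injective _ Sum.inr_injective]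
    unfold gn at h5
    linarith

end ONEaux

open ONEaux in
theorem stmt_ONE (hSML : Stmt_SML) (hLAM : Stmt_LAM) (hPL : Stmt_PL) : Stmt_ONE := by
  classical
  intro a b ω r ha
  have hρ0 : (0 : ℝ) < (a : ℝ) / ((b : ℝ) + 1) := by
    have : (0 : ℝ) < a := by exact_mod_cast ha
    positivity
  have hPL' := hPL a b
  generalize (a : ℝ) / ((b : ℝ) + 1) = ρ at hρ0 hPL' ⊢
  intro hnBT hOm s R0 ε hε
  have hρ : 0 < ρ := hρ0
  -- the constants
  obtain ⟨B1, hB1⟩ := (hSML ρ ω r hρ hOm s (2 * R0 + 2) (ε / 8) (by positivity)).2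
  set β : ℕ := (B1 + 1) ^ (2 * R0 + 3) with hβdef
  have hβ0 : 0 < β := by positivity
  have hβ0' : (0 : ℝ) < β := by exact_mod_cast hβ0
  obtain ⟨m, hm⟩ := hPL' (β + r)
  obtain ⟨M, hM⟩ := hLAM β m
  set ε1 : ℝ := ε / (2 * β * (M + 1)) with hε1
  have hε1' : 0 < ε1 := by positivity
  obtain ⟨δ1, hδ1, hδ1'⟩ := (hSML ρ ω r hρ hOm s (R0 + 1) (ε / 8) (by positivity)).1
  obtain ⟨δ2, hδ2, hδ2'⟩ := (hSML ρ ω r hρ hOm s 1 (min ε1 δ1) (lt_min hε1' hδ1)).1
  obtain ⟨N, hN1, hNδ⟩ : ∃ N : ℕ, 1 ≤ N ∧ 1 / (2 * (N : ℝ)) ≤ δ2 := by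
    obtain ⟨N0, hN0⟩ := exists_nat_gt (1 / (2 * δ2))
    refine ⟨N0 + 1, by omega, ?_⟩
    have h1 : (1 : ℝ) / (2 * δ2) < (N0 + 1 : ℕ) := by
      push_cast; linarith
    rw [div_lt_iff₀ (by positivity)] at h1
    rw [div_le_iff₀ (by positivity)]
    linarith
  obtain ⟨t, ht, ht1⟩ : ∃ t : ℕ, 2 * ρ + 1 < t ∧ 1 ≤ t := by
    obtain ⟨t0, ht0⟩ := exists_nat_gt (2 * ρ + 1)
    exact ⟨t0 + 1, by push_cast; linarith, by omega⟩
  obtain ⟨K, hKdef⟩ : ∃ K : ℕ, 4096 * N ^ 2 * t ^ 3 ≤ K := ⟨_, le_rfl⟩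
  refine ⟨K, ?_⟩
  filter_upwards [hB1, hδ1', hδ2', s.o1 K, s.big 1] with j e1 e2 e3 e4 e5
  by_contra hcon
  push Not at hcon
  apply hnBT
  set n : ℕ := s.n j with hn
  have hn0 : (0 : ℝ) < n := by
    have : 0 < n := by omega
    exact_mod_cast this
  let H : SimpleGraph (Fin n) := s.H j
  let A : Fin r → Fin n → Prop := s.A j
  have hMR : MR ρ (Hat H A) := (s.good j).hat
  have hkf : KFree t H.Adj := kfree_of_MR ht1 ht hMR.of_hat
  obtain ⟨Q, hQ, hQs⟩ := decomp (fun _ _ h => h.symm) hkf ht1 N hN1 K hKdef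
    (Finset.univ : Finset (Fin n))
  have hQv : ∀ x : Fin n, ∃ P ∈ Q, x ∈ P := fun x => hQ.vert x (Finset.mem_univ x)
  set S : Set (Fin n) := (Sh Q : Set (Fin n)) with hS
  have hScard : (S.ncard : ℝ) ≤ δ2 * n := by
    rw [hS, ncard_coe_finset]
    have h1 := card_add_Sh hQv
    rw [Finset.card_univ, Fintype.card_fin] at hQs
    rw [Fintype.card_fin] at h1
    have h2 : 2 * N * (n + (Sh Q).card) ≤ (2 * N + 1) * n :=
      (Nat.mul_le_mul_left _ h1).trans hQs
    have h3 : 2 * N * (Sh Q).card ≤ n := by nlinarith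
    have h3' : 2 * (N : ℝ) * (Sh Q).card ≤ n := by exact_mod_cast h3
    have hNp : (0 : ℝ) < N := by exact_mod_cast hN1
    have h4 : ((Sh Q).card : ℝ) ≤ 1 / (2 * (N : ℝ)) * n := by
      rw [one_div, ← div_eq_inv_mul, le_div_iff₀ (by positivity)]
      linarith
    exact h4.trans (mul_le_mul_of_nonneg_right hNδ hn0.le)
  have hSN : S ∪ nb H S ⊆ {x | (ball H x 1 ∩ S).Nonempty} := by
    rintro x (hx | ⟨_, y, hy, hyx⟩)
    · exact ⟨x, self_mem_ball x 1, hx⟩
    · exact ⟨y, ball_adj (self_mem_ball x 0) hyx.symm, hy⟩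
  have hSNcard : ((S ∪ nb H S).ncard : ℝ) ≤ min ε1 δ1 * n := by
    have h1 : ((S ∪ nb H S).ncard : ℝ) ≤ ({x | (ball H x 1 ∩ S).Nonempty}.ncard : ℝ) := by
      exact_mod_cast ncard_le_ncard hSN (toFinite _)
    exact h1.trans (e3 S hScard)
  have hNcard : ((nb H S).ncard : ℝ) ≤ ε1 * n := by
    have h1 : ((nb H S).ncard : ℝ) ≤ ((S ∪ nb H S).ncard : ℝ) := by
      exact_mod_cast ncard_le_ncard subset_union_right (toFinite _)
    exact h1.trans (hSNcard.trans (mul_le_mul_of_nonneg_right (min_le_left _ _) hn0.le))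
  have hE2 := e2 (S ∪ nb H S)
    (hSNcard.trans (mul_le_mul_of_nonneg_right (min_le_right _ _) hn0.le))
  -- the bad vertices
  set Z0 : Set (Fin n) := {x | ¬ oneG (s.H j) x R0 K} with hZ0
  set E1 : Set (Fin n) := {x | ∃ y ∈ ball (s.H j) x (2 * R0 + 2), B1 < dg (s.H j) y} with hE1
  set E2 : Set (Fin n) := {x | (ball (s.H j) x (R0 + 1) ∩ (S ∪ nb H S)).Nonempty} with hE2def
  set Bad : Set (Fin n) := Z0 \ (E1 ∪ E2) with hBad
  have hBadcard : (Z0.ncard : ℝ) ≤ Bad.ncard + (E1.ncard + E2.ncard) := by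
    have h1 : Z0.ncard ≤ Bad.ncard + (E1 ∪ E2).ncard := by
      have := ncard_le_ncard_sdiff_add_ncard Z0 (E1 ∪ E2) (toFinite _)
      exact this
    have h2 := ncard_union_le E1 E2
    exact_mod_cast h1.trans (by omega)
  obtain ⟨T, hTB, hTd, hTc⟩ := scatter (G := H) Bad (2 * R0 + 1) β (by
    intro x hx
    have h1 : ∀ y ∈ ball H x (2 * R0 + 2), dg H y ≤ B1 := by
      intro y hy
      by_contra hc
      push Not at hc
      exact hx.2 (Or.inl ⟨y, hy, hc⟩)
    refine (ball_card h1 (2 * R0 + 1) (by omega)).trans ?_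
    exact Nat.pow_le_pow_right (by omega) (by omega))
  have hTN : M * (nb H S).ncard < T.ncard := by
    have h1 : (Bad.ncard : ℝ) ≤ β * T.ncard := by exact_mod_cast hTc
    have h2 : (M : ℝ) * (nb H S).ncard < T.ncard := by
      have h3 : (β : ℝ) * (M * (nb H S).ncard) < β * T.ncard := by
        have h4 : (β : ℝ) * (M * (nb H S).ncard) ≤ β * (M * (ε1 * n)) := by
          gcongr
        have h5 : (β : ℝ) * (M * (ε1 * n)) ≤ ε / 2 * n := by
          have h6 : (β : ℝ) * (M * (ε1 * n)) = (ε / 2 * n) * (M / (M + 1)) := by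
            rw [hε1]; field_simp
          rw [h6]
          have h7 : (M : ℝ) / (M + 1) ≤ 1 := by
            rw [div_le_one (by positivity)]; linarith
          have h8 : (0 : ℝ) ≤ ε / 2 * n := by positivity
          nlinarith
        have h9 : (E1.ncard : ℝ) ≤ ε / 8 * n := e1
        have h10 : (E2.ncard : ℝ) ≤ ε / 8 * n := hE2
        have h11 : ε * n < (Z0.ncard : ℝ) := hcon
        have h12 : 0 < ε * n := by positivity
        have h13 : ε / 8 * n = ε * n / 8 := by ring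
        have h14 : ε / 2 * n = ε * n / 2 := by ring
        rw [h13] at h9 h10
        rw [h14] at h5
        linarith
      exact lt_of_mul_lt_mul_left h3 hβ0'.le
    exact_mod_cast h2
  obtain ⟨c, hc⟩ := pigeon (fun x => cmp H Sᶜ x) T (nb H S) M hTN
  set Tc : Set (Fin n) := {x | x ∈ T ∧ cmp H Sᶜ x = c} with hTcdef
  have hTcne : Tc.Nonempty := (ncard_pos (toFinite _)).1 (by omega)
  obtain ⟨x0, hx0T, hx0c⟩ := hTcne
  -- facts on the elements of `T`
  have hT1 : ∀ x ∈ T, ball H x R0 ⊆ Sᶜ ∧ Disjoint (ball H x R0) (nb H S) ∧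
      (∀ z ∈ nb H S, z ∉ ball H x (R0 + 1)) ∧ (ball H x R0).ncard ≤ β ∧ ¬ oneG H x R0 K := by
    intro x hx
    have hxB := hTB hx
    have h1 : ∀ z ∈ ball H x (R0 + 1), z ∉ S ∪ nb H S := fun z hz hz' =>
      hxB.2 (Or.inr ⟨z, hz, hz'⟩)
    refine ⟨fun z hz hzS => h1 z (ball_sub x R0 hz) (Or.inl hzS), ?_, ?_, ?_, hxB.1⟩
    · rw [disjoint_left]
      intro z hz hzN
      exact h1 z (ball_sub x R0 hz) (Or.inr hzN)
    · intro z hz hz'
      exact h1 z hz' (Or.inr hz)
    · have h2 : ∀ y ∈ ball H x (2 * R0 + 2), dg H y ≤ B1 := by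
        intro y hy
        by_contra hcc
        push Not at hcc
        exact hxB.2 (Or.inl ⟨y, hy, hcc⟩)
      refine (ball_card h2 R0 (by omega)).trans ?_
      exact Nat.pow_le_pow_right (by omega) (by omega)
  have hx0S : x0 ∈ Sᶜ := (hT1 x0 hx0T).1 (self_mem_ball x0 R0)
  have hcconn : Conn H c := by rw [← hx0c]; exact conn_cmp hx0S
  have hcS : c ⊆ Sᶜ := by rw [← hx0c]; exact cmp_subset
  -- membership in the component
  have hmemc : ∀ y, y ∈ c ↔ (y ∈ Sᶜ ∧ cmp H Sᶜ y = c) := by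
    intro y
    constructor
    · intro hy
      refine ⟨hcS hy, ?_⟩
      rw [← hx0c] at hy ⊢
      ext z
      exact ⟨fun h => Lnk.trans hy h, fun h => (Lnk.symm hy).trans h⟩
    · rintro ⟨h1, h2⟩
      rw [← h2]
      exact self_mem_cmp h1
  -- the component is small
  obtain ⟨P, hPQ, hx0P⟩ := hQv x0
  have hcP : c ⊆ (P : Set (Fin n)) := by
    intro y hy
    rw [← hx0c] at hy
    obtain ⟨_, hy2⟩ := hy
    induction hy2 with
    | refl => exact hx0P
    | @tail u v _ huv ih =>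
      obtain ⟨huv1, huS, hvS⟩ := huv
      obtain ⟨P', hP', huP', hvP'⟩ := hQ.edge u (Finset.mem_univ u) v (Finset.mem_univ v) huv1
      have hPP : P = P' := by
        by_contra hne
        exact huS (by
          rw [hS]
          exact Finset.mem_coe.2 (mem_Sh.2 ⟨P, hPQ, P', hP', hne, ih, huP'⟩))
      rw [hPP]
      exact hvP'
  have hcK : c.ncard ≤ K := by
    refine (ncard_le_ncard hcP (toFinite _)).trans ?_
    rw [ncard_coe_finset]
    exact hQ.small P hPQ
  set bd : Set (Fin n) := {y | y ∈ nb H S ∧ cmp H Sᶜ y = c} with hbd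
  have hbdc : bd ⊆ c := by
    rintro y ⟨hy1, hy2⟩
    exact (hmemc y).2 ⟨hy1.1, hy2⟩
  have hbdc' : ∀ x ∈ c, ∀ y, y ∉ c → H.Adj x y → x ∈ bd := by
    intro x hx y hy hxy
    obtain ⟨hxS, hxc⟩ := (hmemc x).1 hx
    have hyS : y ∈ S := by
      by_contra hyS
      apply hy
      rw [← hxc]
      exact Lnk.of_adj hxy hxS hyS
    exact ⟨⟨hxS, y, hyS, hxy.symm⟩, hxc⟩
  have hTcc : ∀ x ∈ Tc, x ∈ c := fun x hx =>
    (hmemc x).2 ⟨(hT1 x hx.1).1 (self_mem_ball x R0), hx.2⟩
  -- enumerate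
  have hTcfin : Tc.Finite := toFinite _
  let e : Fin Tc.ncard ≃ Tc := (Finite.equivFinOfCardEq (α := Tc) (by
    rw [Nat.card_coe_set_eq])).symm
  obtain ⟨Φ, F, f1, f2, f3, f4, f5, f6⟩ := hM (Fin n) H c bd Tc.ncard
    (fun i => ball H (e i).1 R0) (toFinite _) hcconn hbdc hbdc' (by
      intro i
      have hi := (e i).2
      obtain ⟨g1, g2, g3, g4, g5⟩ := hT1 _ hi.1
      refine ⟨ball_conn _ _, ?_, ?_, g4⟩
      · have := (ball_conn (G := H) (e i).1 R0).subset_cmp g1 (self_mem_ball _ R0)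
        rw [hi.2] at this
        exact this
      · exact g2.mono_right (fun y hy => hy.1)) (by
      intro i j' hij
      have hne : (e i).1 ≠ (e j').1 := fun h => hij (e.injective (Subtype.ext h))
      have hd := hTd _ (e i).2.1 _ (e j').2.1 hne
      have key : ∀ z, z ∈ ball H (e i).1 R0 → z ∉ ball H (e j').1 (R0 + 1) := by
        intro z hz hz'
        apply hd
        have h1 := ball_trans hz (ball_symm hz')
        exact ball_mono _ (by omega) h1
      constructor
      · rw [disjoint_left]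
        exact fun z hz hz' => key z hz (ball_sub _ R0 hz')
      · rw [disjoint_left]
        exact fun z hz hz' => key z hz (Or.inr hz')) (by
      intro i
      have hi := (e i).2
      obtain ⟨g1, g2, g3, g4, g5⟩ := hT1 _ hi.1
      exact sepr (hTcc _ hi) (conn_sub_ball hcconn (hTcc _ hi) hcK) hbdc'
        (fun z hz => g3 z hz.1) g5) hc
  exact core hm H A hMR e4 hcK f2 f3 f4 f5 f6

end Pool.Agent.Work.MP_216d61_lc

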