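import Pool.Agent.Work.MP_216d61_lc_full.OM

/-!
# MP_216d61_lc full: block PICK (a typical vertex of a sequence of nearly extremal types)
-/

set_option autoImplicit false

namespace Pool.Agent.Work.MP_216d61_lc

open Relation Set Filter

namespace PICKaux

/-- small exceptional sets do not cover the vertex set -/
theorem exists_point {n : ℕ} (hn : 0 < n) (m : ℕ) (E : ℕ → Set (Fin n))
    (hE : ∀ R ≤ m, ((E R).ncard : ℝ) ≤ (1 / 2 : ℝ) ^ (R + 2) * n) :
    ∃ x : Fin n, ∀ R ≤ m, x ∉ E R := by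
  classical
  by_contra hcon
  push Not at hcon
  have h1 : (Finset.univ : Finset (Fin n)) ⊆
      (Finset.range (m + 1)).biUnion fun R => (Set.toFinite (E R)).toFinset := by
    intro x _
    obtain ⟨R, hR, hx⟩ := hcon x
    rw [Finset.mem_biUnion]
    exact ⟨R, Finset.mem_range.2 (Nat.lt_succ_of_le hR), (Set.Finite.mem_toFinset _).2 hx⟩
  have h2 := (Finset.card_le_card h1).trans Finset.card_biUnion_le
  rw [Finset.card_univ, Fintype.card_fin] at h2
  have h3 : (n : ℝ) ≤ ∑ R ∈ Finset.range (m + 1), ((E R).ncard : ℝ) := by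
    have h4 : (n : ℝ) ≤ ((∑ R ∈ Finset.range (m + 1),
        ((Set.toFinite (E R)).toFinset).card : ℕ) : ℝ) := by exact_mod_cast h2
    rw [Nat.cast_sum] at h4
    refine h4.trans (le_of_eq (Finset.sum_congr rfl fun R _ => ?_))
    rw [Set.ncard_eq_toFinset_card (E R) (Set.toFinite (E R))]
  have h5 : (∑ R ∈ Finset.range (m + 1), ((E R).ncard : ℝ)) ≤
      ∑ R ∈ Finset.range (m + 1), (1 / 2 : ℝ) ^ R * ((n : ℝ) / 4) := by
    refine Finset.sum_le_sum fun R hR => ?_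
    refine (hE R (Nat.lt_succ_iff.1 (Finset.mem_range.1 hR))).trans (le_of_eq ?_)
    rw [pow_add]
    ring
  rw [← Finset.sum_mul] at h5
  have h6 : (∑ R ∈ Finset.range (m + 1), (1 / 2 : ℝ) ^ R) ≤ 2 := sum_geometric_two_le (m + 1)
  have hn' : (0 : ℝ) < n := by exact_mod_cast hn
  have h7 : (∑ R ∈ Finset.range (m + 1), (1 / 2 : ℝ) ^ R) * ((n : ℝ) / 4) ≤ 2 * ((n : ℝ) / 4) :=
    mul_le_mul_of_nonneg_right h6 (by positivity)
  linarith

end PICKaux

open PICKaux in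
theorem stmt_PICK (hSML : Stmt_SML) (hONE : Stmt_ONE) : Stmt_PICK := by
  intro a b ω r ha hBT h1 s
  set ρ : ℝ := (a : ℝ) / ((b : ℝ) + 1) with hρdef
  have hρ : (0 : ℝ) < ρ := by
    have : (0 : ℝ) < a := by exact_mod_cast ha
    positivity
  have hpos : ∀ R : ℕ, (0 : ℝ) < (1 / 2 : ℝ) ^ (R + 3) := fun R => by positivity
  have hB : ∀ R : ℕ, ∃ B : ℕ, ∀ᶠ j in atTop,
      (({x | ∃ y ∈ ball (s.H j) x R, B < dg (s.H j) y}.ncard : ℝ) ≤
        (1 / 2 : ℝ) ^ (R + 3) * s.n j) :=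
    fun R => (hSML ρ ω r hρ h1 s R _ (hpos R)).2
  choose B hB using hB
  have hL : ∀ R : ℕ, ∃ L : ℕ, ∀ᶠ j in atTop,
      (({x | ¬ oneG (s.H j) x R L}.ncard : ℝ) ≤ (1 / 2 : ℝ) ^ (R + 3) * s.n j) :=
    fun R => hONE a b ω r ha hBT h1 s R _ (hpos R)
  choose L hL using hL
  have hj : ∀ m : ℕ, ∃ j : ℕ, m + 1 ≤ s.n j ∧
      (∀ R ≤ m, (({x | ∃ y ∈ ball (s.H j) x R, B R < dg (s.H j) y}.ncard : ℝ) ≤
        (1 / 2 : ℝ) ^ (R + 3) * s.n j)) ∧
      (∀ R ≤ m, (({x | ¬ oneG (s.H j) x R (L R)}.ncard : ℝ) ≤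
        (1 / 2 : ℝ) ^ (R + 3) * s.n j)) ∧
      (∀ F : Set (Fin (s.n j)), F.ncard ≤ m → 0 ≤ gn ρ (s.H j) (s.A j) F) ∧
      (∀ J : Set (Fin (s.n j)), J.ncard ≤ m → Conn (s.H j) J →
        2 * ((nb (s.H j) J).ncard + (labs (s.A j) J).ncard : ℝ) + 2 * ρ * (J.ncard - 1) ≤
          incL (s.H j) (s.A j) J) := by
    intro m
    have e1 := (Set.finite_Iic m).eventually_all.2 fun R (_ : R ∈ Set.Iic m) => hB R
    have e2 := (Set.finite_Iic m).eventually_all.2 fun R (_ : R ∈ Set.Iic m) => hL R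
    obtain ⟨j, h1, h2, h3, h4, h5⟩ :=
      ((s.big (m + 1)).and (e1.and (e2.and ((s.o1 m).and (s.o2 m))))).exists
    exact ⟨j, h1, h2, h3, h4, h5⟩
  choose j hj1 hj2 hj3 hj4 hj5 using hj
  have hx : ∀ m : ℕ, ∃ x : Fin (s.n (j m)), ∀ R ≤ m,
      x ∉ {x | ∃ y ∈ ball (s.H (j m)) x R, B R < dg (s.H (j m)) y} ∪
        {x | ¬ oneG (s.H (j m)) x R (L R)} := by
    intro m
    refine exists_point (by have := hj1 m; omega) m (fun R =>
      {x | ∃ y ∈ ball (s.H (j m)) x R, B R < dg (s.H (j m)) y} ∪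
        {x | ¬ oneG (s.H (j m)) x R (L R)}) ?_
    intro R hR
    have h1 := hj2 m R hR
    have h2 := hj3 m R hR
    have h3 : ((({x | ∃ y ∈ ball (s.H (j m)) x R, B R < dg (s.H (j m)) y} ∪
        {x | ¬ oneG (s.H (j m)) x R (L R)}).ncard : ℕ) : ℝ) ≤
        ((({x | ∃ y ∈ ball (s.H (j m)) x R, B R < dg (s.H (j m)) y}.ncard +
        {x | ¬ oneG (s.H (j m)) x R (L R)}.ncard : ℕ)) : ℝ) := by
      exact_mod_cast Set.ncard_union_le _ _
    push_cast at h3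
    have h4 : (1 / 2 : ℝ) ^ (R + 3) * s.n (j m) + (1 / 2 : ℝ) ^ (R + 3) * s.n (j m) =
        (1 / 2 : ℝ) ^ (R + 2) * s.n (j m) := by
      rw [pow_succ (1 / 2 : ℝ) (R + 2)]
      ring
    linarith
  choose x hx using hx
  refine ⟨{
    n := fun m => s.n (j m)
    H := fun m => s.H (j m)
    A := fun m => s.A (j m)
    x := x
    B := B
    L := L
    conn := fun m => s.conn (j m)
    big := fun m => by have := hj1 m; omega
    mr := fun m => (s.good (j m)).hat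
    deg := ?_
    one := ?_
    o1 := hj4
    o2 := hj5 }⟩
  · intro m R hR y hy
    by_contra hcon
    exact hx m R hR (Or.inl ⟨y, hy, not_le.1 hcon⟩)
  · intro m R hR
    by_contra hcon
    exact hx m R hR (Or.inr hcon)

end Pool.Agent.Work.MP_216d61_lc
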