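import Pool.Agent.Work.MP_216d61_lc_full.Interface
import Pool.Agent.Work.MP_216d61_lc_helper79.FI
import Pool.Agent.Work.MP_216d61_lc_helper79.CX
import Pool.Agent.Work.MP_216d61_lc_helper79.GlueE
import Pool.Agent.Work.MP_216d61_lc_helper52.SD

/-!
# MP_216d61_lc, block PL: the pumping lemma
-/

set_option autoImplicit false

namespace Pool.Agent.Work.MP_216d61_lc

open Relation Set Function

namespace PLAux

section defs

variable {s m : ℕ} {W : Type} (X : SimpleGraph W) (Ui Uj : Set W) (φ : Fin s → W)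

/-- attachment of the set `U` to the roots `φ` and `x` -/
def AT (U : Set W) (x : Fin m → W) : Fin s ⊕ Fin m → U → Prop
  | .inl a => fun c => X.Adj (φ a) c
  | .inr α => fun c => X.Adj (x α) c

/-- the chain -/
def chn (xi : Fin m → ↥(Uj \ Ui)) (xj : Fin m → W) : Chn (Fin s) ↥(Uj \ Ui) where
  E0 := X.induce (Uj \ Ui)
  E1 u v := ∃ α, xi α = u ∧ X.Adj (xj α) v
  A a u := X.Adj (φ a) u

/-- the chain together with `m` additional vertices attached to period `0` -/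
def ZZ (xi : Fin m → ↥(Uj \ Ui)) (xj : Fin m → W) (n : ℕ) :
    SimpleGraph ((Fin s ⊕ Fin n × ↥(Uj \ Ui)) ⊕ Fin m) :=
  Glue ((chn X Ui Uj φ xi xj).G n) (fun q : Fin n × ↥(Uj \ Ui) => Sum.inr q) ⊥
    (fun q α => (q.1 : ℕ) = 0 ∧ X.Adj (xj α) (q.2 : W))

/-- the labels -/
def lb (s : ℕ) {W : Type} {Ui Uj : Set W} {m : ℕ} (xi : Fin m → ↥(Uj \ Ui)) : (n : ℕ) →
    Fin s ⊕ Fin m → (Fin s ⊕ Fin n × ↥(Uj \ Ui)) ⊕ Fin m
  | _, .inl a => .inl (.inl a)
  | 0, .inr α => .inr α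
  | n + 1, .inr α => .inl (.inr (Fin.last n, xi α))

theorem lb_inj (xi : Fin m → ↥(Uj \ Ui)) (hxi : Injective xi) (n : ℕ) :
    Injective (lb s xi n) := by
  rintro (a | α) (b | β) h
  · exact congrArg _ (Sum.inl.inj (Sum.inl.inj h))
  · cases n with
    | zero => cases h
    | succ n => have h1 := Sum.inl.inj h; cases h1
  · cases n with
    | zero => cases h
    | succ n => have h1 := Sum.inl.inj h; cases h1
  · cases n with
    | zero => exact congrArg _ (Sum.inr.inj h)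
    | succ n =>
      have h1 := Prod.ext_iff.1 (Sum.inr.inj (Sum.inl.inj h))
      exact congrArg _ (hxi h1.2)

/-- the step map -/
noncomputable def stp (hsub : Ui ⊆ Uj) (n : ℕ) :
    ((Fin s ⊕ Fin (n + 1) × ↥(Uj \ Ui)) ⊕ Fin m) ⊕ Ui →
    ((Fin s ⊕ Fin n × ↥(Uj \ Ui)) ⊕ Fin m) ⊕ Uj
  | .inl (.inl (.inl a)) => .inl (.inl (.inl a))
  | .inl (.inl (.inr (q, d))) => if h : (q : ℕ) < n then .inl (.inl (.inr (⟨q, h⟩, d)))
      else .inr ⟨d, d.2.1⟩
  | .inl (.inr α) => .inl (.inr α)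
  | .inr c => .inr ⟨c, hsub c.2⟩

theorem stp_lt (hsub : Ui ⊆ Uj) (n : ℕ) (q : Fin (n + 1)) (d : ↥(Uj \ Ui)) (h : (q : ℕ) < n) :
    stp (s := s) (m := m) Ui Uj hsub n (.inl (.inl (.inr (q, d)))) =
      .inl (.inl (.inr (⟨q, h⟩, d))) := by
  simp only [stp, dif_pos h]

theorem stp_last (hsub : Ui ⊆ Uj) (n : ℕ) (q : Fin (n + 1)) (d : ↥(Uj \ Ui)) (h : ¬ (q : ℕ) < n) :
    stp (s := s) (m := m) Ui Uj hsub n (.inl (.inl (.inr (q, d)))) = .inr ⟨d, d.2.1⟩ := by
  simp only [stp, dif_neg h]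

theorem stp_inj (hsub : Ui ⊆ Uj) (n : ℕ) : Injective (stp (s := s) (m := m) Ui Uj hsub n) := by
  rintro (((a | ⟨q, d⟩) | α) | c) (((b | ⟨q', d'⟩) | β) | c') h
  · have := Sum.inl.inj (Sum.inl.inj (Sum.inl.inj h)); rw [this]
  · by_cases h1 : (q' : ℕ) < n
    · rw [stp_lt _ _ _ _ _ _ h1] at h
      have h2 := Sum.inl.inj (Sum.inl.inj h); cases h2
    · rw [stp_last _ _ _ _ _ _ h1] at h
      cases h
  · have h2 := Sum.inl.inj h; cases h2
  · cases h
  · by_cases h1 : (q : ℕ) < n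
    · rw [stp_lt _ _ _ _ _ _ h1] at h
      have h2 := Sum.inl.inj (Sum.inl.inj h); cases h2
    · rw [stp_last _ _ _ _ _ _ h1] at h
      cases h
  · by_cases h1 : (q : ℕ) < n
    · by_cases h2 : (q' : ℕ) < n
      · rw [stp_lt _ _ _ _ _ _ h1, stp_lt _ _ _ _ _ _ h2] at h
        have h3 := Prod.ext_iff.1 (Sum.inr.inj (Sum.inl.inj (Sum.inl.inj h)))
        have h4 : (q : ℕ) = q' := by simpa using h3.1
        have h5 : d = d' := h3.2
        rw [h5, Fin.ext h4]
      · rw [stp_lt _ _ _ _ _ _ h1, stp_last _ _ _ _ _ _ h2] at h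
        cases h
    · by_cases h2 : (q' : ℕ) < n
      · rw [stp_last _ _ _ _ _ _ h1, stp_lt _ _ _ _ _ _ h2] at h
        cases h
      · rw [stp_last _ _ _ _ _ _ h1, stp_last _ _ _ _ _ _ h2] at h
        have h3 : (d : W) = d' := by simpa using h
        have h4 : q = q' := by
          have := q.2
          have := q'.2
          exact Fin.ext (by omega)
        rw [Subtype.ext h3, h4]
  · by_cases h1 : (q : ℕ) < n
    · rw [stp_lt _ _ _ _ _ _ h1] at h
      have h2 := Sum.inl.inj h; cases h2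
    · rw [stp_last _ _ _ _ _ _ h1] at h
      cases h
  · by_cases h1 : (q : ℕ) < n
    · rw [stp_lt _ _ _ _ _ _ h1] at h
      cases h
    · rw [stp_last _ _ _ _ _ _ h1] at h
      have h3 : (d : W) = c' := congrArg Subtype.val (Sum.inr.inj h)
      exact absurd c'.2 (h3 ▸ d.2.2)
  · have h2 := Sum.inl.inj h; cases h2
  · by_cases h1 : (q' : ℕ) < n
    · rw [stp_lt _ _ _ _ _ _ h1] at h
      have h2 := Sum.inl.inj h; cases h2
    · rw [stp_last _ _ _ _ _ _ h1] at h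
      cases h
  · have := Sum.inr.inj (Sum.inl.inj h); rw [this]
  · cases h
  · cases h
  · by_cases h1 : (q' : ℕ) < n
    · rw [stp_lt _ _ _ _ _ _ h1] at h
      cases h
    · rw [stp_last _ _ _ _ _ _ h1] at h
      have h3 : (c : W) = d' := congrArg Subtype.val (Sum.inr.inj h)
      exact absurd c.2 (h3 ▸ d'.2.2)
  · cases h
  · have h3 : (c : W) = c' := by simpa [stp] using h
    rw [Subtype.ext h3]

theorem stp_adj (hsub : Ui ⊆ Uj) (xi : Fin m → ↥(Uj \ Ui)) (xj : Fin m → W) (n : ℕ)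
    (u v : ((Fin s ⊕ Fin (n + 1) × ↥(Uj \ Ui)) ⊕ Fin m) ⊕ Ui)
    (h : (Glue (ZZ X Ui Uj φ xi xj (n + 1)) (lb s xi (n + 1)) (X.induce Ui)
      (AT X φ Ui (fun α => (xi α : W)))).Adj u v) :
    (Glue (ZZ X Ui Uj φ xi xj n) (lb s xi n) (X.induce Uj) (AT X φ Uj xj)).Adj
      (stp Ui Uj hsub n u) (stp Ui Uj hsub n v) := by
  -- the asymmetric cases
  have kA : ∀ (a : Fin s) (q : Fin (n + 1)) (d : ↥(Uj \ Ui)), X.Adj (φ a) d →
      (Glue (ZZ X Ui Uj φ xi xj n) (lb s xi n) (X.induce Uj) (AT X φ Uj xj)).Adj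
      (stp Ui Uj hsub n (.inl (.inl (.inl a)))) (stp Ui Uj hsub n (.inl (.inl (.inr (q, d))))) := by
    intro a q d had
    by_cases h1 : (q : ℕ) < n
    · rw [stp_lt _ _ _ _ _ _ h1]
      exact had
    · rw [stp_last _ _ _ _ _ _ h1]
      exact ⟨.inl a, by cases n <;> rfl, had⟩
  have kE : ∀ (q q' : Fin (n + 1)) (d d' : ↥(Uj \ Ui)), (q : ℕ) + 1 = q' →
      (chn X Ui Uj φ xi xj).E1 d d' →
      (Glue (ZZ X Ui Uj φ xi xj n) (lb s xi n) (X.induce Uj) (AT X φ Uj xj)).Adj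
      (stp Ui Uj hsub n (.inl (.inl (.inr (q, d)))))
      (stp Ui Uj hsub n (.inl (.inl (.inr (q', d'))))) := by
    intro q q' d d' hqq hE
    have hq' := q'.2
    have h1 : (q : ℕ) < n := by omega
    rw [stp_lt _ _ _ _ _ _ h1]
    by_cases h2 : (q' : ℕ) < n
    · rw [stp_lt _ _ _ _ _ _ h2]
      exact Or.inr (Or.inl ⟨hqq, hE⟩)
    · rw [stp_last _ _ _ _ _ _ h2]
      obtain ⟨α, hα, hadj⟩ := hE
      cases n with
      | zero => omega
      | succ n =>
        refine ⟨.inr α, ?_, hadj⟩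
        have h3 : (⟨q, h1⟩ : Fin (n + 1)) = Fin.last n := Fin.ext (by
          show (q : ℕ) = n
          omega)
        rw [h3, ← hα]
        rfl
  have kX : ∀ (q : Fin (n + 1)) (d : ↥(Uj \ Ui)) (α : Fin m), (q : ℕ) = 0 → X.Adj (xj α) d →
      (Glue (ZZ X Ui Uj φ xi xj n) (lb s xi n) (X.induce Uj) (AT X φ Uj xj)).Adj
      (stp Ui Uj hsub n (.inl (.inl (.inr (q, d))))) (stp Ui Uj hsub n (.inl (.inr α))) := by
    intro q d α hq had
    by_cases h1 : (q : ℕ) < n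
    · rw [stp_lt _ _ _ _ _ _ h1]
      exact ⟨(⟨q, h1⟩, d), rfl, hq, had⟩
    · rw [stp_last _ _ _ _ _ _ h1]
      obtain rfl : n = 0 := by omega
      exact ⟨.inr α, rfl, had⟩
  have kC : ∀ (z : (Fin s ⊕ Fin (n + 1) × ↥(Uj \ Ui)) ⊕ Fin m) (c : Ui),
      (∃ r, lb s xi (n + 1) r = z ∧ AT X φ Ui (fun α => (xi α : W)) r c) →
      (Glue (ZZ X Ui Uj φ xi xj n) (lb s xi n) (X.induce Uj) (AT X φ Uj xj)).Adj
      (stp Ui Uj hsub n (.inl z)) (stp Ui Uj hsub n (.inr c)) := by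
    rintro z c ⟨(a | α), hr, had⟩
    · subst hr
      exact ⟨.inl a, by cases n <;> rfl, had⟩
    · subst hr
      have h1 : ¬ ((Fin.last n : Fin (n + 1)) : ℕ) < n := by simp
      show (Glue (ZZ X Ui Uj φ xi xj n) (lb s xi n) (X.induce Uj) (AT X φ Uj xj)).Adj
        (stp Ui Uj hsub n (.inl (.inl (.inr (Fin.last n, xi α))))) (stp Ui Uj hsub n (.inr c))
      rw [stp_last _ _ _ _ _ _ h1]
      exact had
  rcases u with ((a | ⟨q, d⟩) | α) | c <;> rcases v with ((b | ⟨q', d'⟩) | β) | c'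
  · exact h.elim
  · exact kA a q' d' h
  · obtain ⟨r, hr, _⟩ := h
    cases hr
  · exact kC _ _ h
  · exact (kA b q d h).symm
  · rcases h with ⟨hq, hE⟩ | ⟨hq, hE⟩ | ⟨hq, hE⟩
    · have hq2 : q = q' := hq
      subst hq2
      by_cases h1 : (q : ℕ) < n
      · rw [stp_lt _ _ _ _ _ _ h1, stp_lt _ _ _ _ _ _ h1]
        exact Or.inl ⟨rfl, hE⟩
      · rw [stp_last _ _ _ _ _ _ h1, stp_last _ _ _ _ _ _ h1]
        exact hE
    · exact kE q q' d d' hq hE
    · exact (kE q' q d' d hq hE).symm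
  · obtain ⟨r, hr, h0, had⟩ := h
    obtain rfl := Sum.inr.inj hr
    exact kX q d β h0 had
  · exact kC _ _ h
  · obtain ⟨r, hr, _⟩ := h
    cases hr
  · obtain ⟨r, hr, h0, had⟩ := h
    obtain rfl := Sum.inr.inj hr
    exact (kX q' d' α h0 had).symm
  · exact h.elim
  · exact kC _ _ h
  · exact (kC _ _ h).symm
  · exact (kC _ _ h).symm
  · exact (kC _ _ h).symm
  · exact h

theorem MR_step {ρ : ℝ} (hsub : Ui ⊆ Uj) (xi : Fin m → ↥(Uj \ Ui)) (hxi : Injective xi)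
    (xj : Fin m → W)
    (hE : Eqv ρ (X.induce Ui) (AT X φ Ui (fun α => (xi α : W))) (X.induce Uj) (AT X φ Uj xj))
    (n : ℕ)
    (h : MR ρ (Glue (ZZ X Ui Uj φ xi xj n) (lb s xi n) (X.induce Ui)
      (AT X φ Ui (fun α => (xi α : W))))) :
    MR ρ (Glue (ZZ X Ui Uj φ xi xj (n + 1)) (lb s xi (n + 1)) (X.induce Ui)
      (AT X φ Ui (fun α => (xi α : W)))) :=
  ((hE _ _ (lb s xi n) (lb_inj _ _ xi hxi n)).1 h).minor
    (minor_of_inj (stp Ui Uj hsub n) (stp_inj _ _ hsub n) (stp_adj X Ui Uj φ hsub xi xj n))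

theorem MR_base {ρ : ℝ} (hMR : MR ρ X) (hφ : Injective φ) (hφU : ∀ a, φ a ∉ Uj)
    (hsub : Ui ⊆ Uj) (xi : Fin m → ↥(Uj \ Ui)) (hxi : Injective xi) (xj : Fin m → W) :
    MR ρ (Glue (ZZ X Ui Uj φ xi xj 0) (lb s xi 0) (X.induce Ui)
      (AT X φ Ui (fun α => (xi α : W)))) := by
  refine hMR.minor (minor_of_inj (fun u => match u with
    | .inl (.inl (.inl a)) => φ a
    | .inl (.inl (.inr q)) => q.1.elim0
    | .inl (.inr α) => (xi α : W)
    | .inr c => (c : W)) ?_ ?_)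
  · rintro (((a | ⟨q, d⟩) | α) | c) (((b | ⟨q', d'⟩) | β) | c') h
    · rw [hφ h]
    · exact q'.elim0
    · exact absurd (xi β).2.1 (by
        have h' : φ a = xi β := h
        rw [← h']
        exact hφU a)
    · exact absurd (hsub c'.2) (by
        have h' : φ a = c' := h
        rw [← h']
        exact hφU a)
    · exact q.elim0
    · exact q.elim0
    · exact q.elim0
    · exact q.elim0
    · exact absurd (xi α).2.1 (by
        have h' : (xi α : W) = φ b := h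
        rw [h']
        exact hφU b)
    · exact q'.elim0
    · rw [hxi (Subtype.ext h)]
    · exact absurd c'.2 (by
        have h' : (xi α : W) = c' := h
        rw [← h']
        exact (xi α).2.2)
    · exact absurd (hsub c.2) (by
        have h' : (c : W) = φ b := h
        rw [h']
        exact hφU b)
    · exact q'.elim0
    · exact absurd c.2 (by
        have h' : (c : W) = xi β := h
        rw [h']
        exact (xi β).2.2)
    · rw [Subtype.ext h]
  · have kC : ∀ (z : (Fin s ⊕ Fin 0 × ↥(Uj \ Ui)) ⊕ Fin m) (c : Ui),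
        (∃ r, lb s xi 0 r = z ∧ AT X φ Ui (fun α => (xi α : W)) r c) →
        X.Adj (match z with
          | .inl (.inl a) => φ a
          | .inl (.inr q) => q.1.elim0
          | .inr α => (xi α : W)) c := by
      rintro z c ⟨(a | α), hr, had⟩
      · subst hr
        exact had
      · subst hr
        exact had
    rintro (((a | ⟨q, d⟩) | α) | c) (((b | ⟨q', d'⟩) | β) | c') h
    · exact h.elim
    · exact q'.elim0
    · obtain ⟨r, hr, _⟩ := h
      cases hr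
    · exact kC (.inl (.inl a)) c' h
    · exact q.elim0
    · exact q.elim0
    · exact q.elim0
    · exact q.elim0
    · obtain ⟨r, hr, _⟩ := h
      cases hr
    · exact q'.elim0
    · exact h.elim
    · exact kC (.inr α) c' h
    · exact (kC (.inl (.inl b)) c h).symm
    · exact q'.elim0
    · exact (kC (.inr β) c h).symm
    · exact h

theorem MR_chn {ρ : ℝ} (hMR : MR ρ X) (hφ : Injective φ) (hφU : ∀ a, φ a ∉ Uj)
    (hsub : Ui ⊆ Uj) (xi : Fin m → ↥(Uj \ Ui)) (hxi : Injective xi) (xj : Fin m → W)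
    (hE : Eqv ρ (X.induce Ui) (AT X φ Ui (fun α => (xi α : W))) (X.induce Uj) (AT X φ Uj xj))
    (n : ℕ) : MR ρ ((chn X Ui Uj φ xi xj).G n) := by
  have h1 : ∀ n, MR ρ (Glue (ZZ X Ui Uj φ xi xj n) (lb s xi n) (X.induce Ui)
      (AT X φ Ui (fun α => (xi α : W)))) := by
    intro n
    induction n with
    | zero => exact MR_base X Ui Uj φ hMR hφ hφU hsub xi hxi xj
    | succ n ih => exact MR_step X Ui Uj φ hsub xi hxi xj hE n ih
  exact (h1 n).minor (minor_of_inj (fun u => Sum.inl (Sum.inl u))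
    (Sum.inl_injective.comp Sum.inl_injective) fun u v h => h)

end defs

section count

variable {W : Type} {X : SimpleGraph W}

theorem exists_enum (T : Set W) (hT : T.Finite) {m : ℕ} (hm : T.ncard = m) :
    ∃ x : Fin m → W, Injective x ∧ range x = T := by
  have := hT.to_subtype
  have e : T ≃ Fin m := Finite.equivFinOfCardEq (by rw [Nat.card_coe_set_eq, hm])
  refine ⟨fun i => e.symm i, Subtype.val_injective.comp e.symm.injective, ?_⟩
  ext y
  constructor
  · rintro ⟨i, rfl⟩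
    exact (e.symm i).2
  · intro hy
    exact ⟨e ⟨y, hy⟩, congrArg Subtype.val (e.symm_apply_apply ⟨y, hy⟩)⟩

theorem incset_sub {F T : Set W} (hFT : F ⊆ T) (hnb : nb X F ⊆ T) :
    {p : W × W | X.Adj p.1 p.2 ∧ (p.1 ∈ F ∨ p.2 ∈ F)} ⊆ T ×ˢ T := by
  have h1 : ∀ x y, X.Adj x y → x ∈ F → y ∈ T := by
    intro x y hxy hx
    by_cases hy : y ∈ F
    · exact hFT hy
    · exact hnb ⟨hy, x, hx, hxy⟩
  rintro ⟨x, y⟩ ⟨hadj, h | h⟩
  · exact ⟨hFT h, h1 x y hadj h⟩
  · exact ⟨h1 y x hadj.symm h, hFT h⟩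

theorem inc2_le {F T : Set W} [Fintype T] (hFT : F ⊆ T) (hnb : nb X F ⊆ T) :
    inc2 X F ≤ e2 (X.induce T) := by
  classical
  have h1 : {p : W × W | X.Adj p.1 p.2 ∧ (p.1 ∈ F ∨ p.2 ∈ F)} ⊆
      (fun p : T × T => ((p.1 : W), (p.2 : W))) ''
        ((Finset.univ.filter fun p : T × T => (X.induce T).Adj p.1 p.2 : Finset (T × T)) :
          Set (T × T)) := by
    rintro ⟨x, y⟩ hp
    have h2 := incset_sub hFT hnb hp
    refine ⟨(⟨x, h2.1⟩, ⟨y, h2.2⟩), ?_, rfl⟩
    rw [Finset.coe_filter]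
    exact ⟨Finset.mem_univ _, hp.1⟩
  unfold inc2 e2
  refine (ncard_le_ncard h1 ((Finset.finite_toSet _).image _)).trans ?_
  refine (ncard_image_le (Finset.finite_toSet _)).trans ?_
  rw [ncard_coe_finset]
  exact le_of_eq (by congr)

theorem inc2_bound {ρ : ℝ} (hMR : MR ρ X) {F T : Set W} (hT : T.Finite) (hFT : F ⊆ T)
    (hnb : nb X F ⊆ T) : (inc2 X F : ℝ) ≤ 2 * ρ * T.ncard := by
  have := hT.fintype
  have h1 : (inc2 X F : ℝ) ≤ e2 (X.induce T) := by exact_mod_cast inc2_le hFT hnb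
  have h2 := hMR T (X.induce T) (minor_of_inj Subtype.val Subtype.val_injective fun _ _ h => h)
  rw [Nat.card_coe_set_eq] at h2
  exact h1.trans h2

theorem inc_split {s m : ℕ} {Ui Uj : Set W} (hj : Uj.Finite) (hsub : Ui ⊆ Uj)
    (φ : Fin s → W) (xi : Fin m → ↥(Uj \ Ui)) (xj : Fin m → W) (hφ : Injective φ)
    (hφU : ∀ a, φ a ∉ Uj) (hxi : Injective xi) (hxj : Injective xj) (hxjU : ∀ α, xj α ∉ Uj)
    (hd : ∀ a α, φ a ≠ xj α) (hnb : nb X Uj ⊆ range φ ∪ range xj) [Fintype ↥(Uj \ Ui)] :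
    inc2 X Uj = inc2 X Ui + (chn X Ui Uj φ xi xj).ce := by
  classical
  let D := ↥(Uj \ Ui)
  set ψ : Fin s ⊕ Fin m → W := Sum.elim φ xj with hψ
  have hψinj : Injective ψ := by
    rintro (a | α) (b | β) h
    · exact congrArg _ (hφ h)
    · exact absurd h (hd a β)
    · exact absurd h.symm (hd b α)
    · exact congrArg _ (hxj h)
  have hψU : ∀ r, ψ r ∉ Uj := by
    rintro (a | α)
    · exact hφU a
    · exact hxjU α
  have hnb' : ∀ y ∈ nb X Uj, ∃ r, ψ r = y := by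
    intro y hy
    rcases hnb hy with ⟨a, rfl⟩ | ⟨α, rfl⟩
    · exact ⟨.inl a, rfl⟩
    · exact ⟨.inr α, rfl⟩
  have hnbfin : (nb X Uj).Finite := ((finite_range φ).union (finite_range xj)).subset hnb
  have hfin : {p : W × W | X.Adj p.1 p.2 ∧ (p.1 ∈ Uj ∨ p.2 ∈ Uj)}.Finite :=
    ((hj.union hnbfin).prod (hj.union hnbfin)).subset
      (incset_sub subset_union_left subset_union_right)
  set S : Set (W × W) := {p | X.Adj p.1 p.2 ∧ (p.1 ∈ Uj ∨ p.2 ∈ Uj) ∧ p.1 ∉ Ui ∧ p.2 ∉ Ui} with hS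
  have hsplit : {p : W × W | X.Adj p.1 p.2 ∧ (p.1 ∈ Uj ∨ p.2 ∈ Uj)} =
      {p : W × W | X.Adj p.1 p.2 ∧ (p.1 ∈ Ui ∨ p.2 ∈ Ui)} ∪ S := by
    ext p
    constructor
    · rintro ⟨h1, h2⟩
      by_cases h3 : p.1 ∈ Ui ∨ p.2 ∈ Ui
      · exact Or.inl ⟨h1, h3⟩
      · push Not at h3
        exact Or.inr ⟨h1, h2, h3⟩
    · rintro (⟨h1, h2⟩ | ⟨h1, h2, _⟩)
      · exact ⟨h1, h2.imp (fun h => hsub h) fun h => hsub h⟩
      · exact ⟨h1, h2⟩
  have hdisj : Disjoint {p : W × W | X.Adj p.1 p.2 ∧ (p.1 ∈ Ui ∨ p.2 ∈ Ui)} S := by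
    rw [disjoint_left]
    rintro p ⟨_, h1⟩ ⟨_, _, h2, h3⟩
    rcases h1 with h1 | h1
    · exact h2 h1
    · exact h3 h1
  have h1 : inc2 X Uj = inc2 X Ui + S.ncard := by
    unfold inc2
    rw [hsplit, ncard_union_eq hdisj (hfin.subset (hsplit ▸ subset_union_left))
      (hfin.subset (hsplit ▸ subset_union_right))]
  rw [h1]
  congr 1
  let T1 := {p : D × D // X.Adj p.1 p.2}
  let T2 := {q : (Fin s ⊕ Fin m) × D // X.Adj (ψ q.1) q.2}
  let g : T1 ⊕ (T2 ⊕ T2) → W × W := Sum.elim (fun p => ((p.1.1 : W), (p.1.2 : W)))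
    (Sum.elim (fun q => (ψ q.1.1, (q.1.2 : W))) (fun q => ((q.1.2 : W), ψ q.1.1)))
  have ne1 : ∀ (r : Fin s ⊕ Fin m) {x : W}, ψ r = x → x ∉ Uj := by
    intro r x h
    rw [← h]
    exact hψU r
  have hg : Injective g := by
    rintro (p | q | q) (p' | q' | q') h
    · have h1 := Prod.ext_iff.1 h
      have h2 : p.1.1 = p'.1.1 := Subtype.ext h1.1
      have h3 : p.1.2 = p'.1.2 := Subtype.ext h1.2
      exact congrArg _ (Subtype.ext (Prod.ext h2 h3))
    · exact absurd (p.1.1.2.1) (ne1 _ (Prod.ext_iff.1 h).1.symm)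
    · exact absurd (p.1.2.2.1) (ne1 _ (Prod.ext_iff.1 h).2.symm)
    · exact absurd (p'.1.1.2.1) (ne1 _ (Prod.ext_iff.1 h).1)
    · have h1 := Prod.ext_iff.1 h
      have h2 : q.1.1 = q'.1.1 := hψinj h1.1
      have h3 : q.1.2 = q'.1.2 := Subtype.ext h1.2
      exact congrArg _ (congrArg _ (Subtype.ext (Prod.ext h2 h3)))
    · exact absurd (q'.1.2.2.1) (ne1 _ (Prod.ext_iff.1 h).1)
    · exact absurd (p'.1.2.2.1) (ne1 _ (Prod.ext_iff.1 h).2)
    · exact absurd (q.1.2.2.1) (ne1 _ (Prod.ext_iff.1 h).1.symm)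
    · have h1 := Prod.ext_iff.1 h
      have h2 : q.1.1 = q'.1.1 := hψinj h1.2
      have h3 : q.1.2 = q'.1.2 := Subtype.ext h1.1
      exact congrArg _ (congrArg _ (Subtype.ext (Prod.ext h2 h3)))
  have hrange : range g = S := by
    ext ⟨x, y⟩
    constructor
    · rintro ⟨(p | q | q), h⟩
      · have h1 := Prod.ext_iff.1 h
        have h2 : (p.1.1 : W) = x := h1.1
        have h3 : (p.1.2 : W) = y := h1.2
        subst h2 h3
        exact ⟨p.2, Or.inl p.1.1.2.1, p.1.1.2.2, p.1.2.2.2⟩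
      · have h1 := Prod.ext_iff.1 h
        have h2 : ψ q.1.1 = x := h1.1
        have h3 : (q.1.2 : W) = y := h1.2
        subst h2 h3
        exact ⟨q.2, Or.inr q.1.2.2.1, fun h => hψU _ (hsub h), q.1.2.2.2⟩
      · have h1 := Prod.ext_iff.1 h
        have h2 : (q.1.2 : W) = x := h1.1
        have h3 : ψ q.1.1 = y := h1.2
        subst h2 h3
        exact ⟨q.2.symm, Or.inl q.1.2.2.1, q.1.2.2.2, fun h => hψU _ (hsub h)⟩
    · rintro ⟨h1, h2, h3, h4⟩
      have h1 : X.Adj x y := h1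
      by_cases hx : x ∈ Uj
      · by_cases hy : y ∈ Uj
        · exact ⟨.inl ⟨(⟨x, hx, h3⟩, ⟨y, hy, h4⟩), h1⟩, rfl⟩
        · obtain ⟨r, rfl⟩ := hnb' y ⟨hy, x, hx, h1⟩
          exact ⟨.inr (.inr ⟨(r, ⟨x, hx, h3⟩), h1.symm⟩), rfl⟩
      · have hy : y ∈ Uj := h2.resolve_left hx
        obtain ⟨r, rfl⟩ := hnb' x ⟨hx, y, hy, h1.symm⟩
        exact ⟨.inr (.inl ⟨(r, ⟨y, hy, h4⟩), h1⟩), rfl⟩
  have h2 : S.ncard = Nat.card T1 + (Nat.card T2 + Nat.card T2) := by
    rw [← hrange, ← Nat.card_coe_set_eq, Nat.card_congr (Equiv.ofInjective g hg).symm,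
      Nat.card_sum, Nat.card_sum]
  have h3 : Nat.card T1 = e2 (chn X Ui Uj φ xi xj).E0 := by
    rw [Nat.card_eq_fintype_card, Fintype.card_subtype]
    unfold e2
    congr
  have h4 : Nat.card T2 = (∑ a : Fin s, ∑ d : D, if X.Adj (φ a) d then 1 else 0) +
      ∑ α : Fin m, ∑ d : D, if X.Adj (xj α) d then 1 else 0 := by
    rw [Nat.card_eq_fintype_card, Fintype.card_subtype, Finset.card_filter,
      Fintype.sum_prod_type, Fintype.sum_sum_type]
    rfl
  have h5 : (Finset.univ.filter fun p : D × D => (chn X Ui Uj φ xi xj).E1 p.1 p.2).card =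
      ∑ α : Fin m, ∑ d : D, if X.Adj (xj α) d then 1 else 0 := by
    rw [Finset.card_filter, Fintype.sum_prod_type]
    refine Eq.trans ?_ (cross_sum xi hxi (fun α (d : D) => X.Adj (xj α) d))
    refine Finset.sum_congr rfl fun u _ => Finset.sum_congr rfl fun v _ => ?_
    by_cases h : ∃ α, xi α = u ∧ X.Adj (xj α) v
    · rw [if_pos h, if_pos (show (chn X Ui Uj φ xi xj).E1 u v from h)]
    · rw [if_neg h, if_neg (show ¬ (chn X Ui Uj φ xi xj).E1 u v from h)]
  have h6 : (Finset.univ.filter fun p : Fin s × D => (chn X Ui Uj φ xi xj).A p.1 p.2).card =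
      ∑ a : Fin s, ∑ d : D, if X.Adj (φ a) d then 1 else 0 := by
    rw [Finset.card_filter, Fintype.sum_prod_type]
    rfl
  have h7 : (chn X Ui Uj φ xi xj).ce = e2 (chn X Ui Uj φ xi xj).E0 +
      2 * (Finset.univ.filter fun p : D × D => (chn X Ui Uj φ xi xj).E1 p.1 p.2).card +
      2 * (Finset.univ.filter fun p : Fin s × D => (chn X Ui Uj φ xi xj).A p.1 p.2).card := by
    unfold Chn.ce
    congr
  rw [h7, h2, h3, h4, h5, h6]
  ring

end count

theorem core (a b : ℕ) {s m : ℕ} {W : Type} {X : SimpleGraph W} {Ui Uj : Set W} (hj : Uj.Finite)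
    (hsub : Ui ⊆ Uj) (hne : (Uj \ Ui).Nonempty)
    (φ : Fin s → W) (xi : Fin m → W) (xj : Fin m → W) (hφ : Injective φ)
    (hφU : ∀ a, φ a ∉ Uj) (hxi : Injective xi) (hxiD : ∀ α, xi α ∈ Uj \ Ui)
    (hxj : Injective xj) (hxjU : ∀ α, xj α ∉ Uj)
    (hd : ∀ a α, φ a ≠ xj α) (hnb : nb X Uj ⊆ range φ ∪ range xj)
    (hMR : MR ((a : ℝ) / ((b : ℝ) + 1)) X)
    (hE : Eqv ((a : ℝ) / ((b : ℝ) + 1)) (X.induce Ui) (AT X φ Ui xi) (X.induce Uj)
      (AT X φ Uj xj))
    (hgain : (b + 1) * inc2 X Uj + 2 * a * Ui.ncard = (b + 1) * inc2 X Ui + 2 * a * Uj.ncard) :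
    BT ((a : ℝ) / ((b : ℝ) + 1)) := by
  classical
  have hfin : (Uj \ Ui).Finite := hj.subset sdiff_subset
  have hft := hfin.fintype
  set x' : Fin m → ↥(Uj \ Ui) := fun α => ⟨xi α, hxiD α⟩ with hx'
  have hx'i : Injective x' := fun α β h => hxi (congrArg Subtype.val h)
  have h1 := inc_split (X := X) hj hsub φ x' xj hφ hφU hx'i hxj hxjU hd hnb
  have h2 := MR_chn X Ui Uj φ hMR hφ hφU hsub x' hx'i xj hE
  set c := chn X Ui Uj φ x' xj with hc
  set e : Fin (Uj \ Ui).ncard ≃ ↥(Uj \ Ui) :=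
    (Finite.equivFinOfCardEq (by rw [Nat.card_coe_set_eq])).symm with he
  refine stmt_SD a b s (Uj \ Ui).ncard (c.comap e) ⟨?_, ?_⟩ fun n => (h2 n).minor
    (c.comap_minor e n)
  · exact (ncard_pos hfin).2 hne
  · rw [Chn.comap_ce]
    have h3 : Uj.ncard = Ui.ncard + (Uj \ Ui).ncard := by
      rw [← ncard_union_eq disjoint_sdiff_right (hj.subset hsub) hfin, union_sdiff_cancel hsub]
    rw [h1, h3] at hgain
    have h4 : (b + 1) * (inc2 X Ui + c.ce) = (b + 1) * inc2 X Ui + (b + 1) * c.ce := by ring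
    have h5 : 2 * a * (Ui.ncard + (Uj \ Ui).ncard) =
      2 * a * Ui.ncard + 2 * a * (Uj \ Ui).ncard := by ring
    rw [h4, h5] at hgain
    omega

end PLAux

open PLAux in
theorem stmt_PL : Stmt_PL := by
  classical
  intro a b k
  set ρ : ℝ := (a : ℝ) / ((b : ℝ) + 1) with hρ
  have hb : (0 : ℝ) < (b : ℝ) + 1 := by positivity
  have hρ0 : 0 ≤ ρ := by positivity
  set N0 : ℕ := ∑ t ∈ Finset.range (2 * k + 1), NB t a with hN0
  refine ⟨(N0 + 1) * ((4 * a * k + 1) * (k + 1)), ?_⟩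
  set L := (N0 + 1) * ((4 * a * k + 1) * (k + 1)) with hL
  intro W X Φ U hMR hΦ hΦk h1 h2 h3 h4 h5
  have hLpos : 0 < L := by positivity
  have hW : Nonempty W := by
    by_contra hW
    rw [not_nonempty_iff] at hW
    exact h4 0 hLpos (Subsingleton.elim _ _)
  -- the gains
  have hgb : ∀ i ≤ L, 2 * a * (U i).ncard ≤ (b + 1) * inc2 X (U i) ∧
      (b + 1) * inc2 X (U i) ≤ 2 * a * (U i).ncard + 4 * a * k := by
    intro i hi
    constructor
    · have h6 := h5 i hi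
      have h7 : ((b : ℝ) + 1) * (2 * ρ * (U i).ncard) ≤ ((b : ℝ) + 1) * inc2 X (U i) :=
        mul_le_mul_of_nonneg_left h6 hb.le
      have h8 : ((b : ℝ) + 1) * (2 * ρ * (U i).ncard) = 2 * a * (U i).ncard := by
        rw [hρ]; field_simp
      rw [h8] at h7
      exact_mod_cast h7
    · have hT : (U i ∪ ((nb X (U i) \ Φ) ∪ Φ)).Finite := (h1 i hi).1.union ((h2 i hi).1.union hΦ)
      have h6 := inc2_bound hMR hT subset_union_left (by
        intro y hy
        by_cases hyΦ : y ∈ Φ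
        · exact Or.inr (Or.inr hyΦ)
        · exact Or.inr (Or.inl ⟨hy, hyΦ⟩))
      have h7 : (U i ∪ ((nb X (U i) \ Φ) ∪ Φ)).ncard ≤ (U i).ncard + 2 * k := by
        refine (ncard_union_le _ _).trans ?_
        have := ncard_union_le (nb X (U i) \ Φ) Φ
        have := (h2 i hi).2
        omega
      have h8 : ((U i ∪ ((nb X (U i) \ Φ) ∪ Φ)).ncard : ℝ) ≤ (U i).ncard + 2 * k := by
        exact_mod_cast h7
      have h9 : (inc2 X (U i) : ℝ) ≤ 2 * ρ * ((U i).ncard + 2 * k) :=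
        h6.trans (mul_le_mul_of_nonneg_left h8 (by positivity))
      have h10 : ((b : ℝ) + 1) * inc2 X (U i) ≤ 2 * a * (U i).ncard + 4 * a * k := by
        calc ((b : ℝ) + 1) * inc2 X (U i) ≤ ((b : ℝ) + 1) * (2 * ρ * ((U i).ncard + 2 * k)) :=
              mul_le_mul_of_nonneg_left h9 hb.le
          _ = _ := by rw [hρ]; field_simp; ring
      exact_mod_cast h10
  set f : ℕ → ℕ × ℕ := fun i => ((b + 1) * inc2 X (U i) - 2 * a * (U i).ncard,
    (nb X (U i) \ Φ).ncard) with hf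
  obtain ⟨y, -, hy⟩ := Finset.exists_le_card_fiber_of_mul_le_card_of_maps_to (f := f)
    (s := Finset.range L) (t := Finset.range (4 * a * k + 1) ×ˢ Finset.range (k + 1))
    (n := N0 + 1) (by
      intro i hi
      rw [Finset.mem_range] at hi
      rw [Finset.mem_product, Finset.mem_range, Finset.mem_range]
      have h6 := hgb i hi.le
      have h7 := (h2 i hi.le).2
      simp only [hf]
      omega) ⟨(0, 0), by simp⟩ (by
      rw [Finset.card_product, Finset.card_range, Finset.card_range, Finset.card_range, hL]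
      exact le_of_eq (by ring))
  set S := (Finset.range L).filter (fun i => f i = y) with hS
  have hSL : ∀ i ∈ S, i < L ∧ f i = y := fun i hi => by
    rw [hS, Finset.mem_filter, Finset.mem_range] at hi
    exact hi
  set m := y.2 with hm
  set s := Φ.ncard with hs
  obtain ⟨φ, hφ, hφr⟩ := exists_enum Φ hΦ hs.symm
  have hex : ∀ i ∈ S, ∃ x : Fin m → W, Injective x ∧ range x = nb X (U i) \ Φ := by
    intro i hi
    refine exists_enum _ (h2 i (hSL i hi).1.le).1 ?_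
    have := congrArg Prod.snd (hSL i hi).2
    exact this
  choose! x hx using hex
  set ι : ℕ → ℕ := fun t => if h : t < S.card then S.orderEmbOfFin rfl ⟨t, h⟩ else 0 with hι
  have hιS : ∀ t ≤ N0, ι t ∈ S := by
    intro t ht
    have h6 : t < S.card := by omega
    simp only [hι, dif_pos h6]
    exact Finset.orderEmbOfFin_mem _ _ _
  obtain ⟨t1, t2, h12, ht2, hE⟩ := stmt_FI a b (Fin s ⊕ Fin m) (fun t => U (ι t))
    (fun t => X.induce (U (ι t))) (fun t => AT X φ (U (ι t)) (x (ι t)))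
  have hcard : Fintype.card (Fin s ⊕ Fin m) = s + m := by simp
  rw [hcard] at ht2
  have hmk : m ≤ k := by
    have h6 := hιS 0 (Nat.zero_le _)
    have h7 := (h2 _ (hSL _ h6).1.le).2
    have h8 : (nb X (U (ι 0)) \ Φ).ncard = m := congrArg Prod.snd (hSL _ h6).2
    omega
  have hNBle : NB (s + m) a ≤ N0 := by
    rw [hN0]
    exact Finset.single_le_sum (f := fun t => NB t a) (fun _ _ => Nat.zero_le _)
      (Finset.mem_range.2 (by omega))
  have h2S := hιS t2 (by omega)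
  have h1S := hιS t1 (by omega)
  have hlt : ι t1 < ι t2 := by
    have h6 : t1 < S.card := by omega
    have h7 : t2 < S.card := by omega
    simp only [hι, dif_pos h6, dif_pos h7]
    exact (S.orderEmbOfFin rfl).lt_iff_lt.2 h12
  set i := ι t1 with hi
  set j := ι t2 with hj
  have hjL := (hSL j h2S).1
  have hiL := (hSL i h1S).1
  have hmono : ∀ n, i + 1 ≤ n → n ≤ L → U (i + 1) ⊆ U n := by
    intro n hn
    induction n, hn using Nat.le_induction with
    | base => exact fun _ => Subset.rfl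
    | succ n hn ih =>
      intro h
      have h6 := ih (by omega)
      have h7 := h3 n (by omega)
      exact fun z hz => h7 (Or.inl (h6 hz))
  have hij : U (i + 1) ⊆ U j := hmono j hlt hjL.le
  have hUi : U i ∪ (nb X (U i) \ Φ) ⊆ U j := (h3 i hiL).trans hij
  have hne : (U j \ U i).Nonempty := by
    rw [sdiff_nonempty]
    intro h6
    refine h4 i hiL (Subset.antisymm (subset_union_left.trans (h3 i hiL)) (hij.trans h6))
  have hxir := (hx i h1S).2
  have hxjr := (hx j h2S).2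
  have hφΦ : ∀ a, φ a ∈ Φ := fun a => hφr ▸ mem_range_self a
  refine core a b (h1 j hjL.le).1 (subset_union_left.trans hUi) hne φ (x i) (x j) hφ
    (fun a h6 => disjoint_left.1 (h1 j hjL.le).2 h6 (hφΦ a)) (hx i h1S).1 ?_ (hx j h2S).1 ?_ ?_ ?_
    hMR hE ?_
  · intro α
    have h6 : x i α ∈ nb X (U i) \ Φ := hxir ▸ mem_range_self α
    exact ⟨hUi (Or.inr h6), h6.1.1⟩
  · intro α
    have h6 : x j α ∈ nb X (U j) \ Φ := hxjr ▸ mem_range_self α
    exact h6.1.1
  · intro a α h6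
    have h7 : x j α ∈ nb X (U j) \ Φ := hxjr ▸ mem_range_self α
    exact h7.2 (h6 ▸ hφΦ a)
  · intro z hz
    by_cases h6 : z ∈ Φ
    · exact Or.inl (hφr ▸ h6)
    · exact Or.inr (hxjr ▸ ⟨hz, h6⟩)
  · have h6 := (hSL i h1S).2
    have h7 := (hSL j h2S).2
    have h8 := congrArg Prod.fst (h6.trans h7.symm)
    simp only [hf] at h8
    have h9 := hgb i hiL.le
    have h10 := hgb j hjL.le
    omega

end Pool.Agent.Work.MP_216d61_lc
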