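import Pool.Agent.Work.MP_216d61_lc_full.RGC

/-!
# Block RAYS: many disjoint rays
-/

set_option autoImplicit false

namespace Pool.Agent.Work.MP_216d61_lc

open Relation Set

namespace RAYSaux

variable {V : Type} {G : SimpleGraph V}

theorem nb_finite (lf : ∀ x, {y | G.Adj x y}.Finite) {F : Set V} (hF : F.Finite) :
    (nb G F).Finite := by
  refine (hF.biUnion fun x _ => lf x).subset ?_
  rintro y ⟨_, x, hx, hxy⟩
  exact mem_biUnion hx hxy

/-- balls around `S` -/
def ball (G : SimpleGraph V) (S : Set V) : ℕ → Set V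
  | 0 => S
  | n + 1 => ball G S n ∪ nb G (ball G S n)

theorem ball_finite (lf : ∀ x, {y | G.Adj x y}.Finite) {S : Set V} (hS : S.Finite) (n : ℕ) :
    (ball G S n).Finite := by
  induction n with
  | zero => exact hS
  | succ n ih => exact ih.union (nb_finite lf ih)

theorem ball_mono (S : Set V) {m n : ℕ} (h : m ≤ n) : ball G S m ⊆ ball G S n := by
  induction h with
  | refl => exact Subset.rfl
  | step _ ih => exact ih.trans subset_union_left

theorem ball_adj (S : Set V) {n : ℕ} {x y : V} (hx : x ∈ ball G S n) (h : G.Adj x y) :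
    y ∈ ball G S (n + 1) := by
  by_cases hy : y ∈ ball G S n
  · exact Or.inl hy
  · exact Or.inr ⟨hy, x, hx, h⟩

/-- `k` disjoint paths of length `n`. -/
theorem paths (v0 : V) (hMEN : Stmt_MEN) (lf : ∀ x, {y | G.Adj x y}.Finite) {S : Set V} (hS : S.Finite)
    {k : ℕ} (hk : ∀ F : Set V, F.Finite → S ⊆ F → k ≤ (nb G F).ncard) (n : ℕ) :
    ∃ P : ℕ → ℕ → V, (∀ i < k, ∀ j ≤ n, P i j ∈ ball G S (j + 1)) ∧
      (∀ i < k, ∀ j < n, G.Adj (P i j) (P i (j + 1))) ∧
      (∀ i < k, ∀ i' < k, ∀ j ≤ n, ∀ j' ≤ n, P i j = P i' j' → i = i' ∧ j = j') := by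
  classical
  have hUf : (ball G S (n + 1) \ S).Finite := (ball_finite lf hS (n + 1)).sdiff
  have hSb : S ⊆ ball G S n := ball_mono (G := G) S (Nat.zero_le n)
  have hP : nb G S ⊆ ball G S (n + 1) \ S := by
    intro y hy
    refine ⟨ball_mono S (Nat.succ_le_succ (Nat.zero_le n)) (Or.inr hy), hy.1⟩
  have hQ : nb G (ball G S n) ⊆ ball G S (n + 1) \ S := by
    intro y hy
    exact ⟨Or.inr hy, fun h => hy.1 (hSb h)⟩
  obtain ⟨D, hDU, hDc, hDd, hDP, hDQ⟩ := hMEN V G (ball G S (n + 1) \ S) (nb G S)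
    (nb G (ball G S n)) k hUf hP hQ (by
      intro Z hZU hZk
      by_contra hcon
      push Not at hcon
      set F : Set V := S ∪ {x | ∃ p ∈ nb G S, Lnk G ((ball G S (n + 1) \ S) \ Z) p x} with hF
      have hFf : F.Finite := by
        refine hS.union (hUf.subset ?_)
        rintro x ⟨p, _, hp⟩
        exact (RGCaux.lright hp).1
      have h1 := hk F hFf subset_union_left
      have h2 : nb G F ⊆ Z := by
        rintro y ⟨hyF, x, hxF, hxy⟩
        by_contra hyZ
        apply hyF
        rcases hxF with hxS | ⟨p, hp, hpx⟩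
        · by_cases hyS : y ∈ S
          · exact Or.inl hyS
          · have hynb : y ∈ nb G S := ⟨hyS, x, hxS, hxy⟩
            exact Or.inr ⟨y, hynb, ⟨hP hynb, hyZ⟩, ReflTransGen.refl⟩
        · by_cases hyS : y ∈ S
          · exact Or.inl hyS
          · have hxU := RGCaux.lright hpx
            have hxn : x ∈ ball G S n := by
              by_contra hxn
              have hxQ : x ∈ nb G (ball G S n) := by
                rcases hxU.1.1 with h | h
                · exact absurd h hxn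
                · exact h
              exact hcon p hp x hxQ hpx
            exact Or.inr ⟨p, hp, hpx.1, hpx.2.tail ⟨hxy, hxU, ⟨ball_adj S hxn hxy, hyS⟩, hyZ⟩⟩
      have h3 : (nb G F).ncard ≤ Z.ncard := ncard_le_ncard h2 (hUf.subset hZU)
      omega)
  -- paths inside the connected sets
  have hpath : ∀ i : Fin k, ∃ p : ℕ → V, (∀ j ≤ n, p j ∈ D i) ∧ (∀ j ≤ n, p j ∈ ball G S (j + 1)) ∧
      (∀ j < n, G.Adj (p j) (p (j + 1))) ∧ ∀ j ≤ n, ∀ j' ≤ n, p j = p j' → j = j' := by
    intro i
    obtain ⟨a, haD, haP⟩ := hDP i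
    obtain ⟨b, hbD, hbQ⟩ := hDQ i
    have hc := conn_iff.2 (hDc i)
    obtain ⟨q⟩ := hc.preconnected ⟨a, haD⟩ ⟨b, hbD⟩
    set w := q.toPath with hw
    have hball : ∀ j, (w.1.getVert j : V) ∈ ball G S (j + 1) := by
      intro j
      induction j with
      | zero =>
        rw [SimpleGraph.Walk.getVert_zero]
        exact Or.inr haP
      | succ j ih =>
        by_cases hj : j < w.1.length
        · have := w.1.adj_getVert_succ hj
          exact ball_adj S ih this
        · rw [SimpleGraph.Walk.getVert_of_length_le _ (by omega : _ ≤ j + 1)]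
          rw [SimpleGraph.Walk.getVert_of_length_le _ (by omega : _ ≤ j)] at ih
          exact ball_mono S (Nat.le_succ _) ih
    have hlen : n ≤ w.1.length := by
      by_contra hlt
      push Not at hlt
      have h1 := hball w.1.length
      rw [SimpleGraph.Walk.getVert_length] at h1
      exact hbQ.1 (ball_mono S hlt h1)
    refine ⟨fun j => (w.1.getVert j : V),
      fun j _ => Subtype.coe_prop _, fun j _ => hball j, fun j hj => ?_, fun j hj j' hj' h => ?_⟩
    · exact w.1.adj_getVert_succ (by omega)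
    · exact w.2.getVert_injOn (by simp only [mem_ofPred_eq]; omega)
        (by simp only [mem_ofPred_eq]; omega) (Subtype.ext h)
  choose p hpD hpB hpA hpI using hpath
  by_cases hk0 : k = 0
  · subst hk0
    exact ⟨fun _ _ => v0, by omega, by omega, by omega⟩
  · refine ⟨fun i j => p ⟨i % k, Nat.mod_lt _ (by omega)⟩ j, ?_, ?_, ?_⟩
    · intro i hi j hj
      exact hpB _ j hj
    · intro i hi j hj
      exact hpA _ j hj
    · intro i hi i' hi' j hj j' hj' h
      by_cases hii : i = i'
      · subst hii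
        exact ⟨rfl, hpI _ j hj j' hj' h⟩
      · exfalso
        have hne : (⟨i % k, Nat.mod_lt _ (by omega)⟩ : Fin k) ≠ ⟨i' % k, Nat.mod_lt _ (by omega)⟩ := by
          intro h2
          rw [Fin.mk.injEq, Nat.mod_eq_of_lt hi, Nat.mod_eq_of_lt hi'] at h2
          exact hii h2
        have h3 := disjoint_left.1 (hDd _ _ hne) (hpD _ j hj)
        apply h3
        simp only at h
        rw [h]
        exact hpD _ j' hj'

end RAYSaux

open RAYSaux in
theorem stmt_RAYS (hTH : Stmt_TH) (hMEN : Stmt_MEN) : Stmt_RAYS := by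
  intro ρ V G r A hS k
  have hinf : Infinite V := hS.inf
  obtain ⟨v0⟩ : Nonempty V := inferInstance
  obtain ⟨S, hSf, hk⟩ := hTH ρ V G r A hS k
  have hp : ∀ n : ℕ, ∃ P : ℕ → ℕ → V, (∀ i < k, ∀ j ≤ n, P i j ∈ ball G S (j + 1)) ∧
      (∀ i < k, ∀ j < n, G.Adj (P i j) (P i (j + 1))) ∧
      (∀ i < k, ∀ i' < k, ∀ j ≤ n, ∀ j' ≤ n, P i j = P i' j' → i = i' ∧ j = j') :=
    fun n => paths v0 hMEN hS.lf hSf hk n
  choose P hPB hPA hPI using hp
  set 𝒰 : Ultrafilter ℕ := Filter.hyperfilter ℕ with h𝒰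
  have hev : ∀ m : ℕ, ∀ᶠ n in (𝒰 : Filter ℕ), m ≤ n := fun m =>
    Nat.hyperfilter_le_atTop (Filter.eventually_ge_atTop m)
  have hlim : ∀ i j : ℕ, ∃ x : V, i < k → ∀ᶠ n in (𝒰 : Filter ℕ), P n i j = x := by
    intro i j
    by_cases hi : i < k
    · have h1 : ∀ᶠ n in (𝒰 : Filter ℕ), ∃ x ∈ ball G S (j + 1), P n i j = x := by
        filter_upwards [hev j] with n hn
        exact ⟨_, hPB n i hi j hn, rfl⟩
      rw [Ultrafilter.eventually_exists_mem_iff (ball_finite hS.lf hSf _)] at h1
      obtain ⟨x, _, hx⟩ := h1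
      exact ⟨x, fun _ => hx⟩
    · exact ⟨v0, fun h => absurd h hi⟩
  choose ray hray using hlim
  refine ⟨ray, ⟨?_, ?_⟩⟩
  · intro i hi j hj m n h
    obtain ⟨N, h1, h2, h3, h4⟩ :=
      ((hray i m hi).and ((hray j n hj).and ((hev m).and (hev n)))).exists
    exact hPI N i hi j hj m h3 n h4 (by rw [h1, h2, h])
  · intro i hi n
    obtain ⟨N, h1, h2, h3⟩ := ((hray i n hi).and ((hray i (n + 1) hi).and (hev (n + 1)))).exists
    rw [← h1, ← h2]
    exact hPA N i hi n (by omega)

end Pool.Agent.Work.MP_216d61_lc
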