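import Pool.Agent.Work.MP_216d61_lc_full.Base1

/-!
# MP_216d61_lc full: block REG (helper36)
-/

set_option autoImplicit false

namespace Pool.Agent.Work.MP_216d61_lc

open Relation Set

namespace RegAux

/-- monotonicity of `Reach` -/
theorem reach_mono {V : Type} {G : SimpleGraph V} {K : ℕ} {ray : ℕ → ℕ → V} {c d c' d' : ℕ} {S S' : Set V}
    (hc : c ≤ c') (hd : d' ≤ d) (hS : S ⊆ S') : Reach G K ray c' d' S' ⊆ Reach G K ray c d S := by
  rintro x ⟨i, n, h1, h2, h3⟩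
  refine ⟨i, n, by omega, by omega, h3.mono ?_⟩
  intro z hz hz'
  apply hz
  rcases hz' with hz' | ⟨j, m, hj, h, e⟩
  · exact Or.inl (hS hz')
  · exact Or.inr ⟨j, m, hj, by omega, e⟩

theorem occ_mono {ρ : ℝ} {V : Type} {G : SimpleGraph V} {r : ℕ} {A : Fin r → V → Prop} {K : ℕ}
    {ray : ℕ → ℕ → V} {c d c' d' : ℕ} {g g' : ℝ} (hc : c ≤ c') (hd : d' ≤ d) (hg : g' ≤ g)
    (h : Occ ρ G A K ray c' d' g) : Occ ρ G A K ray c d g' := by
  intro S hS
  obtain ⟨F, h1, h2, h3, h4, h5⟩ := h S hS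
  exact ⟨F, h1, h2, h3, h4.trans (reach_mono hc hd (le_refl _)), hg.trans h5⟩

/-- the widths -/
def w : ℕ → ℕ
  | 0 => 80
  | k + 1 => 2 * w k + 100

theorem w_ge (k : ℕ) : 80 ≤ w k := by
  induction k with
  | zero => exact le_refl _
  | succ k ih =>
    show 80 ≤ 2 * w k + 100
    omega

/-- pigeonhole for a monotone bounded function of intervals -/
theorem pigeon (f : ℕ → ℕ → ℕ) (hf : ∀ c d c' d', c ≤ c' → d' ≤ d → f c' d' ≤ f c d) :
    ∀ (k c d : ℕ), f c d ≤ k → c + w k ≤ d →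
      ∃ c' d' c1 d1 c2 d2 i0, c ≤ c' ∧ d' ≤ d ∧ c' + 80 ≤ d' ∧ c' + 10 ≤ c1 ∧ c1 ≤ d1 ∧ d1 + 11 ≤ i0 ∧
        i0 + 11 ≤ c2 ∧ c2 ≤ d2 ∧ d2 + 10 ≤ d' ∧ f c1 d1 = f c' d' ∧ f c2 d2 = f c' d' := by
  intro k
  induction k with
  | zero =>
    intro c d h hw
    have hw' : c + 80 ≤ d := hw
    have e : ∀ c1 d1, c ≤ c1 → d1 ≤ d → f c1 d1 = f c d := by
      intro c1 d1 h1 h2
      have := hf c d c1 d1 h1 h2
      omega
    exact ⟨c, d, c + 10, c + 10, c + 32, c + 32, c + 21, by omega, by omega, by omega, by omega, by omega,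
      by omega, by omega, by omega, by omega, e _ _ (by omega) (by omega), e _ _ (by omega) (by omega)⟩
  | succ k ih =>
    intro c d h hw
    have hw' : c + (2 * w k + 100) ≤ d := hw
    have h80 := w_ge k
    by_cases h1 : f (c + 10) (c + 10 + w k) = f c d
    · by_cases h2 : f (c + 32 + w k) (c + 32 + w k + w k) = f c d
      · exact ⟨c, d, c + 10, c + 10 + w k, c + 32 + w k, c + 32 + w k + w k, c + 21 + w k, by omega, by omega,
          by omega, by omega, by omega, by omega, by omega, by omega, by omega, h1, h2⟩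
      · have := hf c d (c + 32 + w k) (c + 32 + w k + w k) (by omega) (by omega)
        obtain ⟨c', d', c1, d1, c2, d2, i0, g1, g2, g3⟩ := ih (c + 32 + w k) (c + 32 + w k + w k) (by omega) (by omega)
        exact ⟨c', d', c1, d1, c2, d2, i0, by omega, by omega, g3⟩
    · have := hf c d (c + 10) (c + 10 + w k) (by omega) (by omega)
      obtain ⟨c', d', c1, d1, c2, d2, i0, g1, g2, g3⟩ := ih (c + 10) (c + 10 + w k) (by omega) (by omega)
      exact ⟨c', d', c1, d1, c2, d2, i0, by omega, by omega, g3⟩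

end RegAux

open RegAux in
/-- **Block REG** -/
theorem stmt_REG (hSTRIP : Stmt_STRIP) (hNO2 : Stmt_NO2) (hCEL : Stmt_CEL) (hASM : Stmt_ASM) : Stmt_REG := by
  classical
  intro ρ V G r A hs T hT
  obtain ⟨a, b, hρ⟩ := hs.rat
  set K : ℕ := T + 50 + w a + T + 50 with hK
  obtain ⟨ray, S1, hst⟩ := hSTRIP ρ V G r A hs T hT K
  have hb : (0 : ℝ) < (b : ℝ) + 1 := by positivity
  -- the function `f`
  let P : ℕ → ℕ → ℕ → Prop := fun c d N => N = 0 ∨ Occ ρ G A K ray c d ((N : ℝ) / ((b : ℝ) + 1))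
  let f : ℕ → ℕ → ℕ := fun c d => Nat.findGreatest (P c d) a
  have hP0 : ∀ c d, P c d 0 := fun c d => Or.inl rfl
  have hfP : ∀ c d, P c d (f c d) := fun c d => Nat.findGreatest_spec (P := P c d) (Nat.zero_le a) (hP0 c d)
  have hfle : ∀ c d, f c d ≤ a := fun c d => Nat.findGreatest_le a
  have hmono : ∀ c d c' d', c ≤ c' → d' ≤ d → f c' d' ≤ f c d := by
    intro c d c' d' h1 h2
    apply Nat.le_findGreatest (hfle c' d')
    rcases hfP c' d' with h | h
    · exact Or.inl h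
    · exact Or.inr (occ_mono h1 h2 (le_refl _) h)
  obtain ⟨c, d, c1, d1, c2, d2, i0, q1, q2, q3, q4, q5, q6, q7, q8, q9, e1, e2⟩ :=
    pigeon f hmono a (T + 50) (T + 50 + w a) (hfle _ _) (le_refl _)
  set N := f c d with hN
  set g : ℝ := (N : ℝ) / ((b : ℝ) + 1) with hg
  -- labels
  let Lb : Set (Fin r) := {x | ∀ S : Set V, S.Finite → ∃ y ∈ Reach G K ray c d S, A x y}
  have hOcc : g = 0 ∨ (Occ ρ G A K ray c1 d1 g ∧ Occ ρ G A K ray c2 d2 g) := by
    by_cases h0 : N = 0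
    · left
      rw [hg, h0]
      simp
    · right
      have h1 := hfP c1 d1
      have h2 := hfP c2 d2
      rw [e1] at h1
      rw [e2] at h2
      exact ⟨h1.resolve_left h0, h2.resolve_left h0⟩
  have hcell := hCEL ρ V G r A hs T K ray S1 hst c d c1 d1 c2 d2 i0 Lb g (by omega) (by omega) (by omega)
    (by omega) (by omega) (by omega) (by omega) (by omega) (fun x hx => hx) hOcc
  have hineq := hASM ρ V G r A hs K ray hst.rays c d i0 c1 c2 Lb g (by omega) (by omega) (by omega) (by omega)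
    (by omega) (by omega) hcell
  have hNa : N < a := by
    by_contra h
    have h' : N = a := le_antisymm (hfle c d) (not_lt.1 h)
    have : g = ρ := by rw [hg, h', hρ]
    have hL : (0 : ℝ) ≤ (Lb.ncard : ℝ) := Nat.cast_nonneg _
    linarith
  have hnot : ¬ Occ ρ G A K ray c d (((N + 1 : ℕ) : ℝ) / ((b : ℝ) + 1)) := by
    intro h
    have h1 : N + 1 ≤ f c d := Nat.le_findGreatest (by omega) (Or.inr h)
    omega
  have hnot' : ∃ Sg : Set V, Sg.Finite ∧ ∀ F : Set V, F.Finite → F.Nonempty → (nb G F).ncard ≤ 3 →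
      F ∪ nb G F ⊆ Reach G K ray c d Sg → gn ρ G A F < ((N + 1 : ℕ) : ℝ) / ((b : ℝ) + 1) := by
    unfold Occ at hnot
    push Not at hnot
    obtain ⟨Sg, h1, h2⟩ := hnot
    exact ⟨Sg, h1, fun F f1 f2 f3 f4 => h2 F f1 f2 f3 f4⟩
  obtain ⟨Sg, hSg, hgain⟩ := hnot'
  -- labels which do not occur
  have hlab : ∀ x : Fin r, ∃ Sx : Set V, Sx.Finite ∧ (x ∉ Lb → ∀ y ∈ Reach G K ray c d Sx, ¬ A x y) := by
    intro x
    by_cases hx : x ∈ Lb
    · exact ⟨∅, Set.finite_empty, fun h => absurd hx h⟩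
    · have : ∃ Sx : Set V, Sx.Finite ∧ ∀ y ∈ Reach G K ray c d Sx, ¬ A x y := by
        by_contra hc
        push Not at hc
        exact hx fun S hS => hc S hS
      obtain ⟨Sx, h1, h2⟩ := this
      exact ⟨Sx, h1, fun _ => h2⟩
  choose Sl hSl hSl' using hlab
  obtain ⟨S2, hS2, h3⟩ := hNO2 ρ V G r A hs T K ray S1 hst (c + 12 - 12) (c + 12 + 12) (by omega) (by omega) (by omega)
  refine ⟨K, ray, S1, c + 12, Sg ∪ (⋃ x, Sl x) ∪ S2, Lb.ncard, g, hst, by omega, by omega, ?_, ?_⟩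
  · exact (hSg.union (Set.finite_iUnion hSl)).union hS2
  · have m1 : Reach G K ray (c + 12 - 12) (c + 12 + 12) (Sg ∪ (⋃ x, Sl x) ∪ S2) ⊆ Reach G K ray c d Sg :=
      reach_mono (by omega) (by omega) (fun x hx => Or.inl (Or.inl hx))
    have m2 : ∀ x, Reach G K ray (c + 12 - 12) (c + 12 + 12) (Sg ∪ (⋃ x, Sl x) ∪ S2) ⊆ Reach G K ray c d (Sl x) :=
      fun x => reach_mono (by omega) (by omega) (fun y hy => Or.inl (Or.inr (Set.mem_iUnion.2 ⟨x, hy⟩)))
    have m3 : Reach G K ray (c + 12 - 12) (c + 12 + 12) (Sg ∪ (⋃ x, Sl x) ∪ S2) ⊆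
        Reach G K ray (c + 12 - 12) (c + 12 + 12) S2 :=
      reach_mono (by omega) (by omega) (fun y hy => Or.inr hy)
    refine ⟨?_, ?_, ?_, hineq, ?_⟩
    · intro F f1 f2 f3
      exact h3 F f1 f2 (f3.trans m3)
    · intro F f1 f2 f3
      rcases F.eq_empty_or_nonempty with h | h
      · have : gn ρ G A F = 0 := by
          rw [h]
          unfold gn incL inc2 labc
          simp
        rw [this, hg]
        positivity
      · have hlt := hgain F f1 h f2 (f3.trans m1)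
        unfold gn at hlt ⊢
        rw [hρ] at hlt ⊢
        rw [hg, le_div_iff₀ hb]
        rw [lt_div_iff₀ hb] at hlt
        have ee : ((incL G A F : ℝ) - 2 * ((a : ℝ) / ((b : ℝ) + 1)) * (F.ncard : ℝ)) * ((b : ℝ) + 1) =
            (((incL G A F : ℤ) * ((b : ℤ) + 1) - 2 * (a : ℤ) * (F.ncard : ℤ) : ℤ) : ℝ) := by
          push_cast
          field_simp
        rw [ee] at hlt ⊢
        have h4 : ((incL G A F : ℤ) * ((b : ℤ) + 1) - 2 * (a : ℤ) * (F.ncard : ℤ)) < ((N + 1 : ℕ) : ℤ) := by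
          exact_mod_cast hlt
        have h5 : ((incL G A F : ℤ) * ((b : ℤ) + 1) - 2 * (a : ℤ) * (F.ncard : ℤ)) ≤ (N : ℤ) := by
          push_cast at h4
          linarith
        exact_mod_cast h5
    · intro x hx
      apply Set.ncard_le_ncard _ (Set.toFinite _)
      intro y hy
      by_contra hy'
      exact hSl' y hy' x (m2 y hx) hy
    · rw [hg]
      positivity

end Pool.Agent.Work.MP_216d61_lc
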