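import Pool.Agent.Work.MP_216d61_lc_full.OM
import Pool.Agent.Work.MP_216d61_lc_full.Base1

/-!
# MP_216d61_lc full: block REP (few distinct neighbourhoods)
-/

set_option autoImplicit false

namespace Pool.Agent.Work.MP_216d61_lc

open Relation Set

namespace RepAux

/-- number of cliques of a degenerate graph -/
theorem cliques {α : Type*} [DecidableEq α] (R : α → α → Prop) (D : ℕ)
    (h : ∀ W : Finset α, W.Nonempty → ∃ x ∈ W, ∃ N : Finset α, N.card ≤ D ∧
      ∀ y ∈ W, R x y → y ∈ N) :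
    ∀ (n : ℕ) (W : Finset α), W.card = n → ∀ 𝒞 : Finset (Finset α),
      (∀ C ∈ 𝒞, C ⊆ W ∧ ∀ x ∈ C, ∀ y ∈ C, x ≠ y → R x y) → 𝒞.card ≤ 1 + n * 2 ^ D := by
  intro n
  induction n with
  | zero =>
    intro W hW 𝒞 h𝒞
    have h1 : 𝒞 ⊆ {∅} := by
      intro C hC
      have h2 := (h𝒞 C hC).1
      rw [Finset.card_eq_zero.1 hW, Finset.subset_empty] at h2
      rw [h2]; exact Finset.mem_singleton_self _
    have := Finset.card_le_card h1
    simpa using this
  | succ n ih =>
    intro W hW 𝒞 h𝒞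
    obtain ⟨x, hx, N, hN, hxN⟩ := h W (Finset.card_pos.1 (by omega))
    have h1 : (𝒞.filter fun C => x ∉ C).card ≤ 1 + n * 2 ^ D := by
      refine ih (W.erase x) (by rw [Finset.card_erase_of_mem hx, hW]; rfl) _ ?_
      intro C hC
      rw [Finset.mem_filter] at hC
      refine ⟨fun y hy => Finset.mem_erase.2 ⟨?_, (h𝒞 C hC.1).1 hy⟩, (h𝒞 C hC.1).2⟩
      rintro rfl
      exact hC.2 hy
    have h2 : (𝒞.filter fun C => ¬ x ∉ C).card ≤ 2 ^ D := by
      have h3 : (𝒞.filter fun C => ¬ x ∉ C).card ≤ N.powerset.card := by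
        refine Finset.card_le_card_of_injOn (fun C => C.erase x) ?_ ?_
        · intro C hC
          simp only [not_not, Finset.coe_filter, mem_ofPred_eq] at hC
          simp only [Finset.coe_powerset, mem_preimage, mem_powerset_iff, Finset.coe_subset]
          intro y hy
          rw [Finset.mem_erase] at hy
          exact hxN y ((h𝒞 C hC.1).1 hy.2) ((h𝒞 C hC.1).2 x hC.2 y hy.2 hy.1.symm)
        · intro C hC C' hC' hCC
          simp only [not_not, Finset.coe_filter, mem_ofPred_eq] at hC hC'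
          have h4 : C.erase x = C'.erase x := hCC
          rw [← Finset.insert_erase hC.2, h4, Finset.insert_erase hC'.2]
      rw [Finset.card_powerset] at h3
      exact h3.trans (Nat.pow_le_pow_right (by norm_num) hN)
    have h3 := Finset.card_filter_add_card_filter_not (s := 𝒞) (fun C => x ∉ C)
    have h4 : (n + 1) * 2 ^ D = n * 2 ^ D + 2 ^ D := by ring
    omega

/-- a graph in `M_ρ` has a vertex of small degree in every nonempty set -/
theorem low {α : Type} [Fintype α] {Y : SimpleGraph α} {ρ : ℝ} (hY : MR ρ Y)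
    (W : Finset α) (hW : W.Nonempty) : ∃ x ∈ W, ∃ N : Finset α, N.card ≤ ⌊2 * ρ⌋₊ ∧
      ∀ y ∈ W, Y.Adj x y → y ∈ N := by
  classical
  by_contra hcon
  push Not at hcon
  have h1 : ∀ x ∈ W, ⌊2 * ρ⌋₊ + 1 ≤ (W.filter fun y => Y.Adj x y).card := by
    intro x hx
    by_contra h
    push Not at h
    obtain ⟨y, hy, hxy, hyN⟩ := hcon x hx (W.filter fun y => Y.Adj x y) (by omega)
    exact hyN (Finset.mem_filter.2 ⟨hy, hxy⟩)
  set K : SimpleGraph {x // x ∈ W} := Y.comap (fun x : {x // x ∈ W} => (x : α)) with hK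
  have h2 := hY {x // x ∈ W} K (minor_of_inj _ Subtype.val_injective fun _ _ h => h)
  have h3 : e2 K = ∑ x ∈ W, (W.filter fun y => Y.Adj x y).card := by
    rw [e2_eq_sum, ← Finset.sum_coe_sort W]
    refine Finset.sum_congr rfl fun x _ => ?_
    rw [Finset.card_filter, ← Finset.sum_coe_sort W]
    rfl
  have h4 : (⌊2 * ρ⌋₊ + 1) * W.card ≤ e2 K := by
    rw [h3, mul_comm, ← smul_eq_mul]
    exact Finset.card_nsmul_le_sum _ _ _ h1
  have h5 : (Nat.card {x // x ∈ W} : ℝ) = W.card := by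
    rw [Nat.card_eq_fintype_card, Fintype.card_coe]
  rw [h5] at h2
  have h6 : ((⌊2 * ρ⌋₊ : ℝ) + 1) * W.card ≤ 2 * ρ * W.card := by
    refine le_trans ?_ h2
    exact_mod_cast h4
  have h7 : 2 * ρ < (⌊2 * ρ⌋₊ : ℝ) + 1 := Nat.lt_floor_add_one _
  have h8 : (0 : ℝ) < W.card := by exact_mod_cast Finset.card_pos.2 hW
  have h9 := mul_lt_mul_of_pos_right h7 h8
  linarith

end RepAux

open RepAux

theorem stmt_REP : Stmt_REP := by
  intro ρ hρ
  refine ⟨⌊2 * ρ⌋₊ + 2 + 2 ^ ⌊2 * ρ⌋₊, ?_⟩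
  intro V _ G hG Hs m Q hQc hQd hQH hinj
  classical
  have : Fintype V := Fintype.ofFinite V
  set α := {h // h ∈ Hs} with hα
  have : Fintype α := Fintype.ofFinite α
  have hαc : Fintype.card α = Hs.ncard := by
    rw [← Nat.card_eq_fintype_card]
    rfl
  let S : Fin m → Finset α := fun i => Finset.univ.filter fun h => (h : V) ∈ nb G (Q i)
  have hS : ∀ i (h : α), h ∈ S i ↔ (h : V) ∈ nb G (Q i) := fun i h => by simp [S]
  have hSinj : ∀ i j, S i = S j → i = j := by
    intro i j hij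
    apply hinj i j
    ext x
    constructor
    · rintro ⟨h1, h2⟩
      have h3 : (⟨x, h2⟩ : α) ∈ S j := by
        rw [← hij, hS]; exact h1
      exact ⟨(hS j _).1 h3, h2⟩
    · rintro ⟨h1, h2⟩
      have h3 : (⟨x, h2⟩ : α) ∈ S i := by
        rw [hij, hS]; exact h1
      exact ⟨(hS i _).1 h3, h2⟩
  -- maximal partial assignment of pairs
  let P : Finset (Fin m) → Prop := fun J => ∃ e : Fin m → Finset α,
    (∀ i ∈ J, (e i).card = 2 ∧ e i ⊆ S i) ∧ ∀ i ∈ J, ∀ j ∈ J, e i = e j → i = j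
  have hP0 : ((Finset.univ : Finset (Finset (Fin m))).filter P).Nonempty :=
    ⟨∅, Finset.mem_filter.2 ⟨Finset.mem_univ _, fun _ => ∅, by simp, by simp⟩⟩
  obtain ⟨J, hJ, hmax⟩ := Finset.exists_max_image _ Finset.card hP0
  obtain ⟨e, he1, he2⟩ := (Finset.mem_filter.1 hJ).2
  -- the graph
  let Y : SimpleGraph α := SimpleGraph.mk (fun x y => x ≠ y ∧ ∃ i ∈ J, e i = {x, y})
    ⟨by
      rintro x y ⟨h1, i, hi, h2⟩
      exact ⟨h1.symm, i, hi, by rw [h2, Finset.pair_comm]⟩⟩
    ⟨fun x h => h.1 rfl⟩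
  have hYadj : ∀ x y, Y.Adj x y ↔ x ≠ y ∧ ∃ i ∈ J, e i = {x, y} := fun _ _ => Iff.rfl
  have hu : ∀ i : Fin m, ∃ u : Option α, ∀ hi : i ∈ J, ∃ h ∈ e i, u = some h := by
    intro i
    by_cases hi : i ∈ J
    · obtain ⟨h, hh⟩ := Finset.card_pos.1 (by rw [(he1 i hi).1]; norm_num : 0 < (e i).card)
      exact ⟨some h, fun _ => ⟨h, hh, rfl⟩⟩
    · exact ⟨none, fun h => absurd h hi⟩
  choose u hu using hu
  have hYm : Minor Y G := by
    refine Model.minor (f := fun h : α => {(h : V)} ∪ ⋃ i ∈ {i | i ∈ J ∧ u i = some h}, Q i)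
      ⟨?_, ?_, ?_⟩
    · intro h h' hne
      rw [disjoint_left]
      rintro x (hx | hx) (hx' | hx')
      · exact hne (Subtype.ext ((mem_singleton_iff.1 hx).symm.trans (mem_singleton_iff.1 hx')))
      · rw [mem_iUnion₂] at hx'
        obtain ⟨i, _, hi⟩ := hx'
        rw [mem_singleton_iff.1 hx] at hi
        exact disjoint_left.1 (hQH i) hi h.2
      · rw [mem_iUnion₂] at hx
        obtain ⟨i, _, hi⟩ := hx
        rw [mem_singleton_iff.1 hx'] at hi
        exact disjoint_left.1 (hQH i) hi h'.2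
      · rw [mem_iUnion₂] at hx hx'
        obtain ⟨i, hi1, hi⟩ := hx
        obtain ⟨j, hj1, hj⟩ := hx'
        have hij : i ≠ j := by
          rintro rfl
          have h1 : some h = some h' := hi1.2.symm.trans hj1.2
          exact hne (Option.some_injective _ h1)
        exact disjoint_left.1 (hQd i j hij) hi hj
    · intro h
      refine Conn.biUnion (conn_singleton _) (fun i _ => hQc i) ?_
      rintro i ⟨hi, hih⟩
      obtain ⟨h', hh', hu'⟩ := hu i hi
      have : h = h' := Option.some_injective _ (hih.symm.trans hu')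
      subst this
      obtain ⟨_, x, hx, hxy⟩ := (hS i h).1 ((he1 i hi).2 hh')
      exact ⟨x, hx, h, rfl, Or.inr hxy⟩
    · intro h h' hadj
      obtain ⟨hne, i, hi, hei⟩ := (hYadj h h').1 hadj
      have hh : h ∈ e i := by rw [hei]; simp
      have hh' : h' ∈ e i := by rw [hei]; simp
      obtain ⟨w, hw, huw⟩ := hu i hi
      rw [hei, Finset.mem_insert, Finset.mem_singleton] at hw
      rcases hw with rfl | rfl
      · obtain ⟨_, x, hx, hxy⟩ := (hS i h').1 ((he1 i hi).2 hh')
        exact ⟨x, Or.inr (mem_iUnion₂.2 ⟨i, ⟨hi, huw⟩, hx⟩), h', Or.inl rfl, hxy⟩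
      · obtain ⟨_, x, hx, hxy⟩ := (hS i h).1 ((he1 i hi).2 hh)
        exact ⟨h, Or.inl rfl, x, Or.inr (mem_iUnion₂.2 ⟨i, ⟨hi, huw⟩, hx⟩), hxy.symm⟩
  have hYMR : MR ρ Y := hG.minor hYm
  -- the size of J
  have hJc : J.card ≤ e2 Y := by
    have h1 : ∀ i ∈ J, ∃ p : α × α, Y.Adj p.1 p.2 ∧ e i = {p.1, p.2} := by
      intro i hi
      obtain ⟨x, y, hxy, hei⟩ := Finset.card_eq_two.1 (he1 i hi).1
      exact ⟨(x, y), (hYadj x y).2 ⟨hxy, i, hi, hei⟩, hei⟩
    choose p hp1 hp2 using h1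
    rw [e2, ← Finset.card_attach]
    refine Finset.card_le_card_of_injOn (fun i => p i.1 i.2) ?_ ?_
    · intro i _
      simp only [Finset.coe_filter, Finset.mem_univ, true_and, mem_ofPred_eq]
      exact hp1 _ _
    · rintro ⟨i, hi⟩ _ ⟨j, hj⟩ _ hij
      have h2 : p i hi = p j hj := hij
      have h3 : e i = e j := by rw [hp2 i hi, hp2 j hj, h2]
      exact Subtype.ext (he2 i hi j hj h3)
  have hJr : (J.card : ℝ) ≤ 2 * ρ * Hs.ncard := by
    have h1 := hYMR.self
    rw [Nat.card_eq_fintype_card, hαc] at h1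
    have h2 : (J.card : ℝ) ≤ e2 Y := by exact_mod_cast hJc
    exact h2.trans h1
  -- cliques
  have hcl : (Finset.univ \ J).card ≤ 1 + Fintype.card α * 2 ^ ⌊2 * ρ⌋₊ := by
    have h1 : ((Finset.univ \ J).image S).card = (Finset.univ \ J).card :=
      Finset.card_image_of_injective _ hSinj
    rw [← h1]
    refine cliques Y.Adj _ (fun W hW => low hYMR W hW) _ Finset.univ Finset.card_univ _ ?_
    intro C hC
    rw [Finset.mem_image] at hC
    obtain ⟨i, hi, rfl⟩ := hC
    have hiJ : i ∉ J := (Finset.mem_sdiff.1 hi).2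
    refine ⟨Finset.subset_univ _, ?_⟩
    intro x hx y hy hxy
    by_contra hnadj
    have h2 : ∀ j ∈ J, e j ≠ {x, y} := by
      intro j hj hej
      exact hnadj ((hYadj x y).2 ⟨hxy, j, hj, hej⟩)
    have h3 : P (insert i J) := by
      refine ⟨Function.update e i {x, y}, ?_, ?_⟩
      · intro j hj
        by_cases hji : j = i
        · subst hji
          rw [Function.update_self]
          refine ⟨Finset.card_pair hxy, ?_⟩
          intro z hz
          rw [Finset.mem_insert, Finset.mem_singleton] at hz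
          rcases hz with rfl | rfl
          · exact hx
          · exact hy
        · rw [Function.update_of_ne hji]
          exact he1 j ((Finset.mem_insert.1 hj).resolve_left hji)
      · intro j hj k hk hjk
        by_cases hji : j = i
        · by_cases hki : k = i
          · rw [hji, hki]
          · exfalso
            rw [hji, Function.update_self, Function.update_of_ne hki] at hjk
            exact h2 k ((Finset.mem_insert.1 hk).resolve_left hki) hjk.symm
        · by_cases hki : k = i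
          · exfalso
            rw [hki, Function.update_self, Function.update_of_ne hji] at hjk
            exact h2 j ((Finset.mem_insert.1 hj).resolve_left hji) hjk
          · rw [Function.update_of_ne hji, Function.update_of_ne hki] at hjk
            exact he2 j ((Finset.mem_insert.1 hj).resolve_left hji) k
              ((Finset.mem_insert.1 hk).resolve_left hki) hjk
    have h4 := hmax _ (Finset.mem_filter.2 ⟨Finset.mem_univ _, h3⟩)
    rw [Finset.card_insert_of_notMem hiJ] at h4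
    omega
  have hJn : J.card ≤ (⌊2 * ρ⌋₊ + 1) * Hs.ncard := by
    have h1 : 2 * ρ ≤ ((⌊2 * ρ⌋₊ + 1 : ℕ) : ℝ) := by
      push_cast
      exact (Nat.lt_floor_add_one _).le
    have h2 : (J.card : ℝ) ≤ ((⌊2 * ρ⌋₊ + 1 : ℕ) : ℝ) * Hs.ncard :=
      hJr.trans (mul_le_mul_of_nonneg_right h1 (Nat.cast_nonneg _))
    exact_mod_cast h2
  have hm : m = J.card + (Finset.univ \ J).card := by
    have h1 := Finset.card_sdiff_add_card_eq_card (Finset.subset_univ J)
    rw [Finset.card_univ, Fintype.card_fin] at h1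
    omega
  rw [hαc] at hcl
  have h5 : (⌊2 * ρ⌋₊ + 2 + 2 ^ ⌊2 * ρ⌋₊) * (Hs.ncard + 1) =
      (⌊2 * ρ⌋₊ + 1) * Hs.ncard + (1 + Hs.ncard * 2 ^ ⌊2 * ρ⌋₊) +
        (Hs.ncard + ⌊2 * ρ⌋₊ + 1 + 2 ^ ⌊2 * ρ⌋₊) := by ring
  calc m = J.card + (Finset.univ \ J).card := hm
    _ ≤ (⌊2 * ρ⌋₊ + 1) * Hs.ncard + (1 + Hs.ncard * 2 ^ ⌊2 * ρ⌋₊) := Nat.add_le_add hJn hcl
    _ ≤ _ := by rw [h5]; exact Nat.le_add_right _ _

end Pool.Agent.Work.MP_216d61_lc
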