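import Pool.Agent.Work.MP_216d61_lc_full.InterfaceINF

/-!
# Block RGC: the ray graph is connected
-/

set_option autoImplicit false

namespace Pool.Agent.Work.MP_216d61_lc

open Relation Set

namespace RGCaux

variable {V : Type} {G : SimpleGraph V} {k : ℕ} {ray : ℕ → ℕ → V}

theorem lright {S : Set V} {x y : V} (h : Lnk G S x y) : y ∈ S := by
  rcases h.2.cases_tail with h3 | ⟨c, _, h4⟩
  · rw [h3]; exact h.1
  · exact h4.2.2

theorem conn_insert {H : Set V} {x y : V} (hH : Conn G H) (hx : x ∈ H) (ha : G.Adj x y) :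
    Conn G (insert y H) := by
  have hsub : H ⊆ insert y H := subset_insert _ _
  refine conn_of_center (x0 := x) (hsub hx) ?_
  intro z hz
  rcases hz with rfl | hz
  · exact ReflTransGen.single ⟨ha.symm, Or.inl rfl, hsub hx⟩
  · exact link_mono hsub (hH.2 z hz x hx)

theorem conn_single (x : V) : Conn G ({x} : Set V) :=
  conn_of_center (x0 := x) rfl (by rintro z rfl; exact ReflTransGen.refl)

/-- A link between ray vertices of two classes contains a connection between the classes without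
other ray vertices. -/
theorem lkx (hr : IsRays G k ray) (S : Set V) (Pr : ℕ → ℕ → Prop) {i s j t : ℕ} (hi : i < k)
    (hj : j < k) (hP : Pr i s) (hN : ¬ Pr j t) (h : Lnk G S (ray i s) (ray j t)) :
    ∃ i' s' j' t', i' < k ∧ j' < k ∧ Pr i' s' ∧ ¬ Pr j' t' ∧ ∃ H : Set V, H.Finite ∧ Conn G H ∧
      H ⊆ S ∧ ray i' s' ∈ H ∧ ray j' t' ∈ H ∧ ∀ i'' < k, ∀ n, ray i'' n ∈ H →
        (i'' = i' ∧ n = s') ∨ (i'' = j' ∧ n = t') := by
  by_contra hcon
  have key : ∀ y, ReflTransGen (fun a b => G.Adj a b ∧ a ∈ S ∧ b ∈ S) (ray i s) y →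
      y ∈ S ∧ ∃ a s', a < k ∧ Pr a s' ∧ ∃ H : Set V, H.Finite ∧ Conn G H ∧ H ⊆ S ∧ ray a s' ∈ H ∧
        y ∈ H ∧ ∀ i'' < k, ∀ n, ray i'' n ∈ H → (i'' = a ∧ n = s') ∨ ray i'' n = y := by
    intro y hy
    induction hy with
    | refl =>
      refine ⟨h.1, i, s, hi, hP, {ray i s}, finite_singleton _, conn_single _,
        singleton_subset_iff.2 h.1, rfl, rfl, ?_⟩
      intro i'' _ n hn
      exact Or.inr hn
    | @tail y z _ hyz ih =>
      obtain ⟨hyS, a, s', ha, hPa, H, hHf, hHc, hHS, hHa, hHy, hHr⟩ := ih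
      refine ⟨hyz.2.2, ?_⟩
      by_cases hy : ∃ a' n, a' < k ∧ y = ray a' n ∧ ¬ (a' = a ∧ n = s')
      · obtain ⟨a', n, ha', rfl, hne⟩ := hy
        by_cases hPa' : Pr a' n
        · refine ⟨a', n, ha', hPa', insert z {ray a' n}, (finite_singleton _).insert _,
            conn_insert (conn_single _) rfl hyz.1, ?_, Or.inr rfl, Or.inl rfl, ?_⟩
          · intro w hw
            rcases hw with rfl | rfl
            · exact hyz.2.2
            · exact hyS
          · intro i'' hi'' m hm
            rcases hm with hm | hm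
            · exact Or.inr hm
            · exact Or.inl (hr.inj i'' hi'' a' ha' m n hm)
        · exfalso
          apply hcon
          refine ⟨a, s', a', n, ha, ha', hPa, hPa', H, hHf, hHc, hHS, hHa, hHy, ?_⟩
          intro i'' hi'' m hm
          rcases hHr i'' hi'' m hm with h1 | h1
          · exact Or.inl h1
          · exact Or.inr (hr.inj i'' hi'' a' ha' m n h1)
      · refine ⟨a, s', ha, hPa, insert z H, hHf.insert _, conn_insert hHc hHy hyz.1, ?_,
          Or.inr hHa, Or.inl rfl, ?_⟩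
        · intro w hw
          rcases hw with rfl | hw
          · exact hyz.2.2
          · exact hHS hw
        · intro i'' hi'' m hm
          rcases hm with hm | hm
          · exact Or.inr hm
          · rcases hHr i'' hi'' m hm with h1 | h1
            · exact Or.inl h1
            · left
              by_contra hne
              exact hy ⟨i'', m, hi'', h1.symm, hne⟩
  obtain ⟨_, a, s', ha, hPa, H, hHf, hHc, hHS, hHa, hHy, hHr⟩ := key _ h.2
  apply hcon
  refine ⟨a, s', j, t, ha, hj, hPa, hN, H, hHf, hHc, hHS, hHa, hHy, ?_⟩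
  intro i'' hi'' m hm
  rcases hHr i'' hi'' m hm with h1 | h1
  · exact Or.inl h1
  · exact Or.inr (hr.inj i'' hi'' j hj m t h1)

/-- Every ray leaves every finite set. -/
theorem ray_out (hr : IsRays G k ray) {i : ℕ} (hi : i < k) {Y : Set V} (hY : Y.Finite) :
    ∃ n, ray i n ∉ Y := by
  by_contra hcon
  push Not at hcon
  have hinj : Function.Injective (ray i) := fun m n h => (hr.inj i hi i hi m n h).2
  have : (range (ray i)).Finite := hY.subset (by rintro _ ⟨n, rfl⟩; exact hcon n)
  exact (infinite_range_of_injective hinj) this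

end RGCaux

open RGCaux in
theorem stmt_RGC : Stmt_RGC := by
  classical
  intro ρ V G r A hL k ray hr i hi j hj
  by_contra hij
  set R : ℕ → ℕ → Prop := fun a b => a < k ∧ b < k ∧ a ≠ b ∧ RA G k ray a b with hR
  -- finite sets without connections
  have hS : ∀ a b : ℕ, ∃ S : Set V, S.Finite ∧ (a < k → b < k → a ≠ b → ReflTransGen R i a →
      ¬ ReflTransGen R i b → ∀ s t, ¬ Lk1 G k ray S a s b t) := by
    intro a b
    by_cases h : a < k ∧ b < k ∧ a ≠ b ∧ ReflTransGen R i a ∧ ¬ ReflTransGen R i b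
    · obtain ⟨ha, hb, hab, h1, h2⟩ := h
      have h3 : ¬ RA G k ray a b := fun h4 => h2 (h1.tail ⟨ha, hb, hab, h4⟩)
      unfold RA at h3
      push Not at h3
      obtain ⟨S, hSf, hS⟩ := h3
      exact ⟨S, hSf, fun _ _ _ _ _ => hS⟩
    · exact ⟨∅, finite_empty, fun h1 h2 h3 h4 h5 => absurd ⟨h1, h2, h3, h4, h5⟩ h⟩
  choose S hSf hS using hS
  set S0 : Set V := ⋃ a ∈ Finset.range k, ⋃ b ∈ Finset.range k, S a b with hS0
  have hS0f : S0.Finite := by
    refine Finite.biUnion (Finset.finite_toSet _) fun a _ => ?_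
    exact Finite.biUnion (Finset.finite_toSet _) fun b _ => hSf a b
  obtain ⟨Y, hYf, hYS, hY⟩ := hL.e1 S0 hS0f
  obtain ⟨s, hs⟩ := ray_out hr hi hYf
  obtain ⟨t, ht⟩ := ray_out hr hj hYf
  have hl := hY _ _ hs ht
  obtain ⟨i', s', j', t', hi', hj', hP, hN, H, hHf, hHc, hHS, h1, h2, h3⟩ :=
    lkx hr S0ᶜ (fun a _ => ReflTransGen R i a) hi hj ReflTransGen.refl hij hl
  have hne : i' ≠ j' := by
    rintro rfl
    exact hN hP
  refine hS i' j' hi' hj' hne hP hN s' t' ⟨H, hHf, hHc, ?_, h1, h2, h3⟩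
  rw [disjoint_left]
  intro x hx hx2
  apply hHS hx
  rw [hS0]
  simp only [mem_iUnion, Finset.mem_range]
  exact ⟨i', hi', j', hj', hx2⟩

end Pool.Agent.Work.MP_216d61_lc
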