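import Pool.Agent.Work.MP_216d61_lc_full.MOV

/-!
# Block STAR : a ray with many neighbours in the ray graph
-/

set_option autoImplicit false

namespace Pool.Agent.Work.MP_216d61_lc

open Relation Set

namespace STARaux

variable {V : Type} {G : SimpleGraph V} {k : ℕ} {ray : ℕ → ℕ → V} {T : ℕ}

theorem lk1_symm {S : Set V} {i s j t : ℕ} (h : Lk1 G k ray S i s j t) : Lk1 G k ray S j t i s := by
  obtain ⟨H, h1, h2, h3, h4, h5, h6⟩ := h
  exact ⟨H, h1, h2, h3, h5, h4, fun i' hi' n hn => (h6 i' hi' n hn).symm⟩

theorem ra_symm {i j : ℕ} (h : RA G k ray i j) : RA G k ray j i := by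
  intro S hS
  obtain ⟨s, t, h1⟩ := h S hS
  exact ⟨t, s, lk1_symm h1⟩

theorem tok_mono {c : Fin T → ℕ} {E E' : Fin T → Fin T → Prop} (h : Tok G k ray c E)
    (hE : ∀ i j, E' i j → E i j) : Tok G k ray c E' := by
  obtain ⟨h1, h2, B, p, h3, h4, h5, h6, h7⟩ := h
  exact ⟨h1, h2, B, p, h3, h4, h5, h6, fun i j hij => h7 i j (hE i j hij)⟩

/-- It is enough to be able to add every contact. -/
theorem minor_of_contacts (hM : Stmt_MOV) (hr : IsRays G k ray) {c : Fin T → ℕ}
    (hinj : Function.Injective c) (hk : ∀ t, c t < k)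
    (hc : ∀ (E : Fin T → Fin T → Prop) (t t' : Fin T), t ≠ t' → Tok G k ray c E →
      Tok G k ray c fun i j => E i j ∨ (i = t ∧ j = t') ∨ (i = t' ∧ j = t)) :
    Minor (⊤ : SimpleGraph (Fin T)) G := by
  classical
  obtain ⟨m1, -, -, -, m5⟩ := hM V G k ray T hr
  have key : ∀ L : List (Fin T × Fin T), (∀ x ∈ L, x.1 ≠ x.2) →
      Tok G k ray c fun i j => (i, j) ∈ L := by
    intro L
    induction L with
    | nil =>
      intro _
      exact tok_mono (m1 c hinj hk) (fun i j h => by simp at h)
    | cons x L ih =>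
      intro hL
      have h1 := hc _ x.1 x.2 (hL x List.mem_cons_self)
        (ih fun y hy => hL y (List.mem_cons_of_mem _ hy))
      refine tok_mono h1 ?_
      intro i j hij
      rcases List.mem_cons.1 hij with h2 | h2
      · right; left
        rw [← h2]
        exact ⟨rfl, rfl⟩
      · exact Or.inl h2
  have h1 := key (Finset.univ.filter fun x : Fin T × Fin T => x.1 ≠ x.2).toList (by
    intro x hx
    rw [Finset.mem_toList, Finset.mem_filter] at hx
    exact hx.2)
  apply m5 c _ h1
  intro i j hij
  rw [Finset.mem_toList, Finset.mem_filter]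
  exact ⟨Finset.mem_univ _, hij⟩

end STARaux

open STARaux

theorem stmt_STAR (hM : Stmt_MOV) : Stmt_STAR := by
  classical
  intro V G k ray T z l hr hz hinj hl hra
  obtain ⟨-, m2, m3, -, -⟩ := hM V G k ray T hr
  apply minor_of_contacts hM hr hinj (fun t => (hl t).1)
  intro E t t' htt h
  have h1 := m2 l E t z h hz (fun t1 => (hl t1).2) (hra t)
  have h2 := m3 (Function.update l t z) E t t' h1 htt (by
    rw [Function.update_self, Function.update_of_ne htt.symm]
    exact ra_symm (hra t'))
  have h3 := m2 _ _ t (l t) h2 (hl t).1 (by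
    intro t1
    by_cases h4 : t1 = t
    · rw [h4, Function.update_self]
      exact (hl t).2.symm
    · rw [Function.update_of_ne h4]
      exact fun h5 => h4 (hinj h5)) (by
    rw [Function.update_self]
    exact ra_symm (hra t))
  rwa [Function.update_idem, Function.update_eq_self] at h3

end Pool.Agent.Work.MP_216d61_lc
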