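import Pool.Agent.Work.MP_216d61_lc_full.Base1
import Pool.Agent.Work.MP_216d61_lc_full.BASE2

/-!
# Block STRIP
-/

set_option autoImplicit false

namespace Pool.Agent.Work.MP_216d61_lc

open Relation Set

namespace StripAux

/-- balls in a graph of small degree are small -/
theorem far {k : ℕ} (R : SimpleGraph (Fin k)) [DecidableRel R.Adj] (T n : ℕ)
    (hdeg : ∀ z, R.degree z < T) (hc : R.Connected) (hk : T ^ n < k) (x : Fin k) :
    ∃ y, n < R.dist x y := by
  classical
  by_contra hcon
  push Not at hcon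
  let F : ℕ → Finset (Fin k) := fun m => Nat.rec {x}
    (fun _ s => s.biUnion fun z => insert z (R.neighborFinset z)) m
  have F0 : F 0 = {x} := rfl
  have Fs : ∀ m, F (m + 1) = (F m).biUnion fun z => insert z (R.neighborFinset z) := fun m => rfl
  have hcard : ∀ m, (F m).card ≤ T ^ m := by
    intro m
    induction m with
    | zero => simp [F0]
    | succ m ih =>
      rw [Fs, pow_succ]
      refine (Finset.card_biUnion_le_card_mul _ _ T ?_).trans (Nat.mul_le_mul_right T ih)
      intro z _
      have h1 := Finset.card_insert_le z (R.neighborFinset z)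
      have h2 := hdeg z
      rw [← R.card_neighborFinset_eq_degree] at h2
      omega
  have hmono : ∀ m, F m ⊆ F (m + 1) := by
    intro m z hz
    rw [Fs]
    exact Finset.mem_biUnion.2 ⟨z, hz, Finset.mem_insert_self _ _⟩
  have hmono' : ∀ a b, a ≤ b → F a ⊆ F b := by
    intro a b hab
    induction b, hab using Nat.le_induction with
    | base => exact fun _ h => h
    | succ b _ ih => exact fun z hz => hmono b (ih hz)
  have hwalk : ∀ m z (p : R.Walk x z), p.length = m → z ∈ F m := by
    intro m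
    induction m with
    | zero =>
      intro z p hp
      have := p.eq_of_length_eq_zero hp
      subst this
      simp [F0]
    | succ m ih =>
      intro z p hp
      have h1 : (p.take m).length = m := by
        rw [SimpleGraph.Walk.take_length]
        omega
      have h2 := ih _ _ h1
      have h3 := p.adj_getVert_succ (i := m) (by omega)
      have h4 : p.getVert (m + 1) = z := by
        rw [← hp]
        exact p.getVert_length
      rw [h4] at h3
      rw [Fs]
      exact Finset.mem_biUnion.2 ⟨_, h2, Finset.mem_insert_of_mem (by simpa using h3)⟩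
  have hall : ∀ z, z ∈ F n := by
    intro z
    obtain ⟨p, hp⟩ := hc.exists_walk_length_eq_dist x z
    exact hmono' _ _ (hcon z) (hwalk _ z p hp)
  have h1 : (F n) = Finset.univ := Finset.eq_univ_iff_forall.2 hall
  have h2 := hcard n
  rw [h1, Finset.card_univ, Fintype.card_fin] at h2
  omega

/-- a geodesic -/
theorem geod {k : ℕ} (R : SimpleGraph (Fin k)) (hc : R.Connected) {x y : Fin k} {n : ℕ}
    (h : n ≤ R.dist x y) : ∃ u : ℕ → Fin k, (∀ i ≤ n, R.dist x (u i) = i) ∧
      ∀ i < n, R.Adj (u i) (u (i + 1)) := by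
  obtain ⟨p, hp⟩ := hc.exists_walk_length_eq_dist x y
  refine ⟨fun i => p.getVert i, ?_, fun i hi => p.adj_getVert_succ (by omega)⟩
  intro i hi
  show R.dist x (p.getVert i) = i
  have h1 : R.dist x (p.getVert i) ≤ i := by
    refine (R.dist_le (p.take i)).trans ?_
    rw [SimpleGraph.Walk.take_length]
    omega
  have h2 : R.dist (p.getVert i) y ≤ p.length - i := by
    refine (R.dist_le (p.drop i)).trans ?_
    rw [SimpleGraph.Walk.drop_length]
  have h3 := hc.dist_triangle (u := x) (v := p.getVert i) (w := y)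
  omega

theorem dist_adj {k : ℕ} (R : SimpleGraph (Fin k)) (hc : R.Connected) {x a b : Fin k}
    (h : R.Adj a b) : R.dist x b ≤ R.dist x a + 1 := by
  refine (hc.dist_triangle (v := a)).trans (Nat.add_le_add_left ?_ _)
  exact (R.dist_le h.toWalk).trans (by simp)

/-- the exchange of two tokens at a junction of the path with a ray outside the path -/
theorem swap (hMOV : Stmt_MOV) {V : Type} {G : SimpleGraph V} {k : ℕ} {ray : ℕ → ℕ → V} {T : ℕ}
    (hR : IsRays G k ray) {K l w : ℕ} {u : ℕ → ℕ} (hu : ∀ i < K, u i < k)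
    (hinj : ∀ i < K, ∀ j < K, u i = u j → i = j)
    (hra : ∀ i, i + 1 < K → RA G k ray (u i) (u (i + 1))) (hl : 1 ≤ l) (hlK : l + 1 < K)
    (hw : w < k) (hwu : ∀ i < K, u i ≠ w) (hlw : RA G k ray (u l) w)
    (f : Fin T → ℕ) (E : Fin T → Fin T → Prop) (t t' : Fin T) (htt : t ≠ t')
    (hf : ∀ i, f i < K) (hft : f t = l - 1) (hft' : f t' = l + 1)
    (hoth : ∀ i, i ≠ t → i ≠ t' → f i < l - 1 ∨ l + 1 < f i)
    (htok : Tok G k ray (fun i => u (f i)) E) :
    Tok G k ray
      (fun i => u (Function.update (Function.update f t (l + 1)) t' (l - 1) i)) E := by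
  classical
  have step := (hMOV V G k ray T hR).2.1
  let cf : ℕ → ℕ → Fin T → ℕ := fun x y i => if i = t then x else if i = t' then y else u (f i)
  have cfo : ∀ x y i, i ≠ t → i ≠ t' → cf x y i = u (f i) := by
    intro x y i h1 h2
    simp [cf, h1, h2]
  have cft : ∀ x y, cf x y t = x := by intro x y; simp [cf]
  have cft' : ∀ x y, cf x y t' = y := by intro x y; simp [cf, htt.symm]
  have free : ∀ x y b, x ≠ b → y ≠ b → (∀ i, i ≠ t → i ≠ t' → u (f i) ≠ b) →
      ∀ i, cf x y i ≠ b := by
    intro x y b hx hy h i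
    by_cases h1 : i = t
    · subst h1; rw [cft]; exact hx
    by_cases h2 : i = t'
    · subst h2; rw [cft']; exact hy
    rw [cfo x y i h1 h2]
    exact h i h1 h2
  have mt : ∀ x y x', Tok G k ray (cf x y) E → x' < k → x ≠ x' → y ≠ x' →
      (∀ i, i ≠ t → i ≠ t' → u (f i) ≠ x') → RA G k ray x x' → Tok G k ray (cf x' y) E := by
    intro x y x' hT hx' h1 h2 h3 h4
    have h5 := step (cf x y) E t x' hT hx' (free x y x' h1 h2 h3) (by rw [cft]; exact h4)
    have h6 : Function.update (cf x y) t x' = cf x' y := by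
      funext i
      by_cases hi : i = t
      · subst hi; rw [Function.update_self, cft]
      · rw [Function.update_of_ne hi]
        simp [cf, hi]
    rwa [h6] at h5
  have mt' : ∀ x y y', Tok G k ray (cf x y) E → y' < k → x ≠ y' → y ≠ y' →
      (∀ i, i ≠ t → i ≠ t' → u (f i) ≠ y') → RA G k ray y y' → Tok G k ray (cf x y') E := by
    intro x y y' hT hy' h1 h2 h3 h4
    have h5 := step (cf x y) E t' y' hT hy' (free x y y' h1 h2 h3) (by rw [cft']; exact h4)
    have h6 : Function.update (cf x y) t' y' = cf x y' := by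
      funext i
      by_cases hi : i = t'
      · subst hi; rw [Function.update_self, cft']
      · rw [Function.update_of_ne hi]
        simp [cf, hi]
    rwa [h6] at h5
  have une : ∀ a b, a < K → b < K → a ≠ b → u a ≠ u b := fun a b ha hb hab he =>
    hab (hinj a ha b hb he)
  have o1 : ∀ i, i ≠ t → i ≠ t' → u (f i) ≠ u l := by
    intro i h1 h2
    have := hoth i h1 h2
    exact une _ _ (hf i) (by omega) (by omega)
  have o2 : ∀ i, i ≠ t → i ≠ t' → u (f i) ≠ u (l - 1) := by
    intro i h1 h2
    have := hoth i h1 h2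
    exact une _ _ (hf i) (by omega) (by omega)
  have o3 : ∀ i, i ≠ t → i ≠ t' → u (f i) ≠ u (l + 1) := by
    intro i h1 h2
    have := hoth i h1 h2
    exact une _ _ (hf i) (by omega) (by omega)
  have ow : ∀ i, i ≠ t → i ≠ t' → u (f i) ≠ w := fun i _ _ => hwu _ (hf i)
  have ra1 : RA G k ray (u (l - 1)) (u l) := by
    have := hra (l - 1) (by omega)
    rwa [Nat.sub_add_cancel hl] at this
  have ra2 : RA G k ray (u l) (u (l + 1)) := hra l hlK
  have h0 : (fun i => u (f i)) = cf (u (l - 1)) (u (l + 1)) := by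
    funext i
    by_cases h1 : i = t
    · subst h1; rw [cft, hft]
    by_cases h2 : i = t'
    · subst h2; rw [cft', hft']
    rw [cfo _ _ i h1 h2]
  rw [h0] at htok
  have e1 := mt _ _ (u l) htok (hu l (by omega)) (une _ _ (by omega) (by omega) (by omega))
    (une _ _ (by omega) (by omega) (by omega)) o1 ra1
  have e2 := mt _ _ w e1 hw (hwu l (by omega)) (hwu (l + 1) (by omega)) ow hlw
  have e3 := mt' _ _ (u l) e2 (hu l (by omega)) (hwu l (by omega)).symm
    (une _ _ (by omega) (by omega) (by omega)) o1 ra2.symm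
  have e4 := mt' _ _ (u (l - 1)) e3 (hu _ (by omega)) (hwu (l - 1) (by omega)).symm
    (une _ _ (by omega) (by omega) (by omega)) o2 ra1.symm
  have e5 := mt _ _ (u l) e4 (hu l (by omega)) (hwu l (by omega)).symm
    (une _ _ (by omega) (by omega) (by omega)) o1 hlw.symm
  have e6 := mt _ _ (u (l + 1)) e5 (hu _ (by omega)) (une _ _ (by omega) (by omega) (by omega))
    (une _ _ (by omega) (by omega) (by omega)) o3 ra2
  have h7 : (fun i => u (Function.update (Function.update f t (l + 1)) t' (l - 1) i)) =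
      cf (u (l + 1)) (u (l - 1)) := by
    funext i
    by_cases h1 : i = t
    · subst h1
      rw [Function.update_of_ne htt, Function.update_self, cft]
    by_cases h2 : i = t'
    · subst h2
      rw [Function.update_self, cft']
    rw [Function.update_of_ne h2, Function.update_of_ne h1, cfo _ _ i h1 h2]
  rw [h7]
  exact e6

theorem hat_minor {V : Type} {G : SimpleGraph V} {r : ℕ} {A : Fin r → V → Prop} :
    Minor G (Hat G A) := by
  refine Model.minor (f := fun v => {Sum.inr v}) ⟨?_, ?_, ?_⟩
  · intro i j hij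
    rw [disjoint_left]
    rintro x hx hx'
    rw [mem_singleton_iff] at hx hx'
    exact hij (Sum.inr_injective (hx.symm.trans hx'))
  · exact fun i => conn_singleton _
  · intro i j hij
    exact ⟨_, rfl, _, rfl, hij⟩

end StripAux

open StripAux

theorem stmt_STRIP (hRAYS : Stmt_RAYS) (hRGC : Stmt_RGC) (hSTAR : Stmt_STAR) (hSWP : Stmt_SWP)
    (hMOV : Stmt_MOV) : Stmt_STRIP := by
  intro ρ V G r A hS T hT K
  classical
  have hρ : 0 ≤ ρ := by
    obtain ⟨a, b, rfl⟩ := hS.rat
    positivity
  have hT1 : 1 ≤ T := by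
    have : (1 : ℝ) < T := by linarith
    exact_mod_cast this.le
  have noT : ¬ Minor (⊤ : SimpleGraph (Fin T)) G := by
    intro hm
    exact top_not_MR hT1 hT (hS.mr.minor (hm.trans hat_minor))
  -- many rays
  obtain ⟨k, hk⟩ : ∃ k, T ^ K < k := ⟨_, Nat.lt_succ_self _⟩
  obtain ⟨ray, hR⟩ := hRAYS ρ V G r A hS k
  have hk0 : 0 < k := lt_of_le_of_lt (Nat.zero_le _) hk
  have : Nonempty (Fin k) := ⟨⟨0, hk0⟩⟩
  let RG : SimpleGraph (Fin k) :=
    { Adj := fun a b => a ≠ b ∧ RA G k ray a b
      symm := ⟨fun a b h => ⟨h.1.symm, h.2.symm⟩⟩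
      loopless := ⟨fun a h => h.1 rfl⟩ }
  have hdeg : ∀ z, RG.degree z < T := by
    intro z
    by_contra hz
    push Not at hz
    have hc : Fintype.card (Fin T) ≤ Fintype.card (RG.neighborSet z) := by
      rw [SimpleGraph.card_neighborSet_eq_degree, Fintype.card_fin]
      exact hz
    obtain ⟨e⟩ := Function.Embedding.nonempty_of_card_le hc
    refine noT (hSTAR V G k ray T z (fun t => ((e t : Fin k) : ℕ)) hR z.2 ?_ ?_ ?_)
    · intro a b hab
      exact e.injective (Subtype.ext (Fin.ext hab))
    · intro t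
      refine ⟨(e t : Fin k).2, fun h => ?_⟩
      have h1 : RG.Adj z (e t) := (e t).2
      exact h1.1 (Fin.ext h.symm)
    · intro t
      have h1 : RG.Adj z (e t) := (e t).2
      exact h1.2.symm
  have hconn : RG.Connected := by
    refine ⟨?_⟩
    intro i j
    have h1 := hRGC ρ V G r A hS.toLim k ray hR i i.2 j j.2
    have key : ∀ m, ReflTransGen (fun a b => a < k ∧ b < k ∧ a ≠ b ∧ RA G k ray a b) (i : ℕ) m →
        ∀ hm : m < k, RG.Reachable i ⟨m, hm⟩ := by
      intro m hm
      induction hm with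
      | refl => intro _; exact SimpleGraph.Reachable.refl _
      | @tail b c _ h ih =>
        intro hc
        refine (ih h.1).trans (SimpleGraph.Adj.reachable ?_)
        exact ⟨fun e => h.2.2.1 (congrArg Fin.val e), h.2.2.2⟩
    exact key j h1 j.2
  -- the geodesic
  obtain ⟨y, hy⟩ := far RG T K hdeg hconn hk ⟨0, hk0⟩
  obtain ⟨uF, hud, hua⟩ := geod RG hconn (n := K) hy.le
  set x0 : Fin k := ⟨0, hk0⟩ with hx0
  let u : ℕ → ℕ := fun i => (uF i : ℕ)
  have hu : ∀ i, u i < k := fun i => (uF i).2
  have hinj : ∀ i ≤ K, ∀ j ≤ K, u i = u j → i = j := by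
    intro i hi j hj h
    have h1 : uF i = uF j := Fin.ext h
    have h2 := hud i hi
    rw [h1, hud j hj] at h2
    exact h2.symm
  have hra : ∀ i < K, RA G k ray (u i) (u (i + 1)) := fun i hi => (hua i hi).2
  have hnear : ∀ i ≤ K, ∀ j ≤ K, u i ≠ u j → RA G k ray (u i) (u j) → j ≤ i + 1 := by
    intro i hi j hj hne h
    have h1 := dist_adj RG hconn (x := x0) (a := uF i) (b := uF j)
      ⟨fun e => hne (congrArg Fin.val e), h⟩
    rw [hud i hi, hud j hj] at h1
    exact h1
  -- the finite set
  have hSf : ∀ a b : ℕ, ∃ S : Set V, S.Finite ∧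
      (¬ RA G k ray a b → ∀ s t, ¬ Lk1 G k ray S a s b t) := by
    intro a b
    by_cases h : RA G k ray a b
    · exact ⟨∅, finite_empty, fun h' => absurd h h'⟩
    · unfold RA at h
      push Not at h
      obtain ⟨S, hS, hst⟩ := h
      exact ⟨S, hS, fun _ => hst⟩
  choose Sf hSfin hSno using hSf
  set S1 : Set V := ⋃ a ∈ Iio k, ⋃ b ∈ Iio k, Sf a b with hS1
  have hS1fin : S1.Finite := (finite_Iio k).biUnion fun a _ => (finite_Iio k).biUnion
    fun b _ => hSfin a b
  have hS1ra : ∀ a < k, ∀ b < k, ∀ s t, Lk1 G k ray S1 a s b t → RA G k ray a b := by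
    intro a ha b hb s t h
    by_contra hcon
    refine hSno a b hcon s t (h.mono ?_)
    intro z hz
    exact mem_biUnion (show a ∈ Iio k from ha) (mem_biUnion (show b ∈ Iio k from hb) hz)
  refine ⟨fun i => ray (u i), S1, ⟨?_, ?_, hS1fin, ?_, noT⟩⟩
  · refine ⟨?_, fun i hi n => hR.adj _ (hu i) n⟩
    intro i hi j hj m n h
    obtain ⟨h1, h2⟩ := hR.inj _ (hu i) _ (hu j) m n h
    exact ⟨hinj i hi.le j hj.le h1, h2⟩
  · intro i hi S hSfin
    obtain ⟨s, t, H, h1, h2, h3, h4, h5, h6⟩ := hra i (by omega) S hSfin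
    refine ⟨s, t, H, h1, h2, h3, h4, h5, ?_⟩
    intro i' hi' n hn
    rcases h6 (u i') (hu i') n hn with h7 | h7
    · exact Or.inl ⟨hinj _ hi'.le _ (by omega) h7.1, h7.2⟩
    · exact Or.inr ⟨hinj _ hi'.le _ hi.le h7.1, h7.2⟩
  · intro l s j t hl1 hl2 hj hlk
    by_contra hcon
    push Not at hcon
    obtain ⟨hc1, hc2, hc3⟩ := hcon
    obtain ⟨H, hHf, hHc, hHS, hs, ht, hH⟩ := hlk
    have hlK : l ≤ K := by omega
    have hne : u j ≠ u l := fun h => hc1 (hinj j hj.le l hlK h)
    obtain ⟨i', s', w, t', a1, a2, a3, a4, a5, a6, a7⟩ := exists_lk1 hR hHc hHS (hu l) (hu j) hs ht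
      (fun i _ => i = u l) rfl hne
    subst a5
    have hlw : RA G k ray (u l) w := hS1ra _ (hu l) w a2 _ _ a7
    have hwu : ∀ i < K, u i ≠ w := by
      intro i hi hiw
      subst hiw
      have hil : i ≠ l := fun e => a6 (by rw [e])
      rcases hH i hi t' a4 with h7 | h7
      · exact hil h7.1
      · have hij := h7.1
        subst hij
        have h8 := hnear l hlK i hi.le (Ne.symm hne) hlw
        have h9 := hnear i hi.le l hlK hne hlw.symm
        omega
    refine noT (hSWP V G k ray T K u (l - 1) (l + 1) (l - 1) (l + 1) hR (fun i _ => hu i)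
      (fun i hi j hj => hinj i hi.le j hj.le) (fun i hi => hra i (by omega)) (by omega) le_rfl
      (by omega) le_rfl (by omega) ?_)
    intro f E t1 t2 htt hf hc hd hoth htok
    exact swap hMOV hR (K := K) (l := l) (w := w) (u := u) (fun i _ => hu i)
      (fun i hi j hj => hinj i hi.le j hj.le) (fun i hi => hra i (by omega)) (by omega) (by omega)
      a2 hwu hlw f E t1 t2 htt hf hc hd hoth htok

end Pool.Agent.Work.MP_216d61_lc
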