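import Pool.Agent.Work.MP_216d61_lc_full.STAR

/-!
# Block SWP : tokens on a path of rays with a possibility to exchange two tokens
-/

set_option autoImplicit false

namespace Pool.Agent.Work.MP_216d61_lc

open Relation Set

namespace SWPaux

open STARaux

variable {V : Type} {G : SimpleGraph V} {k : ℕ} {ray : ℕ → ℕ → V} {T : ℕ}

/-- two placements of the tokens which can be transformed into each other -/
def Rel (G : SimpleGraph V) (k : ℕ) (ray : ℕ → ℕ → V) (u : ℕ → ℕ) (f g : Fin T → ℕ) : Prop :=
  ∀ E : Fin T → Fin T → Prop, Tok G k ray (fun i => u (f i)) E ↔ Tok G k ray (fun i => u (g i)) E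

theorem Rel.refl (u : ℕ → ℕ) (f : Fin T → ℕ) : Rel G k ray u f f := fun _ => Iff.rfl

theorem Rel.symm {u : ℕ → ℕ} {f g : Fin T → ℕ} (h : Rel G k ray u f g) : Rel G k ray u g f :=
  fun E => (h E).symm

theorem Rel.trans {u : ℕ → ℕ} {f g h : Fin T → ℕ} (h1 : Rel G k ray u f g)
    (h2 : Rel G k ray u g h) : Rel G k ray u f h := fun E => (h1 E).trans (h2 E)

/-- Moving one token to an adjacent free place. -/
theorem rel_step (hM : Stmt_MOV) (hr : IsRays G k ray) {K : ℕ} {u : ℕ → ℕ}
    (hu : ∀ i < K, u i < k) (hinj : ∀ i < K, ∀ j < K, u i = u j → i = j)
    (hra : ∀ i, i + 1 < K → RA G k ray (u i) (u (i + 1))) {f : Fin T → ℕ}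
    (hfi : Function.Injective f) (hf : ∀ i, f i < K) (t : Fin T) {q : ℕ} (hq : f t = q + 1) (hfree : ∀ i, f i ≠ q) :
    Rel G k ray u f (Function.update f t q) := by
  classical
  obtain ⟨-, m2, -, -, -⟩ := hM V G k ray T hr
  have hqK : q + 1 < K := by rw [← hq]; exact hf t
  have e1 : ∀ (g : Fin T → ℕ) (x : ℕ), (fun i => u (Function.update g t x i)) =
      Function.update (fun i => u (g i)) t (u x) := by
    intro g x
    funext i
    by_cases hi : i = t
    · rw [hi, Function.update_self, Function.update_self]
    · rw [Function.update_of_ne hi, Function.update_of_ne hi]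
  intro E
  constructor
  · intro h
    rw [e1]
    refine m2 _ E t (u q) h (hu q (by omega)) ?_ ?_
    · intro i h1
      exact hfree i (hinj _ (hf i) _ (by omega) h1)
    · rw [hq]
      exact ra_symm (hra q hqK)
  · intro h
    have h1 := m2 _ E t (u (q + 1)) h (hu _ hqK) ?_ ?_
    · rw [e1, Function.update_idem] at h1
      have h2 : Function.update (fun i => u (f i)) t (u (q + 1)) = fun i => u (f i) := by
        rw [← hq]
        exact Function.update_eq_self t (fun i => u (f i))
      rwa [h2] at h1
    · intro i
      by_cases hi : i = t
      · rw [hi, Function.update_self]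
        intro h2
        have := hinj _ (by omega) _ hqK h2
        omega
      · rw [Function.update_of_ne hi]
        intro h2
        have h3 := hinj _ (hf i) _ hqK h2
        exact hi (hfi (h3.trans hq.symm))
    · rw [Function.update_self]
      exact hra q hqK

/-- All monotone placements with the same order are equivalent. -/
theorem relA (hM : Stmt_MOV) (hr : IsRays G k ray) {K : ℕ} {u : ℕ → ℕ}
    (hu : ∀ i < K, u i < k) (hinj : ∀ i < K, ∀ j < K, u i = u j → i = j)
    (hra : ∀ i, i + 1 < K → RA G k ray (u i) (u (i + 1))) (w : Equiv.Perm (Fin T)) :
    ∀ (n : ℕ) (h : Fin T → ℕ), StrictMono h → (∀ i, h i < K) → ∑ i, h i = n →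
      Rel G k ray u (fun i => h (w i)) (fun i => ((w i : Fin T) : ℕ)) := by
  classical
  intro n
  induction n using Nat.strong_induction_on with
  | _ n ih =>
    intro h hmono hK hsum
    by_cases hid : ∀ i, h i = i.val
    · have h1 : (fun i => h (w i)) = fun i => ((w i : Fin T) : ℕ) := by
        funext i
        exact hid _
      rw [h1]
      exact Rel.refl _ _
    · push Not at hid
      have hne : (Finset.univ.filter fun i : Fin T => h i ≠ i.val).Nonempty := by
        obtain ⟨i, hi⟩ := hid
        exact ⟨i, by simpa using hi⟩
      set i := (Finset.univ.filter fun i : Fin T => h i ≠ i.val).min' hne with hi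
      have hi1 : h i ≠ i.val := by
        have := Finset.min'_mem _ hne
        rw [← hi, Finset.mem_filter] at this
        exact this.2
      have hi2 : ∀ j < i, h j = j.val := by
        intro j hj
        by_contra hcon
        have h1 := Finset.min'_le (Finset.univ.filter fun i : Fin T => h i ≠ i.val) j
          (by simpa using hcon)
        rw [← hi] at h1
        exact absurd hj (not_lt.2 h1)
      have hi3 : i.val < h i := by
        rcases Nat.lt_or_ge i.val (h i) with h1 | h1
        · exact h1
        · exfalso
          rcases Nat.eq_or_lt_of_le h1 with h2 | h2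
          · exact hi1 h2
          · have h3 : (⟨h i, h2.trans i.2⟩ : Fin T) < i := h2
            have h4 := hi2 _ h3
            have h5 := hmono h3
            rw [h4] at h5
            exact absurd h5 (lt_irrefl _)
      obtain ⟨q, hq⟩ : ∃ q, h i = q + 1 := ⟨h i - 1, by omega⟩
      set h' := Function.update h i q with hh'
      have hmono' : StrictMono h' := by
        intro x y hxy
        rw [hh']
        by_cases hx : x = i <;> by_cases hy : y = i
        · rw [hx, hy] at hxy; exact absurd hxy (lt_irrefl _)
        · rw [hx, Function.update_self, Function.update_of_ne hy]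
          rw [hx] at hxy
          have := hmono hxy
          omega
        · rw [hy, Function.update_self, Function.update_of_ne hx]
          rw [hy] at hxy
          have h1 := hi2 x hxy
          have h2 : x.val < i.val := hxy
          omega
        · rw [Function.update_of_ne hx, Function.update_of_ne hy]
          exact hmono hxy
      have hK' : ∀ j, h' j < K := by
        intro j
        rw [hh']
        by_cases hj : j = i
        · rw [hj, Function.update_self]; have := hK i; omega
        · rw [Function.update_of_ne hj]; exact hK j
      have hlt : ∑ j, h' j < n := by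
        rw [← hsum]
        apply Finset.sum_lt_sum
        · intro j _
          rw [hh']
          by_cases hj : j = i
          · rw [hj, Function.update_self]; omega
          · rw [Function.update_of_ne hj]
        · exact ⟨i, Finset.mem_univ _, by rw [hh', Function.update_self]; omega⟩
      have h1 := ih _ hlt h' hmono' hK' rfl
      refine Rel.trans ?_ h1
      have h2 := rel_step hM hr hu hinj hra (f := fun j => h (w j))
        (fun x y hxy => w.injective (hmono.injective hxy)) (fun j => hK _) (w.symm i) (q := q)
        (by rw [Equiv.apply_symm_apply]; exact hq) (by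
          intro j hj
          rcases lt_trichotomy (w j) i with h3 | h3 | h3
          · have h4 := hi2 _ h3
            have h5 : (w j).val < i.val := h3
            omega
          · rw [h3] at hj; omega
          · have := hmono h3; omega)
      have h3 : Function.update (fun j => h (w j)) (w.symm i) q = fun j => h' (w j) := by
        funext j
        by_cases hj : j = w.symm i
        · rw [hj, Function.update_self, Equiv.apply_symm_apply, hh', Function.update_self]
        · rw [Function.update_of_ne hj, hh', Function.update_of_ne]
          intro h4
          exact hj (by rw [← h4, Equiv.symm_apply_apply])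
      rw [h3] at h2
      exact h2

end SWPaux

open SWPaux STARaux

theorem stmt_SWP (hM : Stmt_MOV) : Stmt_SWP := by
  classical
  intro V G k ray T K u a b c d hr hu hinj hra hTa hac hcd hdb hbK hsw
  rcases Nat.eq_zero_or_pos T with hT0 | hT0
  · subst hT0
    exact Model.minor (f := fun i => i.elim0) ⟨fun i => i.elim0, fun i => i.elim0,
      fun i => i.elim0⟩
  obtain ⟨n, rfl⟩ : ∃ n, T = n + 1 := ⟨T - 1, by omega⟩
  have hA := relA hM hr hu hinj hra (T := n + 1)
  -- adjacent transpositions
  have hB : ∀ (w : Equiv.Perm (Fin (n + 1))) (j : Fin n),
      Rel G k ray u (fun i => ((w i : Fin (n + 1)) : ℕ))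
        (fun i => (((Equiv.swap j.castSucc j.succ * w) i : Fin (n + 1)) : ℕ)) := by
    intro w j
    set h : Fin (n + 1) → ℕ := fun i => if i.val < j.val then i.val else if i.val = j.val then c
      else if i.val = j.val + 1 then d else b + (i.val - j.val) with hh
    have hj := j.2
    have hmono : StrictMono h := by
      intro x y hxy
      have hxy' : x.val < y.val := hxy
      have hy := y.2
      simp only [hh]
      split_ifs <;> omega
    have hK : ∀ i, h i < K := by
      intro i
      have hi := i.2
      simp only [hh]
      split_ifs <;> omega
    have hjc : h j.castSucc = c := by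
      simp [hh]
    have hjd : h j.succ = d := by
      simp [hh]
    have hother : ∀ i, i ≠ j.castSucc → i ≠ j.succ → h i < a ∨ b < h i := by
      intro i hi hi'
      have h1 : i.val ≠ j.val := fun h1 => hi (Fin.ext h1)
      have h2 : i.val ≠ j.val + 1 := fun h1 => hi' (Fin.ext h1)
      simp only [hh]
      split_ifs <;> omega
    have hne : j.castSucc ≠ j.succ := by
      intro h1
      have := congrArg Fin.val h1
      simp at this
    set σ := Equiv.swap j.castSucc j.succ with hσ
    refine ((hA w _ h hmono hK rfl).symm.trans ?_).trans (hA (σ * w) _ h hmono hK rfl)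
    -- the exchange
    have key : ∀ (v : Equiv.Perm (Fin (n + 1))) (E : Fin (n + 1) → Fin (n + 1) → Prop),
        Tok G k ray (fun i => u (h (v i))) E → Tok G k ray (fun i => u (h ((σ * v) i))) E := by
      intro v E hv
      have h1 := hsw (fun i => h (v i)) E (v.symm j.castSucc) (v.symm j.succ)
        (fun h1 => hne (v.symm.injective h1)) (fun i => hK _)
        (by rw [Equiv.apply_symm_apply]; exact hjc) (by rw [Equiv.apply_symm_apply]; exact hjd)
        (by
          intro i hi hi'
          apply hother
          · intro h2; exact hi (by rw [← h2, Equiv.symm_apply_apply])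
          · intro h2; exact hi' (by rw [← h2, Equiv.symm_apply_apply])) hv
      have h2 : Function.update (Function.update (fun i => h (v i)) (v.symm j.castSucc) d)
          (v.symm j.succ) c = fun i => h ((σ * v) i) := by
        funext i
        rw [Equiv.Perm.mul_apply]
        by_cases hi : i = v.symm j.succ
        · rw [hi, Function.update_self, Equiv.apply_symm_apply, hσ, Equiv.swap_apply_right, hjc]
        · rw [Function.update_of_ne hi]
          by_cases hi' : i = v.symm j.castSucc
          · rw [hi', Function.update_self, Equiv.apply_symm_apply, hσ, Equiv.swap_apply_left, hjd]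
          · rw [Function.update_of_ne hi', hσ, Equiv.swap_apply_of_ne_of_ne]
            · intro h3; exact hi' (by rw [← h3, Equiv.symm_apply_apply])
            · intro h3; exact hi (by rw [← h3, Equiv.symm_apply_apply])
      rw [h2] at h1
      exact h1
    intro E
    constructor
    · exact key w E
    · intro h1
      have h2 := key (σ * w) E h1
      have h3 : σ * (σ * w) = w := by
        rw [← mul_assoc, hσ, Equiv.swap_mul_self, one_mul]
      rwa [h3] at h2
  -- all permutations
  have hC : ∀ (g : Equiv.Perm (Fin (n + 1))) (w : Equiv.Perm (Fin (n + 1))),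
      Rel G k ray u (fun i => ((w i : Fin (n + 1)) : ℕ))
        (fun i => (((g * w) i : Fin (n + 1)) : ℕ)) := by
    intro g
    have hg : g ∈ Submonoid.closure
        (Set.range fun i : Fin n => Equiv.swap i.castSucc i.succ) := by
      rw [Equiv.Perm.mclosure_swap_castSucc_succ]
      exact Submonoid.mem_top g
    induction hg using Submonoid.closure_induction with
    | mem x hx =>
      obtain ⟨j, rfl⟩ := hx
      exact fun w => hB w j
    | one => intro w; rw [one_mul]; exact Rel.refl _ _
    | mul x y _ _ hx hy =>
      intro w
      rw [mul_assoc]
      exact (hy w).trans (hx (y * w))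
  obtain ⟨-, -, m3, -, -⟩ := hM V G k ray (n + 1) hr
  refine minor_of_contacts hM hr (c := fun i : Fin (n + 1) => u i.val) ?_ ?_ ?_
  · intro x y hxy
    exact Fin.ext (hinj _ (by have := x.2; omega) _ (by have := y.2; omega) hxy)
  · intro x
    exact hu _ (by have := x.2; omega)
  · intro E t t' htt h
    -- a permutation with `t` at `0` and `t'` at `1`
    have hn : 0 < n := by
      rcases Nat.eq_zero_or_pos n with h0 | h0
      · exfalso
        subst h0
        exact htt (Subsingleton.elim (α := Fin 1) t t')
      · exact h0
    set s1 := Equiv.swap t 0 with hs1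
    have hz : s1 t' ≠ 0 := by
      intro h1
      have h2 : s1 t = 0 := Equiv.swap_apply_left _ _
      exact htt (s1.injective (h2.trans h1.symm))
    set one : Fin (n + 1) := ⟨1, by omega⟩ with hone
    have hone0 : one ≠ 0 := by
      intro h1
      have := congrArg Fin.val h1
      simp [hone] at this
    set s2 := Equiv.swap (s1 t') one with hs2
    have hw1 : (s2 * s1) t = 0 := by
      rw [Equiv.Perm.mul_apply, hs1, Equiv.swap_apply_left, hs2,
        Equiv.swap_apply_of_ne_of_ne hz.symm hone0.symm]
    have hw2 : (s2 * s1) t' = one := by
      rw [Equiv.Perm.mul_apply, hs2, Equiv.swap_apply_left]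
    have hrel := hC (s2 * s1) 1
    rw [mul_one] at hrel
    have h1 := (hrel E).1 h
    have h2 := m3 _ E t t' h1 htt (by
      have e1 : u (((s2 * s1) t : Fin (n + 1)) : ℕ) = u 0 := by rw [hw1]; rfl
      have e2 : u (((s2 * s1) t' : Fin (n + 1)) : ℕ) = u (0 + 1) := by rw [hw2]
      rw [e1, e2]
      exact hra 0 (by omega))
    exact (hrel _).2 h2

end Pool.Agent.Work.MP_216d61_lc
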