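import Pool.Agent.Work.MP_216d61_lc_full.Base1
import Pool.Agent.Work.MP_216d61_lc_full.BASE2

/-!
# Block TH
-/

set_option autoImplicit false

namespace Pool.Agent.Work.MP_216d61_lc

open Relation Set

theorem stmt_TH (hPL : Stmt_PL) : Stmt_TH := by
  classical
  intro ρ V G r A hS k
  by_contra hcon
  push Not at hcon
  obtain ⟨a, b, rfl⟩ := hS.rat
  apply hS.nbt
  choose! Fn hF1 hF2 hF3 using hcon
  have := hS.inf
  obtain ⟨x0⟩ : Nonempty V := inferInstance
  obtain ⟨L, hL⟩ := hPL a b (max k r)
  set F : ℕ → Set V := fun n => Nat.rec (Fn {x0}) (fun _ T => Fn (T ∪ nb G T)) n with hFdef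
  have F0 : F 0 = Fn {x0} := rfl
  have Fs : ∀ n, F (n + 1) = Fn (F n ∪ nb G (F n)) := fun n => rfl
  have hfin : ∀ n, (F n).Finite := by
    intro n
    induction n with
    | zero => exact hF1 _ (finite_singleton _)
    | succ n ih => rw [Fs]; exact hF1 _ (ih.union (nb_finite hS.lf ih))
  have hsub : ∀ n, F n ∪ nb G (F n) ⊆ F (n + 1) := by
    intro n
    rw [Fs]
    exact hF2 _ ((hfin n).union (nb_finite hS.lf (hfin n)))
  have hcard : ∀ n, (nb G (F n)).ncard < k := by
    intro n
    cases n with
    | zero => exact hF3 _ (finite_singleton _)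
    | succ n => rw [Fs]; exact hF3 _ ((hfin n).union (nb_finite hS.lf (hfin n)))
  have hne : ∀ n, (F n).Nonempty := by
    intro n
    induction n with
    | zero => exact ⟨x0, hF2 _ (finite_singleton _) rfl⟩
    | succ n ih => exact ih.mono (subset_union_left.trans (hsub n))
  have hstrict : ∀ n, F n ≠ F (n + 1) := by
    intro n h
    have h1 : (nb G (F n)).Nonempty := by
      apply nb_nonempty hS.conn (hne n)
      intro h2
      have := hfin n
      rw [h2] at this
      exact infinite_univ this
    obtain ⟨y, hy⟩ := h1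
    have h2 := hsub n (Or.inr hy)
    rw [← h] at h2
    exact hy.1 h2
  refine hL _ (Hat G A) (range Sum.inl) (fun n => Sum.inr '' F n) hS.mr (finite_range _) ?_ ?_ ?_
    ?_ ?_ ?_
  · rw [← image_univ, ncard_image_of_injective _ Sum.inl_injective, ncard_univ,
      Nat.card_eq_fintype_card, Fintype.card_fin]
    exact le_max_right _ _
  · intro i _
    refine ⟨(hfin i).image _, ?_⟩
    rw [disjoint_left]
    rintro _ ⟨x, _, rfl⟩ ⟨y, hy⟩
    cases hy
  · intro i _
    have e : nb (Hat G A) (Sum.inr '' F i) \ range Sum.inl = Sum.inr '' nb G (F i) := by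
      rw [nb_hat]
      ext z
      constructor
      · rintro ⟨h | h, h'⟩
        · obtain ⟨a, _, rfl⟩ := h
          exact absurd (mem_range_self a) h'
        · exact h
      · intro h
        refine ⟨Or.inr h, ?_⟩
        obtain ⟨x, _, rfl⟩ := h
        rintro ⟨y, hy⟩
        cases hy
    rw [e, ncard_image_of_injective _ Sum.inr_injective]
    exact ⟨(nb_finite hS.lf (hfin i)).image _, ((hcard i).le).trans (le_max_left _ _)⟩
  · intro i _
    have e : nb (Hat G A) (Sum.inr '' F i) \ range Sum.inl ⊆ Sum.inr '' nb G (F i) := by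
      rw [nb_hat]
      rintro z ⟨h | h, h'⟩
      · obtain ⟨a, _, rfl⟩ := h
        exact absurd (mem_range_self a) h'
      · exact h
    refine union_subset (image_mono (subset_union_left.trans (hsub i)))
      (e.trans (image_mono (subset_union_right.trans (hsub i))))
  · intro i _ h
    exact hstrict i (Sum.inr_injective.image_injective h)
  · intro i _
    rw [inc2_hat (hfin i) hS.lf, ncard_image_of_injective _ Sum.inr_injective]
    have := hS.o1 (F i) (hfin i)
    unfold gn at this
    linarith

end Pool.Agent.Work.MP_216d61_lc
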