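import Pool.Agent.Work.MP_216d61_lc_full.InterfaceLIM
import Pool.Agent.Work.MP_216d61_lc_full.Base1
import Pool.Agent.Work.MP_216d61_lc_full.BASE2
import Pool.Agent.Work.MP_216d61_lc_full.OM

/-!
# MP_216d61_lc full: block UIA (the low degree part splits into good types)
-/

set_option autoImplicit false

namespace Pool.Agent.Work.MP_216d61_lc

open Relation Set

namespace UIAaux

/-! ### a uniform fan size -/

theorem mr_fan_mono {ρ : ℝ} {R C : Type} {H : SimpleGraph C} {A : R → C → Prop} {κ κ' : ℕ}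
    (h : κ ≤ κ') (hn : MR ρ (Fan H A (Fin κ'))) : MR ρ (Fan H A (Fin κ)) :=
  hn.minor (fan_minor_of_inj (Fin.castLE_injective h))

theorem kap_fin (ρ : ℝ) (k : ℕ) : ∃ κ : ℕ, ∀ (r c : ℕ) (H : SimpleGraph (Fin c))
    (A : Fin r → Fin c → Prop), r ≤ k → c ≤ k → MR ρ (Fan H A (Fin κ)) → GT ρ H A := by
  have h1 : ∀ r : Fin (k + 1), ∃ κ, ∀ c : Fin (k + 1),
      ∀ x : SimpleGraph (Fin c) × (Fin r → Fin c → Prop),
        MR ρ (Fan x.1 x.2 (Fin κ)) → GT ρ x.1 x.2 := by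
    intro r
    refine unif _ (fun c κ κ' hle h x hx => h x (mr_fan_mono hle hx)) ?_
    intro c
    refine unif _ (fun x κ κ' hle h hx => h (mr_fan_mono hle hx)) ?_
    intro x
    by_cases hx : GT ρ x.1 x.2
    · exact ⟨0, fun _ => hx⟩
    · have h2 := hx
      unfold GT at h2
      push Not at h2
      obtain ⟨κ, hκ⟩ := h2
      exact ⟨κ, fun h => absurd h hκ⟩
  obtain ⟨κ, hκ⟩ := unif _ (fun r κ κ' hle h c x hx => h c x (mr_fan_mono hle hx)) h1
  exact ⟨κ, fun r c H A hr hc hx => hκ ⟨r, by omega⟩ ⟨c, by omega⟩ (H, A) hx⟩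

theorem kap (ρ : ℝ) (k : ℕ) : ∃ κ : ℕ, ∀ (R C : Type) [Fintype R] [Fintype C]
    (H : SimpleGraph C) (A : R → C → Prop), Fintype.card R ≤ k → Fintype.card C ≤ k →
    MR ρ (Fan H A (Fin κ)) → GT ρ H A := by
  obtain ⟨κ, hκ⟩ := kap_fin ρ k
  refine ⟨κ, ?_⟩
  intro R C _ _ H A hR hC hM
  set e := (Fintype.equivFinOfCardEq (α := R) rfl).symm with he
  set f := (Fintype.equivFinOfCardEq (α := C) rfl).symm with hf
  have h1 : MR ρ (Fan (H.comap f) (fun a c => A (e a) (f c)) (Fin κ)) := by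
    refine hM.minor (minor_of_inj (Sum.map e (Prod.map id f))
      (Function.Injective.sumMap e.injective
        (Function.Injective.prodMap Function.injective_id f.injective)) ?_)
    rintro (a | p) (b | q) hab
    · exact hab
    · exact hab
    · exact hab
    · exact hab
  have h2 := hκ _ _ _ _ hR hC h1
  refine h2.sub f.symm e.symm f.symm.injective e.symm.injective ?_ ?_
  · intro c d hcd
    show H.Adj (f (f.symm c)) (f (f.symm d))
    rw [Equiv.apply_symm_apply, Equiv.apply_symm_apply]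
    exact hcd
  · intro a c hac
    show A (e (e.symm a)) (f (f.symm c))
    rw [Equiv.apply_symm_apply, Equiv.apply_symm_apply]
    exact hac

/-! ### codes -/

/-- the codes -/
abbrev Cde (r K L : ℕ) : Type :=
  (Fin K → Prop) × (Fin K → Fin K → Prop) × (Fin r → Fin K → Prop) × (Fin L → Fin K → Prop)

section code

variable {V : Type} {r : ℕ}

/-- the code of the set `Q` with the set of roots `S` and numberings `eS`, `eQ` -/
def code (K L : ℕ) (H : SimpleGraph V) (A : Fin r → V → Prop) (S Q : Set V) (eS eQ : V → ℕ) :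
    Cde r K L :=
  ⟨fun i => ∃ x ∈ Q, eQ x = i,
   fun i j => ∃ x ∈ Q, ∃ y ∈ Q, eQ x = i ∧ eQ y = j ∧ H.Adj x y,
   fun a i => ∃ x ∈ Q, eQ x = i ∧ A a x,
   fun b i => ∃ s ∈ S, ∃ x ∈ Q, eS s = b ∧ eQ x = i ∧ H.Adj s x⟩

theorem code_map {K L : ℕ} {H : SimpleGraph V} {A : Fin r → V → Prop} {S Q Q' : Set V}
    {eS eQ eQ' : V → ℕ} (hS : InjOn eS S) (hSL : ∀ s ∈ S, eS s < L) (hQ : InjOn eQ Q)
    (hQ' : InjOn eQ' Q') (hK : ∀ x ∈ Q, eQ x < K)
    (hc : code K L H A S Q eS eQ = code K L H A S Q' eS eQ') :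
    ∃ φ : V → V, InjOn φ Q ∧ (∀ x ∈ Q, φ x ∈ Q') ∧
      (∀ x ∈ Q, ∀ y ∈ Q, H.Adj x y → H.Adj (φ x) (φ y)) ∧
      (∀ a, ∀ x ∈ Q, A a x → A a (φ x)) ∧ (∀ s ∈ S, ∀ x ∈ Q, H.Adj s x → H.Adj s (φ x)) := by
  have h1 := congrArg (fun z : Cde r K L => z.1) hc
  have h2 := congrArg (fun z : Cde r K L => z.2.1) hc
  have h3 := congrArg (fun z : Cde r K L => z.2.2.1) hc
  have h4 := congrArg (fun z : Cde r K L => z.2.2.2) hc
  simp only [code] at h1 h2 h3 h4
  have key : ∀ x ∈ Q, ∃ y ∈ Q', eQ' y = eQ x := by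
    intro x hx
    have h5 := congrFun h1 ⟨eQ x, hK x hx⟩
    simp only [eq_iff_iff] at h5
    exact h5.1 ⟨x, hx, rfl⟩
  classical
  choose! φ hφ1 hφ2 using key
  refine ⟨φ, ?_, hφ1, ?_, ?_, ?_⟩
  · intro x hx y hy hxy
    apply hQ hx hy
    rw [← hφ2 x hx, ← hφ2 y hy, hxy]
  · intro x hx y hy hxy
    have h5 := congrFun (congrFun h2 ⟨eQ x, hK x hx⟩) ⟨eQ y, hK y hy⟩
    simp only [eq_iff_iff] at h5
    obtain ⟨x', hx', y', hy', e1, e2, hadj⟩ := h5.1 ⟨x, hx, y, hy, rfl, rfl, hxy⟩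
    have e3 : x' = φ x := hQ' hx' (hφ1 x hx) (by rw [e1, hφ2 x hx])
    have e4 : y' = φ y := hQ' hy' (hφ1 y hy) (by rw [e2, hφ2 y hy])
    rw [← e3, ← e4]
    exact hadj
  · intro a x hx hax
    have h5 := congrFun (congrFun h3 a) ⟨eQ x, hK x hx⟩
    simp only [eq_iff_iff] at h5
    obtain ⟨x', hx', e1, hA⟩ := h5.1 ⟨x, hx, rfl, hax⟩
    have e3 : x' = φ x := hQ' hx' (hφ1 x hx) (by rw [e1, hφ2 x hx])
    rw [← e3]
    exact hA
  · intro s hs x hx hsx
    have h5 := congrFun (congrFun h4 ⟨eS s, hSL s hs⟩) ⟨eQ x, hK x hx⟩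
    simp only [eq_iff_iff] at h5
    obtain ⟨s', hs', x', hx', e0, e1, hadj⟩ := h5.1 ⟨s, hs, x, hx, rfl, rfl, hsx⟩
    have e3 : x' = φ x := hQ' hx' (hφ1 x hx) (by rw [e1, hφ2 x hx])
    have e4 : s' = s := hS hs' hs e0
    rw [← e3, ← e4]
    exact hadj

/-- numberings -/
theorem exists_num {V : Type*} (Q : Set V) (hQ : Q.Finite) :
    ∃ e : V → ℕ, InjOn e Q ∧ ∀ x ∈ Q, e x < Q.ncard := by
  classical
  set F := hQ.toFinset with hF
  have hmem : ∀ x, x ∈ F ↔ x ∈ Q := fun x => by rw [hF, Finite.mem_toFinset]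
  refine ⟨fun x => if h : x ∈ F then (F.equivFin ⟨x, h⟩ : ℕ) else 0, ?_, ?_⟩
  · intro x hx y hy hxy
    have hx' := (hmem x).2 hx
    have hy' := (hmem y).2 hy
    simp only [hx', hy', dif_pos] at hxy
    have := F.equivFin.injective (Fin.ext hxy)
    exact congrArg Subtype.val this
  · intro x hx
    have hx' := (hmem x).2 hx
    simp only [hx', dif_pos]
    rw [ncard_eq_toFinset_card Q hQ]
    exact (F.equivFin ⟨x, hx'⟩).2

/-- many copies give a good fan -/
theorem fan_of_copies {n κ : ℕ} {ρ : ℝ} {H : SimpleGraph (Fin n)} {A : Fin r → Fin n → Prop}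
    (hM : MR ρ (Hat H A)) {Hs Q : Set (Fin n)} (F : Fin κ → Set (Fin n))
    (hF : ∀ i j, i ≠ j → Disjoint (F i) (F j)) (hFH : ∀ i, Disjoint (F i) Hs)
    (φ : Fin κ → Fin n → Fin n) (h1 : ∀ i, InjOn (φ i) Q) (h2 : ∀ i, ∀ x ∈ Q, φ i x ∈ F i)
    (h3 : ∀ i, ∀ x ∈ Q, ∀ y ∈ Q, H.Adj x y → H.Adj (φ i x) (φ i y))
    (h4 : ∀ i, ∀ a, ∀ x ∈ Q, A a x → A a (φ i x))
    (h5 : ∀ i, ∀ s ∈ nb H Q ∩ Hs, ∀ x ∈ Q, H.Adj s x → H.Adj s (φ i x)) :
    MR ρ (Fan (H.comap (fun x : {x : Fin n // x ∈ Q} => (x : Fin n))) (QA H A Hs Q)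
      (Fin κ)) := by
  refine hM.minor (minor_of_inj (fun z => match z with
    | .inl (.inl a) => Sum.inl a
    | .inl (.inr h) => Sum.inr (h : Fin n)
    | .inr p => Sum.inr (φ p.1 (p.2 : Fin n))) ?_ ?_)
  · rintro ((a | h) | p) ((b | h') | q) hab
    · have := Sum.inl_injective hab
      rw [this]
    · exact absurd hab (by simp)
    · exact absurd hab (by simp)
    · exact absurd hab (by simp)
    · have h6 : (h : Fin n) = h' := Sum.inr_injective hab
      rw [Subtype.ext h6]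
    · have h6 : (h : Fin n) = φ q.1 q.2 := Sum.inr_injective hab
      have h7 := h2 q.1 q.2 q.2.2
      rw [← h6] at h7
      exact absurd h.2.2 (disjoint_left.1 (hFH q.1) h7)
    · exact absurd hab (by simp)
    · have h6 : φ p.1 p.2 = (h' : Fin n) := Sum.inr_injective hab
      have h7 := h2 p.1 p.2 p.2.2
      rw [h6] at h7
      exact absurd h'.2.2 (disjoint_left.1 (hFH p.1) h7)
    · have h6 : φ p.1 p.2 = φ q.1 q.2 := Sum.inr_injective hab
      have h7 := h2 p.1 p.2 p.2.2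
      have h8 := h2 q.1 q.2 q.2.2
      have h9 : p.1 = q.1 := by
        by_contra hne
        rw [h6] at h7
        exact disjoint_left.1 (hF p.1 q.1 hne) h7 h8
      obtain ⟨i, x⟩ := p
      obtain ⟨j, y⟩ := q
      simp only at h6 h9
      subst h9
      have h10 := h1 i x.2 y.2 h6
      rw [Subtype.ext h10]
  · rintro ((a | h) | p) ((b | h') | q) hab
    · exact hab.elim
    · exact hab.elim
    · exact (hat_adj_lr _ _).2 (h4 q.1 a q.2 q.2.2 hab)
    · exact hab.elim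
    · exact hab.elim
    · exact (hat_adj_rr _ _).2 (h5 q.1 h h.2 q.2 q.2.2 hab)
    · exact (hat_adj_rl _ _).2 (h4 p.1 b p.2 p.2.2 hab)
    · exact (hat_adj_rr _ _).2 (h5 p.1 h' h'.2 p.2 p.2.2 hab).symm
    · obtain ⟨i, x⟩ := p
      obtain ⟨j, y⟩ := q
      obtain ⟨h6, h7⟩ := hab
      simp only at h6 h7
      subst h6
      exact (hat_adj_rr _ _).2 (h3 i x x.2 y y.2 h7)

end code

/-! ### counting -/

theorem dg_eq {n : ℕ} (H : SimpleGraph (Fin n)) [DecidableRel H.Adj] (x : Fin n) :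
    dg H x = (Finset.univ.filter fun y => H.Adj x y).card := by
  unfold dg
  rw [← ncard_coe_finset]
  congr 1
  ext y
  simp

theorem sum_dg {n : ℕ} (H : SimpleGraph (Fin n)) : ∑ x, dg H x = e2 H := by
  classical
  rw [e2_eq_sum]
  refine Finset.sum_congr rfl fun x _ => ?_
  rw [dg_eq, Finset.card_filter]

/-- few vertices of high degree -/
theorem high_le {n : ℕ} (H : SimpleGraph (Fin n)) (D' : ℕ) :
    {x | D' < dg H x}.ncard * D' ≤ e2 H := by
  classical
  rw [← sum_dg]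
  have h1 : {x | D' < dg H x} = ((Finset.univ.filter fun x => D' < dg H x : Finset (Fin n)) :
      Set (Fin n)) := by
    ext x
    simp
  rw [h1, ncard_coe_finset]
  calc (Finset.univ.filter fun x => D' < dg H x).card * D'
      = ∑ _x ∈ Finset.univ.filter fun x => D' < dg H x, D' := by
        rw [Finset.sum_const, smul_eq_mul]
    _ ≤ ∑ x ∈ Finset.univ.filter fun x => D' < dg H x, dg H x :=
        Finset.sum_le_sum fun x hx => (Finset.mem_filter.1 hx).2.le
    _ ≤ ∑ x, dg H x := Finset.sum_le_sum_of_subset (Finset.subset_univ _)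

/-- small neighbourhoods -/
theorem nb_le {n : ℕ} (H : SimpleGraph (Fin n)) (Q : Set (Fin n)) (D : ℕ)
    (hQ : ∀ x ∈ Q, dg H x ≤ D) : (nb H Q).ncard ≤ Q.ncard * D := by
  classical
  have h1 : nb H Q ⊆ ((Q.toFinset.biUnion fun x => Finset.univ.filter fun y => H.Adj x y :
      Finset (Fin n)) : Set (Fin n)) := by
    rintro y ⟨_, x, hx, hxy⟩
    simp only [Finset.coe_biUnion, mem_iUnion]
    exact ⟨x, by simpa using hx, by simpa using hxy⟩
  refine (ncard_le_ncard h1 (Finset.finite_toSet _)).trans ?_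
  rw [ncard_coe_finset, ncard_eq_toFinset_card' Q]
  refine Finset.card_biUnion_le_card_mul _ _ _ ?_
  intro x hx
  rw [← dg_eq]
  exact hQ x (by simpa using hx)

/-- components of `W` are equal or disjoint -/
theorem cmp_eq {V : Type*} {G : SimpleGraph V} {S : Set V} {x y z : V} (hx : z ∈ cmp G S x)
    (hy : z ∈ cmp G S y) : cmp G S x = cmp G S y := by
  have h1 : Lnk G S x y := Lnk.trans hx (Lnk.symm hy)
  ext w
  exact ⟨fun h => Lnk.trans h1.symm h, fun h => Lnk.trans h1 h⟩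

/-- components outside the shared vertices lie in one piece -/
theorem cmp_small {n k : ℕ} {H : SimpleGraph (Fin n)} {P : Finset (Finset (Fin n))}
    (hP : Cover H.Adj Finset.univ k P) {W : Set (Fin n)} (hW : ∀ x ∈ W, x ∉ Sh P) {x : Fin n}
    (hx : x ∈ W) : (cmp H W x).ncard ≤ k := by
  obtain ⟨B, hB, hxB⟩ := hP.vert x (Finset.mem_univ _)
  have hsub : cmp H W x ⊆ (B : Set (Fin n)) := by
    rintro y ⟨_, hy⟩
    induction hy with
    | refl => exact hxB
    | @tail y z h1 h2 ih =>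
      obtain ⟨B', hB', hyB', hzB'⟩ := hP.edge y (Finset.mem_univ _) z (Finset.mem_univ _) h2.1
      have h3 : B = B' := by
        by_contra hne
        exact hW y h2.2.1 (mem_Sh.2 ⟨B, hB, B', hB', hne, ih, hyB'⟩)
      rw [h3]
      exact hzB'
  refine (ncard_le_ncard hsub (Finset.finite_toSet _)).trans ?_
  rw [ncard_coe_finset]
  exact hP.small B hB

/-- number of traces -/
theorem traces_le {n c : ℕ} {H : SimpleGraph (Fin n)} {Hs : Set (Fin n)}
    (hc : ∀ (m : ℕ) (Q : Fin m → Set (Fin n)), (∀ i, Conn H (Q i)) →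
      (∀ i j, i ≠ j → Disjoint (Q i) (Q j)) → (∀ i, Disjoint (Q i) Hs) →
      (∀ i j, nb H (Q i) ∩ Hs = nb H (Q j) ∩ Hs → i = j) → m ≤ c * (Hs.ncard + 1))
    (C : Finset (Set (Fin n))) (hC1 : ∀ Q ∈ C, Conn H Q) (hC2 : ∀ Q ∈ C, Disjoint Q Hs)
    (hC3 : ∀ Q ∈ C, ∀ Q' ∈ C, Q ≠ Q' → Disjoint Q Q') (T : Finset (Set (Fin n)))
    (hT : ∀ S ∈ T, ∃ Q ∈ C, nb H Q ∩ Hs = S) : T.card ≤ c * (Hs.ncard + 1) := by
  classical
  choose! f hf1 hf2 using hT
  set e := T.equivFin.symm with he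
  refine hc T.card (fun i => f (e i)) (fun i => hC1 _ (hf1 _ (e i).2)) ?_
    (fun i => hC2 _ (hf1 _ (e i).2)) ?_
  · intro i j hij
    refine hC3 _ (hf1 _ (e i).2) _ (hf1 _ (e j).2) ?_
    intro heq
    apply hij
    apply e.injective
    apply Subtype.ext
    rw [← hf2 _ (e i).2, ← hf2 _ (e j).2, heq]
  · intro i j hij
    rw [hf2 _ (e i).2, hf2 _ (e j).2] at hij
    exact e.injective (Subtype.ext hij)

/-- few non-repeated elements -/
theorem nonrep_le {α β γ : Type*} [Fintype γ] (C : Finset α) (f : α → β) (g : α → γ) (κ T : ℕ)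
    [DecidableEq β] [DecidableEq γ] (hT : (C.image f).card ≤ T) :
    (C.filter fun Q => (C.filter fun Q' => f Q' = f Q ∧ g Q' = g Q).card < κ).card ≤
      κ * (T * Fintype.card γ) := by
  set N := C.filter fun Q => (C.filter fun Q' => f Q' = f Q ∧ g Q' = g Q).card < κ with hN
  have h1 := Finset.card_le_mul_card_image (f := fun Q => (f Q, g Q)) N κ ?_
  · refine h1.trans (Nat.mul_le_mul_left _ ?_)
    have h2 : N.image (fun Q => (f Q, g Q)) ⊆ C.image f ×ˢ (Finset.univ : Finset γ) := by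
      intro p hp
      obtain ⟨Q, hQ, rfl⟩ := Finset.mem_image.1 hp
      exact Finset.mem_product.2 ⟨Finset.mem_image_of_mem _ (Finset.mem_filter.1 hQ).1,
        Finset.mem_univ _⟩
    refine (Finset.card_le_card h2).trans ?_
    rw [Finset.card_product, Finset.card_univ]
    exact Nat.mul_le_mul_right _ hT
  · intro p hp
    obtain ⟨Q, hQ, rfl⟩ := Finset.mem_image.1 hp
    have h3 := (Finset.mem_filter.1 hQ).2
    refine le_trans (Finset.card_le_card ?_) h3.le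
    intro Q' hQ'
    obtain ⟨h4, h5⟩ := Finset.mem_filter.1 hQ'
    simp only [Prod.mk.injEq] at h5
    exact Finset.mem_filter.2 ⟨(Finset.mem_filter.1 h4).1, h5⟩

end UIAaux

open UIAaux in
theorem stmt_UIA (hREP : Stmt_REP) : Stmt_UIA := by
  classical
  intro ρ r D ξ hρ hξ
  obtain ⟨t, ht⟩ := exists_nat_gt (2 * ρ + 1)
  have ht1 : 1 ≤ t := by
    have : (0 : ℝ) < t := by linarith
    exact_mod_cast this
  obtain ⟨N, hN⟩ := exists_nat_gt (1 / ξ)
  have hN1 : 1 ≤ N := by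
    have : (0 : ℝ) < N := lt_trans (by positivity) hN
    exact_mod_cast this
  have hNξ : 1 ≤ N * ξ := by
    rw [div_lt_iff₀ hξ] at hN
    exact hN.le
  set K : ℕ := 4096 * N ^ 2 * t ^ 3 with hK
  obtain ⟨κ, hκ⟩ := kap ρ (K + (r + K * D))
  obtain ⟨c, hc⟩ := hREP ρ hρ.le
  set N1 : ℕ := Nat.card (Cde r K (K * D)) with hN1'
  set M : ℕ := K * (κ * (c * N1)) with hM
  obtain ⟨D1, hD1⟩ := exists_nat_ge (8 * M * ρ / ξ)
  obtain ⟨n0, hn0⟩ := exists_nat_ge (4 * M / ξ)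
  refine ⟨max D D1, n0, le_max_left _ _, ?_⟩
  intro n hn H A hMR
  set D' : ℕ := max D D1 with hD'
  have hMH : MR ρ H := hMR.of_hat
  set Hs : Set (Fin n) := {x | D' < dg H x} with hHs
  obtain ⟨P, hP, hPs⟩ := decomp (t := t) (adj := H.Adj) (fun x y h => SimpleGraph.Adj.symm h)
    (kfree_of_MR ht1 ht hMH) ht1 N hN1 K le_rfl (Finset.univ : Finset (Fin n))
  have hSh := card_add_Sh (Q := P) fun x => hP.vert x (Finset.mem_univ x)
  set W : Set (Fin n) := {x | dg H x ≤ D ∧ x ∉ Sh P} with hW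
  set C : Finset (Set (Fin n)) := (Finset.univ.filter fun x => x ∈ W).image (cmp H W) with hC
  have hCm : ∀ Q ∈ C, ∃ x ∈ W, Q = cmp H W x := by
    intro Q hQ
    obtain ⟨x, hx, rfl⟩ := Finset.mem_image.1 hQ
    exact ⟨x, (Finset.mem_filter.1 hx).2, rfl⟩
  have hC1 : ∀ Q ∈ C, Conn H Q := by
    intro Q hQ
    obtain ⟨x, hx, rfl⟩ := hCm Q hQ
    exact conn_cmp hx
  have hCW : ∀ Q ∈ C, Q ⊆ W := by
    intro Q hQ
    obtain ⟨x, hx, rfl⟩ := hCm Q hQ
    exact cmp_subset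
  have hCnb : ∀ Q ∈ C, nb H Q ⊆ Wᶜ := by
    intro Q hQ
    obtain ⟨x, hx, rfl⟩ := hCm Q hQ
    exact nb_cmp
  have hWH : Disjoint W Hs := by
    rw [disjoint_left]
    intro x hx hx'
    have h1 : dg H x ≤ D := hx.1
    have h2 : D' < dg H x := hx'
    have h3 : D ≤ D' := le_max_left _ _
    omega
  have hC2 : ∀ Q ∈ C, Disjoint Q Hs := fun Q hQ => hWH.mono_left (hCW Q hQ)
  have hC3 : ∀ Q ∈ C, ∀ Q' ∈ C, Q ≠ Q' → Disjoint Q Q' := by
    intro Q hQ Q' hQ' hne
    rw [disjoint_left]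
    intro z hz hz'
    apply hne
    obtain ⟨x, hx, rfl⟩ := hCm Q hQ
    obtain ⟨y, hy, rfl⟩ := hCm Q' hQ'
    exact cmp_eq hz hz'
  have hC4 : ∀ Q ∈ C, Q.ncard ≤ K := by
    intro Q hQ
    obtain ⟨x, hx, rfl⟩ := hCm Q hQ
    exact cmp_small hP (fun y hy => hy.2) hx
  have hC5 : ∀ Q ∈ C, (nb H Q ∩ Hs).ncard ≤ K * D := by
    intro Q hQ
    refine (ncard_le_ncard inter_subset_left (toFinite _)).trans ?_
    refine (nb_le H Q D fun x hx => (hCW Q hQ hx).1).trans ?_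
    exact Nat.mul_le_mul_right _ (hC4 Q hQ)
  choose en hen1 hen2 using fun Q : Set (Fin n) => exists_num Q (toFinite Q)
  set tr : Set (Fin n) → Set (Fin n) := fun Q => nb H Q ∩ Hs with htr
  set cd : Set (Fin n) → Cde r K (K * D) := fun Q =>
    code K (K * D) H A (tr Q) Q (en (tr Q)) (en Q) with hcd
  have hfin : Fintype (Cde r K (K * D)) := Fintype.ofFinite _
  set rep : Set (Fin n) → Prop := fun Q =>
    κ ≤ (C.filter fun Q' => tr Q' = tr Q ∧ cd Q' = cd Q).card with hrep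
  -- repeated components have good types
  have hgood : ∀ Q ∈ C, rep Q → GT ρ (H.comap (fun x : {x : Fin n // x ∈ Q} => (x : Fin n)))
      (QA H A Hs Q) := by
    intro Q hQ hr
    refine hκ _ _ _ _ ?_ ?_ ?_
    · rw [Fintype.card_sum, Fintype.card_fin]
      have h1 : Fintype.card {h : Fin n // h ∈ nb H Q ∩ Hs} = (nb H Q ∩ Hs).ncard := by
        rw [← Nat.card_eq_fintype_card]
        rfl
      have h2 := hC5 Q hQ
      omega
    · have h1 : Fintype.card {x : Fin n // x ∈ Q} = Q.ncard := by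
        rw [← Nat.card_eq_fintype_card]
        rfl
      have h2 := hC4 Q hQ
      omega
    · obtain ⟨C', hC's, hC'c⟩ := Finset.exists_subset_card_eq hr
      set e := (C'.equivFinOfCardEq hC'c).symm with he
      have hmem : ∀ i, ((e i : Set (Fin n)) ∈ C) ∧ tr (e i) = tr Q ∧ cd (e i) = cd Q := by
        intro i
        have := Finset.mem_filter.1 (hC's (e i).2)
        exact ⟨this.1, this.2.1, this.2.2⟩
      have hmap : ∀ i, ∃ φ : Fin n → Fin n, InjOn φ Q ∧ (∀ x ∈ Q, φ x ∈ (e i : Set (Fin n))) ∧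
          (∀ x ∈ Q, ∀ y ∈ Q, H.Adj x y → H.Adj (φ x) (φ y)) ∧
          (∀ a, ∀ x ∈ Q, A a x → A a (φ x)) ∧
          (∀ s ∈ tr Q, ∀ x ∈ Q, H.Adj s x → H.Adj s (φ x)) := by
        intro i
        obtain ⟨h1, h2, h3⟩ := hmem i
        refine code_map (K := K) (L := K * D) (S := tr Q) (eS := en (tr Q)) (eQ := en Q)
          (eQ' := en (e i)) (hen1 _) ?_ (hen1 _) (hen1 _) ?_ ?_
        · intro s hs
          exact lt_of_lt_of_le (hen2 _ s hs) (hC5 Q hQ)
        · intro x hx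
          exact lt_of_lt_of_le (hen2 _ x hx) (hC4 Q hQ)
        · rw [hcd] at h3
          simp only [h2] at h3
          exact h3.symm
      choose φ h1 h2 h3 h4 h5 using hmap
      refine fan_of_copies hMR (fun i => (e i : Set (Fin n))) ?_ (fun i => hC2 _ (hmem i).1)
        φ h1 h2 h3 h4 h5
      intro i j hij
      refine hC3 _ (hmem i).1 _ (hmem j).1 ?_
      intro heq
      exact hij (e.injective (Subtype.ext heq))
  refine ⟨{Q | Q ∈ C ∧ rep Q}, ?_, ?_, ?_, ?_⟩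
  · rintro Q ⟨hQ, _⟩ Q' ⟨hQ', _⟩ hne
    refine ⟨hC3 Q hQ Q' hQ' hne, ?_⟩
    rw [disjoint_left]
    intro x hx hx'
    exact hCnb Q' hQ' hx' (hCW Q hQ hx)
  · rintro Q ⟨hQ, _⟩
    exact ⟨(hC1 Q hQ).1, fun x hx => (hCW Q hQ hx).1⟩
  · rintro Q ⟨hQ, hr⟩
    exact hgood Q hQ hr
  · -- the count
    set NR : Finset (Set (Fin n)) := C.filter fun Q =>
      (C.filter fun Q' => tr Q' = tr Q ∧ cd Q' = cd Q).card < κ with hNR
    have hT : (C.image tr).card ≤ c * (Hs.ncard + 1) := by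
      refine traces_le (fun m Q => hc (Fin n) H hMH Hs m Q) C hC1 hC2 hC3 _ ?_
      intro S hS
      obtain ⟨Q, hQ, rfl⟩ := Finset.mem_image.1 hS
      exact ⟨Q, hQ, rfl⟩
    have hNRc : NR.card ≤ κ * (c * (Hs.ncard + 1) * N1) := by
      have := nonrep_le C tr cd κ _ hT
      rw [← Nat.card_eq_fintype_card] at this
      exact this
    have hsub : {x | dg H x ≤ D} \ ⋃₀ {Q | Q ∈ C ∧ rep Q} ⊆
        ((Sh P ∪ NR.biUnion fun Q => Q.toFinset : Finset (Fin n)) : Set (Fin n)) := by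
      rintro x ⟨hx, hx'⟩
      by_cases hxS : x ∈ Sh P
      · simp [hxS]
      · have hxW : x ∈ W := ⟨hx, hxS⟩
        have hxC : cmp H W x ∈ C :=
          Finset.mem_image_of_mem _ (Finset.mem_filter.2 ⟨Finset.mem_univ _, hxW⟩)
        have hxx : x ∈ cmp H W x := self_mem_cmp hxW
        have hnr : ¬ rep (cmp H W x) := fun h => hx' ⟨_, ⟨hxC, h⟩, hxx⟩
        rw [Finset.coe_union]
        refine Or.inr ?_
        rw [Finset.mem_coe, Finset.mem_biUnion]
        refine ⟨cmp H W x, Finset.mem_filter.2 ⟨hxC, ?_⟩, ?_⟩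
        · exact not_le.1 hnr
        · rw [mem_toFinset]
          exact hxx
    have h1 : ({x | dg H x ≤ D} \ ⋃₀ {Q | Q ∈ C ∧ rep Q}).ncard ≤
        (Sh P).card + M * (Hs.ncard + 1) := by
      refine (ncard_le_ncard hsub (Finset.finite_toSet _)).trans ?_
      rw [ncard_coe_finset]
      refine (Finset.card_union_le _ _).trans (Nat.add_le_add_left ?_ _)
      refine (Finset.card_biUnion_le_card_mul _ _ K ?_).trans ?_
      · intro Q hQ
        rw [← ncard_eq_toFinset_card']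
        exact hC4 Q (Finset.mem_filter.1 hQ).1
      · calc NR.card * K ≤ κ * (c * (Hs.ncard + 1) * N1) * K := Nat.mul_le_mul_right _ hNRc
          _ = M * (Hs.ncard + 1) := by rw [hM]; ring
    have h2 : 2 * N * (Sh P).card ≤ n := by
      rw [Finset.card_univ, Fintype.card_fin] at hPs
      rw [Fintype.card_fin] at hSh
      have h3 : 2 * N * (n + (Sh P).card) ≤ (2 * N + 1) * n :=
        (Nat.mul_le_mul_left _ hSh).trans hPs
      nlinarith
    have h2' : ((Sh P).card : ℝ) ≤ ξ * n / 2 := by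
      have h3 : (2 * N * (Sh P).card : ℝ) ≤ n := by exact_mod_cast h2
      have h4 : (0 : ℝ) ≤ (Sh P).card := Nat.cast_nonneg _
      nlinarith [mul_le_mul_of_nonneg_left h3 hξ.le, mul_le_mul_of_nonneg_right hNξ h4]
    have h5 : (Hs.ncard : ℝ) * D' ≤ 2 * ρ * n := by
      have h6 := high_le H D'
      have h7 := hMH.self
      rw [Nat.card_eq_fintype_card, Fintype.card_fin] at h7
      refine le_trans ?_ h7
      exact_mod_cast h6
    have h6 : (8 * M * ρ : ℝ) ≤ D' * ξ := by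
      rw [div_le_iff₀ hξ] at hD1
      refine hD1.trans (mul_le_mul_of_nonneg_right ?_ hξ.le)
      exact_mod_cast le_max_right D D1
    have h7 : (M * Hs.ncard : ℝ) ≤ ξ * n / 4 := by
      have h8 : (0 : ℝ) ≤ Hs.ncard := Nat.cast_nonneg _
      have h9 : 8 * ρ * (M * Hs.ncard : ℝ) ≤ 8 * ρ * (ξ * n / 4) := by
        calc 8 * ρ * (M * Hs.ncard : ℝ) = (8 * M * ρ) * Hs.ncard := by ring
          _ ≤ (D' * ξ) * Hs.ncard := mul_le_mul_of_nonneg_right h6 h8
          _ = ξ * (Hs.ncard * D') := by ring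
          _ ≤ ξ * (2 * ρ * n) := mul_le_mul_of_nonneg_left h5 hξ.le
          _ = 8 * ρ * (ξ * n / 4) := by ring
      exact le_of_mul_le_mul_left h9 (by positivity)
    have h8 : (M : ℝ) ≤ ξ * n / 4 := by
      have h9 : (4 * M / ξ : ℝ) ≤ n := hn0.trans (by exact_mod_cast hn)
      rw [div_le_iff₀ hξ] at h9
      linarith
    have h9 : ((({x | dg H x ≤ D} \ ⋃₀ {Q | Q ∈ C ∧ rep Q}).ncard : ℕ) : ℝ) ≤
        (Sh P).card + M * (Hs.ncard + 1) := by exact_mod_cast h1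
    calc _ ≤ _ := h9
      _ ≤ ξ * n := by linarith

end Pool.Agent.Work.MP_216d61_lc
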