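import Pool.Agent.Work.MP_216d61_lc_full.OM
import Pool.Agent.Work.MP_216d61_lc_full.BASE2

/-!
# Block UIB: uniform integrability of the degrees
-/

set_option autoImplicit false

namespace Pool.Agent.Work.MP_216d61_lc

open Relation Set Filter

namespace UIBAux

open Classical in
/-- adjacency as a number -/
noncomputable def ai {V : Type} (G : SimpleGraph V) (x y : V) : ℕ := if G.Adj x y then 1 else 0

open Classical in
/-- number of labels -/
noncomputable def lb {V : Type} {r : ℕ} (A : Fin r → V → Prop) (x : V) : ℕ :=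
  ∑ a, if A a x then 1 else 0

section

variable {V : Type} [Fintype V] {G : SimpleGraph V} {r : ℕ} {A : Fin r → V → Prop}

omit [Fintype V] in
theorem ai_symm (x y : V) : ai G x y = ai G y x := by
  classical
  unfold ai
  exact if_congr (G.adj_comm x y) rfl rfl

theorem dg_sum (x : V) : dg G x = ∑ y, ai G x y := by
  classical
  unfold dg ai
  rw [ncard_eq_toFinset_card', Finset.card_eq_sum_ones, ← Finset.sum_filter]
  refine Finset.sum_congr ?_ fun _ _ => rfl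
  ext y
  simp

omit [Fintype V] in
theorem lb_le (x : V) : lb A x ≤ r := by
  classical
  unfold lb
  refine (Finset.sum_le_sum (g := fun _ => 1) fun a _ => ?_).trans ?_
  · split_ifs <;> omega
  · simp

theorem lbn_sum : lbn A = ∑ x, lb A x := by
  classical
  rw [lbn_eq, Finset.card_filter, Fintype.sum_prod_type, Finset.sum_comm]
  rfl

theorem e2_sum (G : SimpleGraph V) : e2 G = ∑ x, ∑ y, ai G x y := e2_eq_sum G

theorem sum_part {U Hi Re : Finset V} (h1 : Disjoint U Hi) (h2 : Disjoint U Re)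
    (h3 : Disjoint Hi Re) (h4 : ∀ x, x ∈ U ∨ x ∈ Hi ∨ x ∈ Re) (f : V → ℕ) :
    ∑ x, f x = ∑ x ∈ U, f x + ∑ x ∈ Hi, f x + ∑ x ∈ Re, f x := by
  classical
  rw [← Finset.sum_union h1, ← Finset.sum_union]
  · refine Finset.sum_congr ?_ fun _ _ => rfl
    ext x
    simp only [Finset.mem_univ, Finset.mem_union, true_iff]
    have := h4 x
    tauto
  · rw [Finset.disjoint_union_left]
    exact ⟨h2, h3⟩

omit [Fintype V] in
theorem swap (S T : Finset V) : ∑ x ∈ S, ∑ y ∈ T, ai G x y = ∑ x ∈ T, ∑ y ∈ S, ai G x y := by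
  rw [Finset.sum_comm]
  exact Finset.sum_congr rfl fun x _ => Finset.sum_congr rfl fun y _ => ai_symm y x

theorem core {U Hi Re : Finset V} (h1 : Disjoint U Hi) (h2 : Disjoint U Re)
    (h3 : Disjoint Hi Re) (h4 : ∀ x, x ∈ U ∨ x ∈ Hi ∨ x ∈ Re) :
    (e2 G ≤ ∑ x ∈ U, ∑ y ∈ U, ai G x y + 2 * ∑ x ∈ U, ∑ y ∈ Hi, ai G x y +
      ∑ x ∈ Hi, ∑ y ∈ Hi, ai G x y + 2 * ∑ x ∈ Re, dg G x) ∧
    ∑ x ∈ Hi, dg G x ≤ ∑ x ∈ U, ∑ y ∈ Hi, ai G x y + ∑ x ∈ Hi, ∑ y ∈ Hi, ai G x y +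
      ∑ x ∈ Re, dg G x := by
  have key : ∀ S : Finset V, ∑ x ∈ S, dg G x = ∑ x ∈ S, ∑ y ∈ U, ai G x y +
      ∑ x ∈ S, ∑ y ∈ Hi, ai G x y + ∑ x ∈ S, ∑ y ∈ Re, ai G x y := by
    intro S
    rw [← Finset.sum_add_distrib, ← Finset.sum_add_distrib]
    refine Finset.sum_congr rfl fun x _ => ?_
    rw [dg_sum, sum_part h1 h2 h3 h4]
  have e : e2 G = ∑ x ∈ U, dg G x + ∑ x ∈ Hi, dg G x + ∑ x ∈ Re, dg G x := by
    rw [e2_sum, ← sum_part h1 h2 h3 h4]
    exact Finset.sum_congr rfl fun x _ => (dg_sum x).symm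
  have kU := key U
  have kH := key Hi
  have kR := key Re
  have s1 := swap (G := G) U Hi
  have s2 := swap (G := G) U Re
  have s3 := swap (G := G) Hi Re
  constructor <;> omega

omit [Fintype V] in
theorem hi_le {ρ : ℝ} (h : MR ρ G) (Hi : Finset V) :
    ((∑ x ∈ Hi, ∑ y ∈ Hi, ai G x y : ℕ) : ℝ) ≤ 2 * ρ * Hi.card := by
  classical
  have hm : Minor (G.comap (fun x : {x // x ∈ Hi} => (x : V))) G :=
    minor_of_inj Subtype.val Subtype.val_injective fun _ _ hij => hij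
  have h1 := h _ _ hm
  rw [e2_sum, Nat.card_eq_fintype_card, Fintype.card_coe] at h1
  refine le_trans (le_of_eq ?_) h1
  congr 1
  rw [← Finset.sum_coe_sort Hi]
  refine Finset.sum_congr rfl fun x _ => ?_
  rw [← Finset.sum_coe_sort Hi]
  rfl

omit [Fintype V] in
theorem sum_set {Q : Set V} {Qf : Finset V} (hQ : ∀ x, x ∈ Qf ↔ x ∈ Q) (g : V → ℕ)
    [Fintype {x // x ∈ Q}] : ∑ x : {x // x ∈ Q}, g x = ∑ x ∈ Qf, g x := by
  rw [Finset.sum_subtype Qf (p := fun x => x ∈ Q) hQ g]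

theorem lbn_QA {Hs Q : Set V} {Hf Qf : Finset V} (hH : ∀ x, x ∈ Hf ↔ x ∈ Hs)
    (hQ : ∀ x, x ∈ Qf ↔ x ∈ Q) (hd : Disjoint Q Hs) :
    lbn (QA G A Hs Q) = ∑ x ∈ Qf, (lb A x + ∑ y ∈ Hf, ai G x y) := by
  classical
  rw [lbn_eq, Finset.card_filter, Fintype.sum_prod_type, Finset.sum_comm]
  rw [← sum_set hQ]
  refine Finset.sum_congr rfl fun x _ => ?_
  rw [Fintype.sum_sum_type]
  congr 1
  have h1 : ∑ y ∈ Hf, ai G x y = ∑ y ∈ Hf.filter fun y => y ∈ nb G Q, ai G x y := by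
    symm
    refine Finset.sum_subset (Finset.filter_subset _ _) fun y hy hy' => ?_
    rw [Finset.mem_filter, not_and] at hy'
    unfold ai
    rw [if_neg]
    intro hxy
    exact hy' hy ⟨fun h => disjoint_left.1 hd h ((hH y).1 hy), x, x.2, hxy⟩
  rw [h1, ← sum_set (Q := nb G Q ∩ Hs) (fun y => by
    rw [Finset.mem_filter, hH, mem_inter_iff, and_comm])]
  refine Finset.sum_congr rfl fun y _ => ?_
  unfold ai
  simp only [QA]
  exact if_congr (G.adj_comm _ _) rfl rfl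

theorem tau2_QA {Hs Q : Set V} {Hf Qf : Finset V} (hH : ∀ x, x ∈ Hf ↔ x ∈ Hs)
    (hQ : ∀ x, x ∈ Qf ↔ x ∈ Q) (hd : Disjoint Q Hs) [Fintype {x // x ∈ Q}]
    [Fintype (Fin r ⊕ {h : V // h ∈ nb G Q ∩ Hs})] :
    tau2 (G.comap (fun x : {x : V // x ∈ Q} => (x : V))) (QA G A Hs Q) =
      ∑ x ∈ Qf, ∑ y ∈ Qf, ai G x y + 2 * ∑ x ∈ Qf, (lb A x + ∑ y ∈ Hf, ai G x y) := by
  rw [tau2_eq, lbn_QA hH hQ hd, e2_sum, ← sum_set hQ (fun x => ∑ y ∈ Qf, ai G x y)]
  congr 1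
  refine Finset.sum_congr rfl fun x _ => ?_
  rw [← sum_set hQ (fun y => ai G x y)]
  rfl

open Classical in
theorem fin_core {ρ ω η ξ ε : ℝ} {D D' : ℕ} (hρ : 0 < ρ) (_hη : 0 ≤ η) (hMR : MR ρ G)
    (𝒬 : Set (Set V))
    (hsep : ∀ Q ∈ 𝒬, ∀ Q' ∈ 𝒬, Q ≠ Q' → Disjoint Q Q' ∧ Disjoint Q (nb G Q'))
    (hlow : ∀ Q ∈ 𝒬, Q.Nonempty ∧ ∀ x ∈ Q, dg G x ≤ D) (hDD : D ≤ D')
    (hrest : ((({x | dg G x ≤ D} \ ⋃₀ 𝒬 : Set V).ncard : ℝ) ≤ ξ * Fintype.card V))
    (hmed : ((∑ x : V, if D < dg G x ∧ dg G x ≤ D' then dg G x else 0 : ℕ) : ℝ) ≤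
      η * Fintype.card V)
    (hD' : 2 * ρ ≤ η * D') (hξ : (D + r + 1) * ξ ≤ η) (hξ0 : 0 ≤ ξ)
    (hnear : 2 * ρ * Fintype.card V - tau2 G A ≤ η * Fintype.card V)
    (hlab : (ω - η) * Fintype.card V ≤ lbn A)
    (hbig : ε * Fintype.card V < ((∑ x : V, if D' < dg G x then dg G x else 0 : ℕ) : ℝ)) :
    (∑ Q ∈ 𝒬.toFinset, (Q.ncard : ℝ) ≤ Fintype.card V) ∧
    (∑ Q ∈ 𝒬.toFinset, (2 * ρ * Q.ncard -
      tau2 (G.comap (fun x : {x : V // x ∈ Q} => (x : V))) (QA G A {x | D' < dg G x} Q)) ≤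
      (5 + 2 * ρ + 6 * r) * η * Fintype.card V) ∧
    (ω + ε - (3 + 2 * ρ + 3 * r) * η) * Fintype.card V ≤
      ∑ Q ∈ 𝒬.toFinset, (lbn (QA G A {x | D' < dg G x} Q) : ℝ) := by
  set n := Fintype.card V with hn
  set Hi : Finset V := Finset.univ.filter fun x => D' < dg G x with hHi
  set U : Finset V := 𝒬.toFinset.biUnion fun Q => Q.toFinset with hU
  set Re : Finset V := (U ∪ Hi)ᶜ with hRe
  have memU : ∀ x, x ∈ U ↔ ∃ Q ∈ 𝒬, x ∈ Q := by
    intro x
    simp [hU]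
  have h1 : Disjoint U Hi := by
    rw [Finset.disjoint_left]
    intro x hx hx'
    obtain ⟨Q, hQ, hxQ⟩ := (memU x).1 hx
    have h2 := (hlow Q hQ).2 x hxQ
    have h3 : D' < dg G x := by simpa [hHi] using hx'
    omega
  have h2 : Disjoint U Re := by
    rw [Finset.disjoint_left]
    intro x hx hx'
    simp only [hRe, Finset.mem_compl, Finset.mem_union] at hx'
    exact hx' (Or.inl hx)
  have h3 : Disjoint Hi Re := by
    rw [Finset.disjoint_left]
    intro x hx hx'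
    simp only [hRe, Finset.mem_compl, Finset.mem_union] at hx'
    exact hx' (Or.inr hx)
  have h4 : ∀ x, x ∈ U ∨ x ∈ Hi ∨ x ∈ Re := by
    intro x
    simp only [hRe, Finset.mem_compl, Finset.mem_union]
    tauto
  obtain ⟨c1, c2⟩ := core (G := G) h1 h2 h3 h4
  -- sums over the parts
  have hdisj : (𝒬.toFinset : Set (Set V)).PairwiseDisjoint fun Q => Q.toFinset := by
    intro Q hQ Q' hQ' hne
    have hQ1 : Q ∈ 𝒬 := by simpa using hQ
    have hQ2 : Q' ∈ 𝒬 := by simpa using hQ'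
    show Disjoint Q.toFinset Q'.toFinset
    rw [Set.disjoint_toFinset]
    exact (hsep Q hQ1 Q' hQ2 hne).1
  have hsum : ∀ f : V → ℕ, ∑ Q ∈ 𝒬.toFinset, ∑ x ∈ Q.toFinset, f x = ∑ x ∈ U, f x := by
    intro f
    rw [hU, Finset.sum_biUnion hdisj]
  have hin : ∀ Q ∈ 𝒬, ∀ x ∈ Q, ∑ y ∈ Q.toFinset, ai G x y = ∑ y ∈ U, ai G x y := by
    intro Q hQ x hx
    refine Finset.sum_subset (fun y hy => (memU y).2 ⟨Q, hQ, by simpa using hy⟩) fun y hy hy' => ?_
    unfold ai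
    rw [if_neg]
    intro hxy
    obtain ⟨Q', hQ', hyQ'⟩ := (memU y).1 hy
    have hyQ : y ∉ Q := by simpa using hy'
    have hne : Q' ≠ Q := by
      rintro rfl
      exact hyQ hyQ'
    exact disjoint_left.1 (hsep Q' hQ' Q hQ hne).2 hyQ' ⟨hyQ, x, hx, hxy⟩
  have hHs : ∀ x, x ∈ Hi ↔ x ∈ ({x | D' < dg G x} : Set V) := by
    intro x
    simp [hHi]
  have hQd : ∀ Q ∈ 𝒬, Disjoint Q {x | D' < dg G x} := by
    intro Q hQ
    rw [disjoint_left]
    intro x hx hx'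
    have h2 := (hlow Q hQ).2 x hx
    have h3 : D' < dg G x := hx'
    omega
  have hl : ∑ Q ∈ 𝒬.toFinset, lbn (QA G A {x | D' < dg G x} Q) =
      ∑ x ∈ U, lb A x + ∑ x ∈ U, ∑ y ∈ Hi, ai G x y := by
    rw [← Finset.sum_add_distrib, ← hsum]
    refine Finset.sum_congr rfl fun Q hQ => ?_
    exact lbn_QA hHs (fun x => by simp) (hQd Q (by simpa using hQ))
  have ht : ∑ Q ∈ 𝒬.toFinset, tau2 (G.comap (fun x : {x : V // x ∈ Q} => (x : V)))
      (QA G A {x | D' < dg G x} Q) = ∑ x ∈ U, ∑ y ∈ U, ai G x y +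
      2 * (∑ x ∈ U, lb A x + ∑ x ∈ U, ∑ y ∈ Hi, ai G x y) := by
    rw [← hl, Finset.mul_sum, ← hsum, ← Finset.sum_add_distrib]
    refine Finset.sum_congr rfl fun Q hQ => ?_
    have hQ' : Q ∈ 𝒬 := by simpa using hQ
    rw [tau2_QA hHs (Qf := Q.toFinset) (fun x => by simp) (hQd Q hQ'),
      ← lbn_QA hHs (Qf := Q.toFinset) (fun x => by simp) (hQd Q hQ')]
    congr 1
    exact Finset.sum_congr rfl fun x hx => hin Q hQ' x (by simpa using hx)
  have hcard : ∑ Q ∈ 𝒬.toFinset, Q.ncard = U.card := by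
    have h5 := hsum fun _ => 1
    simp only [Finset.sum_const, smul_eq_mul, mul_one] at h5
    rw [← h5]
    exact Finset.sum_congr rfl fun Q _ => ncard_eq_toFinset_card' Q
  have hUn : U.card ≤ n := Finset.card_le_univ _
  -- the rest
  set md : V → ℕ := fun x => if D < dg G x ∧ dg G x ≤ D' then dg G x else 0 with hmd
  set lw : V → ℕ := fun x => if x ∈ ({x | dg G x ≤ D} \ ⋃₀ 𝒬 : Set V) then 1 else 0 with hlw
  have hlws : ∑ x, lw x = ({x | dg G x ≤ D} \ ⋃₀ 𝒬 : Set V).ncard := by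
    rw [ncard_eq_toFinset_card', Finset.card_eq_sum_ones, ← Finset.sum_filter]
    refine Finset.sum_congr ?_ fun _ _ => rfl
    ext x
    simp
  have hrx : ∀ x ∈ Re, dg G x ≤ md x + D * lw x ∧ 1 ≤ md x + lw x := by
    intro x hx
    simp only [hRe, Finset.mem_compl, Finset.mem_union, not_or] at hx
    have hx2 : ¬ D' < dg G x := by
      intro h
      exact hx.2 (by simp [hHi, h])
    simp only [hmd, hlw]
    by_cases h : D < dg G x
    · rw [if_pos ⟨h, by omega⟩]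
      constructor <;> omega
    · have hm : x ∈ ({x | dg G x ≤ D} \ ⋃₀ 𝒬 : Set V) := by
        refine ⟨by show dg G x ≤ D; omega, ?_⟩
        rintro ⟨Q, hQ, hxQ⟩
        exact hx.1 ((memU x).2 ⟨Q, hQ, hxQ⟩)
      rw [if_pos hm, mul_one]
      constructor <;> omega
  have hR1 : ∑ x ∈ Re, dg G x ≤ ∑ x, md x + D * ∑ x, lw x := by
    rw [Finset.mul_sum, ← Finset.sum_add_distrib]
    exact (Finset.sum_le_sum fun x hx => (hrx x hx).1).trans
      (Finset.sum_le_sum_of_subset (Finset.subset_univ _))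
  have hR2 : Re.card ≤ ∑ x, md x + ∑ x, lw x := by
    rw [Finset.card_eq_sum_ones, ← Finset.sum_add_distrib]
    exact (Finset.sum_le_sum fun x hx => (hrx x hx).2).trans
      (Finset.sum_le_sum_of_subset (Finset.subset_univ _))
  have hself := hMR.self
  rw [Nat.card_eq_fintype_card, ← hn] at hself
  have he2 : e2 G = ∑ x, dg G x := by
    rw [e2_sum]
    exact Finset.sum_congr rfl fun x _ => (dg_sum x).symm
  have hH1 : D' * Hi.card ≤ e2 G := by
    rw [he2, mul_comm, ← smul_eq_mul, ← Finset.sum_const]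
    refine (Finset.sum_le_sum (g := fun x => dg G x) fun x hx => ?_).trans
      (Finset.sum_le_sum_of_subset (Finset.subset_univ _))
    have : D' < dg G x := by simpa [hHi] using hx
    omega
  have hbig' : ∑ x : V, (if D' < dg G x then dg G x else 0) = ∑ x ∈ Hi, dg G x := by
    rw [hHi, Finset.sum_filter]
  rw [hbig'] at hbig
  have hlbn := lbn_sum (A := A)
  rw [sum_part h1 h2 h3 h4] at hlbn
  have hlH : ∑ x ∈ Hi, lb A x ≤ r * Hi.card := by
    rw [mul_comm, ← smul_eq_mul, ← Finset.sum_const]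
    exact Finset.sum_le_sum fun x _ => lb_le x
  have hlR : ∑ x ∈ Re, lb A x ≤ r * Re.card := by
    rw [mul_comm, ← smul_eq_mul, ← Finset.sum_const]
    exact Finset.sum_le_sum fun x _ => lb_le x
  have hhh := hi_le hMR Hi
  rw [tau2_eq] at hnear
  -- casts
  rw [← hlws] at hrest
  have hn0 : (0 : ℝ) ≤ n := Nat.cast_nonneg _
  set vUU : ℕ := ∑ x ∈ U, ∑ y ∈ U, ai G x y with evUU
  set vUH : ℕ := ∑ x ∈ U, ∑ y ∈ Hi, ai G x y with evUH
  set vHH : ℕ := ∑ x ∈ Hi, ∑ y ∈ Hi, ai G x y with evHH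
  set vR : ℕ := ∑ x ∈ Re, dg G x with evR
  set vH : ℕ := ∑ x ∈ Hi, dg G x with evH
  set vM : ℕ := ∑ x, md x with evM
  set vL : ℕ := ∑ x, lw x with evL
  set wU : ℕ := ∑ x ∈ U, lb A x with ewU
  set wH : ℕ := ∑ x ∈ Hi, lb A x with ewH
  set wR : ℕ := ∑ x ∈ Re, lb A x with ewR
  have d0 : (0 : ℝ) < D' := by
    rcases Nat.eq_zero_or_pos D' with h | h
    · rw [h] at hD'
      simp at hD'
      linarith
    · exact_mod_cast h
  have q1 : (Hi.card : ℝ) ≤ η * n := by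
    have h5 : (D' : ℝ) * Hi.card ≤ e2 G := by exact_mod_cast hH1
    have h6 : (D' : ℝ) * Hi.card ≤ D' * (η * n) := by
      calc (D' : ℝ) * Hi.card ≤ 2 * ρ * n := h5.trans hself
        _ ≤ η * D' * n := mul_le_mul_of_nonneg_right hD' hn0
        _ = D' * (η * n) := by ring
    exact le_of_mul_le_mul_left h6 d0
  have hr0 : (0 : ℝ) ≤ r := Nat.cast_nonneg _
  have hDn : (0 : ℝ) ≤ D := Nat.cast_nonneg _
  have q2 : (vR : ℝ) ≤ 2 * η * n := by
    have h5 : (vR : ℝ) ≤ vM + D * vL := by exact_mod_cast hR1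
    have h6 : (D : ℝ) * vL ≤ D * (ξ * n) := mul_le_mul_of_nonneg_left hrest hDn
    have h7 : (D : ℝ) * ξ ≤ η := by nlinarith
    have h8 : (D : ℝ) * (ξ * n) ≤ η * n := by
      rw [← mul_assoc]
      exact mul_le_mul_of_nonneg_right h7 hn0
    have h9 : (vM : ℝ) ≤ η * n := hmed
    linarith
  have q3 : (Re.card : ℝ) ≤ 2 * η * n := by
    have h5 : (Re.card : ℝ) ≤ vM + vL := by exact_mod_cast hR2
    have h7 : ξ ≤ η := by nlinarith
    have h8 : ξ * n ≤ η * n := mul_le_mul_of_nonneg_right h7 hn0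
    have h9 : (vM : ℝ) ≤ η * n := hmed
    linarith
  have q4 : (wH : ℝ) + wR ≤ 3 * r * (η * n) := by
    have h5 : (wH : ℝ) ≤ r * Hi.card := by exact_mod_cast hlH
    have h6 : (wR : ℝ) ≤ r * Re.card := by exact_mod_cast hlR
    have h7 : (r : ℝ) * Hi.card ≤ r * (η * n) := mul_le_mul_of_nonneg_left q1 hr0
    have h8 : (r : ℝ) * Re.card ≤ r * (2 * η * n) := mul_le_mul_of_nonneg_left q3 hr0
    linarith
  have q5 : (vHH : ℝ) ≤ 2 * ρ * (η * n) :=
    hhh.trans (mul_le_mul_of_nonneg_left q1 (by positivity))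
  have c1' : (e2 G : ℝ) ≤ vUU + 2 * vUH + vHH + 2 * vR := by exact_mod_cast c1
  have c2' : (vH : ℝ) ≤ vUH + vHH + vR := by exact_mod_cast c2
  have hlbn' : (lbn A : ℝ) = wU + wH + wR := by exact_mod_cast hlbn
  refine ⟨?_, ?_, ?_⟩
  · have h5 : (∑ Q ∈ 𝒬.toFinset, (Q.ncard : ℝ)) = U.card := by exact_mod_cast hcard
    rw [h5]
    exact_mod_cast hUn
  · rw [Finset.sum_sub_distrib, ← Finset.mul_sum]
    have h5 : (∑ Q ∈ 𝒬.toFinset, (Q.ncard : ℝ)) = U.card := by exact_mod_cast hcard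
    have h6 : (∑ Q ∈ 𝒬.toFinset, (tau2 (G.comap (fun x : {x : V // x ∈ Q} => (x : V)))
      (QA G A {x | D' < dg G x} Q) : ℝ)) = vUU + 2 * (wU + vUH) := by exact_mod_cast ht
    rw [h5, h6]
    have h7 : (U.card : ℝ) ≤ n := by exact_mod_cast hUn
    have h8 : 2 * ρ * (U.card : ℝ) ≤ 2 * ρ * n := mul_le_mul_of_nonneg_left h7 (by positivity)
    push_cast at hnear
    have h9 : (5 + 2 * ρ + 6 * r) * η * n = 5 * (η * n) + 2 * ρ * (η * n) + 2 * (3 * r * (η * n)) := by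
      ring
    rw [h9]
    linarith
  · have h6 : (∑ Q ∈ 𝒬.toFinset, (lbn (QA G A {x | D' < dg G x} Q) : ℝ)) = wU + vUH := by
      exact_mod_cast hl
    rw [h6]
    have h9 : (ω + ε - (3 + 2 * ρ + 3 * r) * η) * n =
        (ω - η) * n + ε * n - 2 * (η * n) - 2 * ρ * (η * n) - (3 * r * (η * n)) := by
      ring
    rw [h9]
    linarith only [hlab, hbig, c2', q2, q4, q5, hlbn']

open Classical in
theorem sum_levels {Ds : ℕ → ℕ} (hmono : ∀ i, Ds i ≤ Ds (i + 1)) (M : ℕ) :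
    ∑ i ∈ Finset.range M, (∑ x : V, if Ds i < dg G x ∧ dg G x ≤ Ds (i + 1) then dg G x else 0) ≤
      ∑ x : V, if dg G x ≤ Ds M then dg G x else 0 := by
  induction M with
  | zero => simp
  | succ M ih =>
    rw [Finset.sum_range_succ]
    refine (Nat.add_le_add_right ih _).trans ?_
    rw [← Finset.sum_add_distrib]
    refine Finset.sum_le_sum fun x _ => ?_
    have h := hmono M
    split_ifs <;> omega

end

end UIBAux

open UIBAux in
theorem stmt_UIB (hUIA : Stmt_UIA) : Stmt_UIB := by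
  classical
  intro ρ ω r hρ hω s ε hε
  obtain ⟨θ, hθ, hO⟩ := hω (ε / 2) (by positivity)
  set K : ℝ := ρ / θ * (5 + 2 * ρ + 6 * r) + (3 + 2 * ρ + 3 * r) with hK
  have hK0 : 0 < K := by positivity
  set η : ℝ := min θ (ε / (4 * K)) with hη
  have hη0 : 0 < η := lt_min hθ (by positivity)
  have hηθ : η ≤ θ := min_le_left _ _
  have hηK : K * η ≤ ε / 4 := by
    have h1 : η ≤ ε / (4 * K) := min_le_right _ _
    calc K * η ≤ K * (ε / (4 * K)) := mul_le_mul_of_nonneg_left h1 hK0.le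
      _ = ε / 4 := by field_simp
  choose nx n0 hle hQ using fun D : ℕ => hUIA ρ r D (η / (D + r + 1)) hρ (by positivity)
  obtain ⟨D0, hD0⟩ := exists_nat_ge (2 * ρ / η)
  obtain ⟨M, hM⟩ := exists_nat_gt (2 * ρ / η)
  rw [div_le_iff₀ hη0] at hD0
  rw [div_lt_iff₀ hη0] at hM
  set Ds : ℕ → ℕ := fun i => nx^[i] D0 with hDs
  have hDs1 : ∀ i, Ds (i + 1) = nx (Ds i) := fun i => Function.iterate_succ_apply' nx i D0
  have hstep : ∀ i, Ds i ≤ Ds (i + 1) := fun i => by rw [hDs1]; exact hle _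
  have hmono : Monotone Ds := monotone_nat_of_le_succ hstep
  refine ⟨Ds M, ?_⟩
  filter_upwards [s.near η hη0, s.lab η hη0,
    s.big ((Finset.range M).sup (fun i => n0 (Ds i)) + 1)] with j hnear hlab hN
  by_contra hbig
  push Not at hbig
  have hn1 : 1 ≤ (s.n j) := by omega
  have hnpos : (0 : ℝ) < (s.n j) := by exact_mod_cast hn1
  have hG := s.good j
  have hhat := hG.hat
  have hMR : MR ρ (s.H j) := hhat.of_hat
  -- the quiet level
  have hlev : ∃ i < M, ((∑ x : Fin (s.n j), if Ds i < dg (s.H j) x ∧ dg (s.H j) x ≤ Ds (i + 1)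
      then dg (s.H j) x else 0 : ℕ) : ℝ) ≤ η * (s.n j) := by
    by_contra hcon
    push Not at hcon
    have h1 := sum_levels (G := s.H j) hstep M
    have h2 : (M : ℝ) * (η * (s.n j)) ≤ ((∑ i ∈ Finset.range M, (∑ x : Fin (s.n j),
        if Ds i < dg (s.H j) x ∧ dg (s.H j) x ≤ Ds (i + 1) then dg (s.H j) x else 0) : ℕ) : ℝ) := by
      rw [Nat.cast_sum]
      calc (M : ℝ) * (η * (s.n j)) = ∑ i ∈ Finset.range M, η * (s.n j) := by simp
        _ ≤ _ := Finset.sum_le_sum fun i hi => (hcon i (Finset.mem_range.1 hi)).le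
    have h3 : (∑ x : Fin (s.n j), if dg (s.H j) x ≤ Ds M then dg (s.H j) x else 0) ≤
        e2 (s.H j) := by
      rw [e2_sum]
      refine Finset.sum_le_sum fun x _ => ?_
      rw [← dg_sum]
      split_ifs <;> omega
    have h4 := hMR.self
    rw [Nat.card_eq_fintype_card, Fintype.card_fin] at h4
    have h5 : (M : ℝ) * (η * (s.n j)) ≤ 2 * ρ * (s.n j) := by
      refine h2.trans (le_trans ?_ h4)
      exact_mod_cast h1.trans h3
    have h6 : (M : ℝ) * η ≤ 2 * ρ := by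
      have h7 : (M : ℝ) * η * (s.n j) ≤ 2 * ρ * (s.n j) := by linarith
      exact le_of_mul_le_mul_right h7 hnpos
    linarith
  obtain ⟨i, hi, hmed⟩ := hlev
  have hni : n0 (Ds i) ≤ (s.n j) := by
    have h1 := Finset.le_sup (f := fun i => n0 (Ds i)) (Finset.mem_range.2 hi)
    omega
  obtain ⟨𝒬, hsep, hlow, hgood, hrest⟩ := hQ (Ds i) (s.n j) hni (s.H j) (s.A j) hhat
  rw [← hDs1] at hgood
  obtain ⟨c0, c1, c2⟩ := fin_core (V := Fin (s.n j)) (G := s.H j) (A := s.A j) (ρ := ρ) (ω := ω)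
    (η := η) (ξ := η / (Ds i + r + 1)) (ε := ε) (D := Ds i) (D' := Ds (i + 1)) hρ hη0.le hMR 𝒬
    hsep hlow (hstep i) (by rw [Fintype.card_fin]; exact hrest)
    (by rw [Fintype.card_fin]; exact hmed)
    (by
      have h1 : (D0 : ℝ) ≤ Ds (i + 1) := by exact_mod_cast hmono (Nat.zero_le (i + 1))
      nlinarith)
    (by
      apply le_of_eq
      field_simp)
    (by positivity)
    (by rw [Fintype.card_fin]; exact hnear)
    (by rw [Fintype.card_fin]; exact hlab)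
    (by
      rw [Fintype.card_fin]
      refine hbig.trans_le ?_
      have h1 : Ds (i + 1) ≤ Ds M := hmono hi
      have h2 : (∑ x : Fin (s.n j), if Ds M < dg (s.H j) x then dg (s.H j) x else 0) ≤
          ∑ x : Fin (s.n j), if Ds (i + 1) < dg (s.H j) x then dg (s.H j) x else 0 := by
        refine Finset.sum_le_sum fun x _ => ?_
        split_ifs <;> omega
      exact_mod_cast h2)
  rw [Fintype.card_fin] at c0 c1 c2
  -- `ω + ε / 2 ≥ 0`
  have hω0 : 0 ≤ ω + ε / 2 := by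
    have h1 := hO _ _ (s.H j) (s.A j) (by rw [Fintype.card_fin]; exact hn1) hG (by
      rw [Fintype.card_fin]
      refine hnear.trans (mul_le_mul_of_nonneg_right hηθ hnpos.le))
    rw [Fintype.card_fin] at h1
    have h2 : (0 : ℝ) ≤ lbn (s.A j) := Nat.cast_nonneg _
    exact nonneg_of_mul_nonneg_left (h2.trans h1) hnpos
  have hterm : ∀ Q ∈ 𝒬.toFinset, (lbn (QA (s.H j) (s.A j) {x | Ds (i + 1) < dg (s.H j) x} Q) : ℝ) ≤
      (ω + ε / 2) * Q.ncard + ρ / θ * (2 * ρ * Q.ncard -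
      tau2 ((s.H j).comap (fun x : {x : Fin (s.n j) // x ∈ Q} => (x : Fin (s.n j))))
        (QA (s.H j) (s.A j) {x | Ds (i + 1) < dg (s.H j) x} Q)) := by
    intro Q hQm
    have hQ' : Q ∈ 𝒬 := by simpa using hQm
    have g := hgood Q hQ'
    have hc : Fintype.card {x : Fin (s.n j) // x ∈ Q} = Q.ncard := by
      rw [← Nat.card_eq_fintype_card]
      exact Nat.card_coe_set_eq Q
    have h1 := g.tau2_le
    have h2 := g.lbn_le
    rw [hc] at h1 h2
    have hQ0 : (0 : ℝ) ≤ Q.ncard := Nat.cast_nonneg _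
    set df : ℝ := 2 * ρ * Q.ncard -
      tau2 ((s.H j).comap (fun x : {x : Fin (s.n j) // x ∈ Q} => (x : Fin (s.n j))))
        (QA (s.H j) (s.A j) {x | Ds (i + 1) < dg (s.H j) x} Q) with hdf
    have hdf0 : 0 ≤ df := by rw [hdf]; linarith
    have hρθ : 0 < ρ / θ := by positivity
    by_cases hc2 : df ≤ θ * Q.ncard
    · have h3 := hO _ _ _ _ (by
        rw [hc]
        exact (ncard_pos (toFinite _)).2 (hlow Q hQ').1) g (by rw [hc]; exact hc2)
      rw [hc] at h3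
      have h4 : 0 ≤ ρ / θ * df := by positivity
      linarith
    · push Not at hc2
      have h3 : ρ * Q.ncard ≤ ρ / θ * df := by
        calc ρ * (Q.ncard : ℝ) = ρ / θ * (θ * Q.ncard) := by field_simp
          _ ≤ ρ / θ * df := mul_le_mul_of_nonneg_left hc2.le hρθ.le
      have h4 : 0 ≤ (ω + ε / 2) * Q.ncard := by positivity
      linarith
  have hsum := Finset.sum_le_sum hterm
  rw [Finset.sum_add_distrib, ← Finset.mul_sum, ← Finset.mul_sum] at hsum
  have h1 : (ω + ε / 2) * ∑ Q ∈ 𝒬.toFinset, (Q.ncard : ℝ) ≤ (ω + ε / 2) * (s.n j) :=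
    mul_le_mul_of_nonneg_left c0 hω0
  have h2 := mul_le_mul_of_nonneg_left c1 (by positivity : 0 ≤ ρ / θ)
  have h3 := c2.trans hsum
  have h4 : (ω + ε - (3 + 2 * ρ + 3 * r) * η) * (s.n j) ≤ (ω + ε / 2) * (s.n j) +
      ρ / θ * ((5 + 2 * ρ + 6 * r) * η * (s.n j)) := by linarith
  have h5 : (ε / 2 - K * η) * (s.n j) ≤ 0 := by
    rw [hK]
    linarith
  have h6 : 0 < (ε / 2 - K * η) * (s.n j) := by
    refine mul_pos ?_ hnpos
    linarith
  linarith

end Pool.Agent.Work.MP_216d61_lc
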