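import Pool.Agent.Work.MP_216d61_lc_full.Base1

/-!
# Block WIN: linking a small set to the exits of a nest
-/

set_option autoImplicit false

namespace Pool.Agent.Work.MP_216d61_lc

open Relation Set

namespace WinAux

/-- A set with fewer elements than the number of pairwise disjoint sets misses one of them. -/
theorem exists_miss {V : Type} {n : ℕ} (S : Fin n → Set V) (hd : ∀ i j, i ≠ j → Disjoint (S i) (S j))
    (Z : Set V) (hZ : Z.Finite) (h : Z.ncard < n) : ∃ i, Disjoint (S i) Z := by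
  classical
  by_contra hcon
  push Not at hcon
  have h1 : ∀ i, ∃ x, x ∈ S i ∧ x ∈ Z := fun i => not_disjoint_iff.1 (hcon i)
  choose f hf hf' using h1
  have hinj : Function.Injective f := by
    intro i j hij
    by_contra hne
    exact disjoint_left.1 (hd i j hne) (hf i) (hij ▸ hf j)
  have h2 : (range f).ncard ≤ Z.ncard := ncard_le_ncard (by rintro _ ⟨i, rfl⟩; exact hf' i) hZ
  rw [← image_univ, ncard_image_of_injective _ hinj, ncard_univ, Nat.card_eq_fintype_card,
    Fintype.card_fin] at h2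
  omega

end WinAux

open WinAux

theorem stmt_WIN (hMEN : Stmt_MEN) : Stmt_WIN := by
  classical
  intro V G κ C Kc P θ F hκ hC hK hd hb hn hP hPd hθP hθC hPK hPC hP0 hF hNF hcard hH
  have hmono : ∀ i j, i ≤ j → j ≤ 4 → Kc i ⊆ Kc j := by
    intro i j hij
    induction j, hij using Nat.le_induction with
    | base => intro _; exact Subset.rfl
    | succ j hij ih =>
      intro hj
      exact (ih (by omega)).trans (subset_union_right.trans (hn j (by omega)))
  have hCK : ∀ i j, i < j → j ≤ 4 → C i ⊆ Kc j := by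
    intro i j hij hj
    exact (subset_union_left.trans (hn i (by omega))).trans (hmono (i + 1) j hij hj)
  have hFK : ∀ j ≤ 4, F ⊆ Kc j := fun j hj => hF.trans (hmono 0 j (by omega) hj)
  have hθF : ∀ t, θ t ∉ F := fun t h => disjoint_left.1 (hd 4 le_rfl) (hθC t) (hFK 4 le_rfl h)
  have hθinj : Function.Injective θ := by
    intro t t' h
    by_contra hne
    exact disjoint_left.1 (hPd t t' hne) (hθP t) (h ▸ hθP t')
  have hUfin : ((Kc 4 ∪ range θ) \ F).Finite :=
    ((hK 4 le_rfl).union (finite_range θ)).subset sdiff_subset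
  have key : ∀ Z : Set V, Z ⊆ (Kc 4 ∪ range θ) \ F → Z.ncard < κ →
      ∃ x ∈ nb G F, ∃ y ∈ range θ, Lnk G (((Kc 4 ∪ range θ) \ F) \ Z) x y := by
    intro Z hZU hZ
    have hZfin := hUfin.subset hZU
    obtain ⟨t, ht⟩ := exists_miss P hPd Z hZfin hZ
    obtain ⟨j, hj⟩ := exists_miss (n := 4) (fun j => C j) (by
      intro i j hij
      rcases Nat.lt_or_gt_of_ne (fun h => hij (Fin.ext h) : (i : ℕ) ≠ j) with h | h
      · exact ((hd j (by omega)).symm).mono_left (hCK i j h (by omega))
      · exact (hd i (by omega)).mono_right (hCK j i h (by omega))) Z hZfin (by omega)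
    have hj4 : (j : ℕ) < 4 := j.2
    set H : Set V := F ∪ {y | ∃ x ∈ nb G F \ Z, Lnk G (((Kc 4 ∪ range θ) \ F) \ Z) x y} with hHdef
    by_cases hHC : (H ∩ C j).Nonempty
    · obtain ⟨h, hh, hhC⟩ := hHC
      have hhF : h ∉ F := fun hhF => disjoint_left.1 (hd j (by omega)) hhC (hFK j (by omega) hhF)
      obtain ⟨x, hx, hxh⟩ := hh.resolve_left hhF
      refine ⟨x, hx.1, θ t, mem_range_self t, hxh.trans ?_⟩
      obtain ⟨z, hzP, hzC⟩ := hPC t j hj4
      have hCU : C j ⊆ ((Kc 4 ∪ range θ) \ F) \ Z := by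
        intro y hy
        refine ⟨⟨Or.inl (hCK j 4 hj4 le_rfl hy), fun hyF => ?_⟩, fun hyZ => disjoint_left.1 hj hy hyZ⟩
        exact disjoint_left.1 (hd j (by omega)) hy (hFK j (by omega) hyF)
      have hPU : P t ⊆ ((Kc 4 ∪ range θ) \ F) \ Z := by
        intro y hy
        refine ⟨⟨?_, fun hyF => disjoint_left.1 (hP0 t) hy (hF hyF)⟩,
          fun hyZ => disjoint_left.1 ht hy hyZ⟩
        rcases hPK t hy with h | h
        · exact Or.inl h
        · exact Or.inr ⟨t, h.symm⟩
      exact ((hC j (by omega)).lnk' hCU hhC hzC).trans ((hP t).lnk' hPU hzP (hθP t))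
    · exfalso
      rw [not_nonempty_iff_eq_empty] at hHC
      have hHd : ∀ y ∈ H, y ∉ C j := fun y hy hyC => by
        have : y ∈ H ∩ C j := ⟨hy, hyC⟩
        rw [hHC] at this
        exact this
      have hHK : H ⊆ Kc j := by
        rintro y (hy | ⟨x, hx, hxy⟩)
        · exact hFK j (by omega) hy
        · refine hxy.cmp.mem_of_nb (hmono 0 j (by omega) (by omega) (hNF hx.1)) ?_
          rw [disjoint_left]
          intro w hw hw'
          exact hHd w (Or.inr ⟨x, hx, hw⟩) (hb j (by omega) hw')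
      have hFne : F.Nonempty := by
        rw [nonempty_iff_ne_empty]
        rintro rfl
        rw [nb_empty, ncard_empty] at hcard
        omega
      have h1 := hH H (hFne.mono subset_union_left) (hHK.trans (hmono j 4 (by omega) le_rfl))
      have h2 : nb G H ⊆ Z := by
        rintro y ⟨hyH, x, hx, hxy⟩
        by_contra hyZ
        apply hyH
        have hyF : y ∉ F := fun h => hyH (Or.inl h)
        have hyK : y ∈ Kc 4 := by
          by_cases hyK : y ∈ Kc j
          · exact hmono j 4 (by omega) le_rfl hyK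
          · exact hCK j 4 hj4 le_rfl (hb j (by omega) ⟨hyK, x, hHK hx, hxy⟩)
        have hyU : y ∈ ((Kc 4 ∪ range θ) \ F) \ Z := ⟨⟨Or.inl hyK, hyF⟩, hyZ⟩
        rcases hx with hx | ⟨x0, hx0, hx0x⟩
        · exact Or.inr ⟨y, ⟨⟨hyF, x, hx, hxy⟩, hyZ⟩, Lnk.refl hyU⟩
        · exact Or.inr ⟨x0, hx0, hx0x.step hxy hyU⟩
      have h3 := ncard_le_ncard h2 hZfin
      omega
  obtain ⟨D, hDU, hDc, hDd, hDN, hDθ⟩ := hMEN V G ((Kc 4 ∪ range θ) \ F) (nb G F) (range θ) κ hUfin
    (fun x hx => ⟨Or.inl (hmono 0 4 (by omega) le_rfl (hNF hx)), hx.1⟩)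
    (by rintro _ ⟨t, rfl⟩; exact ⟨Or.inr (mem_range_self t), hθF t⟩) key
  have hσ : ∀ i, ∃ t, θ t ∈ D i := by
    intro i
    obtain ⟨_, h, ⟨t, rfl⟩⟩ := hDθ i
    exact ⟨t, h⟩
  choose σ hσ using hσ
  have hσinj : Function.Injective σ := by
    intro i j hij
    by_contra hne
    exact disjoint_left.1 (hDd i j hne) (hσ i) (hij ▸ hσ j)
  have hσbij : Function.Bijective σ := Finite.injective_iff_bijective.1 hσinj
  obtain ⟨τ, hτ1, hτ2⟩ := Function.bijective_iff_has_inverse.1 hσbij
  have hmem : ∀ t, θ t ∈ D (τ t) := fun t => by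
    have := hσ (τ t)
    rwa [hτ2 t] at this
  have hτinj : Function.Injective τ := hτ2.injective
  refine ⟨fun t => D (τ t), fun t => hDc _, fun t t' h => hDd _ _ (fun h' => h (hτinj h')), hmem,
    ?_, fun t => hDN _⟩
  intro t y hy
  have hyU := hDU _ hy
  refine ⟨?_, hyU.2⟩
  rcases hyU.1 with h | ⟨t', rfl⟩
  · exact Or.inl h
  · right
    by_cases h : t' = t
    · rw [h]; rfl
    · exact absurd hy (disjoint_left.1 (hDd _ _ (fun h' => h (hτinj h'))) (hmem t'))

end Pool.Agent.Work.MP_216d61_lc
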