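import Pool.Agent.Work.MP_216d61_lc_full.ASM
import Pool.Agent.Work.MP_216d61_lc_full.BASE2
import Pool.Agent.Work.MP_216d61_lc_full.Base1
import Pool.Agent.Work.MP_216d61_lc_full.CDG
import Pool.Agent.Work.MP_216d61_lc_full.CEL
import Pool.Agent.Work.MP_216d61_lc_full.CELa
import Pool.Agent.Work.MP_216d61_lc_full.CHN
import Pool.Agent.Work.MP_216d61_lc_full.COL
import Pool.Agent.Work.MP_216d61_lc_full.CPT
import Pool.Agent.Work.MP_216d61_lc_full.CRS
import Pool.Agent.Work.MP_216d61_lc_full.DEEP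
import Pool.Agent.Work.MP_216d61_lc_full.EXT
import Pool.Agent.Work.MP_216d61_lc_full.FAN
import Pool.Agent.Work.MP_216d61_lc_full.FINAL
import Pool.Agent.Work.MP_216d61_lc_full.FLP
import Pool.Agent.Work.MP_216d61_lc_full.FRM
import Pool.Agent.Work.MP_216d61_lc_full.FS
import Pool.Agent.Work.MP_216d61_lc_full.GC
import Pool.Agent.Work.MP_216d61_lc_full.GC0
import Pool.Agent.Work.MP_216d61_lc_full.GC1c
import Pool.Agent.Work.MP_216d61_lc_full.GCa
import Pool.Agent.Work.MP_216d61_lc_full.GCb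
import Pool.Agent.Work.MP_216d61_lc_full.INF
import Pool.Agent.Work.MP_216d61_lc_full.Interface
import Pool.Agent.Work.MP_216d61_lc_full.InterfaceINF
import Pool.Agent.Work.MP_216d61_lc_full.InterfaceLIM
import Pool.Agent.Work.MP_216d61_lc_full.LAM
import Pool.Agent.Work.MP_216d61_lc_full.LB
import Pool.Agent.Work.MP_216d61_lc_full.LIM
import Pool.Agent.Work.MP_216d61_lc_full.MEN
import Pool.Agent.Work.MP_216d61_lc_full.MOV
import Pool.Agent.Work.MP_216d61_lc_full.NEST
import Pool.Agent.Work.MP_216d61_lc_full.NO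
import Pool.Agent.Work.MP_216d61_lc_full.NO1
import Pool.Agent.Work.MP_216d61_lc_full.NO2
import Pool.Agent.Work.MP_216d61_lc_full.OM
import Pool.Agent.Work.MP_216d61_lc_full.ONE
import Pool.Agent.Work.MP_216d61_lc_full.PICK
import Pool.Agent.Work.MP_216d61_lc_full.PL
import Pool.Agent.Work.MP_216d61_lc_full.RAYS
import Pool.Agent.Work.MP_216d61_lc_full.REG
import Pool.Agent.Work.MP_216d61_lc_full.REP
import Pool.Agent.Work.MP_216d61_lc_full.RGC
import Pool.Agent.Work.MP_216d61_lc_full.SML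
import Pool.Agent.Work.MP_216d61_lc_full.STAR
import Pool.Agent.Work.MP_216d61_lc_full.STRIP
import Pool.Agent.Work.MP_216d61_lc_full.SWP
import Pool.Agent.Work.MP_216d61_lc_full.TH
import Pool.Agent.Work.MP_216d61_lc_full.UIA
import Pool.Agent.Work.MP_216d61_lc_full.UIB
import Pool.Agent.Work.MP_216d61_lc_full.WIN

/-!
# MP_216d61_lc full: everything together
-/

set_option autoImplicit false

namespace Pool.Agent.Work.MP_216d61_lc

namespace Full

theorem th : Stmt_TH := stmt_TH stmt_PL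
theorem fs : Stmt_FS := stmt_FS th
theorem fan : Stmt_FAN := stmt_FAN stmt_PL
theorem chn : Stmt_CHN := stmt_CHN stmt_PL
theorem no1 : Stmt_NO1 := stmt_NO1 fs fan
theorem swp : Stmt_SWP := stmt_SWP stmt_MOV
theorem no : Stmt_NO := stmt_NO swp stmt_MOV
theorem frm : Stmt_FRM := stmt_FRM no
theorem nest : Stmt_NEST := stmt_NEST frm stmt_COL
theorem win : Stmt_WIN := stmt_WIN stmt_MEN
theorem no2 : Stmt_NO2 := stmt_NO2 no1 nest win fan
theorem strip : Stmt_STRIP :=
  stmt_STRIP (stmt_RAYS th stmt_MEN) stmt_RGC (stmt_STAR stmt_MOV) swp stmt_MOV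
theorem gc : Stmt_GC := stmt_GC stmt_LB
theorem flp : Stmt_FLP := stmt_FLP fs
theorem cdg : Stmt_CDG := stmt_CDG flp
theorem crs : Stmt_CRS := stmt_CRS gc flp cdg
theorem deep : Stmt_DEEP := stmt_DEEP fs flp
theorem cel : Stmt_CEL := stmt_CEL no2 nest win stmt_COL
theorem asm : Stmt_ASM := stmt_ASM chn
theorem reg : Stmt_REG := stmt_REG strip no2 cel asm
theorem inf : Stmt_INF := stmt_INF reg deep nest crs flp stmt_MOV swp
theorem uia : Stmt_UIA := stmt_UIA stmt_REP
theorem uib : Stmt_UIB := stmt_UIB uia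
theorem sml : Stmt_SML := stmt_SML uib
theorem one : Stmt_ONE := stmt_ONE sml stmt_LAM stmt_PL
theorem pick : Stmt_PICK := stmt_PICK sml one
theorem lim : Stmt_LIM := stmt_LIM stmt_EXT pick stmt_CPT

end Full

/-- Every rational limiting density is the limiting density of a class of bounded treewidth. -/
theorem bt_of_isDen_all (a b : ℕ) (h : IsDen ((a : ℝ) / ((b : ℝ) + 1))) :
    BT ((a : ℝ) / ((b : ℝ) + 1)) := bt_of_isDen Full.inf Full.lim a b h

/-- **Membership in the set of limiting densities is decidable.** -/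
theorem main_all : ComputablePred fun p : ℕ × ℕ => IsDen ((p.1 : ℝ) / ((p.2 : ℝ) + 1)) :=
  main_full Full.inf Full.lim

end Pool.Agent.Work.MP_216d61_lc
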