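import Pool.Agent.Work.MP_216d61_lc_full.Base1

/-!
# MP_216d61_lc full: block ASM (helper36)
-/

set_option autoImplicit false

namespace Pool.Agent.Work.MP_216d61_lc

open Relation Set

namespace AsmAux

/-- a sequence of objects, each beyond the preceding ones -/
theorem exists_seq {V α : Type} (P : Set V → α → Prop) (U : α → Set V)
    (hU : ∀ S a, P S a → (U a).Finite) (h : ∀ S : Set V, S.Finite → ∃ a, P S a) :
    ∃ (D : ℕ → α) (S : ℕ → Set V), (∀ j, P (S j) (D j)) ∧ ∀ i j, i < j → U (D i) ⊆ S j := by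
  classical
  have : Nonempty α := ⟨(h ∅ Set.finite_empty).choose⟩
  choose! f hf using h
  let st : ℕ → Set V × α := fun n => Nat.rec (∅, f ∅) (fun _ s => (s.1 ∪ U s.2, f (s.1 ∪ U s.2))) n
  have h0 : st 0 = (∅, f ∅) := rfl
  have hsucc : ∀ n, st (n + 1) = ((st n).1 ∪ U (st n).2, f ((st n).1 ∪ U (st n).2)) := fun n => rfl
  have hst : ∀ n, (st n).1.Finite ∧ (st n).2 = f (st n).1 := by
    intro n
    induction n with
    | zero => exact ⟨Set.finite_empty, rfl⟩
    | succ n ih =>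
      rw [hsucc]
      refine ⟨ih.1.union ?_, rfl⟩
      have := hf _ ih.1
      rw [← ih.2] at this
      exact hU _ _ this
  refine ⟨fun n => (st n).2, fun n => (st n).1, ?_, ?_⟩
  · intro j
    show P (st j).1 (st j).2
    rw [(hst j).2]
    exact hf _ (hst j).1
  · intro i j hij
    show U (st i).2 ⊆ (st j).1
    have key : ∀ k, U (st i).2 ⊆ (st (i + 1 + k)).1 := by
      intro k
      induction k with
      | zero =>
        rw [Nat.add_zero, hsucc]
        exact subset_union_right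
      | succ k ih =>
        rw [← Nat.add_assoc, hsucc]
        exact ih.trans subset_union_left
    have := key (j - (i + 1))
    rwa [show i + 1 + (j - (i + 1)) = j by omega] at this

/-- the data of a cell -/
structure CD (V : Type) where
  (p F1 F2 R1 R2 T1 T2 : Set V)
  (f0 f1 f2 e0 e1 e2 : ℕ)

variable {V : Type} {G : SimpleGraph V} {r : ℕ} {A : Fin r → V → Prop} {K : ℕ} {ray : ℕ → ℕ → V}
  {S : Set V} {c d i0 i1 i2 : ℕ} {Lb : Set (Fin r)} {g ρ : ℝ}

/-- the seven sets of a cell -/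
def CD.X (D : CD V) : ℕ → Set V
  | 0 => D.p
  | 1 => D.F1
  | 2 => D.F2
  | 3 => D.R1
  | 4 => D.R2
  | 5 => D.T1
  | 6 => D.T2
  | _ => ∅

/-- the union of the sets of a cell -/
def CD.U (D : CD V) : Set V := D.p ∪ D.F1 ∪ D.F2 ∪ D.R1 ∪ D.R2 ∪ D.T1 ∪ D.T2

/-- `D` is a cell -/
def CD.IsCell (D : CD V) (ρ : ℝ) (G : SimpleGraph V) (A : Fin r → V → Prop) (ray : ℕ → ℕ → V) (S : Set V)
    (c d i0 i1 i2 : ℕ) (Lb : Set (Fin r)) (g : ℝ) : Prop :=
  Cell ρ G A ray S c d i0 i1 i2 Lb g D.p D.F1 D.F2 D.R1 D.R2 D.T1 D.T2 D.f0 D.f1 D.f2 D.e0 D.e1 D.e2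

theorem X_sub (D : CD V) : ∀ a, D.X a ⊆ D.U := by
  intro a x hx
  rcases a with _ | _ | _ | _ | _ | _ | _ | a
  · exact Or.inl (Or.inl (Or.inl (Or.inl (Or.inl (Or.inl hx)))))
  · exact Or.inl (Or.inl (Or.inl (Or.inl (Or.inl (Or.inr hx)))))
  · exact Or.inl (Or.inl (Or.inl (Or.inl (Or.inr hx))))
  · exact Or.inl (Or.inl (Or.inl (Or.inr hx)))
  · exact Or.inl (Or.inl (Or.inr hx))
  · exact Or.inl (Or.inr hx)
  · exact Or.inr hx
  · exact hx.elim

theorem X_disj {D : CD V} (h : D.IsCell ρ G A ray S c d i0 i1 i2 Lb g) :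
    ∀ a b x, x ∈ D.X a → x ∈ D.X b → a = b := by
  have key : ∀ a b, a < b → ∀ x, x ∈ D.X a → x ∉ D.X b := by
    intro a b hab x h1 h2
    have dp := fun h1 h2 => Set.disjoint_left.1 h.dp (show x ∈ _ from h1) h2
    have d1 := fun h1 h2 => Set.disjoint_left.1 h.d1 (show x ∈ _ from h1) h2
    have d2 := fun h1 h2 => Set.disjoint_left.1 h.d2 (show x ∈ _ from h1) h2
    have d3 := fun h1 h2 => Set.disjoint_left.1 h.d3 (show x ∈ _ from h1) h2
    have d4 := fun h1 h2 => Set.disjoint_left.1 h.d4 (show x ∈ _ from h1) h2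
    have d5 := fun h1 h2 => Set.disjoint_left.1 h.d5 (show x ∈ _ from h1) h2
    rcases a with _ | _ | _ | _ | _ | _ | _ | a
    · refine dp h1 ?_
      rcases b with _ | _ | _ | _ | _ | _ | _ | b
      · omega
      · exact Or.inl (Or.inl (Or.inl (Or.inl (Or.inl h2))))
      · exact Or.inl (Or.inl (Or.inl (Or.inl (Or.inr h2))))
      · exact Or.inl (Or.inl (Or.inl (Or.inr h2)))
      · exact Or.inl (Or.inl (Or.inr h2))
      · exact Or.inl (Or.inr h2)
      · exact Or.inr h2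
      · exact h2.elim
    · refine d1 h1 ?_
      rcases b with _ | _ | _ | _ | _ | _ | _ | b
      · omega
      · omega
      · exact Or.inl (Or.inl (Or.inl (Or.inl h2)))
      · exact Or.inl (Or.inl (Or.inl (Or.inr h2)))
      · exact Or.inl (Or.inl (Or.inr h2))
      · exact Or.inl (Or.inr h2)
      · exact Or.inr h2
      · exact h2.elim
    · refine d2 h1 ?_
      rcases b with _ | _ | _ | _ | _ | _ | _ | b
      · omega
      · omega
      · omega
      · exact Or.inl (Or.inl (Or.inl h2))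
      · exact Or.inl (Or.inl (Or.inr h2))
      · exact Or.inl (Or.inr h2)
      · exact Or.inr h2
      · exact h2.elim
    · refine d3 h1 ?_
      rcases b with _ | _ | _ | _ | _ | _ | _ | b
      · omega
      · omega
      · omega
      · omega
      · exact Or.inl (Or.inl h2)
      · exact Or.inl (Or.inr h2)
      · exact Or.inr h2
      · exact h2.elim
    · refine d4 h1 ?_
      rcases b with _ | _ | _ | _ | _ | _ | _ | b
      · omega
      · omega
      · omega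
      · omega
      · omega
      · exact Or.inl h2
      · exact Or.inr h2
      · exact h2.elim
    · refine d5 h1 ?_
      rcases b with _ | _ | _ | _ | _ | _ | _ | b
      · omega
      · omega
      · omega
      · omega
      · omega
      · omega
      · exact h2
      · exact h2.elim
    · rcases b with _ | _ | _ | _ | _ | _ | _ | b
      · omega
      · omega
      · omega
      · omega
      · omega
      · omega
      · omega
      · exact h2
    · exact h1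
  intro a b x h1 h2
  rcases lt_trichotomy a b with hab | hab | hab
  · exact absurd h2 (key a b hab x h1)
  · exact hab
  · exact absurd h1 (key b a hab x h2)

theorem X_r0 {D : CD V} (h : D.IsCell ρ G A ray S c d i0 i1 i2 Lb g) :
    ∀ a m, ray i0 m ∈ D.X a → a = 0 ∧ D.f0 ≤ m ∧ m ≤ D.e0 := by
  intro a m hx
  obtain ⟨h1, h2, h3, h4, h5⟩ := h.r0
  rcases a with _ | _ | _ | _ | _ | _ | _ | a
  · refine ⟨rfl, ?_, ?_⟩
    · by_contra hm
      exact h3 m (by omega) hx
    · by_contra hm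
      exact h4 m (by omega) hx
  · exact absurd (Or.inl (Or.inl (Or.inl (Or.inl (Or.inl hx))))) (h5 m)
  · exact absurd (Or.inl (Or.inl (Or.inl (Or.inl (Or.inr hx))))) (h5 m)
  · exact absurd (Or.inl (Or.inl (Or.inl (Or.inr hx)))) (h5 m)
  · exact absurd (Or.inl (Or.inl (Or.inr hx))) (h5 m)
  · exact absurd (Or.inl (Or.inr hx)) (h5 m)
  · exact absurd (Or.inr hx) (h5 m)
  · exact hx.elim

theorem X_r1 {D : CD V} (h : D.IsCell ρ G A ray S c d i0 i1 i2 Lb g) :
    ∀ a m, ray i1 m ∈ D.X a → D.f1 ≤ m ∧ m ≤ D.e1 := by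
  intro a m hx
  obtain ⟨_, _, h3, h4⟩ := h.r1
  have hx' := X_sub D a hx
  refine ⟨?_, ?_⟩
  · by_contra hm
    exact h3 m (by omega) hx'
  · by_contra hm
    exact h4 m (by omega) hx'

theorem X_r2 {D : CD V} (h : D.IsCell ρ G A ray S c d i0 i1 i2 Lb g) :
    ∀ a m, ray i2 m ∈ D.X a → D.f2 ≤ m ∧ m ≤ D.e2 := by
  intro a m hx
  obtain ⟨_, _, h3, h4⟩ := h.r2
  have hx' := X_sub D a hx
  refine ⟨?_, ?_⟩
  · by_contra hm
    exact h3 m (by omega) hx'
  · by_contra hm
    exact h4 m (by omega) hx'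

theorem X_rt {D : CD V} (h : D.IsCell ρ G A ray S c d i0 i1 i2 Lb g) :
    ∀ a m, ray (c - 1) m ∈ D.X a → a = 5 := by
  intro a m hx
  have h5 := h.rt
  rcases a with _ | _ | _ | _ | _ | _ | _ | a
  · exact absurd (Or.inl (Or.inl (Or.inl (Or.inl (Or.inl hx))))) (h5 m)
  · exact absurd (Or.inl (Or.inl (Or.inl (Or.inl (Or.inr hx))))) (h5 m)
  · exact absurd (Or.inl (Or.inl (Or.inl (Or.inr hx)))) (h5 m)
  · exact absurd (Or.inl (Or.inl (Or.inr hx))) (h5 m)
  · exact absurd (Or.inl (Or.inr hx)) (h5 m)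
  · rfl
  · exact absurd (Or.inr hx) (h5 m)
  · exact hx.elim

theorem X_rb {D : CD V} (h : D.IsCell ρ G A ray S c d i0 i1 i2 Lb g) :
    ∀ a m, ray (d + 1) m ∈ D.X a → a = 6 := by
  intro a m hx
  have h5 := h.rb
  rcases a with _ | _ | _ | _ | _ | _ | _ | a
  · exact absurd (Or.inl (Or.inl (Or.inl (Or.inl (Or.inl hx))))) (h5 m)
  · exact absurd (Or.inl (Or.inl (Or.inl (Or.inl (Or.inr hx))))) (h5 m)
  · exact absurd (Or.inl (Or.inl (Or.inl (Or.inr hx)))) (h5 m)
  · exact absurd (Or.inl (Or.inl (Or.inr hx))) (h5 m)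
  · exact absurd (Or.inl (Or.inr hx)) (h5 m)
  · exact absurd (Or.inr hx) (h5 m)
  · rfl
  · exact hx.elim

end AsmAux

open AsmAux in
/-- **Block ASM** -/
theorem stmt_ASM (hCHN : Stmt_CHN) : Stmt_ASM := by
  intro ρ V G r A hs K ray hR c d i0 i1 i2 Lb g hc1 hc hi1 hi2 hd hK hcell
  by_contra hcon
  obtain ⟨a, b, hab⟩ := hs.rat
  obtain ⟨n, hn⟩ := hCHN a b r
  rw [← hab] at hn
  apply hs.nbt
  -- the sequence of cells
  obtain ⟨D, S, hD, hDS⟩ := exists_seq
    (P := fun (S : Set V) (D : CD V) => D.IsCell ρ G A ray S c d i0 i1 i2 Lb g)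
    (U := fun D => D.U ∪ (⋃ t ∈ ({i0, i1, i2} : Set ℕ), {x | ∃ m, 0 ≤ m ∧ m ≤ D.e0 + D.e1 + D.e2 ∧ x = ray t m}))
    (by
      intro S D h
      obtain ⟨h1, h2, h3, h4, h5, h6, h7⟩ := h.fin
      refine Set.Finite.union ?_ ?_
      · exact (((((h1.union h2).union h3).union h4).union h5).union h6).union h7
      · refine Set.Finite.biUnion (by simp) ?_
        intro t _
        exact finite_seg _ _ _)
    (by
      intro S hS
      obtain ⟨p, F1, F2, R1, R2, T1, T2, f0, f1, f2, e0, e1, e2, h⟩ := hcell S hS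
      exact ⟨⟨p, F1, F2, R1, R2, T1, T2, f0, f1, f2, e0, e1, e2⟩, h⟩)
  have hU : ∀ i j, i < j → ∀ x, x ∈ (D i).U → x ∉ (D j).U := by
    intro i j hij x h1 h2
    exact Set.disjoint_left.1 (hD j).dS h2 (hDS i j hij (Or.inl h1))
  have hX : ∀ i j a b x, x ∈ (D i).X a → x ∈ (D j).X b → i = j ∧ a = b := by
    intro i j a b x h1 h2
    have h1' := X_sub _ _ h1
    have h2' := X_sub _ _ h2
    rcases lt_trichotomy i j with h | h | h
    · exact absurd h2' (hU i j h x h1')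
    · subst h
      exact ⟨rfl, X_disj (hD i) a b x h1 h2⟩
    · exact absurd h1' (hU j i h x h2')
  have hpos : ∀ i j, i < j → ∀ t, (t = i0 ∨ t = i1 ∨ t = i2) → ∀ m ≤ (D i).e0 + (D i).e1 + (D i).e2,
      ray t m ∉ (D j).U := by
    intro i j hij t ht m hm h2
    refine Set.disjoint_left.1 (hD j).dS h2 (hDS i j hij (Or.inr ?_))
    exact Set.mem_biUnion (show t ∈ ({i0, i1, i2} : Set ℕ) from ht) ⟨m, Nat.zero_le _, hm, rfl⟩
  -- positions
  have q0 : ∀ j, (D j).f0 ≤ (D j).e0 := fun j => (X_r0 (hD j) 0 _ (hD j).r0.1).2.2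
  have q1 : ∀ j, (D j).f1 < (D j).e1 := by
    intro j
    have h1 := (X_r1 (hD j) 0 _ (hD j).r1.1).2
    rcases Nat.lt_or_ge (D j).f1 (D j).e1 with h | h
    · exact h
    · have h2 : (D j).f1 = (D j).e1 := by omega
      have h3 : ray i1 (D j).e1 ∈ (D j).X 0 := h2 ▸ (hD j).r1.1
      exact absurd (hX j j 0 3 _ h3 (hD j).r1.2.1).2 (by omega)
  have q2 : ∀ j, (D j).f2 < (D j).e2 := by
    intro j
    have h1 := (X_r2 (hD j) 0 _ (hD j).r2.1).2
    rcases Nat.lt_or_ge (D j).f2 (D j).e2 with h | h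
    · exact h
    · have h2 : (D j).f2 = (D j).e2 := by omega
      have h3 : ray i2 (D j).e2 ∈ (D j).X 0 := h2 ▸ (hD j).r2.1
      exact absurd (hX j j 0 4 _ h3 (hD j).r2.2.1).2 (by omega)
  have s0 : ∀ i j, i < j → (D i).e0 < (D j).f0 := by
    intro i j hij
    by_contra h
    exact hpos i j hij i0 (Or.inl rfl) (D j).f0 (by omega) (X_sub _ 0 (hD j).r0.1)
  have s1 : ∀ i j, i < j → (D i).e1 < (D j).f1 := by
    intro i j hij
    by_contra h
    exact hpos i j hij i1 (Or.inr (Or.inl rfl)) (D j).f1 (by omega) (X_sub _ 0 (hD j).r1.1)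
  have s2 : ∀ i j, i < j → (D i).e2 < (D j).f2 := by
    intro i j hij
    by_contra h
    exact hpos i j hij i2 (Or.inr (Or.inr rfl)) (D j).f2 (by omega) (X_sub _ 0 (hD j).r2.1)
  -- the segments
  let g0 : ℕ → Set V := fun i => {x | ∃ m, (D (i + 1)).e0 ≤ m ∧ m ≤ (D (i + 2)).f0 - 1 ∧ x = ray i0 m}
  let g1 : ℕ → Set V := fun i => {x | ∃ m, (D i).e1 ≤ m ∧ m ≤ (D (i + 1)).f1 ∧ x = ray i1 m}
  let g2 : ℕ → Set V := fun i => {x | ∃ m, (D i).e2 ≤ m ∧ m ≤ (D (i + 1)).f2 ∧ x = ray i2 m}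
  have g0X : ∀ i j a x, x ∈ g0 i → x ∈ (D j).X a → j = i + 1 ∧ a = 0 := by
    rintro i j a _ ⟨m, h1, h2, rfl⟩ h3
    obtain ⟨h4, h5, h6⟩ := X_r0 (hD j) a m h3
    refine ⟨?_, h4⟩
    rcases lt_trichotomy j (i + 1) with h | h | h
    · have := s0 j (i + 1) h
      have := q0 (i + 1)
      omega
    · exact h
    · have h7 : (D (i + 2)).f0 ≤ (D j).f0 := by
        rcases Nat.eq_or_lt_of_le (show i + 2 ≤ j by omega) with h8 | h8
        · rw [h8]
        · have := s0 (i + 2) j h8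
          have := q0 (i + 2)
          omega
      have := s0 (i + 1) (i + 2) (by omega)
      omega
  have g1X : ∀ i j a x, x ∈ g1 i → x ∈ (D j).X a → (j = i ∧ a = 3) ∨ (j = i + 1 ∧ a = 0) := by
    rintro i j a _ ⟨m, h1, h2, rfl⟩ h3
    obtain ⟨h5, h6⟩ := X_r1 (hD j) a m h3
    rcases lt_trichotomy j i with h | h | h
    · have := s1 j i h
      have := q1 i
      omega
    · subst h
      have h7 : m = (D j).e1 := by omega
      rw [h7] at h3
      exact Or.inl ⟨rfl, (hX j j a 3 _ h3 (hD j).r1.2.1).2⟩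
    · rcases Nat.eq_or_lt_of_le (show i + 1 ≤ j by omega) with h8 | h8
      · subst h8
        have h7 : m = (D (i + 1)).f1 := by omega
        rw [h7] at h3
        exact Or.inr ⟨rfl, (hX _ _ a 0 _ h3 (hD (i + 1)).r1.1).2⟩
      · have := s1 (i + 1) j h8
        have := q1 (i + 1)
        omega
  have g2X : ∀ i j a x, x ∈ g2 i → x ∈ (D j).X a → (j = i ∧ a = 4) ∨ (j = i + 1 ∧ a = 0) := by
    rintro i j a _ ⟨m, h1, h2, rfl⟩ h3
    obtain ⟨h5, h6⟩ := X_r2 (hD j) a m h3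
    rcases lt_trichotomy j i with h | h | h
    · have := s2 j i h
      have := q2 i
      omega
    · subst h
      have h7 : m = (D j).e2 := by omega
      rw [h7] at h3
      exact Or.inl ⟨rfl, (hX j j a 4 _ h3 (hD j).r2.2.1).2⟩
    · rcases Nat.eq_or_lt_of_le (show i + 1 ≤ j by omega) with h8 | h8
      · subst h8
        have h7 : m = (D (i + 1)).f2 := by omega
        rw [h7] at h3
        exact Or.inr ⟨rfl, (hX _ _ a 0 _ h3 (hD (i + 1)).r2.1).2⟩
      · have := s2 (i + 1) j h8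
        have := q2 (i + 1)
        omega
  -- the sets of the chain
  let P : ℕ → Set V := fun i => (D (i + 1)).p ∪ (D i).R1 ∪ (D i).R2 ∪ g0 i ∪ g1 i ∪ g2 i
  have hPX : ∀ i j a x, x ∈ P i → x ∈ (D j).X a → (j = i + 1 ∧ a = 0) ∨ (j = i ∧ (a = 3 ∨ a = 4)) := by
    rintro i j a x (((((h | h) | h) | h) | h) | h) h'
    · obtain ⟨h1, h2⟩ := hX _ _ _ _ x h' (show x ∈ (D (i + 1)).X 0 from h)
      exact Or.inl ⟨h1, h2⟩
    · obtain ⟨h1, h2⟩ := hX _ _ _ _ x h' (show x ∈ (D i).X 3 from h)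
      exact Or.inr ⟨h1, Or.inl h2⟩
    · obtain ⟨h1, h2⟩ := hX _ _ _ _ x h' (show x ∈ (D i).X 4 from h)
      exact Or.inr ⟨h1, Or.inr h2⟩
    · exact Or.inl (g0X i j a x h h')
    · rcases g1X i j a x h h' with h2 | h2
      · exact Or.inr ⟨h2.1, Or.inl h2.2⟩
      · exact Or.inl h2
    · rcases g2X i j a x h h' with h2 | h2
      · exact Or.inr ⟨h2.1, Or.inr h2.2⟩
      · exact Or.inl h2
  have hPP : ∀ i j, i < j → ∀ x, x ∈ P i → x ∉ P j := by
    rintro i j hij x hx (((((h | h) | h) | h) | h) | h)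
    · rcases hPX i (j + 1) 0 x hx h with h2 | h2 <;> omega
    · rcases hPX i j 3 x hx h with h2 | h2 <;> omega
    · rcases hPX i j 4 x hx h with h2 | h2 <;> omega
    · rcases hx with (((((hx | hx) | hx) | hx) | hx) | hx)
      · have := g0X j (i + 1) 0 x h hx
        omega
      · have := g0X j i 3 x h hx
        omega
      · have := g0X j i 4 x h hx
        omega
      · obtain ⟨m, h1, h2, rfl⟩ := h
        obtain ⟨m', h3, h4, h5⟩ := hx
        obtain ⟨_, rfl⟩ := hR.inj i0 (by omega) i0 (by omega) m m' h5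
        have h7 : (D (i + 2)).f0 ≤ (D (j + 1)).f0 := by
          rcases Nat.eq_or_lt_of_le (show i + 2 ≤ j + 1 by omega) with h8 | h8
          · rw [h8]
          · have := s0 (i + 2) (j + 1) h8
            have := q0 (i + 2)
            omega
        have := q0 (j + 1)
        have := s0 (i + 1) (i + 2) (by omega)
        omega
      · obtain ⟨m, h1, h2, rfl⟩ := h
        obtain ⟨m', h3, h4, h5⟩ := hx
        have := (hR.inj i0 (by omega) i1 (by omega) m m' h5).1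
        omega
      · obtain ⟨m, h1, h2, rfl⟩ := h
        obtain ⟨m', h3, h4, h5⟩ := hx
        have := (hR.inj i0 (by omega) i2 (by omega) m m' h5).1
        omega
    · rcases hx with (((((hx | hx) | hx) | hx) | hx) | hx)
      · have := g1X j (i + 1) 0 x h hx
        omega
      · have := g1X j i 3 x h hx
        omega
      · have := g1X j i 4 x h hx
        omega
      · obtain ⟨m, h1, h2, rfl⟩ := h
        obtain ⟨m', h3, h4, h5⟩ := hx
        have := (hR.inj i1 (by omega) i0 (by omega) m m' h5).1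
        omega
      · obtain ⟨m, h1, h2, rfl⟩ := h
        obtain ⟨m', h3, h4, h5⟩ := hx
        obtain ⟨_, rfl⟩ := hR.inj i1 (by omega) i1 (by omega) m m' h5
        have := q1 (i + 1)
        rcases Nat.eq_or_lt_of_le (show i + 1 ≤ j by omega) with h8 | h8
        · subst h8
          omega
        · have := s1 (i + 1) j h8
          have := q1 j
          omega
      · obtain ⟨m, h1, h2, rfl⟩ := h
        obtain ⟨m', h3, h4, h5⟩ := hx
        have := (hR.inj i1 (by omega) i2 (by omega) m m' h5).1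
        omega
    · rcases hx with (((((hx | hx) | hx) | hx) | hx) | hx)
      · have := g2X j (i + 1) 0 x h hx
        omega
      · have := g2X j i 3 x h hx
        omega
      · have := g2X j i 4 x h hx
        omega
      · obtain ⟨m, h1, h2, rfl⟩ := h
        obtain ⟨m', h3, h4, h5⟩ := hx
        have := (hR.inj i2 (by omega) i0 (by omega) m m' h5).1
        omega
      · obtain ⟨m, h1, h2, rfl⟩ := h
        obtain ⟨m', h3, h4, h5⟩ := hx
        have := (hR.inj i2 (by omega) i1 (by omega) m m' h5).1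
        omega
      · obtain ⟨m, h1, h2, rfl⟩ := h
        obtain ⟨m', h3, h4, h5⟩ := hx
        obtain ⟨_, rfl⟩ := hR.inj i2 (by omega) i2 (by omega) m m' h5
        have := q2 (i + 1)
        rcases Nat.eq_or_lt_of_le (show i + 1 ≤ j by omega) with h8 | h8
        · subst h8
          omega
        · have := s2 (i + 1) j h8
          have := q2 j
          omega
  have hPK : ∀ i t m, t < K → t ≠ i0 → t ≠ i1 → t ≠ i2 → ray t m ∈ P i →
      ∃ j a, (a = 0 ∨ a = 3 ∨ a = 4) ∧ ray t m ∈ (D j).X a := by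
    rintro i t m ht t0 t1 t2 (((((h | h) | h) | h) | h) | h)
    · exact ⟨i + 1, 0, Or.inl rfl, h⟩
    · exact ⟨i, 3, Or.inr (Or.inl rfl), h⟩
    · exact ⟨i, 4, Or.inr (Or.inr rfl), h⟩
    · obtain ⟨m', h1, h2, h3⟩ := h
      exact absurd (hR.inj t ht i0 (by omega) m m' h3).1 t0
    · obtain ⟨m', h1, h2, h3⟩ := h
      exact absurd (hR.inj t ht i1 (by omega) m m' h3).1 t1
    · obtain ⟨m', h1, h2, h3⟩ := h
      exact absurd (hR.inj t ht i2 (by omega) m m' h3).1 t2
  have hPconn : ∀ i, Conn G (P i) := by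
    intro i
    obtain ⟨c1, c2, c3, _, _⟩ := (hD i).conn
    obtain ⟨c1', _⟩ := (hD (i + 1)).conn
    have w0 : (D (i + 1)).e0 ≤ (D (i + 2)).f0 - 1 := by
      have := s0 (i + 1) (i + 2) (by omega)
      omega
    have w1 : (D i).e1 ≤ (D (i + 1)).f1 := (s1 i (i + 1) (by omega)).le
    have w2 : (D i).e2 ≤ (D (i + 1)).f2 := (s2 i (i + 1) (by omega)).le
    have k0 : Conn G (g0 i) := hR.conn_seg (by omega) w0
    have k1 : Conn G (g1 i) := hR.conn_seg (by omega) w1
    have k2 : Conn G (g2 i) := hR.conn_seg (by omega) w2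
    have a1 : Conn G ((D (i + 1)).p ∪ g0 i) :=
      c1'.union k0 (hD (i + 1)).r0.2.1 ⟨_, le_refl _, w0, rfl⟩
    have a2 : Conn G ((D (i + 1)).p ∪ g0 i ∪ g1 i) :=
      a1.union k1 (Or.inl (hD (i + 1)).r1.1) ⟨_, w1, le_refl _, rfl⟩
    have a3 : Conn G ((D (i + 1)).p ∪ g0 i ∪ g1 i ∪ g2 i) :=
      a2.union k2 (Or.inl (Or.inl (hD (i + 1)).r2.1)) ⟨_, w2, le_refl _, rfl⟩
    have a4 : Conn G ((D (i + 1)).p ∪ g0 i ∪ g1 i ∪ g2 i ∪ (D i).R1) :=
      a3.union c2 (Or.inl (Or.inr ⟨_, le_refl _, w1, rfl⟩)) (hD i).r1.2.1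
    have a5 : Conn G ((D (i + 1)).p ∪ g0 i ∪ g1 i ∪ g2 i ∪ (D i).R1 ∪ (D i).R2) :=
      a4.union c3 (Or.inl (Or.inr ⟨_, le_refl _, w2, rfl⟩)) (hD i).r2.2.1
    have e : (D (i + 1)).p ∪ g0 i ∪ g1 i ∪ g2 i ∪ (D i).R1 ∪ (D i).R2 = P i := by
      ext x
      simp only [P, Set.mem_union]
      tauto
    rwa [e] at a5
  let H1 : Set V := {x | ∃ m, 0 ≤ m ∧ x = ray (c - 1) m} ∪ ⋃ j, (D j).T1
  let H2 : Set V := {x | ∃ m, 0 ≤ m ∧ x = ray (d + 1) m} ∪ ⋃ j, (D j).T2
  have hH1 : Conn G H1 := by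
    refine Conn.iUnion (hR.conn_tail (by omega) 0) (fun j => (hD j).conn.2.2.2.1) ?_
    intro j
    obtain ⟨m, hm⟩ := (hD j).tt
    exact ⟨_, hm, _, ⟨m, Nat.zero_le _, rfl⟩, Or.inl rfl⟩
  have hH2 : Conn G H2 := by
    refine Conn.iUnion (hR.conn_tail (by omega) 0) (fun j => (hD j).conn.2.2.2.2) ?_
    intro j
    obtain ⟨m, hm⟩ := (hD j).tb
    exact ⟨_, hm, _, ⟨m, Nat.zero_le _, rfl⟩, Or.inl rfl⟩
  -- a set `X j a` meets `H1` only if `a = 5`
  have hH1X : ∀ j a x, x ∈ H1 → x ∈ (D j).X a → a = 5 := by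
    rintro j a x (⟨m, _, rfl⟩ | h) h'
    · exact X_rt (hD j) a m h'
    · obtain ⟨j', h⟩ := Set.mem_iUnion.1 h
      exact (hX j j' a 5 x h' h).2
  have hH2X : ∀ j a x, x ∈ H2 → x ∈ (D j).X a → a = 6 := by
    rintro j a x (⟨m, _, rfl⟩ | h) h'
    · exact X_rb (hD j) a m h'
    · obtain ⟨j', h⟩ := Set.mem_iUnion.1 h
      exact (hX j j' a 6 x h' h).2
  have hH12 : Disjoint H1 H2 := by
    rw [Set.disjoint_left]
    rintro x h1 (⟨m, _, rfl⟩ | h2)
    · rcases h1 with ⟨m', _, h3⟩ | h3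
      · have := (hR.inj (d + 1) (by omega) (c - 1) (by omega) m m' h3).1
        omega
      · obtain ⟨j, h3⟩ := Set.mem_iUnion.1 h3
        have := X_rb (hD j) 5 m h3
        omega
    · obtain ⟨j, h2⟩ := Set.mem_iUnion.1 h2
      have := hH1X j 6 x h1 h2
      omega
  have hPH1 : ∀ i, Disjoint (P i) H1 := by
    intro i
    rw [Set.disjoint_left]
    rintro x h1 (⟨m, _, rfl⟩ | h2)
    · obtain ⟨j, a, ha, h3⟩ := hPK i (c - 1) m (by omega) (by omega) (by omega) (by omega) h1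
      have := X_rt (hD j) a m h3
      omega
    · obtain ⟨j, h2⟩ := Set.mem_iUnion.1 h2
      have := hPX i j 5 x h1 h2
      omega
  have hPH2 : ∀ i, Disjoint (P i) H2 := by
    intro i
    rw [Set.disjoint_left]
    rintro x h1 (⟨m, _, rfl⟩ | h2)
    · obtain ⟨j, a, ha, h3⟩ := hPK i (d + 1) m (by omega) (by omega) (by omega) (by omega) h1
      have := X_rb (hD j) a m h3
      omega
    · obtain ⟨j, h2⟩ := Set.mem_iUnion.1 h2
      have := hPX i j 6 x h1 h2
      omega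
  refine hn V G A P (fun i => (D (i + 1)).F1) (fun i => (D (i + 1)).F2) H1 H2 Lb g g hs.mr hH1 hH2 hH12
    (fun i _ => hPconn i) ?_ (fun i _ => ⟨hPH1 i, hPH2 i⟩) (fun i _ => ⟨(hD (i + 1)).fin.2.1, (hD (i + 1)).fin.2.2.1⟩)
    ?_ ?_ ?_ ?_ ?_ ?_ ?_ ?_ ?_ ?_ (fun i _ => (hD (i + 1)).g1) (fun i _ => (hD (i + 1)).g2) ?_
  · intro i _ j _ hij
    rw [Set.disjoint_left]
    rcases Nat.lt_or_gt_of_ne hij with h | h
    · exact hPP i j h
    · exact fun x h1 h2 => hPP j i h x h2 h1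
  · intro i _ j _ hij
    refine ⟨?_, ?_⟩ <;> rw [Set.disjoint_left]
    · intro x h1 h2
      have := (hX (i + 1) (j + 1) 1 1 x h1 h2).1
      omega
    · intro x h1 h2
      have := (hX (i + 1) (j + 1) 2 2 x h1 h2).1
      omega
  · intro i _ j _
    rw [Set.disjoint_left]
    intro x h1 h2
    have := (hX (i + 1) (j + 1) 1 2 x h1 h2).2
    omega
  · intro i _ j _
    refine ⟨?_, ?_⟩ <;> rw [Set.disjoint_left]
    · intro x h1 h2
      have := hPX j (i + 1) 1 x h2 h1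
      omega
    · intro x h1 h2
      have := hPX j (i + 1) 2 x h2 h1
      omega
  · intro i _
    refine ⟨?_, ?_, ?_, ?_⟩ <;> rw [Set.disjoint_left] <;> intro x h1 h2
    · have := hH1X (i + 1) 1 x h2 h1
      omega
    · have := hH2X (i + 1) 1 x h2 h1
      omega
    · have := hH1X (i + 1) 2 x h2 h1
      omega
    · have := hH2X (i + 1) 2 x h2 h1
      omega
  · intro i _
    have h1 := s0 (i + 1) (i + 2) (by omega)
    refine ⟨ray i0 ((D (i + 2)).f0 - 1), ?_, ray i0 (D (i + 2)).f0, ?_, ?_⟩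
    · exact Or.inl (Or.inl (Or.inr ⟨_, by omega, le_refl _, rfl⟩))
    · exact Or.inl (Or.inl (Or.inl (Or.inl (Or.inl (hD (i + 2)).r0.1))))
    · have := hR.adj i0 (by omega) ((D (i + 2)).f0 - 1)
      rwa [show (D (i + 2)).f0 - 1 + 1 = (D (i + 2)).f0 by omega] at this
  · intro i _
    obtain ⟨x, hx, m, hm⟩ := (hD (i + 1)).at1
    exact ⟨x, Or.inl (Or.inl (Or.inl (Or.inl (Or.inl hx)))), _, Or.inl ⟨m, Nat.zero_le _, rfl⟩, hm⟩
  · intro i _
    obtain ⟨x, hx, m, hm⟩ := (hD (i + 1)).at2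
    exact ⟨x, Or.inl (Or.inl (Or.inl (Or.inl (Or.inl hx)))), _, Or.inl ⟨m, Nat.zero_le _, rfl⟩, hm⟩
  · intro i _ a ha
    obtain ⟨x, hx, hx'⟩ := (hD (i + 1)).lab ha
    exact ⟨x, Or.inl (Or.inl (Or.inl (Or.inl (Or.inl hx)))), hx'⟩
  · intro i _
    obtain ⟨x, hx, y, hy, z, hz, h⟩ := (hD (i + 1)).n1
    exact ⟨x, Or.inl (Or.inl (Or.inl (Or.inl (Or.inl hx)))), y, Or.inl (Or.inl (Or.inl (Or.inl (Or.inr hy)))),
      z, Or.inr (Set.mem_iUnion.2 ⟨i + 1, hz⟩), h⟩
  · intro i _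
    obtain ⟨x, hx, y, hy, z, hz, h⟩ := (hD (i + 1)).n2
    exact ⟨x, Or.inl (Or.inl (Or.inl (Or.inl (Or.inl hx)))), y, Or.inl (Or.inl (Or.inl (Or.inr hy))),
      z, Or.inr (Set.mem_iUnion.2 ⟨i + 1, hz⟩), h⟩
  · push Not at hcon
    linarith

end Pool.Agent.Work.MP_216d61_lc
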