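import Pool.Agent.Work.MP_216d61_lc_full.Base1
import Pool.Agent.Work.MP_216d61_lc_full.REG

/-!
# MP_216d61_lc full: block DEEP (helper36)
-/

set_option autoImplicit false

namespace Pool.Agent.Work.MP_216d61_lc

open Relation Set

namespace DeepAux

variable {V : Type} {G : SimpleGraph V}

theorem dp_mem {R : Set V} : ∀ (n : ℕ) {x : V}, Dp G R n x → x ∈ R
  | 0, _, h => h
  | n + 1, _, h => dp_mem n h.1

theorem dp_le {R : Set V} {n : ℕ} : ∀ (m : ℕ) {x : V}, Dp G R (n + m) x → Dp G R n x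
  | 0, _, h => h
  | m + 1, _, h => dp_le m h.1

theorem dp_mono {R R' : Set V} (h : R ⊆ R') : ∀ (n : ℕ) {x : V}, Dp G R n x → Dp G R' n x
  | 0, _, hx => h hx
  | n + 1, _, hx => ⟨dp_mono h n hx.1, fun y hy => dp_mono h n (hx.2.1 y hy),
      fun F hF hxF y hy => dp_mono h n (hx.2.2 F hF hxF y hy)⟩

/-- the rays met by a set -/
def rys (K : ℕ) (ray : ℕ → ℕ → V) (W : Set V) : Set ℕ := {i | i < K ∧ ∃ n, ray i n ∈ W}

theorem rys_fin (K : ℕ) (ray : ℕ → ℕ → V) (W : Set V) : (rys K ray W).Finite :=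
  (Set.finite_Iio K).subset fun _ h => h.1

theorem rys_union (K : ℕ) (ray : ℕ → ℕ → V) (W W' : Set V) :
    rys K ray (W ∪ W') = rys K ray W ∪ rys K ray W' := by
  ext i
  constructor
  · rintro ⟨h1, n, h | h⟩
    · exact Or.inl ⟨h1, n, h⟩
    · exact Or.inr ⟨h1, n, h⟩
  · rintro (⟨h1, n, h⟩ | ⟨h1, n, h⟩)
    · exact ⟨h1, n, Or.inl h⟩
    · exact ⟨h1, n, Or.inr h⟩

theorem rys_singleton {K : ℕ} {ray : ℕ → ℕ → V} (hR : IsRays G K ray) (y : V) :
    (rys K ray {y}).ncard ≤ 1 := by
  rw [Set.ncard_le_one (rys_fin K ray _)]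
  rintro i ⟨hi, n, hn⟩ j ⟨hj, m, hm⟩
  exact (hR.inj i hi j hj n m (by rw [hn, hm])).1

/-- a closed small set avoiding the starting vertices of the rays meets at most three rays -/
theorem rys_small {K : ℕ} {ray : ℕ → ℕ → V} (hR : IsRays G K ray) (lf : ∀ x, {y | G.Adj x y}.Finite)
    {F : Set V} (hF : Small G F) (h0 : ∀ i < K, ray i 0 ∉ F ∪ nb G F) :
    (rys K ray (F ∪ nb G F)).ncard ≤ 3 := by
  classical
  have key : ∀ i ∈ rys K ray (F ∪ nb G F), ∃ n, ray i n ∈ nb G F := by
    rintro i ⟨hi, n, hn | hn⟩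
    · have hex : ∃ n, ray i n ∈ F := ⟨n, hn⟩
      set q := Nat.find hex with hq
      have h1 : ray i q ∈ F := Nat.find_spec hex
      have hq0 : q ≠ 0 := by
        intro h
        rw [h] at h1
        exact h0 i hi (Or.inl h1)
      obtain ⟨p, hp⟩ := Nat.exists_eq_succ_of_ne_zero hq0
      refine ⟨p, ?_, ray i q, h1, ?_⟩
      · exact Nat.find_min hex (by omega)
      · have := hR.adj i hi p
        rw [hp]
        exact this.symm
    · exact ⟨n, hn⟩
  choose! n hn using key
  have hfin : (nb G F).Finite := nb_finite lf hF.1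
  refine le_trans (Set.ncard_le_ncard_of_injOn (fun i => ray i (n i)) (fun i hi => hn i hi) ?_ hfin) hF.2.2
  intro i hi j hj e
  exact (hR.inj i hi.1 j hj.1 (n i) (n j) e).1

/-- **gap argument**: a connected set outside `S1` meeting the ray `m` and at most 13 rays only meets rays in
`[m-12,m+12]` -/
theorem near {T K : ℕ} {ray : ℕ → ℕ → V} {S1 : Set V} (hst : Strip G T K ray S1) {m : ℕ} (hm1 : T + 30 ≤ m)
    (hm2 : m + 30 + T < K) {W : Set V} (hW : Conn G W) (hWS : Disjoint W S1) {n : ℕ} (hn : ray m n ∈ W)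
    (hcard : (rys K ray W).ncard ≤ 13) {i q : ℕ} (hi : i < K) (hq : ray i q ∈ W) : m ≤ i + 12 ∧ i ≤ m + 12 := by
  have hmem : m ∈ rys K ray W := ⟨by omega, n, hn⟩
  -- a gap above
  have gap1 : ∃ b, m < b ∧ b ≤ m + 13 ∧ b ∉ rys K ray W := by
    by_contra hc
    push Not at hc
    have h1 : Set.Icc m (m + 13) ⊆ rys K ray W := by
      intro j hj
      rcases hj.1.lt_or_eq with h | h
      · exact hc j h hj.2
      · rw [← h]
        exact hmem
    have h2 := Set.ncard_le_ncard h1 (rys_fin K ray W)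
    have h3 : (Set.Icc m (m + 13)).ncard = 14 := by
      rw [← Finset.coe_Icc, Set.ncard_coe_finset, Nat.card_Icc]
      omega
    omega
  have gap2 : ∃ a, a < m ∧ m ≤ a + 13 ∧ a ∉ rys K ray W := by
    by_contra hc
    push Not at hc
    have h1 : Set.Icc (m - 13) m ⊆ rys K ray W := by
      intro j hj
      rcases hj.2.lt_or_eq with h | h
      · have := hj.1
        exact hc j h (by omega)
      · rw [h]
        exact hmem
    have h2 := Set.ncard_le_ncard h1 (rys_fin K ray W)
    have h3 : (Set.Icc (m - 13) m).ncard = 14 := by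
      rw [← Finset.coe_Icc, Set.ncard_coe_finset, Nat.card_Icc]
      omega
    omega
  obtain ⟨b, hb1, hb2, hb3⟩ := gap1
  obtain ⟨a, ha1, ha2, ha3⟩ := gap2
  have hin : a < i ∧ i < b := by
    by_contra hc
    obtain ⟨i', s', j', t', c1, c2, c3, c4, c5, c6, c7⟩ := exists_lk1 hst.rays hW hWS (i := m) (s := n) (j := i)
      (t := q) (by omega) hi hn hq (fun j _ => a < j ∧ j < b) ⟨ha1, hb1⟩ hc
    have c6' : ¬ (a < j' ∧ j' < b) := c6
    have c5' : a < i' ∧ i' < b := c5
    have hj'a : j' ≠ a := by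
      rintro rfl
      exact ha3 ⟨c2, t', c4⟩
    have hj'b : j' ≠ b := by
      rintro rfl
      exact hb3 ⟨c2, t', c4⟩
    have := hst.jf i' s' j' t' (by omega) (by omega) c2 c7
    omega
  omega

/-- closures of small sets -/
theorem chain {T K : ℕ} {ray : ℕ → ℕ → V} {S1 : Set V} (lf : ∀ x, {y | G.Adj x y}.Finite)
    (hst : Strip G T K ray S1) {m : ℕ} (hm1 : T + 30 ≤ m) (hm2 : m + 30 + T < K) (S : Set V) (Sq : ℕ → Set V)
    (hmono : ∀ k, Sq k ⊆ Sq (k + 1)) (hnb : ∀ k, nb G (Sq k) ⊆ Sq (k + 1))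
    (hfs : ∀ k F, Small G F → ((F ∪ nb G F) ∩ Sq k).Nonempty → F ∪ nb G F ⊆ Sq (k + 1))
    (h0S : S ⊆ Sq 0) (h0S1 : S1 ⊆ Sq 0) (h0r : ∀ i < K, ray i 0 ∈ Sq 0) (n : ℕ) :
    ∀ (k : ℕ), k ≤ 4 → ∀ (x : V) (W : Set V), Conn G W → ray m n ∈ W → x ∈ W → Disjoint W (Sq 0) → x ∉ Sq k →
      (rys K ray W).ncard + 3 * k ≤ 13 → Dp G (Reach G K ray (m - 12) (m + 12) S) k x := by
  have hle : ∀ k, Sq 0 ⊆ Sq k := by
    intro k
    induction k with
    | zero => exact le_refl _
    | succ k ih => exact ih.trans (hmono k)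
  intro k
  induction k with
  | zero =>
    intro _ x W hW hn hx hd _ hc
    show x ∈ Reach G K ray (m - 12) (m + 12) S
    refine ⟨m, n, by omega, by omega, ?_⟩
    refine (hW.lnk hx hn).mono ?_
    intro z hz hz'
    rcases hz' with hz' | ⟨j, q, hj, h, e⟩
    · exact Set.disjoint_left.1 hd hz (h0S hz')
    · rw [e] at hz
      have := near hst hm1 hm2 hW (hd.mono_right h0S1) hn (by omega) hj hz
      omega
  | succ k ih =>
    intro hk x W hW hn hx hd hxS hc
    refine ⟨ih (by omega) x W hW hn hx hd (fun h => hxS (hmono k h)) (by omega), ?_, ?_⟩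
    · intro y hy
      have hyS : y ∉ Sq k := by
        intro h
        by_cases hxk : x ∈ Sq k
        · exact hxS (hmono k hxk)
        · exact hxS (hnb k ⟨hxk, y, h, hy.symm⟩)
      refine ih (by omega) y (W ∪ {y}) (hW.union_adj (conn_singleton y) hx rfl hy) (Or.inl hn) (Or.inr rfl)
        ?_ hyS ?_
      · rw [Set.disjoint_union_left]
        refine ⟨hd, ?_⟩
        rw [Set.disjoint_singleton_left]
        exact fun h => hyS (hle k h)
      · rw [rys_union]
        have h1 := Set.ncard_union_le (rys K ray W) (rys K ray {y})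
        have h2 := rys_singleton hst.rays y
        omega
    · intro F hF hxF y hy
      have hdk : Disjoint (F ∪ nb G F) (Sq k) := by
        rw [Set.disjoint_left]
        intro z hz hz'
        exact hxS (hfs k F hF ⟨z, hz, hz'⟩ hxF)
      have hcF : Conn G (F ∪ nb G F) := by
        obtain ⟨z0, hz0⟩ := hF.2.1.1
        refine conn_of_center (x0 := z0) (Or.inl hz0) ?_
        rintro z (hz | hz)
        · exact link_mono subset_union_left (hF.2.1.2 z hz z0 hz0)
        · obtain ⟨hzF, u, hu, huz⟩ := hz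
          exact (link_mono subset_union_left (hF.2.1.2 u hu z0 hz0)).head
            ⟨huz.symm, Or.inr ⟨hzF, u, hu, huz⟩, Or.inl hu⟩
      have hyk : y ∉ Sq k := Set.disjoint_left.1 hdk hy
      refine ih (by omega) y (W ∪ (F ∪ nb G F)) (hW.union hcF hx hxF) (Or.inl hn) (Or.inr hy) ?_ hyk ?_
      · rw [Set.disjoint_union_left]
        exact ⟨hd, hdk.mono_right (hle k)⟩
      · rw [rys_union]
        have h1 := Set.ncard_union_le (rys K ray W) (rys K ray (F ∪ nb G F))
        have h2 := rys_small hst.rays lf hF (fun i hi h => Set.disjoint_left.1 hdk h (hle k (h0r i hi)))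
        omega

end DeepAux

open DeepAux RegAux in
/-- **Block DEEP** -/
theorem stmt_DEEP (hFS : Stmt_FS) (hFLP : Stmt_FLP) : Stmt_DEEP := by
  intro ρ V G r A hs T K ray S1 hst m hm1 hm2 S0 l g hS0 hReg S hS
  -- the closures
  have step : ∀ X : Set V, X.Finite → ∃ X' : Set V, X'.Finite ∧ X ⊆ X' ∧ nb G X ⊆ X' ∧
      ∀ F, Small G F → ((F ∪ nb G F) ∩ X).Nonempty → F ∪ nb G F ⊆ X' := by
    intro X hX
    obtain ⟨X', h1, h2, h3⟩ := hFS ρ V G r A hs 3 X hX
    refine ⟨X' ∪ nb G X, h1.union (nb_finite hs.lf hX), h2.trans subset_union_left, subset_union_right, ?_⟩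
    intro F hF hm
    exact (h3 F hF.1 hF.2.1 hF.2.2 hm).trans subset_union_left
  choose! cl hcl1 hcl2 hcl3 hcl4 using step
  set B : Set V := S ∪ S0 ∪ S1 ∪ ⋃ i ∈ Set.Iio K, {ray i 0} with hB
  have hBf : B.Finite := by
    refine ((hS.union hS0).union hst.fin).union ?_
    exact (Set.finite_Iio K).biUnion fun i _ => Set.finite_singleton _
  let Sq : ℕ → Set V := fun k => cl^[k] B
  have hSq : ∀ k, (Sq k).Finite := by
    intro k
    induction k with
    | zero => exact hBf
    | succ k ih =>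
      show (cl^[k + 1] B).Finite
      rw [Function.iterate_succ_apply']
      exact hcl1 _ ih
  have hSs : ∀ k, Sq (k + 1) = cl (Sq k) := fun k => Function.iterate_succ_apply' cl k B
  obtain ⟨N, hN⟩ := hst.rays.exists_beyond (hSq 4)
  have hall : ∀ n, N ≤ n → Dp G (Reach G K ray (m - 12) (m + 12) (S ∪ S0)) 4 (ray m n) := by
    intro n hn
    refine chain hs.lf hst hm1 hm2 (S ∪ S0) Sq ?_ ?_ ?_ ?_ ?_ ?_ n 4 (le_refl _) (ray m n) {ray m n}
      (conn_singleton _) rfl rfl ?_ ?_ ?_
    · intro k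
      rw [hSs]
      exact hcl2 _ (hSq k)
    · intro k
      rw [hSs]
      exact hcl3 _ (hSq k)
    · intro k F hF h
      rw [hSs]
      exact hcl4 _ (hSq k) F hF h
    · intro x hx
      exact Or.inl (Or.inl hx)
    · intro x hx
      exact Or.inl (Or.inr hx)
    · intro i hi
      exact Or.inr (Set.mem_biUnion (show i ∈ Set.Iio K from hi) rfl)
    · rw [Set.disjoint_singleton_left]
      intro h
      apply hN m (by omega) n hn
      have hle : ∀ k, Sq 0 ⊆ Sq k := by
        intro k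
        induction k with
        | zero => exact le_refl _
        | succ k ih =>
          rw [hSs]
          exact ih.trans (hcl2 _ (hSq k))
      exact hle 4 h
    · exact hN m (by omega) n hn
    · have := rys_singleton (K := K) hst.rays (ray m n)
      omega
  have r1 : Reach G K ray (m - 12) (m + 12) (S ∪ S0) ⊆ Reach G K ray (m - 12) (m + 12) S :=
    reach_mono (le_refl _) (le_refl _) subset_union_left
  have r0 : Reach G K ray (m - 12) (m + 12) (S ∪ S0) ⊆ Reach G K ray (m - 12) (m + 12) S0 :=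
    reach_mono (le_refl _) (le_refl _) subset_union_right
  by_cases hT : Tor G (ray m N)
  · exact ⟨N, hT, dp_mono r1 4 (hall N (le_refl _))⟩
  · unfold Tor at hT
    push Not at hT
    obtain ⟨F0, hF0, hmem⟩ := hT
    obtain ⟨p1, p2, p3⟩ := hFLP ρ V G r A hs
    obtain ⟨F, hF, hF0F⟩ := p1 F0 hF0
    have hFR : F ∪ nb G F ⊆ Reach G K ray (m - 12) (m + 12) S0 := by
      intro y hy
      have := (dp_mono r0 4 (hall N (le_refl _))).2.2 F hF.1 (Or.inl (hF0F hmem)) y hy
      exact dp_mem 3 this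
    -- the first vertex outside `F`
    have hex : ∃ q, ray m (N + q) ∉ F := by
      obtain ⟨M, hM⟩ := hst.rays.exists_beyond hF.1.1
      exact ⟨M, hM m (by omega) (N + M) (by omega)⟩
    classical
    set q := Nat.find hex with hq
    have q1 : ray m (N + q) ∉ F := Nat.find_spec hex
    have q0 : q ≠ 0 := by
      intro h
      rw [h] at q1
      exact q1 (hF0F hmem)
    obtain ⟨p, hp⟩ := Nat.exists_eq_succ_of_ne_zero q0
    have q2 : ray m (N + p) ∈ F := by
      by_contra hc
      exact Nat.find_min hex (show p < Nat.find hex by omega) hc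
    have q3 : ray m (N + q) ∈ nb G F := by
      refine ⟨q1, ray m (N + p), q2, ?_⟩
      have := hst.rays.adj m (by omega) (N + p)
      rw [hp]
      exact this
    refine ⟨N + q, ?_, dp_mono r1 4 (hall _ (by omega))⟩
    refine (p3 _ l g hReg).2 F _ hF hFR q3 ?_
    exact dp_le (n := 1) 3 (dp_mono r0 4 (hall _ (by omega)))

end Pool.Agent.Work.MP_216d61_lc
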