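import Pool.Agent.Work.MP_216d61_lc_full.GCa

/-!
# Block GC, part 2: the cases and the induction (helper82)
-/

set_option autoImplicit false

namespace Pool.Agent.Work.MP_216d61_lc

open Relation Set MenAux

namespace GCx

/-- Case 0 -/
def SGc0 : Prop := ∀ (V : Type) [Finite V] (G : SimpleGraph V) (v : V) (s : Fin 4 → V),
  Hyp G v s → (∀ i, G.Adj v (s i)) → Cross G s

/-- Case 1c -/
def SGc1c : Prop := ∀ (V : Type) [Finite V] (G : SimpleGraph V) (v : V) (s : Fin 4 → V),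
  Hyp G v s → G.Adj v (s 0) → (∀ y, y ≠ v → (∀ i, y ≠ s i) → ¬ G.Adj (s 0) y) → Cross G s

variable {V : Type} {G : SimpleGraph V} {v : V} {s : Fin 4 → V} {T A B : Set V}
  {P : Fin 3 → Set V} {z : Fin 3 → V}

theorem Dat.uniq (d : Dat G v s T A B P z) {j : Fin 3} {x : V} (hx : x ∈ P j) (hxA : x ∈ A)
    (hxB : x ∈ B) : x = z j := by
  obtain ⟨i, rfl⟩ := d.zr x hxA hxB
  by_contra hne
  have hij : i ≠ j := by rintro rfl; exact hne rfl
  exact (disjoint_left.1 (d.pd i j hij)) (d.zP i) hx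

theorem case1a [Finite V] (h : Hyp G v s) (h2 : ¬ G.Adj v (s 2)) (d : Dat G v s T A B P z)
    (hc : ∀ x, G.Adj v x → x ∉ T → x ∈ A) : Cross G s := by
  have hvz : ∀ j, G.Adj v (z j) := by
    intro j
    obtain ⟨x, hxP, hx⟩ := d.pq j
    have hxT := (d.pW j x hxP).2
    have := d.uniq hxP (hc x hx hxT) (d.spn.lk x hx hxT)
    rwa [this] at hx
  have hz1 : ∀ i, z 1 ≠ s i := by
    intro i hi
    by_cases hi0 : i = 0
    · subst hi0
      exact (d.pW 1 _ (d.zP 1)).2 (hi ▸ d.adm.s0)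
    · obtain ⟨j, rfl⟩ := Fin.exists_succ_eq.2 hi0
      by_cases hj : j = 1
      · subst hj
        exact h2 (by have := hvz 1; rw [hi] at this; exact this)
      · exact (disjoint_left.1 (d.pd j 1 hj)) (d.ps j) (hi ▸ d.zP 1)
  have hld := h.ld (z 1) (hvz 1) hz1
  have hT1 : ∃ t ∈ T, G.Adj (z 1) t := by
    by_contra hno
    push Not at hno
    have hsub : {y | G.Adj v y ∧ G.Adj (z 1) y} ⊆ {z 0, z 2} := by
      rintro y ⟨hy1, hy2⟩
      have hyT : y ∉ T := fun h1 => hno y h1 hy2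
      obtain ⟨j, rfl⟩ := d.zr y (hc y hy1 hyT) (d.spn.lk y hy1 hyT)
      fin_cases j
      · exact Or.inl rfl
      · exact absurd rfl hy2.ne
      · exact Or.inr rfl
    have h3 := ncard_le_ncard hsub (toFinite _)
    have h4 := ncard_insert_le (z 0) {z 2}
    rw [ncard_singleton] at h4
    omega
  obtain ⟨t, ht, hzt⟩ := hT1
  refine ⟨T ∪ P 1, (P 0 ∪ {v}) ∪ P 2, conn_union_adj d.adm.con (d.pc 1) ht (d.zP 1) hzt.symm,
    conn_union_adj (conn_union_adj (d.pc 0) (conn_singleton v) (d.zP 0) rfl (hvz 0).symm) (d.pc 2)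
      (Or.inr rfl) (d.zP 2) (hvz 2), ?_, Or.inl d.adm.s0, Or.inr (d.ps 1),
      Or.inl (Or.inl (d.ps 0)), Or.inr (d.ps 2)⟩
  rw [disjoint_left]
  rintro x (hx | hx) ((hx' | hx') | hx')
  · exact (d.pW 0 x hx').2 hx
  · rw [mem_singleton_iff] at hx'
    subst hx'
    exact d.adm.vT hx
  · exact (d.pW 2 x hx').2 hx
  · exact (disjoint_left.1 (d.pd 1 0 (by decide))) hx hx'
  · exact (d.pW 1 x hx).1 hx'
  · exact (disjoint_left.1 (d.pd 1 2 (by decide))) hx hx'

/-- contraction of `T` and restriction to `K` -/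
def ctr (G : SimpleGraph V) (K T : Set V) : SimpleGraph (Option K) where
  Adj a b := match a, b with
    | some a, some b => G.Adj a b
    | none, some b => ∃ t ∈ T, G.Adj t b
    | some a, none => ∃ t ∈ T, G.Adj t a
    | none, none => False
  symm := ⟨by
    rintro (_ | a) (_ | b) h
    · exact h
    · exact h
    · exact h
    · exact h.symm⟩
  loopless := ⟨by
    rintro (_ | a) h
    · exact h
    · exact G.loopless.irrefl _ h⟩

/-- the fibres of the contraction -/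
def fib (K T : Set V) : Option K → Set V
  | none => T
  | some a => {(a : V)}

theorem conn_iUnion {W : Type*} {H : SimpleGraph W} {S : Set W} (hS : Conn H S)
    (F : W → Set V) (hF : ∀ a ∈ S, Conn G (F a))
    (hadj : ∀ a ∈ S, ∀ b ∈ S, H.Adj a b → ∃ x ∈ F a, ∃ y ∈ F b, G.Adj x y) :
    Conn G (⋃ a ∈ S, F a) := by
  obtain ⟨a0, ha0⟩ := hS.1
  obtain ⟨x0, hx0⟩ := (hF a0 ha0).1
  have hsub : ∀ a ∈ S, F a ⊆ ⋃ a ∈ S, F a := fun a ha => subset_biUnion_of_mem ha
  have key : ∀ b, ReflTransGen (fun a b => H.Adj a b ∧ a ∈ S ∧ b ∈ S) a0 b → b ∈ S →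
      ∀ y ∈ F b, Lnk G (⋃ a ∈ S, F a) x0 y := by
    intro b hb
    induction hb with
    | refl => exact fun _ y hy => lnk_mono (hsub a0 ha0) (conn_lnk (hF a0 ha0) hx0 hy)
    | tail _ h ih =>
      intro hcS y hy
      obtain ⟨x, hx, y', hy', hxy⟩ := hadj _ h.2.1 _ h.2.2 h.1
      exact lnk_trans (lnk_step (ih h.2.1 x hx) hxy (hsub _ hcS hy'))
        (lnk_mono (hsub _ hcS) (conn_lnk (hF _ hcS) hy' hy))
  refine conn_of_center (x0 := x0) (hsub a0 ha0 hx0) fun y hy => link_symm ?_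
  obtain ⟨b, hb, hyb⟩ := mem_iUnion₂.1 hy
  exact (key b (hS.2 a0 ha0 b hb) hb y hyb).2

theorem conn_fib {K : Set V} (hT : Conn G T) {S : Set (Option K)} (hS : Conn (ctr G K T) S) :
    Conn G (⋃ a ∈ S, fib K T a) := by
  refine conn_iUnion hS _ ?_ ?_
  · rintro (_ | a) _
    · exact hT
    · exact conn_singleton _
  · rintro (_ | a) _ (_ | b) _ hab
    · exact absurd hab (fun h => h)
    · obtain ⟨t, ht, htb⟩ := hab
      exact ⟨t, ht, b, rfl, htb⟩
    · obtain ⟨t, ht, htb⟩ := hab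
      exact ⟨a, rfl, t, ht, htb.symm⟩
    · exact ⟨a, rfl, b, rfl, hab⟩

theorem lnk_map {W : Type*} {H : SimpleGraph W} {S : Set V} {x y : V} (f : V → W)
    (h : Lnk G S x y) (hf : ∀ a ∈ S, ∀ b ∈ S, G.Adj a b → H.Adj (f a) (f b)) :
    Lnk H (f '' S) (f x) (f y) :=
  ⟨mem_image_of_mem f h.1, ReflTransGen.lift f (fun _ _ hab => ⟨hf _ hab.2.1 _ hab.2.2 hab.1,
    mem_image_of_mem f hab.2.1, mem_image_of_mem f hab.2.2⟩) _ _ h.2⟩

section

variable (d : Dat G v s T A B P z)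

/-- the vertex `v` in the contracted graph -/
def nv (v : V) (B : Set V) : Option ↑(insert v B) := some ⟨v, Or.inl rfl⟩

/-- the terminals of the contracted graph -/
def ns (v : V) (B : Set V) (z : Fin 3 → V) (hz : ∀ j, z j ∈ B) : Fin 4 → Option ↑(insert v B) :=
  Fin.cons none fun j => some ⟨z j, Or.inr (hz j)⟩

include d in
theorem form {x1 : Option ↑(insert v B)} (hx : (ctr G (insert v B) T).Adj (nv v B) x1)
    (hx' : ∀ i, x1 ≠ ns v B z d.zB i) :
    ∃ x, ∃ hxK : x ∈ insert v B, x1 = some ⟨x, hxK⟩ ∧ G.Adj v x ∧ x ∈ B ∧ x ∉ A ∧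
      ∀ i, x ≠ s i := by
  rcases x1 with _ | ⟨x, hxK⟩
  · exact absurd rfl (hx' 0)
  · have h1 : G.Adj v x := hx
    have hxB : x ∈ B := by
      rcases hxK with h2 | h2
      · exact absurd h2.symm h1.ne
      · exact h2
    have hxA : x ∉ A := by
      intro hxA
      obtain ⟨j, hj⟩ := d.zr x hxA hxB
      subst hj
      exact hx' j.succ (by unfold ns; rw [Fin.cons_succ])
    refine ⟨x, hxK, rfl, h1, hxB, hxA, fun i hi => ?_⟩
    by_cases hi0 : i = 0
    · subst hi0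
      exact (d.spn.subB hxB).2 (hi ▸ d.adm.s0)
    · exact hxA (hi ▸ d.spn.tm i hi0)

theorem hyp_ctr [Finite V] (h : Hyp G v s) (d : Dat G v s T A B P z)
    (hc : ∃ x, G.Adj v x ∧ x ∈ B ∧ x ∉ A) :
    Hyp (ctr G (insert v B) T) (nv v B) (ns v B z d.zB) := by
  classical
  have hvB : v ∉ B := fun h1 => (d.spn.subB h1).1 rfl
  -- the map to the contracted graph
  set f : V → Option ↑(insert v B) := fun x => if hx : x ∈ insert v B then some ⟨x, hx⟩ else none
    with hf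
  have hfK : ∀ x (hx : x ∈ insert v B), f x = some ⟨x, hx⟩ := fun x hx => dif_pos hx
  have hfadj : ∀ a ∈ insert v B, ∀ b ∈ insert v B, G.Adj a b →
      (ctr G (insert v B) T).Adj (f a) (f b) := by
    intro a ha b hb hab
    rw [hfK a ha, hfK b hb]
    exact hab
  have hfinj : ∀ a ∈ insert v B, ∀ b ∈ insert v B, f a = f b → a = b := by
    intro a ha b hb hab
    rw [hfK a ha, hfK b hb] at hab
    simpa using hab
  -- pulling back a set
  have hpull : ∀ Z1 : Set (Option ↑(insert v B)), nv v B ∉ Z1 →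
      v ∉ {x | x ∈ insert v B ∧ f x ∈ Z1} := by
    rintro Z1 hZ1 ⟨h1, h2⟩
    rw [hfK v h1] at h2
    exact hZ1 h2
  have hcardp : ∀ Z1 : Set (Option ↑(insert v B)),
      {x | x ∈ insert v B ∧ f x ∈ Z1}.ncard ≤ Z1.ncard := by
    intro Z1
    exact ncard_le_ncard_of_injOn f (fun a ha => ha.2) (fun a ha b hb hab =>
      hfinj a ha.1 b hb.1 hab) (toFinite _)
  have himg : ∀ (Z1 : Set (Option ↑(insert v B))) (S : Set V), S ⊆ B →
      (∀ x ∈ S, x ∉ {x | x ∈ insert v B ∧ f x ∈ Z1}) → f '' S ⊆ ({nv v B} ∪ Z1)ᶜ := by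
    rintro Z1 S hSB hS _ ⟨x, hx, rfl⟩ h1
    have hxK : x ∈ insert v B := Or.inr (hSB hx)
    rcases h1 with h1 | h1
    · rw [mem_singleton_iff, hfK x hxK] at h1
      unfold nv at h1
      simp only [Option.some.injEq, Subtype.mk.injEq] at h1
      exact hvB (h1 ▸ hSB hx)
    · exact hS x hx ⟨hxK, h1⟩
  have hzf : ∀ j, f (z j) = ns v B z d.zB j.succ := by
    intro j
    rw [hfK (z j) (Or.inr (d.zB j))]
    unfold ns
    rw [Fin.cons_succ]
  refine ⟨?_, ?_, ?_, ?_, ?_, ?_⟩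
  · -- injective
    unfold ns
    rw [Fin.cons_injective_iff]
    refine ⟨?_, ?_⟩
    · rintro ⟨j, hj⟩
      simp at hj
    · intro i j hij
      simp only [Option.some.injEq, Subtype.mk.injEq] at hij
      exact d.zinj hij
  · -- ne
    intro i
    unfold ns nv
    refine Fin.cases ?_ (fun j => ?_) i
    · simp
    · rw [Fin.cons_succ]
      intro hj
      simp only [Option.some.injEq, Subtype.mk.injEq] at hj
      exact hvB (hj ▸ d.zB j)
  · -- ld
    intro x1 hx1 hx1'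
    obtain ⟨x, hxK, rfl, hvx, hxB, hxA, hxs⟩ := form d hx1 hx1'
    refine (h.ld x hvx hxs).trans (ncard_le_ncard_of_injOn f ?_ ?_ (toFinite _))
    · rintro y ⟨hy1, hy2⟩
      have hyB := d.hY x hxB hxA y hy2 hy1.ne'
      rw [hfK y (Or.inr hyB)]
      exact ⟨hy1, hy2⟩
    · rintro y ⟨hy1, hy2⟩ y' ⟨hy1', hy2'⟩ hyy
      exact hfinj y (Or.inr (d.hY x hxB hxA y hy2 hy1.ne')) y'
        (Or.inr (d.hY x hxB hxA y' hy2' hy1'.ne')) hyy
  · -- wf
    intro x1 hx1 hx1' Z1 hZ1 hvZ hxZ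
    obtain ⟨x, hxK, rfl, hvx, hxB, hxA, hxs⟩ := form d hx1 hx1'
    obtain ⟨i, hi⟩ := h.wf x hvx hxs {x | x ∈ insert v B ∧ f x ∈ Z1} ((hcardp Z1).trans hZ1)
      (hpull Z1 hvZ) (by
        rintro ⟨h1, h2⟩
        rw [hfK x h1] at h2
        exact hxZ h2)
    obtain ⟨w, hwA, hwB, hw⟩ := to_Z d.spn d.hY
      (S := ({v} ∪ {x | x ∈ insert v B ∧ f x ∈ Z1})ᶜ) (fun h1 => h1 (Or.inl rfl)) hxB (by
        rintro ⟨h1, h2⟩
        by_cases hi0 : i = 0
        · subst hi0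
          exact (d.spn.subB h1).2 d.adm.s0
        · exact h2 (d.spn.tm i hi0)) hi
    obtain ⟨j, rfl⟩ := d.zr w hwA hwB
    refine ⟨j.succ, ?_⟩
    have h1 := lnk_map (H := ctr G (insert v B) T) f hw (fun a ha b hb hab =>
      hfadj a (Or.inr ha.1) b (Or.inr hb.1) hab)
    rw [hzf j, hfK x hxK] at h1
    exact lnk_mono (himg Z1 (B ∩ ({v} ∪ {x | x ∈ insert v B ∧ f x ∈ Z1})ᶜ) inter_subset_left
      (fun y hy h2 => hy.2 (Or.inr h2))) h1
  · -- m4
    intro Z1 hZ1 hvZ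
    by_cases hnZ : (none : Option ↑(insert v B)) ∈ Z1
    · set Z2 : Set V := {x | x ∈ insert v B ∧ f x ∈ Z1} with hZ2
      have hc2 : Z2.ncard ≤ 2 := by
        have h1 : Z2.ncard ≤ (Z1 \ {none}).ncard := by
          refine ncard_le_ncard_of_injOn f (fun a ha => ⟨ha.2, ?_⟩) (fun a ha b hb hab =>
            hfinj a ha.1 b hb.1 hab) (toFinite _)
          rw [mem_singleton_iff, hfK a ha.1]
          simp
        rw [ncard_sdiff_singleton_of_mem hnZ] at h1
        omega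
      have hvZ2 : v ∉ Z2 := hpull Z1 hvZ
      have hZ2W : ∀ x ∈ Z2, x ≠ v ∧ x ∉ T := by
        rintro x ⟨hx1, hx2⟩
        rcases hx1 with hx1 | hx1
        · have h1 : x ∈ Z2 := ⟨Or.inl hx1, hx2⟩
          rw [hx1] at h1
          exact absurd h1 hvZ2
        · exact d.spn.subB hx1
      have hex : ∃ i, i ≠ 0 ∧ ∃ x, G.Adj v x ∧ x ∉ T ∧
          Lnk G {x | (x ≠ v ∧ x ∉ T) ∧ x ∉ Z2} (s i) x := by
        by_contra hno
        push Not at hno
        obtain ⟨A', B', hS', hZ'⟩ := spn_of d.adm.si h.ne Z2 hZ2W hno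
        have := d.adm.sep _ _ hS'
        rw [hZ'] at this
        omega
      obtain ⟨i, hi0, x, hx, hxT, hl⟩ := hex
      have hxB := d.spn.lk x hx hxT
      obtain ⟨w, hwA, hwB, hw⟩ := to_Z d.spn d.hY
        (S := {x | (x ≠ v ∧ x ∉ T) ∧ x ∉ Z2}) (fun h1 => h1.1.1 rfl) hxB (by
          rintro ⟨h1, h2⟩
          exact h2 (d.spn.tm i hi0)) (lnk_symm hl)
      obtain ⟨j, rfl⟩ := d.zr w hwA hwB
      refine ⟨f x, ?_, j.succ, ?_⟩
      · rw [hfK x (Or.inr hxB)]
        exact hx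
      · have h1 := lnk_map (H := ctr G (insert v B) T) f hw (fun a ha b hb hab =>
          hfadj a (Or.inr ha.1) b (Or.inr hb.1) hab)
        rw [hzf j] at h1
        exact lnk_mono (himg Z1 (B ∩ {x | (x ≠ v ∧ x ∉ T) ∧ x ∉ Z2}) inter_subset_left
          (fun y hy => hy.2.2)) h1
    · obtain ⟨t, ht, hvt⟩ := d.hT
      refine ⟨none, ⟨t, ht, hvt.symm⟩, 0, ?_⟩
      refine lnk_refl ?_
      rintro (h1 | h1)
      · rw [mem_singleton_iff] at h1
        unfold nv at h1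
        simp at h1
      · exact hnZ h1
  · -- nt
    obtain ⟨x, hx, hxB, hxA⟩ := hc
    refine ⟨f x, ?_, ?_⟩
    · rw [hfK x (Or.inr hxB)]
      exact hx
    · intro i
      rw [hfK x (Or.inr hxB)]
      unfold ns
      refine Fin.cases ?_ (fun j => ?_) i
      · simp
      · rw [Fin.cons_succ]
        intro hj
        simp only [Option.some.injEq, Subtype.mk.injEq] at hj
        exact hxA (hj ▸ d.zA j)

theorem card_ctr [Finite V] (d : Dat G v s T A B P z) (hbig : 2 ≤ T.ncard + (A \ B).ncard) :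
    Nat.card (Option ↑(insert v B)) < Nat.card V := by
  have hvB : v ∉ B := fun h1 => (d.spn.subB h1).1 rfl
  have hvA : v ∉ A := fun h1 => (d.spn.subA h1).1 rfl
  rw [Finite.card_option, Nat.card_coe_set_eq, ncard_insert_of_notMem hvB (toFinite _)]
  have h1 : Disjoint T (A \ B) := by
    rw [disjoint_left]
    exact fun x hx hx' => (d.spn.subA hx'.1).2 hx
  have h2 : Disjoint (T ∪ A \ B) (insert v B) := by
    rw [disjoint_left]
    rintro x (hx | hx) (hx' | hx')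
    · exact d.adm.vT (hx' ▸ hx)
    · exact (d.spn.subB hx').2 hx
    · exact hvA (hx' ▸ hx.1)
    · exact hx.2 hx'
  have h3 := ncard_union_eq h1 (toFinite _) (toFinite _)
  have h4 := ncard_union_eq h2 (toFinite _) (toFinite _)
  rw [ncard_insert_of_notMem hvB (toFinite _), h3] at h4
  have h5 : (T ∪ A \ B ∪ insert v B).ncard ≤ Nat.card V := by
    rw [← ncard_univ]
    exact ncard_le_ncard (subset_univ _) (toFinite _)
  omega

theorem case1b [Finite V] (h : Hyp G v s) (d : Dat G v s T A B P z)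
    (hc : ∃ x, G.Adj v x ∧ x ∈ B ∧ x ∉ A) (hbig : 2 ≤ T.ncard + (A \ B).ncard)
    (ih : ∀ (V' : Type) [Finite V'] (G' : SimpleGraph V') (v' : V') (s' : Fin 4 → V'),
      Nat.card V' < Nat.card V → Hyp G' v' s' → Cross G' s') : Cross G s := by
  obtain ⟨A1, B1, hA1, hB1, hdis, a0, a2, b1, b3⟩ := ih _ (ctr G (insert v B) T) (nv v B)
    (ns v B z d.zB) (card_ctr d hbig) (hyp_ctr h d hc)
  rw [disjoint_left] at hdis
  have hvB : v ∉ B := fun h1 => (d.spn.subB h1).1 rfl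
  have hpart : ∀ j, Conn G (P j ∩ A) := fun j => conn_part (d.pc j)
    (fun x hx => (d.spn.cov x).2 (d.pW j x hx)) d.spn.ne (d.zP j) (d.zA j)
    (fun x hx h1 h2 => d.uniq hx h1 h2)
  have hzmem : ∀ (S : Set (Option ↑(insert v B))) j, ns v B z d.zB j.succ ∈ S →
      z j ∈ ⋃ a ∈ S, fib (insert v B) T a := by
    intro S j hj
    refine mem_iUnion₂.2 ⟨_, hj, ?_⟩
    unfold ns
    rw [Fin.cons_succ]
    rfl
  -- disjointness of the lifts
  have hlift : ∀ x, x ∈ (⋃ a ∈ A1, fib (insert v B) T a) →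
      x ∈ (⋃ a ∈ B1, fib (insert v B) T a) → False := by
    intro x hx hx'
    obtain ⟨a, ha, hxa⟩ := mem_iUnion₂.1 hx
    obtain ⟨b, hb, hxb⟩ := mem_iUnion₂.1 hx'
    have hTK : ∀ y ∈ T, y ∉ insert v B := by
      rintro y hy (h1 | h1)
      · exact d.adm.vT (h1 ▸ hy)
      · exact (d.spn.subB h1).2 hy
    rcases a with _ | a <;> rcases b with _ | b
    · exact hdis ha hb
    · have h1 : x = b.1 := hxb
      exact hTK x hxa (h1 ▸ b.2)
    · have h1 : x = a.1 := hxa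
      exact hTK x hxb (h1 ▸ a.2)
    · have h1 : x = a.1 := hxa
      have h2 : x = b.1 := hxb
      have h3 : a = b := Subtype.ext (h1.symm.trans h2)
      subst h3
      exact hdis ha hb
  have hlp : ∀ (S : Set (Option ↑(insert v B))) j, ns v B z d.zB j.succ ∉ S →
      ∀ x, x ∈ (⋃ a ∈ S, fib (insert v B) T a) → x ∈ P j ∩ A → False := by
    rintro S j hj x hx ⟨hxP, hxA⟩
    obtain ⟨a, ha, hxa⟩ := mem_iUnion₂.1 hx
    rcases a with _ | ⟨a, haK⟩
    · exact (d.pW j x hxP).2 hxa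
    · have h1 : x = a := hxa
      subst h1
      rcases haK with h2 | h2
      · exact (d.pW j x hxP).1 h2
      · have h3 := d.uniq hxP hxA h2
        subst h3
        apply hj
        unfold ns
        rw [Fin.cons_succ]
        exact ha
  have a2' : ns v B z d.zB (Fin.succ 1) ∈ A1 := a2
  have b1' : ns v B z d.zB (Fin.succ 0) ∈ B1 := b1
  have b3' : ns v B z d.zB (Fin.succ 2) ∈ B1 := b3
  have hTA : ∀ x ∈ T, x ∈ ⋃ a ∈ A1, fib (insert v B) T a := by
    intro x hx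
    exact mem_iUnion₂.2 ⟨none, a0, hx⟩
  refine ⟨(⋃ a ∈ A1, fib (insert v B) T a) ∪ (P 1 ∩ A),
    ((⋃ a ∈ B1, fib (insert v B) T a) ∪ (P 0 ∩ A)) ∪ (P 2 ∩ A), ?_, ?_, ?_, ?_, ?_, ?_, ?_⟩
  · exact conn_union (conn_fib d.adm.con hA1) (hpart 1) (hzmem _ _ a2') ⟨d.zP 1, d.zA 1⟩
  · exact conn_union (conn_union (conn_fib d.adm.con hB1) (hpart 0) (hzmem _ _ b1')
      ⟨d.zP 0, d.zA 0⟩) (hpart 2) (Or.inl (hzmem _ _ b3')) ⟨d.zP 2, d.zA 2⟩
  · rw [disjoint_left]
    rintro x (hx | hx) ((hx' | hx') | hx')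
    · exact hlift x hx hx'
    · exact hlp A1 0 (fun h1 => hdis h1 b1') x hx hx'
    · exact hlp A1 2 (fun h1 => hdis h1 b3') x hx hx'
    · exact hlp B1 1 (fun h1 => hdis a2' h1) x hx' hx
    · exact (disjoint_left.1 (d.pd 1 0 (by decide))) hx.1 hx'.1
    · exact (disjoint_left.1 (d.pd 1 2 (by decide))) hx.1 hx'.1
  · exact Or.inl (hTA _ d.adm.s0)
  · exact Or.inr ⟨d.ps 1, d.spn.tm 2 (by decide)⟩
  · exact Or.inl (Or.inr ⟨d.ps 0, d.spn.tm 1 (by decide)⟩)
  · exact Or.inr ⟨d.ps 2, d.spn.tm 3 (by decide)⟩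

end

theorem case1 [Finite V] (h1c : SGc1c) (h : Hyp G v s) (h2 : ¬ G.Adj v (s 2))
    (ih : ∀ (V' : Type) [Finite V'] (G' : SimpleGraph V') (v' : V') (s' : Fin 4 → V'),
      Nat.card V' < Nat.card V → Hyp G' v' s' → Cross G' s') : Cross G s := by
  obtain ⟨T, A, B, P, z, d⟩ := exists_dat h
  by_cases hc : ∃ x, G.Adj v x ∧ x ∈ B ∧ x ∉ A
  swap
  · push Not at hc
    exact case1a h h2 d fun x hx hxT => hc x hx (d.spn.lk x hx hxT)
  by_cases hbig : 2 ≤ T.ncard + (A \ B).ncard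
  · exact case1b h d hc hbig ih
  · have hT1 : 1 ≤ T.ncard := (ncard_pos (toFinite _)).2 ⟨_, d.adm.s0⟩
    have hTe : T = {s 0} := by
      obtain ⟨a, ha⟩ := ncard_eq_one.1 (show T.ncard = 1 by omega)
      have := d.adm.s0
      rw [ha, mem_singleton_iff] at this
      rw [ha, this]
    have hAB : A ⊆ B := by
      have h3 : (A \ B).ncard = 0 := by omega
      rw [ncard_eq_zero (toFinite _)] at h3
      exact sdiff_eq_empty.1 h3
    have hAe : {x : V | ∃ i, i ≠ 0 ∧ s i = x} = A := by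
      refine eq_of_subset_of_ncard_le ?_ ?_ (toFinite _)
      · rintro x ⟨i, hi, rfl⟩
        exact d.spn.tm i hi
      · rw [term_card h.inj, ← d.c3, inter_eq_left.2 hAB]
    refine h1c V G v s h ?_ ?_
    · obtain ⟨t, ht, hvt⟩ := d.hT
      rw [hTe, mem_singleton_iff] at ht
      rwa [ht] at hvt
    · intro y hyv hys hadj
      have hyT : y ∉ T := by rw [hTe]; exact hys 0
      have hyA : y ∉ A := by
        rw [← hAe]
        rintro ⟨i, _, hi⟩
        exact hys i hi.symm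
      have hyB : y ∈ B := ((d.spn.cov y).2 ⟨hyv, hyT⟩).resolve_left hyA
      exact (d.spn.subB (d.hY y hyB hyA (s 0) hadj.symm (h.ne 0))).2 d.adm.s0

theorem gc_main (h0 : SGc0) (h1c : SGc1c) : ∀ (n : ℕ) (V : Type) [Finite V]
    (G : SimpleGraph V) (v : V) (s : Fin 4 → V), Nat.card V ≤ n → Hyp G v s → Cross G s := by
  intro n
  induction n with
  | zero =>
    intro V _ G v s hn _
    have : Nonempty V := ⟨v⟩
    have := Nat.card_pos (α := V)
    omega
  | succ n ih =>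
    intro V _ G v s hn h
    have ih' : ∀ (V' : Type) [Finite V'] (G' : SimpleGraph V') (v' : V') (s' : Fin 4 → V'),
        Nat.card V' < Nat.card V → Hyp G' v' s' → Cross G' s' :=
      fun V' _ G' v' s' hV' h' => ih V' G' v' s' (by omega) h'
    by_cases hall : ∀ i, G.Adj v (s i)
    · exact h0 V G v s h hall
    push Not at hall
    obtain ⟨i, hi⟩ := hall
    have key : ∀ e : Equiv.Perm (Fin 4), e 2 = i → Cross G (s ∘ e) := by
      intro e he
      refine case1 h1c (h.perm e) ?_ ih'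
      change ¬ G.Adj v (s (e 2))
      rw [he]
      exact hi
    fin_cases i
    · obtain ⟨A, B, hA, hB, hd, h0, h2, h1, h3⟩ := key (Equiv.swap 0 2) (by decide)
      exact ⟨A, B, hA, hB, hd, h2, h0, h1, h3⟩
    · obtain ⟨A, B, hA, hB, hd, h0, h2, h1, h3⟩ := key Fin.revPerm (by decide)
      exact ⟨B, A, hB, hA, hd.symm, h3, h1, h2, h0⟩
    · obtain ⟨A, B, hA, hB, hd, h0, h2, h1, h3⟩ := key (Equiv.refl _) (by decide)
      exact ⟨A, B, hA, hB, hd, h0, h2, h1, h3⟩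
    · obtain ⟨A, B, hA, hB, hd, h0, h2, h1, h3⟩ :=
        key (Equiv.swap 0 1 * Equiv.swap 2 3) (by decide)
      exact ⟨B, A, hB, hA, hd.symm, h1, h3, h0, h2⟩

end GCx

theorem stmt_GC_aux (h0 : GCx.SGc0) (h1c : GCx.SGc1c) : Stmt_GC := by
  intro V _ G v s h1 h2 h3 h4 h5 h6
  exact GCx.gc_main h0 h1c (Nat.card V) V G v s le_rfl ⟨h1, h2, h3, h4, h5, h6⟩

end Pool.Agent.Work.MP_216d61_lc
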