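import Pool.Agent.Work.MP_216d61_lc_full.COL

/-!
# Block NO: no overpass
-/

set_option autoImplicit false
set_option linter.unusedSectionVars false

namespace Pool.Agent.Work.MP_216d61_lc

open Relation Set

namespace NOaux

open COLaux

variable {V : Type} {G : SimpleGraph V} {T K : ℕ} {ray : ℕ → ℕ → V} {S1 : Set V}

/-- there is an overpass beyond `S` -/
def Over (G : SimpleGraph V) (K : ℕ) (ray : ℕ → ℕ → V) (S : Set V) (a b : ℕ) : Prop :=
  ∃ (L : Set V) (lo hi : ℕ → ℕ) (i j s t : ℕ), Col G K ray S a b L lo hi ∧ a < i ∧ i < b ∧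
    a < j ∧ j < b ∧ s < lo i ∧ hi j < t ∧ Lk1 G K ray (S ∪ L) i s j t

theorem Over.mono {S S' : Set V} {a b : ℕ} (h : Over G K ray S' a b) (hS : S ⊆ S') :
    Over G K ray S a b := by
  obtain ⟨L, lo, hi, i, j, s, t, hL, h1, h2, h3, h4, h5, h6, H, g1, g2, g3, g4⟩ := h
  exact ⟨L, lo, hi, i, j, s, t, ⟨hL.fin, hL.conn, hL.disj.mono_right hS, hL.le, hL.on, hL.off,
    hL.enda, hL.endb⟩, h1, h2, h3, h4, h5, h6, H, g1, g2,
    g3.mono_right (union_subset_union_left _ hS), g4⟩

theorem gad (hCOL : Stmt_COL) (hst : Strip G T K ray S1) {a b : ℕ} (hb : b < K)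
    (hov : ∀ S : Set V, S.Finite → Over G K ray S a b) (S : Set V) (hS : S.Finite) :
    Gad G K ray S a b a b := by
  have hr := hst.rays
  obtain ⟨M0, hM0⟩ := exists_bound hr hS
  -- we do not know `i` yet: take all columns `[a, i]`
  have hab : a < b := by
    obtain ⟨L, lo, hi, i, j, s, t, hL, h1, h2, _⟩ := hov S hS
    omega
  have hE : ∀ i, ∃ (E : Set V) (lo hi : ℕ → ℕ), a ≤ i → i < K →
      Col G K ray (S ∪ ini ray K M0) a i E lo hi := by
    intro i
    by_cases h : a ≤ i ∧ i < K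
    · obtain ⟨E, lo, hi, hE⟩ := hCOL V G T K ray S1 hst (S ∪ ini ray K M0) a i
        (hS.union (ini_finite _)) h.1 h.2
      exact ⟨E, lo, hi, fun _ _ => hE⟩
    · exact ⟨∅, fun _ => 0, fun _ => 0, fun h1 h2 => absurd ⟨h1, h2⟩ h⟩
  choose E loE hiE hE using hE
  -- everything up to now
  set A : Set V := S ∪ ini ray K M0 ∪ ⋃ i ∈ {i | a ≤ i ∧ i < K}, E i with hA
  have hAf : A.Finite := by
    refine (hS.union (ini_finite _)).union (Set.Finite.biUnion ?_ ?_)
    · exact (Set.finite_Iio K).subset fun i hi => hi.2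
    · intro i hi
      exact (hE i hi.1 hi.2).fin
  obtain ⟨M, hM⟩ := exists_bound hr hAf
  obtain ⟨L, lo, hi, i, j, s, t, hL, hai, hib, haj, hjb, hs, ht, H, hHf, hHc, hHd, hHs, hHt,
    hHo⟩ := hov (A ∪ ini ray K M) (hAf.union (ini_finite _))
  have hiK : i < K := by omega
  have hjK : j < K := by omega
  have haK : a < K := by omega
  have hEi := hE i hai.le hiK
  -- the column after everything
  set A' : Set V := A ∪ ini ray K M ∪ L ∪ H with hA'
  have hA'f : A'.Finite := ((hAf.union (ini_finite _)).union hL.fin).union hHf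
  obtain ⟨M', hM'⟩ := exists_bound hr hA'f
  obtain ⟨E', loE', hiE', hE'⟩ := hCOL V G T K ray S1 hst (A' ∪ ini ray K M') j b
    (hA'f.union (ini_finite _)) hjb.le hb
  -- positions
  set e := hiE i i with he
  have he' : loE i i = e := hEi.endb
  have heE : ray i e ∈ E i := (hEi.on i hai.le le_rfl e).2 ⟨he'.le, le_rfl⟩
  have heM : e ≤ M := hM i hiK e (Or.inr (mem_biUnion ⟨hai.le, hiK⟩ heE))
  have heM0 : M0 < e := by
    by_contra hn
    exact Set.disjoint_left.1 hEi.disj heE (Or.inr ⟨i, hiK, e, not_lt.1 hn, rfl⟩)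
  have hsM : M < s := by
    by_contra hn
    exact Set.disjoint_left.1 hHd hHs (Or.inl (Or.inr ⟨i, hiK, s, not_lt.1 hn, rfl⟩))
  have htM : M < t := by
    by_contra hn
    exact Set.disjoint_left.1 hHd hHt (Or.inl (Or.inr ⟨j, hjK, t, not_lt.1 hn, rfl⟩))
  have hM0M : M0 ≤ M := (heM0.le).trans heM
  set e1 := loE' j with he1
  have he1E : ray j e1 ∈ E' := (hE'.on j le_rfl hjb.le e1).2 ⟨le_rfl, hE'.le j le_rfl hjb.le⟩
  have he1M : M' < e1 := by
    by_contra hn
    exact Set.disjoint_left.1 hE'.disj he1E (Or.inr ⟨j, hjK, e1, not_lt.1 hn, rfl⟩)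
  have htM' : t ≤ M' := hM' j hjK t (Or.inr hHt)
  set s1 := loE i a with hs1
  have hs1E : ray a s1 ∈ E i := (hEi.on a le_rfl hai.le s1).2 ⟨le_rfl, hEi.le a le_rfl hai.le⟩
  have hs1M : s1 ≤ M := hM a haK s1 (Or.inr (mem_biUnion ⟨hai.le, hiK⟩ hs1E))
  set s0 := lo a with hs0
  have hs0L : ray a s0 ∈ L := (hL.on a le_rfl hab.le s0).2 ⟨le_rfl, hL.le a le_rfl hab.le⟩
  have hs0M : M < s0 := by
    by_contra hn
    exact Set.disjoint_left.1 hL.disj hs0L (Or.inr ⟨a, haK, s0, not_lt.1 hn, rfl⟩)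
  set t0 := hi b with ht0
  have ht0' : lo b = t0 := hL.endb
  have ht0L : ray b t0 ∈ L := (hL.on b hab.le le_rfl t0).2 ⟨ht0'.le, le_rfl⟩
  have ht0M' : t0 ≤ M' := hM' b hb t0 (Or.inl (Or.inr ht0L))
  set t1 := loE' b with ht1
  have ht1E : ray b t1 ∈ E' := (hE'.on b hjb.le le_rfl t1).2 ⟨le_rfl, hE'.le b hjb.le le_rfl⟩
  have ht1M' : M' < t1 := by
    by_contra hn
    exact Set.disjoint_left.1 hE'.disj ht1E (Or.inr ⟨b, hb, t1, not_lt.1 hn, rfl⟩)
  have ht1' : hiE' b = t1 := hE'.endb.symm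
  have hs1' : hiE i a = s1 := hEi.enda.symm
  have hsA : ∀ {x : V}, x ∈ S → x ∈ A := fun hx => Or.inl (Or.inl hx)
  have hEA : E i ⊆ A := fun x hx => Or.inr (mem_biUnion ⟨hai.le, hiK⟩ hx)
  -- membership of ray vertices in `P`
  refine ⟨E i ∪ seg ray i e s ∪ H ∪ seg ray j t e1 ∪ E', L, s1, s0, t0, t1, ?_, hL.fin, ?_,
    hL.conn, ?_, ?_, ?_, by omega, by omega, ?_, ?_, ht0L, hs0L, ?_, ?_, ?_, ?_, ?_⟩
  · exact (((hEi.fin.union (seg_finite _ _ _)).union hHf).union (seg_finite _ _ _)).union hE'.fin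
  · have c1 := conn_union hEi.conn (seg_conn hr hiK (p := e) (q := s) (by omega)) heE
      ⟨e, le_rfl, by omega, rfl⟩
    have c2 := conn_union c1 hHc (Or.inr ⟨s, by omega, le_rfl, rfl⟩) hHs
    have c3 := conn_union c2 (seg_conn hr hjK (p := t) (q := e1) (by omega)) (Or.inr hHt)
      ⟨t, le_rfl, by omega, rfl⟩
    exact conn_union c3 hE'.conn (Or.inr ⟨e1, by omega, le_rfl, rfl⟩) he1E
  · rw [disjoint_union_left, disjoint_union_left, disjoint_union_left, disjoint_union_left]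
    refine ⟨⟨⟨⟨?_, ?_⟩, ?_⟩, ?_⟩, ?_⟩
    · exact (hL.disj.mono_right (hEA.trans subset_union_left)).symm
    · rw [disjoint_left]
      rintro _ ⟨m, h1, h2, rfl⟩ h3
      have := (hL.on i hai.le hib.le m).1 h3
      omega
    · exact hHd.mono_right subset_union_right
    · rw [disjoint_left]
      rintro _ ⟨m, h1, h2, rfl⟩ h3
      have := (hL.on j haj.le hjb.le m).1 h3
      omega
    · refine hE'.disj.mono_right ?_
      exact (subset_union_right.trans subset_union_left).trans subset_union_left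
  · rw [disjoint_union_left, disjoint_union_left, disjoint_union_left, disjoint_union_left]
    refine ⟨⟨⟨⟨?_, ?_⟩, ?_⟩, ?_⟩, ?_⟩
    · exact hEi.disj.mono_right subset_union_left
    · rw [disjoint_left]
      rintro _ ⟨m, h1, h2, rfl⟩ h3
      have := hM0 i hiK m h3
      omega
    · rw [disjoint_left]
      intro x hx hx'
      exact disjoint_left.1 hHd hx (Or.inl (Or.inl (hsA hx')))
    · rw [disjoint_left]
      rintro _ ⟨m, h1, h2, rfl⟩ h3
      have := hM0 j hjK m h3
      omega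
    · rw [disjoint_left]
      intro x hx hx'
      exact disjoint_left.1 hE'.disj hx (Or.inl (Or.inl (Or.inl (Or.inl (hsA hx')))))
  · rw [disjoint_left]
    intro x hx hx'
    exact disjoint_left.1 hL.disj hx (Or.inl (hsA hx'))
  · exact Or.inl (Or.inl (Or.inl (Or.inl hs1E)))
  · exact Or.inr ht1E
  · intro n hn h
    have := (hL.on a le_rfl hab.le n).1 h
    omega
  · intro n hn h
    rcases h with (((h | h) | h) | h) | h
    · have := (hEi.on a le_rfl hai.le n).1 h
      omega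
    · rw [mem_seg hr hiK haK] at h
      omega
    · rcases hHo a haK n h with ⟨h1, _⟩ | ⟨h1, _⟩ <;> omega
    · rw [mem_seg hr hjK haK] at h
      omega
    · exact hE'.off a haK (Or.inl haj) n h
  · intro n hn h
    rcases h with (((h | h) | h) | h) | h
    · exact hEi.off b hb (Or.inr hib) n h
    · rw [mem_seg hr hiK hb] at h
      omega
    · rcases hHo b hb n h with ⟨h1, _⟩ | ⟨h1, _⟩ <;> omega
    · rw [mem_seg hr hjK hb] at h
      omega
    · have := (hE'.on b hjb.le le_rfl n).1 h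
      omega
  · intro n hn h
    have := (hL.on b hab.le le_rfl n).1 h
    omega
  · intro i' hi' h1 n
    refine ⟨fun h => ?_, hL.off i' hi' h1 n⟩
    rcases h with (((h | h) | h) | h) | h
    · exact hEi.off i' hi' (by omega) n h
    · rw [mem_seg hr hiK hi'] at h
      omega
    · rcases hHo i' hi' n h with ⟨h1, _⟩ | ⟨h1, _⟩ <;> omega
    · rw [mem_seg hr hjK hi'] at h
      omega
    · exact hE'.off i' hi' (by omega) n h

end NOaux

open COLaux NOaux in
theorem stmt_NO (hSWP : Stmt_SWP) (hMOV : Stmt_MOV) : Stmt_NO := by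
  intro V G T K ray S1 hst
  have hr := hst.rays
  by_contra hno
  -- overpasses over `[a,b]` beyond every finite set
  obtain ⟨a, b, hTa, hbT, hov⟩ : ∃ a b, T ≤ a ∧ b + T < K ∧
      ∀ S : Set V, S.Finite → Over G K ray S a b := by
    by_contra hcon
    push Not at hcon
    have h1 : ∀ a b, ∃ S : Set V, S.Finite ∧ (T ≤ a → b + T < K → ¬ Over G K ray S a b) := by
      intro a b
      by_cases h : T ≤ a ∧ b + T < K
      · obtain ⟨S, hS, h2⟩ := hcon a b h.1 h.2
        exact ⟨S, hS, fun _ _ => h2⟩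
      · exact ⟨∅, finite_empty, fun h1 h2 => absurd ⟨h1, h2⟩ h⟩
    choose Sab hSf hSp using h1
    apply hno
    refine ⟨S1 ∪ ⋃ a ∈ Set.Iio K, ⋃ b ∈ Set.Iio K, Sab a b, ?_, subset_union_left, ?_⟩
    · refine hst.fin.union ?_
      exact (finite_Iio K).biUnion fun a _ => (finite_Iio K).biUnion fun b _ => hSf a b
    · intro a b L lo hi hTa hbT hL i j s t h1 h2 h3 h4 h5 h6 h7
      apply hSp a b hTa hbT
      have hO : Over G K ray (S1 ∪ ⋃ a ∈ Set.Iio K, ⋃ b ∈ Set.Iio K, Sab a b) a b :=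
        ⟨L, lo, hi, i, j, s, t, hL, h1, h2, h3, h4, h5, h6, h7⟩
      refine hO.mono ?_
      intro x hx
      exact Or.inr (mem_biUnion (show a ∈ Set.Iio K by simp only [mem_Iio]; omega)
        (mem_biUnion (show b ∈ Set.Iio K by simp only [mem_Iio]; omega) hx))
  have hb : b < K := by omega
  have hab : a < b := by
    obtain ⟨L, lo, hi, i, j, s, t, hL, h1, h2, _⟩ := hov ∅ finite_empty
    omega
  have hgad := gad stmt_COL hst hb hov
  apply hst.noT
  refine hSWP V G K ray T K id a b a b hr (fun i hi => hi) (fun i _ j _ h => h) hst.ra hTa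
    le_rfl hab le_rfl hbT ?_
  intro f E t t' htt hf hft hft' hfo hTok
  have hex := (hMOV V G K ray T hr).2.2.2.1 f E t t' a b hTok htt (by
    intro S hS
    rw [hft, hft']
    exact hgad S hS) hfo
  rw [hft, hft'] at hex
  exact hex

end Pool.Agent.Work.MP_216d61_lc
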