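import Pool.Agent.Work.MP_216d61_lc_full.InterfaceLIM

/-!
# Block SML: small sets have small neighbourhoods
-/

set_option autoImplicit false

namespace Pool.Agent.Work.MP_216d61_lc

open Relation Set Filter

namespace SMLAux

variable {V : Type} [Fintype V] {G : SimpleGraph V}

open Classical in
/-- the neighbourhood of a small set is small -/
theorem union_nb_le (D : ℕ) (S : Set V) :
    (S ∪ nb G S).ncard ≤ (D + 1) * S.ncard + ∑ x : V, if D < dg G x then dg G x else 0 := by
  have h1 : (nb G S).ncard ≤ ∑ x ∈ S.toFinset, dg G x := by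
    have h2 : nb G S ⊆ ((S.toFinset.biUnion fun x => {y | G.Adj x y}.toFinset : Finset V) : Set V) := by
      rintro y ⟨_, x, hx, h⟩
      simp only [Finset.coe_biUnion, mem_iUnion]
      exact ⟨x, by simpa using hx, by simpa using h⟩
    refine (ncard_le_ncard h2 (Finset.finite_toSet _)).trans ?_
    rw [ncard_coe_finset]
    refine Finset.card_biUnion_le.trans ?_
    refine Finset.sum_le_sum fun x _ => ?_
    rw [dg, ncard_eq_toFinset_card']
  have h3 : ∑ x ∈ S.toFinset, dg G x ≤
      ∑ x ∈ S.toFinset, (D + if D < dg G x then dg G x else 0) := by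
    refine Finset.sum_le_sum fun x _ => ?_
    split_ifs <;> omega
  have h4 : ∑ x ∈ S.toFinset, (D + if D < dg G x then dg G x else 0) ≤
      D * S.ncard + ∑ x : V, if D < dg G x then dg G x else 0 := by
    rw [Finset.sum_add_distrib, Finset.sum_const, smul_eq_mul, ncard_eq_toFinset_card', mul_comm]
    refine Nat.add_le_add_left ?_ _
    exact Finset.sum_le_sum_of_subset (Finset.subset_univ _)
  have h5 := ncard_union_le S (nb G S)
  nlinarith

omit [Fintype V] in
theorem ball_inter {x : V} {R : ℕ} {S : Set V} (h : (ball G x (R + 1) ∩ S).Nonempty) :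
    (ball G x R ∩ (S ∪ nb G S)).Nonempty := by
  obtain ⟨y, hy | ⟨hy, z, hz, hzy⟩, hS⟩ := h
  · exact ⟨y, hy, Or.inl hS⟩
  · refine ⟨z, hz, ?_⟩
    by_cases h : z ∈ S
    · exact Or.inl h
    · exact Or.inr ⟨h, y, hS, hzy.symm⟩

open Classical in
theorem few_high (D : ℕ) :
    {x | D < dg G x}.ncard ≤ ∑ x : V, if D < dg G x then dg G x else 0 := by
  rw [ncard_eq_toFinset_card', Finset.card_eq_sum_ones]
  have : ∑ x ∈ {x | D < dg G x}.toFinset, 1 ≤ ∑ x ∈ {x | D < dg G x}.toFinset,
      if D < dg G x then dg G x else 0 := by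
    refine Finset.sum_le_sum fun x hx => ?_
    have h : D < dg G x := by simpa using hx
    rw [if_pos h]
    omega
  exact this.trans (Finset.sum_le_sum_of_subset (Finset.subset_univ _))

end SMLAux

open SMLAux in
theorem stmt_SML (hUIB : Stmt_UIB) : Stmt_SML := by
  intro ρ ω r hρ hω s
  have key : ∀ (R0 : ℕ) (ε : ℝ), 0 < ε → ∃ δ : ℝ, 0 < δ ∧ ∀ᶠ j in atTop,
      ∀ S : Set (Fin (s.n j)), (S.ncard : ℝ) ≤ δ * s.n j →
      (({x | (ball (s.H j) x R0 ∩ S).Nonempty}.ncard : ℝ) ≤ ε * s.n j) := by
    intro R0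
    induction R0 with
    | zero =>
      intro ε hε
      refine ⟨ε, hε, Eventually.of_forall fun j S hS => ?_⟩
      have h : {x | (ball (s.H j) x 0 ∩ S).Nonempty} = S := by
        ext x
        constructor
        · rintro ⟨y, hy, hS⟩
          rw [ball, mem_singleton_iff] at hy
          rw [← hy]
          exact hS
        · intro hx
          exact ⟨x, rfl, hx⟩
      rw [h]
      exact hS
    | succ R ih =>
      intro ε hε
      obtain ⟨δ', hδ', h1⟩ := ih ε hε
      obtain ⟨D, hD⟩ := hUIB ρ ω r hρ hω s (δ' / 2) (by positivity)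
      refine ⟨δ' / (2 * (D + 1)), by positivity, ?_⟩
      filter_upwards [h1, hD] with j h1 hD S hS
      have h2 := h1 (S ∪ nb (s.H j) S) (by
        have h3 := union_nb_le (G := s.H j) D S
        have h4 : ((S ∪ nb (s.H j) S).ncard : ℝ) ≤ (D + 1) * S.ncard + δ' / 2 * s.n j := by
          have h3' := (Nat.cast_le (α := ℝ)).2 h3
          push_cast at hD h3' ⊢
          linarith
        have h5 : ((D : ℝ) + 1) * S.ncard ≤ (D + 1) * (δ' / (2 * (D + 1)) * s.n j) :=
          mul_le_mul_of_nonneg_left hS (by positivity)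
        have h6 : ((D : ℝ) + 1) * (δ' / (2 * (D + 1)) * s.n j) = δ' / 2 * s.n j := by
          field_simp
        linarith)
      refine le_trans ?_ h2
      have h7 := ncard_le_ncard (s := {x | (ball (s.H j) x (R + 1) ∩ S).Nonempty})
        (t := {x | (ball (s.H j) x R ∩ (S ∪ nb (s.H j) S)).Nonempty})
        (fun x hx => ball_inter hx) (toFinite _)
      exact_mod_cast h7
  intro R0 ε hε
  refine ⟨key R0 ε hε, ?_⟩
  obtain ⟨δ, hδ, h1⟩ := key R0 ε hε
  obtain ⟨D, hD⟩ := hUIB ρ ω r hρ hω s δ hδ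
  refine ⟨D, ?_⟩
  filter_upwards [h1, hD] with j h1 hD
  refine h1 {x | D < dg (s.H j) x} ?_
  refine le_trans ?_ hD
  exact_mod_cast few_high D

end Pool.Agent.Work.MP_216d61_lc
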